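import Pool.Agent.Lib.MP_aa3aaf_al.FockFld

/-!
`n`-th products of arbitrary fields on a superspace, vertex superalgebras of fields,
generated subalgebras and simplicity; the local algebra of the chiral de Rham complex.
-/

set_option autoImplicit false
open scoped BigOperators
noncomputable section
namespace Pool.Agent.AA3

section Par
variable {E : Type*} [AddCommGroup E] [Module ℂ E] (σ : E →ₗ[ℂ] E)

/-- conjugation of a field by the parity operator -/
def cj (a : Fld E) : Fld E :=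
  ⟨fun m => σ ∘ₗ a.1 m ∘ₗ σ, fun v => by
    obtain ⟨N, hN⟩ := a.2 (σ v)
    exact ⟨N, fun m hm => by simp [hN m hm]⟩⟩

/-- even part of a field -/
def evF (a : Fld E) : Fld E := (1 / 2 : ℂ) • (a + cj σ a)
/-- odd part of a field -/
def odF (a : Fld E) : Fld E := (1 / 2 : ℂ) • (a - cj σ a)

/-- the `m`-th product `a₍ₘ₎ b` of two fields on a superspace with parity operator `σ`
(bilinear; the sign in `np` is `-1` when both fields are odd and `1` otherwise) -/
def nprod (m : ℤ) (a b : Fld E) : Fld E :=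
  np 1 m (evF σ a) b + np 1 m (odF σ a) (evF σ b) + np (-1) m (odF σ a) (odF σ b)

/-- the supercommutator of an odd operator `S` with a field -/
def scomm (S : E →ₗ[ℂ] E) (a : Fld E) : Fld E :=
  ⟨fun m => S ∘ₗ a.1 m - (σ ∘ₗ a.1 m ∘ₗ σ) ∘ₗ S, fun v => by
    obtain ⟨N, hN⟩ := a.2 v
    obtain ⟨M, hM⟩ := a.2 (σ (S v))
    refine ⟨max N M, fun m hm => ?_⟩
    simp [hN m (le_trans (le_max_left _ _) hm), hM m (le_trans (le_max_right _ _) hm)]⟩

end Par

/-- A space with `m`-th products, a vacuum and a supersymmetry operator. -/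
structure VAlg (𝒱 : Type*) [AddCommGroup 𝒱] [Module ℂ 𝒱] where
  /-- the products `a₍ₘ₎ b` -/
  prod : ℤ → 𝒱 → 𝒱 → 𝒱
  /-- the vacuum -/
  one : 𝒱
  /-- the supersymmetry operator -/
  S : 𝒱 → 𝒱

namespace VAlg

/-- product of a family -/
def pi {ι : Type*} {𝒱 : ι → Type*} [∀ i, AddCommGroup (𝒱 i)] [∀ i, Module ℂ (𝒱 i)]
    (X : ∀ i, VAlg (𝒱 i)) : VAlg (∀ i, 𝒱 i) where
  prod m a b := fun i => (X i).prod m (a i) (b i)
  one := fun i => (X i).one
  S a := fun i => (X i).S (a i)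

variable {𝒱 : Type*} [AddCommGroup 𝒱] [Module ℂ 𝒱] (X : VAlg 𝒱)

/-- The supersymmetric vertex subalgebra generated by `s`: the smallest subspace containing the
vacuum and `s` and stable under all products and under the supersymmetry operator. -/
def gen (s : 𝒱) : Submodule ℂ 𝒱 :=
  sInf {W | X.one ∈ W ∧ s ∈ W ∧ (∀ m a b, a ∈ W → b ∈ W → X.prod m a b ∈ W) ∧
    ∀ a, a ∈ W → X.S a ∈ W}

/-- A vertex subalgebra `W` is simple: it is not zero, and every nonzero subspace `I` of `W` with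
`a₍ₘ₎ b ∈ I` for all `a ∈ W`, `b ∈ I` is all of `W`. -/
def IsSimple (W : Submodule ℂ 𝒱) : Prop :=
  W ≠ ⊥ ∧ ∀ I : Submodule ℂ 𝒱, I ≤ W → I ≠ ⊥ →
    (∀ m a b, a ∈ W → b ∈ I → X.prod m a b ∈ I) → I = W

end VAlg

section Local
variable {n : ℕ} {A : Type*} [CommRing A] [Algebra ℂ A] (D : DS n A)

/-- parity of the Fock space, as a complex linear map -/
def sgC (n : ℕ) (A : Type*) [CommRing A] [Algebra ℂ A] : EE n A →ₗ[ℂ] EE n A :=
  (sgE n A).restrictScalars ℂ

/-- normally ordered product of fields on the Fock space -/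
def nop (a b : Fld (EE n A)) : Fld (EE n A) := nprod (sgC n A) (-1) a b

/-- The supersymmetry operator: zero mode of `∑ c^i β_i + b_i ∂γ^i`. -/
def susyOp : EE n A →ₗ[ℂ] EE n A :=
  ∑ i, ((nop (cF n A i) (βF D i)).1 0 + (nop (bF n A i) (xF n A i)).1 0)

/-- The fields on the Fock space of the `bc`-`βγ` system over `(A, ∂)` with their `m`-th
products, identity and supersymmetry. -/
def omegaCh : VAlg (Fld (EE n A)) where
  prod m a b := nprod (sgC n A) m a b
  one := idFld (EE n A)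
  S a := scomm (sgC n A) (susyOp D) a

/-- The section attached to a 3-form with components `p i j k`, for a metric with inverse `gi` and
Christoffel symbols `Γ m l i = Γ^m_{li}`, using the odd fields `e i`:
`∑ p_{ijk} e^i e^j e^k + 3 ∑ g^{ij} Γ^m_{li} p_{mjk} ∂γ^l e^k`. -/
def formSection (gi : Matrix (Fin n) (Fin n) A) (Γ p : Fin n → Fin n → Fin n → A)
    (e : Fin n → Fld (EE n A)) : Fld (EE n A) :=
  ∑ i, ∑ j, ∑ k, nop (fnF D (p i j k)) (nop (e i) (nop (e j) (e k)))
    + (3 : ℂ) • ∑ l, ∑ k, nop (fnF D (∑ i, ∑ j, ∑ m, gi i j * Γ m l i * p m j k))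
        (nop (xF n A l) (e k))

/-- Christoffel symbols `Γ^m_{li}` of the metric `g` with inverse `gi`. -/
def christoffel (g gi : Matrix (Fin n) (Fin n) A) (m l i : Fin n) : A :=
  ∑ r, gi m r * ((1 / 2 : ℂ) • (D.d l (g r i) + D.d i (g r l) - D.d r (g l i)))

/-- `e^i_+ = (∑ g^{ij} b_j + c^i) / √2` -/
def ePlus (gi : Matrix (Fin n) (Fin n) A) (i : Fin n) : Fld (EE n A) :=
  (1 / (Real.sqrt 2 : ℂ)) • (∑ j, nop (fnF D (gi i j)) (bF n A j) + cF n A i)

/-- `e^i_- = (∑ g^{ij} b_j - c^i) / √(-2)`, with `√(-2) = √2 i` -/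
def eMinus (gi : Matrix (Fin n) (Fin n) A) (i : Fin n) : Fld (EE n A) :=
  (1 / ((Real.sqrt 2 : ℂ) * Complex.I)) • (∑ j, nop (fnF D (gi i j)) (bF n A j) - cF n A i)

end Local

end Pool.Agent.AA3
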