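import Pool.Agent.Lib.MP_aa3aaf_al.VSA

/-!
Calculus in a vertex superalgebra `VSA`: translation operator, parities, skew symmetry,
normally ordered products, simple commutation relations (task F3).
-/

set_option autoImplicit false
open scoped BigOperators
noncomputable section
namespace Pool.Agent.AA3

namespace F3

lemma bin_zero_right (m : ℤ) : bin m 0 = 1 := by
  simp [bin]

lemma bin_one_right (m : ℤ) : bin m 1 = (m : ℂ) := by
  simp [bin]

lemma bin_zero_succ (j : ℕ) : bin 0 (j + 1) = 0 := by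
  simp [bin]

lemma bin_neg (m : ℤ) (j : ℕ) : bin (-m) j = (-1) ^ j * bin (m + j - 1) j := by
  unfold bin
  rw [Ring.choose_neg, Units.smul_def, smul_eq_mul]
  push_cast
  congr 1
  rcases Nat.even_or_odd j with h | h
  · rw [Int.negOnePow_even _ (by exact_mod_cast h), h.neg_one_pow]; simp
  · rw [Int.negOnePow_odd _ (by exact_mod_cast h), h.neg_one_pow]; simp

lemma bin_neg_one (j : ℕ) : bin (-1) j = (-1) ^ j := by
  rw [bin_neg]
  have : bin (1 + (j : ℤ) - 1) j = 1 := by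
    rw [show (1 + (j : ℤ) - 1) = (j : ℤ) by ring]
    unfold bin
    rw [Ring.choose_natCast, Nat.choose_self]; simp
  rw [this, mul_one]

lemma bin_neg_two (j : ℕ) : bin (-2) j = (-1) ^ j * (j + 1) := by
  rw [bin_neg]
  have : bin (2 + (j : ℤ) - 1) j = j + 1 := by
    rw [show (2 + (j : ℤ) - 1) = ((j + 1 : ℕ) : ℤ) by push_cast; ring]
    unfold bin
    rw [Ring.choose_natCast, Nat.choose_succ_self_right]; simp
  rw [this]

lemma neg_one_pow_mul_self (j : ℕ) : ((-1 : ℂ)) ^ j * (-1) ^ j = 1 := by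
  rw [← mul_pow]; simp

lemma neg_one_zpow_neg_two : ((-1 : ℂ)) ^ (-2 : ℤ) = 1 := by norm_num

lemma neg_one_zpow_neg_one : ((-1 : ℂ)) ^ (-1 : ℤ) = -1 := by norm_num

end F3

namespace VSA
variable {E : Type*} [AddCommGroup E] [Module ℂ E] (V : VSA E)

open F3

theorem T_vac : V.T V.vac = 0 := by
  show V.Y V.vac (-2) V.vac = 0
  rw [V.Y_vac]
  simp

/-- every element is a sum of an even and an odd one -/
lemma exists_par (a : E) : ∃ a0 a1 : E, V.Par 0 a0 ∧ V.Par 1 a1 ∧ a = a0 + a1 := by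
  refine ⟨(1 / 2 : ℂ) • (a + V.sg a), (1 / 2 : ℂ) • (a - V.sg a), ?_, ?_, ?_⟩
  · show V.sg _ = _
    rw [map_smul, map_add, V.sg_sg, pow_zero, one_smul, add_comm]
  · show V.sg _ = _
    rw [map_smul, map_sub, V.sg_sg, pow_one, neg_smul, one_smul, ← smul_neg, neg_sub]
  · rw [← smul_add]
    have : a + V.sg a + (a - V.sg a) = (2 : ℂ) • a := by rw [two_smul]; abel
    rw [this, smul_smul]; norm_num

lemma exists_bound' (a b : E) (n : ℤ) (v w : E) :
    ∃ N : ℕ, ∀ j : ℕ, N ≤ j → V.Y b (n + j) v = 0 ∧ V.Y a j w = 0 := by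
  obtain ⟨N, hN⟩ := V.trunc a w
  obtain ⟨M, hM⟩ := V.trunc b v
  refine ⟨(max N (M - n)).toNat, fun j hj => ?_⟩
  have h0 : max N (M - n) ≤ (j : ℤ) := le_trans (Int.self_le_toNat _) (by exact_mod_cast hj)
  have h1 : N ≤ (j : ℤ) := le_trans (le_max_left _ _) h0
  have h2 : M - n ≤ (j : ℤ) := le_trans (le_max_right _ _) h0
  exact ⟨hM _ (by omega), hN _ h1⟩

lemma Par_vac : V.Par 0 V.vac := by
  show V.sg V.vac = _
  rw [V.sg_vac, pow_zero, one_smul]

theorem Y_T (a : E) (n : ℤ) (v : E) : V.Y (V.T a) n v = (-(n : ℂ)) • V.Y a (n - 1) v := by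
  have key : ∀ (p : ℕ) (a : E), V.Par p a →
      V.Y (V.T a) n v = (-(n : ℂ)) • V.Y a (n - 1) v := by
    intro p a ha
    obtain ⟨N, hN⟩ := V.exists_bound' a V.vac n v v
    show V.Y (V.Y a (-2) V.vac) n v = _
    have hN' : ∀ j : ℕ, max N (n.natAbs + 1) ≤ j → V.Y V.vac (n + j) v = 0 ∧ V.Y a j v = 0 :=
      fun j hj => hN j (le_trans (le_max_left _ _) hj)
    rw [V.assoc p 0 a V.vac ha V.Par_vac (-2) n v _ hN']
    have hterm : ∀ j : ℕ, ((-1 : ℂ) ^ j * bin (-2) j) •
          (V.Y a (-2 - j) (V.Y V.vac (n + j) v)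
            - ((-1 : ℂ) ^ (-2 : ℤ) * (-1 : ℂ) ^ (p * 0)) • V.Y V.vac (-2 + n - j) (V.Y a j v))
        = (if (j : ℤ) = -1 - n then (-(n : ℂ)) • V.Y a (n - 1) v else 0) +
          (if (j : ℤ) = n - 1 then (-(n : ℂ)) • V.Y a (n - 1) v else 0) := by
      intro j
      rw [bin_neg_two, ← mul_assoc, neg_one_pow_mul_self, one_mul, neg_one_zpow_neg_two,
        mul_zero, pow_zero, one_mul, one_smul, V.Y_vac, V.Y_vac, smul_sub, sub_eq_add_neg]
      congr 1
      · by_cases h : (j : ℤ) = -1 - n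
        · rw [if_pos (by omega), if_pos h]
          have e1 : (-2 - (j : ℤ)) = n - 1 := by omega
          have e2 : ((j : ℂ) + 1) = -(n : ℂ) := by
            have : ((j : ℤ) : ℂ) = ((-1 - n : ℤ) : ℂ) := by rw [h]
            push_cast at this
            rw [this]; ring
          rw [e1, e2]; rfl
        · rw [if_neg (by omega), if_neg h]
          simp
      · by_cases h : (j : ℤ) = n - 1
        · rw [if_pos (by omega), if_pos h]
          have e2 : ((j : ℂ) + 1) = (n : ℂ) := by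
            have : ((j : ℤ) : ℂ) = ((n - 1 : ℤ) : ℂ) := by rw [h]
            push_cast at this
            rw [this]; ring
          rw [e2, LinearMap.id_apply, h, neg_smul]
        · rw [if_neg (by omega), if_neg h]
          simp
    rw [Finset.sum_congr rfl fun j _ => hterm j, Finset.sum_add_distrib]
    rcases lt_trichotomy n 0 with hn | hn | hn
    · have hj0 : (-1 - n).toNat ∈ Finset.range (max N (n.natAbs + 1)) := by
        rw [Finset.mem_range]
        exact lt_of_lt_of_le (by omega) (le_max_right _ _)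
      rw [Finset.sum_eq_single_of_mem _ hj0, Finset.sum_eq_zero, add_zero, if_pos (by omega)]
      · intro j _
        rw [if_neg (by omega)]
      · intro j _ hj
        rw [if_neg (by omega)]
    · subst hn
      rw [Finset.sum_eq_zero, Finset.sum_eq_zero]
      · simp
      · intro j _
        rw [if_neg (by omega)]
      · intro j _
        rw [if_neg (by omega)]
    · have hj0 : (n - 1).toNat ∈ Finset.range (max N (n.natAbs + 1)) := by
        rw [Finset.mem_range]
        exact lt_of_lt_of_le (by omega) (le_max_right _ _)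
      rw [Finset.sum_eq_zero, Finset.sum_eq_single_of_mem _ hj0, zero_add, if_pos (by omega)]
      · intro j _ hj
        rw [if_neg (by omega)]
      · intro j _
        rw [if_neg (by omega)]
  obtain ⟨a0, a1, h0, h1, rfl⟩ := V.exists_par a
  rw [map_add, map_add, Pi.add_apply, LinearMap.add_apply, key 0 a0 h0, key 1 a1 h1, map_add,
    Pi.add_apply, LinearMap.add_apply, smul_add]

theorem T_Y (a : E) (n : ℤ) (v : E) :
    V.T (V.Y a n v) = V.Y (V.T a) n v + V.Y a n (V.T v) := by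
  have key : ∀ (p q : ℕ) (a v : E), V.Par p a → V.Par q v →
      V.T (V.Y a n v) = V.Y (V.T a) n v + V.Y a n (V.T v) := by
    intro p q a v ha hv
    show V.Y (V.Y a n v) (-2) V.vac = _
    obtain ⟨N, hN⟩ := V.exists_bound' a v (-2) V.vac V.vac
    have hN' : ∀ j : ℕ, N + 2 ≤ j → V.Y v (-2 + j) V.vac = 0 ∧ V.Y a j V.vac = 0 :=
      fun j hj => hN j (by omega)
    rw [V.assoc p q a v ha hv n (-2) V.vac _ hN', Finset.sum_range_succ', Finset.sum_range_succ',
      Finset.sum_eq_zero]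
    · rw [zero_add, V.create' a, V.create' a]
      simp only [map_zero, smul_zero, sub_zero]
      rw [V.Y_T]
      have e1 : (-2 + ((0 + 1 : ℕ) : ℤ)) = -1 := by norm_num
      have e2 : (-2 + ((0 : ℕ) : ℤ)) = -2 := by norm_num
      have e3 : n - ((0 : ℕ) : ℤ) = n := by simp
      have e4 : n - ((0 + 1 : ℕ) : ℤ) = n - 1 := by simp
      rw [e1, e2, e3, e4, V.create, bin_zero_right, zero_add, bin_one_right]
      simp only [pow_one, pow_zero, mul_one, one_smul, neg_mul, one_mul]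
      rfl
    · intro j _
      have e : (-2 + ((j + 1 + 1 : ℕ) : ℤ)) = ((j : ℕ) : ℤ) := by push_cast; ring
      rw [e, V.create', V.create']
      simp
  obtain ⟨a0, a1, h0, h1, rfl⟩ := V.exists_par a
  obtain ⟨v0, v1, k0, k1, rfl⟩ := V.exists_par v
  simp only [map_add, Pi.add_apply, LinearMap.add_apply]
  rw [key _ _ _ _ h0 k0, key _ _ _ _ h0 k1, key _ _ _ _ h1 k0, key _ _ _ _ h1 k1]
  abel

theorem Par.Y {V : VSA E} {p q : ℕ} {a b : E} (ha : V.Par p a) (hb : V.Par q b) (n : ℤ) :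
    V.Par (p + q) (V.Y a n b) := by
  unfold VSA.Par at *
  rw [V.sg_Y, ha, hb]
  simp only [map_smul, Pi.smul_apply, LinearMap.smul_apply, smul_smul, pow_add]
  congr 1
  ring

theorem Par.add {V : VSA E} {p : ℕ} {a b : E} (ha : V.Par p a) (hb : V.Par p b) :
    V.Par p (a + b) := by
  unfold VSA.Par at *
  rw [map_add, ha, hb, smul_add]

theorem Par.smul {V : VSA E} {p : ℕ} {a : E} (c : ℂ) (ha : V.Par p a) :
    V.Par p (c • a) := by
  unfold VSA.Par at *
  rw [map_smul, ha, smul_comm]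

theorem Par.sum {V : VSA E} {p : ℕ} {ι : Type*} (s : Finset ι) {a : ι → E}
    (ha : ∀ i ∈ s, V.Par p (a i)) : V.Par p (∑ i ∈ s, a i) := by
  unfold VSA.Par at *
  rw [map_sum, Finset.smul_sum]
  exact Finset.sum_congr rfl ha

theorem Par.T {V : VSA E} {p : ℕ} {a : E} (ha : V.Par p a) : V.Par p (V.T a) :=
  Par.Y ha V.Par_vac (-2)

theorem Par.congr {V : VSA E} {p q : ℕ} {a : E} (ha : V.Par p a) (h : p % 2 = q % 2) :
    V.Par q a := by
  unfold VSA.Par at *
  have e : ((-1 : ℂ)) ^ q = (-1) ^ p := by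
    rw [neg_one_pow_eq_pow_mod_two (n := q), neg_one_pow_eq_pow_mod_two (n := p), h]
  rw [ha, e]

/-- modes creating from the vacuum: `a₍₋ₖ₋₁₎ 1 = T^k a / k!` -/
theorem Y_vac_neg (a : E) (k : ℕ) :
    V.Y a (-(k : ℤ) - 1) V.vac = (1 / (k.factorial : ℂ)) • (V.T ^ k) a := by
  induction k with
  | zero =>
    simp only [Nat.cast_zero, neg_zero, zero_sub, Nat.factorial_zero, Nat.cast_one, pow_zero]
    rw [V.create]
    simp
  | succ k ih =>
    have h1 : V.T (V.Y a (-(k : ℤ) - 1) V.vac) =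
        ((k : ℂ) + 1) • V.Y a (-((k + 1 : ℕ) : ℤ) - 1) V.vac := by
      rw [V.T_Y, V.T_vac, map_zero, add_zero, V.Y_T]
      have e : (-(k : ℤ) - 1 - 1) = (-((k + 1 : ℕ) : ℤ) - 1) := by push_cast; ring
      rw [e]
      congr 1
      push_cast
      ring
    have h2 : ((k : ℂ) + 1) ≠ 0 := by exact_mod_cast Nat.succ_ne_zero k
    have h3 : V.Y a (-((k + 1 : ℕ) : ℤ) - 1) V.vac =
        (1 / ((k : ℂ) + 1)) • V.T (V.Y a (-(k : ℤ) - 1) V.vac) := by
      rw [h1, smul_smul, one_div_mul_cancel h2, one_smul]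
    rw [h3, ih, map_smul, smul_smul, pow_succ', Module.End.mul_apply, Nat.factorial_succ]
    congr 1
    have h4 : ((k.factorial : ℕ) : ℂ) ≠ 0 := by exact_mod_cast Nat.factorial_ne_zero k
    push_cast
    field_simp

lemma exists_trunc_nat (a b : E) : ∃ N : ℕ, ∀ j : ℕ, N ≤ j → V.Y a j b = 0 := by
  obtain ⟨N, hN⟩ := V.trunc a b
  exact ⟨N.toNat, fun j hj => hN j (by omega)⟩

/-- zero modes are derivations -/
theorem zm_der {p q : ℕ} {a b : E} (ha : V.Par p a) (hb : V.Par q b) (n : ℤ) (v : E) :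
    V.zm a (V.Y b n v) = V.Y (V.zm a b) n v + (-1 : ℂ) ^ (p * q) • V.Y b n (V.zm a v) := by
  obtain ⟨N, hN⟩ := V.exists_trunc_nat a b
  have h := V.comm p q a b ha hb (N + 1) (fun j hj => hN j (by omega)) 0 n v
  rw [Finset.sum_range_succ', Finset.sum_eq_zero (fun j _ => by rw [bin_zero_succ, zero_smul]),
    zero_add, bin_zero_right, one_smul] at h
  have e : (0 + n - ((0 : ℕ) : ℤ)) = n := by simp
  rw [e] at h
  show V.Y a 0 (V.Y b n v) = V.Y (V.Y a 0 b) n v + (-1 : ℂ) ^ (p * q) • V.Y b n (V.Y a 0 v)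
  rw [← sub_eq_iff_eq_add]
  exact h

/-- skew symmetry for the products `n ≥ 0` -/
theorem skew {p q : ℕ} {a b : E} (ha : V.Par p a) (hb : V.Par q b) (n N : ℕ)
    (hN : ∀ j : ℕ, N ≤ j → V.Y b (n + j : ℕ) a = 0) :
    V.Y a n b = -((-1 : ℂ) ^ (p * q) * (-1) ^ n) •
      ∑ j ∈ Finset.range N, ((-1 : ℂ) ^ j / (j.factorial : ℂ)) • (V.T ^ j) (V.Y b (n + j : ℕ) a) := by
  have h := V.comm q p b a hb ha (n + N)
    (fun j hj => by
      have := hN (j - n) (by omega)
      rwa [show n + (j - n) = j by omega] at this) (-1) n V.vac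
  rw [V.create', map_zero, zero_sub, V.create] at h
  have h1 : ((-1 : ℂ) ^ (q * p)) • V.Y a n b =
      - ∑ j ∈ Finset.range (n + N), bin (-1) j • V.Y (V.Y b j a) (-1 + n - j) V.vac := by
    rw [← h, neg_neg]
  have h2 : V.Y a n b = ((-1 : ℂ) ^ (p * q)) • (((-1 : ℂ) ^ (q * p)) • V.Y a n b) := by
    rw [smul_smul, mul_comm q p, neg_one_pow_mul_self, one_smul]
  rw [h2, h1, Finset.sum_range_add, Finset.sum_eq_zero, zero_add, neg_smul, smul_neg,
    mul_smul]
  · congr 2
    rw [Finset.smul_sum]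
    refine Finset.sum_congr rfl fun j _ => ?_
    have e : (-1 + (n : ℤ) - ((n + j : ℕ) : ℤ)) = -(j : ℤ) - 1 := by push_cast; ring
    rw [e, V.Y_vac_neg, smul_smul, smul_smul, bin_neg_one, pow_add]
    congr 1
    ring
  · intro j hj
    rw [Finset.mem_range] at hj
    have e : (-1 + (n : ℤ) - (j : ℤ)) = ((n - 1 - j : ℕ) : ℤ) := by omega
    rw [e, V.create', smul_zero]

/-- commutation of the normally ordered product -/
theorem mul_comm' {p q : ℕ} {a b : E} (ha : V.Par p a) (hb : V.Par q b) (N : ℕ)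
    (hN : ∀ j : ℕ, N ≤ j → V.Y a j b = 0) :
    V.mul a b = (-1 : ℂ) ^ (p * q) • V.mul b a +
      ∑ j ∈ Finset.range N,
        ((-1 : ℂ) ^ j / ((j + 1).factorial : ℂ)) • (V.T ^ (j + 1)) (V.Y a j b) := by
  have h := V.comm p q a b ha hb N hN (-1) (-1) V.vac
  rw [V.create, V.create] at h
  show V.Y a (-1) b = (-1 : ℂ) ^ (p * q) • V.Y b (-1) a + _
  rw [← sub_eq_iff_eq_add', h]
  refine Finset.sum_congr rfl fun j _ => ?_
  have e : (-1 + -1 - (j : ℤ)) = -((j + 1 : ℕ) : ℤ) - 1 := by push_cast; ring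
  rw [e, V.Y_vac_neg, smul_smul, bin_neg_one]
  congr 1
  ring

/-- quasi-associativity: modes of a normally ordered product -/
theorem Y_mul {p q : ℕ} {a b : E} (ha : V.Par p a) (hb : V.Par q b) (n : ℤ) (v : E) (N : ℕ)
    (hN : ∀ j : ℕ, N ≤ j → V.Y b (n + j) v = 0 ∧ V.Y a j v = 0) :
    V.Y (V.mul a b) n v = ∑ j ∈ Finset.range N,
      (V.Y a (-1 - j) (V.Y b (n + j) v)
        + (-1 : ℂ) ^ (p * q) • V.Y b (n - 1 - j) (V.Y a j v)) := by
  show V.Y (V.Y a (-1) b) n v = _
  rw [V.assoc p q a b ha hb (-1) n v N hN]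
  refine Finset.sum_congr rfl fun j _ => ?_
  have e : (-1 + n - (j : ℤ)) = n - 1 - j := by ring
  rw [bin_neg_one, neg_one_pow_mul_self, one_smul, neg_one_zpow_neg_one, e, neg_one_mul,
    neg_smul, sub_neg_eq_add]

/-- regular operator product expansion implies that all modes (anti)commute -/
theorem comm_of_regular {p q : ℕ} {a b : E} (ha : V.Par p a) (hb : V.Par q b)
    (h : ∀ j : ℕ, V.Y a j b = 0) (m n : ℤ) (v : E) :
    V.Y a m (V.Y b n v) = (-1 : ℂ) ^ (p * q) • V.Y b n (V.Y a m v) := by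
  have h1 := V.comm p q a b ha hb 0 (fun j _ => h j) m n v
  rw [Finset.range_zero, Finset.sum_empty, sub_eq_zero] at h1
  exact h1

/-- only a simple pole with a constant: Clifford relations -/
theorem comm_of_pole {p q : ℕ} {a b : E} (ha : V.Par p a) (hb : V.Par q b) (κ : ℂ)
    (h0 : V.Y a 0 b = κ • V.vac) (h : ∀ j : ℕ, V.Y a (j + 1 : ℕ) b = 0) (m n : ℤ) (v : E) :
    V.Y a m (V.Y b n v) - (-1 : ℂ) ^ (p * q) • V.Y b n (V.Y a m v)
      = if m + n = -1 then κ • v else 0 := by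
  have h1 := V.comm p q a b ha hb 1 (fun j hj => by
    obtain ⟨i, rfl⟩ := Nat.exists_eq_add_of_le' hj
    exact h i) m n v
  rw [h1, Finset.sum_range_one, bin_zero_right, one_smul, Nat.cast_zero, h0, map_smul,
    Pi.smul_apply, LinearMap.smul_apply, V.Y_vac, sub_zero]
  by_cases hmn : m + n = -1
  · rw [if_pos hmn, if_pos hmn]; rfl
  · rw [if_neg hmn, if_neg hmn]; simp

/-- only a double pole with a constant: Heisenberg relations -/
theorem comm_of_pole2 {p q : ℕ} {a b : E} (ha : V.Par p a) (hb : V.Par q b) (κ : ℂ)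
    (h0 : V.Y a 0 b = 0) (h1 : V.Y a 1 b = κ • V.vac)
    (h : ∀ j : ℕ, V.Y a (j + 2 : ℕ) b = 0) (m n : ℤ) (v : E) :
    V.Y a m (V.Y b n v) - (-1 : ℂ) ^ (p * q) • V.Y b n (V.Y a m v)
      = if m + n = 0 then ((m : ℂ) * κ) • v else 0 := by
  have h2 := V.comm p q a b ha hb 2 (fun j hj => by
    obtain ⟨i, rfl⟩ := Nat.exists_eq_add_of_le' hj
    exact h i) m n v
  rw [h2, Finset.sum_range_succ, Finset.sum_range_one, bin_zero_right, one_smul, Nat.cast_zero,
    h0, Nat.cast_one, h1, map_zero, Pi.zero_apply, LinearMap.zero_apply, zero_add,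
    bin_one_right, map_smul, Pi.smul_apply, LinearMap.smul_apply, V.Y_vac, smul_smul]
  by_cases hmn : m + n = 0
  · rw [if_pos (by omega), if_pos hmn]; rfl
  · rw [if_neg (by omega), if_neg hmn]; simp

end VSA

end Pool.Agent.AA3
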