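import Pool.Agent.Lib.MP_aa3aaf_al.Words
import Pool.Agent.Lib.MP_aa3aaf_al.VCalc
import Pool.Agent.Lib.MP_aa3aaf_al.Ops

/-!
Words and simplicity, abstract form (task B1).
-/

set_option autoImplicit false
open scoped BigOperators
noncomputable section
namespace Pool.Agent.AA3

namespace B1
open W

variable {E : Type*} [AddCommGroup E] [Module ℂ E] {V : VSA E} {Φ K : E}

/-- a subspace stable under the letters is stable under all words -/
lemma rho_mem (S : Submodule ℂ E) (h : ∀ (b : Bool) (m : ℤ), ∀ v ∈ S, V.Y (st Φ K b) m v ∈ S)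
    (u : WA) : ∀ v ∈ S, rho V Φ K u v ∈ S := by
  induction u using MonoidAlgebra.induction_on with
  | of w =>
    rw [rho_of]
    induction w using FreeMonoid.recOn with
    | one => rw [map_one]; exact fun v hv => hv
    | of_mul l w ih =>
      intro v hv
      rw [rhoL_cons]
      exact h _ _ _ (ih v hv)
  | add x y hx hy =>
    intro v hv
    rw [map_add, LinearMap.add_apply]
    exact S.add_mem (hx v hv) (hy v hv)
  | smul r x hx =>
    intro v hv
    rw [map_smul, LinearMap.smul_apply]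
    exact S.smul_mem r (hx v hv)

/-- the space of word states -/
def WS (V : VSA E) (Φ K : E) : Submodule ℂ E :=
  LinearMap.range ((LinearMap.applyₗ V.vac : Module.End ℂ E →ₗ[ℂ] E) ∘ₗ (rho V Φ K).toLinearMap)

lemma mem_WS {x : E} : x ∈ WS V Φ K ↔ ∃ u : WA, rho V Φ K u V.vac = x := Iff.rfl

lemma vac_mem : V.vac ∈ WS V Φ K := ⟨1, by
  show rho V Φ K 1 V.vac = V.vac
  rw [map_one]; rfl⟩

lemma letter_mem (b : Bool) (m : ℤ) {v : E} (hv : v ∈ WS V Φ K) :
    V.Y (st Φ K b) m v ∈ WS V Φ K := by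
  obtain ⟨u, rfl⟩ := hv
  obtain ⟨u', hu'⟩ := mem_st (V := V) (Φ := Φ) (K := K) (v := V.vac)
    (x := rho V Φ K u V.vac) b m ⟨u, rfl⟩
  exact ⟨u', hu'.symm⟩

lemma DD_vac {X : E →ₗ[ℂ] E} (hX : CD.ODer V X) : X V.vac = 0 := by
  have h0 : V.Par 0 V.vac := V.Par_vac
  have h := hX.2 0 V.vac (-1) V.vac h0
  rw [V.create, V.create, V.Y_vac, pow_zero, one_smul] at h
  simp only [if_true, LinearMap.id_apply] at h
  have h2 : X V.vac + 0 = X V.vac + X V.vac := by rw [add_zero]; exact h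
  exact (add_left_cancel h2).symm

lemma DD_mem (DD : E →ₗ[ℂ] E) (hD : CD.ODer V DD) (hD2 : ∀ v, DD (DD v) = V.T v)
    (hΦ : V.Par 1 Φ) {v : E} (hv : v ∈ WS V Φ (DD Φ)) : DD v ∈ WS V Φ (DD Φ) := by
  have hK : V.Par 0 (DD Φ) := VSA.Par.congr (hD.1 1 Φ hΦ) rfl
  -- the subspace of vectors `v` in the space of word states with `DD v` a word state
  let S : Submodule ℂ E := WS V Φ (DD Φ) ⊓ (WS V Φ (DD Φ)).comap DD
  have hS : ∀ (b : Bool) (m : ℤ), ∀ v ∈ S, V.Y (st Φ (DD Φ) b) m v ∈ S := by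
    rintro b m v ⟨hv1, hv2⟩
    refine ⟨letter_mem b m hv1, ?_⟩
    show DD (V.Y (st Φ (DD Φ) b) m v) ∈ WS V Φ (DD Φ)
    cases b
    · have e : st Φ (DD Φ) false = Φ := rfl
      rw [e, hD.2 1 Φ m v hΦ]
      refine Submodule.add_mem _ (letter_mem (b := true) m hv1) (Submodule.smul_mem _ _ ?_)
      exact letter_mem (b := false) m hv2
    · have e : st Φ (DD Φ) true = DD Φ := rfl
      rw [e, hD.2 0 (DD Φ) m v hK, hD2, V.Y_T]
      refine Submodule.add_mem _ (Submodule.smul_mem _ _ (letter_mem (b := false) (m - 1) hv1))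
        (Submodule.smul_mem _ _ ?_)
      exact letter_mem (b := true) m hv2
  obtain ⟨u, rfl⟩ := hv
  have h0 : V.vac ∈ S := ⟨vac_mem, by
    show DD V.vac ∈ WS V Φ (DD Φ)
    rw [DD_vac hD]
    exact Submodule.zero_mem _⟩
  exact (rho_mem S hS u V.vac h0).2

end B1

open B1 W

theorem simple_of_words {E : Type*} [AddCommGroup E] [Module ℂ E] (V : VSA E)
    (DD : E →ₗ[ℂ] E) (hD : CD.ODer V DD) (hD2 : ∀ v, DD (DD v) = V.T v) (Φ : E)
    (hΦ : V.Par 1 Φ) {𝒱 : Type*} [AddCommGroup 𝒱] [Module ℂ 𝒱] (X : VAlg 𝒱)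
    (F : E →ₗ[ℂ] 𝒱) (hF : Function.Injective F) (h1 : F V.vac = X.one)
    (hprod : ∀ (m : ℤ) a b, X.prod m (F a) (F b) = F (V.Y a m b))
    (hS : ∀ a, X.S (F a) = F (DD a)) (hne : V.vac ≠ 0)
    (hw : ∀ u : WA, rho V Φ (DD Φ) u V.vac ≠ 0 →
      ∃ u' : WA, rho V Φ (DD Φ) (u' * u) V.vac = V.vac) :
    X.IsSimple (X.gen (F Φ)) := by
  have hK : V.Par 0 (DD Φ) := VSA.Par.congr (hD.1 1 Φ hΦ) rfl
  -- the generated algebra consists of the word states
  have hgen : X.gen (F Φ) = (WS V Φ (DD Φ)).map F := by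
    apply le_antisymm
    · refine sInf_le ⟨?_, ?_, ?_, ?_⟩
      · exact ⟨V.vac, vac_mem, h1⟩
      · refine ⟨Φ, ?_, rfl⟩
        have := letter_mem (V := V) (Φ := Φ) (K := DD Φ) false (-1) vac_mem
        have e : st Φ (DD Φ) false = Φ := rfl
        rwa [e, V.create] at this
      · rintro m _ _ ⟨a, ha, rfl⟩ ⟨b, hb, rfl⟩
        rw [hprod]
        refine ⟨_, ?_, rfl⟩
        obtain ⟨u, rfl⟩ := ha
        obtain ⟨w, rfl⟩ := hb
        obtain ⟨u', hu'⟩ := exists_word V Φ (DD Φ) hΦ hK u m (rho V Φ (DD Φ) w V.vac)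
        refine ⟨u' * w, ?_⟩
        show rho V Φ (DD Φ) (u' * w) V.vac = V.Y (rho V Φ (DD Φ) u V.vac) m _
        rw [map_mul]
        exact hu'.symm
      · rintro _ ⟨a, ha, rfl⟩
        rw [hS]
        exact ⟨_, DD_mem DD hD hD2 hΦ ha, rfl⟩
    · refine le_sInf ?_
      rintro W' ⟨w1, w2, w3, w4⟩
      rintro _ ⟨_, ⟨u, rfl⟩, rfl⟩
      have hS' : ∀ (b : Bool) (m : ℤ), ∀ v ∈ W'.comap F, V.Y (st Φ (DD Φ) b) m v ∈ W'.comap F := by
        intro b m v hv
        show F _ ∈ W'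
        rw [← hprod]
        refine w3 m _ _ ?_ hv
        cases b
        · exact w2
        · show F (DD Φ) ∈ W'
          rw [← hS]
          exact w4 _ w2
      have h0 : V.vac ∈ W'.comap F := by
        show F V.vac ∈ W'
        rw [h1]
        exact w1
      exact rho_mem (W'.comap F) hS' u V.vac h0
  rw [hgen]
  refine ⟨?_, ?_⟩
  · intro hbot
    have h2 : F V.vac ∈ (⊥ : Submodule ℂ 𝒱) := hbot ▸ ⟨V.vac, vac_mem, rfl⟩
    rw [Submodule.mem_bot] at h2
    exact hne (hF (by rw [h2, map_zero]))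
  · intro I hIW hI0 hI
    apply le_antisymm hIW
    obtain ⟨y, hyI, hy0⟩ := Submodule.exists_mem_ne_zero_of_ne_bot hI0
    obtain ⟨_, ⟨u, rfl⟩, rfl⟩ := hIW hyI
    -- letters preserve the ideal
    have hl : ∀ (b : Bool) (m : ℤ), ∀ v ∈ I.comap F, V.Y (st Φ (DD Φ) b) m v ∈ I.comap F := by
      intro b m v hv
      show F _ ∈ I
      rw [← hprod]
      refine hI m _ _ ⟨st Φ (DD Φ) b, ?_, rfl⟩ hv
      have := letter_mem (V := V) (Φ := Φ) (K := DD Φ) b (-1) vac_mem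
      rwa [V.create] at this
    have hu0 : rho V Φ (DD Φ) u V.vac ≠ 0 := by
      intro h
      apply hy0
      show F (rho V Φ (DD Φ) u V.vac) = 0
      rw [h, map_zero]
    obtain ⟨u', hu'⟩ := hw u hu0
    have hvac : V.vac ∈ I.comap F := by
      rw [← hu', map_mul]
      exact rho_mem (I.comap F) hl u' _ hyI
    rintro _ ⟨_, ⟨w, rfl⟩, rfl⟩
    exact rho_mem (I.comap F) hl w V.vac hvac

end Pool.Agent.AA3
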