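import Pool.Agent.Lib.MP_aa3aaf_al.CD
import Pool.Agent.Lib.MP_aa3aaf_al.VCalc

/-!
Basic calculus with chiral data and frame fields (task C1).
-/

set_option autoImplicit false
open scoped BigOperators
noncomputable section
namespace Pool.Agent.AA3

namespace C1

/-- a regular operator product expansion is regular in both orders -/
lemma regular_symm {E : Type*} [AddCommGroup E] [Module ℂ E] {V : VSA E} {p q : ℕ} {a b : E}
    (ha : V.Par p a) (hb : V.Par q b) (h : ∀ k : ℕ, V.Y a k b = 0) (k : ℕ) :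
    V.Y b k a = 0 := by
  rw [V.skew hb ha k 0 (fun j _ => h (k + j))]
  simp

/-- `Y (T a) (-1) = Y a (-2)` -/
lemma Y_T_neg_one {E : Type*} [AddCommGroup E] [Module ℂ E] (V : VSA E) (a v : E) :
    V.Y (V.T a) (-1) v = V.Y a (-2) v := by
  rw [V.Y_T]
  norm_num

end C1

namespace CD
variable {n : ℕ} {A : Type*} [CommRing A] [Algebra ℂ A] {D : DS n A}
  {E : Type*} [AddCommGroup E] [Module ℂ E] {V : VSA E} (G : CD n D V) (fr : Frame n A)

/-- a state on which functions act regularly (no `β` inside) -/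
def Fr (v : E) : Prop := ∀ (k : ℕ) f, V.Y (G.fn f) k v = 0

/-- an odd element linear in `b, c`: parity 1, regular with functions and `x` -/
structure Odd1 (u : E) : Prop where
  par : V.Par 1 u
  fn_u : ∀ (k : ℕ) f, V.Y (G.fn f) k u = 0
  u_fn : ∀ (k : ℕ) f, V.Y u k (G.fn f) = 0
  x_u : ∀ (k : ℕ) i, V.Y (G.x i) k u = 0
  u_x : ∀ (k : ℕ) i, V.Y u k (G.x i) = 0

theorem odd_c (i : Fin n) : G.Odd1 (G.c i) where
  par := G.par_c i
  fn_u := fun k f => C1.regular_symm (G.par_c i) (G.par_fn f) (fun k => G.c_fn k i f) k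
  u_fn := fun k f => G.c_fn k i f
  x_u := fun k j => G.x_c k j i
  u_x := fun k j => C1.regular_symm (G.par_x j) (G.par_c i) (fun k => G.x_c k j i) k

theorem odd_b (i : Fin n) : G.Odd1 (G.b i) where
  par := G.par_b i
  fn_u := fun k f => C1.regular_symm (G.par_b i) (G.par_fn f) (fun k => G.b_fn k i f) k
  u_fn := fun k f => G.b_fn k i f
  x_u := fun k j => G.x_b k j i
  u_x := fun k j => C1.regular_symm (G.par_x j) (G.par_b i) (fun k => G.x_b k j i) k

theorem Odd1.add {u v : E} (hu : G.Odd1 u) (hv : G.Odd1 v) : G.Odd1 (u + v) where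
  par := hu.par.add hv.par
  fn_u := fun k f => by rw [map_add, hu.fn_u, hv.fn_u, add_zero]
  u_fn := fun k f => by
    rw [map_add, Pi.add_apply, LinearMap.add_apply, hu.u_fn, hv.u_fn, add_zero]
  x_u := fun k i => by rw [map_add, hu.x_u, hv.x_u, add_zero]
  u_x := fun k i => by
    rw [map_add, Pi.add_apply, LinearMap.add_apply, hu.u_x, hv.u_x, add_zero]

theorem Odd1.smul {u : E} (z : ℂ) (hu : G.Odd1 u) : G.Odd1 (z • u) where
  par := hu.par.smul z
  fn_u := fun k f => by rw [map_smul, hu.fn_u, smul_zero]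
  u_fn := fun k f => by
    rw [map_smul, Pi.smul_apply, LinearMap.smul_apply, hu.u_fn, smul_zero]
  x_u := fun k i => by rw [map_smul, hu.x_u, smul_zero]
  u_x := fun k i => by
    rw [map_smul, Pi.smul_apply, LinearMap.smul_apply, hu.u_x, smul_zero]

theorem Odd1.sub {u v : E} (hu : G.Odd1 u) (hv : G.Odd1 v) : G.Odd1 (u - v) := by
  have h := Odd1.add G hu (Odd1.smul G (-1) hv)
  rwa [neg_one_smul, ← sub_eq_add_neg] at h

/-- the zero state -/
theorem C1.odd_zero : G.Odd1 (0 : E) where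
  par := by
    show V.sg 0 = _
    simp
  fn_u := fun k f => by simp
  u_fn := fun k f => by simp
  x_u := fun k i => by simp
  u_x := fun k i => by simp

theorem Odd1.sum {ι : Type*} (s : Finset ι) {u : ι → E} (hu : ∀ i ∈ s, G.Odd1 (u i)) :
    G.Odd1 (∑ i ∈ s, u i) := by
  classical
  induction s using Finset.induction_on with
  | empty => rw [Finset.sum_empty]; exact C1.odd_zero G
  | insert a s ha ih =>
    rw [Finset.sum_insert ha]
    exact Odd1.add G (hu a (Finset.mem_insert_self a s))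
      (ih fun i hi => hu i (Finset.mem_insert_of_mem hi))

/-- `fn f` and `fn g` have commuting modes -/
theorem C1.fn_comm (f g : A) (m k : ℤ) (v : E) :
    V.Y (G.fn f) m (V.Y (G.fn g) k v) = V.Y (G.fn g) k (V.Y (G.fn f) m v) := by
  have h := V.comm_of_regular (G.par_fn f) (G.par_fn g) (fun j => G.fn_fn j f g) m k v
  simpa using h

/-- `x i` and `fn g` have commuting modes -/
theorem C1.x_fn_comm (i : Fin n) (g : A) (m k : ℤ) (v : E) :
    V.Y (G.x i) m (V.Y (G.fn g) k v) = V.Y (G.fn g) k (V.Y (G.x i) m v) := by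
  have h := V.comm_of_regular (G.par_x i) (G.par_fn g) (fun j => G.x_fn j i g) m k v
  simpa using h

/-- an `Odd1` state and `fn g` have commuting modes -/
theorem C1.odd_fn_comm {u : E} (hu : G.Odd1 u) (g : A) (m k : ℤ) (v : E) :
    V.Y u m (V.Y (G.fn g) k v) = V.Y (G.fn g) k (V.Y u m v) := by
  have h := V.comm_of_regular hu.par (G.par_fn g) (fun j => hu.u_fn j g) m k v
  simpa using h

theorem Odd1.fm {u : E} (f : A) (hu : G.Odd1 u) : G.Odd1 (G.fm f u) := by
  have hp : V.Par 1 (G.fm f u) := ((G.par_fn f).Y hu.par (-1)).congr (by norm_num)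
  have h1 : ∀ (k : ℕ) g, V.Y (G.fn g) k (G.fm f u) = 0 := by
    intro k g
    rw [CD.fm, C1.fn_comm, hu.fn_u, map_zero]
  have h2 : ∀ (k : ℕ) i, V.Y (G.x i) k (G.fm f u) = 0 := by
    intro k i
    rw [CD.fm, C1.x_fn_comm, hu.x_u, map_zero]
  exact ⟨hp, h1, fun k g => C1.regular_symm (G.par_fn g) hp (fun k => h1 k g) k, h2,
    fun k i => C1.regular_symm (G.par_x i) hp (fun k => h2 k i) k⟩

/-- modes of `f v` on a state on which the modes `≥ 0` of `f` vanish -/
theorem C1.Y_fm {p : ℕ} {u : E} (hp : V.Par p u) (f : A) (m : ℤ) {w : E} (hw : G.Fr w) (N : ℕ)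
    (hN : ∀ j : ℕ, N ≤ j → V.Y u (m + j) w = 0) :
    V.Y (G.fm f u) m w = ∑ j ∈ Finset.range N, V.Y (G.fn f) (-1 - j) (V.Y u (m + j) w) := by
  have h := V.Y_mul (G.par_fn f) hp m w N (fun j hj => ⟨hN j hj, hw j f⟩)
  rw [show V.mul (G.fn f) u = G.fm f u from rfl] at h
  rw [h]
  refine Finset.sum_congr rfl fun j _ => ?_
  rw [hw j f, map_zero, smul_zero, add_zero]

/-- functions act associatively on regular states -/
theorem fm_fm (f g : A) {v : E} (hv : G.Fr v) : G.fm f (G.fm g v) = G.fm (f * g) v := by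
  have h := C1.Y_fm G (G.par_fn g) f (-1) hv 1 (fun j hj => by
    obtain ⟨i, rfl⟩ := Nat.exists_eq_add_of_le' hj
    have e : (-1 : ℤ) + ((i + 1 : ℕ) : ℤ) = (i : ℤ) := by push_cast; ring
    rw [e]
    exact hv i g)
  have e1 : G.fm f (G.fn g) = G.fn (f * g) := G.fn_mul f g
  rw [e1, Finset.sum_range_one] at h
  have e2 : (-1 : ℤ) - ((0 : ℕ) : ℤ) = -1 := by norm_num
  have e3 : (-1 : ℤ) + ((0 : ℕ) : ℤ) = -1 := by norm_num
  rw [e2, e3] at h
  exact h.symm

theorem fm_one (v : E) : G.fm 1 v = v := by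
  rw [CD.fm, G.fn_one, V.Y_vac]
  simp

theorem fm_add (f g : A) (v : E) : G.fm (f + g) v = G.fm f v + G.fm g v := by
  simp [CD.fm]

theorem fm_add_right (f : A) (v w : E) : G.fm f (v + w) = G.fm f v + G.fm f w := by
  simp [CD.fm]

theorem fm_smul (z : ℂ) (f : A) (v : E) : G.fm (z • f) v = z • G.fm f v := by
  simp [CD.fm]

theorem fm_sum {ι : Type*} (s : Finset ι) (f : ι → A) (v : E) :
    G.fm (∑ i ∈ s, f i) v = ∑ i ∈ s, G.fm (f i) v := by
  simp only [CD.fm, map_sum, Finset.sum_apply, LinearMap.sum_apply]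

theorem fm_sum_right {ι : Type*} (s : Finset ι) (f : A) (v : ι → E) :
    G.fm f (∑ i ∈ s, v i) = ∑ i ∈ s, G.fm f (v i) := by
  simp only [CD.fm, map_sum]

theorem C1.fm_zero (v : E) : G.fm 0 v = 0 := by simp [CD.fm]

theorem C1.fm_zero_right (f : A) : G.fm f (0 : E) = 0 := by simp [CD.fm]

theorem C1.fr_odd {u : E} (hu : G.Odd1 u) : G.Fr u := fun k f => hu.fn_u k f

theorem C1.fr_x (i : Fin n) : G.Fr (G.x i) := fun k f =>
  C1.regular_symm (G.par_x i) (G.par_fn f) (fun k => G.x_fn k i f) k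

theorem C1.fr_fn (g : A) : G.Fr (G.fn g) := fun k f => G.fn_fn k f g

theorem C1.mul_x_fn (i : Fin n) (r : A) : V.mul (G.x i) (G.fn r) = G.fm r (G.x i) := by
  rw [V.mul_comm' (G.par_x i) (G.par_fn r) 0 (fun j _ => G.x_fn j i r)]
  simp [CD.fm, VSA.mul]

/-- the operator product of `f u` and `g v` when `u v` has a simple pole with function residue -/
theorem pole_fm {u v : E} (hu : G.Odd1 u) (hv : G.Odd1 v) (r : A)
    (h0 : V.Y u 0 v = G.fn r) (h1 : ∀ k : ℕ, V.Y u (k + 1 : ℕ) v = 0) (f g : A) :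
    V.Y (G.fm f u) 0 (G.fm g v) = G.fn (f * g * r) ∧
      ∀ k : ℕ, V.Y (G.fm f u) (k + 1 : ℕ) (G.fm g v) = 0 := by
  have hk : ∀ k : ℕ, V.Y u (k + 1 : ℕ) (G.fm g v) = 0 := by
    intro k
    rw [CD.fm, C1.odd_fn_comm G hu, h1, map_zero]
  have hk0 : V.Y u 0 (G.fm g v) = G.fn (g * r) := by
    rw [CD.fm, C1.odd_fn_comm G hu, h0, G.fn_mul]
  have hfr : G.Fr (G.fm g v) := C1.fr_odd G (Odd1.fm G g hv)
  constructor
  · rw [C1.Y_fm G hu.par f 0 hfr 1 (fun j hj => by
      obtain ⟨i, rfl⟩ := Nat.exists_eq_add_of_le' hj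
      rw [zero_add]
      exact hk i), Finset.sum_range_one]
    have e2 : (-1 : ℤ) - ((0 : ℕ) : ℤ) = -1 := by norm_num
    have e3 : (0 : ℤ) + ((0 : ℕ) : ℤ) = 0 := by norm_num
    rw [e2, e3, hk0, G.fn_mul, mul_assoc]
  · intro k
    rw [C1.Y_fm G hu.par f (k + 1 : ℕ) hfr 0 (fun j hj => by
      have := hk (k + j)
      rwa [show ((k + j + 1 : ℕ) : ℤ) = ((k + 1 : ℕ) : ℤ) + (j : ℤ) by push_cast; ring] at this),
      Finset.sum_range_zero]

theorem mul_fm_left {u v : E} (hu : G.Odd1 u) (hv : G.Odd1 v) (r : A)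
    (h0 : V.Y u 0 v = G.fn r) (h1 : ∀ k : ℕ, V.Y u (k + 1 : ℕ) v = 0) (f : A) :
    V.mul (G.fm f u) v = G.fm f (V.mul u v) + ∑ l, G.fm (D.d l f * r) (G.x l) := by
  show V.Y (G.fm f u) (-1) v = _
  rw [C1.Y_fm G hu.par f (-1) (C1.fr_odd G hv) 2 (fun j hj => by
    obtain ⟨i, rfl⟩ := Nat.exists_eq_add_of_le' hj
    have e : (-1 : ℤ) + ((i + 2 : ℕ) : ℤ) = ((i + 1 : ℕ) : ℤ) := by push_cast; ring
    rw [e]
    exact h1 i), Finset.sum_range_succ, Finset.sum_range_one]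
  have e2 : (-1 : ℤ) - ((0 : ℕ) : ℤ) = -1 := by norm_num
  have e3 : (-1 : ℤ) + ((0 : ℕ) : ℤ) = -1 := by norm_num
  have e4 : (-1 : ℤ) - ((1 : ℕ) : ℤ) = -2 := by norm_num
  have e5 : (-1 : ℤ) + ((1 : ℕ) : ℤ) = 0 := by norm_num
  rw [e2, e3, e4, e5, h0, ← C1.Y_T_neg_one, G.T_fn]
  congr 1
  rw [map_sum, Finset.sum_apply, LinearMap.sum_apply]
  refine Finset.sum_congr rfl fun l _ => ?_
  rw [show V.Y (G.fn (D.d l f)) (-1) (G.x l) = G.fm (D.d l f) (G.x l) from rfl,
    C1.Y_fm G (G.par_x l) (D.d l f) (-1) (C1.fr_fn G r) 1 (fun j hj => by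
      obtain ⟨i, rfl⟩ := Nat.exists_eq_add_of_le' hj
      have e : (-1 : ℤ) + ((i + 1 : ℕ) : ℤ) = (i : ℤ) := by push_cast; ring
      rw [e]
      exact G.x_fn i l r), Finset.sum_range_one, e2, e3,
    show V.Y (G.x l) (-1) (G.fn r) = V.mul (G.x l) (G.fn r) from rfl, C1.mul_x_fn,
    show V.Y (G.fn (D.d l f)) (-1) (G.fm r (G.x l)) = G.fm (D.d l f) (G.fm r (G.x l)) from rfl,
    G.fm_fm _ _ (C1.fr_x G l)]

theorem mul_fm_right {u v : E} (hu : G.Odd1 u) (hv : G.Odd1 v) (f : A) :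
    V.mul u (G.fm f v) = G.fm f (V.mul u v) :=
  C1.odd_fn_comm G hu f (-1) (-1) v

/-- anticommutation of normally ordered products when the residue is constant -/
theorem mul_anti {u v : E} (hu : G.Odd1 u) (hv : G.Odd1 v) (z : ℂ)
    (h0 : V.Y u 0 v = z • V.vac) (h1 : ∀ k : ℕ, V.Y u (k + 1 : ℕ) v = 0) :
    V.mul u v = - V.mul v u := by
  rw [V.mul_comm' hu.par hv.par 1 (fun j hj => by
    obtain ⟨i, rfl⟩ := Nat.exists_eq_add_of_le' hj
    exact h1 i), Finset.sum_range_one, Nat.cast_zero, h0]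
  simp [V.T_vac]

theorem odd_C (a : Fin n) : G.Odd1 (G.C fr a) :=
  Odd1.sum G _ fun i _ => Odd1.fm G _ (G.odd_c i)
theorem odd_B (a : Fin n) : G.Odd1 (G.B fr a) :=
  Odd1.sum G _ fun i _ => Odd1.fm G _ (G.odd_b i)
theorem odd_ps (a : Fin n) : G.Odd1 (G.ps fr a) := Odd1.add G (G.odd_C fr a) (G.odd_B fr a)
theorem odd_ch (a : Fin n) : G.Odd1 (G.ch fr a) := Odd1.sub G (G.odd_C fr a) (G.odd_B fr a)
theorem odd_bu (i : Fin n) : G.Odd1 (G.bu fr i) :=
  Odd1.sum G _ fun j _ => Odd1.fm G _ (G.odd_b j)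
theorem odd_cd (i : Fin n) : G.Odd1 (G.cd fr i) :=
  Odd1.sum G _ fun j _ => Odd1.fm G _ (G.odd_c j)

/-- products of two function-linear combinations with simple poles -/
theorem C1.Y_sum_fm (F H : Fin n → A) (u v : Fin n → E) (hu : ∀ i, G.Odd1 (u i))
    (hv : ∀ i, G.Odd1 (v i)) (r : Fin n → Fin n → A)
    (h0 : ∀ i j, V.Y (u i) 0 (v j) = G.fn (r i j))
    (h1 : ∀ i j, ∀ k : ℕ, V.Y (u i) (k + 1 : ℕ) (v j) = 0) (k : ℕ) :
    V.Y (∑ i, G.fm (F i) (u i)) k (∑ j, G.fm (H j) (v j))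
      = if k = 0 then G.fn (∑ i, ∑ j, F i * H j * r i j) else 0 := by
  rw [map_sum V.Y, Finset.sum_apply, LinearMap.sum_apply]
  rcases Nat.eq_zero_or_pos k with rfl | hk
  · rw [if_pos rfl, map_sum]
    refine Finset.sum_congr rfl fun i _ => ?_
    rw [map_sum, map_sum]
    refine Finset.sum_congr rfl fun j _ => ?_
    exact (G.pole_fm (hu i) (hv j) (r i j) (h0 i j) (h1 i j) (F i) (H j)).1
  · rw [if_neg (by omega)]
    obtain ⟨l, rfl⟩ := Nat.exists_eq_add_of_le' hk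
    refine Finset.sum_eq_zero fun i _ => ?_
    rw [map_sum]
    refine Finset.sum_eq_zero fun j _ => ?_
    exact (G.pole_fm (hu i) (hv j) (r i j) (h0 i j) (h1 i j) (F i) (H j)).2 l

theorem C_C (a b : Fin n) (k : ℕ) : V.Y (G.C fr a) k (G.C fr b) = 0 := by
  have h := C1.Y_sum_fm G (fr.e a) (fr.e b) G.c G.c G.odd_c G.odd_c (fun _ _ => 0)
    (fun i j => by rw [map_zero]; exact G.c_c 0 i j) (fun i j k => G.c_c (k + 1) i j) k
  rw [show G.C fr a = ∑ i, G.fm (fr.e a i) (G.c i) from rfl,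
    show G.C fr b = ∑ i, G.fm (fr.e b i) (G.c i) from rfl, h]
  simp

theorem B_B (a b : Fin n) (k : ℕ) : V.Y (G.B fr a) k (G.B fr b) = 0 := by
  have h := C1.Y_sum_fm G (fun i => fr.f i a) (fun i => fr.f i b) G.b G.b G.odd_b G.odd_b
    (fun _ _ => 0)
    (fun i j => by rw [map_zero]; exact G.b_b 0 i j) (fun i j k => G.b_b (k + 1) i j) k
  rw [show G.B fr a = ∑ i, G.fm (fr.f i a) (G.b i) from rfl,
    show G.B fr b = ∑ i, G.fm (fr.f i b) (G.b i) from rfl, h]
  simp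

theorem C_B (a b : Fin n) (k : ℕ) :
    V.Y (G.C fr a) k (G.B fr b) = if k = 0 ∧ a = b then V.vac else 0 := by
  have h := C1.Y_sum_fm G (fr.e a) (fun i => fr.f i b) G.c G.b G.odd_c G.odd_b
    (fun i j => if i = j then 1 else 0)
    (fun i j => by
      rw [show V.Y (G.c i) 0 (G.b j) = _ from G.c_b 0 i j]
      by_cases hij : i = j
      · simp [hij, G.fn_one]
      · simp [hij])
    (fun i j k => by rw [G.c_b (k + 1) i j]; simp) k
  rw [show G.C fr a = ∑ i, G.fm (fr.e a i) (G.c i) from rfl,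
    show G.B fr b = ∑ i, G.fm (fr.f i b) (G.b i) from rfl, h]
  have e : ∑ i, ∑ j, fr.e a i * fr.f j b * (if i = j then (1 : A) else 0)
      = if a = b then 1 else 0 := by
    rw [← Matrix.one_apply, ← fr.e_f, Matrix.mul_apply]
    refine Finset.sum_congr rfl fun i _ => ?_
    simp
  rw [e]
  by_cases hk : k = 0 <;> by_cases hab : a = b <;> simp [hk, hab, G.fn_one]

theorem B_C (a b : Fin n) (k : ℕ) :
    V.Y (G.B fr a) k (G.C fr b) = if k = 0 ∧ a = b then V.vac else 0 := by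
  have h := C1.Y_sum_fm G (fun i => fr.f i a) (fr.e b) G.b G.c G.odd_b G.odd_c
    (fun i j => if i = j then 1 else 0)
    (fun i j => by
      rw [show V.Y (G.b i) 0 (G.c j) = _ from G.b_c 0 i j]
      by_cases hij : i = j
      · simp [hij, G.fn_one]
      · simp [hij])
    (fun i j k => by rw [G.b_c (k + 1) i j]; simp) k
  rw [show G.B fr a = ∑ i, G.fm (fr.f i a) (G.b i) from rfl,
    show G.C fr b = ∑ i, G.fm (fr.e b i) (G.c i) from rfl, h]
  have e : ∑ i, ∑ j, fr.f i a * fr.e b j * (if i = j then (1 : A) else 0)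
      = if a = b then 1 else 0 := by
    have h2 : (if a = b then (1 : A) else 0) = if b = a then 1 else 0 := by
      simp only [eq_comm]
    rw [h2, ← Matrix.one_apply, ← fr.e_f, Matrix.mul_apply]
    refine Finset.sum_congr rfl fun i _ => ?_
    simp [mul_comm]
  rw [e]
  by_cases hk : k = 0 <;> by_cases hab : a = b <;> simp [hk, hab, G.fn_one]

theorem ps_ps (a b : Fin n) (k : ℕ) :
    V.Y (G.ps fr a) k (G.ps fr b) = if k = 0 ∧ a = b then (2 : ℂ) • V.vac else 0 := by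
  simp only [CD.ps, map_add, Pi.add_apply, LinearMap.add_apply, G.C_C, G.B_B, G.C_B, G.B_C]
  by_cases h : k = 0 ∧ a = b
  · simp only [if_pos h, two_smul]; abel
  · simp only [if_neg h, add_zero]

theorem ch_ch (a b : Fin n) (k : ℕ) :
    V.Y (G.ch fr a) k (G.ch fr b) = if k = 0 ∧ a = b then (-2 : ℂ) • V.vac else 0 := by
  simp only [CD.ch, map_sub, Pi.sub_apply, LinearMap.sub_apply, G.C_C, G.B_B, G.C_B, G.B_C]
  by_cases h : k = 0 ∧ a = b
  · simp only [if_pos h, neg_smul, two_smul]; abel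
  · simp only [if_neg h, sub_zero]

theorem ps_ch (a b : Fin n) (k : ℕ) : V.Y (G.ps fr a) k (G.ch fr b) = 0 := by
  simp only [CD.ps, CD.ch, map_add, map_sub, Pi.add_apply, LinearMap.add_apply,
    G.C_C, G.B_B, G.C_B, G.B_C]
  abel

theorem ch_ps (a b : Fin n) (k : ℕ) : V.Y (G.ch fr a) k (G.ps fr b) = 0 := by
  simp only [CD.ps, CD.ch, map_add, map_sub, Pi.sub_apply, LinearMap.sub_apply,
    G.C_C, G.B_B, G.C_B, G.B_C]
  abel

/-- matrices of functions act associatively -/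
theorem C1.sum_fm_sum (P : Fin n → A) (Q : Fin n → Fin n → A) (u : Fin n → E)
    (hu : ∀ i, G.Fr (u i)) :
    ∑ a, G.fm (P a) (∑ j, G.fm (Q a j) (u j)) = ∑ j, G.fm (∑ a, P a * Q a j) (u j) := by
  simp only [G.fm_sum_right, G.fm_fm _ _ (hu _), G.fm_sum]
  exact Finset.sum_comm

/-- the identity matrix -/
theorem C1.sum_fm_one (i : Fin n) (P : Fin n → A) (u : Fin n → E)
    (hP : ∀ j, P j = if i = j then 1 else 0) : ∑ j, G.fm (P j) (u j) = u i := by
  rw [Finset.sum_eq_single i]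
  · rw [hP, if_pos rfl, G.fm_one]
  · intro j _ hj
    rw [hP, if_neg (Ne.symm hj), C1.fm_zero]
  · intro h
    exact absurd (Finset.mem_univ i) h

/-- back to coordinates -/
theorem c_eq (i : Fin n) : G.c i = ∑ a, G.fm (fr.f i a) (G.C fr a) := by
  have h := C1.sum_fm_sum G (fr.f i) fr.e G.c (fun i => C1.fr_odd G (G.odd_c i))
  rw [show (∑ a, G.fm (fr.f i a) (G.C fr a)) = _ from h]
  refine (C1.sum_fm_one G i _ _ fun j => ?_).symm
  rw [← Matrix.mul_apply, fr.f_e, Matrix.one_apply]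

theorem b_eq (i : Fin n) : G.b i = ∑ a, G.fm (fr.e a i) (G.B fr a) := by
  have h := C1.sum_fm_sum G (fun a => fr.e a i) (fun a j => fr.f j a) G.b
    (fun i => C1.fr_odd G (G.odd_b i))
  rw [show (∑ a, G.fm (fr.e a i) (G.B fr a)) = _ from h]
  refine (C1.sum_fm_one G i _ _ fun j => ?_).symm
  have h2 : (if i = j then (1 : A) else 0) = if j = i then 1 else 0 := by
    simp only [eq_comm]
  rw [h2, ← Matrix.one_apply, ← fr.f_e, Matrix.mul_apply]
  exact Finset.sum_congr rfl fun a _ => mul_comm _ _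

theorem bu_eq (i : Fin n) : G.bu fr i = ∑ a, G.fm (fr.f i a) (G.B fr a) := by
  have h := C1.sum_fm_sum G (fr.f i) (fun a j => fr.f j a) G.b
    (fun i => C1.fr_odd G (G.odd_b i))
  rw [show (∑ a, G.fm (fr.f i a) (G.B fr a)) = _ from h]
  refine Finset.sum_congr rfl fun j _ => ?_
  rw [Frame.gi, Matrix.mul_apply]
  rfl

theorem cd_eq (i : Fin n) : G.cd fr i = ∑ a, G.fm (fr.e a i) (G.C fr a) := by
  have h := C1.sum_fm_sum G (fun a => fr.e a i) fr.e G.c
    (fun i => C1.fr_odd G (G.odd_c i))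
  rw [show (∑ a, G.fm (fr.e a i) (G.C fr a)) = _ from h]
  refine Finset.sum_congr rfl fun j _ => ?_
  rw [Frame.g, Matrix.mul_apply]
  rfl

theorem C_eq (a : Fin n) : G.C fr a = ∑ i, G.fm (fr.f i a) (G.cd fr i) := by
  have h := C1.sum_fm_sum G (fun i => fr.f i a) fr.g G.c
    (fun i => C1.fr_odd G (G.odd_c i))
  rw [show (∑ i, G.fm (fr.f i a) (G.cd fr i)) = _ from h]
  refine Finset.sum_congr rfl fun j _ => ?_
  congr 1
  have e : fr.f.transpose * fr.g = fr.e := by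
    rw [Frame.g, ← Matrix.mul_assoc, ← Matrix.transpose_mul, fr.e_f, Matrix.transpose_one,
      Matrix.one_mul]
  rw [← congrFun (congrFun e a) j, Matrix.mul_apply]
  rfl

theorem B_eq (a : Fin n) : G.B fr a = ∑ i, G.fm (fr.e a i) (G.bu fr i) := by
  have h := C1.sum_fm_sum G (fr.e a) fr.gi G.b
    (fun i => C1.fr_odd G (G.odd_b i))
  rw [show (∑ i, G.fm (fr.e a i) (G.bu fr i)) = _ from h]
  refine Finset.sum_congr rfl fun j _ => ?_
  congr 1
  have e : fr.e * fr.gi = fr.f.transpose := by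
    rw [Frame.gi, ← Matrix.mul_assoc, fr.e_f, Matrix.one_mul]
  rw [← Matrix.transpose_apply fr.f, ← congrFun (congrFun e a) j, Matrix.mul_apply]

end CD
end Pool.Agent.AA3
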