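import Pool.Agent.Lib.MP_aa3aaf_al.VSA

/-!
Odd derivations of all products of a vertex superalgebra.
-/

set_option autoImplicit false
open scoped BigOperators
noncomputable section
namespace Pool.Agent.AA3
namespace CD
variable {E : Type*} [AddCommGroup E] [Module ℂ E]

/-- odd derivation of all products -/
def ODer (V : VSA E) (X : E →ₗ[ℂ] E) : Prop :=
  (∀ (p : ℕ) (a : E), V.Par p a → V.Par (p + 1) (X a)) ∧
  ∀ (p : ℕ) (a : E) (m : ℤ) (v : E), V.Par p a →
    X (V.Y a m v) = V.Y (X a) m v + (-1 : ℂ) ^ p • V.Y a m (X v)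

end CD
end Pool.Agent.AA3
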