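import Pool.Agent.Lib.MP_aa3aaf_al.CHat
import Pool.Agent.Lib.MP_aa3aaf_al.ODer

/-!
Task C3: the zero modes `Q₁, Q₂, n_-, n_+, F`.
-/

set_option autoImplicit false
open scoped BigOperators
noncomputable section
namespace Pool.Agent.AA3
namespace CD
variable {n : ℕ} {A : Type*} [CommRing A] [Algebra ℂ A] {D : DS n A}
  {E : Type*} [AddCommGroup E] [Module ℂ E] {V : VSA E} (G : CD n D V) (fr : Frame n A)

namespace C3

/-- the zero mode of a normally ordered product, with poles of order at most two -/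
lemma zm2 {p q : ℕ} {a b v : E} (ha : V.Par p a) (hb : V.Par q b)
    (h1 : ∀ j : ℕ, V.Y b (j + 2 : ℕ) v = 0) (h2 : ∀ j : ℕ, V.Y a (j + 2 : ℕ) v = 0) :
    V.zm (V.mul a b) v = (V.Y a (-1) (V.Y b ((0 : ℕ) : ℤ) v)
        + (-1 : ℂ) ^ (p * q) • V.Y b (-1) (V.Y a ((0 : ℕ) : ℤ) v))
      + (V.Y a (-2) (V.Y b ((1 : ℕ) : ℤ) v)
        + (-1 : ℂ) ^ (p * q) • V.Y b (-2) (V.Y a ((1 : ℕ) : ℤ) v)) := by
  have h := V.Y_mul ha hb 0 v 2 (fun j hj => by
    obtain ⟨i, rfl⟩ := Nat.exists_eq_add_of_le' hj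
    refine ⟨?_, h2 i⟩
    rw [zero_add]
    exact h1 i)
  show V.Y (V.mul a b) 0 v = _
  rw [h, Finset.sum_range_succ, Finset.sum_range_one]
  have e1 : (-1 : ℤ) - ((0 : ℕ) : ℤ) = -1 := by norm_num
  have e2 : (0 : ℤ) + ((0 : ℕ) : ℤ) = ((0 : ℕ) : ℤ) := by norm_num
  have e3 : (0 : ℤ) - 1 - ((0 : ℕ) : ℤ) = -1 := by norm_num
  have e4 : (-1 : ℤ) - ((1 : ℕ) : ℤ) = -2 := by norm_num
  have e5 : (0 : ℤ) + ((1 : ℕ) : ℤ) = ((1 : ℕ) : ℤ) := by norm_num
  have e6 : (0 : ℤ) - 1 - ((1 : ℕ) : ℤ) = -2 := by norm_num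
  rw [e1, e2, e3, e4, e5, e6]

/-- both factors regular -/
lemma zm_reg {p q : ℕ} {a b v : E} (ha : V.Par p a) (hb : V.Par q b)
    (h1 : ∀ j : ℕ, V.Y b j v = 0) (h2 : ∀ j : ℕ, V.Y a j v = 0) :
    V.zm (V.mul a b) v = 0 := by
  rw [zm2 ha hb (fun j => h1 _) (fun j => h2 _), h1, h2, h1, h2]
  simp

/-- the second factor has a simple pole -/
lemma zm_right {p q : ℕ} {a b v : E} (ha : V.Par p a) (hb : V.Par q b)
    (h1 : ∀ j : ℕ, V.Y b (j + 1 : ℕ) v = 0) (h2 : ∀ j : ℕ, V.Y a j v = 0) :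
    V.zm (V.mul a b) v = V.mul a (V.Y b 0 v) := by
  have e1 : V.Y b ((1 : ℕ) : ℤ) v = 0 := h1 0
  rw [zm2 ha hb (fun j => h1 (j + 1)) (fun j => h2 _), h2, h2, e1]
  simp [VSA.mul]

/-- the second factor has a double pole only, with the vacuum as coefficient -/
lemma zm_right2 {p q : ℕ} {a b v : E} (ha : V.Par p a) (hb : V.Par q b) (P : Prop) [Decidable P]
    (h1 : ∀ j : ℕ, V.Y b j v = if j = 1 ∧ P then V.vac else 0) (h2 : ∀ j : ℕ, V.Y a j v = 0) :
    V.zm (V.mul a b) v = if P then V.T a else 0 := by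
  rw [zm2 ha hb (fun j => by rw [h1, if_neg (by omega)]) (fun j => h2 _), h2, h2, h1, h1]
  by_cases hP : P
  · simp only [hP, and_true, if_true, if_false, map_zero, smul_zero, add_zero, zero_add,
      zero_ne_one]
    rfl
  · simp [hP]

/-- the first factor has a simple pole with constant residue -/
lemma zm_left {p q : ℕ} {a b v : E} (ha : V.Par p a) (hb : V.Par q b) (hpq : p * q = 0)
    (P : Prop) [Decidable P]
    (h1 : ∀ j : ℕ, V.Y b j v = 0) (h2 : ∀ j : ℕ, V.Y a j v = if j = 0 ∧ P then V.vac else 0) :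
    V.zm (V.mul a b) v = if P then b else 0 := by
  rw [zm2 ha hb (fun j => h1 _) (fun j => by rw [h2, if_neg (by omega)]), h1, h1, h2, h2, hpq]
  by_cases hP : P
  · simp [hP, V.create]
  · simp [hP]

/-- an odd state times a function, in the other order -/
lemma odd_mul_fn {u : E} (hu : G.Odd1 u) (f : A) : V.mul u (G.fn f) = G.fm f u := by
  have h := C1.odd_fn_comm G hu f (-1) (-1) V.vac
  rw [V.create, V.create] at h
  exact h

lemma c_β (i j : Fin n) (k : ℕ) : V.Y (G.c i) k (G.β j) = 0 :=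
  C1.regular_symm (G.par_β j) (G.par_c i) (fun k => G.β_c k j i) k

lemma b_β (i j : Fin n) (k : ℕ) : V.Y (G.b i) k (G.β j) = 0 :=
  C1.regular_symm (G.par_β j) (G.par_b i) (fun k => G.β_b k j i) k

lemma bu_bh (i j : Fin n) (k : ℕ) : V.Y (G.bu fr i) k (G.bh fr j) = 0 :=
  C1.regular_symm (G.par_bh fr j) (G.odd_bu fr i).par (fun k => G.bh_bu fr j i k) k

lemma bu_bu (i j : Fin n) (k : ℕ) : V.Y (G.bu fr i) k (G.bu fr j) = 0 := by
  have h := C1.Y_sum_fm G (fr.gi i) (fr.gi j) G.b G.b G.odd_b G.odd_b (fun _ _ => 0)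
    (fun i j => by rw [map_zero]; exact G.b_b 0 i j) (fun i j k => G.b_b (k + 1) i j) k
  rw [show G.bu fr i = ∑ l, G.fm (fr.gi i l) (G.b l) from rfl,
    show G.bu fr j = ∑ l, G.fm (fr.gi j l) (G.b l) from rfl, h]
  simp

lemma cd_cd (i j : Fin n) (k : ℕ) : V.Y (G.cd fr i) k (G.cd fr j) = 0 := by
  have h := C1.Y_sum_fm G (fr.g i) (fr.g j) G.c G.c G.odd_c G.odd_c (fun _ _ => 0)
    (fun i j => by rw [map_zero]; exact G.c_c 0 i j) (fun i j k => G.c_c (k + 1) i j) k
  rw [show G.cd fr i = ∑ l, G.fm (fr.g i l) (G.c l) from rfl,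
    show G.cd fr j = ∑ l, G.fm (fr.g j l) (G.c l) from rfl, h]
  simp

lemma bu_cd (i j : Fin n) (k : ℕ) :
    V.Y (G.bu fr i) k (G.cd fr j) = if k = 0 ∧ i = j then V.vac else 0 := by
  have h := C1.Y_sum_fm G (fr.gi i) (fr.g j) G.b G.c G.odd_b G.odd_c
    (fun i j => if i = j then 1 else 0)
    (fun i j => by
      rw [show V.Y (G.b i) 0 (G.c j) = _ from G.b_c 0 i j]
      by_cases hij : i = j
      · simp [hij, G.fn_one]
      · simp [hij])
    (fun i j k => by rw [G.b_c (k + 1) i j]; simp) k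
  rw [show G.bu fr i = ∑ l, G.fm (fr.gi i l) (G.b l) from rfl,
    show G.cd fr j = ∑ l, G.fm (fr.g j l) (G.c l) from rfl, h]
  have e : ∑ l, ∑ m, fr.gi i l * fr.g j m * (if l = m then (1 : A) else 0)
      = if i = j then 1 else 0 := by
    rw [← Matrix.one_apply, ← C2.gi_g fr, Matrix.mul_apply]
    refine Finset.sum_congr rfl fun l _ => ?_
    have gs : fr.g j l = fr.g l j := congrFun (congrFun (C2.g_symm fr) l) j
    simp [gs]
  rw [e]
  by_cases hk : k = 0 <;> by_cases hab : i = j <;> simp [hk, hab, G.fn_one]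

lemma cd_bu (i j : Fin n) (k : ℕ) :
    V.Y (G.cd fr i) k (G.bu fr j) = if k = 0 ∧ i = j then V.vac else 0 := by
  have h := C1.Y_sum_fm G (fr.g i) (fr.gi j) G.c G.b G.odd_c G.odd_b
    (fun i j => if i = j then 1 else 0)
    (fun i j => by
      rw [show V.Y (G.c i) 0 (G.b j) = _ from G.c_b 0 i j]
      by_cases hij : i = j
      · simp [hij, G.fn_one]
      · simp [hij])
    (fun i j k => by rw [G.c_b (k + 1) i j]; simp) k
  rw [show G.cd fr i = ∑ l, G.fm (fr.g i l) (G.c l) from rfl,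
    show G.bu fr j = ∑ l, G.fm (fr.gi j l) (G.b l) from rfl, h]
  have e : ∑ l, ∑ m, fr.g i l * fr.gi j m * (if l = m then (1 : A) else 0)
      = if i = j then 1 else 0 := by
    rw [← Matrix.one_apply, ← C2.g_gi fr, Matrix.mul_apply]
    refine Finset.sum_congr rfl fun l _ => ?_
    have gs : fr.gi j l = fr.gi l j := congrFun (congrFun (C2.gi_symm fr) l) j
    simp [gs]
  rw [e]
  by_cases hk : k = 0 <;> by_cases hab : i = j <;> simp [hk, hab, G.fn_one]

/-- the zero mode of an odd state is an odd derivation -/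
lemma ODer_zm {w : E} (hw : V.Par 1 w) : ODer V (V.zm w) := by
  refine ⟨fun p a ha => ?_, fun p a m v ha => ?_⟩
  · exact (hw.Y ha 0).congr (by rw [add_comm])
  · have h := V.zm_der hw ha m v
    rwa [one_mul] at h

lemma ODer_add {X W : E →ₗ[ℂ] E} (hX : ODer V X) (hW : ODer V W) : ODer V (X + W) := by
  refine ⟨fun p a ha => (hX.1 p a ha).add (hW.1 p a ha), fun p a m v ha => ?_⟩
  simp only [LinearMap.add_apply, hX.2 p a m v ha, hW.2 p a m v ha, map_add, Pi.add_apply,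
    smul_add]
  abel

lemma ODer_smul {X : E →ₗ[ℂ] E} (z : ℂ) (hX : ODer V X) : ODer V (z • X) := by
  refine ⟨fun p a ha => (hX.1 p a ha).smul z, fun p a m v ha => ?_⟩
  simp only [LinearMap.smul_apply, hX.2 p a m v ha, map_smul, Pi.smul_apply, smul_add]
  rw [smul_comm z]

lemma ODer_sub {X W : E →ₗ[ℂ] E} (hX : ODer V X) (hW : ODer V W) : ODer V (X - W) := by
  have h := ODer_add hX (ODer_smul (-1) hW)
  rwa [neg_one_smul, ← sub_eq_add_neg] at h

lemma ODer_zero : ODer V (0 : E →ₗ[ℂ] E) := by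
  refine ⟨fun p a _ => ?_, fun p a m v _ => by simp⟩
  show V.sg _ = _
  simp

lemma ODer_sum {ι : Type*} (s : Finset ι) {X : ι → E →ₗ[ℂ] E} (hX : ∀ i ∈ s, ODer V (X i)) :
    ODer V (∑ i ∈ s, X i) := by
  classical
  induction s using Finset.induction_on with
  | empty => rw [Finset.sum_empty]; exact ODer_zero
  | insert a s ha ih =>
    rw [Finset.sum_insert ha]
    exact ODer_add (hX a (Finset.mem_insert_self a s))
      (ih fun i hi => hX i (Finset.mem_insert_of_mem hi))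

/-- the zero mode of an even state is a derivation of all products -/
lemma zm_der_even {w : E} (hw : V.Par 0 w) (a : E) (m : ℤ) (v : E) :
    V.zm w (V.Y a m v) = V.Y (V.zm w a) m v + V.Y a m (V.zm w v) := by
  obtain ⟨a0, a1, h0, h1, rfl⟩ := V.exists_par a
  have k0 := V.zm_der hw h0 m v
  have k1 := V.zm_der hw h1 m v
  rw [zero_mul, pow_zero, one_smul] at k0 k1
  simp only [map_add, Pi.add_apply, LinearMap.add_apply, k0, k1]
  abel

end C3

open C3

theorem Q1_fn (f : A) : G.Q1 (G.fn f) = ∑ i, G.fm (D.d i f) (G.c i) := by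
  unfold Q1
  rw [LinearMap.sum_apply]
  refine Finset.sum_congr rfl fun i _ => ?_
  rw [zm_right (G.par_c i) (G.par_β i) (fun j => G.β_fn_succ j i f) (fun j => G.c_fn j i f),
    G.β_fn_zero, odd_mul_fn G (G.odd_c i)]

theorem Q1_c (i : Fin n) : G.Q1 (G.c i) = 0 := by
  unfold Q1
  rw [LinearMap.sum_apply]
  exact Finset.sum_eq_zero fun j _ =>
    zm_reg (G.par_c j) (G.par_β j) (fun k => G.β_c k j i) (fun k => G.c_c k j i)

theorem Q1_b (i : Fin n) : G.Q1 (G.b i) = G.β i := by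
  unfold Q1
  rw [LinearMap.sum_apply]
  have h : ∀ j, V.zm (V.mul (G.c j) (G.β j)) (G.b i) = if j = i then G.β j else 0 := fun j =>
    zm_left (G.par_c j) (G.par_β j) (mul_zero 1) (j = i) (fun k => G.β_b k j i)
      (fun k => G.c_b k j i)
  simp only [h]
  simp

theorem Q1_x (i : Fin n) : G.Q1 (G.x i) = V.T (G.c i) := by
  unfold Q1
  rw [LinearMap.sum_apply]
  have h : ∀ j, V.zm (V.mul (G.c j) (G.β j)) (G.x i) = if j = i then V.T (G.c j) else 0 :=
    fun j => zm_right2 (G.par_c j) (G.par_β j) (j = i) (fun k => G.β_x k j i)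
      (fun k => (G.odd_c j).u_x k i)
  simp only [h]
  simp

theorem Q1_β (i : Fin n) : G.Q1 (G.β i) = 0 := by
  unfold Q1
  rw [LinearMap.sum_apply]
  exact Finset.sum_eq_zero fun j _ =>
    zm_reg (G.par_c j) (G.par_β j) (fun k => G.β_β k j i) (fun k => c_β G j i k)

theorem Q2_fn (f : A) : G.Q2 (G.fn f) = 0 := by
  unfold Q2
  rw [LinearMap.sum_apply]
  exact Finset.sum_eq_zero fun j _ =>
    zm_reg (G.par_b j) (G.par_x j) (fun k => G.x_fn k j f) (fun k => G.b_fn k j f)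

theorem Q2_c (i : Fin n) : G.Q2 (G.c i) = G.x i := by
  unfold Q2
  rw [LinearMap.sum_apply]
  have h : ∀ j, V.zm (V.mul (G.b j) (G.x j)) (G.c i) = if j = i then G.x j else 0 := fun j =>
    zm_left (G.par_b j) (G.par_x j) (mul_zero 1) (j = i) (fun k => G.x_c k j i)
      (fun k => G.b_c k j i)
  simp only [h]
  simp

theorem Q2_b (i : Fin n) : G.Q2 (G.b i) = 0 := by
  unfold Q2
  rw [LinearMap.sum_apply]
  exact Finset.sum_eq_zero fun j _ =>
    zm_reg (G.par_b j) (G.par_x j) (fun k => G.x_b k j i) (fun k => G.b_b k j i)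

theorem Q2_x (i : Fin n) : G.Q2 (G.x i) = 0 := by
  unfold Q2
  rw [LinearMap.sum_apply]
  exact Finset.sum_eq_zero fun j _ =>
    zm_reg (G.par_b j) (G.par_x j) (fun k => G.x_x k j i) (fun k => (G.odd_b j).u_x k i)

theorem Q2_β (i : Fin n) : G.Q2 (G.β i) = V.T (G.b i) := by
  unfold Q2
  rw [LinearMap.sum_apply]
  have h : ∀ j, V.zm (V.mul (G.b j) (G.x j)) (G.β i) = if j = i then V.T (G.b j) else 0 :=
    fun j => zm_right2 (G.par_b j) (G.par_x j) (j = i) (fun k => G.x_β k j i)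
      (fun k => b_β G j i k)
  simp only [h]
  simp

theorem nm_fn (f : A) : G.nm fr (G.fn f) = ∑ i, G.fm (D.d i f) (G.bu fr i) := by
  unfold nm
  rw [LinearMap.sum_apply]
  refine Finset.sum_congr rfl fun i _ => ?_
  rw [zm_right (G.odd_bu fr i).par (G.par_bh fr i) (G.bh_fn fr i f).2
    (fun j => (G.odd_bu fr i).u_fn j f), (G.bh_fn fr i f).1, odd_mul_fn G (G.odd_bu fr i)]

theorem nm_bu (i : Fin n) : G.nm fr (G.bu fr i) = 0 := by
  unfold nm
  rw [LinearMap.sum_apply]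
  exact Finset.sum_eq_zero fun j _ =>
    zm_reg (G.odd_bu fr j).par (G.par_bh fr j) (fun k => G.bh_bu fr j i k)
      (fun k => bu_bu G fr j i k)

theorem nm_cd (i : Fin n) : G.nm fr (G.cd fr i) = G.bh fr i := by
  unfold nm
  rw [LinearMap.sum_apply]
  have h : ∀ j, V.zm (V.mul (G.bu fr j) (G.bh fr j)) (G.cd fr i)
      = if j = i then G.bh fr j else 0 := fun j =>
    zm_left (G.odd_bu fr j).par (G.par_bh fr j) (mul_zero 1) (j = i)
      (fun k => G.bh_cd fr j i k) (fun k => bu_cd G fr j i k)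
  simp only [h]
  simp

theorem nm_bh (i : Fin n) : G.nm fr (G.bh fr i) = 0 := by
  unfold nm
  rw [LinearMap.sum_apply]
  exact Finset.sum_eq_zero fun j _ =>
    zm_reg (G.odd_bu fr j).par (G.par_bh fr j) (fun k => G.bh_bh fr j i k)
      (fun k => bu_bh G fr j i k)

theorem nm_x (i : Fin n) : G.nm fr (G.x i) = V.T (G.bu fr i) := by
  unfold nm
  rw [LinearMap.sum_apply]
  have h : ∀ j, V.zm (V.mul (G.bu fr j) (G.bh fr j)) (G.x i)
      = if j = i then V.T (G.bu fr j) else 0 := fun j =>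
    zm_right2 (G.odd_bu fr j).par (G.par_bh fr j) (j = i) (fun k => G.bh_x fr j i k)
      (fun k => (G.odd_bu fr j).u_x k i)
  simp only [h]
  simp

theorem npl_fn (f : A) : G.npl fr (G.fn f) = 0 := by
  unfold npl
  rw [LinearMap.sum_apply]
  exact Finset.sum_eq_zero fun j _ =>
    zm_reg (G.odd_cd fr j).par (G.par_x j) (fun k => G.x_fn k j f)
      (fun k => (G.odd_cd fr j).u_fn k f)

theorem npl_bu (i : Fin n) : G.npl fr (G.bu fr i) = G.x i := by
  unfold npl
  rw [LinearMap.sum_apply]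
  have h : ∀ j, V.zm (V.mul (G.cd fr j) (G.x j)) (G.bu fr i) = if j = i then G.x j else 0 :=
    fun j => zm_left (G.odd_cd fr j).par (G.par_x j) (mul_zero 1) (j = i)
      (fun k => (G.odd_bu fr i).x_u k j) (fun k => cd_bu G fr j i k)
  simp only [h]
  simp

theorem npl_cd (i : Fin n) : G.npl fr (G.cd fr i) = 0 := by
  unfold npl
  rw [LinearMap.sum_apply]
  exact Finset.sum_eq_zero fun j _ =>
    zm_reg (G.odd_cd fr j).par (G.par_x j) (fun k => (G.odd_cd fr i).x_u k j)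
      (fun k => cd_cd G fr j i k)

theorem npl_x (i : Fin n) : G.npl fr (G.x i) = 0 := by
  unfold npl
  rw [LinearMap.sum_apply]
  exact Finset.sum_eq_zero fun j _ =>
    zm_reg (G.odd_cd fr j).par (G.par_x j) (fun k => G.x_x k j i)
      (fun k => (G.odd_cd fr j).u_x k i)

theorem ODer_Q1 : ODer V G.Q1 :=
  ODer_sum _ fun i _ => ODer_zm ((G.par_c i).Y (G.par_β i) (-1))

theorem ODer_Q2 : ODer V G.Q2 :=
  ODer_sum _ fun i _ => ODer_zm ((G.par_b i).Y (G.par_x i) (-1))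

theorem ODer_nm : ODer V (G.nm fr) :=
  ODer_sum _ fun i _ => ODer_zm ((G.odd_bu fr i).par.Y (G.par_bh fr i) (-1))

theorem ODer_npl : ODer V (G.npl fr) :=
  ODer_sum _ fun i _ => ODer_zm ((G.odd_cd fr i).par.Y (G.par_x i) (-1))

theorem ODer_Do : ODer V (G.Do fr) :=
  ODer_smul _ (ODer_add (ODer_sub G.ODer_Q1 (G.ODer_nm fr)) (ODer_sub G.ODer_Q2 (G.ODer_npl fr)))

theorem ODer_DD : ODer V G.DD := ODer_add G.ODer_Q1 G.ODer_Q2

/-- `F` is an even derivation, with the charges of the generators -/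
theorem F_der (a : E) (m : ℤ) (v : E) :
    G.F (V.Y a m v) = V.Y (G.F a) m v + V.Y a m (G.F v) := by
  have h : ∀ i, V.zm (V.mul (G.c i) (G.b i)) (V.Y a m v) =
      V.Y (V.zm (V.mul (G.c i) (G.b i)) a) m v + V.Y a m (V.zm (V.mul (G.c i) (G.b i)) v) :=
    fun i => zm_der_even (C2.par_w G i i) a m v
  unfold F
  simp only [LinearMap.sum_apply, h, Finset.sum_add_distrib, map_sum, Finset.sum_apply]

theorem F_par (p : ℕ) (a : E) (ha : V.Par p a) : V.Par p (G.F a) := by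
  unfold F
  rw [LinearMap.sum_apply]
  exact VSA.Par.sum _ fun i _ => ((C2.par_w G i i).Y ha 0).congr (by rw [zero_add])

theorem F_fn (f : A) : G.F (G.fn f) = 0 := by
  unfold F
  rw [LinearMap.sum_apply]
  exact Finset.sum_eq_zero fun j _ =>
    zm_reg (G.par_c j) (G.par_b j) (fun k => G.b_fn k j f) (fun k => G.c_fn k j f)

theorem F_c (i : Fin n) : G.F (G.c i) = G.c i := by
  unfold F
  rw [LinearMap.sum_apply]
  have h : ∀ j, V.zm (V.mul (G.c j) (G.b j)) (G.c i) = if j = i then G.c j else 0 := fun j => by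
    have := C2.w_c G j j i 0
    simpa [C2.w, VSA.zm] using this
  simp only [h]
  simp

theorem F_b (i : Fin n) : G.F (G.b i) = -G.b i := by
  unfold F
  rw [LinearMap.sum_apply]
  have h : ∀ j, V.zm (V.mul (G.c j) (G.b j)) (G.b i) = if j = i then -G.b j else 0 := fun j => by
    have := C2.w_b G j j i 0
    simpa [C2.w, VSA.zm] using this
  simp only [h]
  simp

theorem F_x (i : Fin n) : G.F (G.x i) = 0 := by
  unfold F
  rw [LinearMap.sum_apply]
  exact Finset.sum_eq_zero fun j _ =>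
    zm_reg (G.par_c j) (G.par_b j) (fun k => (G.odd_b j).u_x k i) (fun k => (G.odd_c j).u_x k i)

theorem F_β (i : Fin n) : G.F (G.β i) = 0 := by
  unfold F
  rw [LinearMap.sum_apply]
  exact Finset.sum_eq_zero fun j _ =>
    zm_reg (G.par_c j) (G.par_b j) (fun k => b_β G j i k) (fun k => c_β G j i k)

namespace C3

lemma F_mul (a b : E) : G.F (V.mul a b) = V.mul (G.F a) b + V.mul a (G.F b) :=
  G.F_der a (-1) b

lemma F_fm (f : A) (v : E) : G.F (G.fm f v) = G.fm f (G.F v) := by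
  show G.F (V.Y (G.fn f) (-1) v) = V.Y (G.fn f) (-1) (G.F v)
  rw [G.F_der, G.F_fn]
  simp

lemma F_bu (i : Fin n) : G.F (G.bu fr i) = -G.bu fr i := by
  unfold bu
  rw [map_sum, ← Finset.sum_neg_distrib]
  refine Finset.sum_congr rfl fun j _ => ?_
  rw [F_fm, G.F_b]
  simp [fm]

lemma F_cd (i : Fin n) : G.F (G.cd fr i) = G.cd fr i := by
  unfold cd
  rw [map_sum]
  refine Finset.sum_congr rfl fun j _ => ?_
  rw [F_fm, G.F_c]

lemma F_w (l k : Fin n) : G.F (V.mul (G.c l) (G.b k)) = 0 := by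
  rw [F_mul, G.F_c, G.F_b, map_neg, add_neg_cancel]

lemma F_bh (i : Fin n) : G.F (G.bh fr i) = 0 := by
  unfold bh
  simp only [map_add, map_sub, map_sum, F_fm, F_w, G.F_β, G.F_x, C1.fm_zero_right,
    Finset.sum_const_zero, sub_zero, add_zero]

/-- the commutator of `F` with the zero mode of an eigenvector -/
lemma F_zm {w : E} {z : ℂ} (h : G.F w = z • w) (v : E) :
    G.F (V.zm w v) - V.zm w (G.F v) = z • V.zm w v := by
  show G.F (V.Y w 0 v) - V.Y w 0 (G.F v) = z • V.Y w 0 v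
  rw [G.F_der, h, add_sub_cancel_right, map_smul, Pi.smul_apply, LinearMap.smul_apply]

lemma F_sum {w : Fin n → E} {z : ℂ} (h : ∀ i, G.F (w i) = z • w i) (v : E) :
    G.F ((∑ i, V.zm (w i)) v) - (∑ i, V.zm (w i)) (G.F v) = z • (∑ i, V.zm (w i)) v := by
  rw [LinearMap.sum_apply, LinearMap.sum_apply, map_sum, ← Finset.sum_sub_distrib,
    Finset.smul_sum]
  exact Finset.sum_congr rfl fun i _ => F_zm G (h i) v

lemma sum_vac {w : Fin n → E} : (∑ i, V.zm (w i)) V.vac = 0 := by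
  rw [LinearMap.sum_apply]
  exact Finset.sum_eq_zero fun i _ => V.create' (w i) 0

end C3

theorem F_Q1 (v : E) : G.F (G.Q1 v) - G.Q1 (G.F v) = G.Q1 v := by
  have h := F_sum G (w := fun i => V.mul (G.c i) (G.β i)) (z := 1) (fun i => by
    rw [F_mul, G.F_c, G.F_β, map_zero, add_zero, one_smul]) v
  rwa [one_smul] at h

theorem F_Q2 (v : E) : G.F (G.Q2 v) - G.Q2 (G.F v) = -G.Q2 v := by
  have h := F_sum G (w := fun i => V.mul (G.b i) (G.x i)) (z := -1) (fun i => by
    rw [F_mul, G.F_b, G.F_x, map_zero, add_zero, neg_one_smul, map_neg,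
      LinearMap.neg_apply]) v
  rwa [neg_one_smul] at h

theorem F_nm (v : E) : G.F (G.nm fr v) - G.nm fr (G.F v) = -G.nm fr v := by
  have h := F_sum G (w := fun i => V.mul (G.bu fr i) (G.bh fr i)) (z := -1) (fun i => by
    rw [F_mul, F_bu, F_bh, map_zero, add_zero, neg_one_smul, map_neg,
      LinearMap.neg_apply]) v
  rwa [neg_one_smul] at h

theorem F_npl (v : E) : G.F (G.npl fr v) - G.npl fr (G.F v) = G.npl fr v := by
  have h := F_sum G (w := fun i => V.mul (G.cd fr i) (G.x i)) (z := 1) (fun i => by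
    rw [F_mul, F_cd, G.F_x, map_zero, add_zero, one_smul]) v
  rwa [one_smul] at h

theorem Q1_vac : G.Q1 V.vac = 0 := sum_vac
theorem Q2_vac : G.Q2 V.vac = 0 := sum_vac
theorem nm_vac : G.nm fr V.vac = 0 := sum_vac
theorem npl_vac : G.npl fr V.vac = 0 := sum_vac
theorem F_vac : G.F V.vac = 0 := sum_vac

end CD
end Pool.Agent.AA3
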