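import Pool.Agent.Lib.MP_aa3aaf_al.Fld

/-!
The Fock space `EE n A` of the `bc`-`βγ` system over a differential ring `(A, ∂₁,…,∂ₙ)` and the
modes of the generating fields.
-/

set_option autoImplicit false
open scoped BigOperators
noncomputable section
namespace Pool.Agent.AA3

/-- `n` commuting derivations of a commutative `ℂ`-algebra `A`. -/
structure DS (n : ℕ) (A : Type*) [CommRing A] [Algebra ℂ A] where
  d : Fin n → Derivation ℂ A A
  comm : ∀ i j a, d i (d j a) = d j (d i a)

/-- Bosonic letters: `(i, k)` stands for the mode number `-k-1` of the `i`-th field. -/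
abbrev Bl (n : ℕ) := Fin n × ℕ

/-- Fermionic letters: `(false, i, k)` stands for `c^i_{-k-1}`, `(true, i, k)` for `b_{i,-k-1}`. -/
abbrev Fl (n : ℕ) := Bool ×ₗ (Fin n ×ₗ ℕ)

/-- The letter `(t, i, k)`. -/
def fl {n : ℕ} (t : Bool) (i : Fin n) (k : ℕ) : Fl n := toLex (t, toLex (i, k))

/-- Monomials: a multiset of letters of `x^i = ∂γ^i`, a multiset of letters of `β_i`,
a finite set of fermionic letters. -/
abbrev Mon (n : ℕ) := Multiset (Bl n) × Multiset (Bl n) × Finset (Fl n)

/-- The Fock space over `A`: the free `A`-module on the monomials. -/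
abbrev EE (n : ℕ) (A : Type*) [CommRing A] := Mon n →₀ A

section Ops
variable {n : ℕ} {A : Type*} [CommRing A]

/-- The vacuum. -/
def vacE (n : ℕ) (A : Type*) [CommRing A] : EE n A := Finsupp.single (0, 0, ∅) 1

/-- multiplication by the letter `p` of `x` -/
def xcr (p : Bl n) : EE n A →ₗ[A] EE n A :=
  Finsupp.linearCombination A fun m : Mon n => Finsupp.single (p ::ₘ m.1, m.2.1, m.2.2) (1 : A)

/-- multiplication by the letter `p` of `β` -/
def ycr (p : Bl n) : EE n A →ₗ[A] EE n A :=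
  Finsupp.linearCombination A fun m : Mon n => Finsupp.single (m.1, p ::ₘ m.2.1, m.2.2) (1 : A)

/-- derivative with respect to the letter `p` of `x` -/
def xan (p : Bl n) : EE n A →ₗ[A] EE n A :=
  Finsupp.linearCombination A fun m : Mon n =>
    Finsupp.single (m.1.erase p, m.2.1, m.2.2) ((m.1.count p : ℕ) : A)

/-- derivative with respect to the letter `p` of `β` -/
def yan (p : Bl n) : EE n A →ₗ[A] EE n A :=
  Finsupp.linearCombination A fun m : Mon n =>
    Finsupp.single (m.1, m.2.1.erase p, m.2.2) ((m.2.1.count p : ℕ) : A)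

/-- the sign of the letter `t` with respect to the set `S` -/
def fsg (A : Type*) [CommRing A] (t : Fl n) (S : Finset (Fl n)) : A :=
  (-1) ^ (S.filter (· < t)).card

/-- multiplication by the fermionic letter `t` -/
def fcr (t : Fl n) : EE n A →ₗ[A] EE n A :=
  Finsupp.linearCombination A fun m : Mon n =>
    if t ∈ m.2.2 then 0 else Finsupp.single (m.1, m.2.1, insert t m.2.2) (fsg A t m.2.2)

/-- derivative with respect to the fermionic letter `t` -/
def fan (t : Fl n) : EE n A →ₗ[A] EE n A :=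
  Finsupp.linearCombination A fun m : Mon n =>
    if t ∈ m.2.2 then Finsupp.single (m.1, m.2.1, m.2.2.erase t) (fsg A t m.2.2) else 0

end Ops

section Modes
variable {n : ℕ} {A : Type*} [CommRing A] [Algebra ℂ A] (D : DS n A)

/-- the derivation `∂ᵢ` acting on the coefficients -/
def dA (i : Fin n) : EE n A →ₗ[ℂ] EE n A :=
  Finsupp.mapRange.linearMap (D.d i : A →ₗ[ℂ] A)

/-- Multiplication by the coefficient of `z^r` in the Taylor expansion of
`g(γ₀ + ∑ₖ x_{-k-1} z^{k+1}/(k+1))`. -/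
def Sop : ℕ → A → (EE n A →ₗ[A] EE n A)
  | 0, g => LinearMap.lsmul A (EE n A) g
  | r + 1, g => algebraMap ℂ A (1 / ((r : ℂ) + 1)) •
      ∑ i : Fin n, ∑ k : Fin (r + 1), xcr (i, (k : ℕ)) ∘ₗ Sop (r - k) (D.d i g)

instance instLeftCommDD : LeftCommutative (fun (p : Bl n) (g : A) => D.d p.1 g) :=
  ⟨fun p q g => D.comm p.1 q.1 g⟩

/-- iterated derivative along a multiset of letters -/
def dd (t : Multiset (Bl n)) (f : A) : A :=
  Multiset.foldr (fun (p : Bl n) (g : A) => D.d p.1 g) f t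

/-- weight `∑ (k + 1)` of a multiset of letters -/
def mwt (t : Multiset (Bl n)) : ℕ := (t.map fun p => p.2 + 1).sum

/-- `Sop` for integer index, zero for negative index. -/
def SopZ (r : ℤ) (g : A) : EE n A →ₗ[A] EE n A := if r < 0 then 0 else Sop D r.toNat g

/-- The modes of the field `f(γ(z)) = ∑ₘ f_m z^{-m-1}`: with
`γ(z) = γ₀ + ∑_{k≥0} x_{-k-1} z^{k+1}/(k+1) - ∑_{k≥0} z^{-k-1} ∂/∂β_{-k-1}`,
`f(γ(z)) = ∑_t (-1)^{|t|} z^{-wt t} (∂_t f)(γ₀ + ∑ x_{-k-1} z^{k+1}/(k+1)) ∂_β^{t} / t!`. -/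
def fnA (f : A) (m : ℤ) : EE n A →ₗ[A] EE n A :=
  Finsupp.linearCombination A fun w : Mon n =>
    ((w.2.1.antidiagonal).map fun p =>
      ((-1 : A) ^ (Multiset.card p.1)) •
        SopZ D ((mwt p.1 : ℤ) - m - 1) (dd D p.1 f) (Finsupp.single (w.1, p.2, w.2.2) 1)).sum

/-- modes of `x^i` -/
def xMo (n : ℕ) (A : Type*) [CommRing A] [Algebra ℂ A] (i : Fin n) (m : ℤ) :
    Module.End ℂ (EE n A) :=
  if m < 0 then (xcr (i, (-m - 1).toNat)).restrictScalars ℂ
  else if m = 0 then 0
  else (m : ℂ) • (yan (i, (m - 1).toNat)).restrictScalars ℂ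

/-- modes of `β_i` -/
def βMo (i : Fin n) (m : ℤ) : Module.End ℂ (EE n A) :=
  if m < 0 then (ycr (i, (-m - 1).toNat)).restrictScalars ℂ
  else if m = 0 then dA D i
  else (m : ℂ) • (xan (i, (m - 1).toNat)).restrictScalars ℂ

/-- modes of `c^i` (`t = false`) and `b_i` (`t = true`) -/
def fMo (n : ℕ) (A : Type*) [CommRing A] [Algebra ℂ A] (t : Bool) (i : Fin n) (m : ℤ) :
    Module.End ℂ (EE n A) :=
  if m < 0 then (fcr (fl t i (-m - 1).toNat)).restrictScalars ℂ
  else (fan (fl (!t) i m.toNat)).restrictScalars ℂ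

/-- modes of the function field `f(γ(z))` -/
def fnMo (f : A) (m : ℤ) : Module.End ℂ (EE n A) := (fnA D f m).restrictScalars ℂ

/-- parity -/
def sgE (n : ℕ) (A : Type*) [CommRing A] : EE n A →ₗ[A] EE n A :=
  Finsupp.linearCombination A fun m : Mon n => Finsupp.single m ((-1 : A) ^ m.2.2.card)

/-- vacuum coefficient -/
def vc (n : ℕ) (A : Type*) [CommRing A] : EE n A →ₗ[A] A := Finsupp.lapply (0, 0, ∅)

end Modes

end Pool.Agent.AA3
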