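import Pool.Agent.Lib.MP_aa3aaf_al.VSA
import Pool.Agent.Lib.MP_aa3aaf_al.Fock

/-!
Chiral data: the generating states `f`, `x^i`, `β_i`, `b_i`, `c^i`
of the `bc`-`βγ` system over a differential ring inside a vertex superalgebra, with their
operator product expansions.
-/

set_option autoImplicit false
open scoped BigOperators
noncomputable section
namespace Pool.Agent.AA3

/-- The generating states of the `bc`-`βγ` system over `(A, ∂)` in a vertex superalgebra. -/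
structure CD (n : ℕ) {A : Type*} [CommRing A] [Algebra ℂ A] (D : DS n A)
    {E : Type*} [AddCommGroup E] [Module ℂ E] (V : VSA E) where
  fn : A →ₗ[ℂ] E
  x : Fin n → E
  β : Fin n → E
  b : Fin n → E
  c : Fin n → E
  par_fn : ∀ f, V.Par 0 (fn f)
  par_x : ∀ i, V.Par 0 (x i)
  par_β : ∀ i, V.Par 0 (β i)
  par_b : ∀ i, V.Par 1 (b i)
  par_c : ∀ i, V.Par 1 (c i)
  fn_one : fn 1 = V.vac
  fn_mul : ∀ f g, V.Y (fn f) (-1) (fn g) = fn (f * g)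
  T_fn : ∀ f, V.T (fn f) = ∑ i, V.Y (fn (D.d i f)) (-1) (x i)
  fn_fn : ∀ (k : ℕ) f g, V.Y (fn f) k (fn g) = 0
  x_fn : ∀ (k : ℕ) i f, V.Y (x i) k (fn f) = 0
  b_fn : ∀ (k : ℕ) i f, V.Y (b i) k (fn f) = 0
  c_fn : ∀ (k : ℕ) i f, V.Y (c i) k (fn f) = 0
  β_fn_zero : ∀ i f, V.Y (β i) 0 (fn f) = fn (D.d i f)
  β_fn_succ : ∀ (k : ℕ) i f, V.Y (β i) (k + 1 : ℕ) (fn f) = 0
  x_x : ∀ (k : ℕ) i j, V.Y (x i) k (x j) = 0
  β_β : ∀ (k : ℕ) i j, V.Y (β i) k (β j) = 0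
  β_x : ∀ (k : ℕ) i j, V.Y (β i) k (x j) = if k = 1 ∧ i = j then V.vac else 0
  x_β : ∀ (k : ℕ) i j, V.Y (x i) k (β j) = if k = 1 ∧ i = j then V.vac else 0
  b_b : ∀ (k : ℕ) i j, V.Y (b i) k (b j) = 0
  c_c : ∀ (k : ℕ) i j, V.Y (c i) k (c j) = 0
  b_c : ∀ (k : ℕ) i j, V.Y (b i) k (c j) = if k = 0 ∧ i = j then V.vac else 0
  c_b : ∀ (k : ℕ) i j, V.Y (c i) k (b j) = if k = 0 ∧ i = j then V.vac else 0
  x_b : ∀ (k : ℕ) i j, V.Y (x i) k (b j) = 0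
  x_c : ∀ (k : ℕ) i j, V.Y (x i) k (c j) = 0
  β_b : ∀ (k : ℕ) i j, V.Y (β i) k (b j) = 0
  β_c : ∀ (k : ℕ) i j, V.Y (β i) k (c j) = 0

namespace CD
variable {n : ℕ} {A : Type*} [CommRing A] [Algebra ℂ A] {D : DS n A}
  {E : Type*} [AddCommGroup E] [Module ℂ E] {V : VSA E} (G : CD n D V)

/-- `f ⋆ v = (f)₍₋₁₎ v` for a function `f`. -/
def fm (f : A) (v : E) : E := V.Y (G.fn f) (-1) v

/-- The charge `F = ∑ (c^i b_i)₍₀₎`. -/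
def F : E →ₗ[ℂ] E := ∑ i, V.zm (V.mul (G.c i) (G.b i))

/-- `Q₁ = ∑ (c^i β_i)₍₀₎`. -/
def Q1 : E →ₗ[ℂ] E := ∑ i, V.zm (V.mul (G.c i) (G.β i))

/-- `Q₂ = ∑ (b_i x^i)₍₀₎`. -/
def Q2 : E →ₗ[ℂ] E := ∑ i, V.zm (V.mul (G.b i) (G.x i))

end CD

/-- An orthonormal frame: `e a i` are the components of the coframe, `E i a` of the dual
frame. The metric is `g_{ij} = ∑_a e a i * e a j`. -/
structure Frame (n : ℕ) (A : Type*) [CommRing A] where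
  e : Matrix (Fin n) (Fin n) A
  f : Matrix (Fin n) (Fin n) A
  e_f : e * f = 1
  f_e : f * e = 1

namespace Frame
variable {n : ℕ} {A : Type*} [CommRing A] [Algebra ℂ A] (fr : Frame n A) (D : DS n A)

/-- The metric. -/
def g : Matrix (Fin n) (Fin n) A := fr.e.transpose * fr.e
/-- The inverse metric. -/
def gi : Matrix (Fin n) (Fin n) A := fr.f * fr.f.transpose

/-- `(s_d)_{ab} = E_d(e^a)(E_b)`: `s d a b = ∑_{j,i} f j d * ∂_j (e a i) * f i b`. -/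
def s (d a b : Fin n) : A := ∑ j, ∑ i, fr.f j d * D.d j (fr.e a i) * fr.f i b

/-- `M_{a;bd} = -2 ω_{b;ad}` (`ω` the Levi-Civita connection form in the frame). -/
def M (a b d : Fin n) : A :=
  (fr.s D b a d - fr.s D b d a) + (fr.s D a b d + fr.s D a d b)
    - (fr.s D d a b + fr.s D d b a)

end Frame

namespace CD
variable {n : ℕ} {A : Type*} [CommRing A] [Algebra ℂ A] {D : DS n A}
  {E : Type*} [AddCommGroup E] [Module ℂ E] {V : VSA E} (G : CD n D V) (fr : Frame n A)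

/-- `C^a = ∑ e^a_i c^i` -/
def C (a : Fin n) : E := ∑ i, G.fm (fr.e a i) (G.c i)
/-- `B_a = ∑ E_a^i b_i` -/
def B (a : Fin n) : E := ∑ i, G.fm (fr.f i a) (G.b i)
/-- `ψ^a = C^a + B_a` (the field `√2 ψ_+^a`). -/
def ps (a : Fin n) : E := G.C fr a + G.B fr a
/-- `χ^a = C^a - B_a`. -/
def ch (a : Fin n) : E := G.C fr a - G.B fr a
/-- `b^i = g^{ij} b_j`. -/
def bu (i : Fin n) : E := ∑ j, G.fm (fr.gi i j) (G.b j)
/-- `c_i = g_{ij} c^j`. -/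
def cd (i : Fin n) : E := ∑ j, G.fm (fr.g i j) (G.c j)

/-- `a_j = g⁻¹ ∂_j g`. -/
def am (_G : CD n D V) (fr : Frame n A) (j : Fin n) : Matrix (Fin n) (Fin n) A :=
  fr.gi * (fr.g.map (D.d j))

/-- `h_{jl} = -½ tr (a_j a_l)`. -/
def hh (j l : Fin n) : A := (-(1/2) : ℂ) • (G.am fr j * G.am fr l).trace

/-- The hatted field `β̂_j = β_j - ∑ (a_j)^k_l c^l b_k + ∑ h_{jl} x^l`. -/
def bh (j : Fin n) : E :=
  G.β j - ∑ k, ∑ l, G.fm (G.am fr j k l) (V.mul (G.c l) (G.b k)) + ∑ l, G.fm (G.hh fr j l) (G.x l)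

/-- `n_- = ∑ (b^i β̂_i)₍₀₎`. -/
def nm : E →ₗ[ℂ] E := ∑ i, V.zm (V.mul (G.bu fr i) (G.bh fr i))

/-- `n_+ = ∑ (c_i x^i)₍₀₎`. -/
def npl : E →ₗ[ℂ] E := ∑ i, V.zm (V.mul (G.cd fr i) (G.x i))

/-- `Φ = φ_{abc} ψ^a (ψ^b ψ^c)`. -/
def Phi (φ : Fin n → Fin n → Fin n → ℂ) : E :=
  ∑ a, ∑ b, ∑ c, φ a b c • V.mul (G.ps fr a) (V.mul (G.ps fr b) (G.ps fr c))

/-- `D = Q₁ + Q₂`. -/
def DD : E →ₗ[ℂ] E := G.Q1 + G.Q2

/-- `K = D Φ`. -/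
def KK (φ : Fin n → Fin n → Fin n → ℂ) : E := G.DD (G.Phi fr φ)

/-- `D_o = ½ (Q₁ - n_- + Q₂ - n_+)`. -/
def Do : E →ₗ[ℂ] E := (1/2 : ℂ) • ((G.Q1 - G.nm fr) + (G.Q2 - G.npl fr))

end CD

end Pool.Agent.AA3
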