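import Pool.Agent.Lib.MP_aa3aaf_al.FockFld

/-!
Task K1: the (super)commutation relations of the elementary modes on the Fock space.
-/

set_option autoImplicit false
open scoped BigOperators
noncomputable section
namespace Pool.Agent.AA3

namespace K1

section Letters
variable {n : ℕ} {A : Type*} [CommRing A]

lemma ext_single {M : Type*} [AddCommGroup M] [Module A M] (f g : EE n A →ₗ[A] M)
    (h : ∀ (w : Mon n) (r : A), f (Finsupp.single w r) = g (Finsupp.single w r)) : f = g :=
  Finsupp.lhom_ext h

lemma xcr_xcr (p q : Bl n) (v : EE n A) : xcr p (xcr q v) = xcr q (xcr p v) := by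
  have h : (xcr p : EE n A →ₗ[A] EE n A) ∘ₗ xcr q = xcr q ∘ₗ xcr p := by
    apply ext_single
    intro w r
    simp only [LinearMap.comp_apply, xcr_single]
    rw [Multiset.cons_swap]
  exact LinearMap.congr_fun h v

lemma ycr_ycr (p q : Bl n) (v : EE n A) : ycr p (ycr q v) = ycr q (ycr p v) := by
  have h : (ycr p : EE n A →ₗ[A] EE n A) ∘ₗ ycr q = ycr q ∘ₗ ycr p := by
    apply ext_single
    intro w r
    simp only [LinearMap.comp_apply, ycr_single]
    rw [Multiset.cons_swap]
  exact LinearMap.congr_fun h v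

lemma xcr_ycr (p q : Bl n) (v : EE n A) : xcr p (ycr q v) = ycr q (xcr p v) := by
  have h : (xcr p : EE n A →ₗ[A] EE n A) ∘ₗ ycr q = ycr q ∘ₗ xcr p := by
    apply ext_single
    intro w r
    simp only [LinearMap.comp_apply, xcr_single, ycr_single]
  exact LinearMap.congr_fun h v

lemma xcr_yan (p q : Bl n) (v : EE n A) : xcr p (yan q v) = yan q (xcr p v) := by
  have h : (xcr p : EE n A →ₗ[A] EE n A) ∘ₗ yan q = yan q ∘ₗ xcr p := by
    apply ext_single
    intro w r
    simp only [LinearMap.comp_apply, xcr_single, yan_single]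
  exact LinearMap.congr_fun h v

lemma ycr_xan (p q : Bl n) (v : EE n A) : ycr p (xan q v) = xan q (ycr p v) := by
  have h : (ycr p : EE n A →ₗ[A] EE n A) ∘ₗ xan q = xan q ∘ₗ ycr p := by
    apply ext_single
    intro w r
    simp only [LinearMap.comp_apply, ycr_single, xan_single]
  exact LinearMap.congr_fun h v

lemma yan_xan (p q : Bl n) (v : EE n A) : yan p (xan q v) = xan q (yan p v) := by
  have h : (yan p : EE n A →ₗ[A] EE n A) ∘ₗ xan q = xan q ∘ₗ yan p := by
    apply ext_single
    intro w r
    simp only [LinearMap.comp_apply, yan_single, xan_single]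
    congr 1
    ring
  exact LinearMap.congr_fun h v

lemma count_aux (p q : Bl n) (s : Multiset (Bl n)) (r : A) :
    r * ((s.count q : ℕ) : A) * (((s.erase q).count p : ℕ) : A)
      = r * ((s.count p : ℕ) : A) * (((s.erase p).count q : ℕ) : A) := by
  by_cases h : p = q
  · subst h; rfl
  · rw [Multiset.count_erase_of_ne h, Multiset.count_erase_of_ne (Ne.symm h)]
    ring

lemma xan_xan (p q : Bl n) (v : EE n A) : xan p (xan q v) = xan q (xan p v) := by
  have h : (xan p : EE n A →ₗ[A] EE n A) ∘ₗ xan q = xan q ∘ₗ xan p := by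
    apply ext_single
    intro w r
    simp only [LinearMap.comp_apply, xan_single]
    rw [count_aux p q w.1 r, Multiset.erase_comm]
  exact LinearMap.congr_fun h v

lemma yan_yan (p q : Bl n) (v : EE n A) : yan p (yan q v) = yan q (yan p v) := by
  have h : (yan p : EE n A →ₗ[A] EE n A) ∘ₗ yan q = yan q ∘ₗ yan p := by
    apply ext_single
    intro w r
    simp only [LinearMap.comp_apply, yan_single]
    rw [count_aux p q w.2.1 r, Multiset.erase_comm]
  exact LinearMap.congr_fun h v

lemma cons_erase_single {B : Type*} (g : Multiset (Bl n) → B) (p : Bl n)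
    (s : Multiset (Bl n)) (r : A) :
    (Finsupp.single (g (p ::ₘ s.erase p)) (r * ((s.count p : ℕ) : A)) : B →₀ A)
      = Finsupp.single (g s) (r * ((s.count p : ℕ) : A)) := by
  by_cases h : p ∈ s
  · rw [Multiset.cons_erase h]
  · rw [Multiset.count_eq_zero_of_notMem h]
    simp only [Nat.cast_zero, mul_zero, Finsupp.single_zero]

lemma xan_xcr (p q : Bl n) (v : EE n A) :
    xan p (xcr q v) = xcr q (xan p v) + if p = q then v else 0 := by
  by_cases hpq : p = q
  · subst hpq
    have h : (xan p : EE n A →ₗ[A] EE n A) ∘ₗ xcr p = xcr p ∘ₗ xan p + LinearMap.id := by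
      apply ext_single
      intro w r
      simp only [LinearMap.comp_apply, LinearMap.add_apply, LinearMap.id_apply, xcr_single,
        xan_single, Multiset.erase_cons_head, Multiset.count_cons_self]
      rw [cons_erase_single (fun s => ((s, w.2.1, w.2.2) : Mon n)) p w.1 r]
      rw [← Finsupp.single_add]
      congr 1
      push_cast
      ring
    rw [if_pos rfl]
    exact LinearMap.congr_fun h v
  · have h : (xan p : EE n A →ₗ[A] EE n A) ∘ₗ xcr q = xcr q ∘ₗ xan p := by
      apply ext_single
      intro w r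
      simp only [LinearMap.comp_apply, xcr_single, xan_single]
      rw [Multiset.erase_cons_tail _ (Ne.symm hpq), Multiset.count_cons_of_ne hpq]
    rw [if_neg hpq, add_zero]
    exact LinearMap.congr_fun h v

lemma yan_ycr (p q : Bl n) (v : EE n A) :
    yan p (ycr q v) = ycr q (yan p v) + if p = q then v else 0 := by
  by_cases hpq : p = q
  · subst hpq
    have h : (yan p : EE n A →ₗ[A] EE n A) ∘ₗ ycr p = ycr p ∘ₗ yan p + LinearMap.id := by
      apply ext_single
      intro w r
      simp only [LinearMap.comp_apply, LinearMap.add_apply, LinearMap.id_apply, ycr_single,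
        yan_single, Multiset.erase_cons_head, Multiset.count_cons_self]
      rw [cons_erase_single (fun s => ((w.1, s, w.2.2) : Mon n)) p w.2.1 r]
      rw [← Finsupp.single_add]
      congr 1
      push_cast
      ring
    rw [if_pos rfl]
    exact LinearMap.congr_fun h v
  · have h : (yan p : EE n A →ₗ[A] EE n A) ∘ₗ ycr q = ycr q ∘ₗ yan p := by
      apply ext_single
      intro w r
      simp only [LinearMap.comp_apply, ycr_single, yan_single]
      rw [Multiset.erase_cons_tail _ (Ne.symm hpq), Multiset.count_cons_of_ne hpq]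
    rw [if_neg hpq, add_zero]
    exact LinearMap.congr_fun h v

/-! ### fermions and bosons -/

lemma xcr_fcr (p : Bl n) (t : Fl n) (v : EE n A) : xcr p (fcr t v) = fcr t (xcr p v) := by
  have h : (xcr p : EE n A →ₗ[A] EE n A) ∘ₗ fcr t = fcr t ∘ₗ xcr p := by
    apply ext_single
    intro w r
    simp only [LinearMap.comp_apply, xcr_single, fcr_single]
    split_ifs <;> simp only [map_zero, xcr_single]
  exact LinearMap.congr_fun h v

lemma ycr_fcr (p : Bl n) (t : Fl n) (v : EE n A) : ycr p (fcr t v) = fcr t (ycr p v) := by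
  have h : (ycr p : EE n A →ₗ[A] EE n A) ∘ₗ fcr t = fcr t ∘ₗ ycr p := by
    apply ext_single
    intro w r
    simp only [LinearMap.comp_apply, ycr_single, fcr_single]
    split_ifs <;> simp only [map_zero, ycr_single]
  exact LinearMap.congr_fun h v

lemma xan_fcr (p : Bl n) (t : Fl n) (v : EE n A) : xan p (fcr t v) = fcr t (xan p v) := by
  have h : (xan p : EE n A →ₗ[A] EE n A) ∘ₗ fcr t = fcr t ∘ₗ xan p := by
    apply ext_single
    intro w r
    simp only [LinearMap.comp_apply, xan_single, fcr_single]
    split_ifs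
    · simp only [map_zero]
    · simp only [xan_single]
      congr 1
      ring
  exact LinearMap.congr_fun h v

lemma yan_fcr (p : Bl n) (t : Fl n) (v : EE n A) : yan p (fcr t v) = fcr t (yan p v) := by
  have h : (yan p : EE n A →ₗ[A] EE n A) ∘ₗ fcr t = fcr t ∘ₗ yan p := by
    apply ext_single
    intro w r
    simp only [LinearMap.comp_apply, yan_single, fcr_single]
    split_ifs
    · simp only [map_zero]
    · simp only [yan_single]
      congr 1
      ring
  exact LinearMap.congr_fun h v

lemma xcr_fan (p : Bl n) (t : Fl n) (v : EE n A) : xcr p (fan t v) = fan t (xcr p v) := by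
  have h : (xcr p : EE n A →ₗ[A] EE n A) ∘ₗ fan t = fan t ∘ₗ xcr p := by
    apply ext_single
    intro w r
    simp only [LinearMap.comp_apply, xcr_single, fan_single]
    split_ifs <;> simp only [map_zero, xcr_single]
  exact LinearMap.congr_fun h v

lemma ycr_fan (p : Bl n) (t : Fl n) (v : EE n A) : ycr p (fan t v) = fan t (ycr p v) := by
  have h : (ycr p : EE n A →ₗ[A] EE n A) ∘ₗ fan t = fan t ∘ₗ ycr p := by
    apply ext_single
    intro w r
    simp only [LinearMap.comp_apply, ycr_single, fan_single]
    split_ifs <;> simp only [map_zero, ycr_single]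
  exact LinearMap.congr_fun h v

lemma xan_fan (p : Bl n) (t : Fl n) (v : EE n A) : xan p (fan t v) = fan t (xan p v) := by
  have h : (xan p : EE n A →ₗ[A] EE n A) ∘ₗ fan t = fan t ∘ₗ xan p := by
    apply ext_single
    intro w r
    simp only [LinearMap.comp_apply, xan_single, fan_single]
    split_ifs
    · simp only [xan_single]
      congr 1
      ring
    · simp only [map_zero]
  exact LinearMap.congr_fun h v

lemma yan_fan (p : Bl n) (t : Fl n) (v : EE n A) : yan p (fan t v) = fan t (yan p v) := by
  have h : (yan p : EE n A →ₗ[A] EE n A) ∘ₗ fan t = fan t ∘ₗ yan p := by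
    apply ext_single
    intro w r
    simp only [LinearMap.comp_apply, yan_single, fan_single]
    split_ifs
    · simp only [yan_single]
      congr 1
      ring
    · simp only [map_zero]
  exact LinearMap.congr_fun h v

/-! ### fermions -/

lemma fsg_insert (s t : Fl n) (S : Finset (Fl n)) (h : t ∉ S) :
    fsg A s (insert t S) = fsg A s S * (if t < s then -1 else 1) := by
  unfold fsg
  rw [Finset.filter_insert]
  split_ifs with hlt
  · rw [Finset.card_insert_of_notMem (by simp [h]), pow_succ]
  · rw [mul_one]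

lemma fsg_erase (s t : Fl n) (S : Finset (Fl n)) (h : t ∈ S) :
    fsg A s (S.erase t) = fsg A s S * (if t < s then -1 else 1) := by
  have h1 : fsg A s S = fsg A s (S.erase t) * (if t < s then -1 else 1) := by
    conv_lhs => rw [← Finset.insert_erase h]
    exact fsg_insert s t _ (Finset.notMem_erase t S)
  rw [h1]
  split_ifs <;> ring

lemma fsg_mul_self (s : Fl n) (S : Finset (Fl n)) : fsg A s S * fsg A s S = 1 := by
  unfold fsg
  rw [← pow_add, ← two_mul, pow_mul]
  simp

lemma fcr_fcr (s t : Fl n) (v : EE n A) : fcr s (fcr t v) + fcr t (fcr s v) = 0 := by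
  have h : (fcr s : EE n A →ₗ[A] EE n A) ∘ₗ fcr t + fcr t ∘ₗ fcr s = 0 := by
    apply ext_single
    intro w r
    simp only [LinearMap.comp_apply, LinearMap.add_apply, LinearMap.zero_apply, fcr_single]
    by_cases hs : s ∈ w.2.2
    · by_cases ht : t ∈ w.2.2
      · simp only [hs, ht, if_true, map_zero, add_zero]
      · simp only [hs, ht, if_true, if_false, map_zero, add_zero, fcr_single,
          Finset.mem_insert_of_mem hs]
    · by_cases ht : t ∈ w.2.2
      · simp only [hs, ht, if_true, if_false, map_zero, add_zero, fcr_single,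
          Finset.mem_insert_of_mem ht]
      · by_cases hst : s = t
        · subst hst
          simp only [hs, if_false, fcr_single, Finset.mem_insert_self, if_true, add_zero]
        · have h1 : s ∉ insert t w.2.2 := by
            simp only [Finset.mem_insert, not_or]; exact ⟨hst, hs⟩
          have h2 : t ∉ insert s w.2.2 := by
            simp only [Finset.mem_insert, not_or]; exact ⟨Ne.symm hst, ht⟩
          simp only [hs, ht, if_false, fcr_single, h1, h2]
          rw [Finset.insert_comm s t, ← Finsupp.single_add, fsg_insert s t _ ht,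
            fsg_insert t s _ hs]
          rcases lt_or_gt_of_ne hst with hlt | hlt
          · rw [if_neg (not_lt_of_gt hlt), if_pos hlt]
            have : r * fsg A t w.2.2 * (fsg A s w.2.2 * 1)
                + r * fsg A s w.2.2 * (fsg A t w.2.2 * -1) = 0 := by ring
            rw [this, Finsupp.single_zero]
          · rw [if_pos hlt, if_neg (not_lt_of_gt hlt)]
            have : r * fsg A t w.2.2 * (fsg A s w.2.2 * -1)
                + r * fsg A s w.2.2 * (fsg A t w.2.2 * 1) = 0 := by ring
            rw [this, Finsupp.single_zero]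
  exact LinearMap.congr_fun h v

lemma fan_fan (s t : Fl n) (v : EE n A) : fan s (fan t v) + fan t (fan s v) = 0 := by
  have h : (fan s : EE n A →ₗ[A] EE n A) ∘ₗ fan t + fan t ∘ₗ fan s = 0 := by
    apply ext_single
    intro w r
    simp only [LinearMap.comp_apply, LinearMap.add_apply, LinearMap.zero_apply, fan_single]
    by_cases hs : s ∈ w.2.2
    · by_cases ht : t ∈ w.2.2
      · by_cases hst : s = t
        · subst hst
          simp only [hs, if_true, fan_single, Finset.notMem_erase, if_false, add_zero]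
        · have h1 : s ∈ w.2.2.erase t := Finset.mem_erase.mpr ⟨hst, hs⟩
          have h2 : t ∈ w.2.2.erase s := Finset.mem_erase.mpr ⟨Ne.symm hst, ht⟩
          simp only [hs, ht, if_true, fan_single, h1, h2]
          rw [Finset.erase_right_comm, ← Finsupp.single_add, fsg_erase s t _ ht,
            fsg_erase t s _ hs]
          rcases lt_or_gt_of_ne hst with hlt | hlt
          · rw [if_neg (not_lt_of_gt hlt), if_pos hlt]
            have : r * fsg A t w.2.2 * (fsg A s w.2.2 * 1)
                + r * fsg A s w.2.2 * (fsg A t w.2.2 * -1) = 0 := by ring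
            rw [this, Finsupp.single_zero]
          · rw [if_pos hlt, if_neg (not_lt_of_gt hlt)]
            have : r * fsg A t w.2.2 * (fsg A s w.2.2 * -1)
                + r * fsg A s w.2.2 * (fsg A t w.2.2 * 1) = 0 := by ring
            rw [this, Finsupp.single_zero]
      · have h2 : t ∉ w.2.2.erase s := fun h => ht (Finset.mem_of_mem_erase h)
        simp only [hs, ht, if_true, if_false, map_zero, add_zero, fan_single, h2]
    · by_cases ht : t ∈ w.2.2
      · have h2 : s ∉ w.2.2.erase t := fun h => hs (Finset.mem_of_mem_erase h)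
        simp only [hs, ht, if_true, if_false, map_zero, add_zero, fan_single, h2]
      · simp only [hs, ht, if_false, map_zero, add_zero]
  exact LinearMap.congr_fun h v

lemma fan_fcr (s t : Fl n) (v : EE n A) :
    fan s (fcr t v) + fcr t (fan s v) = if s = t then v else 0 := by
  by_cases hst : s = t
  · subst hst
    have h : (fan s : EE n A →ₗ[A] EE n A) ∘ₗ fcr s + fcr s ∘ₗ fan s = LinearMap.id := by
      apply ext_single
      intro w r
      simp only [LinearMap.comp_apply, LinearMap.add_apply, LinearMap.id_apply, fan_single,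
        fcr_single]
      by_cases hs : s ∈ w.2.2
      · simp only [hs, if_true, map_zero, zero_add, fcr_single, Finset.notMem_erase, if_false]
        rw [Finset.insert_erase hs, fsg_erase s s _ hs, if_neg (lt_irrefl s), mul_one, mul_assoc,
          fsg_mul_self, mul_one]
      · simp only [hs, if_false, map_zero, add_zero, fan_single, Finset.mem_insert_self, if_true]
        rw [Finset.erase_insert hs, fsg_insert s s _ hs, if_neg (lt_irrefl s), mul_one, mul_assoc,
          fsg_mul_self, mul_one]
    rw [if_pos rfl]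
    exact LinearMap.congr_fun h v
  · have h : (fan s : EE n A →ₗ[A] EE n A) ∘ₗ fcr t + fcr t ∘ₗ fan s = 0 := by
      apply ext_single
      intro w r
      simp only [LinearMap.comp_apply, LinearMap.add_apply, LinearMap.zero_apply, fan_single,
        fcr_single]
      by_cases hs : s ∈ w.2.2
      · by_cases ht : t ∈ w.2.2
        · have h2 : t ∈ w.2.2.erase s := Finset.mem_erase.mpr ⟨Ne.symm hst, ht⟩
          simp only [hs, ht, if_true, map_zero, zero_add, fcr_single, h2]
        · have h1 : s ∈ insert t w.2.2 := Finset.mem_insert_of_mem hs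
          have h2 : t ∉ w.2.2.erase s := fun h => ht (Finset.mem_of_mem_erase h)
          simp only [hs, ht, if_true, if_false, fan_single, fcr_single, h1, h2]
          rw [Finset.erase_insert_of_ne (Ne.symm hst), ← Finsupp.single_add, fsg_insert s t _ ht,
            fsg_erase t s _ hs]
          rcases lt_or_gt_of_ne hst with hlt | hlt
          · rw [if_neg (not_lt_of_gt hlt), if_pos hlt]
            have : r * fsg A t w.2.2 * (fsg A s w.2.2 * 1)
                + r * fsg A s w.2.2 * (fsg A t w.2.2 * -1) = 0 := by ring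
            rw [this, Finsupp.single_zero]
          · rw [if_pos hlt, if_neg (not_lt_of_gt hlt)]
            have : r * fsg A t w.2.2 * (fsg A s w.2.2 * -1)
                + r * fsg A s w.2.2 * (fsg A t w.2.2 * 1) = 0 := by ring
            rw [this, Finsupp.single_zero]
      · by_cases ht : t ∈ w.2.2
        · simp only [hs, ht, if_true, if_false, map_zero, add_zero]
        · have h1 : s ∉ insert t w.2.2 := by
            simp only [Finset.mem_insert, not_or]; exact ⟨hst, hs⟩
          simp only [hs, ht, if_false, map_zero, add_zero, fan_single, h1]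
    rw [if_neg hst]
    exact LinearMap.congr_fun h v

/-! ### parity -/

lemma sgE_single (w : Mon n) (r : A) :
    sgE n A (Finsupp.single w r) = Finsupp.single w (r * (-1 : A) ^ w.2.2.card) := by
  simp only [sgE, Finsupp.linearCombination_single, Finsupp.smul_single, smul_eq_mul]

lemma sgE_xcr (p : Bl n) (v : EE n A) : sgE n A (xcr p v) = xcr p (sgE n A v) := by
  have h : (sgE n A) ∘ₗ xcr p = xcr p ∘ₗ sgE n A := by
    apply ext_single
    intro w r
    simp only [LinearMap.comp_apply, sgE_single, xcr_single]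
  exact LinearMap.congr_fun h v

lemma sgE_ycr (p : Bl n) (v : EE n A) : sgE n A (ycr p v) = ycr p (sgE n A v) := by
  have h : (sgE n A) ∘ₗ ycr p = ycr p ∘ₗ sgE n A := by
    apply ext_single
    intro w r
    simp only [LinearMap.comp_apply, sgE_single, ycr_single]
  exact LinearMap.congr_fun h v

lemma sgE_xan (p : Bl n) (v : EE n A) : sgE n A (xan p v) = xan p (sgE n A v) := by
  have h : (sgE n A) ∘ₗ xan p = xan p ∘ₗ sgE n A := by
    apply ext_single
    intro w r
    simp only [LinearMap.comp_apply, sgE_single, xan_single]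
    congr 1
    ring
  exact LinearMap.congr_fun h v

lemma sgE_yan (p : Bl n) (v : EE n A) : sgE n A (yan p v) = yan p (sgE n A v) := by
  have h : (sgE n A) ∘ₗ yan p = yan p ∘ₗ sgE n A := by
    apply ext_single
    intro w r
    simp only [LinearMap.comp_apply, sgE_single, yan_single]
    congr 1
    ring
  exact LinearMap.congr_fun h v

lemma sgE_fcr (t : Fl n) (v : EE n A) : sgE n A (fcr t v) = -fcr t (sgE n A v) := by
  have h : (sgE n A) ∘ₗ fcr t = -(fcr t ∘ₗ sgE n A) := by
    apply ext_single
    intro w r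
    simp only [LinearMap.comp_apply, LinearMap.neg_apply, sgE_single, fcr_single]
    split_ifs with ht
    · simp only [map_zero, neg_zero]
    · rw [sgE_single, ← Finsupp.single_neg, Finset.card_insert_of_notMem ht, pow_succ]
      congr 1
      ring
  exact LinearMap.congr_fun h v

lemma sgE_fan (t : Fl n) (v : EE n A) : sgE n A (fan t v) = -fan t (sgE n A v) := by
  have h : (sgE n A) ∘ₗ fan t = -(fan t ∘ₗ sgE n A) := by
    apply ext_single
    intro w r
    simp only [LinearMap.comp_apply, LinearMap.neg_apply, sgE_single, fan_single]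
    split_ifs with ht
    · rw [sgE_single, ← Finsupp.single_neg]
      have h1 : w.2.2.card = (w.2.2.erase t).card + 1 := (Finset.card_erase_add_one ht).symm
      rw [h1, pow_succ]
      congr 1
      ring
    · simp only [map_zero, neg_zero]
  exact LinearMap.congr_fun h v

end Letters

section DAmap
variable {n : ℕ} {A : Type*} [CommRing A] [Algebra ℂ A] (D : DS n A)

lemma dA_single (i : Fin n) (w : Mon n) (r : A) :
    dA D i (Finsupp.single w r) = Finsupp.single w (D.d i r) := by
  simp only [dA, Finsupp.mapRange.linearMap_apply, Finsupp.mapRange_single]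
  rfl

lemma extC (f g : EE n A →ₗ[ℂ] EE n A)
    (h : ∀ (w : Mon n) (r : A), f (Finsupp.single w r) = g (Finsupp.single w r)) : f = g :=
  Finsupp.lhom_ext h

lemma d_mul_nat (i : Fin n) (r : A) (k : ℕ) : D.d i (r * (k : A)) = D.d i r * (k : A) := by
  rw [Derivation.leibniz]
  simp only [Derivation.map_natCast, smul_zero, zero_add, smul_eq_mul]
  ring

lemma d_mul_pow (i : Fin n) (r : A) (k : ℕ) :
    D.d i (r * (-1 : A) ^ k) = D.d i r * (-1 : A) ^ k := by
  have h1 : D.d i ((-1 : A) ^ k) = 0 := by
    rcases neg_one_pow_eq_or A k with h | h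
    · rw [h]; exact Derivation.map_one_eq_zero _
    · rw [h]; simp only [map_neg, Derivation.map_one_eq_zero, neg_zero]
  rw [Derivation.leibniz, h1]
  simp only [smul_zero, zero_add, smul_eq_mul]
  ring

lemma dA_dA (i j : Fin n) (v : EE n A) : dA D i (dA D j v) = dA D j (dA D i v) := by
  have h : dA D i ∘ₗ dA D j = dA D j ∘ₗ dA D i := by
    apply extC
    intro w r
    simp only [LinearMap.comp_apply, dA_single, D.comm i j]
  exact LinearMap.congr_fun h v

lemma dA_xcr (i : Fin n) (p : Bl n) (v : EE n A) : dA D i (xcr p v) = xcr p (dA D i v) := by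
  have h : dA D i ∘ₗ (xcr p).restrictScalars ℂ = (xcr p).restrictScalars ℂ ∘ₗ dA D i := by
    apply extC
    intro w r
    simp only [LinearMap.comp_apply, LinearMap.restrictScalars_apply, dA_single, xcr_single]
  exact LinearMap.congr_fun h v

lemma dA_ycr (i : Fin n) (p : Bl n) (v : EE n A) : dA D i (ycr p v) = ycr p (dA D i v) := by
  have h : dA D i ∘ₗ (ycr p).restrictScalars ℂ = (ycr p).restrictScalars ℂ ∘ₗ dA D i := by
    apply extC
    intro w r
    simp only [LinearMap.comp_apply, LinearMap.restrictScalars_apply, dA_single, ycr_single]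
  exact LinearMap.congr_fun h v

lemma dA_xan (i : Fin n) (p : Bl n) (v : EE n A) : dA D i (xan p v) = xan p (dA D i v) := by
  have h : dA D i ∘ₗ (xan p).restrictScalars ℂ = (xan p).restrictScalars ℂ ∘ₗ dA D i := by
    apply extC
    intro w r
    simp only [LinearMap.comp_apply, LinearMap.restrictScalars_apply, dA_single, xan_single,
      d_mul_nat]
  exact LinearMap.congr_fun h v

lemma dA_yan (i : Fin n) (p : Bl n) (v : EE n A) : dA D i (yan p v) = yan p (dA D i v) := by
  have h : dA D i ∘ₗ (yan p).restrictScalars ℂ = (yan p).restrictScalars ℂ ∘ₗ dA D i := by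
    apply extC
    intro w r
    simp only [LinearMap.comp_apply, LinearMap.restrictScalars_apply, dA_single, yan_single,
      d_mul_nat]
  exact LinearMap.congr_fun h v

lemma dA_fcr (i : Fin n) (t : Fl n) (v : EE n A) : dA D i (fcr t v) = fcr t (dA D i v) := by
  have h : dA D i ∘ₗ (fcr t).restrictScalars ℂ = (fcr t).restrictScalars ℂ ∘ₗ dA D i := by
    apply extC
    intro w r
    simp only [LinearMap.comp_apply, LinearMap.restrictScalars_apply, dA_single, fcr_single]
    split_ifs
    · simp only [map_zero]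
    · rw [dA_single]
      unfold fsg
      rw [d_mul_pow]
  exact LinearMap.congr_fun h v

lemma dA_fan (i : Fin n) (t : Fl n) (v : EE n A) : dA D i (fan t v) = fan t (dA D i v) := by
  have h : dA D i ∘ₗ (fan t).restrictScalars ℂ = (fan t).restrictScalars ℂ ∘ₗ dA D i := by
    apply extC
    intro w r
    simp only [LinearMap.comp_apply, LinearMap.restrictScalars_apply, dA_single, fan_single]
    split_ifs
    · rw [dA_single]
      unfold fsg
      rw [d_mul_pow]
    · simp only [map_zero]
  exact LinearMap.congr_fun h v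

lemma sgE_dA (i : Fin n) (v : EE n A) : sgE n A (dA D i v) = dA D i (sgE n A v) := by
  have h : (sgE n A).restrictScalars ℂ ∘ₗ dA D i = dA D i ∘ₗ (sgE n A).restrictScalars ℂ := by
    apply extC
    intro w r
    simp only [LinearMap.comp_apply, LinearMap.restrictScalars_apply, dA_single, sgE_single,
      d_mul_pow]
  exact LinearMap.congr_fun h v

/-! ### the modes by sign of the index -/

lemma xMo_neg (i : Fin n) (m : ℤ) (hm : m < 0) (v : EE n A) :
    xMo n A i m v = xcr (i, (-m - 1).toNat) v := by
  simp only [xMo, hm, if_true, LinearMap.restrictScalars_apply]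

lemma xMo_zero (i : Fin n) (v : EE n A) : xMo n A i 0 v = 0 := by
  simp only [xMo, lt_irrefl, if_false, if_true, LinearMap.zero_apply]

lemma xMo_pos (i : Fin n) (m : ℤ) (hm : 0 < m) (v : EE n A) :
    xMo n A i m v = (m : ℂ) • yan (i, (m - 1).toNat) v := by
  have h1 : ¬ m < 0 := by omega
  have h2 : m ≠ 0 := by omega
  simp only [xMo, h1, h2, if_false, LinearMap.smul_apply, LinearMap.restrictScalars_apply]

lemma βMo_neg (i : Fin n) (m : ℤ) (hm : m < 0) (v : EE n A) :
    βMo D i m v = ycr (i, (-m - 1).toNat) v := by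
  simp only [βMo, hm, if_true, LinearMap.restrictScalars_apply]

lemma βMo_zero (i : Fin n) (v : EE n A) : βMo D i 0 v = dA D i v := by
  simp only [βMo, lt_irrefl, if_false, if_true]

lemma βMo_pos (i : Fin n) (m : ℤ) (hm : 0 < m) (v : EE n A) :
    βMo D i m v = (m : ℂ) • xan (i, (m - 1).toNat) v := by
  have h1 : ¬ m < 0 := by omega
  have h2 : m ≠ 0 := by omega
  simp only [βMo, h1, h2, if_false, LinearMap.smul_apply, LinearMap.restrictScalars_apply]

lemma fMo_neg (t : Bool) (i : Fin n) (m : ℤ) (hm : m < 0) (v : EE n A) :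
    fMo n A t i m v = fcr (fl t i (-m - 1).toNat) v := by
  simp only [fMo, hm, if_true, LinearMap.restrictScalars_apply]

lemma fMo_nonneg (t : Bool) (i : Fin n) (m : ℤ) (hm : 0 ≤ m) (v : EE n A) :
    fMo n A t i m v = fan (fl (!t) i m.toNat) v := by
  have h1 : ¬ m < 0 := by omega
  simp only [fMo, h1, if_false, LinearMap.restrictScalars_apply]

lemma csmul (f : EE n A →ₗ[A] EE n A) (c : ℂ) (v : EE n A) : f (c • v) = c • f v :=
  map_smul (f.restrictScalars ℂ) c v

lemma fl_eq_iff (t t' : Bool) (i j : Fin n) (k l : ℕ) :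
    fl t i k = fl t' j l ↔ t = t' ∧ i = j ∧ k = l := by
  constructor
  · intro h
    have h1 := congrArg ofLex h
    have h2 : t = t' := congrArg Prod.fst h1
    have h3 : toLex (i, k) = toLex (j, l) := congrArg Prod.snd h1
    have h4 := congrArg ofLex h3
    exact ⟨h2, congrArg Prod.fst h4, congrArg Prod.snd h4⟩
  · rintro ⟨rfl, rfl, rfl⟩
    rfl

end DAmap

end K1

section K1
variable {n : ℕ} {A : Type*} [CommRing A] [Algebra ℂ A] (D : DS n A)

theorem xMo_xMo (i j : Fin n) (m k : ℤ) (v : EE n A) :
    xMo n A i m (xMo n A j k v) = xMo n A j k (xMo n A i m v) := by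
  rcases lt_trichotomy m 0 with hm | hm | hm
  · rcases lt_trichotomy k 0 with hk | hk | hk
    · simp only [K1.xMo_neg _ _ hm, K1.xMo_neg _ _ hk, K1.xcr_xcr]
    · subst hk; simp only [K1.xMo_zero, map_zero]
    · simp only [K1.xMo_neg _ _ hm, K1.xMo_pos _ _ hk, K1.csmul, K1.xcr_yan]
  · subst hm; simp only [K1.xMo_zero, map_zero]
  · rcases lt_trichotomy k 0 with hk | hk | hk
    · simp only [K1.xMo_neg _ _ hk, K1.xMo_pos _ _ hm, K1.csmul, K1.xcr_yan]
    · subst hk; simp only [K1.xMo_zero, map_zero]
    · simp only [K1.xMo_pos _ _ hk, K1.xMo_pos _ _ hm, K1.csmul]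
      rw [K1.yan_yan, smul_comm]

theorem βMo_βMo (i j : Fin n) (m k : ℤ) (v : EE n A) :
    βMo D i m (βMo D j k v) = βMo D j k (βMo D i m v) := by
  rcases lt_trichotomy m 0 with hm | hm | hm
  · rcases lt_trichotomy k 0 with hk | hk | hk
    · simp only [K1.βMo_neg _ _ _ hm, K1.βMo_neg _ _ _ hk]
      rw [K1.ycr_ycr]
    · subst hk; simp only [K1.βMo_neg _ _ _ hm, K1.βMo_zero, K1.dA_ycr]
    · simp only [K1.βMo_neg _ _ _ hm, K1.βMo_pos _ _ _ hk, K1.csmul, K1.ycr_xan]
  · subst hm
    rcases lt_trichotomy k 0 with hk | hk | hk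
    · simp only [K1.βMo_neg _ _ _ hk, K1.βMo_zero, K1.dA_ycr]
    · subst hk; simp only [K1.βMo_zero]; rw [K1.dA_dA]
    · simp only [K1.βMo_pos _ _ _ hk, K1.βMo_zero, map_smul, K1.dA_xan]
  · rcases lt_trichotomy k 0 with hk | hk | hk
    · simp only [K1.βMo_neg _ _ _ hk, K1.βMo_pos _ _ _ hm, K1.csmul, K1.ycr_xan]
    · subst hk; simp only [K1.βMo_pos _ _ _ hm, K1.βMo_zero, map_smul, K1.dA_xan]
    · simp only [K1.βMo_pos _ _ _ hk, K1.βMo_pos _ _ _ hm, K1.csmul]
      rw [K1.xan_xan, smul_comm]

theorem βMo_xMo (i j : Fin n) (m k : ℤ) (v : EE n A) :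
    βMo D i m (xMo n A j k v) - xMo n A j k (βMo D i m v)
      = if m + k = 0 ∧ i = j then (m : ℂ) • v else 0 := by
  rcases lt_trichotomy m 0 with hm | hm | hm
  · rcases lt_trichotomy k 0 with hk | hk | hk
    · simp only [K1.βMo_neg _ _ _ hm, K1.xMo_neg _ _ hk, K1.xcr_ycr]
      rw [if_neg (by omega), sub_self]
    · subst hk
      simp only [K1.xMo_zero, map_zero, sub_self]
      rw [if_neg (by omega)]
    · simp only [K1.βMo_neg _ _ _ hm, K1.xMo_pos _ _ hk, K1.csmul]
      rw [K1.yan_ycr, smul_add, sub_add_cancel_left]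
      by_cases h : m + k = 0 ∧ i = j
      · obtain ⟨h1, h2⟩ := h
        subst h2
        have h3 : k = -m := by omega
        subst h3
        rw [if_pos (by rfl), if_pos ⟨h1, rfl⟩]
        push_cast
        rw [neg_smul, neg_neg]
      · rw [if_neg h, if_neg, smul_zero, neg_zero]
        intro hpq
        rw [Prod.mk.injEq] at hpq
        exact h ⟨by omega, hpq.1.symm⟩
  · subst hm
    have hr : (if 0 + k = 0 ∧ i = j then ((0 : ℤ) : ℂ) • v else 0) = 0 := by
      split_ifs <;> simp only [Int.cast_zero, zero_smul]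
    rw [hr]
    rcases lt_trichotomy k 0 with hk | hk | hk
    · simp only [K1.βMo_zero, K1.xMo_neg _ _ hk, K1.dA_xcr, sub_self]
    · subst hk
      simp only [K1.xMo_zero, map_zero, sub_self]
    · simp only [K1.βMo_zero, K1.xMo_pos _ _ hk, map_smul, K1.dA_yan, sub_self]
  · rcases lt_trichotomy k 0 with hk | hk | hk
    · simp only [K1.βMo_pos _ _ _ hm, K1.xMo_neg _ _ hk, K1.csmul]
      rw [K1.xan_xcr, smul_add, add_sub_cancel_left]
      by_cases h : m + k = 0 ∧ i = j
      · obtain ⟨h1, h2⟩ := h
        subst h2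
        have h3 : k = -m := by omega
        subst h3
        rw [if_pos (by rw [neg_neg]), if_pos ⟨h1, rfl⟩]
      · rw [if_neg h, if_neg, smul_zero]
        intro hpq
        rw [Prod.mk.injEq] at hpq
        exact h ⟨by omega, hpq.1⟩
    · subst hk
      simp only [K1.xMo_zero, map_zero, sub_self]
      rw [if_neg (by omega)]
    · simp only [K1.βMo_pos _ _ _ hm, K1.xMo_pos _ _ hk, K1.csmul]
      rw [if_neg (by omega), K1.yan_xan, smul_comm, sub_self]

theorem fMo_fMo (t t' : Bool) (i j : Fin n) (m k : ℤ) (v : EE n A) :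
    fMo n A t i m (fMo n A t' j k v) + fMo n A t' j k (fMo n A t i m v)
      = if t ≠ t' ∧ i = j ∧ m + k = -1 then v else 0 := by
  rcases lt_or_ge m 0 with hm | hm
  · rcases lt_or_ge k 0 with hk | hk
    · simp only [K1.fMo_neg _ _ _ hm, K1.fMo_neg _ _ _ hk]
      rw [K1.fcr_fcr, if_neg (by omega)]
    · simp only [K1.fMo_neg _ _ _ hm, K1.fMo_nonneg _ _ _ hk]
      rw [add_comm, K1.fan_fcr]
      refine if_congr ?_ rfl rfl
      rw [K1.fl_eq_iff]
      constructor
      · rintro ⟨h1, h2, h3⟩
        refine ⟨?_, h2.symm, by omega⟩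
        rw [← h1]
        cases t' <;> simp
      · rintro ⟨h1, h2, h3⟩
        refine ⟨?_, h2.symm, by omega⟩
        cases t <;> cases t' <;> simp_all
  · rcases lt_or_ge k 0 with hk | hk
    · simp only [K1.fMo_neg _ _ _ hk, K1.fMo_nonneg _ _ _ hm]
      rw [K1.fan_fcr]
      refine if_congr ?_ rfl rfl
      rw [K1.fl_eq_iff]
      constructor
      · rintro ⟨h1, h2, h3⟩
        refine ⟨?_, h2, by omega⟩
        rw [← h1]
        cases t <;> simp
      · rintro ⟨h1, h2, h3⟩
        refine ⟨?_, h2, by omega⟩
        cases t <;> cases t' <;> simp_all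
    · simp only [K1.fMo_nonneg _ _ _ hk, K1.fMo_nonneg _ _ _ hm]
      rw [K1.fan_fan, if_neg (by omega)]

theorem xMo_fMo (t : Bool) (i j : Fin n) (m k : ℤ) (v : EE n A) :
    xMo n A i m (fMo n A t j k v) = fMo n A t j k (xMo n A i m v) := by
  rcases lt_trichotomy m 0 with hm | hm | hm
  · rcases lt_or_ge k 0 with hk | hk
    · simp only [K1.xMo_neg _ _ hm, K1.fMo_neg _ _ _ hk, K1.xcr_fcr]
    · simp only [K1.xMo_neg _ _ hm, K1.fMo_nonneg _ _ _ hk, K1.xcr_fan]
  · subst hm; simp only [K1.xMo_zero, map_zero]
  · rcases lt_or_ge k 0 with hk | hk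
    · simp only [K1.xMo_pos _ _ hm, K1.fMo_neg _ _ _ hk, K1.csmul, K1.yan_fcr]
    · simp only [K1.xMo_pos _ _ hm, K1.fMo_nonneg _ _ _ hk, K1.csmul, K1.yan_fan]

theorem βMo_fMo (t : Bool) (i j : Fin n) (m k : ℤ) (v : EE n A) :
    βMo D i m (fMo n A t j k v) = fMo n A t j k (βMo D i m v) := by
  rcases lt_trichotomy m 0 with hm | hm | hm
  · rcases lt_or_ge k 0 with hk | hk
    · simp only [K1.βMo_neg _ _ _ hm, K1.fMo_neg _ _ _ hk, K1.ycr_fcr]
    · simp only [K1.βMo_neg _ _ _ hm, K1.fMo_nonneg _ _ _ hk, K1.ycr_fan]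
  · subst hm
    rcases lt_or_ge k 0 with hk | hk
    · simp only [K1.βMo_zero, K1.fMo_neg _ _ _ hk, K1.dA_fcr]
    · simp only [K1.βMo_zero, K1.fMo_nonneg _ _ _ hk, K1.dA_fan]
  · rcases lt_or_ge k 0 with hk | hk
    · simp only [K1.βMo_pos _ _ _ hm, K1.fMo_neg _ _ _ hk, K1.csmul, K1.xan_fcr]
    · simp only [K1.βMo_pos _ _ _ hm, K1.fMo_nonneg _ _ _ hk, K1.csmul, K1.xan_fan]

theorem sgE_sgE (v : EE n A) : sgE n A (sgE n A v) = v := by
  have h : (sgE n A) ∘ₗ sgE n A = LinearMap.id := by
    apply K1.ext_single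
    intro w r
    simp only [LinearMap.comp_apply, LinearMap.id_apply, K1.sgE_single]
    congr 1
    rw [mul_assoc, ← pow_add, ← two_mul, pow_mul]
    simp
  exact LinearMap.congr_fun h v

theorem sgE_vac : sgE n A (vacE n A) = vacE n A := by
  simp only [vacE, K1.sgE_single, Finset.card_empty, pow_zero, mul_one]

theorem sgE_xMo (i : Fin n) (m : ℤ) (v : EE n A) :
    sgE n A (xMo n A i m v) = xMo n A i m (sgE n A v) := by
  rcases lt_trichotomy m 0 with hm | hm | hm
  · simp only [K1.xMo_neg _ _ hm, K1.sgE_xcr]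
  · subst hm; simp only [K1.xMo_zero, map_zero]
  · simp only [K1.xMo_pos _ _ hm, K1.csmul, K1.sgE_yan]

theorem sgE_βMo (i : Fin n) (m : ℤ) (v : EE n A) :
    sgE n A (βMo D i m v) = βMo D i m (sgE n A v) := by
  rcases lt_trichotomy m 0 with hm | hm | hm
  · simp only [K1.βMo_neg _ _ _ hm, K1.sgE_ycr]
  · subst hm; simp only [K1.βMo_zero, K1.sgE_dA]
  · simp only [K1.βMo_pos _ _ _ hm, K1.csmul, K1.sgE_xan]

theorem sgE_fMo (t : Bool) (i : Fin n) (m : ℤ) (v : EE n A) :
    sgE n A (fMo n A t i m v) = -fMo n A t i m (sgE n A v) := by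
  rcases lt_or_ge m 0 with hm | hm
  · simp only [K1.fMo_neg _ _ _ hm, K1.sgE_fcr]
  · simp only [K1.fMo_nonneg _ _ _ hm, K1.sgE_fan]

theorem xMo_vac (i : Fin n) (m : ℕ) : xMo n A i m (vacE n A) = 0 := by
  rcases Nat.eq_zero_or_pos m with hm | hm
  · subst hm; exact K1.xMo_zero i _
  · rw [K1.xMo_pos _ _ (by exact_mod_cast hm)]
    simp only [vacE, yan_single, Multiset.count_zero, Nat.cast_zero, mul_zero,
      Finsupp.single_zero, smul_zero]

theorem βMo_vac (i : Fin n) (m : ℕ) : βMo D i m (vacE n A) = 0 := by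
  rcases Nat.eq_zero_or_pos m with hm | hm
  · subst hm
    rw [Nat.cast_zero, K1.βMo_zero]
    simp only [vacE, K1.dA_single, Derivation.map_one_eq_zero, Finsupp.single_zero]
  · rw [K1.βMo_pos _ _ _ (by exact_mod_cast hm)]
    simp only [vacE, xan_single, Multiset.count_zero, Nat.cast_zero, mul_zero,
      Finsupp.single_zero, smul_zero]

theorem fMo_vac (t : Bool) (i : Fin n) (m : ℕ) : fMo n A t i m (vacE n A) = 0 := by
  rw [K1.fMo_nonneg _ _ _ (by exact_mod_cast Nat.zero_le m)]
  simp only [vacE, fan_single, Finset.notMem_empty, if_false]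

end K1

end Pool.Agent.AA3
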