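import Pool.Agent.Lib.MP_aa3aaf_al.FockFld

/-!
Relations of the function fields `f(γ(z))` on the Fock space.
-/

set_option autoImplicit false
open scoped BigOperators
noncomputable section
namespace Pool.Agent.AA3

namespace K2

section Basic
variable {n : ℕ} {A : Type*} [CommRing A]

/-- Induction on the letters of `β`. -/
theorem y_ind {P : EE n A → Prop} (hz : P 0) (hadd : ∀ u v, P u → P v → P (u + v))
    (h0 : ∀ X S r, P (Finsupp.single ((X, 0, S) : Mon n) r)) (hy : ∀ a v, P v → P (ycr a v)) :
    ∀ v, P v := by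
  intro v
  induction v using Finsupp.induction_linear with
  | zero => exact hz
  | add f g hf hg => exact hadd f g hf hg
  | single w r =>
    obtain ⟨X, Y, S⟩ := w
    induction Y using Multiset.induction_on with
    | empty => exact h0 X S r
    | cons a Y ih =>
      have := hy a _ ih
      rwa [ycr_single] at this

lemma xcr_xcr (p q : Bl n) (v : EE n A) : xcr p (xcr q v) = xcr q (xcr p v) := by
  have : (xcr p ∘ₗ xcr q : EE n A →ₗ[A] EE n A) = xcr q ∘ₗ xcr p := by
    refine Finsupp.lhom_ext fun w r => ?_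
    simp only [LinearMap.comp_apply, xcr_single]
    rw [Multiset.cons_swap]
  exact LinearMap.congr_fun this v

lemma ycr_ycr (p q : Bl n) (v : EE n A) : ycr p (ycr q v) = ycr q (ycr p v) := by
  have : (ycr p ∘ₗ ycr q : EE n A →ₗ[A] EE n A) = ycr q ∘ₗ ycr p := by
    refine Finsupp.lhom_ext fun w r => ?_
    simp only [LinearMap.comp_apply, ycr_single]
    rw [Multiset.cons_swap]
  exact LinearMap.congr_fun this v

lemma ycr_xcr (p q : Bl n) (v : EE n A) : ycr p (xcr q v) = xcr q (ycr p v) := by
  have : (ycr p ∘ₗ xcr q : EE n A →ₗ[A] EE n A) = xcr q ∘ₗ ycr p := by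
    refine Finsupp.lhom_ext fun w r => ?_
    simp only [LinearMap.comp_apply, ycr_single, xcr_single]
  exact LinearMap.congr_fun this v

lemma yan_xcr (p q : Bl n) (v : EE n A) : yan p (xcr q v) = xcr q (yan p v) := by
  have : (yan p ∘ₗ xcr q : EE n A →ₗ[A] EE n A) = xcr q ∘ₗ yan p := by
    refine Finsupp.lhom_ext fun w r => ?_
    simp only [LinearMap.comp_apply, yan_single, xcr_single]
  exact LinearMap.congr_fun this v

lemma xan_ycr (p q : Bl n) (v : EE n A) : xan p (ycr q v) = ycr q (xan p v) := by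
  have : (xan p ∘ₗ ycr q : EE n A →ₗ[A] EE n A) = ycr q ∘ₗ xan p := by
    refine Finsupp.lhom_ext fun w r => ?_
    simp only [LinearMap.comp_apply, xan_single, ycr_single]
  exact LinearMap.congr_fun this v

lemma fcr_xcr (t : Fl n) (q : Bl n) (v : EE n A) : fcr t (xcr q v) = xcr q (fcr t v) := by
  have : (fcr t ∘ₗ xcr q : EE n A →ₗ[A] EE n A) = xcr q ∘ₗ fcr t := by
    refine Finsupp.lhom_ext fun w r => ?_
    simp only [LinearMap.comp_apply, fcr_single, xcr_single]
    split_ifs
    · simp
    · simp only [xcr_single]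
  exact LinearMap.congr_fun this v

lemma fcr_ycr (t : Fl n) (q : Bl n) (v : EE n A) : fcr t (ycr q v) = ycr q (fcr t v) := by
  have : (fcr t ∘ₗ ycr q : EE n A →ₗ[A] EE n A) = ycr q ∘ₗ fcr t := by
    refine Finsupp.lhom_ext fun w r => ?_
    simp only [LinearMap.comp_apply, fcr_single, ycr_single]
    split_ifs
    · simp
    · simp only [ycr_single]
  exact LinearMap.congr_fun this v

lemma fan_xcr (t : Fl n) (q : Bl n) (v : EE n A) : fan t (xcr q v) = xcr q (fan t v) := by
  have : (fan t ∘ₗ xcr q : EE n A →ₗ[A] EE n A) = xcr q ∘ₗ fan t := by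
    refine Finsupp.lhom_ext fun w r => ?_
    simp only [LinearMap.comp_apply, fan_single, xcr_single]
    split_ifs
    · simp only [xcr_single]
    · simp
  exact LinearMap.congr_fun this v

lemma fan_ycr (t : Fl n) (q : Bl n) (v : EE n A) : fan t (ycr q v) = ycr q (fan t v) := by
  have : (fan t ∘ₗ ycr q : EE n A →ₗ[A] EE n A) = ycr q ∘ₗ fan t := by
    refine Finsupp.lhom_ext fun w r => ?_
    simp only [LinearMap.comp_apply, fan_single, ycr_single]
    split_ifs
    · simp only [ycr_single]
    · simp
  exact LinearMap.congr_fun this v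

lemma count_erase_mul (p q : Bl n) (X : Multiset (Bl n)) :
    ((q ::ₘ X).count p : ℕ) = X.count p + if p = q then 1 else 0 := by
  rw [Multiset.count_cons]

/-- `∂/∂y_p` and multiplication by `y_q` -/
lemma yan_ycr (p q : Bl n) (v : EE n A) :
    yan p (ycr q v) = ycr q (yan p v) + if p = q then v else 0 := by
  have : (yan p ∘ₗ ycr q : EE n A →ₗ[A] EE n A)
      = ycr q ∘ₗ yan p + if p = q then LinearMap.id else 0 := by
    refine Finsupp.lhom_ext fun w r => ?_
    obtain ⟨X, Y, S⟩ := w
    simp only [LinearMap.comp_apply, LinearMap.add_apply, yan_single, ycr_single]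
    by_cases h : p = q
    · subst h
      simp only [Multiset.erase_cons_head, Multiset.count_cons_self, if_true, LinearMap.id_apply]
      by_cases hY : p ∈ Y
      · rw [Multiset.cons_erase hY, ← Finsupp.single_add]
        congr 1
        push_cast
        ring
      · rw [Multiset.count_eq_zero_of_notMem hY]
        simp
    · rw [Multiset.erase_cons_tail _ (Ne.symm h), Multiset.count_cons_of_ne h]
      simp [h]
  have h2 := LinearMap.congr_fun this v
  simp only [LinearMap.comp_apply, LinearMap.add_apply] at h2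
  rw [h2]
  split_ifs <;> simp

lemma xan_xcr (p q : Bl n) (v : EE n A) :
    xan p (xcr q v) = xcr q (xan p v) + if p = q then v else 0 := by
  have : (xan p ∘ₗ xcr q : EE n A →ₗ[A] EE n A)
      = xcr q ∘ₗ xan p + if p = q then LinearMap.id else 0 := by
    refine Finsupp.lhom_ext fun w r => ?_
    obtain ⟨X, Y, S⟩ := w
    simp only [LinearMap.comp_apply, LinearMap.add_apply, xan_single, xcr_single]
    by_cases h : p = q
    · subst h
      simp only [Multiset.erase_cons_head, Multiset.count_cons_self, if_true, LinearMap.id_apply]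
      by_cases hX : p ∈ X
      · rw [Multiset.cons_erase hX, ← Finsupp.single_add]
        congr 1
        push_cast
        ring
      · rw [Multiset.count_eq_zero_of_notMem hX]
        simp
    · rw [Multiset.erase_cons_tail _ (Ne.symm h), Multiset.count_cons_of_ne h]
      simp [h]
  have h2 := LinearMap.congr_fun this v
  simp only [LinearMap.comp_apply, LinearMap.add_apply] at h2
  rw [h2]
  split_ifs <;> simp

end Basic

section SopSec
variable {n : ℕ} {A : Type*} [CommRing A] [Algebra ℂ A] (D : DS n A)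

lemma Sop_zero (g : A) (v : EE n A) : Sop D 0 g v = g • v := by
  rw [Sop]; rfl

lemma Sop_succ (r : ℕ) (g : A) (v : EE n A) :
    Sop D (r + 1) g v = algebraMap ℂ A (1 / ((r : ℂ) + 1)) •
      ∑ i : Fin n, ∑ k : Fin (r + 1), xcr (i, (k : ℕ)) (Sop D (r - k) (D.d i g) v) := by
  rw [Sop]
  simp only [LinearMap.smul_apply, LinearMap.sum_apply, LinearMap.comp_apply]

/-- an `A`-linear operator commuting with the letters of `x` commutes with `Sop` -/
lemma comm_Sop (P : EE n A →ₗ[A] EE n A) (hP : ∀ p v, P (xcr p v) = xcr p (P v)) (r : ℕ) :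
    ∀ (g : A) (v : EE n A), P (Sop D r g v) = Sop D r g (P v) := by
  induction r using Nat.strong_induction_on with
  | _ r ih =>
    intro g v
    cases r with
    | zero => simp only [Sop_zero, map_smul]
    | succ r =>
      rw [Sop_succ, Sop_succ, map_smul, map_sum]
      congr 1
      refine Finset.sum_congr rfl fun i _ => ?_
      rw [map_sum]
      refine Finset.sum_congr rfl fun k _ => ?_
      rw [hP, ih (r - k) (by omega)]

lemma Sop_xcr (r : ℕ) (g : A) (p : Bl n) (v : EE n A) :
    Sop D r g (xcr p v) = xcr p (Sop D r g v) :=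
  (comm_Sop D (xcr p) (fun q v => xcr_xcr p q v) r g v).symm

lemma Sop_Sop (r s : ℕ) (f g : A) (v : EE n A) :
    Sop D r f (Sop D s g v) = Sop D s g (Sop D r f v) :=
  comm_Sop D (Sop D r f) (fun q v => Sop_xcr D r f q v) s g v

lemma Sop_add (r : ℕ) : ∀ (f g : A) (v : EE n A),
    Sop D r (f + g) v = Sop D r f v + Sop D r g v := by
  induction r using Nat.strong_induction_on with
  | _ r ih =>
    intro f g v
    cases r with
    | zero => simp only [Sop_zero, add_smul]
    | succ r =>
      rw [Sop_succ, Sop_succ, Sop_succ, ← smul_add, ← Finset.sum_add_distrib]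
      congr 1
      refine Finset.sum_congr rfl fun i _ => ?_
      rw [← Finset.sum_add_distrib]
      refine Finset.sum_congr rfl fun k _ => ?_
      rw [map_add, ih (r - k) (by omega), map_add]

lemma Sop_smulA (r : ℕ) : ∀ (c : ℂ) (g : A) (v : EE n A),
    Sop D r (c • g) v = algebraMap ℂ A c • Sop D r g v := by
  induction r using Nat.strong_induction_on with
  | _ r ih =>
    intro c g v
    cases r with
    | zero => simp only [Sop_zero, Algebra.smul_def, mul_smul]
    | succ r =>
      rw [Sop_succ, Sop_succ, smul_smul, mul_comm, ← smul_smul]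
      congr 1
      rw [Finset.smul_sum]
      refine Finset.sum_congr rfl fun i _ => ?_
      rw [Finset.smul_sum]
      refine Finset.sum_congr rfl fun k _ => ?_
      rw [Derivation.map_smul, ih (r - k) (by omega), LinearMap.map_smul]

lemma Sop_const (r : ℕ) (f : A) (hf : ∀ i, D.d i f = 0) (v : EE n A) :
    Sop D (r + 1) f v = 0 := by
  rw [Sop_succ]
  have h0 : ∀ s, Sop D s (0 : A) v = 0 := fun s => by
    have := Sop_smulA D s 0 0 v
    simpa using this
  simp only [hf, h0, map_zero, Finset.sum_const_zero, smul_zero]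

lemma dA_single (i : Fin n) (w : Mon n) (r : A) :
    dA D i (Finsupp.single w r) = Finsupp.single w (D.d i r) := by
  simp only [dA, Finsupp.mapRange.linearMap_apply, Finsupp.mapRange_single]
  rfl

lemma dA_smul (i : Fin n) (g : A) (v : EE n A) :
    dA D i (g • v) = D.d i g • v + g • dA D i v := by
  induction v using Finsupp.induction_linear with
  | zero => simp
  | add u v hu hv =>
    rw [smul_add, map_add, hu, hv, map_add, smul_add, smul_add]
    abel
  | single w r =>
    simp only [Finsupp.smul_single, dA_single, smul_eq_mul, Derivation.leibniz,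
      ← Finsupp.single_add]
    congr 1
    ring

lemma dA_algebraMap_smul (i : Fin n) (c : ℂ) (v : EE n A) :
    dA D i (algebraMap ℂ A c • v) = algebraMap ℂ A c • dA D i v := by
  rw [dA_smul, Derivation.map_algebraMap, zero_smul, zero_add]

lemma dA_xcr (i : Fin n) (p : Bl n) (v : EE n A) : dA D i (xcr p v) = xcr p (dA D i v) := by
  induction v using Finsupp.induction_linear with
  | zero => simp
  | add u v hu hv => simp only [map_add, hu, hv]
  | single w r => simp only [xcr_single, dA_single]

lemma dA_ycr (i : Fin n) (p : Bl n) (v : EE n A) : dA D i (ycr p v) = ycr p (dA D i v) := by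
  induction v using Finsupp.induction_linear with
  | zero => simp
  | add u v hu hv => simp only [map_add, hu, hv]
  | single w r => simp only [ycr_single, dA_single]

lemma dA_Sop (i : Fin n) (r : ℕ) : ∀ (g : A) (v : EE n A),
    dA D i (Sop D r g v) = Sop D r g (dA D i v) + Sop D r (D.d i g) v := by
  induction r using Nat.strong_induction_on with
  | _ r ih =>
    intro g v
    cases r with
    | zero =>
      simp only [Sop_zero, dA_smul]
      abel
    | succ r =>
      rw [Sop_succ, Sop_succ, Sop_succ, dA_algebraMap_smul, map_sum, ← smul_add,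
        ← Finset.sum_add_distrib]
      congr 1
      refine Finset.sum_congr rfl fun j _ => ?_
      rw [map_sum, ← Finset.sum_add_distrib]
      refine Finset.sum_congr rfl fun k _ => ?_
      rw [dA_xcr, ih (r - k) (by omega), map_add, D.comm i j g]

lemma SopZ_neg {r : ℤ} (h : r < 0) (g : A) (v : EE n A) : SopZ D r g v = 0 := by
  simp [SopZ, h]

lemma SopZ_nat (r : ℕ) (g : A) (v : EE n A) : SopZ D r g v = Sop D r g v := by
  have : ¬ ((r : ℤ) < 0) := by omega
  simp [SopZ, this]

lemma SopZ_cases (r : ℤ) : r < 0 ∨ ∃ s : ℕ, r = s := by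
  rcases lt_or_ge r 0 with h | h
  · exact Or.inl h
  · exact Or.inr ⟨r.toNat, by omega⟩

lemma comm_SopZ (P : EE n A →ₗ[A] EE n A) (hP : ∀ p v, P (xcr p v) = xcr p (P v)) (r : ℤ)
    (g : A) (v : EE n A) : P (SopZ D r g v) = SopZ D r g (P v) := by
  rcases SopZ_cases r with h | ⟨s, rfl⟩
  · simp only [SopZ_neg D h, map_zero]
  · simp only [SopZ_nat, comm_Sop D P hP]

lemma SopZ_SopZ (r s : ℤ) (f g : A) (v : EE n A) :
    SopZ D r f (SopZ D s g v) = SopZ D s g (SopZ D r f v) := by
  rcases SopZ_cases s with h | ⟨s, rfl⟩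
  · simp only [SopZ_neg D h, map_zero]
  · rcases SopZ_cases r with h | ⟨r, rfl⟩
    · simp only [SopZ_neg D h, map_zero]
    · simp only [SopZ_nat, Sop_Sop D r s]

lemma SopZ_add (r : ℤ) (f g : A) (v : EE n A) :
    SopZ D r (f + g) v = SopZ D r f v + SopZ D r g v := by
  rcases SopZ_cases r with h | ⟨s, rfl⟩
  · simp only [SopZ_neg D h, add_zero]
  · simp only [SopZ_nat, Sop_add]

lemma SopZ_smul (r : ℤ) (c : ℂ) (g : A) (v : EE n A) :
    SopZ D r (c • g) v = algebraMap ℂ A c • SopZ D r g v := by
  rcases SopZ_cases r with h | ⟨s, rfl⟩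
  · simp only [SopZ_neg D h, smul_zero]
  · simp only [SopZ_nat, Sop_smulA]

lemma dA_SopZ (i : Fin n) (r : ℤ) (g : A) (v : EE n A) :
    dA D i (SopZ D r g v) = SopZ D r g (dA D i v) + SopZ D r (D.d i g) v := by
  rcases SopZ_cases r with h | ⟨s, rfl⟩
  · simp only [SopZ_neg D h, map_zero, add_zero]
  · simp only [SopZ_nat, dA_Sop]

lemma xan_Sop (i : Fin n) (k : ℕ) (r : ℕ) : ∀ (g : A) (v : EE n A),
    xan (i, k) (Sop D r g v) = Sop D r g (xan (i, k) v)
      + algebraMap ℂ A (1 / ((k : ℂ) + 1)) • SopZ D ((r : ℤ) - k - 1) (D.d i g) v := by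
  induction r using Nat.strong_induction_on with
  | _ r ih =>
    intro g v
    cases r with
    | zero =>
      rw [SopZ_neg D (by omega)]
      simp only [Sop_zero, map_smul, smul_zero, add_zero]
    | succ r =>
      rw [Sop_succ, map_smul, map_sum, Sop_succ]
      have h1 : ∀ j : Fin n, xan (i, k) (∑ l : Fin (r + 1),
            xcr (j, (l : ℕ)) (Sop D (r - l) (D.d j g) v))
          = ∑ l : Fin (r + 1), xcr (j, (l : ℕ)) (Sop D (r - l) (D.d j g) (xan (i, k) v))
            + ∑ l : Fin (r + 1), algebraMap ℂ A (1 / ((k : ℂ) + 1)) •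
                xcr (j, (l : ℕ)) (SopZ D ((r : ℤ) - l - k - 1) (D.d j (D.d i g)) v)
            + ∑ l : Fin (r + 1), (if ((i, k) : Bl n) = (j, (l : ℕ)) then
                Sop D (r - l) (D.d j g) v else 0) := by
        intro j
        rw [map_sum, ← Finset.sum_add_distrib, ← Finset.sum_add_distrib]
        refine Finset.sum_congr rfl fun l _ => ?_
        rw [xan_xcr, ih (r - l) (by omega), map_add, map_smul, D.comm i j g]
        have : (((r - l : ℕ) : ℤ) - k - 1) = ((r : ℤ) - l - k - 1) := by omega
        rw [this]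
      have h2 : xan (i, k) (algebraMap ℂ A (1 / ((r : ℂ) + 1)) • (0 : EE n A)) = 0 := by simp
      simp only [h1, Finset.sum_add_distrib, smul_add]
      rw [add_assoc]
      congr 1
      -- the remaining identity
      have h3 : ∑ j : Fin n, ∑ l : Fin (r + 1), (if ((i, k) : Bl n) = (j, (l : ℕ)) then
            Sop D (r - l) (D.d j g) v else 0)
          = SopZ D ((r : ℤ) - k) (D.d i g) v := by
        rw [Finset.sum_eq_single i]
        · by_cases hk : k < r + 1
          · rw [Finset.sum_eq_single (⟨k, hk⟩ : Fin (r + 1))]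
            · simp only [if_true]
              have : ((r : ℤ) - k) = ((r - k : ℕ) : ℤ) := by omega
              rw [this, SopZ_nat]
            · intro b _ hb
              have : ¬ (((i, k) : Bl n) = (i, (b : ℕ))) := by
                intro hh
                apply hb
                have := congrArg Prod.snd hh
                simp only at this
                exact Fin.ext this.symm
              rw [if_neg this]
            · simp
          · rw [SopZ_neg D (by omega)]
            apply Finset.sum_eq_zero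
            intro b _
            have : ¬ (((i, k) : Bl n) = (i, (b : ℕ))) := by
              intro hh
              have := congrArg Prod.snd hh
              simp only at this
              omega
            rw [if_neg this]
        · intro b _ hb
          apply Finset.sum_eq_zero
          intro l _
          have : ¬ (((i, k) : Bl n) = (b, (l : ℕ))) := by
            intro hh
            apply hb
            exact (congrArg Prod.fst hh).symm
          rw [if_neg this]
        · simp
      rw [h3]
      have h4 : ∑ j : Fin n, ∑ l : Fin (r + 1), algebraMap ℂ A (1 / ((k : ℂ) + 1)) •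
                xcr (j, (l : ℕ)) (SopZ D ((r : ℤ) - l - k - 1) (D.d j (D.d i g)) v)
          = algebraMap ℂ A (((r : ℂ) - k) / ((k : ℂ) + 1)) • SopZ D ((r : ℤ) - k) (D.d i g) v := by
        simp only [← Finset.smul_sum]
        by_cases hk : k ≤ r
        · obtain ⟨s, rfl⟩ : ∃ s, r = k + s := ⟨r - k, by omega⟩
          have e1 : (((k + s : ℕ) : ℤ) - k) = (s : ℤ) := by omega
          rw [e1, SopZ_nat]
          cases s with
          | zero =>
            have : ∀ (j : Fin n) (l : Fin (k + 0 + 1)),
                xcr (j, (l : ℕ)) (SopZ D (((k + 0 : ℕ) : ℤ) - l - k - 1) (D.d j (D.d i g)) v)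
                  = 0 := fun j l => by
              rw [SopZ_neg D (by omega), map_zero]
            simp only [this, Finset.sum_const_zero, smul_zero]
            simp
          | succ s =>
            rw [Sop_succ, smul_smul]
            have e2 : algebraMap ℂ A ((((k + (s + 1) : ℕ) : ℂ) - k) / ((k : ℂ) + 1)) *
                algebraMap ℂ A (1 / ((s : ℂ) + 1)) = algebraMap ℂ A (1 / ((k : ℂ) + 1)) := by
              rw [← map_mul]
              congr 1
              have hs : (s : ℂ) + 1 ≠ 0 := by exact_mod_cast Nat.succ_ne_zero s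
              have hk' : (k : ℂ) + 1 ≠ 0 := by exact_mod_cast Nat.succ_ne_zero k
              push_cast
              field_simp
              ring
            rw [e2]
            congr 1
            refine Finset.sum_congr rfl fun j _ => ?_
            rw [Fin.sum_univ_eq_sum_range
              (fun l => xcr (j, l) (SopZ D (((k + (s + 1) : ℕ) : ℤ) - l - k - 1)
                (D.d j (D.d i g)) v)) (k + (s + 1) + 1)]
            rw [Fin.sum_univ_eq_sum_range (fun l => xcr (j, l) (Sop D (s - l)
                (D.d j (D.d i g)) v)) (s + 1)]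
            symm
            rw [← Finset.sum_subset (Finset.range_subset_range.mpr
              (show s + 1 ≤ k + (s + 1) + 1 by omega))]
            · refine Finset.sum_congr rfl fun l hl => ?_
              have hl' : l < s + 1 := Finset.mem_range.mp hl
              have : (((k + (s + 1) : ℕ) : ℤ) - l - k - 1) = ((s - l : ℕ) : ℤ) := by omega
              rw [this, SopZ_nat]
            · intro l _ hl
              have hl' : ¬ l < s + 1 := fun h => hl (Finset.mem_range.mpr h)
              rw [SopZ_neg D (by omega), map_zero]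
        · rw [SopZ_neg D (by omega), smul_zero]
          have : ∀ (j : Fin n) (l : Fin (r + 1)),
              xcr (j, (l : ℕ)) (SopZ D ((r : ℤ) - l - k - 1) (D.d j (D.d i g)) v)
                = 0 := fun j l => by
            rw [SopZ_neg D (by omega), map_zero]
          simp only [this, Finset.sum_const_zero, smul_zero]
      rw [h4]
      have e3 : (((r + 1 : ℕ) : ℤ) - k - 1) = ((r : ℤ) - k) := by omega
      rw [e3, smul_smul, ← map_mul, ← add_smul, ← map_add]
      congr 2
      have hr : (r : ℂ) + 1 ≠ 0 := by exact_mod_cast Nat.succ_ne_zero r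
      have hk' : (k : ℂ) + 1 ≠ 0 := by exact_mod_cast Nat.succ_ne_zero k
      field_simp
      ring

lemma xan_SopZ (i : Fin n) (k : ℕ) (r : ℤ) (g : A) (v : EE n A) :
    xan (i, k) (SopZ D r g v) = SopZ D r g (xan (i, k) v)
      + algebraMap ℂ A (1 / ((k : ℂ) + 1)) • SopZ D (r - k - 1) (D.d i g) v := by
  rcases SopZ_cases r with h | ⟨s, rfl⟩
  · have h2 : r - k - 1 < 0 := by omega
    simp only [SopZ_neg D h, SopZ_neg D h2, map_zero, smul_zero, add_zero]
  · rw [SopZ_nat, SopZ_nat, xan_Sop]

end SopSec

section FnSec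
variable {n : ℕ} {A : Type*} [CommRing A] [Algebra ℂ A] (D : DS n A)

lemma fnMo_eq (f : A) (m : ℤ) (v : EE n A) : fnMo D f m v = fnA D f m v := rfl

lemma fnA_single (f : A) (m : ℤ) (w : Mon n) (r : A) :
    fnA D f m (Finsupp.single w r) = r • ((w.2.1.antidiagonal).map fun p =>
      ((-1 : A) ^ (Multiset.card p.1)) •
        SopZ D ((mwt p.1 : ℤ) - m - 1) (dd D p.1 f) (Finsupp.single (w.1, p.2, w.2.2) 1)).sum := by
  rw [fnA, Finsupp.linearCombination_single]

/-- no letters of `β` -/
lemma fnA_no_y (f : A) (m : ℤ) (X : Multiset (Bl n)) (S : Finset (Fl n)) (r : A) :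
    fnA D f m (Finsupp.single ((X, 0, S) : Mon n) r)
      = SopZ D (-m - 1) f (Finsupp.single ((X, 0, S) : Mon n) r) := by
  rw [fnA_single]
  simp only [Multiset.antidiagonal_zero, Multiset.map_singleton, Multiset.sum_singleton,
    Multiset.card_zero, pow_zero, one_smul]
  have h1 : ((mwt (0 : Multiset (Bl n)) : ℕ) : ℤ) - m - 1 = -m - 1 := by
    simp [mwt]
  have h2 : dd D (0 : Multiset (Bl n)) f = f := rfl
  rw [h1, h2, ← map_smul, Finsupp.smul_single, smul_eq_mul, mul_one]

lemma dd_cons (a : Bl n) (t : Multiset (Bl n)) (f : A) :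
    dd D (a ::ₘ t) f = dd D t (D.d a.1 f) := by
  have h : ∀ g, dd D (a ::ₘ t) g = D.d a.1 (dd D t g) := fun g => by
    simp only [dd, Multiset.foldr_cons]
  rw [h]
  induction t using Multiset.induction_on with
  | empty => rfl
  | cons b t ih =>
    have hb : ∀ g, dd D (b ::ₘ t) g = D.d b.1 (dd D t g) := fun g => by
      simp only [dd, Multiset.foldr_cons]
    rw [hb, hb, D.comm, ih]
    intro g
    simp only [dd, Multiset.foldr_cons]

lemma mwt_cons (a : Bl n) (t : Multiset (Bl n)) : mwt (a ::ₘ t) = a.2 + 1 + mwt t := by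
  simp [mwt]

/-- the basic relation with the letters of `β` -/
lemma fnA_ycr (f : A) (m : ℤ) (a : Bl n) (v : EE n A) :
    fnA D f m (ycr a v) = ycr a (fnA D f m v) - fnA D (D.d a.1 f) (m - a.2 - 1) v := by
  induction v using Finsupp.induction_linear with
  | zero => simp
  | add u v hu hv =>
    simp only [map_add, hu, hv]
    abel
  | single w r =>
    obtain ⟨X, Y, S⟩ := w
    rw [ycr_single, fnA_single, fnA_single, fnA_single, map_smul, ← smul_sub]
    congr 1
    simp only [Multiset.antidiagonal_cons, Multiset.map_add, Multiset.sum_add,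
      Multiset.map_map, Function.comp_def, Prod.map_fst, Prod.map_snd, id_eq]
    rw [sub_eq_add_neg]
    congr 1
    · rw [map_multiset_sum, Multiset.map_map]
      congr 1
      refine Multiset.map_congr rfl fun p _ => ?_
      simp only [Function.comp_def]
      rw [map_smul, comm_SopZ D (ycr a) (fun q v => ycr_xcr a q v), ycr_single]
    · rw [← Multiset.sum_map_neg', Multiset.map_map]
      congr 1
      refine Multiset.map_congr rfl fun p _ => ?_
      simp only [Function.comp_def]
      rw [Multiset.card_cons, pow_succ, mwt_cons, dd_cons]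
      have : ((a.2 + 1 + mwt p.1 : ℕ) : ℤ) - m - 1 = (mwt p.1 : ℤ) - (m - a.2 - 1) - 1 := by
        push_cast
        ring
      rw [this, mul_neg, mul_one, neg_smul]

lemma fnA_add (f g : A) (m : ℤ) (v : EE n A) :
    fnA D (f + g) m v = fnA D f m v + fnA D g m v := by
  revert f g m
  refine y_ind (P := fun v => ∀ (f g : A) (m : ℤ),
    fnA D (f + g) m v = fnA D f m v + fnA D g m v) ?_ ?_ ?_ ?_ v
  · intro f g m; simp
  · intro u v hu hv f g m
    simp only [map_add, hu, hv]
    abel
  · intro X S r f g m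
    simp only [fnA_no_y, SopZ_add]
  · intro a v hv f g m
    simp only [fnA_ycr, map_add, hv]
    abel

lemma fnA_smulc (c : ℂ) (f : A) (m : ℤ) (v : EE n A) :
    fnA D (c • f) m v = algebraMap ℂ A c • fnA D f m v := by
  revert f m
  refine y_ind (P := fun v => ∀ (f : A) (m : ℤ),
    fnA D (c • f) m v = algebraMap ℂ A c • fnA D f m v) ?_ ?_ ?_ ?_ v
  · intro f m; simp
  · intro u v hu hv f m
    simp only [map_add, hu, hv, smul_add]
  · intro X S r f m
    simp only [fnA_no_y, SopZ_smul]
  · intro a v hv f m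
    simp only [fnA_ycr, Derivation.map_smul, hv, map_smul, smul_sub]

/-- an operator which commutes with the letters of `x` and `β` and preserves the monomials
without letters of `β` commutes with the function fields -/
lemma comm_fnA (P : EE n A →ₗ[A] EE n A) (hx : ∀ p v, P (xcr p v) = xcr p (P v))
    (hy : ∀ p v, P (ycr p v) = ycr p (P v))
    (h0 : ∀ X S (f : A) (m : ℤ), fnA D f m (P (Finsupp.single ((X, 0, S) : Mon n) 1))
      = SopZ D (-m - 1) f (P (Finsupp.single ((X, 0, S) : Mon n) 1)))
    (f : A) (m : ℤ) (v : EE n A) : P (fnA D f m v) = fnA D f m (P v) := by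
  revert f m
  refine y_ind (P := fun v => ∀ (f : A) (m : ℤ), P (fnA D f m v) = fnA D f m (P v)) ?_ ?_ ?_ ?_ v
  · intro f m; simp
  · intro u v hu hv f m
    simp only [map_add, hu, hv]
  · intro X S r f m
    have hr : Finsupp.single ((X, 0, S) : Mon n) r
        = r • Finsupp.single ((X, 0, S) : Mon n) (1 : A) := by
      rw [Finsupp.smul_single, smul_eq_mul, mul_one]
    rw [hr]
    simp only [map_smul]
    rw [h0, fnA_no_y, comm_SopZ D P hx]
  · intro a v hv f m
    simp only [fnA_ycr, map_sub, hv, hy]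

lemma xcr_fnA (p : Bl n) (f : A) (m : ℤ) (v : EE n A) :
    xcr p (fnA D f m v) = fnA D f m (xcr p v) := by
  refine comm_fnA D (xcr p) (fun q v => xcr_xcr p q v) (fun q v => (ycr_xcr q p v).symm) ?_ f m v
  intro X S f m
  rw [xcr_single, fnA_no_y]

lemma fcr_fnA (t : Fl n) (f : A) (m : ℤ) (v : EE n A) :
    fcr t (fnA D f m v) = fnA D f m (fcr t v) := by
  refine comm_fnA D (fcr t) (fun q v => fcr_xcr t q v) (fun q v => fcr_ycr t q v) ?_ f m v
  intro X S f m
  rw [fcr_single]
  split_ifs
  · simp
  · rw [fnA_no_y]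

lemma fan_fnA (t : Fl n) (f : A) (m : ℤ) (v : EE n A) :
    fan t (fnA D f m v) = fnA D f m (fan t v) := by
  refine comm_fnA D (fan t) (fun q v => fan_xcr t q v) (fun q v => fan_ycr t q v) ?_ f m v
  intro X S f m
  rw [fan_single]
  split_ifs
  · rw [fnA_no_y]
  · simp

omit [Algebra ℂ A] in
lemma sgE_single (w : Mon n) (r : A) :
    sgE n A (Finsupp.single w r) = Finsupp.single w (r * (-1) ^ w.2.2.card) := by
  simp only [sgE, Finsupp.linearCombination_single, Finsupp.smul_single, smul_eq_mul]

omit [Algebra ℂ A] in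
lemma sgE_xcr (p : Bl n) (v : EE n A) : sgE n A (xcr p v) = xcr p (sgE n A v) := by
  induction v using Finsupp.induction_linear with
  | zero => simp
  | add u v hu hv => simp only [map_add, hu, hv]
  | single w r => simp only [xcr_single, sgE_single]

omit [Algebra ℂ A] in
lemma sgE_ycr (p : Bl n) (v : EE n A) : sgE n A (ycr p v) = ycr p (sgE n A v) := by
  induction v using Finsupp.induction_linear with
  | zero => simp
  | add u v hu hv => simp only [map_add, hu, hv]
  | single w r => simp only [ycr_single, sgE_single]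

lemma sgE_fnA (f : A) (m : ℤ) (v : EE n A) :
    sgE n A (fnA D f m v) = fnA D f m (sgE n A v) := by
  refine comm_fnA D (sgE n A) (fun q v => sgE_xcr q v) (fun q v => sgE_ycr q v) ?_ f m v
  intro X S f m
  rw [sgE_single, fnA_no_y]

omit [Algebra ℂ A] in
lemma yan_no_y (p : Bl n) (X : Multiset (Bl n)) (S : Finset (Fl n)) (r : A) :
    yan p (Finsupp.single ((X, 0, S) : Mon n) r) = 0 := by
  rw [yan_single]
  simp

lemma yan_fnA (p : Bl n) (f : A) (m : ℤ) (v : EE n A) :
    yan p (fnA D f m v) = fnA D f m (yan p v) := by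
  revert f m
  refine y_ind (P := fun v => ∀ (f : A) (m : ℤ),
    yan p (fnA D f m v) = fnA D f m (yan p v)) ?_ ?_ ?_ ?_ v
  · intro f m; simp
  · intro u v hu hv f m
    simp only [map_add, hu, hv]
  · intro X S r f m
    rw [yan_no_y, map_zero, fnA_no_y, comm_SopZ D (yan p) (fun q v => yan_xcr p q v), yan_no_y,
      map_zero]
  · intro a v hv f m
    rw [fnA_ycr, map_sub, yan_ycr, hv, hv, yan_ycr, map_add, fnA_ycr]
    split_ifs
    · abel
    · simp

lemma fnA_fnA (f g : A) (m k : ℤ) (v : EE n A) :
    fnA D f m (fnA D g k v) = fnA D g k (fnA D f m v) := by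
  revert f g m k
  refine y_ind (P := fun v => ∀ (f g : A) (m k : ℤ),
    fnA D f m (fnA D g k v) = fnA D g k (fnA D f m v)) ?_ ?_ ?_ ?_ v
  · intro f g m k; simp
  · intro u v hu hv f g m k
    simp only [map_add, hu, hv]
  · intro X S r f g m k
    rw [fnA_no_y, fnA_no_y]
    rw [comm_SopZ D (fnA D f m) (fun q v => (xcr_fnA D q f m v).symm),
      comm_SopZ D (fnA D g k) (fun q v => (xcr_fnA D q g k v).symm), fnA_no_y, fnA_no_y,
      SopZ_SopZ]
  · intro a v hv f g m k
    have h1 : ∀ (f g : A) (m k : ℤ), fnA D f m (fnA D g k (ycr a v))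
        = ycr a (fnA D f m (fnA D g k v)) - fnA D (D.d a.1 f) (m - a.2 - 1) (fnA D g k v)
          - fnA D f m (fnA D (D.d a.1 g) (k - a.2 - 1) v) := fun f g m k => by
      rw [fnA_ycr D g, map_sub, fnA_ycr D f]
    rw [h1, h1, hv f g, hv (D.d a.1 f) g, hv f (D.d a.1 g)]
    abel

lemma dA_fnA (i : Fin n) (f : A) (m : ℤ) (v : EE n A) :
    dA D i (fnA D f m v) - fnA D f m (dA D i v) = fnA D (D.d i f) m v := by
  revert f m
  refine y_ind (P := fun v => ∀ (f : A) (m : ℤ),
    dA D i (fnA D f m v) - fnA D f m (dA D i v) = fnA D (D.d i f) m v) ?_ ?_ ?_ ?_ v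
  · intro f m; simp
  · intro u v hu hv f m
    simp only [map_add, ← hu, ← hv]
    abel
  · intro X S r f m
    rw [fnA_no_y, dA_single, fnA_no_y, fnA_no_y, dA_SopZ, dA_single]
    abel
  · intro a v hv f m
    rw [fnA_ycr, map_sub, dA_ycr, dA_ycr, fnA_ycr, fnA_ycr, D.comm a.1 i, ← hv, ← hv, map_sub]
    abel

lemma xan_fnA (i : Fin n) (k : ℕ) (f : A) (m : ℤ) (v : EE n A) :
    xan (i, k) (fnA D f m v) - fnA D f m (xan (i, k) v)
      = algebraMap ℂ A (1 / ((k : ℂ) + 1)) • fnA D (D.d i f) (m + k + 1) v := by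
  revert f m
  refine y_ind (P := fun v => ∀ (f : A) (m : ℤ),
    xan (i, k) (fnA D f m v) - fnA D f m (xan (i, k) v)
      = algebraMap ℂ A (1 / ((k : ℂ) + 1)) • fnA D (D.d i f) (m + k + 1) v) ?_ ?_ ?_ ?_ v
  · intro f m; simp
  · intro u v hu hv f m
    simp only [map_add, smul_add, ← hu, ← hv]
    abel
  · intro X S r f m
    rw [xan_single, fnA_no_y, fnA_no_y, fnA_no_y, xan_SopZ, xan_single]
    have : -m - 1 - (k : ℤ) - 1 = -(m + k + 1) - 1 := by ring
    rw [this]
    abel
  · intro a v hv f m
    have e1 : m + k + 1 - a.2 - 1 = m - a.2 - 1 + k + 1 := by ring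
    rw [fnA_ycr, map_sub, xan_ycr, xan_ycr, fnA_ycr, fnA_ycr, D.comm a.1 i, smul_sub, e1, ← hv,
      ← map_smul, ← hv, map_sub]
    abel

end FnSec

end K2

/-! ### The statements -/

section K2
variable {n : ℕ} {A : Type*} [CommRing A] [Algebra ℂ A] (D : DS n A)

theorem fnMo_add (f g : A) (m : ℤ) : fnMo D (f + g) m = fnMo D f m + fnMo D g m :=
  LinearMap.ext fun v => K2.fnA_add D f g m v

theorem fnMo_smul (c : ℂ) (f : A) (m : ℤ) : fnMo D (c • f) m = c • fnMo D f m :=
  LinearMap.ext fun v => by
    rw [K2.fnMo_eq, K2.fnA_smulc, LinearMap.smul_apply, K2.fnMo_eq, algebraMap_smul]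

theorem fnMo_fnMo (f g : A) (m k : ℤ) (v : EE n A) :
    fnMo D f m (fnMo D g k v) = fnMo D g k (fnMo D f m v) := K2.fnA_fnA D f g m k v

theorem xMo_fnMo (i : Fin n) (f : A) (m k : ℤ) (v : EE n A) :
    xMo n A i m (fnMo D f k v) = fnMo D f k (xMo n A i m v) := by
  simp only [K2.fnMo_eq, xMo]
  split_ifs
  · exact K2.xcr_fnA D _ f k v
  · simp
  · simp only [LinearMap.smul_apply, LinearMap.restrictScalars_apply]
    rw [K2.yan_fnA, LinearMap.map_smul_of_tower]

theorem fMo_fnMo (t : Bool) (i : Fin n) (f : A) (m k : ℤ) (v : EE n A) :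
    fMo n A t i m (fnMo D f k v) = fnMo D f k (fMo n A t i m v) := by
  simp only [K2.fnMo_eq, fMo]
  split_ifs
  · exact K2.fcr_fnA D _ f k v
  · exact K2.fan_fnA D _ f k v

theorem βMo_fnMo (i : Fin n) (f : A) (m k : ℤ) (v : EE n A) :
    βMo D i m (fnMo D f k v) - fnMo D f k (βMo D i m v) = fnMo D (D.d i f) (m + k) v := by
  simp only [K2.fnMo_eq, βMo]
  split_ifs with h1 h2
  · simp only [LinearMap.restrictScalars_apply]
    rw [K2.fnA_ycr]
    have : k - ((-m - 1).toNat : ℤ) - 1 = m + k := by omega
    rw [this]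
    abel
  · rw [h2, zero_add]
    exact K2.dA_fnA D i f k v
  · simp only [LinearMap.smul_apply, LinearMap.restrictScalars_apply]
    rw [LinearMap.map_smul_of_tower, ← smul_sub, K2.xan_fnA]
    have e1 : k + ((m - 1).toNat : ℤ) + 1 = m + k := by omega
    have e2 : (((m - 1).toNat : ℕ) : ℂ) + 1 = (m : ℂ) := by
      have : (((m - 1).toNat : ℕ) : ℤ) + 1 = m := by omega
      exact_mod_cast this
    rw [e1, e2, ← algebraMap_smul A (m : ℂ), smul_smul, ← map_mul, mul_one_div_cancel, map_one,
      one_smul]
    exact_mod_cast h2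

theorem sgE_fnMo (f : A) (m : ℤ) (v : EE n A) :
    sgE n A (fnMo D f m v) = fnMo D f m (sgE n A v) := K2.sgE_fnA D f m v

theorem fnMo_vac (f : A) (m : ℕ) : fnMo D f m (vacE n A) = 0 := by
  rw [K2.fnMo_eq, vacE, K2.fnA_no_y, K2.SopZ_neg D (by omega)]

/-- on a coefficient `g` (times the vacuum) the mode `-1` multiplies by `f` -/
theorem fnMo_neg_one (f g : A) :
    fnMo D f (-1) (Finsupp.single ((0, 0, ∅) : Mon n) g)
      = Finsupp.single ((0, 0, ∅) : Mon n) (f * g) := by
  rw [K2.fnMo_eq, K2.fnA_no_y]
  have : (- -1 - 1 : ℤ) = ((0 : ℕ) : ℤ) := by norm_num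
  rw [this, K2.SopZ_nat, K2.Sop_zero, Finsupp.smul_single, smul_eq_mul]

/-- constants act by multiplication -/
theorem fnMo_const (f : A) (hf : ∀ i, D.d i f = 0) (m : ℤ) (v : EE n A) :
    fnMo D f m v = if m = -1 then f • v else 0 := by
  rw [K2.fnMo_eq]
  have h0 : ∀ (m : ℤ) (v : EE n A), fnA D (0 : A) m v = 0 := fun m v => by
    have := K2.fnA_smulc D 0 0 m v
    simpa using this
  refine K2.y_ind (P := fun v => fnA D f m v = if m = -1 then f • v else 0) ?_ ?_ ?_ ?_ v
  · simp
  · intro u v hu hv
    rw [map_add, hu, hv]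
    split_ifs
    · rw [smul_add]
    · rw [add_zero]
  · intro X S r
    rw [K2.fnA_no_y]
    rcases lt_trichotomy m (-1) with h | h | h
    · have e : (-m - 1 : ℤ) = (((-m - 2).toNat + 1 : ℕ) : ℤ) := by omega
      rw [e, K2.SopZ_nat, K2.Sop_const D _ f hf, if_neg (by omega)]
    · subst h
      have : (- -1 - 1 : ℤ) = ((0 : ℕ) : ℤ) := by norm_num
      rw [this, K2.SopZ_nat, K2.Sop_zero, if_pos rfl]
    · rw [K2.SopZ_neg D (by omega), if_neg (by omega)]
  · intro a v hv
    rw [K2.fnA_ycr, hf, h0, sub_zero, hv]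
    split_ifs
    · rw [map_smul]
    · rw [map_zero]

theorem fnMo_neg_two (f : A) :
    fnMo D f (-2) (vacE n A) = ∑ i, (D.d i f) • xMo n A i (-1) (vacE n A) := by
  rw [K2.fnMo_eq, vacE, K2.fnA_no_y]
  have : (- -2 - 1 : ℤ) = ((1 : ℕ) : ℤ) := by norm_num
  rw [this, K2.SopZ_nat, K2.Sop_succ]
  simp only [Nat.cast_zero, zero_add, div_one, map_one, one_smul]
  refine Finset.sum_congr rfl fun i _ => ?_
  simp [K2.Sop_zero, xMo, xcr_single]

/-- functions act by multiplication on states without letters of `β`, mode `-1`;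
and nonnegative modes kill them -/
theorem fnMo_of_no_y (f : A) (w : Mon n) (hw : w.2.1 = 0) (a : A) :
    fnMo D f (-1) (Finsupp.single w a) = Finsupp.single w (f * a) ∧
      ∀ m : ℕ, fnMo D f m (Finsupp.single w a) = 0 := by
  obtain ⟨X, Y, S⟩ := w
  simp only at hw
  subst hw
  refine ⟨?_, fun m => ?_⟩
  · rw [K2.fnMo_eq, K2.fnA_no_y]
    have : (- -1 - 1 : ℤ) = ((0 : ℕ) : ℤ) := by norm_num
    rw [this, K2.SopZ_nat, K2.Sop_zero, Finsupp.smul_single, smul_eq_mul]
  · rw [K2.fnMo_eq, K2.fnA_no_y, K2.SopZ_neg D (by omega)]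

end K2

end Pool.Agent.AA3
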