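import Pool.Agent.Lib.MP_aa3aaf_al.FockCCR
import Pool.Agent.Lib.MP_aa3aaf_al.FockFn

/-!
The translation operator of the Fock space and the spanning property.
-/

set_option autoImplicit false
open scoped BigOperators
noncomputable section
namespace Pool.Agent.AA3

namespace K3

section TOp
variable {n : ℕ} {A : Type*} [CommRing A] [Algebra ℂ A] (D : DS n A)

/-- the part of the translation operator that moves the letters `k` to `k + 1` -/
def Ok (n : ℕ) (A : Type*) [CommRing A] [Algebra ℂ A] (k : ℕ) : EE n A →ₗ[ℂ] EE n A :=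
  ((k : ℂ) + 1) • (∑ i : Fin n, (xcr (i, k + 1) ∘ₗ xan (i, k) + ycr (i, k + 1) ∘ₗ yan (i, k)
    + ∑ t : Bool, fcr (fl t i (k + 1)) ∘ₗ fan (fl t i k)) : EE n A →ₗ[A] EE n A).restrictScalars ℂ

lemma Ok_apply (k : ℕ) (v : EE n A) : Ok n A k v = ((k : ℂ) + 1) • ∑ i : Fin n,
    (xcr (i, k + 1) (xan (i, k) v) + ycr (i, k + 1) (yan (i, k) v)
      + ∑ t : Bool, fcr (fl t i (k + 1)) (fan (fl t i k) v)) := by
  simp only [Ok, LinearMap.smul_apply, LinearMap.restrictScalars_apply, LinearMap.sum_apply,
    LinearMap.add_apply, LinearMap.comp_apply]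

/-- the part of the translation operator that acts on the coefficients -/
def Z : EE n A →ₗ[ℂ] EE n A := ∑ i : Fin n, ((xcr (i, 0)).restrictScalars ℂ) ∘ₗ dA D i

lemma Z_apply (v : EE n A) : Z D v = ∑ i : Fin n, xcr (i, 0) (dA D i v) := by
  simp only [Z, LinearMap.sum_apply, LinearMap.comp_apply, LinearMap.restrictScalars_apply]

lemma Ok_bound (v : EE n A) : ∃ K : ℕ, ∀ k, K ≤ k → Ok n A k v = 0 := by
  induction v using Finsupp.induction_linear with
  | zero => exact ⟨0, fun k _ => map_zero _⟩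
  | add f g hf hg =>
    obtain ⟨K, hK⟩ := hf
    obtain ⟨L, hL⟩ := hg
    refine ⟨max K L, fun k hk => ?_⟩
    rw [map_add, hK k (le_trans (le_max_left _ _) hk), hL k (le_trans (le_max_right _ _) hk),
      add_zero]
  | single w r =>
    obtain ⟨K1, h1⟩ := exists_bound_multiset w.1
    obtain ⟨K2, h2⟩ := exists_bound_multiset w.2.1
    obtain ⟨K3, h3⟩ := exists_bound_finset w.2.2
    refine ⟨max K1 (max K2 K3), fun k hk => ?_⟩
    have hk1 : K1 ≤ k := le_trans (le_max_left _ _) hk
    have hk2 : K2 ≤ k := le_trans (le_trans (le_max_left _ _) (le_max_right _ _)) hk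
    have hk3 : K3 ≤ k := le_trans (le_trans (le_max_right _ _) (le_max_right _ _)) hk
    rw [Ok_apply]
    have e1 : ∀ i : Fin n, xan (i, k) (Finsupp.single w r) = 0 := by
      intro i
      have : (i, k) ∉ w.1 := fun h => absurd (h1 _ h) (by simp only; omega)
      rw [xan_single, Multiset.count_eq_zero_of_notMem this]
      simp
    have e2 : ∀ i : Fin n, yan (i, k) (Finsupp.single w r) = 0 := by
      intro i
      have : (i, k) ∉ w.2.1 := fun h => absurd (h2 _ h) (by simp only; omega)
      rw [yan_single, Multiset.count_eq_zero_of_notMem this]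
      simp
    have e3 : ∀ (i : Fin n) (t : Bool), fan (fl t i k) (Finsupp.single w r) = 0 := by
      intro i t
      have : fl t i k ∉ w.2.2 := fun h => absurd (h3 _ _ _ h) (by omega)
      rw [fan_single, if_neg this]
    simp only [e1, e2, e3, map_zero, add_zero, Finset.sum_const_zero, smul_zero]

lemma Ok_support (v : EE n A) : (Function.support fun k => Ok n A k v).Finite := by
  obtain ⟨K, hK⟩ := Ok_bound v
  refine (Set.finite_lt_nat K).subset fun k hk => ?_
  by_contra hlt
  exact hk (hK k (not_lt.mp hlt))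

/-- the translation operator -/
def T : EE n A →ₗ[ℂ] EE n A where
  toFun v := Z D v + ∑ᶠ k, Ok n A k v
  map_add' v w := by
    simp only [map_add]
    rw [finsum_add_distrib (Ok_support v) (Ok_support w)]
    abel
  map_smul' c v := by
    simp only [map_smul, RingHom.id_apply]
    rw [smul_add, smul_finsum]

lemma T_eq (v : EE n A) (K : ℕ) (hK : ∀ k, K ≤ k → Ok n A k v = 0) :
    T D v = Z D v + ∑ k ∈ Finset.range K, Ok n A k v := by
  change Z D v + ∑ᶠ k, Ok n A k v = _
  congr 1
  apply finsum_eq_sum_of_support_subset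
  intro k hk
  by_contra hlt
  simp only [Finset.coe_range, Set.mem_Iio, not_lt] at hlt
  exact hk (hK k hlt)

lemma T_comm (P : EE n A → EE n A) (hP : ∀ u v, P (u + v) = P u + P v) (R0 R1 : EE n A → EE n A)
    (l : ℕ) (h0 : ∀ v, Z D (P v) = P (Z D v) + R0 v)
    (h1 : ∀ k v, Ok n A k (P v) = P (Ok n A k v) + if k = l then R1 v else 0) (v : EE n A) :
    T D (P v) = P (T D v) + (R0 v + R1 v) := by
  obtain ⟨K, hK⟩ := Ok_bound v
  obtain ⟨L, hL⟩ := Ok_bound (P v)
  set N := max (max K L) (l + 1) with hN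
  have hKN : K ≤ N := le_trans (le_max_left _ _) (le_max_left _ _)
  have hLN : L ≤ N := le_trans (le_max_right _ _) (le_max_left _ _)
  have hlN : l < N := lt_of_lt_of_le (Nat.lt_succ_self l) (le_max_right _ _)
  rw [T_eq D v N (fun k hk => hK k (le_trans hKN hk)),
    T_eq D (P v) N (fun k hk => hL k (le_trans hLN hk)), h0, hP]
  have hPsum : ∀ s : Finset ℕ, P (∑ k ∈ s, Ok n A k v) = ∑ k ∈ s, P (Ok n A k v) := by
    have hP0 : P 0 = 0 := by
      have := hP 0 0
      rw [add_zero] at this
      exact left_eq_add.mp this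
    intro s
    classical
    induction s using Finset.induction_on with
    | empty => simp [hP0]
    | insert a s ha ih => rw [Finset.sum_insert ha, Finset.sum_insert ha, hP, ih]
  rw [hPsum]
  simp only [h1]
  rw [Finset.sum_add_distrib, Finset.sum_ite_eq', if_pos (Finset.mem_range.mpr hlN)]
  abel

/-! ### commutators with the letters -/

lemma T_xcr (j : Fin n) (l : ℕ) (v : EE n A) :
    T D (xcr (j, l) v) = xcr (j, l) (T D v) + ((l : ℂ) + 1) • xcr (j, l + 1) v := by
  have := T_comm D (fun v => xcr (j, l) v) (fun u v => map_add _ u v) (fun _ => 0)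
    (fun v => ((l : ℂ) + 1) • xcr (j, l + 1) v) l ?_ ?_ v
  · simpa using this
  · intro v
    rw [Z_apply, Z_apply, map_sum, add_zero]
    refine Finset.sum_congr rfl fun i _ => ?_
    rw [K1.dA_xcr, K1.xcr_xcr]
  · intro k v
    rw [Ok_apply, Ok_apply, K1.csmul, map_sum]
    have e1 : ∀ i : Fin n, (xcr (i, k + 1) (xan (i, k) (xcr (j, l) v))
        + ycr (i, k + 1) (yan (i, k) (xcr (j, l) v))
        + ∑ t : Bool, fcr (fl t i (k + 1)) (fan (fl t i k) (xcr (j, l) v)))
        = xcr (j, l) (xcr (i, k + 1) (xan (i, k) v) + ycr (i, k + 1) (yan (i, k) v)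
        + ∑ t : Bool, fcr (fl t i (k + 1)) (fan (fl t i k) v))
        + if i = j then (if k = l then xcr (j, l + 1) v else 0) else 0 := by
      intro i
      rw [K1.xan_xcr, ← K1.xcr_yan, ← K1.xcr_ycr]
      simp only [← K1.xcr_fan, ← K1.xcr_fcr, map_add, map_sum]
      rw [K1.xcr_xcr]
      by_cases hi : i = j
      · subst hi
        by_cases hk : k = l
        · subst hk; simp only [if_true]; abel
        · have : (i, k) ≠ (i, l) := fun h => hk (Prod.mk.inj h).2
          simp only [hk, this, if_true, if_false, map_zero, add_zero]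
      · have : (i, k) ≠ (j, l) := fun h => hi (Prod.mk.inj h).1
        simp only [this, hi, if_false, map_zero, add_zero]
    simp only [e1]
    rw [Finset.sum_add_distrib, Finset.sum_ite_eq', if_pos (Finset.mem_univ _), smul_add]
    congr 1
    split_ifs with h
    · rw [h]
    · simp

lemma T_ycr (j : Fin n) (l : ℕ) (v : EE n A) :
    T D (ycr (j, l) v) = ycr (j, l) (T D v) + ((l : ℂ) + 1) • ycr (j, l + 1) v := by
  have := T_comm D (fun v => ycr (j, l) v) (fun u v => map_add _ u v) (fun _ => 0)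
    (fun v => ((l : ℂ) + 1) • ycr (j, l + 1) v) l ?_ ?_ v
  · simpa using this
  · intro v
    rw [Z_apply, Z_apply, map_sum, add_zero]
    refine Finset.sum_congr rfl fun i _ => ?_
    rw [K1.dA_ycr, K1.xcr_ycr]
  · intro k v
    rw [Ok_apply, Ok_apply, K1.csmul, map_sum]
    have e1 : ∀ i : Fin n, (xcr (i, k + 1) (xan (i, k) (ycr (j, l) v))
        + ycr (i, k + 1) (yan (i, k) (ycr (j, l) v))
        + ∑ t : Bool, fcr (fl t i (k + 1)) (fan (fl t i k) (ycr (j, l) v)))
        = ycr (j, l) (xcr (i, k + 1) (xan (i, k) v) + ycr (i, k + 1) (yan (i, k) v)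
        + ∑ t : Bool, fcr (fl t i (k + 1)) (fan (fl t i k) v))
        + if i = j then (if k = l then ycr (j, l + 1) v else 0) else 0 := by
      intro i
      rw [K1.yan_ycr, ← K1.ycr_xan, K1.xcr_ycr]
      simp only [← K1.ycr_fan, ← K1.ycr_fcr, map_add, map_sum]
      rw [K1.ycr_ycr (i, k + 1)]
      by_cases hi : i = j
      · subst hi
        by_cases hk : k = l
        · subst hk; simp only [if_true]; abel
        · have : (i, k) ≠ (i, l) := fun h => hk (Prod.mk.inj h).2
          simp only [hk, this, if_true, if_false, map_zero, add_zero]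
      · have : (i, k) ≠ (j, l) := fun h => hi (Prod.mk.inj h).1
        simp only [this, hi, if_false, map_zero, add_zero]
    simp only [e1]
    rw [Finset.sum_add_distrib, Finset.sum_ite_eq', if_pos (Finset.mem_univ _), smul_add]
    congr 1
    split_ifs with h
    · rw [h]
    · simp

lemma T_fcr (s : Bool) (j : Fin n) (l : ℕ) (v : EE n A) :
    T D (fcr (fl s j l) v) = fcr (fl s j l) (T D v) + ((l : ℂ) + 1) • fcr (fl s j (l + 1)) v := by
  have := T_comm D (fun v => fcr (fl s j l) v) (fun u v => map_add _ u v) (fun _ => 0)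
    (fun v => ((l : ℂ) + 1) • fcr (fl s j (l + 1)) v) l ?_ ?_ v
  · simpa using this
  · intro v
    rw [Z_apply, Z_apply, map_sum, add_zero]
    refine Finset.sum_congr rfl fun i _ => ?_
    rw [K1.dA_fcr, K1.xcr_fcr]
  · intro k v
    rw [Ok_apply, Ok_apply, K1.csmul, map_sum]
    have e0 : ∀ (i : Fin n) (t : Bool), fcr (fl t i (k + 1)) (fan (fl t i k) (fcr (fl s j l) v))
        = fcr (fl s j l) (fcr (fl t i (k + 1)) (fan (fl t i k) v))
          + if t = s then (if i = j then (if k = l then fcr (fl s j (l + 1)) v else 0) else 0)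
            else 0 := by
      intro i t
      have h1 : fan (fl t i k) (fcr (fl s j l) v)
          = (if fl t i k = fl s j l then v else 0) - fcr (fl s j l) (fan (fl t i k) v) := by
        rw [← K1.fan_fcr, add_sub_cancel_right]
      have h2 : ∀ u : EE n A, fcr (fl t i (k + 1)) (fcr (fl s j l) u)
          = -fcr (fl s j l) (fcr (fl t i (k + 1)) u) := by
        intro u
        exact eq_neg_of_add_eq_zero_left (K1.fcr_fcr _ _ u)
      rw [h1, map_sub, h2, sub_neg_eq_add, add_comm]
      congr 1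
      by_cases h : t = s ∧ i = j ∧ k = l
      · obtain ⟨rfl, rfl, rfl⟩ := h
        simp only [if_true]
      · rw [if_neg (fun h' => h ((K1.fl_eq_iff _ _ _ _ _ _).mp h')), map_zero]
        split_ifs with a b c
        · exact absurd ⟨a, b, c⟩ h
        · rfl
        · rfl
        · rfl
    have e1 : ∀ i : Fin n, (xcr (i, k + 1) (xan (i, k) (fcr (fl s j l) v))
        + ycr (i, k + 1) (yan (i, k) (fcr (fl s j l) v))
        + ∑ t : Bool, fcr (fl t i (k + 1)) (fan (fl t i k) (fcr (fl s j l) v)))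
        = fcr (fl s j l) (xcr (i, k + 1) (xan (i, k) v) + ycr (i, k + 1) (yan (i, k) v)
        + ∑ t : Bool, fcr (fl t i (k + 1)) (fan (fl t i k) v))
        + if i = j then (if k = l then fcr (fl s j (l + 1)) v else 0) else 0 := by
      intro i
      simp only [e0]
      rw [K1.xan_fcr, K1.yan_fcr, K1.xcr_fcr, K1.ycr_fcr, Finset.sum_add_distrib,
        Finset.sum_ite_eq', if_pos (Finset.mem_univ _), map_add, map_add, map_sum]
      abel
    simp only [e1]
    rw [Finset.sum_add_distrib, Finset.sum_ite_eq', if_pos (Finset.mem_univ _), smul_add]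
    congr 1
    split_ifs with h
    · rw [h]
    · simp

/-- the commutator with `xan (j, m)`: general form of the computation with the summands -/
lemma Ok_xan (j : Fin n) (m : ℕ) (k : ℕ) (v : EE n A) :
    Ok n A k (xan (j, m) v) = xan (j, m) (Ok n A k v)
      + if k + 1 = m then (-((k : ℂ) + 1)) • xan (j, k) v else 0 := by
  rw [Ok_apply, Ok_apply, K1.csmul, map_sum]
  have e1 : ∀ i : Fin n, (xcr (i, k + 1) (xan (i, k) (xan (j, m) v))
      + ycr (i, k + 1) (yan (i, k) (xan (j, m) v))
      + ∑ t : Bool, fcr (fl t i (k + 1)) (fan (fl t i k) (xan (j, m) v)))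
      = xan (j, m) (xcr (i, k + 1) (xan (i, k) v) + ycr (i, k + 1) (yan (i, k) v)
      + ∑ t : Bool, fcr (fl t i (k + 1)) (fan (fl t i k) v))
      - if i = j then (if k + 1 = m then xan (j, k) v else 0) else 0 := by
    intro i
    rw [map_add, map_add, map_sum, K1.xan_xcr, K1.yan_xan, ← K1.ycr_xan]
    simp only [K1.xan_fcr, K1.xan_fan]
    rw [K1.xan_xan (i, k) (j, m)]
    by_cases hi : i = j
    · subst hi
      by_cases hk : k + 1 = m
      · subst hk; simp only [if_true]; abel
      · have : (i, m) ≠ (i, k + 1) := fun h => hk (Prod.mk.inj h).2.symm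
        simp only [hk, this, if_true, if_false, add_zero, sub_zero]
    · have : (j, m) ≠ (i, k + 1) := fun h => hi (Prod.mk.inj h).1.symm
      simp only [this, hi, if_false, add_zero, sub_zero]
  simp only [e1]
  rw [Finset.sum_sub_distrib, Finset.sum_ite_eq', if_pos (Finset.mem_univ _), smul_sub,
    sub_eq_add_neg]
  congr 1
  split_ifs with h
  · rw [neg_smul]
  · simp

lemma Z_xan (j : Fin n) (m : ℕ) (v : EE n A) :
    Z D (xan (j, m) v) = xan (j, m) (Z D v) + if m = 0 then -dA D j v else 0 := by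
  rw [Z_apply, Z_apply, map_sum]
  have e1 : ∀ i : Fin n, xcr (i, 0) (dA D i (xan (j, m) v))
      = xan (j, m) (xcr (i, 0) (dA D i v)) - if i = j then (if m = 0 then dA D j v else 0) else 0 := by
    intro i
    rw [K1.dA_xan, K1.xan_xcr]
    by_cases hi : i = j
    · subst hi
      by_cases hm : m = 0
      · subst hm; simp only [if_true]; abel
      · have : (i, m) ≠ (i, 0) := fun h => hm (Prod.mk.inj h).2
        simp only [hm, this, if_true, if_false, add_zero, sub_zero]
    · have : (j, m) ≠ (i, 0) := fun h => hi (Prod.mk.inj h).1.symm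
      simp only [this, hi, if_false, add_zero, sub_zero]
  simp only [e1]
  rw [Finset.sum_sub_distrib, Finset.sum_ite_eq', if_pos (Finset.mem_univ _), sub_eq_add_neg]
  congr 1
  split_ifs
  · rfl
  · simp

lemma T_xan_succ (j : Fin n) (l : ℕ) (v : EE n A) :
    T D (xan (j, l + 1) v) = xan (j, l + 1) (T D v) - ((l : ℂ) + 1) • xan (j, l) v := by
  have := T_comm D (fun v => xan (j, l + 1) v) (fun u v => map_add _ u v) (fun _ => 0)
    (fun v => (-((l : ℂ) + 1)) • xan (j, l) v) l ?_ ?_ v
  · rw [this, zero_add, neg_smul, ← sub_eq_add_neg]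
  · intro v
    rw [Z_xan, if_neg (Nat.succ_ne_zero l)]
  · intro k v
    rw [Ok_xan]
    congr 1
    by_cases h : k = l
    · subst h; simp
    · rw [if_neg (by omega), if_neg h]

lemma T_xan_zero (j : Fin n) (v : EE n A) :
    T D (xan (j, 0) v) = xan (j, 0) (T D v) - dA D j v := by
  have := T_comm D (fun v => xan (j, 0) v) (fun u v => map_add _ u v) (fun v => -dA D j v)
    (fun v => 0) 0 ?_ ?_ v
  · rw [this]; simp [sub_eq_add_neg]
  · intro v
    rw [Z_xan, if_pos rfl]
  · intro k v
    rw [Ok_xan, if_neg (by omega)]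
    simp

lemma Ok_yan (j : Fin n) (m : ℕ) (k : ℕ) (v : EE n A) :
    Ok n A k (yan (j, m) v) = yan (j, m) (Ok n A k v)
      + if k + 1 = m then (-((k : ℂ) + 1)) • yan (j, k) v else 0 := by
  rw [Ok_apply, Ok_apply, K1.csmul, map_sum]
  have e1 : ∀ i : Fin n, (xcr (i, k + 1) (xan (i, k) (yan (j, m) v))
      + ycr (i, k + 1) (yan (i, k) (yan (j, m) v))
      + ∑ t : Bool, fcr (fl t i (k + 1)) (fan (fl t i k) (yan (j, m) v)))
      = yan (j, m) (xcr (i, k + 1) (xan (i, k) v) + ycr (i, k + 1) (yan (i, k) v)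
      + ∑ t : Bool, fcr (fl t i (k + 1)) (fan (fl t i k) v))
      - if i = j then (if k + 1 = m then yan (j, k) v else 0) else 0 := by
    intro i
    rw [map_add, map_add, map_sum, K1.yan_ycr, ← K1.yan_xan, K1.xcr_yan]
    simp only [K1.yan_fcr, K1.yan_fan]
    rw [K1.yan_yan (i, k) (j, m)]
    by_cases hi : i = j
    · subst hi
      by_cases hk : k + 1 = m
      · subst hk; simp only [if_true]; abel
      · have : (i, m) ≠ (i, k + 1) := fun h => hk (Prod.mk.inj h).2.symm
        simp only [hk, this, if_true, if_false, add_zero, sub_zero]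
    · have : (j, m) ≠ (i, k + 1) := fun h => hi (Prod.mk.inj h).1.symm
      simp only [this, hi, if_false, add_zero, sub_zero]
  simp only [e1]
  rw [Finset.sum_sub_distrib, Finset.sum_ite_eq', if_pos (Finset.mem_univ _), smul_sub,
    sub_eq_add_neg]
  congr 1
  split_ifs with h
  · rw [neg_smul]
  · simp

lemma Z_yan (j : Fin n) (m : ℕ) (v : EE n A) : Z D (yan (j, m) v) = yan (j, m) (Z D v) := by
  rw [Z_apply, Z_apply, map_sum]
  refine Finset.sum_congr rfl fun i _ => ?_
  rw [K1.dA_yan, K1.xcr_yan]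

lemma T_yan_succ (j : Fin n) (l : ℕ) (v : EE n A) :
    T D (yan (j, l + 1) v) = yan (j, l + 1) (T D v) - ((l : ℂ) + 1) • yan (j, l) v := by
  have := T_comm D (fun v => yan (j, l + 1) v) (fun u v => map_add _ u v) (fun _ => 0)
    (fun v => (-((l : ℂ) + 1)) • yan (j, l) v) l ?_ ?_ v
  · rw [this, zero_add, neg_smul, ← sub_eq_add_neg]
  · intro v
    rw [Z_yan, add_zero]
  · intro k v
    rw [Ok_yan]
    congr 1
    by_cases h : k = l
    · subst h; simp
    · rw [if_neg (by omega), if_neg h]

lemma T_yan_zero (j : Fin n) (v : EE n A) :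
    T D (yan (j, 0) v) = yan (j, 0) (T D v) := by
  have := T_comm D (fun v => yan (j, 0) v) (fun u v => map_add _ u v) (fun v => 0)
    (fun v => 0) 0 ?_ ?_ v
  · rw [this]; simp
  · intro v
    rw [Z_yan, add_zero]
  · intro k v
    rw [Ok_yan, if_neg (by omega)]
    simp

lemma Ok_fan (s : Bool) (j : Fin n) (m : ℕ) (k : ℕ) (v : EE n A) :
    Ok n A k (fan (fl s j m) v) = fan (fl s j m) (Ok n A k v)
      + if k + 1 = m then (-((k : ℂ) + 1)) • fan (fl s j k) v else 0 := by
  rw [Ok_apply, Ok_apply, K1.csmul, map_sum]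
  have e0 : ∀ (i : Fin n) (t : Bool), fcr (fl t i (k + 1)) (fan (fl t i k) (fan (fl s j m) v))
      = fan (fl s j m) (fcr (fl t i (k + 1)) (fan (fl t i k) v))
        - if t = s then (if i = j then (if k + 1 = m then fan (fl s j k) v else 0) else 0)
          else 0 := by
    intro i t
    have h2 : fan (fl t i k) (fan (fl s j m) v) = -fan (fl s j m) (fan (fl t i k) v) :=
      eq_neg_of_add_eq_zero_left (K1.fan_fan _ _ v)
    have h1 : ∀ u : EE n A, fcr (fl t i (k + 1)) (fan (fl s j m) u)
        = (if fl s j m = fl t i (k + 1) then u else 0)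
          - fan (fl s j m) (fcr (fl t i (k + 1)) u) := by
      intro u
      rw [← K1.fan_fcr]
      abel
    rw [h2, map_neg, h1, neg_sub]
    congr 1
    by_cases h : t = s ∧ i = j ∧ k + 1 = m
    · obtain ⟨rfl, rfl, rfl⟩ := h
      simp only [if_true]
    · rw [if_neg (fun h' => h (by
        obtain ⟨a, b, c⟩ := (K1.fl_eq_iff _ _ _ _ _ _).mp h'
        exact ⟨a.symm, b.symm, c.symm⟩))]
      split_ifs with a b c
      · exact absurd ⟨a, b, c⟩ h
      · rfl
      · rfl
      · rfl
  have e1 : ∀ i : Fin n, (xcr (i, k + 1) (xan (i, k) (fan (fl s j m) v))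
      + ycr (i, k + 1) (yan (i, k) (fan (fl s j m) v))
      + ∑ t : Bool, fcr (fl t i (k + 1)) (fan (fl t i k) (fan (fl s j m) v)))
      = fan (fl s j m) (xcr (i, k + 1) (xan (i, k) v) + ycr (i, k + 1) (yan (i, k) v)
      + ∑ t : Bool, fcr (fl t i (k + 1)) (fan (fl t i k) v))
      - if i = j then (if k + 1 = m then fan (fl s j k) v else 0) else 0 := by
    intro i
    simp only [e0]
    rw [K1.xan_fan, K1.yan_fan, K1.xcr_fan, K1.ycr_fan, Finset.sum_sub_distrib,
      Finset.sum_ite_eq', if_pos (Finset.mem_univ _), map_add, map_add, map_sum]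
    abel
  simp only [e1]
  rw [Finset.sum_sub_distrib, Finset.sum_ite_eq', if_pos (Finset.mem_univ _), smul_sub,
    sub_eq_add_neg]
  congr 1
  split_ifs with h
  · rw [neg_smul]
  · simp

lemma Z_fan (t : Fl n) (v : EE n A) : Z D (fan t v) = fan t (Z D v) := by
  rw [Z_apply, Z_apply, map_sum]
  refine Finset.sum_congr rfl fun i _ => ?_
  rw [K1.dA_fan, K1.xcr_fan]

lemma T_fan_succ (s : Bool) (j : Fin n) (l : ℕ) (v : EE n A) :
    T D (fan (fl s j (l + 1)) v)
      = fan (fl s j (l + 1)) (T D v) - ((l : ℂ) + 1) • fan (fl s j l) v := by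
  have := T_comm D (fun v => fan (fl s j (l + 1)) v) (fun u v => map_add _ u v) (fun _ => 0)
    (fun v => (-((l : ℂ) + 1)) • fan (fl s j l) v) l ?_ ?_ v
  · rw [this, zero_add, neg_smul, ← sub_eq_add_neg]
  · intro v
    rw [Z_fan, add_zero]
  · intro k v
    rw [Ok_fan]
    congr 1
    by_cases h : k = l
    · subst h; simp
    · rw [if_neg (by omega), if_neg h]

lemma T_fan_zero (s : Bool) (j : Fin n) (v : EE n A) :
    T D (fan (fl s j 0) v) = fan (fl s j 0) (T D v) := by
  have := T_comm D (fun v => fan (fl s j 0) v) (fun u v => map_add _ u v) (fun v => 0)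
    (fun v => 0) 0 ?_ ?_ v
  · rw [this]; simp
  · intro v
    rw [Z_fan, add_zero]
  · intro k v
    rw [Ok_fan, if_neg (by omega)]
    simp

lemma T_dA (j : Fin n) (v : EE n A) : T D (dA D j v) = dA D j (T D v) := by
  have := T_comm D (fun v => dA D j v) (fun u v => map_add _ u v) (fun v => 0)
    (fun v => 0) 0 ?_ ?_ v
  · rw [this]; simp
  · intro v
    rw [Z_apply, Z_apply, map_sum, add_zero]
    refine Finset.sum_congr rfl fun i _ => ?_
    rw [K1.dA_xcr, K1.dA_dA]
  · intro k v
    rw [Ok_apply, Ok_apply, map_smul, map_sum]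
    simp only [map_add, map_sum, K1.dA_xcr, K1.dA_xan, K1.dA_ycr, K1.dA_yan, K1.dA_fcr, K1.dA_fan]
    split_ifs <;> simp

lemma T_smul (a : A) (v : EE n A) :
    T D (a • v) = a • T D v + ∑ i, (D.d i a) • xcr (i, 0) v := by
  have := T_comm D (fun v => a • v) (fun u v => smul_add _ u v)
    (fun v => ∑ i, (D.d i a) • xcr (i, 0) v) (fun v => 0) 0 ?_ ?_ v
  · rw [this]; simp
  · intro v
    rw [Z_apply, Z_apply, Finset.smul_sum, ← Finset.sum_add_distrib]
    refine Finset.sum_congr rfl fun i _ => ?_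
    rw [K2.dA_smul, map_add, map_smul, map_smul, add_comm]
  · intro k v
    rw [Ok_apply, Ok_apply]
    simp only [map_smul, ← smul_add, ← Finset.smul_sum]
    rw [smul_comm]
    split_ifs <;> simp

/-! ### commutators with the modes -/

/-- induction over the creation operators -/
theorem ind {P : EE n A → Prop} (hz : P 0) (hadd : ∀ u v, P u → P v → P (u + v))
    (h0 : ∀ r, P (Finsupp.single ((0, 0, ∅) : Mon n) r)) (hx : ∀ a v, P v → P (xcr a v))
    (hy : ∀ a v, P v → P (ycr a v)) (hf : ∀ t v, P v → P (fcr t v)) : ∀ v, P v := by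
  intro v
  induction v using Finsupp.induction_linear with
  | zero => exact hz
  | add f g hf hg => exact hadd f g hf hg
  | single w r =>
    obtain ⟨X, Y, S⟩ := w
    induction X using Multiset.induction_on with
    | cons a X ih =>
      have := hx a _ ih
      rwa [xcr_single] at this
    | empty =>
      induction Y using Multiset.induction_on with
      | cons a Y ih =>
        have := hy a _ ih
        rwa [ycr_single] at this
      | empty =>
        induction S using Finset.induction_on generalizing r with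
        | empty => exact h0 r
        | insert t S ht ih =>
          have := hf t _ (ih (r * fsg A t S))
          rw [fcr_single, if_neg ht, mul_assoc, K1.fsg_mul_self, mul_one] at this
          exact this

lemma T_Sop (r : ℕ) : ∀ (g : A) (v : EE n A),
    T D (Sop D r g v) = Sop D r g (T D v) + ((r : ℂ) + 1) • Sop D (r + 1) g v := by
  induction r using Nat.strong_induction_on with
  | _ r ih =>
    intro g v
    cases r with
    | zero =>
      rw [K2.Sop_zero, K2.Sop_zero, T_smul, K2.Sop_succ, algebraMap_smul]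
      congr 1
      rw [smul_smul]
      simp [K2.Sop_zero]
    | succ r =>
      have hs : ∀ (r : ℕ) (g : A) (v : EE n A), Sop D (r + 1) g v = (1 / ((r : ℂ) + 1)) •
          ∑ i : Fin n, ∑ k ∈ Finset.range (r + 1), xcr (i, k) (Sop D (r - k) (D.d i g) v) := by
        intro r g v
        rw [K2.Sop_succ, algebraMap_smul]
        congr 1
        refine Finset.sum_congr rfl fun i _ => ?_
        exact Fin.sum_univ_eq_sum_range (fun k => xcr (i, k) (Sop D (r - k) (D.d i g) v)) (r + 1)
      have hr1 : ((r : ℂ) + 1) ≠ 0 := by exact_mod_cast Nat.succ_ne_zero r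
      have hr2 : ((r : ℂ) + 1 + 1) ≠ 0 := by exact_mod_cast Nat.succ_ne_zero (r + 1)
      rw [hs r g v, hs r g (T D v), hs (r + 1) g v, map_smul, map_sum]
      have e1 : ∀ i : Fin n, T D (∑ k ∈ Finset.range (r + 1),
          xcr (i, k) (Sop D (r - k) (D.d i g) v))
          = ∑ k ∈ Finset.range (r + 1), xcr (i, k) (Sop D (r - k) (D.d i g) (T D v))
            + ((r : ℂ) + 1) • ∑ k ∈ Finset.range (r + 2),
              xcr (i, k) (Sop D (r + 1 - k) (D.d i g) v) := by
        intro i
        rw [map_sum]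
        have e2 : ∀ k ∈ Finset.range (r + 1), T D (xcr (i, k) (Sop D (r - k) (D.d i g) v))
            = xcr (i, k) (Sop D (r - k) (D.d i g) (T D v))
              + (((r : ℂ) + 1 - k) • xcr (i, k) (Sop D (r + 1 - k) (D.d i g) v)
                + ((k : ℂ) + 1) • xcr (i, k + 1) (Sop D (r + 1 - (k + 1)) (D.d i g) v)) := by
          intro k hk
          have hk' : k ≤ r := by
            have := Finset.mem_range.mp hk
            omega
          have e3 : r - k + 1 = r + 1 - k := by omega
          have e4 : r + 1 - (k + 1) = r - k := by omega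
          rw [T_xcr, ih (r - k) (by omega), map_add, K1.csmul, e3, e4, Nat.cast_sub hk', add_assoc]
          congr 3
          ring
        rw [Finset.sum_congr rfl e2, Finset.sum_add_distrib, Finset.sum_add_distrib]
        congr 1
        have e5 : ∑ k ∈ Finset.range (r + 1),
            ((r : ℂ) + 1 - k) • xcr (i, k) (Sop D (r + 1 - k) (D.d i g) v)
            = ∑ k ∈ Finset.range (r + 2),
            ((r : ℂ) + 1 - k) • xcr (i, k) (Sop D (r + 1 - k) (D.d i g) v) := by
          rw [Finset.sum_range_succ _ (r + 1)]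
          push_cast
          rw [sub_self, zero_smul, add_zero]
        have e6 : ∑ k ∈ Finset.range (r + 1),
            ((k : ℂ) + 1) • xcr (i, k + 1) (Sop D (r + 1 - (k + 1)) (D.d i g) v)
            = ∑ k ∈ Finset.range (r + 2),
            (k : ℂ) • xcr (i, k) (Sop D (r + 1 - k) (D.d i g) v) := by
          rw [Finset.sum_range_succ' _ (r + 1)]
          push_cast
          rw [zero_smul, add_zero]
        rw [e5, e6, ← Finset.sum_add_distrib, Finset.smul_sum]
        refine Finset.sum_congr rfl fun k _ => ?_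
        rw [← add_smul]
        congr 1
        ring
      simp only [e1]
      rw [Finset.sum_add_distrib, ← Finset.smul_sum, smul_add, smul_smul, smul_smul]
      congr 1
      push_cast
      rw [one_div_mul_cancel hr1, mul_one_div_cancel hr2]

lemma T_SopZ (r : ℤ) (g : A) (v : EE n A) :
    T D (SopZ D r g v) = SopZ D r g (T D v) + ((r : ℂ) + 1) • SopZ D (r + 1) g v := by
  rcases lt_trichotomy r (-1) with h | h | h
  · rw [K2.SopZ_neg D (by omega : r < 0), K2.SopZ_neg D (by omega : r < 0),
      K2.SopZ_neg D (by omega : r + 1 < 0)]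
    simp
  · subst h
    rw [K2.SopZ_neg D (by omega : (-1 : ℤ) < 0), K2.SopZ_neg D (by omega : (-1 : ℤ) < 0)]
    simp
  · obtain ⟨s, rfl⟩ := Int.eq_ofNat_of_zero_le (by omega : 0 ≤ r)
    have : ((s : ℤ) + 1) = ((s + 1 : ℕ) : ℤ) := by push_cast; rfl
    rw [this, K2.SopZ_nat, K2.SopZ_nat, K2.SopZ_nat, T_Sop]
    push_cast
    rfl

lemma T_fnA (v : EE n A) : ∀ (f : A) (m : ℤ),
    T D (fnA D f m v) = fnA D f m (T D v) + (-(m : ℂ)) • fnA D f (m - 1) v := by
  refine ind (P := fun v => ∀ (f : A) (m : ℤ),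
    T D (fnA D f m v) = fnA D f m (T D v) + (-(m : ℂ)) • fnA D f (m - 1) v) ?_ ?_ ?_ ?_ ?_ ?_ v
  · intro f m; simp
  · intro u v hu hv f m
    simp only [map_add, hu, hv, smul_add]
    abel
  · intro r f m
    have hT : T D (Finsupp.single ((0, 0, ∅) : Mon n) r)
        = ∑ i, xcr (i, 0) (Finsupp.single ((0, 0, ∅) : Mon n) (D.d i r)) := by
      have h0 : ∀ k, Ok n A k (Finsupp.single ((0, 0, ∅) : Mon n) r) = 0 := by
        intro k
        rw [Ok_apply]
        simp [xan_single, yan_single, fan_single]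
      rw [T_eq D _ 0 (fun k _ => h0 k), Z_apply]
      simp only [K1.dA_single, Finset.range_zero, Finset.sum_empty, add_zero]
    have h1 : fnA D f m (T D (Finsupp.single ((0, 0, ∅) : Mon n) r))
        = SopZ D (-m - 1) f (T D (Finsupp.single ((0, 0, ∅) : Mon n) r)) := by
      rw [hT, map_sum, map_sum]
      refine Finset.sum_congr rfl fun i _ => ?_
      rw [← K2.xcr_fnA, K2.fnA_no_y,
        K2.comm_SopZ D (xcr (i, 0)) (fun q v => K2.xcr_xcr (i, 0) q v)]
    rw [h1, K2.fnA_no_y, K2.fnA_no_y, T_SopZ]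
    have e1 : -m - 1 + 1 = -(m - 1) - 1 := by ring
    rw [e1]
    congr 2
    push_cast
    ring
  · rintro ⟨j, l⟩ v hv f m
    rw [← K2.xcr_fnA, T_xcr, hv, T_xcr, map_add, map_add, ← K2.xcr_fnA, K1.csmul, K1.csmul,
      ← K2.xcr_fnA, ← K2.xcr_fnA]
    abel
  · rintro ⟨j, l⟩ v hv f m
    simp only [K2.fnA_ycr]
    rw [map_sub, T_ycr, hv, hv, T_ycr]
    simp only [map_add, K2.fnA_ycr, K1.csmul]
    have e1 : m - 1 - (l : ℤ) - 1 = m - l - 1 - 1 := by ring
    have e2 : m - ((l + 1 : ℕ) : ℤ) - 1 = m - l - 1 - 1 := by push_cast; ring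
    rw [e1, e2]
    push_cast
    module
  · intro t v hv f m
    obtain ⟨s, j, l, rfl⟩ : ∃ (s : Bool) (j : Fin n) (l : ℕ), t = fl s j l :=
      ⟨(ofLex t).1, (ofLex (ofLex t).2).1, (ofLex (ofLex t).2).2, rfl⟩
    rw [← K2.fcr_fnA, T_fcr, hv, T_fcr, map_add, map_add, ← K2.fcr_fnA, K1.csmul, K1.csmul,
      ← K2.fcr_fnA, ← K2.fcr_fnA]
    abel

end TOp

end K3

section K3
variable {n : ℕ} {A : Type*} [CommRing A] [Algebra ℂ A] (D : DS n A)

/-- The translation operator exists (K3 may define it in any convenient way). -/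
theorem exists_T : ∃ T : EE n A →ₗ[ℂ] EE n A, T (vacE n A) = 0 ∧
    (∀ i (m : ℤ) v, T (xMo n A i m v) - xMo n A i m (T v) = (-(m : ℂ)) • xMo n A i (m - 1) v) ∧
    (∀ i (m : ℤ) v, T (βMo D i m v) - βMo D i m (T v) = (-(m : ℂ)) • βMo D i (m - 1) v) ∧
    (∀ t i (m : ℤ) v, T (fMo n A t i m v) - fMo n A t i m (T v)
      = (-(m : ℂ)) • fMo n A t i (m - 1) v) ∧
    (∀ f (m : ℤ) v, T (fnMo D f m v) - fnMo D f m (T v) = (-(m : ℂ)) • fnMo D f (m - 1) v) := by
  refine ⟨K3.T D, ?_, ?_, ?_, ?_, ?_⟩
  · have h0 : ∀ k, K3.Ok n A k (vacE n A) = 0 := by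
      intro k
      rw [K3.Ok_apply]
      simp [vacE, xan_single, yan_single, fan_single]
    rw [K3.T_eq D _ 0 (fun k _ => h0 k), K3.Z_apply]
    simp [vacE, K1.dA_single]
  · intro i m v
    rcases lt_trichotomy m 0 with h | h | h
    · obtain ⟨l, hl⟩ := Int.eq_ofNat_of_zero_le (by omega : 0 ≤ -m - 1)
      have hm : m = -(l : ℤ) - 1 := by omega
      subst hm
      rw [K1.xMo_neg i _ h, K1.xMo_neg i _ h, K1.xMo_neg i _ (by omega)]
      have e1 : (-(-(l : ℤ) - 1) - 1).toNat = l := by omega
      have e2 : (-(-(l : ℤ) - 1 - 1) - 1).toNat = l + 1 := by omega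
      rw [e1, e2, K3.T_xcr, add_sub_cancel_left]
      push_cast
      congr 1
      ring
    · subst h
      rw [K1.xMo_zero, K1.xMo_zero]
      simp
    · obtain ⟨l, hl⟩ := Int.eq_ofNat_of_zero_le (by omega : 0 ≤ m - 1)
      have hm : m = (l : ℤ) + 1 := by omega
      subst hm
      rw [K1.xMo_pos i _ h, K1.xMo_pos i _ h]
      have e1 : ((l : ℤ) + 1 - 1).toNat = l := by omega
      rw [e1, map_smul]
      cases l with
      | zero =>
        rw [K3.T_yan_zero]
        have e2 : ((0 : ℕ) : ℤ) + 1 - 1 = 0 := by norm_num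
        rw [e2, K1.xMo_zero]
        simp
      | succ l =>
        rw [K3.T_yan_succ, K1.xMo_pos i _ (by push_cast; omega)]
        have e3 : (((l + 1 : ℕ) : ℤ) + 1 - 1 - 1).toNat = l := by omega
        rw [e3]
        push_cast
        module
  · intro i m v
    rcases lt_trichotomy m 0 with h | h | h
    · obtain ⟨l, hl⟩ := Int.eq_ofNat_of_zero_le (by omega : 0 ≤ -m - 1)
      have hm : m = -(l : ℤ) - 1 := by omega
      subst hm
      rw [K1.βMo_neg D i _ h, K1.βMo_neg D i _ h, K1.βMo_neg D i _ (by omega)]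
      have e1 : (-(-(l : ℤ) - 1) - 1).toNat = l := by omega
      have e2 : (-(-(l : ℤ) - 1 - 1) - 1).toNat = l + 1 := by omega
      rw [e1, e2, K3.T_ycr, add_sub_cancel_left]
      push_cast
      congr 1
      ring
    · subst h
      rw [K1.βMo_zero, K1.βMo_zero, K3.T_dA]
      simp
    · obtain ⟨l, hl⟩ := Int.eq_ofNat_of_zero_le (by omega : 0 ≤ m - 1)
      have hm : m = (l : ℤ) + 1 := by omega
      subst hm
      rw [K1.βMo_pos D i _ h, K1.βMo_pos D i _ h]
      have e1 : ((l : ℤ) + 1 - 1).toNat = l := by omega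
      rw [e1, map_smul]
      cases l with
      | zero =>
        rw [K3.T_xan_zero]
        have e2 : ((0 : ℕ) : ℤ) + 1 - 1 = 0 := by norm_num
        rw [e2, K1.βMo_zero]
        push_cast
        module
      | succ l =>
        rw [K3.T_xan_succ, K1.βMo_pos D i _ (by push_cast; omega)]
        have e3 : (((l + 1 : ℕ) : ℤ) + 1 - 1 - 1).toNat = l := by omega
        rw [e3]
        push_cast
        module
  · intro t i m v
    rcases lt_or_ge m 0 with h | h
    · obtain ⟨l, hl⟩ := Int.eq_ofNat_of_zero_le (by omega : 0 ≤ -m - 1)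
      have hm : m = -(l : ℤ) - 1 := by omega
      subst hm
      rw [K1.fMo_neg t i _ h, K1.fMo_neg t i _ h, K1.fMo_neg t i _ (by omega)]
      have e1 : (-(-(l : ℤ) - 1) - 1).toNat = l := by omega
      have e2 : (-(-(l : ℤ) - 1 - 1) - 1).toNat = l + 1 := by omega
      rw [e1, e2, K3.T_fcr, add_sub_cancel_left]
      push_cast
      congr 1
      ring
    · obtain ⟨l, hl⟩ := Int.eq_ofNat_of_zero_le h
      subst hl
      rw [K1.fMo_nonneg t i _ h, K1.fMo_nonneg t i _ h]
      cases l with
      | zero =>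
        have e1 : ((0 : ℕ) : ℤ).toNat = 0 := rfl
        rw [e1, K3.T_fan_zero]
        simp
      | succ l =>
        rw [K1.fMo_nonneg t i _ (by push_cast; omega)]
        have e1 : ((l + 1 : ℕ) : ℤ).toNat = l + 1 := by omega
        have e3 : (((l + 1 : ℕ) : ℤ) - 1).toNat = l := by omega
        rw [e1, e3, K3.T_fan_succ]
        push_cast
        module
  · intro f m v
    change K3.T D (fnA D f m v) - fnA D f m (K3.T D v) = (-(m : ℂ)) • fnA D f (m - 1) v
    rw [K3.T_fnA]
    abel

/-- spanning -/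
theorem span_EE (S : AddSubgroup (EE n A)) (h0 : vacE n A ∈ S)
    (hx : ∀ i (m : ℤ), ∀ v ∈ S, xMo n A i m v ∈ S)
    (hβ : ∀ i (m : ℤ), ∀ v ∈ S, βMo D i m v ∈ S)
    (hf : ∀ t i (m : ℤ), ∀ v ∈ S, fMo n A t i m v ∈ S)
    (hfn : ∀ f (m : ℤ), ∀ v ∈ S, fnMo D f m v ∈ S) : S = ⊤ := by
  rw [AddSubgroup.eq_top_iff']
  refine K3.ind S.zero_mem (fun u v hu hv => S.add_mem hu hv) ?_ ?_ ?_ ?_
  · intro r
    have := hfn r (-1) _ h0
    rw [vacE, fnMo_neg_one, mul_one] at this
    exact this
  · rintro ⟨i, k⟩ v hv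
    have := hx i (-(k : ℤ) - 1) v hv
    rw [K1.xMo_neg i _ (by omega)] at this
    have e1 : (-(-(k : ℤ) - 1) - 1).toNat = k := by omega
    rwa [e1] at this
  · rintro ⟨i, k⟩ v hv
    have := hβ i (-(k : ℤ) - 1) v hv
    rw [K1.βMo_neg D i _ (by omega)] at this
    have e1 : (-(-(k : ℤ) - 1) - 1).toNat = k := by omega
    rwa [e1] at this
  · intro t v hv
    obtain ⟨s, i, k, rfl⟩ : ∃ (s : Bool) (i : Fin n) (k : ℕ), t = fl s i k :=
      ⟨(ofLex t).1, (ofLex (ofLex t).2).1, (ofLex (ofLex t).2).2, rfl⟩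
    have := hf s i (-(k : ℤ) - 1) v hv
    rw [K1.fMo_neg s i _ (by omega)] at this
    have e1 : (-(-(k : ℤ) - 1) - 1).toNat = k := by omega
    rwa [e1] at this

end K3

end Pool.Agent.AA3
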