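import Pool.Agent.Lib.MP_aa3aaf_al.Exist
import Pool.Agent.Lib.MP_aa3aaf_al.FockCCR
import Pool.Agent.Lib.MP_aa3aaf_al.FockT
import Pool.Agent.Lib.MP_aa3aaf_al.FockFn
import Pool.Agent.Lib.MP_aa3aaf_al.VCalc
import Pool.Agent.Lib.MP_aa3aaf_al.CD

/-!
The vertex superalgebra structure on the Fock space `EE n A` and its chiral data.
-/

set_option autoImplicit false
open scoped BigOperators
noncomputable section
namespace Pool.Agent.AA3

namespace K4

/-- Labels of the generating fields. -/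
inductive Lab (n : ℕ) (A : Type*)
  | x (i : Fin n)
  | y (i : Fin n)
  | f (t : Bool) (i : Fin n)
  | g (a : A)

section Basic
variable {n : ℕ} {A : Type*} [CommRing A] [Algebra ℂ A] (D : DS n A)

/-- The generating fields. -/
def gen : Lab n A → Fld (EE n A)
  | .x i => xF n A i
  | .y i => βF D i
  | .f t i => ⟨fMo n A t i, fMo_mem t i⟩
  | .g a => fnF D a

/-- The parities of the generating fields. -/
def par : Lab n A → ℕ
  | .x _ => 0
  | .y _ => 0
  | .f _ _ => 1
  | .g _ => 0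

/-- Parity as a `ℂ`-linear map. -/
def sgC (n : ℕ) (A : Type*) [CommRing A] [Algebra ℂ A] : EE n A →ₗ[ℂ] EE n A :=
  (sgE n A).restrictScalars ℂ

lemma sgC_apply (v : EE n A) : sgC n A v = sgE n A v := rfl

lemma loc0 {a b : Fld (EE n A)} (h : ∀ (m k : ℤ) v, a.1 m (b.1 k v) = b.1 k (a.1 m v)) :
    Loc ((-1 : ℂ) ^ 0) 0 a b := by
  refine Loc.of_comm (fun _ _ => 0) fun m k v => ?_
  rw [pow_zero, one_smul, h, sub_self, Finset.sum_range_zero]

lemma gen_loc (γ δ : Lab n A) :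
    ∃ N, Loc ((-1 : ℂ) ^ (par γ * par δ)) N (gen D γ) (gen D δ) := by
  rcases γ with i | i | ⟨t, i⟩ | f <;> rcases δ with j | j | ⟨s, j⟩ | g <;>
    simp only [par, mul_zero, mul_one]
  · exact ⟨0, loc0 fun m k v => xMo_xMo i j m k v⟩
  · refine ⟨2, Loc.of_comm (fun r k => if r = 1 ∧ k = -1 ∧ i = j then LinearMap.id else 0)
      fun m k v => ?_⟩
    have h := βMo_xMo D j i k m v
    rw [Finset.sum_range_succ, Finset.sum_range_one]
    have e : xMo n A i m (βMo D j k v) - (-1 : ℂ) ^ 0 • βMo D j k (xMo n A i m v)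
        = -(βMo D j k (xMo n A i m v) - xMo n A i m (βMo D j k v)) := by
      rw [pow_zero, one_smul]; abel
    change xMo n A i m (βMo D j k v) - (-1 : ℂ) ^ 0 • βMo D j k (xMo n A i m v) = _
    rw [e, h]
    by_cases hc : k + m = 0 ∧ j = i
    · obtain ⟨h1, rfl⟩ := hc
      have h2 : m + k = 0 := by omega
      have h3 : (k : ℂ) = -(m : ℂ) := by
        have : k = -m := by omega
        rw [this]; push_cast; ring
      simp [h1, h2, h3, bin]
    · have h4 : ¬ (m + k - ((1 : ℕ) : ℤ) = -1 ∧ i = j) := by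
        rintro ⟨h1, rfl⟩
        exact hc ⟨by push_cast at h1; omega, rfl⟩
      rw [if_neg hc, if_neg (by simp), if_neg (by rintro ⟨-, h⟩; exact h4 h)]
      simp
  · exact ⟨0, loc0 fun m k v => xMo_fMo s i j m k v⟩
  · exact ⟨0, loc0 fun m k v => xMo_fnMo D i g m k v⟩
  · refine ⟨2, Loc.of_comm (fun r k => if r = 1 ∧ k = -1 ∧ i = j then LinearMap.id else 0)
      fun m k v => ?_⟩
    have h := βMo_xMo D i j m k v
    rw [Finset.sum_range_succ, Finset.sum_range_one]
    change βMo D i m (xMo n A j k v) - (-1 : ℂ) ^ 0 • xMo n A j k (βMo D i m v) = _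
    rw [pow_zero, one_smul, h]
    by_cases hc : m + k = 0 ∧ i = j
    · obtain ⟨h1, rfl⟩ := hc
      simp [h1, bin]
    · have h4 : ¬ (m + k - ((1 : ℕ) : ℤ) = -1 ∧ i = j) := by
        rintro ⟨h1, rfl⟩
        exact hc ⟨by push_cast at h1; omega, rfl⟩
      rw [if_neg hc, if_neg (by simp), if_neg (by rintro ⟨-, h⟩; exact h4 h)]
      simp
  · exact ⟨0, loc0 fun m k v => βMo_βMo D i j m k v⟩
  · exact ⟨0, loc0 fun m k v => βMo_fMo D s i j m k v⟩
  · refine ⟨1, Loc.of_comm (fun _ k => fnMo D (D.d i g) k) fun m k v => ?_⟩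
    rw [Finset.sum_range_one]
    change βMo D i m (fnMo D g k v) - (-1 : ℂ) ^ 0 • fnMo D g k (βMo D i m v) = _
    rw [pow_zero, one_smul, βMo_fnMo]
    simp [bin]
  · exact ⟨0, loc0 fun m k v => (xMo_fMo t j i k m v).symm⟩
  · exact ⟨0, loc0 fun m k v => (βMo_fMo D t j i k m v).symm⟩
  · refine ⟨1, Loc.of_comm (fun _ k => if t ≠ s ∧ i = j ∧ k = -1 then LinearMap.id else 0)
      fun m k v => ?_⟩
    rw [Finset.sum_range_one]
    change fMo n A t i m (fMo n A s j k v) - (-1 : ℂ) ^ 1 • fMo n A s j k (fMo n A t i m v) = _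
    rw [pow_one, neg_smul, one_smul, sub_neg_eq_add, fMo_fMo]
    by_cases hc : t ≠ s ∧ i = j ∧ m + k = -1
    · rw [if_pos hc, if_pos (by simpa using hc)]
      simp [bin]
    · rw [if_neg hc, if_neg (by simpa using hc)]
      simp
  · exact ⟨0, loc0 fun m k v => fMo_fnMo D t i g m k v⟩
  · exact ⟨0, loc0 fun m k v => (xMo_fnMo D j f k m v).symm⟩
  · refine ⟨1, Loc.of_comm (fun _ k => -fnMo D (D.d j f) k) fun m k v => ?_⟩
    rw [Finset.sum_range_one]
    change fnMo D f m (βMo D j k v) - (-1 : ℂ) ^ 0 • βMo D j k (fnMo D f m v) = _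
    have h := βMo_fnMo D j f k m v
    have e : fnMo D f m (βMo D j k v) - (-1 : ℂ) ^ 0 • βMo D j k (fnMo D f m v)
        = -(βMo D j k (fnMo D f m v) - fnMo D f m (βMo D j k v)) := by
      rw [pow_zero, one_smul]; abel
    rw [e, h]
    simp [bin, add_comm]
  · exact ⟨0, loc0 fun m k v => (fMo_fnMo D s j f k m v).symm⟩
  · exact ⟨0, loc0 fun m k v => fnMo_fnMo D f g m k v⟩

/-- The vertex superalgebra structure. -/
lemma exists_V : ∃ V : VSA (EE n A), V.vac = vacE n A ∧ V.sg = sgC n A ∧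
    ∀ γ, V.Y ((gen D γ).1 (-1) (vacE n A)) = (gen D γ).1 := by
  obtain ⟨T, hT0, hTx, hTy, hTf, hTg⟩ := exists_T D
  obtain ⟨V, h1, h2, -, h4⟩ := exists_VSA (gen D) par (sgC n A) T (vacE n A)
    (fun v => sgE_sgE v) sgE_vac hT0
    (by
      rintro (i | i | ⟨t, i⟩ | f) m v
      · rw [par, pow_zero, one_smul]; exact sgE_xMo i m v
      · rw [par, pow_zero, one_smul]; exact sgE_βMo D i m v
      · rw [par, pow_one, neg_smul, one_smul]; exact sgE_fMo t i m v
      · rw [par, pow_zero, one_smul]; exact sgE_fnMo D f m v)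
    (by
      rintro (i | i | ⟨t, i⟩ | f) m v
      · exact hTx i m v
      · exact hTy i m v
      · exact hTf t i m v
      · exact hTg f m v)
    (by
      rintro (i | i | ⟨t, i⟩ | f) m
      · exact xMo_vac i m
      · exact βMo_vac D i m
      · exact fMo_vac t i m
      · exact fnMo_vac D f m)
    (gen_loc D)
    (by
      intro S h0 hS
      have := span_EE D S.toAddSubgroup h0 (fun i m v hv => hS (.x i) m v hv)
        (fun i m v hv => hS (.y i) m v hv) (fun t i m v hv => hS (.f t i) m v hv)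
        (fun f m v hv => hS (.g f) m v hv)
      rw [eq_top_iff]
      intro v _
      have hv : v ∈ S.toAddSubgroup := this ▸ AddSubgroup.mem_top v
      exact hv)
  exact ⟨V, h1, h2, h4⟩

lemma fn_eq (f : A) : fnMo D f (-1) (vacE n A) = Finsupp.single ((0, 0, ∅) : Mon n) f := by
  rw [vacE, fnMo_neg_one, mul_one]

lemma fn_add (f g : A) (m : ℕ) :
    fnMo D f m (Finsupp.single ((0, 0, ∅) : Mon n) g) = 0 := by
  rw [← fn_eq D g, fnMo_fnMo, fnMo_vac, map_zero]

lemma x_neg (i : Fin n) (v : EE n A) (g : A) :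
    xMo n A i (-1) (g • v) = g • xMo n A i (-1) v := by
  simp [xMo]

end Basic

end K4

/-! ### The chiral data -/
section K4
variable {n : ℕ} {A : Type*} [CommRing A] [Algebra ℂ A] (D : DS n A)

open K4 in
/-- existence of the vertex superalgebra structure with its chiral data -/
theorem exists_vsaE : ∃ (V : VSA (EE n A)) (G : CD n D V), V.vac = vacE n A ∧
    (∀ v, V.sg v = sgE n A v) ∧
    (∀ f, G.fn f = Finsupp.single ((0, 0, ∅) : Mon n) f) ∧
    (∀ i, V.Y (G.x i) = xMo n A i) ∧ (∀ i, V.Y (G.β i) = βMo D i) ∧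
    (∀ i, V.Y (G.c i) = fMo n A false i) ∧ (∀ i, V.Y (G.b i) = fMo n A true i) ∧
    (∀ f, V.Y (G.fn f) = fnMo D f) := by
  obtain ⟨V, hvac, hsg, hY⟩ := exists_V D
  have hsg' : ∀ v, V.sg v = sgE n A v := fun v => by rw [hsg]; rfl
  have Yx : ∀ i, V.Y (xMo n A i (-1) (vacE n A)) = xMo n A i := fun i => hY (.x i)
  have Yβ : ∀ i, V.Y (βMo D i (-1) (vacE n A)) = βMo D i := fun i => hY (.y i)
  have Yf : ∀ t i, V.Y (fMo n A t i (-1) (vacE n A)) = fMo n A t i := fun t i => hY (.f t i)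
  have Yg : ∀ f, V.Y (Finsupp.single ((0, 0, ∅) : Mon n) f) = fnMo D f := fun f => by
    have := hY (.g f)
    change V.Y (fnMo D f (-1) (vacE n A)) = fnMo D f at this
    rwa [fn_eq] at this
  have neg_one_add : ∀ k : ℕ, ((k + 1 : ℕ) : ℤ) + -1 = (k : ℤ) := fun k => by push_cast; ring
  refine ⟨V,
    { fn := Finsupp.lsingle ((0, 0, ∅) : Mon n)
      x := fun i => xMo n A i (-1) (vacE n A)
      β := fun i => βMo D i (-1) (vacE n A)
      b := fun i => fMo n A true i (-1) (vacE n A)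
      c := fun i => fMo n A false i (-1) (vacE n A)
      par_fn := ?_
      par_x := ?_
      par_β := ?_
      par_b := ?_
      par_c := ?_
      fn_one := ?_
      fn_mul := ?_
      T_fn := ?_
      fn_fn := ?_
      x_fn := ?_
      b_fn := ?_
      c_fn := ?_
      β_fn_zero := ?_
      β_fn_succ := ?_
      x_x := ?_
      β_β := ?_
      β_x := ?_
      x_β := ?_
      b_b := ?_
      c_c := ?_
      b_c := ?_
      c_b := ?_
      x_b := ?_
      x_c := ?_
      β_b := ?_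
      β_c := ?_ }, hvac, hsg', fun f => rfl, Yx, Yβ, Yf false, Yf true, Yg⟩
  · intro f
    change V.sg (Finsupp.single ((0, 0, ∅) : Mon n) f)
      = (-1 : ℂ) ^ 0 • Finsupp.single ((0, 0, ∅) : Mon n) f
    rw [hsg', ← fn_eq D, sgE_fnMo, sgE_vac, pow_zero, one_smul]
  · intro i
    change V.sg _ = _
    rw [hsg', sgE_xMo, sgE_vac, pow_zero, one_smul]
  · intro i
    change V.sg _ = _
    rw [hsg', sgE_βMo, sgE_vac, pow_zero, one_smul]
  · intro i
    change V.sg _ = _
    rw [hsg', sgE_fMo, sgE_vac, pow_one, neg_smul, one_smul]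
  · intro i
    change V.sg _ = _
    rw [hsg', sgE_fMo, sgE_vac, pow_one, neg_smul, one_smul]
  · exact hvac.symm
  · intro f g
    change V.Y (Finsupp.single ((0, 0, ∅) : Mon n) f) (-1)
      (Finsupp.single ((0, 0, ∅) : Mon n) g) = Finsupp.single ((0, 0, ∅) : Mon n) (f * g)
    rw [Yg, fnMo_neg_one]
  · intro f
    change V.Y (Finsupp.single ((0, 0, ∅) : Mon n) f) (-2) V.vac = ∑ i,
      V.Y (Finsupp.single ((0, 0, ∅) : Mon n) (D.d i f)) (-1) (xMo n A i (-1) (vacE n A))
    rw [Yg, hvac, fnMo_neg_two]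
    refine Finset.sum_congr rfl fun i _ => ?_
    rw [Yg, ← xMo_fnMo, fn_eq, ← x_neg, vacE, Finsupp.smul_single, smul_eq_mul, mul_one]
  · intro k f g
    change V.Y (Finsupp.single ((0, 0, ∅) : Mon n) f) k
      (Finsupp.single ((0, 0, ∅) : Mon n) g) = 0
    rw [Yg, fn_add]
  · intro k i f
    change V.Y (xMo n A i (-1) (vacE n A)) k (Finsupp.single ((0, 0, ∅) : Mon n) f) = 0
    rw [Yx, ← fn_eq D, xMo_fnMo, xMo_vac, map_zero]
  · intro k i f
    change V.Y (fMo n A true i (-1) (vacE n A)) k (Finsupp.single ((0, 0, ∅) : Mon n) f) = 0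
    rw [Yf, ← fn_eq D, fMo_fnMo, fMo_vac, map_zero]
  · intro k i f
    change V.Y (fMo n A false i (-1) (vacE n A)) k (Finsupp.single ((0, 0, ∅) : Mon n) f) = 0
    rw [Yf, ← fn_eq D, fMo_fnMo, fMo_vac, map_zero]
  · intro i f
    change V.Y (βMo D i (-1) (vacE n A)) 0 (Finsupp.single ((0, 0, ∅) : Mon n) f)
      = Finsupp.single ((0, 0, ∅) : Mon n) (D.d i f)
    have h := βMo_fnMo D i f ((0 : ℕ) : ℤ) (-1) (vacE n A)
    rw [βMo_vac, map_zero, sub_zero] at h
    rw [Yβ, ← fn_eq D, ← fn_eq D]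
    simpa using h
  · intro k i f
    change V.Y (βMo D i (-1) (vacE n A)) (k + 1 : ℕ) (Finsupp.single ((0, 0, ∅) : Mon n) f) = 0
    have h := βMo_fnMo D i f ((k + 1 : ℕ) : ℤ) (-1) (vacE n A)
    rw [βMo_vac, map_zero, sub_zero, neg_one_add, fnMo_vac] at h
    rw [Yβ, ← fn_eq D, h]
  · intro k i j
    change V.Y (xMo n A i (-1) (vacE n A)) k (xMo n A j (-1) (vacE n A)) = 0
    rw [Yx, xMo_xMo, xMo_vac, map_zero]
  · intro k i j
    change V.Y (βMo D i (-1) (vacE n A)) k (βMo D j (-1) (vacE n A)) = 0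
    rw [Yβ, βMo_βMo, βMo_vac, map_zero]
  · intro k i j
    have h := βMo_xMo D i j (k : ℤ) (-1) (vacE n A)
    rw [βMo_vac, map_zero, sub_zero] at h
    rw [Yβ, h, hvac]
    by_cases hc : k = 1 ∧ i = j
    · obtain ⟨rfl, rfl⟩ := hc
      simp
    · rw [if_neg hc, if_neg]
      rintro ⟨h1, h2⟩
      exact hc ⟨by omega, h2⟩
  · intro k i j
    have h := βMo_xMo D j i (-1) (k : ℤ) (vacE n A)
    rw [xMo_vac, map_zero, zero_sub, neg_eq_iff_eq_neg] at h
    rw [Yx, h, hvac]
    by_cases hc : k = 1 ∧ i = j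
    · obtain ⟨rfl, rfl⟩ := hc
      simp
    · rw [if_neg hc, if_neg, neg_zero]
      rintro ⟨h1, h2⟩
      exact hc ⟨by omega, h2.symm⟩
  · intro k i j
    change V.Y (fMo n A true i (-1) (vacE n A)) k (fMo n A true j (-1) (vacE n A)) = 0
    have h := fMo_fMo true true i j (k : ℤ) (-1) (vacE n A)
    rw [fMo_vac, map_zero, add_zero, if_neg (by simp)] at h
    rw [Yf, h]
  · intro k i j
    change V.Y (fMo n A false i (-1) (vacE n A)) k (fMo n A false j (-1) (vacE n A)) = 0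
    have h := fMo_fMo false false i j (k : ℤ) (-1) (vacE n A)
    rw [fMo_vac, map_zero, add_zero, if_neg (by simp)] at h
    rw [Yf, h]
  · intro k i j
    have h := fMo_fMo true false i j (k : ℤ) (-1) (vacE n A)
    rw [fMo_vac, map_zero, add_zero] at h
    rw [Yf, h, hvac]
    by_cases hc : k = 0 ∧ i = j
    · obtain ⟨rfl, rfl⟩ := hc
      simp
    · rw [if_neg hc, if_neg]
      rintro ⟨-, h1, h2⟩
      exact hc ⟨by omega, h1⟩
  · intro k i j
    have h := fMo_fMo false true i j (k : ℤ) (-1) (vacE n A)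
    rw [fMo_vac, map_zero, add_zero] at h
    rw [Yf, h, hvac]
    by_cases hc : k = 0 ∧ i = j
    · obtain ⟨rfl, rfl⟩ := hc
      simp
    · rw [if_neg hc, if_neg]
      rintro ⟨-, h1, h2⟩
      exact hc ⟨by omega, h1⟩
  · intro k i j
    change V.Y (xMo n A i (-1) (vacE n A)) k (fMo n A true j (-1) (vacE n A)) = 0
    rw [Yx, xMo_fMo, xMo_vac, map_zero]
  · intro k i j
    change V.Y (xMo n A i (-1) (vacE n A)) k (fMo n A false j (-1) (vacE n A)) = 0
    rw [Yx, xMo_fMo, xMo_vac, map_zero]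
  · intro k i j
    change V.Y (βMo D i (-1) (vacE n A)) k (fMo n A true j (-1) (vacE n A)) = 0
    rw [Yβ, βMo_fMo, βMo_vac, map_zero]
  · intro k i j
    change V.Y (βMo D i (-1) (vacE n A)) k (fMo n A false j (-1) (vacE n A)) = 0
    rw [Yβ, βMo_fMo, βMo_vac, map_zero]

/-- the vertex superalgebra on the Fock space -/
def vsaE : VSA (EE n A) := (exists_vsaE D).choose
/-- its chiral data -/
def cdE : CD n D (vsaE D) := (exists_vsaE D).choose_spec.choose

theorem vsaE_vac : (vsaE D).vac = vacE n A := (exists_vsaE D).choose_spec.choose_spec.1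
theorem vsaE_sg (v : EE n A) : (vsaE D).sg v = sgE n A v :=
  (exists_vsaE D).choose_spec.choose_spec.2.1 v
theorem cdE_fn (f : A) : (cdE D).fn f = Finsupp.single ((0, 0, ∅) : Mon n) f :=
  (exists_vsaE D).choose_spec.choose_spec.2.2.1 f
theorem Y_x (i : Fin n) : (vsaE D).Y ((cdE D).x i) = xMo n A i :=
  (exists_vsaE D).choose_spec.choose_spec.2.2.2.1 i
theorem Y_β (i : Fin n) : (vsaE D).Y ((cdE D).β i) = βMo D i :=
  (exists_vsaE D).choose_spec.choose_spec.2.2.2.2.1 i
theorem Y_c (i : Fin n) : (vsaE D).Y ((cdE D).c i) = fMo n A false i :=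
  (exists_vsaE D).choose_spec.choose_spec.2.2.2.2.2.1 i
theorem Y_b (i : Fin n) : (vsaE D).Y ((cdE D).b i) = fMo n A true i :=
  (exists_vsaE D).choose_spec.choose_spec.2.2.2.2.2.2.1 i
theorem Y_fn (f : A) : (vsaE D).Y ((cdE D).fn f) = fnMo D f :=
  (exists_vsaE D).choose_spec.choose_spec.2.2.2.2.2.2.2 f

/-- the set of generating states -/
def genE : Set (EE n A) :=
  Set.range (cdE D).x ∪ Set.range (cdE D).β ∪ Set.range (cdE D).c ∪ Set.range (cdE D).b ∪
    Set.range (cdE D).fn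

theorem genE_span (S : AddSubgroup (EE n A)) (h0 : (vsaE D).vac ∈ S)
    (h : ∀ g ∈ genE D, ∀ n, ∀ v ∈ S, (vsaE D).Y g n v ∈ S) : S = ⊤ := by
  refine span_EE D S (vsaE_vac D ▸ h0) ?_ ?_ ?_ ?_
  · intro i m v hv
    have := h ((cdE D).x i) (by simp [genE]) m v hv
    rwa [Y_x] at this
  · intro i m v hv
    have := h ((cdE D).β i) (by simp [genE]) m v hv
    rwa [Y_β] at this
  · intro t i m v hv
    cases t
    · have := h ((cdE D).c i) (by simp [genE]) m v hv
      rwa [Y_c] at this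
    · have := h ((cdE D).b i) (by simp [genE]) m v hv
      rwa [Y_b] at this
  · intro f m v hv
    have := h ((cdE D).fn f) (by simp [genE]) m v hv
    rwa [Y_fn] at this

namespace K4

variable {D} in
lemma const_hom (f : A) (hf : ∀ i, D.d i f = 0) {q : ℕ} {a : EE n A}
    (ha : (vsaE D).Par q a) (v : EE n A) (m : ℤ) :
    (vsaE D).Y (f • a) m v = f • (vsaE D).Y a m v ∧
      (vsaE D).Y a m (f • v) = f • (vsaE D).Y a m v := by
  have hc : ∀ (k : ℤ) (u : EE n A), (vsaE D).Y ((cdE D).fn f) k u = if k = -1 then f • u else 0 :=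
    fun k u => by rw [Y_fn, fnMo_const D f hf]
  have hc0 : ∀ (k : ℕ) (u : EE n A), (vsaE D).Y ((cdE D).fn f) k u = 0 := fun k u => by
    rw [hc, if_neg (by omega)]
  have hp : (vsaE D).Par 0 ((cdE D).fn f) := (cdE D).par_fn f
  constructor
  · obtain ⟨N, hN⟩ := (vsaE D).trunc a v
    have hb : ∀ j : ℕ, (N - m).toNat + 1 ≤ j →
        (vsaE D).Y a (m + j) v = 0 ∧ (vsaE D).Y ((cdE D).fn f) j v = 0 := fun j hj =>
      ⟨hN _ (by omega), hc0 j v⟩
    have h := (vsaE D).assoc 0 q ((cdE D).fn f) a hp ha (-1) m v ((N - m).toNat + 1) hb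
    rw [hc, if_pos rfl] at h
    rw [h, Finset.sum_eq_single 0]
    · simp only [hc0, map_zero, smul_zero, sub_zero]
      have e1 : (-1 : ℤ) - ((0 : ℕ) : ℤ) = -1 := by norm_num
      rw [e1, hc, if_pos rfl]
      simp [bin]
    · intro j _ hj
      rw [hc0, map_zero, smul_zero, sub_zero, hc, if_neg (by omega), smul_zero]
    · intro h0
      exact absurd (Finset.mem_range.mpr (Nat.succ_pos _)) h0
  · have h := (vsaE D).comm_of_regular hp ha (fun j => hc0 j a) (-1) m v
    rw [hc, if_pos rfl, hc, if_pos rfl, zero_mul, pow_zero, one_smul] at h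
    exact h.symm

end K4

/-- modes of all states are linear over constants -/
theorem Y_const_smul (f : A) (hf : ∀ i, D.d i f = 0) (a v : EE n A) (m : ℤ) :
    (vsaE D).Y (f • a) m v = f • (vsaE D).Y a m v ∧
      (vsaE D).Y a m (f • v) = f • (vsaE D).Y a m v := by
  have h0 : (vsaE D).Par 0 ((1 / 2 : ℂ) • (a + (vsaE D).sg a)) := by
    rw [VSA.Par, map_smul, map_add, (vsaE D).sg_sg, pow_zero, one_smul, add_comm]
  have h1 : (vsaE D).Par 1 ((1 / 2 : ℂ) • (a - (vsaE D).sg a)) := by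
    rw [VSA.Par, map_smul, map_sub, (vsaE D).sg_sg, pow_one, neg_smul, one_smul, ← smul_neg,
      neg_sub]
  have ea : a = (1 / 2 : ℂ) • (a + (vsaE D).sg a) + (1 / 2 : ℂ) • (a - (vsaE D).sg a) := by
    rw [← smul_add, add_add_sub_cancel, ← two_smul ℂ a, smul_smul]
    norm_num
  obtain ⟨e1, e2⟩ := K4.const_hom f hf h0 v m
  obtain ⟨e3, e4⟩ := K4.const_hom f hf h1 v m
  set a0 := (1 / 2 : ℂ) • (a + (vsaE D).sg a)
  set a1 := (1 / 2 : ℂ) • (a - (vsaE D).sg a)
  rw [ea]
  constructor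
  · rw [smul_add, map_add, map_add, Pi.add_apply, Pi.add_apply, LinearMap.add_apply,
      LinearMap.add_apply, e1, e3, smul_add]
  · rw [map_add, Pi.add_apply, LinearMap.add_apply, LinearMap.add_apply, e2, e4, smul_add]

end K4

end Pool.Agent.AA3
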