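import Pool.Agent.Lib.MP_aa3aaf_al.Exist
import Pool.Agent.Lib.MP_aa3aaf_al.VCalc
import Pool.Agent.Lib.MP_aa3aaf_al.FockVSA
import Pool.Agent.Lib.MP_aa3aaf_al.CFrame
import Pool.Agent.Lib.MP_aa3aaf_al.CZero
import Pool.Agent.Lib.MP_aa3aaf_al.Ops

/-!
States and fields on the Fock space: products of fields are fields of products, the
supersymmetry operator is `D = Q₁ + Q₂`, and the coordinate formula is the field of a state.
-/

set_option autoImplicit false
open scoped BigOperators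
noncomputable section
namespace Pool.Agent.AA3

/-! ### auxiliary lemmas -/
namespace B2

section General
variable {E : Type*} [AddCommGroup E] [Module ℂ E]

lemma npTerm_add_right (q : ℂ) (n : ℤ) (a b c : ℤ → Module.End ℂ E) (k : ℤ) (v : E) (j : ℕ) :
    npTerm q n a (b + c) k v j = npTerm q n a b k v j + npTerm q n a c k v j := by
  simp only [npTerm, Pi.add_apply, LinearMap.add_apply, map_add, smul_add, smul_sub]
  abel

lemma np_add_right (q : ℂ) (n : ℤ) (a b c : Fld E) :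
    np q n a (b + c) = np q n a b + np q n a c := by
  apply Subtype.ext
  funext k
  ext v
  change (np q n a (b + c)).1 k v = (np q n a b).1 k v + (np q n a c).1 k v
  rw [np_apply, np_apply, np_apply,
    ← finsum_add_distrib (npTerm_support_finite q n a b k v) (npTerm_support_finite q n a c k v)]
  refine finsum_congr fun j => ?_
  exact npTerm_add_right q n a.1 b.1 c.1 k v j

variable (V : VSA E)

/-- even part of a state -/
def ev (a : E) : E := (1 / 2 : ℂ) • (a + V.sg a)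
/-- odd part of a state -/
def od (a : E) : E := (1 / 2 : ℂ) • (a - V.sg a)

lemma ev_add_od (a : E) : ev V a + od V a = a := by
  rw [ev, od, ← smul_add]
  have : a + V.sg a + (a - V.sg a) = (2 : ℂ) • a := by
    rw [two_smul]; abel
  rw [this, smul_smul]
  norm_num

lemma ev_sub_od (a : E) : ev V a - od V a = V.sg a := by
  rw [ev, od, ← smul_sub]
  have : a + V.sg a - (a - V.sg a) = (2 : ℂ) • V.sg a := by
    rw [two_smul]; abel
  rw [this, smul_smul]
  norm_num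

lemma par_ev (a : E) : V.Par 0 (ev V a) := by
  rw [VSA.Par, ev, map_smul, map_add, V.sg_sg, pow_zero, one_smul, add_comm]

lemma par_od (a : E) : V.Par 1 (od V a) := by
  rw [VSA.Par, od, map_smul, map_sub, V.sg_sg, pow_one, smul_smul, mul_comm, ← smul_smul,
    neg_smul, one_smul, neg_sub]

lemma Yf_add' (a b : E) : V.Yf (a + b) = V.Yf a + V.Yf b := by
  apply Subtype.ext
  change V.Y (a + b) = V.Y a + V.Y b
  rw [map_add]

lemma Yf_sub' (a b : E) : V.Yf (a - b) = V.Yf a - V.Yf b := by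
  apply Subtype.ext
  change V.Y (a - b) = V.Y a - V.Y b
  rw [map_sub]

lemma Yf_smul' (c : ℂ) (a : E) : V.Yf (c • a) = c • V.Yf a := by
  apply Subtype.ext
  change V.Y (c • a) = c • V.Y a
  rw [map_smul]

lemma Yf_zero' : V.Yf 0 = 0 := by
  apply Subtype.ext
  change V.Y 0 = 0
  rw [map_zero]

lemma Yf_sum' {ι : Type*} (s : Finset ι) (f : ι → E) :
    V.Yf (∑ i ∈ s, f i) = ∑ i ∈ s, V.Yf (f i) := by
  classical
  induction s using Finset.induction_on with
  | empty => simp [Yf_zero']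
  | insert i s hi ih => rw [Finset.sum_insert hi, Finset.sum_insert hi, Yf_add', ih]

lemma Yf_inj' : Function.Injective V.Yf := by
  intro a b h
  have h1 : V.Y a = V.Y b := congrArg Subtype.val h
  rw [← V.create a, ← V.create b, h1]

lemma cj_Yf (a : E) : cj V.sg (V.Yf a) = V.Yf (V.sg a) := by
  apply Subtype.ext
  funext m
  ext v
  change V.sg (V.Y a m (V.sg v)) = V.Y (V.sg a) m v
  rw [V.sg_Y, V.sg_sg]

lemma evF_Yf (a : E) : evF V.sg (V.Yf a) = V.Yf (ev V a) := by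
  rw [evF, cj_Yf, ← Yf_add', ← Yf_smul', ev]

lemma odF_Yf (a : E) : odF V.sg (V.Yf a) = V.Yf (od V a) := by
  rw [odF, cj_Yf, ← Yf_sub', ← Yf_smul', od]

lemma nprod_Yf' (a b : E) (m : ℤ) :
    nprod V.sg m (V.Yf a) (V.Yf b) = V.Yf (V.Y a m b) := by
  have h00 := V.np_Yf (par_ev V a) (par_ev V b) m
  have h01 := V.np_Yf (par_ev V a) (par_od V b) m
  have h10 := V.np_Yf (par_od V a) (par_ev V b) m
  have h11 := V.np_Yf (par_od V a) (par_od V b) m
  simp only [mul_zero, mul_one, pow_zero, pow_one] at h00 h01 h10 h11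
  have hb : V.Yf b = V.Yf (ev V b) + V.Yf (od V b) := by rw [← Yf_add', ev_add_od]
  rw [nprod, evF_Yf, evF_Yf, odF_Yf, odF_Yf]
  rw [hb, np_add_right, h00, h01, h10, h11, ← Yf_add', ← Yf_add', ← Yf_add']
  congr 1
  rw [← map_add, ev_add_od, add_assoc, ← map_add, ev_add_od]
  change (V.Y (ev V a) + V.Y (od V a)) m b = _
  rw [← map_add, ev_add_od]

/-- odd derivations on arbitrary states -/
lemma oder_Y {X : E →ₗ[ℂ] E} (hX : CD.ODer V X) (a : E) (m : ℤ) (v : E) :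
    X (V.Y a m v) = V.Y (X a) m v + V.Y (V.sg a) m (X v) := by
  have h0 := hX.2 0 (ev V a) m v (par_ev V a)
  have h1 := hX.2 1 (od V a) m v (par_od V a)
  rw [pow_zero, one_smul] at h0
  rw [pow_one, neg_smul, one_smul] at h1
  have ha : V.Y a = V.Y (ev V a) + V.Y (od V a) := by rw [← map_add, ev_add_od]
  have hs : V.Y (V.sg a) = V.Y (ev V a) - V.Y (od V a) := by rw [← map_sub, ev_sub_od]
  have hXa : V.Y (X a) = V.Y (X (ev V a)) + V.Y (X (od V a)) := by
    rw [← map_add, ← map_add, ev_add_od]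
  rw [ha, hs, hXa]
  simp only [Pi.add_apply, Pi.sub_apply, LinearMap.add_apply, LinearMap.sub_apply, map_add]
  rw [h0, h1]
  abel

lemma oder_T {X : E →ₗ[ℂ] E} (hX : CD.ODer V X) (h0 : X V.vac = 0) (a : E) :
    X (V.T a) = V.T (X a) := by
  change X (V.Y a (-2) V.vac) = V.Y (X a) (-2) V.vac
  rw [oder_Y V hX, h0, map_zero, add_zero]

/-- the square of an odd derivation is an even derivation -/
lemma oder_sq {X : E →ₗ[ℂ] E} (hX : CD.ODer V X) {p : ℕ} {a : E} (ha : V.Par p a) (m : ℤ)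
    (v : E) : X (X (V.Y a m v)) = V.Y (X (X a)) m v + V.Y a m (X (X v)) := by
  have h1 : V.Par (p + 1) (X a) := hX.1 p a ha
  rw [hX.2 p a m v ha, map_add, map_smul, hX.2 (p + 1) (X a) m v h1, hX.2 p a m (X v) ha,
    smul_add, smul_smul, ← mul_pow, pow_succ, neg_mul_neg, one_mul, one_pow, one_smul]
  rw [mul_neg, mul_one, neg_smul]
  abel

lemma oder_vac {X : E →ₗ[ℂ] E} (hX : CD.ODer V X) : X V.vac = 0 := by
  have h := hX.2 0 V.vac (-1) V.vac (by rw [VSA.Par, V.sg_vac, pow_zero, one_smul])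
  rw [V.create, pow_zero, one_smul, V.create, V.Y_vac, if_pos rfl] at h
  have h2 : X V.vac = X V.vac + X V.vac := h
  exact left_eq_add.mp h2

end General

end B2

/-! ### states and fields on the Fock space -/
section B2
variable {n : ℕ} {A : Type*} [CommRing A] [Algebra ℂ A] (D : DS n A)

lemma B2.sgC_eq : sgC n A = (vsaE D).sg := by
  refine LinearMap.ext fun v => ?_
  exact (vsaE_sg D v).symm

theorem nprod_Yf (a b : EE n A) (m : ℤ) :
    nprod (sgC n A) m ((vsaE D).Yf a) ((vsaE D).Yf b) = (vsaE D).Yf ((vsaE D).Y a m b) := by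
  rw [B2.sgC_eq D]
  exact B2.nprod_Yf' _ a b m

lemma B2.nop_Yf (a b : EE n A) :
    nop ((vsaE D).Yf a) ((vsaE D).Yf b) = (vsaE D).Yf ((vsaE D).mul a b) :=
  nprod_Yf D a b (-1)

lemma B2.xF_eq (i : Fin n) : xF n A i = (vsaE D).Yf ((cdE D).x i) :=
  Subtype.ext (Y_x D i).symm
lemma B2.βF_eq (i : Fin n) : βF D i = (vsaE D).Yf ((cdE D).β i) :=
  Subtype.ext (Y_β D i).symm
lemma B2.cF_eq (i : Fin n) : cF n A i = (vsaE D).Yf ((cdE D).c i) :=
  Subtype.ext (Y_c D i).symm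
lemma B2.bF_eq (i : Fin n) : bF n A i = (vsaE D).Yf ((cdE D).b i) :=
  Subtype.ext (Y_b D i).symm
lemma B2.fnF_eq (f : A) : fnF D f = (vsaE D).Yf ((cdE D).fn f) :=
  Subtype.ext (Y_fn D f).symm

theorem susyOp_eq : susyOp D = (cdE D).DD := by
  rw [susyOp, CD.DD, CD.Q1, CD.Q2, ← Finset.sum_add_distrib]
  refine Finset.sum_congr rfl fun i _ => ?_
  rw [B2.cF_eq D, B2.βF_eq D, B2.bF_eq D, B2.xF_eq D, B2.nop_Yf, B2.nop_Yf]
  rfl

theorem DD_ODer : CD.ODer (vsaE D) (cdE D).DD := (cdE D).ODer_DD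

theorem scomm_Yf (a : EE n A) :
    scomm (sgC n A) (susyOp D) ((vsaE D).Yf a) = (vsaE D).Yf ((cdE D).DD a) := by
  rw [susyOp_eq, B2.sgC_eq D]
  apply Subtype.ext
  funext m
  refine LinearMap.ext fun v => ?_
  change (cdE D).DD ((vsaE D).Y a m v)
      - (vsaE D).sg ((vsaE D).Y a m ((vsaE D).sg ((cdE D).DD v)))
    = (vsaE D).Y ((cdE D).DD a) m v
  rw [B2.oder_Y (vsaE D) (DD_ODer D), (vsaE D).sg_Y, (vsaE D).sg_sg, add_sub_cancel_right]

theorem idFld_eq : idFld (EE n A) = (vsaE D).Yf (vacE n A) := by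
  apply Subtype.ext
  funext m
  change (if m = -1 then LinearMap.id else 0) = (vsaE D).Y (vacE n A) m
  rw [← vsaE_vac D, (vsaE D).Y_vac]

theorem Yf_inj : Function.Injective (vsaE D).Yf := B2.Yf_inj' _
theorem Yf_add (a b : EE n A) : (vsaE D).Yf (a + b) = (vsaE D).Yf a + (vsaE D).Yf b :=
  B2.Yf_add' _ a b
theorem Yf_smul (c : ℂ) (a : EE n A) : (vsaE D).Yf (c • a) = c • (vsaE D).Yf a :=
  B2.Yf_smul' _ c a

end B2

namespace B2
section
variable {n : ℕ} {A : Type*} [CommRing A] [Algebra ℂ A] {D : DS n A}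
  {E : Type*} [AddCommGroup E] [Module ℂ E] {V : VSA E} (G : CD n D V)

lemma DD_c (i : Fin n) : G.DD (G.c i) = G.x i := by
  rw [CD.DD, LinearMap.add_apply, G.Q1_c, G.Q2_c, zero_add]
lemma DD_b (i : Fin n) : G.DD (G.b i) = G.β i := by
  rw [CD.DD, LinearMap.add_apply, G.Q1_b, G.Q2_b, add_zero]
lemma DD_x (i : Fin n) : G.DD (G.x i) = V.T (G.c i) := by
  rw [CD.DD, LinearMap.add_apply, G.Q1_x, G.Q2_x, add_zero]
lemma DD_β (i : Fin n) : G.DD (G.β i) = V.T (G.b i) := by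
  rw [CD.DD, LinearMap.add_apply, G.Q1_β, G.Q2_β, zero_add]
lemma DD_fn (f : A) : G.DD (G.fn f) = ∑ i, G.fm (D.d i f) (G.c i) := by
  rw [CD.DD, LinearMap.add_apply, G.Q1_fn, G.Q2_fn, add_zero]

lemma c_c_anti (i j : Fin n) : V.mul (G.c i) (G.c j) = - V.mul (G.c j) (G.c i) :=
  G.mul_anti (G.odd_c i) (G.odd_c j) 0 (by rw [zero_smul]; exact_mod_cast G.c_c 0 i j)
    (fun k => G.c_c (k + 1) i j)

lemma DD_DD_fn (f : A) : G.DD (G.DD (G.fn f)) = V.T (G.fn f) := by
  have hD := G.ODer_DD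
  have h1 : ∀ i, G.DD (G.fm (D.d i f) (G.c i)) =
      (∑ j, G.fm (D.d j (D.d i f)) (V.mul (G.c j) (G.c i))) + G.fm (D.d i f) (G.x i) := by
    intro i
    have h2 := hD.2 0 (G.fn (D.d i f)) (-1) (G.c i) (G.par_fn _)
    rw [pow_zero, one_smul, DD_c, DD_fn] at h2
    rw [CD.fm, h2]
    congr 1
    have h3 : V.Y (∑ j, G.fm (D.d j (D.d i f)) (G.c j)) (-1) (G.c i)
        = ∑ j, V.mul (G.fm (D.d j (D.d i f)) (G.c j)) (G.c i) := by
      change V.mul _ _ = _
      rw [map_sum, LinearMap.sum_apply]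
    rw [h3]
    refine Finset.sum_congr rfl fun j _ => ?_
    rw [G.mul_fm_left (G.odd_c j) (G.odd_c i) 0 (by rw [map_zero]; exact_mod_cast G.c_c 0 j i)
      (fun k => G.c_c (k + 1) j i)]
    simp only [mul_zero, CD.fm, map_zero, Pi.zero_apply, LinearMap.zero_apply,
      Finset.sum_const_zero, add_zero]
  rw [DD_fn, map_sum, Finset.sum_congr rfl (fun i _ => h1 i), Finset.sum_add_distrib]
  have h4 : ∑ i, ∑ j, G.fm (D.d j (D.d i f)) (V.mul (G.c j) (G.c i)) = 0 := by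
    have h5 : ∑ i, ∑ j, G.fm (D.d j (D.d i f)) (V.mul (G.c j) (G.c i))
        = - ∑ i, ∑ j, G.fm (D.d j (D.d i f)) (V.mul (G.c j) (G.c i)) := by
      conv_lhs => rw [Finset.sum_comm]
      rw [← Finset.sum_neg_distrib]
      refine Finset.sum_congr rfl fun i _ => ?_
      rw [← Finset.sum_neg_distrib]
      refine Finset.sum_congr rfl fun j _ => ?_
      rw [D.comm, c_c_anti G i j]
      simp only [CD.fm, map_neg]
    have h6 : (2 : ℂ) • ∑ i, ∑ j, G.fm (D.d j (D.d i f)) (V.mul (G.c j) (G.c i)) = 0 := by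
      rw [two_smul]
      nth_rewrite 1 [h5]
      exact neg_add_cancel _
    exact (smul_eq_zero.mp h6).resolve_left two_ne_zero
  rw [h4, zero_add, G.T_fn]
  rfl

end
end B2

section B2
variable {n : ℕ} {A : Type*} [CommRing A] [Algebra ℂ A] (D : DS n A)

theorem DD_sq (v : EE n A) : (cdE D).DD ((cdE D).DD v) = (vsaE D).T v := by
  have hD := DD_ODer D
  have hvac := B2.oder_vac (vsaE D) hD
  have key : ∀ g ∈ genE D, (∃ p : ℕ, (vsaE D).Par p g) ∧
      (cdE D).DD ((cdE D).DD g) = (vsaE D).T g := by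
    intro g hg
    rcases hg with (((⟨i, rfl⟩ | ⟨i, rfl⟩) | ⟨i, rfl⟩) | ⟨i, rfl⟩) | ⟨f, rfl⟩
    · refine ⟨⟨0, (cdE D).par_x i⟩, ?_⟩
      rw [B2.DD_x, B2.oder_T (vsaE D) hD hvac, B2.DD_c]
    · refine ⟨⟨0, (cdE D).par_β i⟩, ?_⟩
      rw [B2.DD_β, B2.oder_T (vsaE D) hD hvac, B2.DD_b]
    · refine ⟨⟨1, (cdE D).par_c i⟩, ?_⟩
      rw [B2.DD_c, B2.DD_x]
    · refine ⟨⟨1, (cdE D).par_b i⟩, ?_⟩
      rw [B2.DD_b, B2.DD_β]
    · exact ⟨⟨0, (cdE D).par_fn f⟩, B2.DD_DD_fn _ f⟩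
  let S : AddSubgroup (EE n A) :=
    { carrier := {v | (cdE D).DD ((cdE D).DD v) = (vsaE D).T v}
      zero_mem' := by simp
      add_mem' := by
        intro a b ha hb
        change (cdE D).DD ((cdE D).DD (a + b)) = (vsaE D).T (a + b)
        have ha' : (cdE D).DD ((cdE D).DD a) = (vsaE D).T a := ha
        have hb' : (cdE D).DD ((cdE D).DD b) = (vsaE D).T b := hb
        rw [map_add, map_add, map_add, ha', hb']
      neg_mem' := by
        intro a ha
        change (cdE D).DD ((cdE D).DD (-a)) = (vsaE D).T (-a)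
        have ha' : (cdE D).DD ((cdE D).DD a) = (vsaE D).T a := ha
        rw [map_neg, map_neg, map_neg, ha'] }
  have hS : S = ⊤ := by
    refine genE_span D S ?_ ?_
    · change (cdE D).DD ((cdE D).DD (vsaE D).vac) = (vsaE D).T (vsaE D).vac
      rw [hvac, map_zero, (vsaE D).T_vac]
    · intro g hg m w hw
      obtain ⟨⟨p, hp⟩, h2⟩ := key g hg
      have hw' : (cdE D).DD ((cdE D).DD w) = (vsaE D).T w := hw
      change (cdE D).DD ((cdE D).DD ((vsaE D).Y g m w)) = (vsaE D).T ((vsaE D).Y g m w)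
      rw [B2.oder_sq (vsaE D) hD hp, h2, hw', (vsaE D).T_Y]
  have hv : v ∈ S := by rw [hS]; trivial
  exact hv

/-- the state of `∑_j g^{ij} b_j ± c^i` -/
def Est (s : ℂ) (gi : Matrix (Fin n) (Fin n) A) (i : Fin n) : EE n A :=
  ∑ j, (cdE D).fm (gi i j) ((cdE D).b j) + s • (cdE D).c i

/-- the state of the coordinate formula with coefficient `q` of the Christoffel term -/
def formSt (s q : ℂ) (gi : Matrix (Fin n) (Fin n) A) (Γ p : Fin n → Fin n → Fin n → A) :
    EE n A :=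
  ∑ i, ∑ j, ∑ k, (cdE D).fm (p i j k)
      ((vsaE D).mul (Est D s gi i) ((vsaE D).mul (Est D s gi j) (Est D s gi k)))
    + q • ∑ l, ∑ k, (cdE D).fm (∑ i, ∑ j, ∑ m, gi i j * Γ m l i * p m j k)
        ((vsaE D).mul ((cdE D).x l) (Est D s gi k))

lemma B2.formSection_gen (s κ q : ℂ) (hκ : 3 * κ = κ ^ 3 * q) (gi : Matrix (Fin n) (Fin n) A)
    (Γ p : Fin n → Fin n → Fin n → A) (e : Fin n → Fld (EE n A))
    (he : ∀ i, e i = (vsaE D).Yf (κ • Est D s gi i)) :
    formSection D gi Γ p e = κ ^ 3 • (vsaE D).Yf (formSt D s q gi Γ p) := by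
  have h1 : ∀ i j k, nop (fnF D (p i j k)) (nop (e i) (nop (e j) (e k)))
      = κ ^ 3 • (vsaE D).Yf ((cdE D).fm (p i j k)
      ((vsaE D).mul (Est D s gi i) ((vsaE D).mul (Est D s gi j) (Est D s gi k)))) := by
    intro i j k
    rw [he, he, he, B2.fnF_eq, B2.nop_Yf, B2.nop_Yf, B2.nop_Yf, ← Yf_smul]
    congr 1
    simp only [map_smul, LinearMap.smul_apply, smul_smul]
    congr 1
    ring
  have h2 : ∀ l k, nop (fnF D (∑ i, ∑ j, ∑ m, gi i j * Γ m l i * p m j k))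
        (nop (xF n A l) (e k))
      = κ • (vsaE D).Yf ((cdE D).fm (∑ i, ∑ j, ∑ m, gi i j * Γ m l i * p m j k)
        ((vsaE D).mul ((cdE D).x l) (Est D s gi k))) := by
    intro l k
    rw [he, B2.fnF_eq, B2.xF_eq D, B2.nop_Yf, B2.nop_Yf, ← Yf_smul]
    congr 1
    simp only [map_smul]
    rfl
  rw [formSection]
  simp only [h1, h2]
  simp only [← Finset.smul_sum, ← B2.Yf_sum']
  rw [smul_smul, hκ, ← smul_smul, ← smul_add, ← Yf_smul, ← Yf_add]
  rfl

lemma B2.est_field (s : ℂ) (gi : Matrix (Fin n) (Fin n) A) (i : Fin n) :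
    ∑ j, nop (fnF D (gi i j)) (bF n A j) + s • cF n A i = (vsaE D).Yf (Est D s gi i) := by
  rw [Est, Yf_add, Yf_smul, B2.Yf_sum', B2.cF_eq D]
  congr 1
  refine Finset.sum_congr rfl fun j _ => ?_
  rw [B2.fnF_eq, B2.bF_eq D, B2.nop_Yf]
  rfl

theorem formSection_plus (gi : Matrix (Fin n) (Fin n) A) (Γ p : Fin n → Fin n → Fin n → A) :
    formSection D gi Γ p (ePlus D gi)
      = (1 / (Real.sqrt 2 : ℂ)) ^ 3 • (vsaE D).Yf (formSt D 1 6 gi Γ p) := by
  have h2 : (Real.sqrt 2 : ℂ) ^ 2 = 2 := by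
    rw [← Complex.ofReal_pow, Real.sq_sqrt (by norm_num)]; norm_num
  have h0 : (Real.sqrt 2 : ℂ) ≠ 0 := by
    intro h; rw [h] at h2; norm_num at h2
  refine B2.formSection_gen D 1 _ 6 ?_ gi Γ p _ fun i => ?_
  · field_simp
    rw [h2]; norm_num
  · rw [Yf_smul, ← B2.est_field, one_smul]
    rfl

theorem formSection_minus (gi : Matrix (Fin n) (Fin n) A) (Γ p : Fin n → Fin n → Fin n → A) :
    formSection D gi Γ p (eMinus D gi)
      = (1 / ((Real.sqrt 2 : ℂ) * Complex.I)) ^ 3 • (vsaE D).Yf (formSt D (-1) (-6) gi Γ p) := by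
  have h2 : (Real.sqrt 2 : ℂ) ^ 2 = 2 := by
    rw [← Complex.ofReal_pow, Real.sq_sqrt (by norm_num)]; norm_num
  have h0 : (Real.sqrt 2 : ℂ) ≠ 0 := by
    intro h; rw [h] at h2; norm_num at h2
  have h3 : ((Real.sqrt 2 : ℂ) * Complex.I) ^ 2 = -2 := by
    rw [mul_pow, h2, Complex.I_sq]; norm_num
  have h4 : (Real.sqrt 2 : ℂ) * Complex.I ≠ 0 := mul_ne_zero h0 Complex.I_ne_zero
  refine B2.formSection_gen D (-1) _ (-6) ?_ gi Γ p _ fun i => ?_
  · generalize (Real.sqrt 2 : ℂ) * Complex.I = z at h3 h4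
    field_simp
    rw [h3]; norm_num
  · rw [Yf_smul, ← B2.est_field, neg_smul, one_smul, ← sub_eq_add_neg]
    rfl

end B2

end Pool.Agent.AA3
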