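import Pool.Agent.Lib.MP_aa3aaf_al.TwistDef

/-!
The ring `R[ε]` with the derivations `ε ∂ᵢ`, evaluation at `ε = t` and the leading term.
-/

set_option autoImplicit false
open scoped BigOperators
noncomputable section
namespace Pool.Agent.AA3

section K6
variable {n : ℕ} {R : Type*} [CommRing R] [Algebra ℂ R]

/-- the derivations `t ∂ᵢ` -/
def DS.scale (D : DS n R) (t : ℂ) : DS n R where
  d i := t • D.d i
  comm i j a := by
    simp only [Derivation.coe_smul, Pi.smul_apply, Derivation.map_smul, D.comm i j]

namespace K6

/-- `p ↦ X * p^d` (coefficientwise `d`) -/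
def epsLin (d : Derivation ℂ R R) : Polynomial R →ₗ[ℂ] Polynomial R where
  toFun p := p.sum fun k a => Polynomial.monomial (k + 1) (d a)
  map_add' p q := by
    apply Polynomial.sum_add_index
    · intro k; simp
    · intro k a b; simp
  map_smul' c p := by
    rw [Polynomial.sum_smul_index']
    · simp only [RingHom.id_apply, Polynomial.sum, Finset.smul_sum, Derivation.map_smul,
        Polynomial.smul_monomial]
    · intro k; simp

theorem epsLin_monomial (d : Derivation ℂ R R) (k : ℕ) (a : R) :
    epsLin d (Polynomial.monomial k a) = Polynomial.monomial (k + 1) (d a) := by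
  simp [epsLin, Polynomial.sum_monomial_index]

theorem coeff_epsLin (d : Derivation ℂ R R) (p : Polynomial R) (k : ℕ) :
    (epsLin d p).coeff (k + 1) = d (p.coeff k) := by
  induction p using Polynomial.induction_on' with
  | add p q hp hq => simp only [map_add, Polynomial.coeff_add, hp, hq]
  | monomial m a =>
    rw [epsLin_monomial, Polynomial.coeff_monomial, Polynomial.coeff_monomial]
    by_cases h : m = k
    · simp [h]
    · simp [h]

theorem coeff_epsLin_zero (d : Derivation ℂ R R) (p : Polynomial R) :
    (epsLin d p).coeff 0 = 0 := by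
  induction p using Polynomial.induction_on' with
  | add p q hp hq => simp only [map_add, Polynomial.coeff_add, hp, hq, add_zero]
  | monomial m a =>
    rw [epsLin_monomial, Polynomial.coeff_monomial]
    simp

theorem epsLin_mul (d : Derivation ℂ R R) (p q : Polynomial R) :
    epsLin d (p * q) = p • epsLin d q + q • epsLin d p := by
  induction p using Polynomial.induction_on' with
  | add p p' hp hp' =>
    rw [add_mul, map_add, map_add, hp, hp', add_smul, smul_add]; abel
  | monomial m a =>
    induction q using Polynomial.induction_on' with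
    | add q q' hq hq' =>
      rw [mul_add, map_add, map_add, hq, hq', add_smul, smul_add]; abel
    | monomial k b =>
      rw [Polynomial.monomial_mul_monomial, epsLin_monomial, epsLin_monomial, epsLin_monomial,
        smul_eq_mul, smul_eq_mul, Polynomial.monomial_mul_monomial,
        Polynomial.monomial_mul_monomial, Derivation.leibniz, map_add, smul_eq_mul, smul_eq_mul]
      rw [← add_assoc, ← add_assoc, add_comm k m]

/-- the derivation `p ↦ X * p^d` -/
def epsDer (d : Derivation ℂ R R) : Derivation ℂ (Polynomial R) (Polynomial R) :=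
  Derivation.mk' (epsLin d) (epsLin_mul d)

theorem epsDer_apply (d : Derivation ℂ R R) (p : Polynomial R) : epsDer d p = epsLin d p := rfl

/-- `p ↦ X p'` as a `ℂ`-linear map -/
def degLin : Polynomial R →ₗ[ℂ] Polynomial R where
  toFun p := p.sum fun k a => Polynomial.monomial k ((k : ℂ) • a)
  map_add' p q := by
    apply Polynomial.sum_add_index
    · intro k; simp
    · intro k a b; simp
  map_smul' c p := by
    rw [Polynomial.sum_smul_index']
    · simp only [RingHom.id_apply, Polynomial.sum, Finset.smul_sum, Polynomial.smul_monomial,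
        smul_comm c]
    · intro k; simp

theorem degLin_monomial (k : ℕ) (a : R) :
    degLin (Polynomial.monomial k a) = Polynomial.monomial k ((k : ℂ) • a) := by
  simp [degLin, Polynomial.sum_monomial_index]

theorem coeff_degLin (p : Polynomial R) (k : ℕ) :
    (degLin p).coeff k = (k : ℂ) • p.coeff k := by
  induction p using Polynomial.induction_on' with
  | add p q hp hq => simp only [map_add, Polynomial.coeff_add, hp, hq, smul_add]
  | monomial m a =>
    rw [degLin_monomial, Polynomial.coeff_monomial, Polynomial.coeff_monomial]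
    by_cases h : m = k
    · simp [h]
    · simp [h]

theorem degLin_mul (p q : Polynomial R) :
    degLin (p * q) = p • degLin q + q • degLin p := by
  induction p using Polynomial.induction_on' with
  | add p p' hp hp' =>
    rw [add_mul, map_add, map_add, hp, hp', add_smul, smul_add]; abel
  | monomial m a =>
    induction q using Polynomial.induction_on' with
    | add q q' hq hq' =>
      rw [mul_add, map_add, map_add, hq, hq', add_smul, smul_add]; abel
    | monomial k b =>
      rw [Polynomial.monomial_mul_monomial, degLin_monomial, degLin_monomial, degLin_monomial,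
        smul_eq_mul, smul_eq_mul, Polynomial.monomial_mul_monomial,
        Polynomial.monomial_mul_monomial, add_comm k m, ← map_add]
      congr 1
      rw [mul_smul_comm, mul_smul_comm, mul_comm b a, ← add_smul]
      push_cast
      rw [add_comm]

theorem tw_one (h : Polynomial R →+* R) (v : EE n (Polynomial R)) (w : Mon n) :
    tw h 1 1 v w = h (v w) := by
  induction v using Finsupp.induction_linear with
  | zero => simp
  | add f g hf hg => simp only [map_add, Finsupp.add_apply, hf, hg]
  | single u a =>
    simp only [tw, Finsupp.liftAddHom_apply_single, AddMonoidHom.comp_apply,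
      Finsupp.singleAddHom_apply, inv_one, one_pow, mul_one, Units.val_one, map_one,
      AddMonoidHom.coe_mulLeft, one_mul, RingHom.toAddMonoidHom_eq_coe,
      AddMonoidHom.coe_coe]
    by_cases hu : u = w
    · subst hu; simp
    · rw [Finsupp.single_eq_of_ne (Ne.symm hu), Finsupp.single_eq_of_ne (Ne.symm hu), map_zero]

end K6

/-- the derivations `ε ∂ᵢ` of `R[ε]` -/
theorem exists_eps (D : DS n R) : ∃ D' : DS n (Polynomial R),
    ∀ i p k, (D'.d i p).coeff (k + 1) = D.d i (p.coeff k) ∧ (D'.d i p).coeff 0 = 0 := by
  refine ⟨⟨fun i => K6.epsDer (D.d i), ?_⟩, ?_⟩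
  · intro i j a
    simp only [K6.epsDer_apply]
    ext k
    rcases k with _ | k
    · rw [K6.coeff_epsLin_zero, K6.coeff_epsLin_zero]
    · rw [K6.coeff_epsLin, K6.coeff_epsLin]
      rcases k with _ | k
      · rw [K6.coeff_epsLin_zero, K6.coeff_epsLin_zero, map_zero, map_zero]
      · rw [K6.coeff_epsLin, K6.coeff_epsLin, D.comm]
  · intro i p k
    exact ⟨K6.coeff_epsLin _ _ _, K6.coeff_epsLin_zero _ _⟩

def DS.eps (D : DS n R) : DS n (Polynomial R) := (exists_eps D).choose

theorem DS.eps_eval (D : DS n R) (t : ℂ) (i : Fin n) (p : Polynomial R) :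
    Polynomial.eval (algebraMap ℂ R t) ((D.eps).d i p)
      = (D.scale t).d i (Polynomial.eval (algebraMap ℂ R t) p) := by
  have hD : ∀ q : Polynomial R, (D.eps).d i q = K6.epsLin (D.d i) q := by
    intro q
    ext k
    rcases k with _ | k
    · rw [K6.coeff_epsLin_zero]; exact ((exists_eps D).choose_spec i q 0).2
    · rw [K6.coeff_epsLin]; exact ((exists_eps D).choose_spec i q k).1
  rw [hD]
  induction p using Polynomial.induction_on' with
  | add p q hp hq => simp only [map_add, Polynomial.eval_add, hp, hq]
  | monomial m a =>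
    rw [K6.epsLin_monomial, Polynomial.eval_monomial, Polynomial.eval_monomial]
    have h1 : (algebraMap ℂ R t) ^ m = algebraMap ℂ R (t ^ m) := by rw [map_pow]
    simp only [DS.scale, Derivation.coe_smul, Pi.smul_apply]
    have h2 : (D.d i) (a * algebraMap ℂ R (t ^ m)) = (D.d i) a * algebraMap ℂ R (t ^ m) := by
      rw [mul_comm a, ← Algebra.smul_def, Derivation.map_smul, Algebra.smul_def, mul_comm]
    rw [pow_succ, h1, h2, Algebra.smul_def]
    ring

/-- the derivation `ε ∂/∂ε` -/
theorem exists_epsdeps : ∃ δ : Derivation ℂ (Polynomial R) (Polynomial R),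
    ∀ p k, (δ p).coeff k = (k : ℂ) • p.coeff k :=
  ⟨Derivation.mk' K6.degLin K6.degLin_mul, fun p k => K6.coeff_degLin p k⟩

/-- evaluation at `ε = t` -/
def evE (t : ℂ) : EE n (Polynomial R) →+ EE n R :=
  tw (Polynomial.evalRingHom (algebraMap ℂ R t)) 1 1

namespace K6

theorem evE_apply (t : ℂ) (v : EE n (Polynomial R)) (w : Mon n) :
    evE t v w = Polynomial.eval (algebraMap ℂ R t) (v w) := tw_one _ v w

end K6

theorem evE_zero_eq (v : EE n (Polynomial R)) (h : evE 0 v = 0) :
    ∃ w : EE n (Polynomial R), v = (Polynomial.X : Polynomial R) • w := by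
  refine ⟨Finsupp.mapRange Polynomial.divX Polynomial.divX_zero v, ?_⟩
  ext w : 1
  have h1 : Polynomial.eval 0 (v w) = 0 := by
    have := K6.evE_apply 0 v w
    rw [h, map_zero] at this
    exact this.symm
  rw [Finsupp.smul_apply, Finsupp.mapRange_apply, smul_eq_mul]
  conv_lhs => rw [← Polynomial.X_mul_divX_add (v w)]
  rw [Polynomial.coeff_zero_eq_eval_zero, h1, map_zero, add_zero]

omit [Algebra ℂ R] in
theorem X_smul_inj (v : EE n (Polynomial R)) (h : (Polynomial.X : Polynomial R) • v = 0) :
    v = 0 := by
  ext w : 1
  have h1 := DFunLike.congr_fun h w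
  rw [Finsupp.smul_apply, smul_eq_mul, Finsupp.zero_apply] at h1
  rw [Finsupp.zero_apply]
  ext k
  have h2 := congrArg (fun q => Polynomial.coeff q (k + 1)) h1
  simpa [Polynomial.coeff_X_mul] using h2

theorem exists_leading (v : EE n (Polynomial R)) (hv : v ≠ 0) :
    ∃ (m : ℕ) (w : EE n (Polynomial R)),
      v = ((Polynomial.X : Polynomial R) ^ m) • w ∧ evE 0 w ≠ 0 := by
  by_contra hcon
  push Not at hcon
  have key : ∀ m : ℕ, ∃ w : EE n (Polynomial R), v = ((Polynomial.X : Polynomial R) ^ m) • w := by
    intro m
    induction m with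
    | zero => exact ⟨v, by rw [pow_zero, one_smul]⟩
    | succ m ih =>
      obtain ⟨w, hw⟩ := ih
      obtain ⟨w', hw'⟩ := evE_zero_eq w (hcon m w hw)
      exact ⟨w', by rw [pow_succ, mul_smul, ← hw', ← hw]⟩
  apply hv
  ext u : 1
  rw [Finsupp.zero_apply]
  obtain ⟨w, hw⟩ := key ((v u).natDegree + 1)
  have h1 : (Polynomial.X : Polynomial R) ^ ((v u).natDegree + 1) ∣ v u := by
    refine ⟨w u, ?_⟩
    conv_lhs => rw [hw]
    rfl
  rw [Polynomial.X_pow_dvd_iff] at h1
  ext k
  rw [Polynomial.coeff_zero]
  rcases Nat.lt_or_ge k ((v u).natDegree + 1) with hk | hk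
  · exact h1 k hk
  · exact Polynomial.coeff_eq_zero_of_natDegree_lt (by omega)

end K6

end Pool.Agent.AA3
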