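import Pool.Agent.Lib.MP_aa3aaf_al.Fld

/-!
Locality of fields, the commutator formula and Dong's lemma (task F1).
-/

set_option autoImplicit false
open scoped BigOperators
noncomputable section
namespace Pool.Agent.AA3

/-! ### binomial coefficients -/

namespace F1

lemma bin_zero_right (n : ℤ) : bin n 0 = 1 := by
  simp [bin]

lemma bin_zero_succ (j : ℕ) : bin 0 (j + 1) = 0 := by
  have : Ring.choose (0 : ℤ) (j + 1) = 0 := Ring.choose_zero_succ ℤ j
  simp [bin, this]

lemma bin_succ_succ (n : ℤ) (j : ℕ) : bin (n + 1) (j + 1) = bin n j + bin n (j + 1) := by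
  unfold bin
  rw [Ring.choose_succ_succ]
  push_cast
  ring

lemma bin_natCast (k j : ℕ) : bin (k : ℤ) j = (k.choose j : ℂ) := by
  unfold bin
  rw [Ring.choose_natCast]
  simp

/-! ### alternating sums -/

section alt
variable {X : Type*} [AddCommGroup X] [Module ℂ X]

/-- alternating binomial sums -/
def alt (N : ℕ) (g : ℕ → X) : X :=
  ∑ j ∈ Finset.range (N + 1), ((-1 : ℂ) ^ j * (N.choose j : ℂ)) • g j

lemma alt_zero (g : ℕ → X) : alt 0 g = g 0 := by simp [alt]

lemma alt_congr {N : ℕ} {g g' : ℕ → X} (h : ∀ j, j ≤ N → g j = g' j) : alt N g = alt N g' := by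
  unfold alt
  refine Finset.sum_congr rfl fun j hj => ?_
  rw [h j (Nat.lt_succ_iff.mp (Finset.mem_range.mp hj))]

lemma alt_succ (N : ℕ) (g : ℕ → X) : alt (N + 1) g = alt N g - alt N (fun j => g (j + 1)) := by
  unfold alt
  rw [Finset.sum_range_succ' _ (N + 1)]
  have h1 : ∀ j ∈ Finset.range (N + 1),
      ((-1 : ℂ) ^ (j + 1) * ((N + 1).choose (j + 1) : ℂ)) • g (j + 1)
        = -(((-1 : ℂ) ^ j * (N.choose j : ℂ)) • g (j + 1))
          + ((-1 : ℂ) ^ (j + 1) * (N.choose (j + 1) : ℂ)) • g (j + 1) := by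
    intro j _
    rw [Nat.choose_succ_succ, ← neg_smul, ← add_smul]
    congr 1
    push_cast
    ring
  rw [Finset.sum_congr rfl h1, Finset.sum_add_distrib, Finset.sum_neg_distrib]
  have h2 : ∑ j ∈ Finset.range (N + 1), ((-1 : ℂ) ^ (j + 1) * (N.choose (j + 1) : ℂ)) • g (j + 1)
      + ((-1 : ℂ) ^ 0 * ((N + 1).choose 0 : ℂ)) • g 0
      = ∑ j ∈ Finset.range (N + 1), ((-1 : ℂ) ^ j * (N.choose j : ℂ)) • g j := by
    have h3 := Finset.sum_range_succ' (fun j => ((-1 : ℂ) ^ j * (N.choose j : ℂ)) • g j) (N + 1)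
    rw [Finset.sum_range_succ (fun j => ((-1 : ℂ) ^ j * (N.choose j : ℂ)) • g j) (N + 1)] at h3
    rw [Nat.choose_succ_self] at h3
    simp only [Nat.cast_zero, mul_zero, zero_smul, add_zero, Nat.choose_zero_right] at h3 ⊢
    exact h3.symm
  rw [add_assoc, h2]
  abel

lemma alt_sub (N : ℕ) (g g' : ℕ → X) : alt N (fun j => g j - g' j) = alt N g - alt N g' := by
  unfold alt
  simp only [smul_sub, Finset.sum_sub_distrib]

lemma alt_add (N : ℕ) (g g' : ℕ → X) : alt N (fun j => g j + g' j) = alt N g + alt N g' := by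
  unfold alt
  simp only [smul_add, Finset.sum_add_distrib]

lemma alt_smul (N : ℕ) (c : ℂ) (g : ℕ → X) : alt N (fun j => c • g j) = c • alt N g := by
  unfold alt
  rw [Finset.smul_sum]
  exact Finset.sum_congr rfl fun j _ => smul_comm _ _ _

lemma alt_map {X' : Type*} [AddCommGroup X'] [Module ℂ X'] (f : X →ₗ[ℂ] X') (N : ℕ) (g : ℕ → X) :
    f (alt N g) = alt N (fun j => f (g j)) := by
  unfold alt
  rw [map_sum]
  exact Finset.sum_congr rfl fun j _ => map_smul _ _ _

lemma alt_apply {E : Type*} [AddCommGroup E] [Module ℂ E] (N : ℕ) (g : ℕ → Module.End ℂ E)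
    (v : E) : alt N g v = alt N (fun j => g j v) := by
  unfold alt
  rw [LinearMap.sum_apply]
  rfl

lemma alt_zero_fun (N : ℕ) : alt N (fun _ => (0 : X)) = 0 := by simp [alt]

lemma alt_reflect (N : ℕ) (g : ℕ → X) : alt N (fun j => g (N - j)) = (-1 : ℂ) ^ N • alt N g := by
  unfold alt
  rw [← Finset.sum_range_reflect, Finset.smul_sum]
  refine Finset.sum_congr rfl fun j hj => ?_
  have hj' : j ≤ N := Nat.lt_succ_iff.mp (Finset.mem_range.mp hj)
  have e1 : N + 1 - 1 - j = N - j := by omega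
  have e2 : N - (N - j) = j := by omega
  simp only [e1, e2]
  rw [Nat.choose_symm hj', smul_smul]
  congr 1
  obtain ⟨d, hd⟩ := Nat.exists_eq_add_of_le hj'
  have e3 : N - j = d := by omega
  rw [e3, hd, pow_add]
  have e4 : (-1 : ℂ) ^ j * (-1) ^ j = 1 := by rw [← pow_add, ← two_mul]; simp
  linear_combination (-(-1 : ℂ) ^ d * ((j + d).choose j : ℂ)) * e4

/-- Newton interpolation on `ℤ` -/
lemma newton (N : ℕ) : ∀ (h : ℤ → X), (∀ m, alt N (fun j => h (m - j)) = 0) →
    ∀ m, h m = ∑ j ∈ Finset.range N, bin m j • alt j (fun i => h ((j : ℤ) - i)) := by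
  induction N with
  | zero =>
    intro h h0 m
    have := h0 m
    rw [alt_zero] at this
    simpa using this
  | succ N ih =>
    intro h h0
    have key : ∀ (M : ℕ) (m : ℤ), alt M (fun j => h (m - j + 1) - h (m - j))
        = alt (M + 1) (fun j => h (m + 1 - j)) := by
      intro M m
      rw [alt_sub, alt_succ]
      congr 1
      · exact alt_congr fun j _ => by congr 1; ring
      · exact alt_congr fun j _ => by congr 1; push_cast; ring
    have h1 := ih (fun m => h (m + 1) - h m) (fun m => by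
      rw [key N m]
      exact h0 (m + 1))
    have h2 : ∀ m, h (m + 1) - h m
        = ∑ j ∈ Finset.range N, bin m j • alt (j + 1) (fun i => h (((j + 1 : ℕ) : ℤ) - i)) := by
      intro m
      rw [h1 m]
      refine Finset.sum_congr rfl fun j _ => ?_
      congr 1
      rw [key j (j : ℤ)]
      exact alt_congr fun i _ => by congr 1
    obtain ⟨u, hu⟩ : ∃ u : ℤ → X, ∀ m, u m = h m - ∑ j ∈ Finset.range (N + 1), bin m j •
      alt j (fun i => h ((j : ℤ) - i)) := ⟨_, fun _ => rfl⟩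
    have hu0 : u 0 = 0 := by
      rw [hu, Finset.sum_range_succ']
      have : ∀ j ∈ Finset.range N, bin 0 (j + 1) • alt (j + 1) (fun i => h (((j + 1 : ℕ) : ℤ) - i))
          = 0 := fun j _ => by rw [bin_zero_succ, zero_smul]
      rw [Finset.sum_eq_zero this, bin_zero_right, one_smul, alt_zero]
      simp
    have hus : ∀ m, u (m + 1) = u m := by
      intro m
      rw [hu, hu, Finset.sum_range_succ', Finset.sum_range_succ' _ N]
      simp only [bin_zero_right, one_smul, alt_zero]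
      have e : ∀ j ∈ Finset.range N,
          bin (m + 1) (j + 1) • alt (j + 1) (fun i => h (((j + 1 : ℕ) : ℤ) - i))
          = bin m j • alt (j + 1) (fun i => h (((j + 1 : ℕ) : ℤ) - i))
            + bin m (j + 1) • alt (j + 1) (fun i => h (((j + 1 : ℕ) : ℤ) - i)) := fun j _ => by
        rw [bin_succ_succ, add_smul]
      rw [Finset.sum_congr rfl e, Finset.sum_add_distrib, ← h2 m]
      abel
    have hall : ∀ m, u m = 0 := by
      intro m
      induction m using Int.induction_on with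
      | zero => exact hu0
      | succ i ih => rw [hus, ih]
      | pred i ih =>
        have := hus (-(i : ℤ) - 1)
        rw [show -(i : ℤ) - 1 + 1 = -(i : ℤ) by ring, ih] at this
        exact this.symm
    intro m
    have := hall m
    rw [hu] at this
    exact sub_eq_zero.mp this

/-- differences of binomial coefficients -/
lemma alt_bin (N : ℕ) : ∀ (j : ℕ), j < N → ∀ m : ℤ, alt N (fun i => bin (m - i) j) = 0 := by
  induction N with
  | zero => intro j hj; omega
  | succ N ih =>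
    intro j hj m
    rw [alt_succ, ← alt_sub]
    rcases j with _ | j
    · simp only [bin_zero_right, sub_self]
      exact alt_zero_fun N
    · have h1 : alt N (fun i => bin (m - i) (j + 1) - bin (m - ((i + 1 : ℕ) : ℤ)) (j + 1))
          = alt N (fun i => bin ((m - 1) - i) j) := by
        refine alt_congr fun i _ => ?_
        have e : m - (i : ℤ) = (m - 1 - i) + 1 := by ring
        have e' : m - ((i + 1 : ℕ) : ℤ) = m - 1 - i := by push_cast; ring
        rw [e, bin_succ_succ, e']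
        ring
      rw [h1]
      exact ih j (by omega) (m - 1)

end alt

end F1

section F1
open F1
variable {E : Type*} [AddCommGroup E] [Module ℂ E]

/-- the `q`-commutator -/
def br (q : ℂ) (x y : Module.End ℂ E) : Module.End ℂ E := x * y - q • (y * x)

lemma F1.br_apply (q : ℂ) (x y : Module.End ℂ E) (v : E) : br q x y v = x (y v) - q • y (x v) := rfl

/-- locality of order `N` with sign `q`: `(z-w)^N [a(z), b(w)]_q = 0` -/
def Loc (q : ℂ) (N : ℕ) (a b : Fld E) : Prop :=
  ∀ m n : ℤ, ∑ j ∈ Finset.range (N + 1),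
    ((-1 : ℂ) ^ j * (N.choose j : ℂ)) • br q (a.1 (m - j)) (b.1 (n + j)) = 0

lemma F1.loc_iff {q : ℂ} {N : ℕ} {a b : Fld E} : Loc q N a b ↔
    ∀ m n : ℤ, alt N (fun j => br q (a.1 (m - j)) (b.1 (n + j))) = 0 := Iff.rfl

theorem Loc.mono {q : ℂ} {N M : ℕ} {a b : Fld E} (h : Loc q N a b) (hNM : N ≤ M) :
    Loc q M a b := by
  induction M, hNM using Nat.le_induction with
  | base => exact h
  | succ M _ ih =>
    rw [loc_iff] at ih ⊢
    intro m n
    rw [alt_succ, ih m n]
    have := ih (m - 1) (n + 1)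
    rw [zero_sub, neg_eq_zero, ← this]
    refine alt_congr fun j _ => ?_
    have e1 : m - ((j + 1 : ℕ) : ℤ) = m - 1 - j := by push_cast; ring
    have e2 : n + ((j + 1 : ℕ) : ℤ) = n + 1 + j := by push_cast; ring
    rw [e1, e2]

theorem Loc.symm {q : ℂ} {N : ℕ} {a b : Fld E} (hq : q * q = 1) (h : Loc q N a b) :
    Loc q N b a := by
  rw [loc_iff] at h ⊢
  intro m n
  have h1 := h (n + N) (m - N)
  have h2 : alt N (fun j => br q (b.1 (m - j)) (a.1 (n + j)))
      = (-q) • alt N (fun j => (fun i : ℕ => br q (a.1 (n + N - i)) (b.1 (m - N + i))) (N - j)) := by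
    rw [← alt_smul]
    refine alt_congr fun j hj => ?_
    have e1 : (n + N - ((N - j : ℕ) : ℤ)) = n + j := by push_cast [Nat.cast_sub hj]; ring
    have e2 : (m - N + ((N - j : ℕ) : ℤ)) = m - j := by push_cast [Nat.cast_sub hj]; ring
    simp only [e1, e2]
    unfold br
    rw [smul_sub, smul_smul, neg_smul, neg_mul, hq, neg_smul, one_smul]
    abel
  rw [h2, alt_reflect N (fun i : ℕ => br q (a.1 (n + N - i)) (b.1 (m - N + i))), h1, smul_zero,
    smul_zero]

theorem Loc.add_left {q : ℂ} {N : ℕ} {a a' b : Fld E} (h : Loc q N a b) (h' : Loc q N a' b) :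
    Loc q N (a + a') b := by
  rw [loc_iff] at h h' ⊢
  intro m n
  rw [← add_zero (0 : Module.End ℂ E)]
  nth_rewrite 1 [← h m n]
  rw [← h' m n, ← alt_add]
  refine alt_congr fun j _ => ?_
  simp only [Submodule.coe_add, Pi.add_apply, br, add_mul, mul_add, smul_add]
  abel

theorem Loc.smul_left {q : ℂ} {N : ℕ} {a b : Fld E} (c : ℂ) (h : Loc q N a b) :
    Loc q N (c • a) b := by
  rw [loc_iff] at h ⊢
  intro m n
  rw [← smul_zero c, ← h m n, ← alt_smul]
  refine alt_congr fun j _ => ?_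
  simp only [Submodule.coe_smul, Pi.smul_apply, br, smul_mul_assoc, mul_smul_comm, smul_sub]
  rw [smul_comm c q]

/-- nonnegative products -/
lemma F1.np_nat (q : ℂ) (k : ℕ) (a b : Fld E) (l : ℤ) (v : E) :
    (np q k a b).1 l v = alt k (fun i => br q (a.1 (k - i)) (b.1 (l + i)) v) := by
  rw [np_apply]
  have h0 : Function.support (npTerm q k a.1 b.1 l v) ⊆ ↑(Finset.range (k + 1)) := by
    intro j hj
    by_contra hlt
    simp only [Finset.coe_range, Set.mem_Iio, not_lt] at hlt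
    apply hj
    unfold npTerm
    rw [bin_natCast, Nat.choose_eq_zero_of_lt (by omega)]
    simp
  rw [finsum_eq_sum_of_support_subset _ h0]
  have h1 : ∑ j ∈ Finset.range (k + 1), npTerm q k a.1 b.1 l v j
      = alt k (fun j => a.1 (k - j) (b.1 (l + j) v))
        - ((-1 : ℂ) ^ k * q) • alt k (fun j => b.1 (k + l - j) (a.1 j v)) := by
    rw [← alt_smul, ← alt_sub]
    unfold alt
    refine Finset.sum_congr rfl fun j _ => ?_
    unfold npTerm
    rw [bin_natCast]
    simp
  have h2 : alt k (fun j => b.1 (k + l - j) (a.1 j v))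
      = (-1 : ℂ) ^ k • alt k (fun j => b.1 (l + j) (a.1 (k - j) v)) := by
    rw [← alt_reflect]
    refine alt_congr fun j hj => ?_
    have e1 : (l + ((k - j : ℕ) : ℤ)) = k + l - j := by push_cast [Nat.cast_sub hj]; ring
    have e2 : ((k : ℤ) - ((k - j : ℕ) : ℤ)) = j := by push_cast [Nat.cast_sub hj]; ring
    rw [e1, e2]
  rw [h1, h2, smul_smul]
  have e4 : (-1 : ℂ) ^ k * q * (-1) ^ k = q := by
    have : (-1 : ℂ) ^ k * (-1) ^ k = 1 := by rw [← pow_add, ← two_mul]; simp
    linear_combination q * this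
  rw [e4, ← alt_smul, ← alt_sub]
  rfl

/-- the products `a₍ₖ₎ b` vanish for `k ≥ N` -/
theorem Loc.np_eq_zero {q : ℂ} {N : ℕ} {a b : Fld E} (h : Loc q N a b) (k : ℕ) (hk : N ≤ k) :
    np q k a b = 0 := by
  have h1 := loc_iff.mp (h.mono hk)
  apply Subtype.ext
  funext l
  ext v
  rw [np_nat]
  have h2 := congrArg (fun f : Module.End ℂ E => f v) (h1 k l)
  simp only [alt_apply, LinearMap.zero_apply] at h2
  rw [h2]
  rfl

/-- the commutator formula (Newton interpolation on the lines `m + n = const`) -/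
theorem Loc.comm {q : ℂ} {N : ℕ} {a b : Fld E} (h : Loc q N a b) (m n : ℤ) (v : E) :
    a.1 m (b.1 n v) - q • b.1 n (a.1 m v)
      = ∑ j ∈ Finset.range N, bin m j • (np q (j : ℤ) a b).1 (m + n - j) v := by
  have h1 := newton N (fun m' => br q (a.1 m') (b.1 (m + n - m')) v) (fun m' => by
    have h2 := congrArg (fun f : Module.End ℂ E => f v) (loc_iff.mp h m' (m + n - m'))
    simp only [alt_apply, LinearMap.zero_apply] at h2
    rw [← h2]
    refine alt_congr fun j _ => ?_
    have e : m + n - (m' - j) = m + n - m' + j := by ring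
    rw [e]) m
  have e0 : m + n - m = n := by ring
  simp only [e0] at h1
  rw [← br_apply, h1]
  refine Finset.sum_congr rfl fun j _ => ?_
  congr 1
  rw [np_nat]
  refine alt_congr fun i _ => ?_
  have e : m + n - ((j : ℤ) - i) = m + n - j + i := by ring
  rw [e]

/-- converse of the commutator formula -/
theorem Loc.of_comm {q : ℂ} {N : ℕ} {a b : Fld E} (c : ℕ → ℤ → Module.End ℂ E)
    (h : ∀ (m n : ℤ) (v : E), a.1 m (b.1 n v) - q • b.1 n (a.1 m v)
      = ∑ j ∈ Finset.range N, bin m j • c j (m + n - j) v) : Loc q N a b := by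
  rw [loc_iff]
  intro m n
  ext v
  rw [alt_apply]
  have h1 : ∀ i : ℕ, br q (a.1 (m - i)) (b.1 (n + i)) v
      = ∑ j ∈ Finset.range N, bin (m - i) j • c j (m + n - j) v := by
    intro i
    rw [br_apply, h]
    refine Finset.sum_congr rfl fun j _ => ?_
    have e : m - i + (n + i) - (j : ℤ) = m + n - j := by ring
    rw [e]
  simp only [h1, LinearMap.zero_apply]
  have h2 : alt N (fun i => ∑ j ∈ Finset.range N, bin (m - i) j • c j (m + n - j) v)
      = ∑ j ∈ Finset.range N, alt N (fun i => bin (m - i) j) • c j (m + n - j) v := by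
    unfold alt
    simp only [Finset.smul_sum, Finset.sum_smul]
    rw [Finset.sum_comm]
    refine Finset.sum_congr rfl fun j _ => Finset.sum_congr rfl fun i _ => ?_
    rw [smul_smul, smul_eq_mul]
  rw [h2]
  refine Finset.sum_eq_zero fun j hj => ?_
  rw [alt_bin N j (Finset.mem_range.mp hj) m, zero_smul]

/-! ### Dong's lemma -/

namespace F1

/-- a commutative algebra fact -/
lemma pow_sub_apply {X : Type*} [AddCommGroup X] [Module ℂ X] (x z : Module.End ℂ X)
    (hxz : x * z = z * x) : ∀ (s p r : ℕ), p + r = s → ∀ d : X, (x ^ p) d = 0 → (z ^ r) d = 0 →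
    ((x - z) ^ s) d = 0 := by
  have hc : Commute x z := hxz
  intro s
  induction s with
  | zero =>
    intro p r hpr d hp hr
    have : p = 0 := by omega
    subst this
    simpa using hp
  | succ s ih =>
    intro p r hpr d hp hr
    rcases p with _ | p
    · have : d = 0 := by simpa using hp
      rw [this, map_zero]
    rcases r with _ | r
    · have : d = 0 := by simpa using hr
      rw [this, map_zero]
    rw [pow_succ, Module.End.mul_apply, LinearMap.sub_apply, map_sub]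
    have h1 : ((x - z) ^ s) (x d) = 0 := by
      refine ih p (r + 1) (by omega) (x d) ?_ ?_
      · rw [← Module.End.mul_apply, ← pow_succ]; exact hp
      · rw [← Module.End.mul_apply, ← (hc.pow_right (r + 1)).eq, Module.End.mul_apply, hr, map_zero]
    have h2 : ((x - z) ^ s) (z d) = 0 := by
      refine ih (p + 1) r (by omega) (z d) ?_ ?_
      · rw [← Module.End.mul_apply, (hc.pow_left (p + 1)).eq, Module.End.mul_apply, hp, map_zero]
      · rw [← Module.End.mul_apply, ← pow_succ]; exact hr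
    rw [h1, h2, sub_zero]

section three
variable {E : Type*} [AddCommGroup E] [Module ℂ E]

/-- multiplication by `z - u` -/
def dZU : Module.End ℂ (ℤ → ℤ → ℤ → E) where
  toFun F := fun m k l => F (m + 1) k l - F m k (l + 1)
  map_add' F G := by funext m k l; simp only [Pi.add_apply]; abel
  map_smul' c F := by funext m k l; simp only [Pi.smul_apply, smul_sub, RingHom.id_apply]

/-- multiplication by `w - u` -/
def dWU : Module.End ℂ (ℤ → ℤ → ℤ → E) where
  toFun F := fun m k l => F m (k + 1) l - F m k (l + 1)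
  map_add' F G := by funext m k l; simp only [Pi.add_apply]; abel
  map_smul' c F := by funext m k l; simp only [Pi.smul_apply, smul_sub, RingHom.id_apply]

/-- multiplication by `z - w` -/
def dZW : Module.End ℂ (ℤ → ℤ → ℤ → E) where
  toFun F := fun m k l => F (m + 1) k l - F m (k + 1) l
  map_add' F G := by funext m k l; simp only [Pi.add_apply]; abel
  map_smul' c F := by funext m k l; simp only [Pi.smul_apply, smul_sub, RingHom.id_apply]

lemma dZU_apply (F : ℤ → ℤ → ℤ → E) (m k l : ℤ) : dZU F m k l = F (m + 1) k l - F m k (l + 1) := rfl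
lemma dWU_apply (F : ℤ → ℤ → ℤ → E) (m k l : ℤ) : dWU F m k l = F m (k + 1) l - F m k (l + 1) := rfl
lemma dZW_apply (F : ℤ → ℤ → ℤ → E) (m k l : ℤ) : dZW F m k l = F (m + 1) k l - F m (k + 1) l := rfl

lemma dWU_eq : (dWU : Module.End ℂ (ℤ → ℤ → ℤ → E)) = dZU - dZW := by
  ext F m k l
  simp only [LinearMap.sub_apply, Pi.sub_apply, dWU_apply, dZU_apply, dZW_apply]
  abel

lemma comm_ZU_WU : Commute (dZU : Module.End ℂ (ℤ → ℤ → ℤ → E)) dWU := by
  show dZU * dWU = dWU * dZU
  ext F m k l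
  simp only [Module.End.mul_apply, dWU_apply, dZU_apply]
  abel

lemma comm_ZU_ZW : Commute (dZU : Module.End ℂ (ℤ → ℤ → ℤ → E)) dZW := by
  show dZU * dZW = dZW * dZU
  ext F m k l
  simp only [Module.End.mul_apply, dZW_apply, dZU_apply]
  abel

lemma comm_ZW_WU : Commute (dZW : Module.End ℂ (ℤ → ℤ → ℤ → E)) dWU := by
  show dZW * dWU = dWU * dZW
  ext F m k l
  simp only [Module.End.mul_apply, dWU_apply, dZW_apply]
  abel

lemma dZU_pow (N : ℕ) : ∀ (F : ℤ → ℤ → ℤ → E) (m k l : ℤ),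
    (dZU ^ N) F m k l = alt N (fun j => F (m + N - j) k (l + j)) := by
  induction N with
  | zero =>
    intro F m k l
    rw [pow_zero, alt_zero]
    simp
  | succ N ih =>
    intro F m k l
    rw [pow_succ, Module.End.mul_apply, ih, alt_succ, ← alt_sub]
    refine alt_congr fun j _ => ?_
    rw [dZU_apply]
    have e1 : m + N - j + 1 = m + ((N + 1 : ℕ) : ℤ) - j := by push_cast; ring
    have e2 : m + (N : ℤ) - j = m + ((N + 1 : ℕ) : ℤ) - ((j + 1 : ℕ) : ℤ) := by push_cast; ring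
    have e3 : l + (j : ℤ) + 1 = l + ((j + 1 : ℕ) : ℤ) := by push_cast; ring
    rw [e1, e3, e2]

lemma dWU_pow (N : ℕ) : ∀ (F : ℤ → ℤ → ℤ → E) (m k l : ℤ),
    (dWU ^ N) F m k l = alt N (fun j => F m (k + N - j) (l + j)) := by
  induction N with
  | zero =>
    intro F m k l
    rw [pow_zero, alt_zero]
    simp
  | succ N ih =>
    intro F m k l
    rw [pow_succ, Module.End.mul_apply, ih, alt_succ, ← alt_sub]
    refine alt_congr fun j _ => ?_
    rw [dWU_apply]
    have e1 : k + N - j + 1 = k + ((N + 1 : ℕ) : ℤ) - j := by push_cast; ring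
    have e2 : k + (N : ℤ) - j = k + ((N + 1 : ℕ) : ℤ) - ((j + 1 : ℕ) : ℤ) := by push_cast; ring
    have e3 : l + (j : ℤ) + 1 = l + ((j + 1 : ℕ) : ℤ) := by push_cast; ring
    rw [e1, e3, e2]

/-- exchange of the first two indices -/
def sw (F : ℤ → ℤ → ℤ → E) : ℤ → ℤ → ℤ → E := fun m k l => F k m l

lemma dZU_sw (N : ℕ) (F : ℤ → ℤ → ℤ → E) : (dZU ^ N) (sw F) = sw ((dWU ^ N) F) := by
  funext m k l
  rw [dZU_pow]
  show _ = (dWU ^ N) F k m l
  rw [dWU_pow]
  rfl

lemma dWU_sw (N : ℕ) (F : ℤ → ℤ → ℤ → E) : (dWU ^ N) (sw F) = sw ((dZU ^ N) F) := by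
  funext m k l
  rw [dWU_pow]
  show _ = (dZU ^ N) F k m l
  rw [dZU_pow]
  rfl

/-- shifts with a scalar -/
def sh (s t : ℤ) (c : ℂ) (F : ℤ → ℤ → ℤ → E) : ℤ → ℤ → ℤ → E :=
  fun m k l => c • F (m + s) (k + t) l

lemma dZU_sh (N : ℕ) (s t : ℤ) (c : ℂ) (F : ℤ → ℤ → ℤ → E) :
    (dZU ^ N) (sh s t c F) = sh s t c ((dZU ^ N) F) := by
  funext m k l
  rw [dZU_pow]
  show _ = c • (dZU ^ N) F (m + s) (k + t) l
  rw [dZU_pow, ← alt_smul]
  refine alt_congr fun j _ => ?_
  show c • F (m + N - j + s) (k + t) (l + j) = _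
  have e : m + N - j + s = m + s + N - j := by ring
  rw [e]

lemma dWU_sh (N : ℕ) (s t : ℤ) (c : ℂ) (F : ℤ → ℤ → ℤ → E) :
    (dWU ^ N) (sh s t c F) = sh s t c ((dWU ^ N) F) := by
  funext m k l
  rw [dWU_pow]
  show _ = c • (dWU ^ N) F (m + s) (k + t) l
  rw [dWU_pow, ← alt_smul]
  refine alt_congr fun j _ => ?_
  show c • F (m + s) (k + N - j + t) (l + j) = _
  have e : k + N - j + t = k + t + N - j := by ring
  rw [e]

/-- locally finite families -/
def LF (G : ℕ → ℤ → ℤ → ℤ → E) : Prop := ∀ m k l, (Function.support fun j => G j m k l).Finite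

/-- sums of locally finite families -/
def fs (G : ℕ → ℤ → ℤ → ℤ → E) : ℤ → ℤ → ℤ → E := fun m k l => ∑ᶠ j, G j m k l

lemma dZU_fs {G : ℕ → ℤ → ℤ → ℤ → E} (h : LF G) (N : ℕ) :
    (dZU ^ N) (fs G) = fs (fun j => (dZU ^ N) (G j)) ∧ LF (fun j => (dZU ^ N) (G j)) := by
  induction N with
  | zero => exact ⟨by simp, by simpa using h⟩
  | succ N ih =>
    obtain ⟨h1, h2⟩ := ih
    have e : ∀ F : ℤ → ℤ → ℤ → E, (dZU ^ (N + 1)) F = dZU ((dZU ^ N) F) := fun F => by
      rw [pow_succ', Module.End.mul_apply]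
    constructor
    · rw [e, h1]
      funext m k l
      rw [dZU_apply]
      show (∑ᶠ j, _) - (∑ᶠ j, _) = ∑ᶠ j, _
      rw [← finsum_sub_distrib (h2 _ _ _) (h2 _ _ _)]
      refine finsum_congr fun j => ?_
      show _ = (dZU ^ (N + 1)) (G j) m k l
      rw [e, dZU_apply]
    · intro m k l
      refine ((h2 (m + 1) k l).union (h2 m k (l + 1))).subset fun j hj => ?_
      by_contra hcon
      simp only [Set.mem_union, Function.mem_support, not_or, not_not] at hcon
      apply hj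
      show (dZU ^ (N + 1)) (G j) m k l = 0
      rw [e, dZU_apply, hcon.1, hcon.2, sub_zero]

lemma dWU_fs {G : ℕ → ℤ → ℤ → ℤ → E} (h : LF G) (N : ℕ) :
    (dWU ^ N) (fs G) = fs (fun j => (dWU ^ N) (G j)) ∧ LF (fun j => (dWU ^ N) (G j)) := by
  induction N with
  | zero => exact ⟨by simp, by simpa using h⟩
  | succ N ih =>
    obtain ⟨h1, h2⟩ := ih
    have e : ∀ F : ℤ → ℤ → ℤ → E, (dWU ^ (N + 1)) F = dWU ((dWU ^ N) F) := fun F => by
      rw [pow_succ', Module.End.mul_apply]
    constructor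
    · rw [e, h1]
      funext m k l
      rw [dWU_apply]
      show (∑ᶠ j, _) - (∑ᶠ j, _) = ∑ᶠ j, _
      rw [← finsum_sub_distrib (h2 _ _ _) (h2 _ _ _)]
      refine finsum_congr fun j => ?_
      show _ = (dWU ^ (N + 1)) (G j) m k l
      rw [e, dWU_apply]
    · intro m k l
      refine ((h2 m (k + 1) l).union (h2 m k (l + 1))).subset fun j hj => ?_
      by_contra hcon
      simp only [Set.mem_union, Function.mem_support, not_or, not_not] at hcon
      apply hj
      show (dWU ^ (N + 1)) (G j) m k l = 0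
      rw [e, dWU_apply, hcon.1, hcon.2, sub_zero]

/-- half of the `n`-product, before taking the residue -/
def hp (x y : ℤ → Module.End ℂ E) (n m k : ℤ) (v : E) : E :=
  ∑ᶠ j : ℕ, ((-1 : ℂ) ^ j * bin n j) • x (m + n - j) (y (k + j) v)

lemma bound (y : Fld E) (k : ℤ) (v : E) : ∃ J : ℕ, ∀ j : ℕ, J ≤ j → y.1 (k + j) v = 0 := by
  obtain ⟨N, hN⟩ := y.2 v
  refine ⟨(N - k).toNat, fun j hj => hN _ ?_⟩
  omega

lemma hp_supp (x y : Fld E) (n m k : ℤ) (v : E) : (Function.support fun j : ℕ =>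
    ((-1 : ℂ) ^ j * bin n j) • x.1 (m + n - j) (y.1 (k + j) v)).Finite := by
  obtain ⟨J, hJ⟩ := bound y k v
  refine (Set.finite_lt_nat J).subset fun j hj => ?_
  by_contra hlt
  apply hj
  simp only [Set.mem_ofPred_eq, not_lt] at hlt
  simp [hJ j hlt]

lemma hp_sum (x y : ℤ → Module.End ℂ E) (n m k : ℤ) (v : E) (J : ℕ)
    (hJ : ∀ j : ℕ, J ≤ j → y (k + j) v = 0) :
    hp x y n m k v = ∑ j ∈ Finset.range J, ((-1 : ℂ) ^ j * bin n j) • x (m + n - j) (y (k + j) v) := by
  unfold hp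
  apply finsum_eq_sum_of_support_subset
  intro j hj
  by_contra hlt
  simp only [Finset.coe_range, Set.mem_Iio, not_lt] at hlt
  apply hj
  simp [hJ j hlt]

lemma hp_succ (x y : Fld E) (n m k : ℤ) (v : E) :
    hp x.1 y.1 (n + 1) m k v = hp x.1 y.1 n (m + 1) k v - hp x.1 y.1 n m (k + 1) v := by
  obtain ⟨J, hJ⟩ := bound y k v
  rw [hp_sum x.1 y.1 (n + 1) m k v (J + 1) (fun j hj => hJ j (by omega)),
    hp_sum x.1 y.1 n (m + 1) k v (J + 1) (fun j hj => hJ j (by omega)),
    hp_sum x.1 y.1 n m (k + 1) v J (fun j hj => by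
      have := hJ (j + 1) (by omega)
      rw [show k + 1 + (j : ℤ) = k + ((j + 1 : ℕ) : ℤ) by push_cast; ring]
      exact this),
    Finset.sum_range_succ', Finset.sum_range_succ' _ J]
  have e0 : m + (n + 1) - ((0 : ℕ) : ℤ) = m + 1 + n - ((0 : ℕ) : ℤ) := by ring
  rw [e0, bin_zero_right, bin_zero_right]
  have key : ∑ j ∈ Finset.range J, ((-1 : ℂ) ^ (j + 1) * bin (n + 1) (j + 1)) •
        x.1 (m + (n + 1) - ((j + 1 : ℕ) : ℤ)) (y.1 (k + ((j + 1 : ℕ) : ℤ)) v)
      = ∑ j ∈ Finset.range J, ((-1 : ℂ) ^ (j + 1) * bin n (j + 1)) •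
          x.1 (m + 1 + n - ((j + 1 : ℕ) : ℤ)) (y.1 (k + ((j + 1 : ℕ) : ℤ)) v)
        - ∑ j ∈ Finset.range J, ((-1 : ℂ) ^ j * bin n j) • x.1 (m + n - j) (y.1 (k + 1 + j) v) := by
    rw [← Finset.sum_sub_distrib]
    refine Finset.sum_congr rfl fun j _ => ?_
    have e1 : m + (n + 1) - ((j + 1 : ℕ) : ℤ) = m + n - j := by push_cast; ring
    have e2 : m + 1 + n - ((j + 1 : ℕ) : ℤ) = m + n - j := by push_cast; ring
    have e3 : k + 1 + (j : ℤ) = k + ((j + 1 : ℕ) : ℤ) := by push_cast; ring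
    rw [e1, e2, e3, ← sub_smul, bin_succ_succ]
    congr 1
    ring
  rw [key]
  abel

lemma hp_nat (x y : ℤ → Module.End ℂ E) (n : ℕ) (m k : ℤ) (v : E) :
    hp x y n m k v = alt n (fun j => x (m + n - j) (y (k + j) v)) := by
  unfold hp
  have h0 : Function.support (fun j : ℕ =>
      ((-1 : ℂ) ^ j * bin n j) • x (m + n - j) (y (k + j) v)) ⊆ ↑(Finset.range (n + 1)) := by
    intro j hj
    by_contra hlt
    simp only [Finset.coe_range, Set.mem_Iio, not_lt] at hlt
    apply hj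
    show ((-1 : ℂ) ^ j * bin n j) • x (m + n - j) (y (k + j) v) = 0
    rw [bin_natCast, Nat.choose_eq_zero_of_lt (by omega)]
    simp
  rw [finsum_eq_sum_of_support_subset _ h0]
  unfold alt
  refine Finset.sum_congr rfl fun j _ => ?_
  rw [bin_natCast]

/-- the commutator of a half product with `c` -/
def hc (Q : ℂ) (x y c : ℤ → Module.End ℂ E) (n : ℤ) (v : E) : ℤ → ℤ → ℤ → E :=
  fun m k l => hp x y n m k (c l v) - Q • c l (hp x y n m k v)

lemma hc_zero {qx qy : ℂ} {Nx Ny : ℕ} {x y c : Fld E} (hx : Loc qx Nx x c) (hy : Loc qy Ny y c)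
    (n : ℤ) (v : E) : (dZU ^ Nx) ((dWU ^ Ny) (hc (qx * qy) x.1 y.1 c.1 n v)) = 0 := by
  -- the basic function
  obtain ⟨A, hA⟩ : ∃ A : ℤ → ℤ → ℤ → E, A = fun m k l =>
    x.1 m (y.1 k (c.1 l v)) - (qx * qy) • c.1 l (x.1 m (y.1 k v)) := ⟨_, rfl⟩
  have hA0 : (dZU ^ Nx) ((dWU ^ Ny) A) = 0 := by
    obtain ⟨A1, hA1⟩ : ∃ A1 : ℤ → ℤ → ℤ → E, A1 = fun m k l => x.1 m (br qy (y.1 k) (c.1 l) v) :=
      ⟨_, rfl⟩
    obtain ⟨A2, hA2⟩ : ∃ A2 : ℤ → ℤ → ℤ → E, A2 = fun m k l =>
      qy • br qx (x.1 m) (c.1 l) (y.1 k v) := ⟨_, rfl⟩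
    have hsum : A = A1 + A2 := by
      rw [hA, hA1, hA2]
      funext m k l
      simp only [Pi.add_apply, br_apply, map_sub, map_smul, smul_sub, smul_smul]
      rw [mul_comm qx qy]
      abel
    have h1 : (dWU ^ Ny) A1 = 0 := by
      funext m k l
      rw [dWU_pow, hA1]
      have h2 := congrArg (fun f : Module.End ℂ E => x.1 m (f v)) (loc_iff.mp hy (k + Ny) l)
      simp only [alt_apply, LinearMap.zero_apply, map_zero] at h2
      rw [alt_map] at h2
      exact h2
    have h2 : (dZU ^ Nx) A2 = 0 := by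
      funext m k l
      rw [dZU_pow, hA2, alt_smul]
      have h2 := congrArg (fun f : Module.End ℂ E => f (y.1 k v)) (loc_iff.mp hx (m + Nx) l)
      simp only [alt_apply, LinearMap.zero_apply] at h2
      rw [h2, smul_zero]
      rfl
    have h3 : (dZU ^ Nx) ((dWU ^ Ny) A2) = (dWU ^ Ny) ((dZU ^ Nx) A2) := by
      rw [← Module.End.mul_apply, ← Module.End.mul_apply, (comm_ZU_WU.pow_pow Nx Ny).eq]
    rw [hsum, map_add, map_add, h1, h3, h2, map_zero, map_zero, zero_add]
  -- the family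
  have hfs : hc (qx * qy) x.1 y.1 c.1 n v
      = fs (fun j : ℕ => sh (n - j) j ((-1 : ℂ) ^ j * bin n j) A) := by
    funext m k l
    show hp x.1 y.1 n m k (c.1 l v) - (qx * qy) • c.1 l (hp x.1 y.1 n m k v) = ∑ᶠ j : ℕ, _
    unfold hp
    have e1 : c.1 l (∑ᶠ j : ℕ, ((-1 : ℂ) ^ j * bin n j) • x.1 (m + n - j) (y.1 (k + j) v))
        = ∑ᶠ j : ℕ, c.1 l (((-1 : ℂ) ^ j * bin n j) • x.1 (m + n - j) (y.1 (k + j) v)) :=
      AddMonoidHom.map_finsum (c.1 l).toAddMonoidHom (hp_supp x y n m k v)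
    rw [e1, smul_finsum, ← finsum_sub_distrib (hp_supp x y n m k (c.1 l v))]
    · refine finsum_congr fun j => ?_
      show _ = ((-1 : ℂ) ^ j * bin n j) • A (m + (n - j)) (k + j) l
      rw [hA, map_smul, smul_sub]
      have e : m + (n - (j : ℤ)) = m + n - j := by ring
      simp only [e]
      rw [smul_comm (qx * qy)]
    · refine (hp_supp x y n m k v).subset fun j hj hcon => hj ?_
      show (qx * qy) • c.1 l _ = 0
      have h5 : ((-1 : ℂ) ^ j * bin n j) • x.1 (m + n - j) (y.1 (k + j) v) = 0 := hcon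
      rw [h5, map_zero, smul_zero]
  have hLF : LF (fun j : ℕ => sh (n - j) j ((-1 : ℂ) ^ j * bin n j) A) := by
    intro m k l
    refine ((hp_supp x y n m k (c.1 l v)).union (hp_supp x y n m k v)).subset fun j hj => ?_
    by_contra hcon
    simp only [Set.mem_union, Function.mem_support, not_or, not_not] at hcon
    apply hj
    show ((-1 : ℂ) ^ j * bin n j) • A (m + (n - j)) (k + j) l = 0
    rw [hA]
    have e : m + (n - (j : ℤ)) = m + n - j := by ring
    simp only [e]
    rw [smul_sub, hcon.1, smul_comm, ← map_smul, hcon.2, map_zero, smul_zero, sub_zero]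
  obtain ⟨h1, h2⟩ := dWU_fs hLF Ny
  obtain ⟨h3, -⟩ := dZU_fs h2 Nx
  rw [hfs, h1, h3]
  funext m k l
  show ∑ᶠ j : ℕ, _ = (0 : E)
  have h4 : ∀ j : ℕ, (dZU ^ Nx) ((dWU ^ Ny) (sh (n - j) j ((-1 : ℂ) ^ j * bin n j) A)) m k l = 0 := by
    intro j
    rw [dWU_sh, dZU_sh, hA0]
    show ((-1 : ℂ) ^ j * bin n j) • (0 : E) = 0
    rw [smul_zero]
  rw [finsum_congr h4, finsum_zero]

/-- the `n`-product before taking the residue -/
def rp (q : ℂ) (a b : Fld E) (n m k : ℤ) (v : E) : E :=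
  hp a.1 b.1 n m k v - ((-1 : ℂ) ^ n * q) • hp b.1 a.1 n k m v

lemma rp_succ (q : ℂ) (a b : Fld E) (n m k : ℤ) (v : E) :
    rp q a b (n + 1) m k v = rp q a b n (m + 1) k v - rp q a b n m (k + 1) v := by
  unfold rp
  rw [hp_succ, hp_succ, zpow_add_one₀ (by norm_num : (-1 : ℂ) ≠ 0)]
  have : (-1 : ℂ) ^ n * -1 * q = -((-1 : ℂ) ^ n * q) := by ring
  rw [this]
  simp only [smul_sub, neg_smul]
  abel

lemma rp_zero {q : ℂ} {N : ℕ} {a b : Fld E} (h : Loc q N a b) (n : ℕ) (hn : N ≤ n) (m k : ℤ)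
    (v : E) : rp q a b n m k v = 0 := by
  unfold rp
  rw [hp_nat, hp_nat]
  have h1 := loc_iff.mp (h.mono hn) (m + n) k
  have h2 := congrArg (fun f : Module.End ℂ E => f v) h1
  simp only [alt_apply, LinearMap.zero_apply] at h2
  have h3 : alt n (fun j => b.1 (k + n - j) (a.1 (m + j) v))
      = (-1 : ℂ) ^ n • alt n (fun j => b.1 (k + j) (a.1 (m + n - j) v)) := by
    rw [← alt_reflect]
    refine alt_congr fun j hj => ?_
    have e1 : (k + ((n - j : ℕ) : ℤ)) = k + n - j := by push_cast [Nat.cast_sub hj]; ring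
    have e2 : (m + (n : ℤ) - ((n - j : ℕ) : ℤ)) = m + j := by push_cast [Nat.cast_sub hj]; ring
    rw [e1, e2]
  rw [h3, smul_smul, zpow_natCast]
  have e4 : (-1 : ℂ) ^ n * q * (-1) ^ n = q := by
    have : (-1 : ℂ) ^ n * (-1) ^ n = 1 := by rw [← pow_add, ← two_mul]; simp
    linear_combination q * this
  rw [e4, ← alt_smul, ← alt_sub]
  exact h2

lemma np_eq_rp (q : ℂ) (a b : Fld E) (n k : ℤ) (v : E) :
    (np q n a b).1 k v = rp q a b n 0 k v := by
  rw [np_apply]
  unfold rp hp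
  rw [smul_finsum, ← finsum_sub_distrib (hp_supp a b n 0 k v)]
  · refine finsum_congr fun j => ?_
    unfold npTerm
    have e1 : (0 : ℤ) + n - j = n - j := by ring
    have e2 : (0 : ℤ) + j = j := by ring
    have e3 : k + n - (j : ℤ) = n + k - j := by ring
    rw [e1, e2, e3, smul_sub, smul_comm ((-1 : ℂ) ^ j * bin n j)]
  · refine (hp_supp b a n k 0 v).subset fun j hj hcon => hj ?_
    show ((-1 : ℂ) ^ n * q) • _ = (0 : E)
    have h5 : ((-1 : ℂ) ^ j * bin n j) • b.1 (k + n - j) (a.1 (0 + j) v) = 0 := hcon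
    rw [h5, smul_zero]

end three

end F1

/-- Dong's lemma -/
theorem Loc.dong {q12 q13 q23 : ℂ} (h12 : q12 * q12 = 1) (h13 : q13 * q13 = 1)
    (h23 : q23 * q23 = 1) {N1 N2 N3 : ℕ} {a b c : Fld E} (hab : Loc q12 N1 a b)
    (hac : Loc q13 N2 a c) (hbc : Loc q23 N3 b c) (n : ℤ) :
    ∃ N, Loc (q13 * q23) N (np q12 n a b) c := by
  obtain ⟨r, hr⟩ : ∃ r : ℕ, (N1 : ℤ) ≤ n + r := ⟨(N1 - n).toNat, by omega⟩
  refine ⟨N3 + (N2 + r), ?_⟩
  -- the commutator function
  obtain ⟨D, hD⟩ : ∃ D : ℤ → E → ℤ → ℤ → ℤ → E, D = fun n v m k l =>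
    rp q12 a b n m k (c.1 l v) - (q13 * q23) • c.1 l (rp q12 a b n m k v) := ⟨_, rfl⟩
  have hD1 : ∀ (n : ℤ) (v : E), dZW (D n v) = D (n + 1) v := by
    intro n v
    funext m k l
    rw [dZW_apply, hD]
    simp only [rp_succ, map_sub, smul_sub]
    abel
  have hD2 : ∀ (s : ℕ) (n : ℤ) (v : E), (dZW ^ s) (D n v) = D (n + s) v := by
    intro s
    induction s with
    | zero => intro n v; simp
    | succ s ih =>
      intro n v
      rw [pow_succ, Module.End.mul_apply, hD1, ih]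
      congr 1
      push_cast
      ring
  have hD3 : ∀ v, (dZW ^ r) (D n v) = 0 := by
    intro v
    rw [hD2]
    obtain ⟨s, hs⟩ : ∃ s : ℕ, n + r = s := ⟨(n + r).toNat, by omega⟩
    rw [hs, hD]
    funext m k l
    show rp q12 a b s m k (c.1 l v) - (q13 * q23) • c.1 l (rp q12 a b s m k v) = 0
    rw [rp_zero hab s (by omega), rp_zero hab s (by omega), map_zero, smul_zero, sub_zero]
  have hD4 : ∀ v, (dZU ^ N2) ((dWU ^ N3) (D n v)) = 0 := by
    intro v
    have e : D n v = hc (q13 * q23) a.1 b.1 c.1 n v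
        - ((-1 : ℂ) ^ n * q12) • sw (hc (q23 * q13) b.1 a.1 c.1 n v) := by
      rw [hD]
      funext m k l
      show rp q12 a b n m k (c.1 l v) - (q13 * q23) • c.1 l (rp q12 a b n m k v)
        = (hp a.1 b.1 n m k (c.1 l v) - (q13 * q23) • c.1 l (hp a.1 b.1 n m k v))
          - ((-1 : ℂ) ^ n * q12) •
            (hp b.1 a.1 n k m (c.1 l v) - (q23 * q13) • c.1 l (hp b.1 a.1 n k m v))
      unfold rp
      rw [mul_comm q23 q13]
      simp only [map_sub, map_smul, smul_sub]
      rw [smul_comm (q13 * q23) ((-1 : ℂ) ^ n * q12)]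
      abel
    rw [e, map_sub, map_smul, map_sub, map_smul, hc_zero hac hbc, dWU_sw, dZU_sw]
    have h5 : (dWU ^ N2) ((dZU ^ N3) (hc (q23 * q13) b.1 a.1 c.1 n v))
        = (dZU ^ N3) ((dWU ^ N2) (hc (q23 * q13) b.1 a.1 c.1 n v)) := by
      rw [← Module.End.mul_apply, ← Module.End.mul_apply, (comm_ZU_WU.pow_pow N3 N2).eq]
    rw [h5, hc_zero hbc hac]
    funext m k l
    show (0 : E) - ((-1 : ℂ) ^ n * q12) • (0 : E) = 0
    rw [smul_zero, sub_zero]
  have hD5 : ∀ v, (dWU ^ (N3 + (N2 + r))) (D n v) = 0 := by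
    intro v
    rw [add_comm N3, pow_add, Module.End.mul_apply, dWU_eq]
    refine pow_sub_apply (X := ℤ → ℤ → ℤ → E) dZU dZW comm_ZU_ZW.eq (N2 + r) N2 r rfl _ ?_ ?_
    · rw [← dWU_eq]
      exact hD4 v
    · rw [← dWU_eq, ← Module.End.mul_apply, (comm_ZW_WU.pow_pow r N3).eq, Module.End.mul_apply,
        hD3, map_zero]
  rw [loc_iff]
  intro m n'
  ext v
  rw [alt_apply, LinearMap.zero_apply]
  have h6 := congrFun (congrFun (congrFun (hD5 v) 0) (m - ((N3 + (N2 + r) : ℕ) : ℤ))) n'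
  rw [dWU_pow] at h6
  refine Eq.trans (alt_congr fun j _ => ?_) h6
  have e : m - ((N3 + (N2 + r) : ℕ) : ℤ) + ((N3 + (N2 + r) : ℕ) : ℤ) - j = m - j := by ring
  rw [e, hD, br_apply, np_eq_rp, np_eq_rp]

end F1

end Pool.Agent.AA3
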