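import Pool.Agent.Lib.MP_aa3aaf_al.VSA
import Pool.Agent.Lib.MP_aa3aaf_al.Loc

/-!
Existence of a vertex superalgebra from local generating fields (reconstruction theorem),
homomorphisms and derivations from generators.
-/

set_option autoImplicit false
open scoped BigOperators
noncomputable section
namespace Pool.Agent.AA3

namespace F2

lemma bin_zero (n : ℤ) : bin n 0 = 1 := by
  simp [bin]

lemma bin_succ (n : ℤ) (j : ℕ) : ((j : ℂ) + 1) * bin n (j + 1) = ((n : ℂ) - j) * bin n j := by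
  have h := Ring.choose_smul_choose (R := ℤ) n (n := j + 1) (k := j) (Nat.le_succ j)
  rw [Nat.choose_succ_self_right, Nat.add_sub_cancel_left, Ring.choose_one_right,
    nsmul_eq_mul] at h
  have h' := congrArg (Int.cast : ℤ → ℂ) h
  push_cast at h'
  unfold bin
  rw [h']
  ring

lemma sgn_sq (k : ℕ) : (-1 : ℂ) ^ k * (-1) ^ k = 1 := by
  rw [← mul_pow]; simp

lemma sgn_congr {k l : ℕ} (h : k % 2 = l % 2) : (-1 : ℂ) ^ k = (-1) ^ l := by
  rw [← Nat.div_add_mod k 2, ← Nat.div_add_mod l 2, pow_add, pow_add, pow_mul, pow_mul, h]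
  simp

section
variable {E : Type*} [AddCommGroup E] [Module ℂ E]

lemma np_create {q : ℂ} {n : ℤ} {a b : Fld E} {vac : E} (ha : ∀ k : ℕ, a.1 k vac = 0)
    (hb : ∀ k : ℕ, b.1 k vac = 0) (k : ℕ) : (np q n a b).1 k vac = 0 := by
  rw [np_apply]
  apply finsum_eq_zero_of_forall_eq_zero
  intro j
  refine npTerm_eq_zero ?_ (ha j)
  have := hb (k + j)
  push_cast at this
  exact this

lemma np_state {q : ℂ} {n : ℤ} {a b : Fld E} {vac : E} (ha : ∀ k : ℕ, a.1 k vac = 0)
    (hb : ∀ k : ℕ, b.1 k vac = 0) : (np q n a b).1 (-1) vac = a.1 n (b.1 (-1) vac) := by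
  rw [np_apply, finsum_eq_single _ 0]
  · have h0 := ha 0
    simp only [Nat.cast_zero] at h0
    simp [npTerm, bin_zero, h0]
  · intro j hj
    obtain ⟨i, rfl⟩ : ∃ i, j = i + 1 := ⟨j - 1, by omega⟩
    refine npTerm_eq_zero ?_ (ha _)
    have := hb i
    rwa [show (-1 : ℤ) + ((i + 1 : ℕ) : ℤ) = i by push_cast; ring]

lemma np_bound (a b : Fld E) (k : ℤ) (v w : E) :
    ∃ N : ℕ, ∀ j : ℕ, N ≤ j → (b.1 (k + j) v = 0 ∧ a.1 j v = 0) ∧
      (b.1 (k + j) w = 0 ∧ a.1 j w = 0) := by
  obtain ⟨N, hN⟩ := exists_bound a b k v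
  obtain ⟨M, hM⟩ := exists_bound a b k w
  exact ⟨max N M, fun j hj => ⟨hN j (le_trans (le_max_left _ _) hj),
    hM j (le_trans (le_max_right _ _) hj)⟩⟩

lemma np_par {sg : E →ₗ[ℂ] E} {r s : ℕ} {a b : Fld E}
    (ha : ∀ n v, sg (a.1 n v) = (-1 : ℂ) ^ r • a.1 n (sg v))
    (hb : ∀ n v, sg (b.1 n v) = (-1 : ℂ) ^ s • b.1 n (sg v)) (q : ℂ) (n k : ℤ) (v : E) :
    sg ((np q n a b).1 k v) = (-1 : ℂ) ^ (r + s) • (np q n a b).1 k (sg v) := by
  obtain ⟨N, hN⟩ := np_bound a b k v (sg v)
  rw [np_apply_of_bound q n a b k v N fun j hj => (hN j hj).1,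
    np_apply_of_bound q n a b k (sg v) N fun j hj => (hN j hj).2, map_sum, Finset.smul_sum]
  refine Finset.sum_congr rfl fun j _ => ?_
  simp only [npTerm, map_smul, map_sub, ha, hb, pow_add]
  module

/-- The telescoping term in the proof of the derivation property. -/
def tel (q : ℂ) (n : ℤ) (a b : Fld E) (k : ℤ) (v : E) (j : ℕ) : E :=
  ((-1) ^ j * ((j : ℂ) * bin n j)) •
    (a.1 (n - j) (b.1 (k - 1 + j) v) - ((-1) ^ n * q) • b.1 (n + k - j) (a.1 (j - 1) v))

lemma np_cov {T : E →ₗ[ℂ] E} {a b : Fld E}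
    (ha : ∀ n v, T (a.1 n v) - a.1 n (T v) = (-(n : ℂ)) • a.1 (n - 1) v)
    (hb : ∀ n v, T (b.1 n v) - b.1 n (T v) = (-(n : ℂ)) • b.1 (n - 1) v) (q : ℂ) (n k : ℤ)
    (v : E) :
    T ((np q n a b).1 k v) - (np q n a b).1 k (T v) = (-(k : ℂ)) • (np q n a b).1 (k - 1) v := by
  have ha' : ∀ n v, T (a.1 n v) = a.1 n (T v) - (n : ℂ) • a.1 (n - 1) v := by
    intro n v
    have := ha n v
    rw [sub_eq_iff_eq_add] at this
    rw [this]
    module
  have hb' : ∀ n v, T (b.1 n v) = b.1 n (T v) - (n : ℂ) • b.1 (n - 1) v := by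
    intro n v
    have := hb n v
    rw [sub_eq_iff_eq_add] at this
    rw [this]
    module
  obtain ⟨N, hN⟩ := np_bound a b k v (T v)
  obtain ⟨M, hM⟩ := exists_bound a b (k - 1) v
  set L := max N M + 1 with hL
  have hNL : ∀ j, L ≤ j → N ≤ j := fun j hj => by
    have := le_max_left N M
    omega
  have hML : ∀ j, L ≤ j → M ≤ j := fun j hj => by
    have := le_max_right N M
    omega
  rw [np_apply_of_bound q n a b k v L fun j hj => (hN j (hNL j hj)).1,
    np_apply_of_bound q n a b k (T v) L fun j hj => (hN j (hNL j hj)).2,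
    np_apply_of_bound q n a b (k - 1) v L fun j hj => hM j (hML j hj), map_sum,
    ← Finset.sum_sub_distrib, Finset.smul_sum]
  have hterm : ∀ j ∈ Finset.range L,
      T (npTerm q n a.1 b.1 k v j) - npTerm q n a.1 b.1 k (T v) j =
        (-(k : ℂ)) • npTerm q n a.1 b.1 (k - 1) v j +
          (tel q n a b k v (j + 1) - tel q n a b k v j) := by
    intro j _
    simp only [npTerm, tel, map_smul, map_sub, ha', hb']
    have hbin := bin_succ n j
    have e1 : n - ((j + 1 : ℕ) : ℤ) = n - j - 1 := by push_cast; ring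
    have e2 : k - 1 + ((j + 1 : ℕ) : ℤ) = k + j := by push_cast; ring
    have e3 : n + k - ((j + 1 : ℕ) : ℤ) = n + k - j - 1 := by push_cast; ring
    have e4 : ((j + 1 : ℕ) : ℤ) - 1 = j := by push_cast; ring
    have e5 : n + (k - 1) - (j : ℤ) = n + k - j - 1 := by ring
    have e6 : k - 1 + (j : ℤ) = k + j - 1 := by ring
    rw [e1, e2, e3, e4, e5, e6]
    have hc : ((j + 1 : ℕ) : ℂ) * bin n (j + 1) = ((n : ℂ) - j) * bin n j := by
      push_cast
      exact hbin
    rw [hc]
    push_cast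
    rw [pow_succ]
    module
  rw [Finset.sum_congr rfl hterm, Finset.sum_add_distrib, Finset.sum_range_sub]
  have h0 : tel q n a b k v 0 = 0 := by simp [tel]
  have hLast : tel q n a b k v L = 0 := by
    have h1 := (hM L (hML L le_rfl)).1
    have h2 : a.1 ((L : ℤ) - 1) v = 0 := by
      have h3 := (hN (max N M) (le_max_left _ _)).1.2
      rw [hL]
      push_cast
      rw [add_sub_cancel_right]
      push_cast at h3
      exact h3
    simp [tel, h1, h2]
  rw [h0, hLast]
  simp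

end

/-! ### The reconstruction theorem -/

section Recon

variable {E : Type*} [AddCommGroup E] [Module ℂ E] {Γ : Type*} (g : Γ → Fld E) (p : Γ → ℕ)
  (sg T : E →ₗ[ℂ] E) (vac : E)

/-- Homogeneous translation covariant creative fields which are local with the generators. -/
structure Good (r : ℕ) (a : Fld E) : Prop where
  par : ∀ n v, sg (a.1 n v) = (-1 : ℂ) ^ r • a.1 n (sg v)
  cov : ∀ n v, T (a.1 n v) - a.1 n (T v) = (-(n : ℂ)) • a.1 (n - 1) v
  cre : ∀ n : ℕ, a.1 n vac = 0
  loc : ∀ γ, ∃ N, Loc ((-1 : ℂ) ^ (r * p γ)) N a (g γ)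

variable {g p sg T vac}

theorem Good.congr {r s : ℕ} {a : Fld E} (h : Good g p sg T vac r a) (hrs : r % 2 = s % 2) :
    Good g p sg T vac s a := by
  have h1 : (-1 : ℂ) ^ r = (-1) ^ s := sgn_congr hrs
  refine ⟨fun n v => by rw [← h1]; exact h.par n v, h.cov, h.cre, fun γ => ?_⟩
  obtain ⟨N, hN⟩ := h.loc γ
  refine ⟨N, ?_⟩
  rw [pow_mul, ← h1, ← pow_mul]
  exact hN

theorem Good.zero (r : ℕ) : Good g p sg T vac r 0 := by
  refine ⟨fun n v => by simp, fun n v => by simp, fun n => by simp, fun γ => ⟨0, ?_⟩⟩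
  intro m n
  simp [br]

theorem Good.add {r : ℕ} {a b : Fld E} (ha : Good g p sg T vac r a)
    (hb : Good g p sg T vac r b) : Good g p sg T vac r (a + b) := by
  refine ⟨fun n v => ?_, fun n v => ?_, fun n => ?_, fun γ => ?_⟩
  · simp only [Submodule.coe_add, Pi.add_apply, LinearMap.add_apply, map_add, ha.par, hb.par,
      smul_add]
  · have h1 := ha.cov n v
    have h2 := hb.cov n v
    simp only [Submodule.coe_add, Pi.add_apply, LinearMap.add_apply, map_add, smul_add]
    rw [← h1, ← h2]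
    abel
  · simp only [Submodule.coe_add, Pi.add_apply, LinearMap.add_apply, ha.cre, hb.cre, add_zero]
  · obtain ⟨N, hN⟩ := ha.loc γ
    obtain ⟨M, hM⟩ := hb.loc γ
    exact ⟨max N M, (hN.mono (le_max_left _ _)).add_left (hM.mono (le_max_right _ _))⟩

theorem Good.smul {r : ℕ} {a : Fld E} (c : ℂ) (ha : Good g p sg T vac r a) :
    Good g p sg T vac r (c • a) := by
  refine ⟨fun n v => ?_, fun n v => ?_, fun n => ?_, fun γ => ?_⟩
  · simp only [Submodule.coe_smul, Pi.smul_apply, LinearMap.smul_apply, map_smul, ha.par]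
    module
  · have h1 := ha.cov n v
    simp only [Submodule.coe_smul, Pi.smul_apply, LinearMap.smul_apply, map_smul]
    rw [← smul_sub, h1]
    module
  · simp only [Submodule.coe_smul, Pi.smul_apply, LinearMap.smul_apply, ha.cre, smul_zero]
  · obtain ⟨N, hN⟩ := ha.loc γ
    exact ⟨N, hN.smul_left c⟩

theorem Good.sub {r : ℕ} {a b : Fld E} (ha : Good g p sg T vac r a)
    (hb : Good g p sg T vac r b) : Good g p sg T vac r (a - b) := by
  have h := ha.add (hb.smul (-1))
  have e : a + (-1 : ℂ) • b = a - b := by rw [neg_one_smul ℂ b, ← sub_eq_add_neg]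
  rwa [e] at h

/-- Uniqueness. -/
theorem Good.uniq (hT0 : T vac = 0)
    (hspan : ∀ S : Submodule ℂ E, vac ∈ S → (∀ γ n v, v ∈ S → (g γ).1 n v ∈ S) → S = ⊤)
    {r : ℕ} {a : Fld E} (ha : Good g p sg T vac r a) (h : a.1 (-1) vac = 0) : a = 0 := by
  have h1 : ∀ k : ℕ, a.1 (-(k : ℤ) - 1) vac = 0 := by
    intro k
    induction k with
    | zero => simpa using h
    | succ k ih =>
      have h2 := ha.cov (-(k : ℤ) - 1) vac
      rw [hT0, ih, map_zero, map_zero, sub_zero] at h2
      have h3 : (-(((-(k : ℤ) - 1 : ℤ)) : ℂ)) ≠ 0 := by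
        push_cast
        have : ((k : ℂ) + 1) ≠ 0 := by exact_mod_cast Nat.succ_ne_zero k
        intro h0
        apply this
        linear_combination h0
      have h4 := (smul_eq_zero.1 h2.symm).resolve_left h3
      rwa [show -(k : ℤ) - 1 - 1 = -((k + 1 : ℕ) : ℤ) - 1 by push_cast; ring] at h4
  have h2 : ∀ n : ℤ, a.1 n vac = 0 := by
    intro n
    rcases le_or_gt 0 n with hn | hn
    · obtain ⟨k, rfl⟩ := Int.eq_ofNat_of_zero_le hn
      exact ha.cre k
    · have := h1 (-n - 1).toNat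
      rwa [Int.toNat_of_nonneg (by omega), show -(-n - 1) - 1 = n by ring] at this
  have hS := hspan
    { carrier := {v | ∀ n : ℤ, a.1 n v = 0}
      add_mem' := fun {v w} hv hw n => by rw [map_add, hv n, hw n, add_zero]
      zero_mem' := fun n => map_zero _
      smul_mem' := fun c v hv n => by rw [map_smul, hv n, smul_zero] } h2 (by
    intro γ n v hv0
    have hv : ∀ n : ℤ, a.1 n v = 0 := hv0
    obtain ⟨N, hN⟩ := ha.loc γ
    obtain ⟨M, hM⟩ := (g γ).2 v
    have key : ∀ k : ℕ, ∀ n : ℤ, M - k ≤ n → ∀ m : ℤ, a.1 m ((g γ).1 n v) = 0 := by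
      intro k
      induction k with
      | zero =>
        intro n hn m
        rw [hM n (by simpa using hn), map_zero]
      | succ k ih =>
        intro n hn m
        have h3 := LinearMap.congr_fun (hN m n) v
        rw [LinearMap.sum_apply, Finset.sum_range_succ'] at h3
        rw [Finset.sum_eq_zero] at h3
        · simp only [LinearMap.smul_apply, br, LinearMap.sub_apply, Module.End.mul_apply,
            LinearMap.zero_apply, zero_add, pow_zero, Nat.choose_zero_right, Nat.cast_one,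
            one_mul, one_smul, Nat.cast_zero, sub_zero, add_zero, hv m, map_zero,
            smul_zero] at h3
          exact h3
        · intro j _
          have h4 := ih (n + ((j + 1 : ℕ) : ℤ)) (by push_cast at hn ⊢; omega)
            (m - ((j + 1 : ℕ) : ℤ))
          simp only [LinearMap.smul_apply, br, LinearMap.sub_apply, Module.End.mul_apply, h4,
            hv, map_zero, smul_zero, sub_zero]
    intro m
    exact key (M - n).toNat n (by have := Int.self_le_toNat (M - n); omega) m)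
  apply Subtype.ext
  funext n
  apply LinearMap.ext
  intro v
  have hv : v ∈ (⊤ : Submodule ℂ E) := Submodule.mem_top
  rw [← hS] at hv
  exact hv n

/-- Products of mutually local good fields are good. -/
theorem Good.np {r s : ℕ} {a b : Fld E}
    (ha : Good g p sg T vac r a) (hb : Good g p sg T vac s b)
    (hab : ∃ N, Loc ((-1 : ℂ) ^ (r * s)) N a b) (n : ℤ) :
    Good g p sg T vac (r + s) (np ((-1 : ℂ) ^ (r * s)) n a b) := by
  refine ⟨np_par ha.par hb.par _ n, np_cov ha.cov hb.cov _ n, np_create ha.cre hb.cre,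
    fun γ => ?_⟩
  obtain ⟨N1, h1⟩ := hab
  obtain ⟨N2, h2⟩ := ha.loc γ
  obtain ⟨N3, h3⟩ := hb.loc γ
  rw [add_mul, pow_add]
  exact Loc.dong (sgn_sq _) (sgn_sq _) (sgn_sq _) h1 h2 h3 n

variable (g p sg T vac)

/-- Good fields which are local with all good fields. -/
def VGood (r : ℕ) (b : Fld E) : Prop :=
  Good g p sg T vac r b ∧
    ∀ (s : ℕ) (a : Fld E), Good g p sg T vac s a → ∃ N, Loc ((-1 : ℂ) ^ (r * s)) N b a

variable {g p sg T vac}

theorem VGood.congr {r s : ℕ} {a : Fld E} (h : VGood g p sg T vac r a)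
    (hrs : r % 2 = s % 2) : VGood g p sg T vac s a := by
  refine ⟨h.1.congr hrs, fun t b hb => ?_⟩
  obtain ⟨N, hN⟩ := h.2 t b hb
  refine ⟨N, ?_⟩
  rw [pow_mul, ← sgn_congr hrs, ← pow_mul]
  exact hN

theorem VGood.zero (r : ℕ) : VGood g p sg T vac r 0 := by
  refine ⟨Good.zero r, fun s a _ => ⟨0, ?_⟩⟩
  intro m n
  simp [br]

theorem VGood.add {r : ℕ} {a b : Fld E} (ha : VGood g p sg T vac r a)
    (hb : VGood g p sg T vac r b) : VGood g p sg T vac r (a + b) := by
  refine ⟨ha.1.add hb.1, fun s c hc => ?_⟩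
  obtain ⟨N, hN⟩ := ha.2 s c hc
  obtain ⟨M, hM⟩ := hb.2 s c hc
  exact ⟨max N M, (hN.mono (le_max_left _ _)).add_left (hM.mono (le_max_right _ _))⟩

theorem VGood.smul {r : ℕ} {a : Fld E} (c : ℂ) (ha : VGood g p sg T vac r a) :
    VGood g p sg T vac r (c • a) := by
  refine ⟨ha.1.smul c, fun s b hb => ?_⟩
  obtain ⟨N, hN⟩ := ha.2 s b hb
  exact ⟨N, hN.smul_left c⟩

theorem VGood.gen (hgood : ∀ γ, Good g p sg T vac (p γ) (g γ)) (γ : Γ) :
    VGood g p sg T vac (p γ) (g γ) := by
  refine ⟨hgood γ, fun s a ha => ?_⟩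
  obtain ⟨N, hN⟩ := ha.loc γ
  refine ⟨N, ?_⟩
  rw [mul_comm]
  exact hN.symm (sgn_sq _)

theorem VGood.np {r s : ℕ} {a b : Fld E}
    (ha : VGood g p sg T vac r a) (hb : VGood g p sg T vac s b) (n : ℤ) :
    VGood g p sg T vac (r + s) (np ((-1 : ℂ) ^ (r * s)) n a b) := by
  refine ⟨ha.1.np hb.1 (ha.2 s b hb.1) n, fun t c hc => ?_⟩
  obtain ⟨N1, h1⟩ := ha.2 s b hb.1
  obtain ⟨N2, h2⟩ := ha.2 t c hc
  obtain ⟨N3, h3⟩ := hb.2 t c hc
  rw [add_mul, pow_add]
  exact Loc.dong (sgn_sq _) (sgn_sq _) (sgn_sq _) h1 h2 h3 n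

theorem VGood.id : VGood g p sg T vac 0 (idFld E) := by
  have hl : ∀ b : Fld E, Loc (1 : ℂ) 0 (idFld E) b := by
    intro b m n
    simp only [zero_add, Finset.sum_range_one, pow_zero, Nat.choose_self, Nat.cast_one, mul_one,
      Nat.cast_zero, sub_zero, add_zero, one_smul, br, idFld]
    split_ifs
    · ext v; simp
    · simp
  refine ⟨⟨?_, ?_, ?_, ?_⟩, ?_⟩
  · intro n v
    simp only [idFld, pow_zero, one_smul]
    split_ifs <;> simp
  · intro n v
    simp only [idFld]
    by_cases h : n = -1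
    · subst h
      simp
    · by_cases h' : n = 0
      · subst h'
        simp
      · have h2 : ¬ (n - 1 = -1) := by omega
        simp [h, h2]
  · intro n
    have : ¬ ((n : ℤ) = -1) := by omega
    simp [idFld, this]
  · intro γ
    rw [zero_mul, pow_zero]
    exact ⟨0, hl _⟩
  · intro s a _
    rw [zero_mul, pow_zero]
    exact ⟨0, hl _⟩

section Main

variable (hsg : ∀ v, sg (sg v) = v) (hvac : sg vac = vac) (hT0 : T vac = 0)
  (hgood : ∀ γ, Good g p sg T vac (p γ) (g γ))
  (hspan : ∀ S : Submodule ℂ E, vac ∈ S → (∀ γ n v, v ∈ S → (g γ).1 n v ∈ S) → S = ⊤)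

include hvac hT0 hspan in
theorem uniq2 {a0 a1 : Fld E} (h0 : Good g p sg T vac 0 a0) (h1 : Good g p sg T vac 1 a1)
    (h : a0.1 (-1) vac + a1.1 (-1) vac = 0) : a0 = 0 ∧ a1 = 0 := by
  have e0 := h0.par (-1) vac
  have e1 := h1.par (-1) vac
  rw [hvac, pow_zero, one_smul] at e0
  rw [hvac, pow_one, neg_one_smul] at e1
  have e2 := congrArg sg h
  rw [map_add, map_zero, e0, e1] at e2
  have e3 : (2 : ℂ) • a0.1 (-1) vac = 0 := by
    have e6 : (2 : ℂ) • a0.1 (-1) vac = (a0.1 (-1) vac + a1.1 (-1) vac) +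
        (a0.1 (-1) vac + -a1.1 (-1) vac) := by module
    rw [e6, h, e2, add_zero]
  have e4 : a0.1 (-1) vac = 0 := (smul_eq_zero.1 e3).resolve_left two_ne_zero
  have e5 : a1.1 (-1) vac = 0 := by rwa [e4, zero_add] at h
  exact ⟨h0.uniq hT0 hspan e4, h1.uniq hT0 hspan e5⟩

include hgood hspan in
theorem exists_field (v : E) : ∃ b : Fld E × Fld E,
    VGood g p sg T vac 0 b.1 ∧ VGood g p sg T vac 1 b.2 ∧
      b.1.1 (-1) vac + b.2.1 (-1) vac = v := by
  have hS := hspan
    { carrier := {v | ∃ b : Fld E × Fld E,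
        VGood g p sg T vac 0 b.1 ∧ VGood g p sg T vac 1 b.2 ∧
          b.1.1 (-1) vac + b.2.1 (-1) vac = v}
      add_mem' := by
        rintro v w ⟨b, h1, h2, h3⟩ ⟨c, h4, h5, h6⟩
        refine ⟨(b.1 + c.1, b.2 + c.2), h1.add h4, h2.add h5, ?_⟩
        simp only [Submodule.coe_add, Pi.add_apply, LinearMap.add_apply]
        rw [← h3, ← h6]
        abel
      zero_mem' := ⟨(0, 0), VGood.zero 0, VGood.zero 1, by simp⟩
      smul_mem' := by
        rintro c v ⟨b, h1, h2, h3⟩
        refine ⟨(c • b.1, c • b.2), h1.smul c, h2.smul c, ?_⟩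
        simp only [Submodule.coe_smul, Pi.smul_apply, LinearMap.smul_apply]
        rw [← h3, smul_add] }
    ⟨(idFld E, 0), VGood.id, VGood.zero 1, by simp [idFld]⟩
    (by
      rintro γ n v ⟨b, h1, h2, h3⟩
      have k1 := (VGood.gen hgood γ).np h1 n
      have k2 := (VGood.gen hgood γ).np h2 n
      have s1 := np_state (q := (-1 : ℂ) ^ (p γ * 0)) (n := n) (hgood γ).cre h1.1.cre
      have s2 := np_state (q := (-1 : ℂ) ^ (p γ * 1)) (n := n) (hgood γ).cre h2.1.cre
      rcases Nat.mod_two_eq_zero_or_one (p γ) with hp | hp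
      · refine ⟨(_, _), k1.congr (by omega), k2.congr (by omega), ?_⟩
        rw [← h3, map_add, ← s1, ← s2]
        rfl
      · refine ⟨(_, _), k2.congr (by omega), k1.congr (by omega), ?_⟩
        rw [← h3, map_add, ← s1, ← s2, add_comm]
        rfl)
  have hv : v ∈ (⊤ : Submodule ℂ E) := Submodule.mem_top
  rw [← hS] at hv
  exact hv

/-- The even and the odd part of the field of a state. -/
noncomputable def fieldOf (v : E) : Fld E × Fld E :=
  (exists_field hgood hspan v).choose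

theorem fieldOf_spec (v : E) : VGood g p sg T vac 0 (fieldOf hgood hspan v).1 ∧
    VGood g p sg T vac 1 (fieldOf hgood hspan v).2 ∧
      (fieldOf hgood hspan v).1.1 (-1) vac + (fieldOf hgood hspan v).2.1 (-1) vac = v :=
  (exists_field hgood hspan v).choose_spec

include hvac hT0 in
theorem fieldOf_uniq {v : E} {a0 a1 : Fld E} (h0 : Good g p sg T vac 0 a0)
    (h1 : Good g p sg T vac 1 a1) (h : a0.1 (-1) vac + a1.1 (-1) vac = v) :
    fieldOf hgood hspan v = (a0, a1) := by
  obtain ⟨k0, k1, k2⟩ := fieldOf_spec hgood hspan v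
  have h2 := uniq2 hvac hT0 hspan (k0.1.sub h0) (k1.1.sub h1) (by
    simp only [Submodule.coe_sub, Pi.sub_apply, LinearMap.sub_apply]
    rw [sub_add_sub_comm, k2, h, sub_self])
  exact Prod.ext (sub_eq_zero.1 h2.1) (sub_eq_zero.1 h2.2)

/-- The field of a state. -/
noncomputable def YY : E →ₗ[ℂ] Fld E where
  toFun v := (fieldOf hgood hspan v).1 + (fieldOf hgood hspan v).2
  map_add' v w := by
    obtain ⟨k0, k1, k2⟩ := fieldOf_spec hgood hspan v
    obtain ⟨l0, l1, l2⟩ := fieldOf_spec hgood hspan w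
    rw [fieldOf_uniq hvac hT0 hgood hspan (k0.1.add l0.1) (k1.1.add l1.1) (v := v + w) (by
      simp only [Submodule.coe_add, Pi.add_apply, LinearMap.add_apply]
      rw [add_add_add_comm, k2, l2])]
    simp only
    abel
  map_smul' c v := by
    obtain ⟨k0, k1, k2⟩ := fieldOf_spec hgood hspan v
    rw [fieldOf_uniq hvac hT0 hgood hspan (k0.1.smul c) (k1.1.smul c) (v := c • v) (by
      simp only [Submodule.coe_smul, Pi.smul_apply, LinearMap.smul_apply]
      rw [← smul_add, k2])]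
    simp only [RingHom.id_apply, smul_add]

theorem YY_good {r : ℕ} {a : Fld E} (h : Good g p sg T vac r a) {v : E}
    (hv : a.1 (-1) vac = v) : YY hvac hT0 hgood hspan v = a := by
  rcases Nat.mod_two_eq_zero_or_one r with hr | hr
  · have := fieldOf_uniq hvac hT0 hgood hspan (v := v) (h.congr (s := 0) (by omega))
      (Good.zero 1) (by simpa using hv)
    change (fieldOf hgood hspan v).1 + (fieldOf hgood hspan v).2 = a
    rw [this]
    simp
  · have := fieldOf_uniq hvac hT0 hgood hspan (v := v) (Good.zero 0)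
      (h.congr (s := 1) (by omega)) (by simpa using hv)
    change (fieldOf hgood hspan v).1 + (fieldOf hgood hspan v).2 = a
    rw [this]
    simp

theorem YY_state (v : E) : (YY hvac hT0 hgood hspan v).1 (-1) vac = v :=
  (fieldOf_spec hgood hspan v).2.2

theorem YY_hom {r : ℕ} {v : E} (hv : sg v = (-1 : ℂ) ^ r • v) :
    VGood g p sg T vac r (YY hvac hT0 hgood hspan v) := by
  obtain ⟨k0, k1, k2⟩ := fieldOf_spec hgood hspan v
  have e0 := k0.1.par (-1) vac
  have e1 := k1.1.par (-1) vac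
  rw [hvac, pow_zero, one_smul] at e0
  rw [hvac, pow_one, neg_one_smul] at e1
  have e2 := congrArg sg k2
  rw [map_add, e0, e1, hv] at e2
  change VGood g p sg T vac r ((fieldOf hgood hspan v).1 + (fieldOf hgood hspan v).2)
  rcases Nat.mod_two_eq_zero_or_one r with hr | hr
  · have hs : (-1 : ℂ) ^ r = 1 := by rw [sgn_congr (l := 0) (by omega), pow_zero]
    rw [hs, one_smul] at e2
    have e3 : (2 : ℂ) • (fieldOf hgood hspan v).2.1 (-1) vac = 0 := by
      have : (2 : ℂ) • (fieldOf hgood hspan v).2.1 (-1) vac =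
        ((fieldOf hgood hspan v).1.1 (-1) vac + (fieldOf hgood hspan v).2.1 (-1) vac) -
        ((fieldOf hgood hspan v).1.1 (-1) vac + -(fieldOf hgood hspan v).2.1 (-1) vac) := by
        module
      rw [this, k2, e2, sub_self]
    have e4 := k1.1.uniq hT0 hspan ((smul_eq_zero.1 e3).resolve_left two_ne_zero)
    rw [e4, add_zero]
    exact k0.congr (by omega)
  · have hs : (-1 : ℂ) ^ r = -1 := by rw [sgn_congr (l := 1) (by omega), pow_one]
    rw [hs, neg_one_smul] at e2
    have e3 : (2 : ℂ) • (fieldOf hgood hspan v).1.1 (-1) vac = 0 := by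
      have : (2 : ℂ) • (fieldOf hgood hspan v).1.1 (-1) vac =
        ((fieldOf hgood hspan v).1.1 (-1) vac + (fieldOf hgood hspan v).2.1 (-1) vac) +
        ((fieldOf hgood hspan v).1.1 (-1) vac + -(fieldOf hgood hspan v).2.1 (-1) vac) := by
        module
      rw [this, k2, e2, add_neg_cancel]
    have e4 := k0.1.uniq hT0 hspan ((smul_eq_zero.1 e3).resolve_left two_ne_zero)
    rw [e4, zero_add]
    exact k1.congr (by omega)

/-- The even part of a vector. -/
theorem exists_parts (hsg : ∀ v, sg (sg v) = v) (v : E) :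
    ∃ v0 v1 : E, v = v0 + v1 ∧ sg v0 = (-1 : ℂ) ^ 0 • v0 ∧ sg v1 = (-1 : ℂ) ^ 1 • v1 := by
  refine ⟨(1 / 2 : ℂ) • (v + sg v), (1 / 2 : ℂ) • (v - sg v), ?_, ?_, ?_⟩
  · module
  · rw [map_smul, map_add, hsg]
    module
  · rw [map_smul, map_sub, hsg]
    module

/-- Modes of a product. -/
theorem YY_np {r s : ℕ} {a b : E} (ha : sg a = (-1 : ℂ) ^ r • a) (hb : sg b = (-1 : ℂ) ^ s • b)
    (n : ℤ) : YY hvac hT0 hgood hspan ((YY hvac hT0 hgood hspan a).1 n b) =
      np ((-1 : ℂ) ^ (r * s)) n (YY hvac hT0 hgood hspan a) (YY hvac hT0 hgood hspan b) := by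
  have ga := YY_hom hvac hT0 hgood hspan ha
  have gb := YY_hom hvac hT0 hgood hspan hb
  refine YY_good hvac hT0 hgood hspan (ga.np gb n).1 ?_
  rw [np_state ga.1.cre gb.1.cre, YY_state]

end Main

end Recon

end F2

section F2
variable {E : Type*} [AddCommGroup E] [Module ℂ E]

open F2 in
theorem exists_VSA {Γ : Type*} (g : Γ → Fld E) (p : Γ → ℕ) (sg T : E →ₗ[ℂ] E) (vac : E)
    (hsg : ∀ v, sg (sg v) = v) (hvac : sg vac = vac) (hT0 : T vac = 0)
    (hpar : ∀ γ n v, sg ((g γ).1 n v) = (-1 : ℂ) ^ p γ • (g γ).1 n (sg v))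
    (hT : ∀ γ n v, T ((g γ).1 n v) - (g γ).1 n (T v) = (-(n : ℂ)) • (g γ).1 (n - 1) v)
    (hcr : ∀ γ (n : ℕ), (g γ).1 n vac = 0)
    (hloc : ∀ γ δ, ∃ N, Loc ((-1 : ℂ) ^ (p γ * p δ)) N (g γ) (g δ))
    (hspan : ∀ S : Submodule ℂ E, vac ∈ S → (∀ γ n v, v ∈ S → (g γ).1 n v ∈ S) → S = ⊤) :
    ∃ V : VSA E, V.vac = vac ∧ V.sg = sg ∧ V.T = T ∧
      ∀ γ, V.Y ((g γ).1 (-1) vac) = (g γ).1 := by
  have hgood : ∀ γ, Good g p sg T vac (p γ) (g γ) := fun γ =>
    ⟨hpar γ, hT γ, hcr γ, fun δ => hloc γ δ⟩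
  set W := YY hvac hT0 hgood hspan with hW
  have hpart := fun v => exists_parts (sg := sg) hsg v
  let V : VSA E :=
    { Y := (fldSub E).subtype.comp W
      vac := vac
      sg := sg
      trunc := fun a b => (W a).2 b
      Y_vac := fun n => by
        have h : W vac = idFld E := YY_good hvac hT0 hgood hspan VGood.id.1 (by simp [idFld])
        change (W vac).1 n = _
        rw [h]
        rfl
      create := fun a => YY_state hvac hT0 hgood hspan a
      create' := fun a n => by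
        obtain ⟨a0, a1, rfl, h0, h1⟩ := hpart a
        change (W (a0 + a1)).1 n vac = 0
        rw [map_add]
        simp only [Submodule.coe_add, Pi.add_apply, LinearMap.add_apply]
        rw [(YY_hom hvac hT0 hgood hspan h0).1.cre, (YY_hom hvac hT0 hgood hspan h1).1.cre,
          add_zero]
      sg_sg := hsg
      sg_vac := hvac
      sg_Y := fun a n b => by
        obtain ⟨a0, a1, rfl, h0, h1⟩ := hpart a
        change sg ((W (a0 + a1)).1 n b) = (W (sg (a0 + a1))).1 n (sg b)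
        rw [map_add, map_add sg, h0, h1, map_add, map_smul, map_smul]
        simp only [Submodule.coe_add, Pi.add_apply, LinearMap.add_apply, Submodule.coe_smul,
          Pi.smul_apply, LinearMap.smul_apply, map_add]
        rw [(YY_hom hvac hT0 hgood hspan h0).1.par, (YY_hom hvac hT0 hgood hspan h1).1.par]
      comm := fun r s a b ha hb N hN m n c => by
        have ga := YY_hom hvac hT0 hgood hspan ha
        have gb := YY_hom hvac hT0 hgood hspan hb
        obtain ⟨M, hM⟩ := ga.2 s _ gb.1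
        change (W a).1 m ((W b).1 n c) - (-1 : ℂ) ^ (r * s) • (W b).1 n ((W a).1 m c) =
          ∑ j ∈ Finset.range N, bin m j • (W ((W a).1 j b)).1 (m + n - j) c
        have h1 := hM.comm m n c
        rw [h1]
        have h2 : ∀ j : ℕ, np ((-1 : ℂ) ^ (r * s)) (j : ℤ) (W a) (W b) = W ((W a).1 j b) :=
          fun j => (YY_np hvac hT0 hgood hspan ha hb j).symm
        simp only [← hW] at *
        simp only [h2]
        have h3 : ∀ j, M ≤ j → W ((W a).1 j b) = 0 := fun j hj => by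
          rw [← h2]
          exact hM.np_eq_zero j hj
        have h4 : ∀ j : ℕ, N ≤ j → W ((W a).1 j b) = 0 := fun j hj => by
          have : (W a).1 j b = 0 := hN j hj
          rw [this, map_zero]
        have e1 : ∀ L K : ℕ, L ≤ K → (∀ j : ℕ, L ≤ j → W ((W a).1 j b) = 0) →
            ∑ j ∈ Finset.range L, bin m j • (W ((W a).1 j b)).1 (m + n - j) c =
            ∑ j ∈ Finset.range K, bin m j • (W ((W a).1 j b)).1 (m + n - j) c := by
          intro L K hLK hz
          apply Finset.sum_subset (Finset.range_mono hLK)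
          intro j _ hj
          rw [hz j (by simpa using hj)]
          simp
        rw [e1 M (max M N) (le_max_left _ _) h3, e1 N (max M N) (le_max_right _ _) h4]
      assoc := fun r s a b ha hb m n c N hN => by
        change (W ((W a).1 m b)).1 n c = _
        rw [hW, YY_np hvac hT0 hgood hspan ha hb m, ← hW,
          np_apply_of_bound _ _ _ _ _ _ N hN]
        rfl }
  refine ⟨V, rfl, rfl, ?_, fun γ => ?_⟩
  · ext a
    change (W a).1 (-2) vac = T a
    have h1 : T ((W a).1 (-1) vac) - (W a).1 (-1) (T vac) =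
        (-(((-1 : ℤ)) : ℂ)) • (W a).1 (-1 - 1) vac := by
      obtain ⟨a0, a1, rfl, h0, h1⟩ := hpart a
      have k0 := (YY_hom hvac hT0 hgood hspan h0).1.cov (-1) vac
      have k1 := (YY_hom hvac hT0 hgood hspan h1).1.cov (-1) vac
      rw [← hW] at k0 k1
      rw [map_add]
      simp only [Submodule.coe_add, Pi.add_apply, LinearMap.add_apply, map_add, smul_add]
      rw [← k0, ← k1]
      abel
    rw [hT0, map_zero, sub_zero, YY_state] at h1
    rw [h1]
    norm_num
  · change (W _).1 = _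
    rw [hW, YY_good hvac hT0 hgood hspan (hgood γ) rfl]

/-- the field of a state -/
def VSA.Yf (V : VSA E) (a : E) : Fld E := ⟨V.Y a, V.trunc a⟩

/-- products of fields are fields of products -/
theorem VSA.np_Yf (V : VSA E) {p q : ℕ} {a b : E} (ha : V.Par p a) (hb : V.Par q b) (n : ℤ) :
    np ((-1 : ℂ) ^ (p * q)) n (V.Yf a) (V.Yf b) = V.Yf (V.Y a n b) := by
  apply Subtype.ext
  funext k
  apply LinearMap.ext
  intro v
  obtain ⟨N, hN⟩ := exists_bound (V.Yf a) (V.Yf b) k v
  rw [np_apply_of_bound _ _ _ _ _ _ N hN]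
  exact (V.assoc p q a b ha hb n k v N hN).symm

namespace F2

/-- Scalars with which an additive map commutes. -/
def IC {E' : Type*} [AddCommGroup E'] [Module ℂ E'] (h : E →+ E') (c : ℂ) : Prop :=
  ∀ x, h (c • x) = c • h x

section IC
variable {E' : Type*} [AddCommGroup E'] [Module ℂ E'] {h : E →+ E'}

theorem IC.intCast (z : ℤ) : IC h (z : ℂ) := fun x => by
  rw [Int.cast_smul_eq_zsmul, map_zsmul, Int.cast_smul_eq_zsmul]

theorem IC.mul {c d : ℂ} (hc : IC h c) (hd : IC h d) : IC h (c * d) := fun x => by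
  rw [mul_smul, hc, hd, mul_smul]

theorem IC.one : IC h 1 := fun x => by simp

theorem IC.negOne : IC h (-1) := fun x => by simp

theorem IC.pow {c : ℂ} (hc : IC h c) (k : ℕ) : IC h (c ^ k) := by
  induction k with
  | zero => rw [pow_zero]; exact IC.one
  | succ k ih => rw [pow_succ]; exact ih.mul hc

theorem IC.zpow (m : ℤ) : IC h ((-1 : ℂ) ^ m) := by
  rcases Int.even_or_odd m with hm | hm
  · rw [hm.neg_one_zpow]; exact IC.one
  · rw [hm.neg_one_zpow]; exact IC.negOne

theorem IC.bin (m : ℤ) (j : ℕ) : IC h (bin m j) := IC.intCast _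

theorem IC.half : IC h (1 / 2) := fun x => by
  have h1 : h x = (2 : ℂ) • h ((1 / 2 : ℂ) • x) := by
    have h2 : x = (1 / 2 : ℂ) • x + (1 / 2 : ℂ) • x := by module
    conv_lhs => rw [h2]
    rw [map_add]
    module
  rw [h1]
  module

end IC

theorem vsa_bound (V : VSA E) (a b : E) (k : ℤ) (v : E) :
    ∃ N : ℕ, ∀ j : ℕ, N ≤ j → V.Y b (k + j) v = 0 ∧ V.Y a j v = 0 :=
  exists_bound (⟨V.Y a, V.trunc a⟩ : Fld E) ⟨V.Y b, V.trunc b⟩ k v

theorem hom_key {E' : Type*} [AddCommGroup E'] [Module ℂ E'] (V : VSA E) (V' : VSA E')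
    (h : E →+ E') (hsg : ∀ v, h (V.sg v) = V'.sg (h v)) {p r : ℕ} {g b : E}
    (hg : V.Par p g) (hg' : V'.Par p (h g)) (hb : V.Par r b)
    (hY : ∀ n v, h (V.Y g n v) = V'.Y (h g) n (h v))
    (hP : ∀ n v, h (V.Y b n v) = V'.Y (h b) n (h v)) (m n : ℤ) (c : E) :
    h (V.Y (V.Y g m b) n c) = V'.Y (h (V.Y g m b)) n (h c) := by
  obtain ⟨N, hN⟩ := vsa_bound V g b n c
  have hb' : V'.Par r (h b) := by
    unfold VSA.Par
    rw [← hsg, hb, IC.pow IC.negOne]
  rw [V.assoc p r g b hg hb m n c N hN, hY m b,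
    V'.assoc p r (h g) (h b) hg' hb' m n (h c) N (fun j hj => by
      rw [← hP, ← hY, (hN j hj).1, (hN j hj).2, map_zero]
      exact ⟨rfl, rfl⟩), map_sum]
  refine Finset.sum_congr rfl fun j _ => ?_
  rw [((IC.negOne.pow j).mul (IC.bin m j)) _, map_sub,
    ((IC.zpow m).mul (IC.negOne.pow (p * r))) _, hY, hP, hP, hY]

theorem der_key (V : VSA E) (Δ : E →ₗ[ℂ] E) (s : ℂ) (hsg : ∀ v, Δ (V.sg v) = V.sg (Δ v))
    {p r : ℕ} {g b : E} (hg : V.Par p g) (hg' : V.Par p (Δ g)) (hb : V.Par r b)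
    (hY : ∀ (n : ℤ) v, Δ (V.Y g n v) =
      V.Y (Δ g) n v + V.Y g n (Δ v) - (s * (n + 1)) • V.Y g n v)
    (hP : ∀ (n : ℤ) v, Δ (V.Y b n v) =
      V.Y (Δ b) n v + V.Y b n (Δ v) - (s * (n + 1)) • V.Y b n v) (m n : ℤ) (c : E) :
    Δ (V.Y (V.Y g m b) n c) = V.Y (Δ (V.Y g m b)) n c + V.Y (V.Y g m b) n (Δ c)
      - (s * (n + 1)) • V.Y (V.Y g m b) n c := by
  have hb' : V.Par r (Δ b) := by
    unfold VSA.Par
    rw [← hsg, hb, map_smul]
  obtain ⟨N1, h1⟩ := vsa_bound V g b n c
  obtain ⟨N2, h2⟩ := vsa_bound V (Δ g) (Δ b) n c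
  obtain ⟨N3, h3⟩ := vsa_bound V g b n (Δ c)
  set N := max N1 (max N2 N3) with hN
  have k1 : ∀ j, N ≤ j → N1 ≤ j := fun j hj => le_trans (le_max_left _ _) hj
  have k2 : ∀ j, N ≤ j → N2 ≤ j := fun j hj =>
    le_trans (le_trans (le_max_left _ _) (le_max_right _ _)) hj
  have k3 : ∀ j, N ≤ j → N3 ≤ j := fun j hj =>
    le_trans (le_trans (le_max_right _ _) (le_max_right _ _)) hj
  have a1 := V.assoc p r g b hg hb m n c N fun j hj => h1 j (k1 j hj)
  have a2 := V.assoc p r g b hg hb m n (Δ c) N fun j hj => h3 j (k3 j hj)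
  have a3 := V.assoc p r (Δ g) b hg' hb m n c N fun j hj =>
    ⟨(h1 j (k1 j hj)).1, (h2 j (k2 j hj)).2⟩
  have a4 := V.assoc p r g (Δ b) hg hb' m n c N fun j hj =>
    ⟨(h2 j (k2 j hj)).1, (h1 j (k1 j hj)).2⟩
  rw [hY m b]
  simp only [map_add, map_sub, map_smul, Pi.add_apply, Pi.sub_apply, Pi.smul_apply,
    LinearMap.add_apply, LinearMap.sub_apply, LinearMap.smul_apply]
  rw [a1, a2, a3, a4, map_sum, Finset.smul_sum, Finset.smul_sum, ← Finset.sum_add_distrib,
    ← Finset.sum_sub_distrib, ← Finset.sum_add_distrib, ← Finset.sum_sub_distrib]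
  refine Finset.sum_congr rfl fun j _ => ?_
  simp only [map_smul, map_sub, hY, hP, map_add]
  push_cast
  module

end F2

open F2 in
/-- a map compatible with the generating fields is a homomorphism -/
theorem VSA.hom_of_gen {E' : Type*} [AddCommGroup E'] [Module ℂ E'] (V : VSA E) (V' : VSA E')
    (h : E →+ E') (G : Set E)
    (hG : ∀ g ∈ G, ∃ p : ℕ, V.Par p g ∧ V'.Par p (h g))
    (hgen : ∀ S : AddSubgroup E, V.vac ∈ S → (∀ g ∈ G, ∀ n, ∀ v ∈ S, V.Y g n v ∈ S) → S = ⊤)
    (hvac : h V.vac = V'.vac) (hsg : ∀ v, h (V.sg v) = V'.sg (h v))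
    (hY : ∀ g ∈ G, ∀ n v, h (V.Y g n v) = V'.Y (h g) n (h v)) :
    ∀ a n v, h (V.Y a n v) = V'.Y (h a) n (h v) := by
  let P : E → Prop := fun a => ∀ n v, h (V.Y a n v) = V'.Y (h a) n (h v)
  have hadd : ∀ a b, P a → P b → P (a + b) := by
    intro a b ha hb n v
    simp only [map_add, Pi.add_apply, LinearMap.add_apply, ha n v, hb n v]
  have hsm : ∀ (c : ℂ) (a : E), IC h c → P a → P (c • a) := by
    intro c a hc ha n v
    rw [map_smul, Pi.smul_apply, LinearMap.smul_apply, hc, hc, ha n v, map_smul,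
      Pi.smul_apply, LinearMap.smul_apply]
  have hneg : ∀ a, P a → P (-a) := by
    intro a ha
    have := hsm (-1) a IC.negOne ha
    rwa [neg_one_smul] at this
  have hsub : ∀ a b, P a → P b → P (a - b) := by
    intro a b ha hb
    rw [sub_eq_add_neg]
    exact hadd a _ ha (hneg b hb)
  have hS := hgen
    { carrier := {a | P a ∧ P (V.sg a)}
      add_mem' := fun {a b} ha hb => ⟨hadd a b ha.1 hb.1, by
        rw [map_add]; exact hadd _ _ ha.2 hb.2⟩
      zero_mem' := by
        have h0 : P 0 := fun n v => by simp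
        exact ⟨h0, by rw [map_zero]; exact h0⟩
      neg_mem' := fun {a} ha => ⟨hneg a ha.1, by rw [map_neg]; exact hneg _ ha.2⟩ }
    (by
      have hv : P V.vac := by
        intro n v
        rw [hvac, V.Y_vac, V'.Y_vac]
        split_ifs
        · rfl
        · simp
      exact ⟨hv, by rw [V.sg_vac]; exact hv⟩)
    (by
      rintro g hgG m v ⟨hv, hsv⟩
      obtain ⟨p, hp, hp'⟩ := hG g hgG
      set v0 := (1 / 2 : ℂ) • (v + V.sg v) with hv0
      set v1 := (1 / 2 : ℂ) • (v - V.sg v) with hv1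
      have q0 : V.Par 0 v0 := by
        unfold VSA.Par
        rw [hv0, map_smul, map_add, V.sg_sg]
        module
      have q1 : V.Par 1 v1 := by
        unfold VSA.Par
        rw [hv1, map_smul, map_sub, V.sg_sg]
        module
      have P0 : P v0 := hsm _ _ IC.half (hadd _ _ hv hsv)
      have P1 : P v1 := hsm _ _ IC.half (hsub _ _ hv hsv)
      have K0 : P (V.Y g m v0) := fun n c =>
        hom_key V V' h hsg hp hp' q0 (hY g hgG) P0 m n c
      have K1 : P (V.Y g m v1) := fun n c =>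
        hom_key V V' h hsg hp hp' q1 (hY g hgG) P1 m n c
      have e0 : v = v0 + v1 := by rw [hv0, hv1]; module
      have e1 : V.sg v = v0 - v1 := by rw [hv0, hv1]; module
      refine ⟨?_, ?_⟩
      · rw [e0, map_add]
        exact hadd _ _ K0 K1
      · rw [V.sg_Y, hp, e1, map_smul, Pi.smul_apply, LinearMap.smul_apply, map_sub]
        exact hsm _ _ (IC.negOne.pow p) (hsub _ _ K0 K1))
  intro a
  have ha : a ∈ (⊤ : AddSubgroup E) := AddSubgroup.mem_top a
  rw [← hS] at ha
  exact ha.1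

open F2 in
/-- derivations (with weight shift `s`) are determined by the generating fields -/
theorem VSA.der_of_gen (V : VSA E) (Δ : E →ₗ[ℂ] E) (s : ℂ) (G : Set E)
    (hG : ∀ g ∈ G, ∃ p : ℕ, V.Par p g ∧ V.Par p (Δ g))
    (hgen : ∀ S : AddSubgroup E, V.vac ∈ S → (∀ g ∈ G, ∀ n, ∀ v ∈ S, V.Y g n v ∈ S) → S = ⊤)
    (hvac : Δ V.vac = 0) (hsg : ∀ v, Δ (V.sg v) = V.sg (Δ v))
    (hY : ∀ g ∈ G, ∀ (n : ℤ) v, Δ (V.Y g n v) =
      V.Y (Δ g) n v + V.Y g n (Δ v) - (s * (n + 1)) • V.Y g n v) :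
    ∀ a (n : ℤ) v, Δ (V.Y a n v) =
      V.Y (Δ a) n v + V.Y a n (Δ v) - (s * (n + 1)) • V.Y a n v := by
  let P : E → Prop := fun a => ∀ (n : ℤ) v, Δ (V.Y a n v) =
      V.Y (Δ a) n v + V.Y a n (Δ v) - (s * (n + 1)) • V.Y a n v
  have hadd : ∀ a b, P a → P b → P (a + b) := by
    intro a b ha hb n v
    simp only [map_add, Pi.add_apply, LinearMap.add_apply, ha n v, hb n v]
    module
  have hsm : ∀ (c : ℂ) (a : E), P a → P (c • a) := by
    intro c a ha n v
    simp only [map_smul, Pi.smul_apply, LinearMap.smul_apply, ha n v]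
    module
  have hneg : ∀ a, P a → P (-a) := by
    intro a ha
    have := hsm (-1) a ha
    rwa [neg_one_smul] at this
  have hsub : ∀ a b, P a → P b → P (a - b) := by
    intro a b ha hb
    rw [sub_eq_add_neg]
    exact hadd a _ ha (hneg b hb)
  have hS := hgen
    { carrier := {a | P a ∧ P (V.sg a)}
      add_mem' := fun {a b} ha hb => ⟨hadd a b ha.1 hb.1, by
        rw [map_add]; exact hadd _ _ ha.2 hb.2⟩
      zero_mem' := by
        have h0 : P 0 := fun n v => by simp
        exact ⟨h0, by rw [map_zero]; exact h0⟩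
      neg_mem' := fun {a} ha => ⟨hneg a ha.1, by rw [map_neg]; exact hneg _ ha.2⟩ }
    (by
      have hv : P V.vac := by
        intro n v
        rw [hvac, V.Y_vac]
        split_ifs with hn
        · subst hn
          simp
        · simp
      exact ⟨hv, by rw [V.sg_vac]; exact hv⟩)
    (by
      rintro g hgG m v ⟨hv, hsv⟩
      obtain ⟨p, hp, hp'⟩ := hG g hgG
      set v0 := (1 / 2 : ℂ) • (v + V.sg v) with hv0
      set v1 := (1 / 2 : ℂ) • (v - V.sg v) with hv1
      have q0 : V.Par 0 v0 := by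
        unfold VSA.Par
        rw [hv0, map_smul, map_add, V.sg_sg]
        module
      have q1 : V.Par 1 v1 := by
        unfold VSA.Par
        rw [hv1, map_smul, map_sub, V.sg_sg]
        module
      have P0 : P v0 := hsm _ _ (hadd _ _ hv hsv)
      have P1 : P v1 := hsm _ _ (hsub _ _ hv hsv)
      have K0 : P (V.Y g m v0) := fun n c =>
        der_key V Δ s hsg hp hp' q0 (hY g hgG) P0 m n c
      have K1 : P (V.Y g m v1) := fun n c =>
        der_key V Δ s hsg hp hp' q1 (hY g hgG) P1 m n c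
      have e0 : v = v0 + v1 := by rw [hv0, hv1]; module
      have e1 : V.sg v = v0 - v1 := by rw [hv0, hv1]; module
      refine ⟨?_, ?_⟩
      · rw [e0, map_add]
        exact hadd _ _ K0 K1
      · rw [V.sg_Y, hp, e1, map_smul, Pi.smul_apply, LinearMap.smul_apply, map_sub]
        exact hsm _ _ (hsub _ _ K0 K1))
  intro a
  have ha : a ∈ (⊤ : AddSubgroup E) := AddSubgroup.mem_top a
  rw [← hS] at ha
  exact ha.1

end F2

end Pool.Agent.AA3
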