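import Pool.Agent.Lib.MP_aa3aaf_al.FockVSA
import Pool.Agent.Lib.MP_aa3aaf_al.Exist

/-!
Diagonal derivations of the Fock space, the conformal weight (task K5b).
-/

set_option autoImplicit false
open scoped BigOperators
noncomputable section
namespace Pool.Agent.AA3

section K5
variable {n : ℕ} {A A' : Type*} [CommRing A] [Algebra ℂ A] [CommRing A'] [Algebra ℂ A']

/-- weight of a monomial: `x`-letters `(i,k)` have weight `wX + s k`, `β`-letters
`2 s - wX + s k`, `c`-letters `wC + s k`, `b`-letters `s - wC + s k` -/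
def wgt (wX wC s : ℂ) (w : Mon n) : ℂ :=
  (w.1.map fun p => wX + s * p.2).sum + (w.2.1.map fun p => 2 * s - wX + s * p.2).sum
    + ∑ t ∈ w.2.2, (if (ofLex t).1 = false then wC else s - wC) + ∑ t ∈ w.2.2,
      s * ((ofLex (ofLex t).2).2 : ℂ)

/-- diagonal derivations -/
def dg (δ : A →ₗ[ℂ] A) (wX wC s : ℂ) : EE n A →ₗ[ℂ] EE n A :=
  Finsupp.lsum ℂ fun w : Mon n =>
    (Finsupp.lsingle w).comp (δ + (wgt wX wC s w) • LinearMap.id)

namespace K5b

lemma dg_single (δ : A →ₗ[ℂ] A) (wX wC s : ℂ) (w : Mon n) (r : A) :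
    dg δ wX wC s (Finsupp.single w r) = Finsupp.single w (δ r + wgt wX wC s w • r) := by
  simp [dg]

/-- letter weight of a fermionic letter -/
def fw (wC s : ℂ) (t : Fl n) : ℂ :=
  (if (ofLex t).1 = false then wC else s - wC) + s * ((ofLex (ofLex t).2).2 : ℂ)

lemma wgt_eq (wX wC s : ℂ) (w : Mon n) :
    wgt wX wC s w = (w.1.map fun p => wX + s * p.2).sum
      + (w.2.1.map fun p => 2 * s - wX + s * p.2).sum + ∑ t ∈ w.2.2, fw wC s t := by
  simp only [wgt, fw, Finset.sum_add_distrib]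
  ring

/-- An operator that maps every monomial to a multiple of a monomial whose weight
is shifted by `κ`, being `A`-linear, is homogeneous. -/
lemma dg_comm_of_single (δ : Derivation ℂ A A) (wX wC s κ : ℂ) (L : EE n A →ₗ[A] EE n A)
    (h : ∀ w : Mon n, ∃ (w' : Mon n) (c : A), δ c = 0 ∧ L (Finsupp.single w 1) = Finsupp.single w' c ∧
      (c = 0 ∨ wgt wX wC s w' = wgt wX wC s w + κ)) (v : EE n A) :
    dg (δ : A →ₗ[ℂ] A) wX wC s (L v) = L (dg (δ : A →ₗ[ℂ] A) wX wC s v) + κ • L v := by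
  induction v using Finsupp.induction_linear with
  | zero => simp
  | add f g hf hg => simp only [map_add, hf, hg, smul_add]; abel
  | single w r =>
    obtain ⟨w', c, hc, hL, hw⟩ := h w
    have hL' : ∀ r : A, L (Finsupp.single w r) = Finsupp.single w' (r * c) := by
      intro r
      have : (Finsupp.single w r : EE n A) = r • Finsupp.single w 1 := by simp
      rw [this, map_smul, hL]; simp
    rw [hL', dg_single, dg_single, hL']
    rw [Finsupp.smul_single, ← Finsupp.single_add]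
    congr 1
    rcases hw with hw | hw
    · subst hw; simp
    · rw [hw]
      have h3 : (δ : A →ₗ[ℂ] A) (r * c) = (δ : A →ₗ[ℂ] A) r * c := by
        simp [Derivation.leibniz, hc, mul_comm]
      rw [h3, add_mul, smul_mul_assoc, add_smul, add_assoc]

lemma δ_natCast (δ : Derivation ℂ A A) (k : ℕ) : δ (k : A) = 0 := by
  exact δ.map_natCast k

lemma δ_fsg (δ : Derivation ℂ A A) (t : Fl n) (S : Finset (Fl n)) : δ (fsg A t S) = 0 := by
  rw [fsg]
  have : ((-1 : A) ^ (S.filter (· < t)).card) = (((-1 : ℤ) ^ (S.filter (· < t)).card : ℤ) : A) := by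
    push_cast; rfl
  rw [this]
  exact δ.map_intCast _

lemma dg_xcr (δ : Derivation ℂ A A) (wX wC s : ℂ) (p : Bl n) (v : EE n A) :
    dg (δ : A →ₗ[ℂ] A) wX wC s (xcr p v) =
      xcr p (dg (δ : A →ₗ[ℂ] A) wX wC s v) + (wX + s * p.2) • xcr p v := by
  apply dg_comm_of_single
  intro w
  refine ⟨(p ::ₘ w.1, w.2.1, w.2.2), 1, by simp, xcr_single p w 1, Or.inr ?_⟩
  simp only [wgt_eq, Multiset.map_cons, Multiset.sum_cons]
  ring

lemma dg_ycr (δ : Derivation ℂ A A) (wX wC s : ℂ) (p : Bl n) (v : EE n A) :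
    dg (δ : A →ₗ[ℂ] A) wX wC s (ycr p v) =
      ycr p (dg (δ : A →ₗ[ℂ] A) wX wC s v) + (2 * s - wX + s * p.2) • ycr p v := by
  apply dg_comm_of_single
  intro w
  refine ⟨(w.1, p ::ₘ w.2.1, w.2.2), 1, by simp, ycr_single p w 1, Or.inr ?_⟩
  simp only [wgt_eq, Multiset.map_cons, Multiset.sum_cons]
  ring

lemma sum_erase (g : Bl n → ℂ) (s : Multiset (Bl n)) (p : Bl n) (hp : p ∈ s) :
    ((s.erase p).map g).sum = (s.map g).sum - g p := by
  have h := Multiset.cons_erase hp
  have h2 : (s.map g).sum = g p + ((s.erase p).map g).sum := by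
    conv_lhs => rw [← h]
    rw [Multiset.map_cons, Multiset.sum_cons]
  rw [h2]; ring

lemma dg_xan (δ : Derivation ℂ A A) (wX wC s : ℂ) (p : Bl n) (v : EE n A) :
    dg (δ : A →ₗ[ℂ] A) wX wC s (xan p v) =
      xan p (dg (δ : A →ₗ[ℂ] A) wX wC s v) + (-(wX + s * p.2)) • xan p v := by
  apply dg_comm_of_single
  intro w
  refine ⟨(w.1.erase p, w.2.1, w.2.2), 1 * (w.1.count p : ℕ), by rw [one_mul]; exact δ_natCast δ _,
    xan_single p w 1, ?_⟩
  by_cases hp : p ∈ w.1
  · right
    simp only [wgt_eq]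
    rw [sum_erase _ _ _ hp]
    ring
  · left
    simp [Multiset.count_eq_zero_of_notMem hp]

lemma dg_yan (δ : Derivation ℂ A A) (wX wC s : ℂ) (p : Bl n) (v : EE n A) :
    dg (δ : A →ₗ[ℂ] A) wX wC s (yan p v) =
      yan p (dg (δ : A →ₗ[ℂ] A) wX wC s v) + (-(2 * s - wX + s * p.2)) • yan p v := by
  apply dg_comm_of_single
  intro w
  refine ⟨(w.1, w.2.1.erase p, w.2.2), 1 * (w.2.1.count p : ℕ), by rw [one_mul]; exact δ_natCast δ _,
    yan_single p w 1, ?_⟩
  by_cases hp : p ∈ w.2.1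
  · right
    simp only [wgt_eq]
    rw [sum_erase _ _ _ hp]
    ring
  · left
    simp [Multiset.count_eq_zero_of_notMem hp]

lemma dg_fcr (δ : Derivation ℂ A A) (wX wC s : ℂ) (t : Fl n) (v : EE n A) :
    dg (δ : A →ₗ[ℂ] A) wX wC s (fcr t v) =
      fcr t (dg (δ : A →ₗ[ℂ] A) wX wC s v) + (fw wC s t) • fcr t v := by
  apply dg_comm_of_single
  intro w
  by_cases ht : t ∈ w.2.2
  · refine ⟨w, 0, by simp, ?_, Or.inl rfl⟩
    rw [fcr_single, if_pos ht]; simp
  · refine ⟨(w.1, w.2.1, insert t w.2.2), 1 * fsg A t w.2.2, by rw [one_mul]; exact δ_fsg δ _ _, ?_,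
      Or.inr ?_⟩
    · rw [fcr_single, if_neg ht]
    · simp only [wgt_eq]
      rw [Finset.sum_insert ht]
      ring

lemma dg_fan (δ : Derivation ℂ A A) (wX wC s : ℂ) (t : Fl n) (v : EE n A) :
    dg (δ : A →ₗ[ℂ] A) wX wC s (fan t v) =
      fan t (dg (δ : A →ₗ[ℂ] A) wX wC s v) + (-(fw wC s t)) • fan t v := by
  apply dg_comm_of_single
  intro w
  by_cases ht : t ∈ w.2.2
  · refine ⟨(w.1, w.2.1, w.2.2.erase t), 1 * fsg A t w.2.2, by rw [one_mul]; exact δ_fsg δ _ _, ?_,
      Or.inr ?_⟩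
    · rw [fan_single, if_pos ht]
    · simp only [wgt_eq]
      rw [← Finset.add_sum_erase _ _ ht]
      ring
  · refine ⟨w, 0, by simp, ?_, Or.inl rfl⟩
    rw [fan_single, if_neg ht]; simp

lemma dg_dA (D : DS n A) (δ : Derivation ℂ A A) (wX wC s : ℂ)
    (hδ : ∀ i f, δ (D.d i f) - D.d i (δ f) = (s - wX) • D.d i f) (i : Fin n) (v : EE n A) :
    dg (δ : A →ₗ[ℂ] A) wX wC s (dA D i v) =
      dA D i (dg (δ : A →ₗ[ℂ] A) wX wC s v) + (s - wX) • dA D i v := by
  induction v using Finsupp.induction_linear with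
  | zero => simp
  | add f g hf hg => simp only [map_add, hf, hg, smul_add]; abel
  | single w r =>
    have h1 : ∀ r : A, dA D i (Finsupp.single w r) = Finsupp.single w (D.d i r) := by
      intro r; simp [dA]
    rw [h1, dg_single, dg_single, h1, Finsupp.smul_single, ← Finsupp.single_add]
    congr 1
    simp only [Derivation.coeFn_coe, map_add, Derivation.map_smul]
    rw [← hδ i r]
    abel

lemma dg_smul (δ : Derivation ℂ A A) (wX wC s : ℂ) (a : A) (v : EE n A) :
    dg (δ : A →ₗ[ℂ] A) wX wC s (a • v) = (δ a) • v + a • dg (δ : A →ₗ[ℂ] A) wX wC s v := by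
  induction v using Finsupp.induction_linear with
  | zero => simp
  | add f g hf hg => simp only [map_add, hf, hg, smul_add]; abel
  | single w r =>
    rw [Finsupp.smul_single, dg_single, dg_single, Finsupp.smul_single, Finsupp.smul_single,
      ← Finsupp.single_add]
    congr 1
    simp only [Derivation.coeFn_coe, smul_eq_mul, Derivation.leibniz, mul_add, mul_smul_comm]
    ring

lemma Sop_add (D : DS n A) (r : ℕ) (g g' : A) :
    Sop D r (g + g') = Sop D r g + Sop D r g' := by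
  induction r using Nat.strong_induction_on generalizing g g' with
  | _ r ih =>
    cases r with
    | zero => simp [Sop]
    | succ r =>
      simp only [Sop]
      rw [← smul_add, ← Finset.sum_add_distrib]
      congr 1
      refine Finset.sum_congr rfl fun i _ => ?_
      rw [← Finset.sum_add_distrib]
      refine Finset.sum_congr rfl fun k _ => ?_
      rw [map_add, ih _ (by omega), LinearMap.comp_add]

lemma Sop_smul (D : DS n A) (r : ℕ) (c : ℂ) (g : A) :
    Sop D r (c • g) = (algebraMap ℂ A c) • Sop D r g := by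
  induction r using Nat.strong_induction_on generalizing g with
  | _ r ih =>
    cases r with
    | zero =>
      refine LinearMap.ext fun v => ?_
      simp only [Sop, LinearMap.lsmul_apply, LinearMap.smul_apply, algebraMap_smul, smul_assoc]
    | succ r =>
      simp only [Sop]
      rw [smul_comm (algebraMap ℂ A c), Finset.smul_sum (r := algebraMap ℂ A c)]
      congr 1
      refine Finset.sum_congr rfl fun i _ => ?_
      rw [Finset.smul_sum]
      refine Finset.sum_congr rfl fun k _ => ?_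
      rw [Derivation.map_smul, ih _ (by omega), LinearMap.comp_smul]

lemma dg_Sop (D : DS n A) (δ : Derivation ℂ A A) (wX wC s : ℂ)
    (hδ : ∀ i f, δ (D.d i f) - D.d i (δ f) = (s - wX) • D.d i f) (r : ℕ) (g : A) (v : EE n A) :
    dg (δ : A →ₗ[ℂ] A) wX wC s (Sop D r g v) =
      Sop D r (δ g) v + Sop D r g (dg (δ : A →ₗ[ℂ] A) wX wC s v) + (s * r) • Sop D r g v := by
  induction r using Nat.strong_induction_on generalizing g v with
  | _ r ih =>
    cases r with
    | zero =>
      simp only [Sop, LinearMap.lsmul_apply]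
      rw [dg_smul]; simp
    | succ r =>
      have h1 : ∀ (g : A) (v : EE n A), Sop D (r + 1) g v = (1 / ((r : ℂ) + 1)) •
          ∑ i : Fin n, ∑ k : Fin (r + 1), xcr (i, (k : ℕ)) (Sop D (r - k) (D.d i g) v) := by
        intro g v
        simp only [Sop, LinearMap.smul_apply, LinearMap.sum_apply, LinearMap.comp_apply,
          algebraMap_smul]
      rw [h1, h1, h1, map_smul, smul_comm (s * ((r + 1 : ℕ) : ℂ)), ← smul_add, ← smul_add]
      congr 1
      rw [map_sum, Finset.smul_sum, ← Finset.sum_add_distrib, ← Finset.sum_add_distrib]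
      refine Finset.sum_congr rfl fun i _ => ?_
      rw [map_sum, Finset.smul_sum, ← Finset.sum_add_distrib, ← Finset.sum_add_distrib]
      refine Finset.sum_congr rfl fun k _ => ?_
      have hk : ((r - (k : ℕ) : ℕ) : ℂ) = (r : ℂ) - (k : ℕ) := by
        rw [Nat.cast_sub (by omega)]
      have h2 : δ (D.d i g) = D.d i (δ g) + (s - wX) • D.d i g := by
        rw [← hδ i g]; abel
      rw [dg_xcr, ih _ (by omega), h2, Sop_add, Sop_smul]
      simp only [LinearMap.add_apply, LinearMap.smul_apply, algebraMap_smul, map_add, hk]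
      rw [LinearMap.map_smul_of_tower, LinearMap.map_smul_of_tower]
      push_cast
      module

lemma dg_SopZ (D : DS n A) (δ : Derivation ℂ A A) (wX wC s : ℂ)
    (hδ : ∀ i f, δ (D.d i f) - D.d i (δ f) = (s - wX) • D.d i f) (r : ℤ) (g : A) (v : EE n A) :
    dg (δ : A →ₗ[ℂ] A) wX wC s (SopZ D r g v) =
      SopZ D r (δ g) v + SopZ D r g (dg (δ : A →ₗ[ℂ] A) wX wC s v) + (s * r) • SopZ D r g v := by
  by_cases hr : r < 0
  · simp [SopZ, hr]
  · simp only [SopZ, hr, if_false]
    rw [dg_Sop D δ wX wC s hδ]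
    have : ((r.toNat : ℕ) : ℂ) = (r : ℂ) := by
      have h : ((r.toNat : ℕ) : ℤ) = r := Int.toNat_of_nonneg (by omega)
      exact_mod_cast congrArg (Int.cast : ℤ → ℂ) h
    rw [this]

lemma δ_dd (D : DS n A) (δ : Derivation ℂ A A) (wX s : ℂ)
    (hδ : ∀ i f, δ (D.d i f) - D.d i (δ f) = (s - wX) • D.d i f) (t : Multiset (Bl n)) (f : A) :
    δ (dd D t f) = dd D t (δ f) + ((Multiset.card t : ℂ) * (s - wX)) • dd D t f := by
  induction t using Multiset.induction_on with
  | empty => simp [dd]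
  | cons p t ih =>
    have h1 : ∀ f : A, dd D (p ::ₘ t) f = D.d p.1 (dd D t f) := by
      intro f; simp [dd]
    have h2 : δ (D.d p.1 (dd D t f)) = D.d p.1 (δ (dd D t f)) + (s - wX) • D.d p.1 (dd D t f) := by
      rw [← hδ p.1]; abel
    rw [h1, h1, h2, ih, map_add, Derivation.map_smul, Multiset.card_cons]
    push_cast
    module

lemma sum_yweights (wX s : ℂ) (t : Multiset (Bl n)) :
    (t.map fun p => 2 * s - wX + s * p.2).sum
      = (Multiset.card t : ℂ) * (s - wX) + s * (mwt t : ℂ) := by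
  induction t using Multiset.induction_on with
  | empty => simp [mwt]
  | cons p t ih =>
    have : mwt (p ::ₘ t) = p.2 + 1 + mwt t := by simp [mwt]
    rw [Multiset.map_cons, Multiset.sum_cons, ih, this, Multiset.card_cons]
    push_cast
    ring

end K5b

namespace K5b

/-- the sum defining `fnA` on a monomial -/
def fnS (D : DS n A) (f : A) (m : ℤ) (w : Mon n) : EE n A :=
  ((w.2.1.antidiagonal).map fun p =>
      ((-1 : A) ^ (Multiset.card p.1)) •
        SopZ D ((mwt p.1 : ℤ) - m - 1) (dd D p.1 f) (Finsupp.single (w.1, p.2, w.2.2) 1)).sum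

lemma fnA_single (D : DS n A) (f : A) (m : ℤ) (w : Mon n) (r : A) :
    fnA D f m (Finsupp.single w r) = r • fnS D f m w := by
  rw [fnA, Finsupp.linearCombination_single, fnS]

lemma SopZ_add (D : DS n A) (r : ℤ) (g g' : A) :
    SopZ D r (g + g') = SopZ D r g + SopZ D r g' := by
  by_cases hr : r < 0
  · simp [SopZ, hr]
  · simp only [SopZ, hr, if_false]
    exact Sop_add D _ g g'

lemma SopZ_smul (D : DS n A) (r : ℤ) (c : ℂ) (g : A) :
    SopZ D r (c • g) = (algebraMap ℂ A c) • SopZ D r g := by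
  by_cases hr : r < 0
  · simp [SopZ, hr]
  · simp only [SopZ, hr, if_false]
    exact Sop_smul D _ c g

lemma dg_fnS (D : DS n A) (δ : Derivation ℂ A A) (wX wC s : ℂ)
    (hδ : ∀ i f, δ (D.d i f) - D.d i (δ f) = (s - wX) • D.d i f) (f : A) (m : ℤ) (w : Mon n) :
    dg (δ : A →ₗ[ℂ] A) wX wC s (fnS D f m w) =
      fnS D (δ f) m w + (wgt wX wC s w - s * (m + 1)) • fnS D f m w := by
  have key : ∀ p ∈ w.2.1.antidiagonal,
      dg (δ : A →ₗ[ℂ] A) wX wC s (((-1 : A) ^ (Multiset.card p.1)) •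
        SopZ D ((mwt p.1 : ℤ) - m - 1) (dd D p.1 f) (Finsupp.single (w.1, p.2, w.2.2) 1)) =
      (((-1 : A) ^ (Multiset.card p.1)) •
        SopZ D ((mwt p.1 : ℤ) - m - 1) (dd D p.1 (δ f)) (Finsupp.single (w.1, p.2, w.2.2) 1))
      + (wgt wX wC s w - s * (m + 1)) • (((-1 : A) ^ (Multiset.card p.1)) •
        SopZ D ((mwt p.1 : ℤ) - m - 1) (dd D p.1 f) (Finsupp.single (w.1, p.2, w.2.2) 1)) := by
    intro p hp
    have hp' : p.1 + p.2 = w.2.1 := Multiset.mem_antidiagonal.mp hp
    have hneg : δ ((-1 : A) ^ (Multiset.card p.1)) = 0 := by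
      have : ((-1 : A) ^ (Multiset.card p.1)) = (((-1 : ℤ) ^ (Multiset.card p.1) : ℤ) : A) := by
        push_cast; rfl
      rw [this]; exact δ.map_intCast _
    have hw : wgt wX wC s (w.1, p.2, w.2.2) = wgt wX wC s w
        - ((Multiset.card p.1 : ℂ) * (s - wX) + s * (mwt p.1 : ℂ)) := by
      rw [← sum_yweights wX s p.1]
      simp only [wgt_eq]
      rw [← hp', Multiset.map_add, Multiset.sum_add]
      ring
    rw [dg_smul, hneg, zero_smul, zero_add, dg_SopZ D δ wX wC s hδ, δ_dd D δ wX s hδ, SopZ_add,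
      SopZ_smul, dg_single]
    have h1 : (δ : A →ₗ[ℂ] A) (1 : A) = 0 := by simp
    rw [h1, zero_add]
    have h2 : (Finsupp.single (w.1, p.2, w.2.2) (wgt wX wC s (w.1, p.2, w.2.2) • (1 : A)) : EE n A)
        = (wgt wX wC s (w.1, p.2, w.2.2)) • Finsupp.single (w.1, p.2, w.2.2) (1 : A) := by
      rw [Finsupp.smul_single]
    rw [h2, LinearMap.map_smul_of_tower, hw]
    simp only [LinearMap.add_apply, LinearMap.smul_apply, algebraMap_smul]
    rw [smul_comm (wgt wX wC s w - s * (m + 1)) ((-1 : A) ^ (Multiset.card p.1)), ← smul_add]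
    congr 1
    push_cast
    module
  rw [fnS, map_multiset_sum, Multiset.map_map]
  rw [Multiset.map_congr rfl (fun p hp => by
    simp only [Function.comp_apply]
    exact key p hp)]
  rw [Multiset.sum_map_add, Multiset.smul_sum, Multiset.map_map]
  rfl

lemma dg_fnA (D : DS n A) (δ : Derivation ℂ A A) (wX wC s : ℂ)
    (hδ : ∀ i f, δ (D.d i f) - D.d i (δ f) = (s - wX) • D.d i f) (f : A) (m : ℤ) (v : EE n A) :
    dg (δ : A →ₗ[ℂ] A) wX wC s (fnA D f m v) =
      fnA D (δ f) m v + fnA D f m (dg (δ : A →ₗ[ℂ] A) wX wC s v) - (s * (m + 1)) • fnA D f m v := by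
  induction v using Finsupp.induction_linear with
  | zero => simp
  | add f g hf hg => simp only [map_add, hf, hg, smul_add]; abel
  | single w r =>
    rw [dg_single, fnA_single, fnA_single, fnA_single, dg_smul, dg_fnS D δ wX wC s hδ,
      smul_add, add_smul, smul_assoc, Derivation.coeFn_coe, smul_comm r (wgt wX wC s w - s * (m + 1))]
    module

end K5b

lemma K5b.dg_xMo (δ : Derivation ℂ A A) (wX wC s : ℂ) (i : Fin n) (m : ℤ) (v : EE n A) :
    dg (δ : A →ₗ[ℂ] A) wX wC s (xMo n A i m v) =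
      xMo n A i m (dg (δ : A →ₗ[ℂ] A) wX wC s v) + (wX - s * (m + 1)) • xMo n A i m v := by
  rcases lt_trichotomy m 0 with h | h | h
  · simp only [xMo, h, if_true, LinearMap.restrictScalars_apply]
    rw [dg_xcr]
    have : (((-m - 1).toNat : ℕ) : ℂ) = -(m : ℂ) - 1 := by
      have h : (((-m - 1).toNat : ℕ) : ℤ) = -m - 1 := Int.toNat_of_nonneg (by omega)
      exact_mod_cast congrArg (Int.cast : ℤ → ℂ) h
    rw [this]
    congr 2
    ring
  · subst h; simp [xMo]
  · have h1 : ¬ m < 0 := by omega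
    have h2 : m ≠ 0 := by omega
    simp only [xMo, h1, h2, if_false, LinearMap.smul_apply, LinearMap.restrictScalars_apply]
    rw [map_smul, dg_yan]
    have : (((m - 1).toNat : ℕ) : ℂ) = (m : ℂ) - 1 := by
      have h : (((m - 1).toNat : ℕ) : ℤ) = m - 1 := Int.toNat_of_nonneg (by omega)
      exact_mod_cast congrArg (Int.cast : ℤ → ℂ) h
    rw [this]
    module

lemma K5b.dg_βMo (D : DS n A) (δ : Derivation ℂ A A) (wX wC s : ℂ)
    (hδ : ∀ i f, δ (D.d i f) - D.d i (δ f) = (s - wX) • D.d i f) (i : Fin n) (m : ℤ) (v : EE n A) :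
    dg (δ : A →ₗ[ℂ] A) wX wC s (βMo D i m v) =
      βMo D i m (dg (δ : A →ₗ[ℂ] A) wX wC s v) + (2 * s - wX - s * (m + 1)) • βMo D i m v := by
  rcases lt_trichotomy m 0 with h | h | h
  · simp only [βMo, h, if_true, LinearMap.restrictScalars_apply]
    rw [dg_ycr]
    have : (((-m - 1).toNat : ℕ) : ℂ) = -(m : ℂ) - 1 := by
      have h : (((-m - 1).toNat : ℕ) : ℤ) = -m - 1 := Int.toNat_of_nonneg (by omega)
      exact_mod_cast congrArg (Int.cast : ℤ → ℂ) h
    rw [this]
    congr 2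
    ring
  · subst h
    simp only [βMo, lt_self_iff_false, if_false, if_true]
    rw [dg_dA D δ wX wC s hδ]
    congr 2
    push_cast
    ring
  · have h1 : ¬ m < 0 := by omega
    have h2 : m ≠ 0 := by omega
    simp only [βMo, h1, h2, if_false, LinearMap.smul_apply, LinearMap.restrictScalars_apply]
    rw [map_smul, dg_xan]
    have : (((m - 1).toNat : ℕ) : ℂ) = (m : ℂ) - 1 := by
      have h : (((m - 1).toNat : ℕ) : ℤ) = m - 1 := Int.toNat_of_nonneg (by omega)
      exact_mod_cast congrArg (Int.cast : ℤ → ℂ) h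
    rw [this]
    module

lemma K5b.fw_fl (wC s : ℂ) (t : Bool) (i : Fin n) (k : ℕ) :
    K5b.fw wC s (fl t i k) = (if t = false then wC else s - wC) + s * (k : ℂ) := rfl

lemma K5b.dg_fMo (δ : Derivation ℂ A A) (wX wC s : ℂ) (t : Bool) (i : Fin n) (m : ℤ)
    (v : EE n A) :
    dg (δ : A →ₗ[ℂ] A) wX wC s (fMo n A t i m v) =
      fMo n A t i m (dg (δ : A →ₗ[ℂ] A) wX wC s v)
        + ((if t = false then wC else s - wC) - s * (m + 1)) • fMo n A t i m v := by
  by_cases h : m < 0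
  · simp only [fMo, h, if_true, LinearMap.restrictScalars_apply]
    rw [dg_fcr, K5b.fw_fl]
    have : (((-m - 1).toNat : ℕ) : ℂ) = -(m : ℂ) - 1 := by
      have h : (((-m - 1).toNat : ℕ) : ℤ) = -m - 1 := Int.toNat_of_nonneg (by omega)
      exact_mod_cast congrArg (Int.cast : ℤ → ℂ) h
    rw [this]
    congr 2
    ring
  · simp only [fMo, h, if_false, LinearMap.restrictScalars_apply]
    rw [dg_fan, K5b.fw_fl]
    have : ((m.toNat : ℕ) : ℂ) = (m : ℂ) := by
      have h : ((m.toNat : ℕ) : ℤ) = m := Int.toNat_of_nonneg (by omega)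
      exact_mod_cast congrArg (Int.cast : ℤ → ℂ) h
    rw [this]
    cases t <;> simp <;> ring_nf

theorem dg_gens (D : DS n A) (δ : Derivation ℂ A A) (wX wC s : ℂ) :
    (∀ f, dg (δ : A →ₗ[ℂ] A) wX wC s ((cdE D).fn f) = (cdE D).fn (δ f)) ∧
    (∀ i, dg (δ : A →ₗ[ℂ] A) wX wC s ((cdE D).x i) = wX • (cdE D).x i) ∧
    (∀ i, dg (δ : A →ₗ[ℂ] A) wX wC s ((cdE D).β i) = (2 * s - wX) • (cdE D).β i) ∧
    (∀ i, dg (δ : A →ₗ[ℂ] A) wX wC s ((cdE D).c i) = wC • (cdE D).c i) ∧
    (∀ i, dg (δ : A →ₗ[ℂ] A) wX wC s ((cdE D).b i) = (s - wC) • (cdE D).b i) ∧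
    dg (δ : A →ₗ[ℂ] A) wX wC s (vacE n A) = 0 := by
  have hvac : dg (δ : A →ₗ[ℂ] A) wX wC s (vacE n A) = 0 := by
    rw [vacE, K5b.dg_single]
    simp [wgt]
  refine ⟨fun f => ?_, fun i => ?_, fun i => ?_, fun i => ?_, fun i => ?_, hvac⟩
  · rw [cdE_fn, cdE_fn, K5b.dg_single]
    simp [wgt]
  · rw [← (vsaE D).create ((cdE D).x i), Y_x, vsaE_vac, K5b.dg_xMo, hvac]
    simp
  · rw [← (vsaE D).create ((cdE D).β i), Y_β, vsaE_vac]
    have h1 : βMo D i (-1) = (ycr (i, 0)).restrictScalars ℂ := by simp [βMo]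
    rw [h1]
    simp only [LinearMap.restrictScalars_apply]
    rw [K5b.dg_ycr, hvac]
    simp
  · rw [← (vsaE D).create ((cdE D).c i), Y_c, vsaE_vac, K5b.dg_fMo, hvac]
    simp
  · rw [← (vsaE D).create ((cdE D).b i), Y_b, vsaE_vac, K5b.dg_fMo, hvac]
    simp

theorem dg_Y (D : DS n A) (δ : Derivation ℂ A A) (wX wC s : ℂ)
    (hδ : ∀ i f, δ (D.d i f) - D.d i (δ f) = (s - wX) • D.d i f) (a : EE n A) (k : ℤ)
    (v : EE n A) :
    dg (δ : A →ₗ[ℂ] A) wX wC s ((vsaE D).Y a k v) =
      (vsaE D).Y (dg (δ : A →ₗ[ℂ] A) wX wC s a) k v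
        + (vsaE D).Y a k (dg (δ : A →ₗ[ℂ] A) wX wC s v)
        - (s * (k + 1)) • (vsaE D).Y a k v := by
  obtain ⟨gfn, gx, gβ, gc, gb, gvac⟩ := dg_gens D δ wX wC s
  have hmem : ∀ g ∈ genE D, (∃ i, (cdE D).x i = g) ∨ (∃ i, (cdE D).β i = g) ∨
      (∃ i, (cdE D).c i = g) ∨ (∃ i, (cdE D).b i = g) ∨ (∃ f, (cdE D).fn f = g) := by
    intro g hg
    rcases hg with (((h | h) | h) | h) | h
    · exact Or.inl h
    · exact Or.inr (Or.inl h)
    · exact Or.inr (Or.inr (Or.inl h))
    · exact Or.inr (Or.inr (Or.inr (Or.inl h)))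
    · exact Or.inr (Or.inr (Or.inr (Or.inr h)))
  have hPs : ∀ (p : ℕ) (g : EE n A) (c : ℂ), (vsaE D).Par p g → (vsaE D).Par p (c • g) := by
    intro p g c h
    unfold VSA.Par at *
    rw [map_smul, h, smul_comm]
  refine VSA.der_of_gen (vsaE D) (dg (δ : A →ₗ[ℂ] A) wX wC s) s (genE D) ?_ (genE_span D) ?_ ?_ ?_
    a k v
  · intro g hg
    rcases hmem g hg with ⟨i, rfl⟩ | ⟨i, rfl⟩ | ⟨i, rfl⟩ | ⟨i, rfl⟩ | ⟨f, rfl⟩
    · exact ⟨0, (cdE D).par_x i, by rw [gx]; exact hPs _ _ _ ((cdE D).par_x i)⟩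
    · exact ⟨0, (cdE D).par_β i, by rw [gβ]; exact hPs _ _ _ ((cdE D).par_β i)⟩
    · exact ⟨1, (cdE D).par_c i, by rw [gc]; exact hPs _ _ _ ((cdE D).par_c i)⟩
    · exact ⟨1, (cdE D).par_b i, by rw [gb]; exact hPs _ _ _ ((cdE D).par_b i)⟩
    · exact ⟨0, (cdE D).par_fn f, by rw [gfn]; exact (cdE D).par_fn _⟩
  · rw [vsaE_vac]; exact gvac
  · intro v
    rw [vsaE_sg, vsaE_sg]
    have hsgl : ∀ (w : Mon n) (r : A), sgE n A (Finsupp.single w r)
        = Finsupp.single w (r * (-1) ^ w.2.2.card) := by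
      intro w r
      simp [sgE]
    induction v using Finsupp.induction_linear with
    | zero => simp
    | add f g hf hg => simp only [map_add, hf, hg]
    | single w r =>
      rw [hsgl, K5b.dg_single, K5b.dg_single, hsgl]
      congr 1
      have hneg : δ ((-1 : A) ^ w.2.2.card) = 0 := by
        have : ((-1 : A) ^ w.2.2.card) = (((-1 : ℤ) ^ w.2.2.card : ℤ) : A) := by
          push_cast; rfl
        rw [this]; exact δ.map_intCast _
      simp only [Derivation.coeFn_coe, Derivation.leibniz, hneg, smul_zero, zero_add, smul_eq_mul,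
        add_mul, smul_mul_assoc]
      ring
  · intro g hg m v
    rcases hmem g hg with ⟨i, rfl⟩ | ⟨i, rfl⟩ | ⟨i, rfl⟩ | ⟨i, rfl⟩ | ⟨f, rfl⟩
    · rw [gx, map_smul, Y_x, K5b.dg_xMo]
      simp only [Pi.smul_apply, LinearMap.smul_apply]
      module
    · rw [gβ, map_smul, Y_β, K5b.dg_βMo D δ wX wC s hδ]
      simp only [Pi.smul_apply, LinearMap.smul_apply]
      module
    · rw [gc, map_smul, Y_c, K5b.dg_fMo]
      simp only [Pi.smul_apply, LinearMap.smul_apply]
      simp only [if_true]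
      module
    · rw [gb, map_smul, Y_b, K5b.dg_fMo]
      simp only [Pi.smul_apply, LinearMap.smul_apply]
      simp only [Bool.true_eq_false, if_false]
      module
    · rw [gfn, Y_fn, Y_fn]
      simp only [fnMo, LinearMap.restrictScalars_apply]
      exact K5b.dg_fnA D δ wX wC s hδ f m v

/-- twice the conformal weight operator -/
def HE (n : ℕ) (A : Type*) [CommRing A] [Algebra ℂ A] : EE n A →ₗ[ℂ] EE n A := dg 0 2 1 2

namespace K5b

/-- twice the conformal weight of a monomial, as a natural number -/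
def hw (w : Mon n) : ℕ :=
  (w.1.map fun p => 2 + 2 * p.2).sum + (w.2.1.map fun p => 2 + 2 * p.2).sum
    + ∑ t ∈ w.2.2, (1 + 2 * (ofLex (ofLex t).2).2)

lemma wgt_hw (w : Mon n) : wgt 2 1 2 w = (hw w : ℂ) := by
  rw [wgt_eq, hw]
  push_cast
  rw [Multiset.map_map, Multiset.map_map]
  congr 1
  · congr 1
    · congr 1
      refine Multiset.map_congr rfl fun p _ => ?_
      simp
    · congr 1
      refine Multiset.map_congr rfl fun p _ => ?_
      simp only [Function.comp_apply]
      push_cast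
      ring
  · refine Finset.sum_congr rfl fun t _ => ?_
    simp only [fw]
    split_ifs <;> ring

lemma HE_single (w : Mon n) (r : A) :
    HE n A (Finsupp.single w r) = Finsupp.single w ((hw w : ℂ) • r) := by
  rw [HE, dg_single, wgt_hw]
  simp

lemma HE_apply (v : EE n A) (w : Mon n) : (HE n A v) w = (hw w : ℂ) • v w := by
  induction v using Finsupp.induction_linear with
  | zero => simp
  | add f g hf hg => simp only [map_add, Finsupp.add_apply, hf, hg, smul_add]
  | single w' r =>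
    rw [HE_single]
    by_cases h : w' = w
    · subst h; simp
    · simp [Finsupp.single_eq_of_ne' h]

lemma hw_pos (w : Mon n) (hw' : w ≠ (0, 0, ∅)) : 0 < hw w := by
  by_contra hcon
  have h0 : hw w = 0 := by omega
  apply hw'
  have h1 : (w.1.map fun p => 2 + 2 * p.2).sum = 0 := by unfold hw at h0; omega
  have h2 : (w.2.1.map fun p => 2 + 2 * p.2).sum = 0 := by unfold hw at h0; omega
  have h3 : ∑ t ∈ w.2.2, (1 + 2 * (ofLex (ofLex t).2).2) = 0 := by unfold hw at h0; omega
  have e1 : w.1 = 0 := by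
    by_contra hne
    obtain ⟨p, hp⟩ := Multiset.exists_mem_of_ne_zero hne
    have := (Multiset.sum_eq_zero_iff.mp h1) (2 + 2 * p.2) (Multiset.mem_map_of_mem _ hp)
    omega
  have e2 : w.2.1 = 0 := by
    by_contra hne
    obtain ⟨p, hp⟩ := Multiset.exists_mem_of_ne_zero hne
    have := (Multiset.sum_eq_zero_iff.mp h2) (2 + 2 * p.2) (Multiset.mem_map_of_mem _ hp)
    omega
  have e3 : w.2.2 = ∅ := by
    by_contra hne
    obtain ⟨t, ht⟩ := Finset.nonempty_iff_ne_empty.mpr hne
    have := (Finset.sum_eq_zero_iff.mp h3) t ht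
    omega
  exact Prod.ext e1 (Prod.ext e2 e3)

lemma eq_zero_of_smul {c : ℂ} (hc : c ≠ 0) {r : A} (h : c • r = 0) : r = 0 := by
  rw [← inv_smul_smul₀ hc r, h, smul_zero]

end K5b

theorem HE_neg (v : EE n A) (h : ℤ) (hh : h < 0) (hv : HE n A v = (h : ℂ) • v) : v = 0 := by
  ext w
  have h1 : (HE n A v) w = ((h : ℂ) • v) w := by rw [hv]
  rw [K5b.HE_apply, Finsupp.smul_apply] at h1
  have h2 : ((K5b.hw w : ℂ) - (h : ℂ)) • v w = 0 := by rw [sub_smul, h1, sub_self]
  refine K5b.eq_zero_of_smul ?_ h2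
  intro h3
  have h4 : ((K5b.hw w : ℤ) : ℂ) = ((h : ℤ) : ℂ) := by
    rw [sub_eq_zero] at h3
    exact_mod_cast h3
  have h5 : (K5b.hw w : ℤ) = h := by exact_mod_cast h4
  omega

theorem HE_zero (v : EE n A) (hv : HE n A v = 0) :
    v = Finsupp.single ((0, 0, ∅) : Mon n) (vc n A v) := by
  ext w
  by_cases hw : w = (0, 0, ∅)
  · subst hw; simp [vc]
  · rw [Finsupp.single_eq_of_ne hw]
    have h1 : (HE n A v) w = 0 := by rw [hv]; rfl
    rw [K5b.HE_apply] at h1
    refine K5b.eq_zero_of_smul ?_ h1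
    have := K5b.hw_pos w hw
    exact_mod_cast this.ne'

theorem HE_vc (v : EE n A) (h : ℤ) (hh : h ≠ 0) (hv : HE n A v = (h : ℂ) • v) :
    vc n A v = 0 := by
  have h1 : (HE n A v) ((0, 0, ∅) : Mon n) = ((h : ℂ) • v) ((0, 0, ∅) : Mon n) := by rw [hv]
  rw [K5b.HE_apply, Finsupp.smul_apply] at h1
  have h2 : K5b.hw ((0, 0, ∅) : Mon n) = 0 := by simp [K5b.hw]
  rw [h2] at h1
  simp only [Nat.cast_zero, zero_smul] at h1
  have : vc n A v = v ((0, 0, ∅) : Mon n) := rfl
  rw [this]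
  refine K5b.eq_zero_of_smul (c := (h : ℂ)) ?_ h1.symm
  exact_mod_cast hh

namespace K5b

lemma toNat_neg (k : ℕ) : (-(-(k : ℤ) - 1) - 1).toNat = k := by
  have : (-(-(k : ℤ) - 1) - 1) = (k : ℤ) := by ring
  rw [this]; simp

lemma xMo_neg (i : Fin n) (k : ℕ) (v : EE n A) : xMo n A i (-(k : ℤ) - 1) v = xcr (i, k) v := by
  have h : (-(k : ℤ) - 1) < 0 := by omega
  simp only [xMo, h, if_true, LinearMap.restrictScalars_apply, toNat_neg]

lemma βMo_neg (D : DS n A) (i : Fin n) (k : ℕ) (v : EE n A) :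
    βMo D i (-(k : ℤ) - 1) v = ycr (i, k) v := by
  have h : (-(k : ℤ) - 1) < 0 := by omega
  simp only [βMo, h, if_true, LinearMap.restrictScalars_apply, toNat_neg]

lemma fMo_neg (t : Bool) (i : Fin n) (k : ℕ) (v : EE n A) :
    fMo n A t i (-(k : ℤ) - 1) v = fcr (fl t i k) v := by
  have h : (-(k : ℤ) - 1) < 0 := by omega
  simp only [fMo, h, if_true, LinearMap.restrictScalars_apply, toNat_neg]

lemma xMo_pos (i : Fin n) (k : ℕ) (v : EE n A) :
    xMo n A i (k + 1 : ℕ) v = ((k : ℂ) + 1) • yan (i, k) v := by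
  have h : ¬ (((k + 1 : ℕ) : ℤ)) < 0 := by omega
  have h2 : (((k + 1 : ℕ) : ℤ)) ≠ 0 := by omega
  have h3 : ((((k + 1 : ℕ) : ℤ)) - 1).toNat = k := by omega
  simp only [xMo, h, h2, if_false, LinearMap.smul_apply, LinearMap.restrictScalars_apply, h3]
  push_cast
  rfl

lemma βMo_pos (D : DS n A) (i : Fin n) (k : ℕ) (v : EE n A) :
    βMo D i (k + 1 : ℕ) v = ((k : ℂ) + 1) • xan (i, k) v := by
  have h : ¬ (((k + 1 : ℕ) : ℤ)) < 0 := by omega
  have h2 : (((k + 1 : ℕ) : ℤ)) ≠ 0 := by omega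
  have h3 : ((((k + 1 : ℕ) : ℤ)) - 1).toNat = k := by omega
  simp only [βMo, h, h2, if_false, LinearMap.smul_apply, LinearMap.restrictScalars_apply, h3]
  push_cast
  rfl

lemma fMo_nonneg (t : Bool) (i : Fin n) (k : ℕ) (v : EE n A) :
    fMo n A t i k v = fan (fl (!t) i k) v := by
  have h : ¬ (k : ℤ) < 0 := by omega
  simp only [fMo, h, if_false, LinearMap.restrictScalars_apply, Int.toNat_natCast]

lemma xcr_xan (p : Bl n) (w : Mon n) (r : A) :
    xcr p (xan p (Finsupp.single w r)) = (w.1.count p : ℂ) • Finsupp.single w r := by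
  rw [xan_single, xcr_single, Finsupp.smul_single]
  by_cases hp : p ∈ w.1
  · simp only [Multiset.cons_erase hp]
    congr 1
    rw [Algebra.smul_def, mul_comm]
    simp
  · rw [Multiset.count_eq_zero_of_notMem hp]
    simp

lemma ycr_yan (p : Bl n) (w : Mon n) (r : A) :
    ycr p (yan p (Finsupp.single w r)) = (w.2.1.count p : ℂ) • Finsupp.single w r := by
  rw [yan_single, ycr_single, Finsupp.smul_single]
  by_cases hp : p ∈ w.2.1
  · simp only [Multiset.cons_erase hp]
    congr 1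
    rw [Algebra.smul_def, mul_comm]
    simp
  · rw [Multiset.count_eq_zero_of_notMem hp]
    simp

lemma fsg_sq (t : Fl n) (S : Finset (Fl n)) : fsg A t S * fsg A t (S.erase t) = 1 := by
  have : (S.erase t).filter (· < t) = S.filter (· < t) := by
    ext u
    simp only [Finset.mem_filter, Finset.mem_erase]
    constructor
    · rintro ⟨⟨_, h1⟩, h2⟩; exact ⟨h1, h2⟩
    · rintro ⟨h1, h2⟩; exact ⟨⟨h2.ne, h1⟩, h2⟩
  rw [fsg, fsg, this, ← pow_add, Even.neg_one_pow ⟨_, rfl⟩]

lemma fcr_fan (t : Fl n) (w : Mon n) (r : A) :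
    fcr t (fan t (Finsupp.single w r)) = (if t ∈ w.2.2 then (1 : ℂ) else 0) • Finsupp.single w r := by
  rw [fan_single]
  by_cases ht : t ∈ w.2.2
  · rw [if_pos ht, if_pos ht, fcr_single, if_neg (by simp), one_smul]
    simp only [Finset.insert_erase ht]
    congr 1
    rw [mul_assoc, fsg_sq, mul_one]
  · rw [if_neg ht, if_neg ht]; simp

/-- the right-hand side of `HE_eq` -/
def rhs (D : DS n A) (K : ℕ) (v : EE n A) : EE n A :=
  ∑ i, ∑ k ∈ Finset.range K,
      ((2 : ℂ) • (xMo n A i (-(k : ℤ) - 1) (βMo D i (k + 1 : ℕ) v)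
          + βMo D i (-(k : ℤ) - 1) (xMo n A i (k + 1 : ℕ) v))
        + (2 * k + 1 : ℂ) • (fMo n A false i (-(k : ℤ) - 1) (fMo n A true i k v)
          + fMo n A true i (-(k : ℤ) - 1) (fMo n A false i k v)))

lemma rhs_add (D : DS n A) (K : ℕ) (v v' : EE n A) :
    rhs D K (v + v') = rhs D K v + rhs D K v' := by
  simp only [rhs, ← Finset.sum_add_distrib]
  refine Finset.sum_congr rfl fun i _ => Finset.sum_congr rfl fun k _ => ?_
  simp only [map_add]
  module

lemma sum_mset (K : ℕ) (s : Multiset (Bl n)) (hs : ∀ p ∈ s, p.2 < K) :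
    ∑ i : Fin n, ∑ k ∈ Finset.range K, ((2 * (k + 1) : ℕ) : ℂ) * (s.count (i, k) : ℂ)
      = (((s.map fun p => 2 + 2 * p.2).sum : ℕ) : ℂ) := by
  rw [Finset.sum_multiset_map_count, ← Finset.sum_product' (Finset.univ) (Finset.range K)
    (fun i k => ((2 * (k + 1) : ℕ) : ℂ) * (s.count (i, k) : ℂ))]
  push_cast
  symm
  have hsub : s.toFinset ⊆ (Finset.univ : Finset (Fin n)) ×ˢ Finset.range K := by
    intro p hp
    rw [Multiset.mem_toFinset] at hp
    simp [hs p hp]
  rw [← Finset.sum_subset hsub]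
  · refine Finset.sum_congr rfl fun p _ => ?_
    rw [nsmul_eq_mul]
    push_cast
    ring
  · intro p _ hp
    rw [Multiset.mem_toFinset] at hp
    rw [Multiset.count_eq_zero_of_notMem hp]
    simp

lemma sum_fset (K : ℕ) (S : Finset (Fl n)) (hS : ∀ (t : Bool) (i : Fin n) (k : ℕ),
      fl t i k ∈ S → k < K) :
    ∑ i : Fin n, ∑ k ∈ Finset.range K, (2 * (k : ℂ) + 1) *
        ((if fl false i k ∈ S then 1 else 0) + (if fl true i k ∈ S then 1 else 0))
      = ((∑ t ∈ S, (1 + 2 * (ofLex (ofLex t).2).2) : ℕ) : ℂ) := by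
  classical
  let φ : Bool × (Fin n × ℕ) → Fl n := fun q => fl q.1 q.2.1 q.2.2
  have hφ : Function.Injective φ := by
    intro a b hab
    obtain ⟨a1, a2, a3⟩ := a
    obtain ⟨b1, b2, b3⟩ := b
    have h1 : (a1, toLex (a2, a3)) = (b1, toLex (b2, b3)) := hab
    have h2 := congrArg Prod.fst h1
    have h3 := congrArg Prod.snd h1
    have h4 : (a2, a3) = (b2, b3) := h3
    simp only at h2
    rw [h2, h4]
  have hS' : S ⊆ ((Finset.univ : Finset Bool) ×ˢ ((Finset.univ : Finset (Fin n)) ×ˢ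
      Finset.range K)).image φ := by
    intro t ht
    rw [Finset.mem_image]
    refine ⟨((ofLex t).1, ofLex (ofLex t).2), ?_, rfl⟩
    have := hS (ofLex t).1 (ofLex (ofLex t).2).1 (ofLex (ofLex t).2).2 (by
      show _ ∈ S
      exact ht)
    simp [this]
  have h1 : ((∑ t ∈ S, (1 + 2 * (ofLex (ofLex t).2).2) : ℕ) : ℂ)
      = ∑ t ∈ ((Finset.univ : Finset Bool) ×ˢ ((Finset.univ : Finset (Fin n)) ×ˢ
      Finset.range K)).image φ, if t ∈ S then (1 + 2 * ((ofLex (ofLex t).2).2 : ℂ)) else 0 := by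
    rw [← Finset.sum_subset hS']
    · push_cast
      refine Finset.sum_congr rfl fun t ht => ?_
      rw [if_pos ht]
    · intro t _ ht
      rw [if_neg ht]
  rw [h1, Finset.sum_image (fun a _ b _ h => hφ h), Finset.sum_product, Fintype.sum_bool,
    Finset.sum_product, Finset.sum_product, ← Finset.sum_add_distrib]
  refine Finset.sum_congr rfl fun i _ => ?_
  rw [← Finset.sum_add_distrib]
  refine Finset.sum_congr rfl fun k _ => ?_
  have e : ∀ b : Bool, ((ofLex (ofLex (φ (b, i, k))).2).2 : ℂ) = (k : ℂ) := fun b => rfl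
  simp only [e]
  have e1 : φ (true, i, k) = fl true i k := rfl
  have e2 : φ (false, i, k) = fl false i k := rfl
  rw [e1, e2]
  split_ifs <;> ring

lemma HE_rhs (D : DS n A) (v : EE n A) : ∃ K0 : ℕ, ∀ K, K0 ≤ K → HE n A v = rhs D K v := by
  induction v using Finsupp.induction_linear with
  | zero => exact ⟨0, fun K _ => by simp [rhs]⟩
  | add f g hf hg =>
    obtain ⟨K1, h1⟩ := hf
    obtain ⟨K2, h2⟩ := hg
    refine ⟨max K1 K2, fun K hK => ?_⟩
    rw [map_add, rhs_add, h1 K (le_trans (le_max_left _ _) hK),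
      h2 K (le_trans (le_max_right _ _) hK)]
  | single w r =>
    obtain ⟨K1, h1⟩ := exists_bound_multiset w.1
    obtain ⟨K2, h2⟩ := exists_bound_multiset w.2.1
    obtain ⟨K3, h3⟩ := exists_bound_finset w.2.2
    refine ⟨max K1 (max K2 K3), fun K hK => ?_⟩
    have hK1 : K1 ≤ K := le_trans (le_max_left _ _) hK
    have hK2 : K2 ≤ K := le_trans (le_trans (le_max_left _ _) (le_max_right _ _)) hK
    have hK3 : K3 ≤ K := le_trans (le_trans (le_max_right _ _) (le_max_right _ _)) hK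
    have hterm : ∀ (i : Fin n) (k : ℕ),
        ((2 : ℂ) • (xMo n A i (-(k : ℤ) - 1) (βMo D i (k + 1 : ℕ) (Finsupp.single w r))
          + βMo D i (-(k : ℤ) - 1) (xMo n A i (k + 1 : ℕ) (Finsupp.single w r)))
        + (2 * k + 1 : ℂ) • (fMo n A false i (-(k : ℤ) - 1) (fMo n A true i k (Finsupp.single w r))
          + fMo n A true i (-(k : ℤ) - 1) (fMo n A false i k (Finsupp.single w r))))
        = (((2 * (k + 1) : ℕ) : ℂ) * (w.1.count (i, k) : ℂ)
            + ((2 * (k + 1) : ℕ) : ℂ) * (w.2.1.count (i, k) : ℂ)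
            + (2 * (k : ℂ) + 1) * ((if fl false i k ∈ w.2.2 then 1 else 0)
              + (if fl true i k ∈ w.2.2 then 1 else 0))) • (Finsupp.single w r : EE n A) := by
      intro i k
      rw [xMo_neg, βMo_neg, fMo_neg, fMo_neg, xMo_pos, βMo_pos, fMo_nonneg, fMo_nonneg,
        LinearMap.map_smul_of_tower, LinearMap.map_smul_of_tower, xcr_xan, ycr_yan, Bool.not_true,
        Bool.not_false, fcr_fan, fcr_fan]
      push_cast
      module
    rw [rhs, HE_single]
    simp only [hterm]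
    simp only [← Finset.sum_smul]
    simp only [Finset.sum_add_distrib]
    rw [sum_mset K w.1 (fun p hp => lt_of_lt_of_le (h1 p hp) hK1),
      sum_mset K w.2.1 (fun p hp => lt_of_lt_of_le (h2 p hp) hK2),
      sum_fset K w.2.2 (fun t i k hp => lt_of_lt_of_le (h3 t i k hp) hK3),
      Finsupp.smul_single, hw]
    push_cast
    rfl

end K5b

/-- twice the conformal weight in terms of modes (all sums are finite on a given `v`) -/
theorem HE_eq (D : DS n A) (v : EE n A) (K : ℕ)
    (hx : ∀ i (k : ℕ), K ≤ k → xMo n A i (k + 1 : ℕ) v = 0 ∧ βMo D i (k + 1 : ℕ) v = 0 ∧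
      fMo n A false i k v = 0 ∧ fMo n A true i k v = 0) :
    HE n A v = ∑ i, ∑ k ∈ Finset.range K,
      ((2 : ℂ) • (xMo n A i (-(k : ℤ) - 1) (βMo D i (k + 1 : ℕ) v)
          + βMo D i (-(k : ℤ) - 1) (xMo n A i (k + 1 : ℕ) v))
        + (2 * k + 1 : ℂ) • (fMo n A false i (-(k : ℤ) - 1) (fMo n A true i k v)
          + fMo n A true i (-(k : ℤ) - 1) (fMo n A false i k v))) := by
  obtain ⟨K0, h0⟩ := K5b.HE_rhs D v
  rw [h0 (max K K0) (le_max_right _ _), K5b.rhs]
  refine Finset.sum_congr rfl fun i _ => ?_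
  symm
  apply Finset.sum_subset
  · intro k hk
    rw [Finset.mem_range] at hk ⊢
    exact lt_of_lt_of_le hk (le_max_left _ _)
  · intro k _ hk
    rw [Finset.mem_range, not_lt] at hk
    obtain ⟨a1, a2, a3, a4⟩ := hx i k hk
    rw [a1, a2, a3, a4]
    simp

theorem vc_creation (D : DS n A) (i : Fin n) (k : ℕ) (v : EE n A) :
    vc n A (xMo n A i (-(k : ℤ) - 1) v) = 0 ∧ vc n A (βMo D i (-(k : ℤ) - 1) v) = 0 ∧
      ∀ t, vc n A (fMo n A t i (-(k : ℤ) - 1) v) = 0 := by
  refine ⟨?_, ?_, fun t => ?_⟩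
  · rw [K5b.xMo_neg]
    induction v using Finsupp.induction_linear with
    | zero => simp
    | add f g hf hg => rw [map_add, map_add, hf, hg, add_zero]
    | single w r =>
      rw [xcr_single]
      simp only [vc, Finsupp.lapply_apply]
      apply Finsupp.single_eq_of_ne
      intro h
      exact Multiset.cons_ne_zero (congrArg Prod.fst h).symm
  · rw [K5b.βMo_neg]
    induction v using Finsupp.induction_linear with
    | zero => simp
    | add f g hf hg => rw [map_add, map_add, hf, hg, add_zero]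
    | single w r =>
      rw [ycr_single]
      simp only [vc, Finsupp.lapply_apply]
      apply Finsupp.single_eq_of_ne
      intro h
      exact Multiset.cons_ne_zero (congrArg (fun z : Mon n => z.2.1) h).symm
  · rw [K5b.fMo_neg]
    induction v using Finsupp.induction_linear with
    | zero => simp
    | add f g hf hg => rw [map_add, map_add, hf, hg, add_zero]
    | single w r =>
      rw [fcr_single]
      split_ifs with ht
      · simp
      · simp only [vc, Finsupp.lapply_apply]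
        apply Finsupp.single_eq_of_ne
        intro h
        exact Finset.insert_ne_empty _ _ (congrArg (fun z : Mon n => z.2.2) h).symm

end K5

end Pool.Agent.AA3
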