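import Pool.Agent.Lib.MP_aa3aaf_al.Twist
import Pool.Agent.Lib.MP_aa3aaf_al.Diag

/-!
Base change and weights of the composite states of the `bc`-`βγ` system.
-/

set_option autoImplicit false
open scoped BigOperators
noncomputable section
namespace Pool.Agent.AA3

section T
variable {n : ℕ} {A A' : Type*} [CommRing A] [Algebra ℂ A] [CommRing A'] [Algebra ℂ A']

/-- base change of a frame -/
def Frame.map (fr : Frame n A) (h : A →+* A') : Frame n A' where
  e := fr.e.map h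
  f := fr.f.map h
  e_f := by rw [← Matrix.map_mul, fr.e_f, Matrix.map_one _ h.map_zero h.map_one]
  f_e := by rw [← Matrix.map_mul, fr.f_e, Matrix.map_one _ h.map_zero h.map_one]

namespace TwCD

lemma Y_smul_l {E : Type*} [AddCommGroup E] [Module ℂ E] (V : VSA E) (c : ℂ) (a : E) (k : ℤ)
    (v : E) : V.Y (c • a) k v = c • V.Y a k v := by
  rw [map_smul]; rfl

lemma mul_def {E : Type*} [AddCommGroup E] [Module ℂ E] (V : VSA E) (a b : E) :
    V.mul a b = V.Y a (-1) b := rfl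

lemma zm_def {E : Type*} [AddCommGroup E] [Module ℂ E] (V : VSA E) (a b : E) :
    V.zm a b = V.Y a 0 b := rfl

lemma zm_mul_smul {E : Type*} [AddCommGroup E] [Module ℂ E] (V : VSA E) (c c' : ℂ) (a b v : E) :
    V.zm (V.mul (c • a) (c' • b)) v = (c * c') • V.zm (V.mul a b) v := by
  rw [zm_def, zm_def, mul_def, mul_def, Y_smul_l, map_smul (V.Y a (-1)), smul_smul, Y_smul_l]

omit [Algebra ℂ A] in
lemma tw_asmul (h : A →+* A') (l m : ℂˣ) (r : A) (v : EE n A) :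
    tw h l m (r • v) = h r • tw h l m v := by
  induction v using Finsupp.induction_linear with
  | zero => simp
  | add f g hf hg => rw [smul_add, map_add, hf, hg, map_add, smul_add]
  | single w a =>
    simp only [tw, Finsupp.smul_single, smul_eq_mul, Finsupp.liftAddHom_apply_single,
      AddMonoidHom.comp_apply, Finsupp.singleAddHom_apply, AddMonoidHom.coe_mulLeft,
      RingHom.toAddMonoidHom_eq_coe, AddMonoidHom.coe_coe, map_mul]
    congr 1
    ring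

lemma tw_csmul (h : A →+* A') (l m : ℂˣ) (z z' : ℂ)
    (hz : h (algebraMap ℂ A z) = algebraMap ℂ A' z') (v : EE n A) :
    tw h l m (z • v) = z' • tw h l m v := by
  rw [← algebraMap_smul A z v, tw_asmul, hz, algebraMap_smul]

section
variable (D : DS n A) (D' : DS n A') (h : A →+* A') (l m : ℂˣ)
    (hl : ∀ i f, h (D.d i f) = (l : ℂ) • D'.d i (h f))
include hl

lemma tw_mul (a b : EE n A) :
    tw h l m ((vsaE D).mul a b) = (vsaE D').mul (tw h l m a) (tw h l m b) := by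
  rw [mul_def, mul_def, tw_Y D D' h l m hl]

lemma tw_zm (a b : EE n A) :
    tw h l m ((vsaE D).zm a b) = (vsaE D').zm (tw h l m a) (tw h l m b) := by
  rw [zm_def, zm_def, tw_Y D D' h l m hl]

lemma tw_fm (f : A) (v : EE n A) :
    tw h l m ((cdE D).fm f v) = (cdE D').fm (h f) (tw h l m v) := by
  unfold CD.fm
  rw [tw_Y D D' h l m hl, (tw_gens D D' h l m).1]

lemma tw_C (fr : Frame n A) (a : Fin n) :
    tw h l m ((cdE D).C fr a) = (m : ℂ) • (cdE D').C (fr.map h) a := by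
  unfold CD.C
  rw [map_sum, Finset.smul_sum]
  refine Finset.sum_congr rfl fun i _ => ?_
  rw [tw_fm D D' h l m hl, (tw_gens D D' h l m).2.2.2.1]
  unfold CD.fm
  rw [map_smul]
  rfl

lemma tw_B (fr : Frame n A) (a : Fin n) :
    tw h l m ((cdE D).B fr a) = (m⁻¹ : ℂ) • (cdE D').B (fr.map h) a := by
  unfold CD.B
  rw [map_sum, Finset.smul_sum]
  refine Finset.sum_congr rfl fun i _ => ?_
  rw [tw_fm D D' h l m hl, (tw_gens D D' h l m).2.2.2.2.1]
  unfold CD.fm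
  rw [map_smul]
  rfl

end

end TwCD

open TwCD

variable (D : DS n A) (D' : DS n A') (h : A →+* A') (l m : ℂˣ)
    (hl : ∀ i f, h (D.d i f) = (l : ℂ) • D'.d i (h f))
include hl

theorem tw_Q1 (v : EE n A) :
    tw h l m ((cdE D).Q1 v) = ((m * l : ℂˣ) : ℂ) • (cdE D').Q1 (tw h l m v) := by
  unfold CD.Q1
  rw [LinearMap.sum_apply, LinearMap.sum_apply, map_sum, Finset.smul_sum]
  refine Finset.sum_congr rfl fun i _ => ?_
  rw [tw_zm D D' h l m hl, tw_mul D D' h l m hl, (tw_gens D D' h l m).2.2.1,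
    (tw_gens D D' h l m).2.2.2.1, zm_mul_smul, Units.val_mul]
theorem tw_Q2 (v : EE n A) :
    tw h l m ((cdE D).Q2 v) = ((m⁻¹ * l⁻¹ : ℂˣ) : ℂ) • (cdE D').Q2 (tw h l m v) := by
  unfold CD.Q2
  rw [LinearMap.sum_apply, LinearMap.sum_apply, map_sum, Finset.smul_sum]
  refine Finset.sum_congr rfl fun i _ => ?_
  rw [tw_zm D D' h l m hl, tw_mul D D' h l m hl, (tw_gens D D' h l m).2.1,
    (tw_gens D D' h l m).2.2.2.2.1, zm_mul_smul, Units.val_mul,
    Units.val_inv_eq_inv_val, Units.val_inv_eq_inv_val]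
theorem tw_ps (fr : Frame n A) (a : Fin n) :
    tw h l 1 ((cdE D).ps fr a) = (cdE D').ps (fr.map h) a := by
  unfold CD.ps
  rw [map_add, tw_C D D' h l 1 hl, tw_B D D' h l 1 hl, Units.val_one, inv_one, one_smul,
    one_smul]
theorem tw_Phi (fr : Frame n A) (τ : ℂ → ℂ)
    (hτ : ∀ z, h (algebraMap ℂ A z) = algebraMap ℂ A' (τ z)) (φ : Fin n → Fin n → Fin n → ℂ) :
    tw h l 1 ((cdE D).Phi fr φ) = (cdE D').Phi (fr.map h) (fun a b c => τ (φ a b c)) := by
  unfold CD.Phi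
  rw [map_sum]
  refine Finset.sum_congr rfl fun a _ => ?_
  rw [map_sum]
  refine Finset.sum_congr rfl fun b _ => ?_
  rw [map_sum]
  refine Finset.sum_congr rfl fun c _ => ?_
  rw [tw_csmul h l 1 _ _ (hτ (φ a b c)), tw_mul D D' h l 1 hl, tw_mul D D' h l 1 hl,
    tw_ps D D' h l hl, tw_ps D D' h l hl, tw_ps D D' h l hl]

omit hl in
theorem tw_Do (h1 : ∀ i f, h (D.d i f) = D'.d i (h f)) 
    (hτ : ∀ z : ℂ, h (algebraMap ℂ A z) = algebraMap ℂ A' z) (fr : Frame n A) (v : EE n A) :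
    tw h 1 1 ((cdE D).Do fr v) = (cdE D').Do (fr.map h) (tw h 1 1 v) := by
  have hl : ∀ i f, h (D.d i f) = ((1 : ℂˣ) : ℂ) • D'.d i (h f) := by
    intro i f
    rw [h1, Units.val_one, one_smul]
  obtain ⟨gfn, gx, gβ, gc, gb, gv⟩ := tw_gens D D' h 1 1
  have gx' : ∀ i, tw h 1 1 ((cdE D).x i) = (cdE D').x i := by
    intro i; rw [gx]; simp
  have gβ' : ∀ i, tw h 1 1 ((cdE D).β i) = (cdE D').β i := by
    intro i; rw [gβ]; simp
  have gc' : ∀ i, tw h 1 1 ((cdE D).c i) = (cdE D').c i := by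
    intro i; rw [gc]; simp
  have gb' : ∀ i, tw h 1 1 ((cdE D).b i) = (cdE D').b i := by
    intro i; rw [gb]; simp
  have hg : ∀ i j, h (fr.g i j) = (fr.map h).g i j := by
    intro i j
    simp only [Frame.g, Frame.map, Matrix.mul_apply, Matrix.transpose_apply, Matrix.map_apply,
      map_sum, map_mul]
  have hgi : ∀ i j, h (fr.gi i j) = (fr.map h).gi i j := by
    intro i j
    simp only [Frame.gi, Frame.map, Matrix.mul_apply, Matrix.transpose_apply, Matrix.map_apply,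
      map_sum, map_mul]
  have ham : ∀ j k l, h ((cdE D).am fr j k l) = (cdE D').am (fr.map h) j k l := by
    intro j k l
    simp only [CD.am, Matrix.mul_apply, Matrix.map_apply, map_sum, map_mul, h1, hgi, hg]
  have hhh : ∀ j l, h ((cdE D).hh fr j l) = (cdE D').hh (fr.map h) j l := by
    intro j l
    simp only [CD.hh, Matrix.trace, Matrix.diag_apply, Matrix.mul_apply]
    rw [Algebra.smul_def, Algebra.smul_def, map_mul, hτ]
    congr 1
    simp only [map_sum, map_mul, ham]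
  have hbu : ∀ i, tw h 1 1 ((cdE D).bu fr i) = (cdE D').bu (fr.map h) i := by
    intro i
    unfold CD.bu
    rw [map_sum]
    refine Finset.sum_congr rfl fun j _ => ?_
    rw [tw_fm D D' h 1 1 hl, gb', hgi]
  have hcd : ∀ i, tw h 1 1 ((cdE D).cd fr i) = (cdE D').cd (fr.map h) i := by
    intro i
    unfold CD.cd
    rw [map_sum]
    refine Finset.sum_congr rfl fun j _ => ?_
    rw [tw_fm D D' h 1 1 hl, gc', hg]
  have hbh : ∀ i, tw h 1 1 ((cdE D).bh fr i) = (cdE D').bh (fr.map h) i := by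
    intro i
    unfold CD.bh
    rw [map_add, map_sub, gβ', map_sum, map_sum]
    congr 1
    · congr 1
      refine Finset.sum_congr rfl fun k _ => ?_
      rw [map_sum]
      refine Finset.sum_congr rfl fun l _ => ?_
      rw [tw_fm D D' h 1 1 hl, tw_mul D D' h 1 1 hl, gc', gb', ham]
    · refine Finset.sum_congr rfl fun l _ => ?_
      rw [tw_fm D D' h 1 1 hl, gx', hhh]
  have hnm : ∀ v, tw h 1 1 ((cdE D).nm fr v) = (cdE D').nm (fr.map h) (tw h 1 1 v) := by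
    intro v
    unfold CD.nm
    rw [LinearMap.sum_apply, LinearMap.sum_apply, map_sum]
    refine Finset.sum_congr rfl fun i _ => ?_
    rw [tw_zm D D' h 1 1 hl, tw_mul D D' h 1 1 hl, hbu, hbh]
  have hnp : ∀ v, tw h 1 1 ((cdE D).npl fr v) = (cdE D').npl (fr.map h) (tw h 1 1 v) := by
    intro v
    unfold CD.npl
    rw [LinearMap.sum_apply, LinearMap.sum_apply, map_sum]
    refine Finset.sum_congr rfl fun i _ => ?_
    rw [tw_zm D D' h 1 1 hl, tw_mul D D' h 1 1 hl, hcd, gx']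
  have hQ1 : ∀ v, tw h 1 1 ((cdE D).Q1 v) = (cdE D').Q1 (tw h 1 1 v) := by
    intro v
    rw [tw_Q1 D D' h 1 1 hl]; simp
  have hQ2 : ∀ v, tw h 1 1 ((cdE D).Q2 v) = (cdE D').Q2 (tw h 1 1 v) := by
    intro v
    rw [tw_Q2 D D' h 1 1 hl]; simp
  unfold CD.Do
  simp only [LinearMap.smul_apply, LinearMap.add_apply, LinearMap.sub_apply]
  rw [tw_csmul h 1 1 _ _ (hτ (1/2)), map_add, map_sub, map_sub, hQ1, hQ2, hnm, hnp]

end T

section T2
variable {n : ℕ} {A : Type*} [CommRing A] [Algebra ℂ A] (D : DS n A)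

/-- rule for the operator `HE` -/
theorem HE_Y (a : EE n A) (k : ℤ) (v : EE n A) :
    HE n A ((vsaE D).Y a k v) = (vsaE D).Y (HE n A a) k v + (vsaE D).Y a k (HE n A v)
      - (2 * ((k : ℂ) + 1)) • (vsaE D).Y a k v := by
  have := dg_Y D (0 : Derivation ℂ A A) 2 1 2 (fun i f => by simp) a k v
  simpa [HE] using this

namespace TwCD

lemma HE_gens : (∀ f, HE n A ((cdE D).fn f) = 0) ∧
    (∀ i, HE n A ((cdE D).x i) = (2 : ℂ) • (cdE D).x i) ∧
    (∀ i, HE n A ((cdE D).β i) = (2 : ℂ) • (cdE D).β i) ∧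
    (∀ i, HE n A ((cdE D).c i) = (1 : ℂ) • (cdE D).c i) ∧
    (∀ i, HE n A ((cdE D).b i) = (1 : ℂ) • (cdE D).b i) := by
  obtain ⟨h1, h2, h3, h4, h5, _⟩ := dg_gens D (0 : Derivation ℂ A A) 2 1 2
  refine ⟨fun f => ?_, fun i => ?_, fun i => ?_, fun i => ?_, fun i => ?_⟩
  · have := h1 f
    simpa [HE] using this
  · have := h2 i
    simpa [HE] using this
  · have := h3 i
    have e : (2 * 2 - 2 : ℂ) = 2 := by norm_num
    rw [e] at this
    simpa [HE] using this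
  · have := h4 i
    simpa [HE] using this
  · have := h5 i
    have e : (2 - 1 : ℂ) = 1 := by norm_num
    rw [e] at this
    simpa [HE] using this

lemma HE_Y' {a v : EE n A} {p q : ℂ} (ha : HE n A a = p • a) (hv : HE n A v = q • v) (k : ℤ) :
    HE n A ((vsaE D).Y a k v) = (p + q - 2 * ((k : ℂ) + 1)) • (vsaE D).Y a k v := by
  rw [HE_Y, ha, hv, Y_smul_l, map_smul]
  module

lemma HE_mul' {a v : EE n A} {p q : ℂ} (ha : HE n A a = p • a) (hv : HE n A v = q • v) :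
    HE n A ((vsaE D).mul a v) = (p + q) • (vsaE D).mul a v := by
  rw [mul_def, HE_Y' D ha hv]
  congr 1
  push_cast
  ring

lemma HE_fm (f : A) {v : EE n A} {q : ℂ} (hv : HE n A v = q • v) :
    HE n A ((cdE D).fm f v) = q • (cdE D).fm f v := by
  unfold CD.fm
  have h0 : HE n A ((cdE D).fn f) = (0 : ℂ) • (cdE D).fn f := by
    rw [(HE_gens D).1, zero_smul]
  rw [HE_Y' D h0 hv]
  congr 1
  push_cast
  ring

lemma HE_sum {ι : Type*} (s : Finset ι) (a : ι → EE n A) (q : ℂ)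
    (h : ∀ i ∈ s, HE n A (a i) = q • a i) : HE n A (∑ i ∈ s, a i) = q • ∑ i ∈ s, a i := by
  rw [map_sum, Finset.smul_sum]
  exact Finset.sum_congr rfl h

lemma HE_add {a b : EE n A} {q : ℂ} (ha : HE n A a = q • a) (hb : HE n A b = q • b) :
    HE n A (a + b) = q • (a + b) := by
  rw [map_add, ha, hb, smul_add]

lemma HE_sub {a b : EE n A} {q : ℂ} (ha : HE n A a = q • a) (hb : HE n A b = q • b) :
    HE n A (a - b) = q • (a - b) := by
  rw [map_sub, ha, hb, smul_sub]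

/-- zero modes of states of weight `q` shift the weight by `q - 2` -/
lemma HE_zm {a : EE n A} {q : ℂ} (ha : HE n A a = q • a) (v : EE n A) :
    HE n A ((vsaE D).zm a v) = (vsaE D).zm a (HE n A v) + (q - 2) • (vsaE D).zm a v := by
  rw [zm_def, zm_def, HE_Y, ha, Y_smul_l]
  push_cast
  module

lemma HE_C (fr : Frame n A) (a : Fin n) :
    HE n A ((cdE D).C fr a) = (1 : ℂ) • (cdE D).C fr a :=
  HE_sum _ _ _ fun i _ => HE_fm D _ ((HE_gens D).2.2.2.1 i)

lemma HE_B (fr : Frame n A) (a : Fin n) :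
    HE n A ((cdE D).B fr a) = (1 : ℂ) • (cdE D).B fr a :=
  HE_sum _ _ _ fun i _ => HE_fm D _ ((HE_gens D).2.2.2.2 i)

lemma HE_ps (fr : Frame n A) (a : Fin n) :
    HE n A ((cdE D).ps fr a) = (1 : ℂ) • (cdE D).ps fr a :=
  HE_add (HE_C D fr a) (HE_B D fr a)

lemma HE_bu (fr : Frame n A) (a : Fin n) :
    HE n A ((cdE D).bu fr a) = (1 : ℂ) • (cdE D).bu fr a :=
  HE_sum _ _ _ fun i _ => HE_fm D _ ((HE_gens D).2.2.2.2 i)

lemma HE_cd (fr : Frame n A) (a : Fin n) :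
    HE n A ((cdE D).cd fr a) = (1 : ℂ) • (cdE D).cd fr a :=
  HE_sum _ _ _ fun i _ => HE_fm D _ ((HE_gens D).2.2.2.1 i)

lemma HE_bh (fr : Frame n A) (a : Fin n) :
    HE n A ((cdE D).bh fr a) = (2 : ℂ) • (cdE D).bh fr a := by
  unfold CD.bh
  refine HE_add (HE_sub ((HE_gens D).2.2.1 a) ?_) ?_
  · refine HE_sum _ _ _ fun k _ => HE_sum _ _ _ fun l _ => HE_fm D _ ?_
    have := HE_mul' D ((HE_gens D).2.2.2.1 l) ((HE_gens D).2.2.2.2 k)
    rw [this]
    norm_num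
  · exact HE_sum _ _ _ fun l _ => HE_fm D _ ((HE_gens D).2.1 l)

lemma HE_Q1 (v : EE n A) :
    HE n A ((cdE D).Q1 v) = (cdE D).Q1 (HE n A v) + (cdE D).Q1 v := by
  unfold CD.Q1
  rw [LinearMap.sum_apply, LinearMap.sum_apply, map_sum, ← Finset.sum_add_distrib]
  refine Finset.sum_congr rfl fun i _ => ?_
  rw [HE_zm D (HE_mul' D ((HE_gens D).2.2.2.1 i) ((HE_gens D).2.2.1 i))]
  norm_num

lemma HE_Q2 (v : EE n A) :
    HE n A ((cdE D).Q2 v) = (cdE D).Q2 (HE n A v) + (cdE D).Q2 v := by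
  unfold CD.Q2
  rw [LinearMap.sum_apply, LinearMap.sum_apply, map_sum, ← Finset.sum_add_distrib]
  refine Finset.sum_congr rfl fun i _ => ?_
  rw [HE_zm D (HE_mul' D ((HE_gens D).2.2.2.2 i) ((HE_gens D).2.1 i))]
  norm_num

lemma HE_nm (fr : Frame n A) (v : EE n A) :
    HE n A ((cdE D).nm fr v) = (cdE D).nm fr (HE n A v) + (cdE D).nm fr v := by
  unfold CD.nm
  rw [LinearMap.sum_apply, LinearMap.sum_apply, map_sum, ← Finset.sum_add_distrib]
  refine Finset.sum_congr rfl fun i _ => ?_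
  rw [HE_zm D (HE_mul' D (HE_bu D fr i) (HE_bh D fr i))]
  norm_num

lemma HE_npl (fr : Frame n A) (v : EE n A) :
    HE n A ((cdE D).npl fr v) = (cdE D).npl fr (HE n A v) + (cdE D).npl fr v := by
  unfold CD.npl
  rw [LinearMap.sum_apply, LinearMap.sum_apply, map_sum, ← Finset.sum_add_distrib]
  refine Finset.sum_congr rfl fun i _ => ?_
  rw [HE_zm D (HE_mul' D (HE_cd D fr i) ((HE_gens D).2.1 i))]
  norm_num

end TwCD

open TwCD

/-- weights of the composite states -/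
theorem HE_Phi (fr : Frame n A) (φ : Fin n → Fin n → Fin n → ℂ) :
    HE n A ((cdE D).Phi fr φ) = (3 : ℂ) • (cdE D).Phi fr φ := by
  unfold CD.Phi
  refine HE_sum _ _ _ fun a _ => HE_sum _ _ _ fun b _ => HE_sum _ _ _ fun c _ => ?_
  rw [map_smul, HE_mul' D (HE_ps D fr a) (HE_mul' D (HE_ps D fr b) (HE_ps D fr c)), smul_comm]
  norm_num
theorem HE_F_Phi (fr : Frame n A) (φ : Fin n → Fin n → Fin n → ℂ) :
    HE n A ((cdE D).F ((cdE D).Phi fr φ)) = (3 : ℂ) • (cdE D).F ((cdE D).Phi fr φ) := by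
  have hF : ∀ v, HE n A ((cdE D).F v) = (cdE D).F (HE n A v) := by
    intro v
    unfold CD.F
    rw [LinearMap.sum_apply, LinearMap.sum_apply, map_sum]
    refine Finset.sum_congr rfl fun i _ => ?_
    rw [HE_zm D (HE_mul' D ((HE_gens D).2.2.2.1 i) ((HE_gens D).2.2.2.2 i))]
    norm_num
  rw [hF, HE_Phi, map_smul]
theorem HE_KK (fr : Frame n A) (φ : Fin n → Fin n → Fin n → ℂ) :
    HE n A ((cdE D).KK fr φ) = (4 : ℂ) • (cdE D).KK fr φ := by
  unfold CD.KK CD.DD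
  rw [LinearMap.add_apply, map_add, HE_Q1, HE_Q2, HE_Phi, map_smul, map_smul]
  module
theorem HE_Do (fr : Frame n A) (v : EE n A) :
    HE n A ((cdE D).Do fr v) = (cdE D).Do fr (HE n A v) + (cdE D).Do fr v := by
  unfold CD.Do
  simp only [LinearMap.smul_apply, LinearMap.add_apply, LinearMap.sub_apply, map_smul, map_add,
    map_sub, HE_Q1, HE_Q2, HE_nm, HE_npl]
  module

namespace TwCD

section N
variable (δ : Derivation ℂ A A) (hδ : ∀ i f, δ (D.d i f) - D.d i (δ f) = D.d i f)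
include hδ

lemma N_Y (a : EE n A) (k : ℤ) (v : EE n A) :
    dg (δ : A →ₗ[ℂ] A) (-1) 0 0 ((vsaE D).Y a k v)
      = (vsaE D).Y (dg (δ : A →ₗ[ℂ] A) (-1) 0 0 a) k v
        + (vsaE D).Y a k (dg (δ : A →ₗ[ℂ] A) (-1) 0 0 v) := by
  have := dg_Y D δ (-1) 0 0 (fun i f => by rw [hδ]; simp) a k v
  rw [this]
  simp

lemma N_fm_zero (f : A) (hf : δ f = 0) {v : EE n A}
    (hv : dg (δ : A →ₗ[ℂ] A) (-1) 0 0 v = 0) :
    dg (δ : A →ₗ[ℂ] A) (-1) 0 0 ((cdE D).fm f v) = 0 := by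
  unfold CD.fm
  rw [N_Y D δ hδ, (dg_gens D δ (-1) 0 0).1, hf, hv, map_zero, map_zero, map_zero]
  simp

omit hδ in
lemma N_c (i : Fin n) : dg (δ : A →ₗ[ℂ] A) (-1) 0 0 ((cdE D).c i) = 0 := by
  rw [(dg_gens D δ (-1) 0 0).2.2.2.1, zero_smul]

omit hδ in
lemma N_b (i : Fin n) : dg (δ : A →ₗ[ℂ] A) (-1) 0 0 ((cdE D).b i) = 0 := by
  rw [(dg_gens D δ (-1) 0 0).2.2.2.2.1, sub_zero, zero_smul]

omit hδ in
lemma N_x (i : Fin n) : dg (δ : A →ₗ[ℂ] A) (-1) 0 0 ((cdE D).x i) = -(cdE D).x i := by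
  rw [(dg_gens D δ (-1) 0 0).2.1, neg_smul, one_smul]

omit hδ in
lemma N_β (i : Fin n) : dg (δ : A →ₗ[ℂ] A) (-1) 0 0 ((cdE D).β i) = (cdE D).β i := by
  rw [(dg_gens D δ (-1) 0 0).2.2.1]
  norm_num

lemma N_ps (fr : Frame n A) (he : ∀ a i, δ (fr.e a i) = 0) (hf : ∀ i a, δ (fr.f i a) = 0)
    (a : Fin n) : dg (δ : A →ₗ[ℂ] A) (-1) 0 0 ((cdE D).ps fr a) = 0 := by
  unfold CD.ps CD.C CD.B
  rw [map_add, map_sum, map_sum, Finset.sum_eq_zero, Finset.sum_eq_zero, add_zero]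
  · intro i _
    exact N_fm_zero D δ hδ _ (hf i a) (N_b D δ i)
  · intro i _
    exact N_fm_zero D δ hδ _ (he a i) (N_c D δ i)

lemma N_Q1 (v : EE n A) : dg (δ : A →ₗ[ℂ] A) (-1) 0 0 ((cdE D).Q1 v)
    = (cdE D).Q1 v + (cdE D).Q1 (dg (δ : A →ₗ[ℂ] A) (-1) 0 0 v) := by
  unfold CD.Q1
  rw [LinearMap.sum_apply, LinearMap.sum_apply, map_sum, ← Finset.sum_add_distrib]
  refine Finset.sum_congr rfl fun i _ => ?_
  rw [zm_def, zm_def, mul_def, N_Y D δ hδ, N_Y D δ hδ, N_c, N_β]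
  simp

lemma N_Q2 (v : EE n A) : dg (δ : A →ₗ[ℂ] A) (-1) 0 0 ((cdE D).Q2 v)
    = -(cdE D).Q2 v + (cdE D).Q2 (dg (δ : A →ₗ[ℂ] A) (-1) 0 0 v) := by
  unfold CD.Q2
  rw [LinearMap.sum_apply, LinearMap.sum_apply, map_sum, ← Finset.sum_neg_distrib,
    ← Finset.sum_add_distrib]
  refine Finset.sum_congr rfl fun i _ => ?_
  rw [zm_def, zm_def, mul_def, N_Y D δ hδ, N_Y D δ hδ, N_b, N_x]
  simp

end N

end TwCD

/-- the derivation `N` for the `ε`-family: `δ` with `[δ, ∂ᵢ] = ∂ᵢ`, killing the frame -/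
theorem N_Phi (fr : Frame n A) (δ : Derivation ℂ A A)
    (hδ : ∀ i f, δ (D.d i f) - D.d i (δ f) = D.d i f)
    (he : ∀ a i, δ (fr.e a i) = 0) (hf : ∀ i a, δ (fr.f i a) = 0)
    (φ : Fin n → Fin n → Fin n → ℂ) :
    dg (δ : A →ₗ[ℂ] A) (-1) 0 0 ((cdE D).Phi fr φ) = 0 := by
  unfold CD.Phi
  rw [map_sum]
  refine Finset.sum_eq_zero fun a _ => ?_
  rw [map_sum]
  refine Finset.sum_eq_zero fun b _ => ?_
  rw [map_sum]
  refine Finset.sum_eq_zero fun c _ => ?_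
  rw [map_smul, mul_def, mul_def, N_Y D δ hδ, N_Y D δ hδ, N_ps D δ hδ fr he hf,
    N_ps D δ hδ fr he hf, N_ps D δ hδ fr he hf]
  simp
theorem N_KK (fr : Frame n A) (δ : Derivation ℂ A A)
    (hδ : ∀ i f, δ (D.d i f) - D.d i (δ f) = D.d i f)
    (he : ∀ a i, δ (fr.e a i) = 0) (hf : ∀ i a, δ (fr.f i a) = 0)
    (φ : Fin n → Fin n → Fin n → ℂ) :
    dg (δ : A →ₗ[ℂ] A) (-1) 0 0 ((cdE D).KK fr φ)
      = (cdE D).Q1 ((cdE D).Phi fr φ) - (cdE D).Q2 ((cdE D).Phi fr φ) := by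
  unfold CD.KK CD.DD
  rw [LinearMap.add_apply, map_add, N_Q1 D δ hδ, N_Q2 D δ hδ, N_Phi D fr δ hδ he hf, map_zero,
    map_zero]
  abel
end T2

end Pool.Agent.AA3
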