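import Pool.Agent.Lib.MP_aa3aaf_al.TwistDef
import Pool.Agent.Lib.MP_aa3aaf_al.Exist
import Pool.Agent.Lib.MP_aa3aaf_al.FockVSA

/-!
Twisted base change of the Fock space is a homomorphism of vertex superalgebras.
-/

set_option autoImplicit false
open scoped BigOperators
noncomputable section
namespace Pool.Agent.AA3

namespace TwistAux

variable {n : ℕ} {A A' : Type*} [CommRing A] [Algebra ℂ A] [CommRing A'] [Algebra ℂ A']

lemma par_smul {E : Type*} [AddCommGroup E] [Module ℂ E] (V : VSA E) {p : ℕ} {a : E} (c : ℂ)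
    (ha : V.Par p a) : V.Par p (c • a) := by
  unfold VSA.Par at *
  rw [map_smul, ha, smul_comm]

lemma Y_smul_left {E : Type*} [AddCommGroup E] [Module ℂ E] (V : VSA E) (c : ℂ) (a : E) (k : ℤ)
    (v : E) : V.Y (c • a) k v = c • V.Y a k v := by
  rw [map_smul]
  rfl

lemma x_eq (D : DS n A) (i : Fin n) : (cdE D).x i = xMo n A i (-1) (vacE n A) := by
  rw [← Y_x D, ← vsaE_vac D, (vsaE D).create]

lemma β_eq (D : DS n A) (i : Fin n) : (cdE D).β i = βMo D i (-1) (vacE n A) := by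
  rw [← Y_β D, ← vsaE_vac D, (vsaE D).create]

lemma c_eq (D : DS n A) (i : Fin n) : (cdE D).c i = fMo n A false i (-1) (vacE n A) := by
  rw [← Y_c D, ← vsaE_vac D, (vsaE D).create]

lemma b_eq (D : DS n A) (i : Fin n) : (cdE D).b i = fMo n A true i (-1) (vacE n A) := by
  rw [← Y_b D, ← vsaE_vac D, (vsaE D).create]

end TwistAux

section K5
variable {n : ℕ} {A A' : Type*} [CommRing A] [Algebra ℂ A] [CommRing A'] [Algebra ℂ A']

open TwistAux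

theorem tw_gens (D : DS n A) (D' : DS n A') (h : A →+* A') (l m : ℂˣ) :
    (∀ f, tw h l m ((cdE D).fn f) = (cdE D').fn (h f)) ∧
    (∀ i, tw h l m ((cdE D).x i) = (l⁻¹ : ℂ) • (cdE D').x i) ∧
    (∀ i, tw h l m ((cdE D).β i) = (l : ℂ) • (cdE D').β i) ∧
    (∀ i, tw h l m ((cdE D).c i) = (m : ℂ) • (cdE D').c i) ∧
    (∀ i, tw h l m ((cdE D).b i) = (m⁻¹ : ℂ) • (cdE D').b i) ∧
    tw h l m (vacE n A) = vacE n A' := by
  refine ⟨fun f => ?_, fun i => ?_, fun i => ?_, fun i => ?_, fun i => ?_, tw_vac h l m⟩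
  · rw [cdE_fn, cdE_fn, tw_single, sc_zero, Units.val_one, map_one, one_mul]
  · rw [x_eq, x_eq, tw_xMo, tw_vac, Units.val_inv_eq_inv_val]
  · rw [β_eq, β_eq]
    simp only [βMo, show (-1 : ℤ) < 0 by norm_num, if_true, LinearMap.restrictScalars_apply,
      tw_ycr, tw_vac]
  · rw [c_eq, c_eq, tw_fMo, tw_vac]
    simp [uf]
  · rw [b_eq, b_eq, tw_fMo, tw_vac]
    simp [uf]

theorem tw_Y (D : DS n A) (D' : DS n A') (h : A →+* A') (l m : ℂˣ)
    (hl : ∀ i f, h (D.d i f) = (l : ℂ) • D'.d i (h f)) (a : EE n A) (k : ℤ) (v : EE n A) :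
    tw h l m ((vsaE D).Y a k v) = (vsaE D').Y (tw h l m a) k (tw h l m v) := by
  obtain ⟨gf, gx, gβ, gc, gb, -⟩ := tw_gens D D' h l m
  refine VSA.hom_of_gen (vsaE D) (vsaE D') (tw h l m) (genE D) ?_ (genE_span D) ?_ ?_ ?_ a k v
  · rintro g ((((⟨i, rfl⟩ | ⟨i, rfl⟩) | ⟨i, rfl⟩) | ⟨i, rfl⟩) | ⟨f, rfl⟩)
    · exact ⟨0, (cdE D).par_x i, by rw [gx]; exact par_smul _ _ ((cdE D').par_x i)⟩
    · exact ⟨0, (cdE D).par_β i, by rw [gβ]; exact par_smul _ _ ((cdE D').par_β i)⟩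
    · exact ⟨1, (cdE D).par_c i, by rw [gc]; exact par_smul _ _ ((cdE D').par_c i)⟩
    · exact ⟨1, (cdE D).par_b i, by rw [gb]; exact par_smul _ _ ((cdE D').par_b i)⟩
    · exact ⟨0, (cdE D).par_fn f, by rw [gf]; exact (cdE D').par_fn _⟩
  · rw [vsaE_vac, vsaE_vac, tw_vac]
  · intro v
    rw [vsaE_sg, vsaE_sg, tw_sgE]
  · rintro g ((((⟨i, rfl⟩ | ⟨i, rfl⟩) | ⟨i, rfl⟩) | ⟨i, rfl⟩) | ⟨f, rfl⟩) k v
    · rw [gx, Y_smul_left, Y_x, Y_x, tw_xMo, Units.val_inv_eq_inv_val]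
    · rw [gβ, Y_smul_left, Y_β, Y_β, tw_βMo D D' h l m hl]
    · rw [gc, Y_smul_left, Y_c, Y_c, tw_fMo]
      simp [uf]
    · rw [gb, Y_smul_left, Y_b, Y_b, tw_fMo]
      simp [uf]
    · rw [gf, Y_fn, Y_fn, tw_fnMo D D' h l m hl]

end K5

end Pool.Agent.AA3
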