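import Pool.Agent.Lib.MP_aa3aaf_al.CCoord
import Pool.Agent.Lib.MP_aa3aaf_al.Twist
import Pool.Agent.Lib.MP_aa3aaf_al.Eps
import Pool.Agent.Lib.MP_aa3aaf_al.TwCD
import Pool.Agent.Lib.MP_aa3aaf_al.Bridge2

/-!
Base change of the coordinate states and the diagonal isomorphism `Ξ`.
-/

set_option autoImplicit false
open scoped BigOperators
noncomputable section
namespace Pool.Agent.AA3

section B3
variable {n : ℕ} {A A' : Type*} [CommRing A] [Algebra ℂ A] [CommRing A'] [Algebra ℂ A']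

namespace B3

/-- base change is `ℂ`-linear if the ring homomorphism is -/
theorem tw_smul (h : A →+* A') (l m : ℂˣ)
    (hτ : ∀ z : ℂ, h (algebraMap ℂ A z) = algebraMap ℂ A' z)
    (z : ℂ) (v : EE n A) : tw h l m (z • v) = z • tw h l m v := by
  induction v using Finsupp.induction_linear with
  | zero => simp
  | add f g hf hg => rw [smul_add, map_add, map_add, smul_add, hf, hg]
  | single u a =>
    have h1 : h (z • a) = z • h a := by
      rw [Algebra.smul_def, map_mul, hτ, ← Algebra.smul_def]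
    rw [Finsupp.smul_single]
    simp only [tw, Finsupp.liftAddHom_apply_single, AddMonoidHom.comp_apply,
      Finsupp.singleAddHom_apply, AddMonoidHom.coe_mulLeft, RingHom.toAddMonoidHom_eq_coe,
      AddMonoidHom.coe_coe, h1, mul_smul_comm, Finsupp.smul_single]

omit [Algebra ℂ A] in
/-- coefficients of the base change -/
theorem tw_apply (h : A →+* A') (l m : ℂˣ) (v : EE n A) (w : Mon n) :
    tw h l m v w = algebraMap ℂ A' (((l⁻¹ ^ (Multiset.card w.1) * l ^ (Multiset.card w.2.1) *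
          m ^ cnt false w.2.2 * m⁻¹ ^ cnt true w.2.2 : ℂˣ) : ℂ)) * h (v w) := by
  induction v using Finsupp.induction_linear with
  | zero => simp
  | add f g hf hg => simp only [map_add, Finsupp.add_apply, hf, hg, mul_add]
  | single u a =>
    simp only [tw, Finsupp.liftAddHom_apply_single, AddMonoidHom.comp_apply,
      Finsupp.singleAddHom_apply, AddMonoidHom.coe_mulLeft, RingHom.toAddMonoidHom_eq_coe,
      AddMonoidHom.coe_coe]
    by_cases hu : u = w
    · subst hu; rw [Finsupp.single_eq_same, Finsupp.single_eq_same]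
    · rw [Finsupp.single_eq_of_ne (Ne.symm hu), Finsupp.single_eq_of_ne (Ne.symm hu), map_zero,
        mul_zero]

section gen
variable (D : DS n A) (D' : DS n A') (h : A →+* A') (l m : ℂˣ)
  (hl : ∀ i f, h (D.d i f) = (l : ℂ) • D'.d i (h f))
include hl

theorem tw_mul (a b : EE n A) :
    tw h l m ((vsaE D).mul a b) = (vsaE D').mul (tw h l m a) (tw h l m b) :=
  tw_Y D D' h l m hl a (-1) b

theorem tw_fm (f : A) (v : EE n A) :
    tw h l m ((cdE D).fm f v) = (cdE D').fm (h f) (tw h l m v) := by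
  unfold CD.fm
  rw [tw_Y D D' h l m hl, (tw_gens D D' h l m).1 f]

end gen

theorem fm_smul_right' (D : DS n A) (f : A) (z : ℂ) (v : EE n A) :
    (cdE D).fm f (z • v) = z • (cdE D).fm f v := by
  unfold CD.fm
  rw [map_smul]

theorem fm_smul_left' (D : DS n A) (f : A) (z : ℂ) (v : EE n A) :
    (cdE D).fm (z • f) v = z • (cdE D).fm f v := by
  unfold CD.fm
  rw [map_smul, map_smul, Pi.smul_apply, LinearMap.smul_apply]

theorem mul_smul_smul' (D : DS n A) (z z' : ℂ) (a b : EE n A) :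
    (vsaE D).mul (z • a) (z' • b) = (z * z') • (vsaE D).mul a b := by
  rw [map_smul, map_smul, LinearMap.smul_apply, smul_smul, mul_comm]

theorem tw_Est (D : DS n A) (D' : DS n A') (h : A →+* A') (l m : ℂˣ)
    (hl : ∀ i f, h (D.d i f) = (l : ℂ) • D'.d i (h f))
    (hτ : ∀ z : ℂ, h (algebraMap ℂ A z) = algebraMap ℂ A' z) (s : ℂ)
    (gi : Matrix (Fin n) (Fin n) A) (i : Fin n) :
    tw h l m (Est D s gi i) = ((m : ℂ)⁻¹) • Est D' (s * (m : ℂ) ^ 2) (gi.map h) i := by
  have hm : (m : ℂ) ≠ 0 := m.ne_zero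
  obtain ⟨hfn, hx, hβ, hc, hb, hv⟩ := tw_gens D D' h l m
  unfold Est
  rw [map_add, map_sum, tw_smul h l m hτ, hc, smul_add, Finset.smul_sum]
  congr 1
  · refine Finset.sum_congr rfl fun j _ => ?_
    rw [tw_fm D D' h l m hl, hb, fm_smul_right', Matrix.map_apply]
  · rw [smul_smul, smul_smul]
    congr 1
    field_simp

theorem tw_formSt_gen (D : DS n A) (D' : DS n A') (h : A →+* A') (l m : ℂˣ)
    (hl : ∀ i f, h (D.d i f) = (l : ℂ) • D'.d i (h f))
    (hτ : ∀ z : ℂ, h (algebraMap ℂ A z) = algebraMap ℂ A' z) (s q : ℂ)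
    (gi : Matrix (Fin n) (Fin n) A) (Γ p : Fin n → Fin n → Fin n → A) :
    tw h l m (formSt D s q gi Γ p)
      = ((m : ℂ)⁻¹) ^ 3 • formSt D' (s * (m : ℂ) ^ 2) (q * (l : ℂ)⁻¹ * (m : ℂ) ^ 2) (gi.map h)
          (fun a b c => h (Γ a b c)) (fun a b c => h (p a b c)) := by
  have hm : (m : ℂ) ≠ 0 := m.ne_zero
  have hl' : (l : ℂ) ≠ 0 := l.ne_zero
  obtain ⟨hfn, hx, hβ, hc, hb, hv⟩ := tw_gens D D' h l m
  unfold formSt
  simp only [map_add, map_sum, tw_smul h l m hτ, smul_add, Finset.smul_sum]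
  congr 1
  · refine Finset.sum_congr rfl fun i _ => Finset.sum_congr rfl fun j _ =>
      Finset.sum_congr rfl fun k _ => ?_
    rw [tw_fm D D' h l m hl, tw_mul D D' h l m hl, tw_mul D D' h l m hl,
      tw_Est D D' h l m hl hτ, tw_Est D D' h l m hl hτ, tw_Est D D' h l m hl hτ,
      mul_smul_smul', mul_smul_smul', fm_smul_right']
    congr 1
    ring
  · refine Finset.sum_congr rfl fun i _ => Finset.sum_congr rfl fun k _ => ?_
    rw [tw_fm D D' h l m hl, tw_mul D D' h l m hl, hx,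
      tw_Est D D' h l m hl hτ, mul_smul_smul', fm_smul_right', smul_smul, smul_smul]
    have e1 : h (∑ j, ∑ j', ∑ j'', gi j j' * Γ j'' i j * p j'' j' k)
        = ∑ j, ∑ j', ∑ j'', gi.map h j j' * h (Γ j'' i j) * h (p j'' j' k) := by
      simp only [map_sum, map_mul, Matrix.map_apply]
    rw [e1]
    congr 1
    field_simp

theorem formSt_smul_Gam (D : DS n A) (s q t : ℂ) (gi : Matrix (Fin n) (Fin n) A)
    (Γ p : Fin n → Fin n → Fin n → A) :
    formSt D s q gi (fun a b c => t • Γ a b c) p = formSt D s (q * t) gi Γ p := by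
  unfold formSt
  congr 1
  rw [mul_smul]
  congr 1
  simp only [Finset.smul_sum]
  refine Finset.sum_congr rfl fun i _ => Finset.sum_congr rfl fun k _ => ?_
  rw [← fm_smul_left']
  congr 1
  simp only [Finset.smul_sum, smul_mul_assoc, mul_smul_comm]

end B3

/-- plain base change by a `ℂ`-algebra homomorphism compatible with the derivations -/
theorem tw_formSt (D : DS n A) (D' : DS n A') (h : A →ₐ[ℂ] A')
    (hl : ∀ i f, h (D.d i f) = D'.d i (h f)) (s q : ℂ)
    (gi : Matrix (Fin n) (Fin n) A) (Γ p : Fin n → Fin n → Fin n → A) :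
    tw h.toRingHom 1 1 (formSt D s q gi Γ p)
      = formSt D' s q (gi.map h) (fun a b c => h (Γ a b c)) (fun a b c => h (p a b c)) := by
  have := B3.tw_formSt_gen D D' h.toRingHom 1 1
    (fun i f => by rw [Units.val_one, one_smul]; exact hl i f) (fun z => h.commutes z) s q gi Γ p
  rw [this]
  simp only [Units.val_one, inv_one, one_pow, one_smul, mul_one]
  rfl

/-- `-i` as a unit of `ℂ` -/
def negI : ℂˣ := Units.mk0 (-Complex.I) (by simp)
/-- `i` as a unit of `ℂ` -/
def posI : ℂˣ := Units.mk0 Complex.I (by simp)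

/-- The diagonal isomorphism from `(A, -i ∂)` to `(A, ∂)`. -/
def Xi : EE n A →+ EE n A := tw (RingHom.id A) negI posI

namespace B3

theorem Xi_hl (D : DS n A) (i : Fin n) (f : A) :
    (RingHom.id A) ((D.scale (-Complex.I)).d i f) = ((negI : ℂˣ) : ℂ) • D.d i ((RingHom.id A) f) :=
  rfl

end B3

theorem Xi_Y (D : DS n A) (a : EE n A) (m : ℤ) (v : EE n A) :
    Xi ((vsaE (D.scale (-Complex.I))).Y a m v) = (vsaE D).Y (Xi a) m (Xi v) :=
  tw_Y (D.scale (-Complex.I)) D (RingHom.id A) negI posI (B3.Xi_hl D) a m v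

theorem Xi_DD (D : DS n A) (v : EE n A) :
    Xi ((cdE (D.scale (-Complex.I))).DD v) = (cdE D).DD (Xi v) := by
  unfold Xi CD.DD
  rw [LinearMap.add_apply, map_add,
    tw_Q1 (D.scale (-Complex.I)) D (RingHom.id A) negI posI (B3.Xi_hl D),
    tw_Q2 (D.scale (-Complex.I)) D (RingHom.id A) negI posI (B3.Xi_hl D)]
  have h1 : ((posI * negI : ℂˣ) : ℂ) = 1 := by
    simp [posI, negI]
  have h2 : ((posI⁻¹ * negI⁻¹ : ℂˣ) : ℂ) = 1 := by
    simp [posI, negI]
  rw [h1, h2, one_smul, one_smul, LinearMap.add_apply]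

theorem Xi_bij : Function.Bijective (Xi : EE n A →+ EE n A) := by
  constructor
  · exact tw_inj (RingHom.id A) negI posI Function.injective_id
  · intro v
    refine ⟨tw (RingHom.id A) negI⁻¹ posI⁻¹ v, ?_⟩
    ext w
    unfold Xi
    rw [B3.tw_apply, B3.tw_apply, RingHom.id_apply, RingHom.id_apply, ← mul_assoc, ← map_mul,
      ← Units.val_mul]
    have : (negI⁻¹ ^ (Multiset.card w.1) * negI ^ (Multiset.card w.2.1) *
          posI ^ cnt false w.2.2 * posI⁻¹ ^ cnt true w.2.2 : ℂˣ) *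
        (negI⁻¹⁻¹ ^ (Multiset.card w.1) * negI⁻¹ ^ (Multiset.card w.2.1) *
          posI⁻¹ ^ cnt false w.2.2 * posI⁻¹⁻¹ ^ cnt true w.2.2 : ℂˣ) = 1 := by
      rw [mul_eq_one_iff_eq_inv]
      simp only [mul_inv, inv_pow, inv_inv]
    rw [this, Units.val_one, map_one, one_mul]

theorem Xi_smul (c : ℂ) (v : EE n A) : Xi (c • v) = c • Xi v :=
  B3.tw_smul (RingHom.id A) negI posI (fun _ => rfl) c v

theorem Xi_formSt (D : DS n A) (gi : Matrix (Fin n) (Fin n) A)
    (Γ p : Fin n → Fin n → Fin n → A) :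
    Xi (formSt (D.scale (-Complex.I)) 1 6 gi (fun m l i => (-Complex.I) • Γ m l i) p)
      = Complex.I • formSt D (-1) (-6) gi Γ p := by
  unfold Xi
  rw [B3.tw_formSt_gen (D.scale (-Complex.I)) D (RingHom.id A) negI posI (B3.Xi_hl D)
    (fun _ => rfl)]
  have e1 : gi.map (RingHom.id A) = gi := by
    ext i j; rfl
  have e2 : (fun a b c => (RingHom.id A) ((-Complex.I) • Γ a b c))
      = fun a b c => (-Complex.I) • Γ a b c := rfl
  have e3 : (fun a b c => (RingHom.id A) (p a b c)) = p := rfl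
  rw [e1, e2, e3, B3.formSt_smul_Gam]
  have h1 : ((posI : ℂˣ) : ℂ) = Complex.I := rfl
  have h2 : ((negI : ℂˣ) : ℂ) = -Complex.I := rfl
  rw [h1, h2]
  have h3 : (Complex.I : ℂ)⁻¹ ^ 3 = Complex.I := by
    rw [Complex.inv_I, neg_pow, Complex.I_pow_three]
    norm_num
  have h4 : (1 : ℂ) * Complex.I ^ 2 = -1 := by rw [Complex.I_sq]; norm_num
  have h5 : (6 : ℂ) * (-Complex.I)⁻¹ * Complex.I ^ 2 * (-Complex.I) = -6 := by
    have : (-Complex.I : ℂ) ≠ 0 := by simp
    rw [Complex.I_sq]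
    field_simp
  rw [h3, h4, h5]

/-- the coordinate state in a frame is `Φ` -/
theorem formSt_frame (D : DS n A) (fr : Frame n A) (φ : Fin n → Fin n → Fin n → ℂ)
    (hφ : CD.Anti φ) (h2 : CD.Contr D fr φ) :
    formSt D 1 6 fr.gi (CD.Gam D fr) (CD.phc fr φ) = (cdE D).Phi fr φ := by
  rw [← CD.Phi_coord (cdE D) fr φ hφ h2]
  unfold formSt
  have : ∀ i, Est D 1 fr.gi i = (cdE D).bu fr i + (cdE D).c i := by
    intro i
    unfold Est CD.bu
    rw [one_smul]
  simp only [this]

theorem Gam_scale (D : DS n A) (fr : Frame n A) (t : ℂ) (m l i : Fin n) :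
    CD.Gam (D.scale t) fr m l i = t • CD.Gam D fr m l i := by
  unfold CD.Gam
  rw [Finset.smul_sum]
  refine Finset.sum_congr rfl fun r _ => ?_
  simp only [DS.scale, Derivation.coe_smul, Pi.smul_apply]
  rw [← smul_add, ← smul_sub, smul_comm (1 / 2 : ℂ) t, mul_smul_comm]

theorem contr_scale (D : DS n A) (fr : Frame n A) (φ : Fin n → Fin n → Fin n → ℂ) (t : ℂ)
    (h : CD.Contr D fr φ) : CD.Contr (D.scale t) fr φ := by
  have hs : ∀ d a b, fr.s (D.scale t) d a b = t • fr.s D d a b := by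
    intro d a b
    unfold Frame.s
    simp only [DS.scale, Derivation.coe_smul, Pi.smul_apply, Finset.smul_sum, mul_smul_comm,
      smul_mul_assoc]
  have hM : ∀ a b d, fr.M (D.scale t) a b d = t • fr.M D a b d := by
    intro a b d
    unfold Frame.M
    simp only [hs, smul_add, smul_sub]
  intro e c
  have := h e c
  simp only [hM, smul_comm _ t, ← Finset.smul_sum, this, smul_zero]

theorem scale_one (D : DS n A) : D.scale 1 = D := by
  obtain ⟨d, hd⟩ := D
  unfold DS.scale
  congr 1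
  funext i
  rw [one_smul]

end B3

end Pool.Agent.AA3
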