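import Pool.Agent.Lib.MP_aa3aaf_al.CPhi

/-!
Task C7: the coordinate formula of `Φ`.
-/

set_option autoImplicit false
open scoped BigOperators
noncomputable section
namespace Pool.Agent.AA3
namespace CD
variable {n : ℕ} {A : Type*} [CommRing A] [Algebra ℂ A] {D : DS n A}
  {E : Type*} [AddCommGroup E] [Module ℂ E] {V : VSA E} (G : CD n D V) (fr : Frame n A)

namespace C7

/-- function-linear combinations, general index types -/
theorem sum_fm_sum {I J : Type*} [Fintype I] [Fintype J] (P : I → A) (Q : I → J → A)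
    (T : J → E) (hT : ∀ j, G.Fr (T j)) :
    ∑ i, G.fm (P i) (∑ j, G.fm (Q i j) (T j)) = ∑ j, G.fm (∑ i, P i * Q i j) (T j) := by
  simp only [G.fm_sum_right, G.fm_fm _ _ (hT _), G.fm_sum]
  exact Finset.sum_comm

theorem fm_smul_right (z : ℂ) (f : A) (v : E) : G.fm f (z • v) = z • G.fm f v := by
  simp [CD.fm]

theorem fm_sub_right (f : A) (v w : E) : G.fm f (v - w) = G.fm f v - G.fm f w := by
  simp [CD.fm]

theorem mul_sum_left {ι : Type*} (s : Finset ι) (F : ι → E) (w : E) :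
    V.mul (∑ i ∈ s, F i) w = ∑ i ∈ s, V.mul (F i) w := by
  rw [map_sum, LinearMap.sum_apply]

theorem fm_comm (f g : A) (v : E) : G.fm f (G.fm g v) = G.fm g (G.fm f v) :=
  C1.fn_comm G f g (-1) (-1) v

theorem fr_mul_odd {u v : E} (hu : G.Odd1 u) (hv : G.Fr v) : G.Fr (V.mul u v) := by
  intro k f
  show V.Y (G.fn f) k (V.Y u (-1) v) = 0
  rw [← C1.odd_fn_comm G hu, hv, map_zero]

theorem fr_mul_x {v : E} (l : Fin n) (hv : G.Fr v) : G.Fr (V.mul (G.x l) v) := by
  intro k f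
  show V.Y (G.fn f) k (V.Y (G.x l) (-1) v) = 0
  rw [← C1.x_fn_comm G, hv, map_zero]

/-- the general form of `mul_fm_left` -/
theorem mul_fm_left' {u w v : E} (hu : G.Odd1 u) (hw : G.Fr w) (h0 : V.Y u 0 w = v)
    (h1 : ∀ k : ℕ, V.Y u (k + 1 : ℕ) w = 0) (hv : G.Fr v)
    (hx : ∀ (l : Fin n) (k : ℕ), V.Y (G.x l) k v = 0) (f : A) :
    V.mul (G.fm f u) w = G.fm f (V.mul u w) + ∑ l, G.fm (D.d l f) (V.mul (G.x l) v) := by
  show V.Y (G.fm f u) (-1) w = _
  rw [C1.Y_fm G hu.par f (-1) hw 2 (fun j hj => by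
    obtain ⟨i, rfl⟩ := Nat.exists_eq_add_of_le' hj
    have e : (-1 : ℤ) + ((i + 2 : ℕ) : ℤ) = ((i + 1 : ℕ) : ℤ) := by push_cast; ring
    rw [e]
    exact h1 i), Finset.sum_range_succ, Finset.sum_range_one]
  have e2 : (-1 : ℤ) - ((0 : ℕ) : ℤ) = -1 := by norm_num
  have e3 : (-1 : ℤ) + ((0 : ℕ) : ℤ) = -1 := by norm_num
  have e4 : (-1 : ℤ) - ((1 : ℕ) : ℤ) = -2 := by norm_num
  have e5 : (-1 : ℤ) + ((1 : ℕ) : ℤ) = 0 := by norm_num
  rw [e2, e3, e4, e5, h0, ← C1.Y_T_neg_one, G.T_fn]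
  congr 1
  rw [map_sum, Finset.sum_apply, LinearMap.sum_apply]
  refine Finset.sum_congr rfl fun l _ => ?_
  rw [show V.Y (G.fn (D.d l f)) (-1) (G.x l) = G.fm (D.d l f) (G.x l) from rfl,
    C1.Y_fm G (G.par_x l) (D.d l f) (-1) hv 1 (fun j hj => by
      obtain ⟨i, rfl⟩ := Nat.exists_eq_add_of_le' hj
      have e : (-1 : ℤ) + ((i + 1 : ℕ) : ℤ) = (i : ℤ) := by push_cast; ring
      rw [e]
      exact hx l i), Finset.sum_range_one, e2, e3]
  rfl

/-- the field `b^i + c^i` in the frame -/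
theorem uu_eq (i : Fin n) : G.bu fr i + G.c i = ∑ a, G.fm (fr.f i a) (G.ps fr a) := by
  rw [G.bu_eq fr i, G.c_eq fr i, ← Finset.sum_add_distrib]
  refine Finset.sum_congr rfl fun a _ => ?_
  rw [CD.ps, G.fm_add_right, add_comm]

/-- the residue of two frame fields -/
def kap (a b : Fin n) : ℂ := if a = b then 2 else 0

theorem ps_ps_zero (a b : Fin n) : V.Y (G.ps fr a) 0 (G.ps fr b) = kap a b • V.vac := by
  have h := G.ps_ps fr a b 0
  rw [Nat.cast_zero] at h
  rw [h, kap]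
  by_cases hab : a = b
  · rw [if_pos ⟨rfl, hab⟩, if_pos hab]
  · rw [if_neg (fun h => hab h.2), if_neg hab, zero_smul]

theorem ps_ps_succ (a b : Fin n) (k : ℕ) : V.Y (G.ps fr a) (k + 1 : ℕ) (G.ps fr b) = 0 := by
  rw [G.ps_ps fr a b (k + 1), if_neg (fun h => by omega)]

theorem ps_W (a b c : Fin n) (k : ℕ) :
    V.Y (G.ps fr a) k (V.mul (G.ps fr b) (G.ps fr c)) =
      if k = 0 then kap a b • G.ps fr c - kap a c • G.ps fr b else 0 := by
  have h := V.comm_of_pole (G.odd_ps fr a).par (G.odd_ps fr b).par (kap a b)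
    (ps_ps_zero G fr a b) (ps_ps_succ G fr a b) k (-1) (G.ps fr c)
  have e : ((-1 : ℂ) ^ (1 * 1)) = -1 := by norm_num
  rw [e, neg_one_smul, sub_neg_eq_add] at h
  have h2 := eq_sub_of_add_eq h
  show V.Y (G.ps fr a) k (V.Y (G.ps fr b) (-1) (G.ps fr c)) = _
  rw [h2]
  rcases Nat.eq_zero_or_pos k with rfl | hk
  · rw [Nat.cast_zero, ps_ps_zero, if_pos (by norm_num), if_pos rfl, map_smul, V.create]
  · obtain ⟨l, rfl⟩ := Nat.exists_eq_add_of_le' hk
    rw [ps_ps_succ, map_zero, if_neg (by omega), if_neg (by omega), sub_zero]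

/-- `x^l` and `ψ^a` commute -/
theorem ps_x (l a : Fin n) : V.mul (G.ps fr a) (G.x l) = V.mul (G.x l) (G.ps fr a) := by
  have h := V.mul_comm' (G.odd_ps fr a).par (G.par_x l) 0 (fun j _ => (G.odd_ps fr a).u_x j l)
  rw [h]
  simp

theorem fm_ps_mul_W (f : A) (a b c : Fin n) :
    V.mul (G.fm f (G.ps fr a)) (V.mul (G.ps fr b) (G.ps fr c)) =
      G.fm f (V.mul (G.ps fr a) (V.mul (G.ps fr b) (G.ps fr c))) +
        ∑ l, G.fm (D.d l f) (kap a b • V.mul (G.x l) (G.ps fr c)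
          - kap a c • V.mul (G.x l) (G.ps fr b)) := by
  have hv : ∀ (z w : ℂ), G.Odd1 (z • G.ps fr c - w • G.ps fr b) := fun z w =>
    Odd1.sub G (Odd1.smul G z (G.odd_ps fr c)) (Odd1.smul G w (G.odd_ps fr b))
  rw [mul_fm_left' G (G.odd_ps fr a) (fr_mul_odd G (G.odd_ps fr b) (C1.fr_odd G (G.odd_ps fr c)))
    (v := kap a b • G.ps fr c - kap a c • G.ps fr b) ?_ ?_ (C1.fr_odd G (hv _ _))
    (fun l k => (hv _ _).x_u k l) f]
  · congr 1
    refine Finset.sum_congr rfl fun l _ => ?_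
    rw [map_sub, map_smul, map_smul]
  · have h := ps_W G fr a b c 0
    rw [if_pos rfl, Nat.cast_zero] at h
    exact h
  · intro k
    rw [ps_W, if_neg (by omega)]

theorem fm_ps_mul_x (f : A) (a l : Fin n) :
    V.mul (G.fm f (G.ps fr a)) (G.x l) = G.fm f (V.mul (G.x l) (G.ps fr a)) := by
  rw [mul_fm_left' G (G.odd_ps fr a) (C1.fr_x G l) (v := 0) ((G.odd_ps fr a).u_x 0 l)
    (fun k => (G.odd_ps fr a).u_x (k + 1) l) (fun k f => map_zero _) (fun l k => map_zero _) f,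
    ps_x]
  simp [C1.fm_zero_right]

theorem mul_fm_r {u : E} (hu : G.Odd1 u) (f : A) (w : E) :
    V.mul u (G.fm f w) = G.fm f (V.mul u w) := C1.odd_fn_comm G hu f (-1) (-1) w

/-- the product of two coordinate fields -/
theorem mul_uu (j k : Fin n) :
    V.mul (G.bu fr j + G.c j) (G.bu fr k + G.c k) =
      ∑ b, ∑ c, G.fm (fr.f j b * fr.f k c) (V.mul (G.ps fr b) (G.ps fr c)) +
        ∑ l, G.fm ((2 : ℂ) • ∑ b, D.d l (fr.f j b) * fr.f k b) (G.x l) := by
  rw [uu_eq G fr j, uu_eq G fr k]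
  have h1 : ∀ b c, V.mul (G.fm (fr.f j b) (G.ps fr b)) (G.fm (fr.f k c) (G.ps fr c)) =
      G.fm (fr.f j b * fr.f k c) (V.mul (G.ps fr b) (G.ps fr c)) +
        ∑ l, kap b c • G.fm (D.d l (fr.f j b) * fr.f k c) (G.x l) := by
    intro b c
    rw [mul_fm_r G (Odd1.fm G _ (G.odd_ps fr b)), G.mul_fm_left (G.odd_ps fr b) (G.odd_ps fr c)
      (algebraMap ℂ A (kap b c)) ?_ (ps_ps_succ G fr b c), G.fm_add_right,
      G.fm_fm _ _ (fr_mul_odd G (G.odd_ps fr b) (C1.fr_odd G (G.odd_ps fr c))),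
      G.fm_sum_right, mul_comm (fr.f k c)]
    · congr 1
      refine Finset.sum_congr rfl fun l _ => ?_
      rw [G.fm_fm _ _ (C1.fr_x G l), ← G.fm_smul]
      congr 1
      rw [Algebra.smul_def]
      ring
    · rw [ps_ps_zero, Algebra.algebraMap_eq_smul_one, map_smul, G.fn_one]
  have h0 : V.mul (∑ a, G.fm (fr.f j a) (G.ps fr a)) (∑ a, G.fm (fr.f k a) (G.ps fr a)) =
      ∑ b, ∑ c, V.mul (G.fm (fr.f j b) (G.ps fr b)) (G.fm (fr.f k c) (G.ps fr c)) := by
    rw [mul_sum_left]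
    exact Finset.sum_congr rfl fun b _ => map_sum _ _ _
  rw [h0]
  simp only [h1, Finset.sum_add_distrib]
  congr 1
  have h2 : ∀ b l, ∑ c, kap b c • G.fm (D.d l (fr.f j b) * fr.f k c) (G.x l) =
      (2 : ℂ) • G.fm (D.d l (fr.f j b) * fr.f k b) (G.x l) := by
    intro b l
    rw [Finset.sum_eq_single b]
    · rw [kap, if_pos rfl]
    · intro c _ hc
      rw [kap, if_neg (Ne.symm hc), zero_smul]
    · intro h
      exact absurd (Finset.mem_univ b) h
  calc _ = ∑ b, ∑ l, ∑ c, kap b c • G.fm (D.d l (fr.f j b) * fr.f k c) (G.x l) :=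
        Finset.sum_congr rfl fun b _ => Finset.sum_comm
    _ = ∑ l, ∑ b, (2 : ℂ) • G.fm (D.d l (fr.f j b) * fr.f k b) (G.x l) := by
        simp only [h2]
        exact Finset.sum_comm
    _ = _ := by
        refine Finset.sum_congr rfl fun l _ => ?_
        rw [G.fm_smul, G.fm_sum, Finset.smul_sum]

/-- the coefficient of `x^l ψ^c` in the triple product -/
def K3 (D : DS n A) (fr : Frame n A) (i j k l c : Fin n) : A :=
  (2 : ℂ) • ∑ a, (D.d l (fr.f i a) * fr.f j a * fr.f k c - D.d l (fr.f i a) * fr.f j c * fr.f k a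
    + D.d l (fr.f j a) * fr.f k a * fr.f i c)

/-- the triple product of coordinate fields -/
theorem mul_uuu (i j k : Fin n) :
    V.mul (G.bu fr i + G.c i) (V.mul (G.bu fr j + G.c j) (G.bu fr k + G.c k)) =
      ∑ a, ∑ b, ∑ c, G.fm (fr.f i a * fr.f j b * fr.f k c)
        (V.mul (G.ps fr a) (V.mul (G.ps fr b) (G.ps fr c))) +
        ∑ l, ∑ c, G.fm (K3 D fr i j k l c) (V.mul (G.x l) (G.ps fr c)) := by
  have hodd : ∀ a, G.Odd1 (G.fm (fr.f i a) (G.ps fr a)) := fun a => Odd1.fm G _ (G.odd_ps fr a)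
  have hZ : ∀ l c, G.Fr (V.mul (G.x l) (G.ps fr c)) := fun l c =>
    fr_mul_x G l (C1.fr_odd G (G.odd_ps fr c))
  have hT : ∀ a b c, G.Fr (V.mul (G.ps fr a) (V.mul (G.ps fr b) (G.ps fr c))) := fun a b c =>
    fr_mul_odd G (G.odd_ps fr a) (fr_mul_odd G (G.odd_ps fr b) (C1.fr_odd G (G.odd_ps fr c)))
  rw [mul_uu, map_add, uu_eq G fr i]
  -- the part with three odd fields
  have h1 : ∀ a b c, V.mul (G.fm (fr.f i a) (G.ps fr a))
      (G.fm (fr.f j b * fr.f k c) (V.mul (G.ps fr b) (G.ps fr c))) =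
      G.fm (fr.f i a * fr.f j b * fr.f k c)
        (V.mul (G.ps fr a) (V.mul (G.ps fr b) (G.ps fr c))) +
      ∑ l, (kap a b • G.fm (D.d l (fr.f i a) * fr.f j b * fr.f k c) (V.mul (G.x l) (G.ps fr c))
        - kap a c • G.fm (D.d l (fr.f i a) * fr.f j b * fr.f k c)
          (V.mul (G.x l) (G.ps fr b))) := by
    intro a b c
    rw [mul_fm_r G (hodd a), fm_ps_mul_W, G.fm_add_right, G.fm_fm _ _ (hT a b c),
      G.fm_sum_right]
    congr 1
    · congr 1
      ring
    · refine Finset.sum_congr rfl fun l _ => ?_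
      rw [fm_sub_right, fm_smul_right, fm_smul_right, fm_sub_right, fm_smul_right,
        fm_smul_right, G.fm_fm _ _ (hZ l c), G.fm_fm _ _ (hZ l b)]
      congr 3 <;> ring
  have h2 : ∀ a l, V.mul (G.fm (fr.f i a) (G.ps fr a))
      (G.fm ((2 : ℂ) • ∑ b, D.d l (fr.f j b) * fr.f k b) (G.x l)) =
      G.fm ((2 : ℂ) • ∑ b, D.d l (fr.f j b) * fr.f k b * fr.f i a)
        (V.mul (G.x l) (G.ps fr a)) := by
    intro a l
    rw [mul_fm_r G (hodd a), fm_ps_mul_x, G.fm_fm _ _ (hZ l a), smul_mul_assoc, Finset.sum_mul]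
  have h3 : ∀ (F : Fin n → Fin n → E) (a : Fin n), ∑ b, kap a b • F a b = (2 : ℂ) • F a a := by
    intro F a
    rw [Finset.sum_eq_single a]
    · rw [kap, if_pos rfl]
    · intro c _ hc
      rw [kap, if_neg (Ne.symm hc), zero_smul]
    · intro h
      exact absurd (Finset.mem_univ a) h
  have h4 : ∀ a, V.mul (G.fm (fr.f i a) (G.ps fr a))
      (∑ b, ∑ c, G.fm (fr.f j b * fr.f k c) (V.mul (G.ps fr b) (G.ps fr c))) =
      ∑ b, ∑ c, G.fm (fr.f i a * fr.f j b * fr.f k c)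
        (V.mul (G.ps fr a) (V.mul (G.ps fr b) (G.ps fr c))) +
      (∑ c, ∑ l, ∑ b, kap a b • G.fm (D.d l (fr.f i a) * fr.f j b * fr.f k c)
          (V.mul (G.x l) (G.ps fr c)) -
        ∑ b, ∑ l, ∑ c, kap a c • G.fm (D.d l (fr.f i a) * fr.f j b * fr.f k c)
          (V.mul (G.x l) (G.ps fr b))) := by
    intro a
    simp only [map_sum, h1, Finset.sum_add_distrib, Finset.sum_sub_distrib]
    congr 2
    · rw [Finset.sum_comm]
      exact Finset.sum_congr rfl fun c _ => Finset.sum_comm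
    · exact Finset.sum_congr rfl fun c _ => Finset.sum_comm
  have h5 : ∀ a, V.mul (G.fm (fr.f i a) (G.ps fr a))
      (∑ l, G.fm ((2 : ℂ) • ∑ b, D.d l (fr.f j b) * fr.f k b) (G.x l)) =
      ∑ l, G.fm ((2 : ℂ) • ∑ b, D.d l (fr.f j b) * fr.f k b * fr.f i a)
        (V.mul (G.x l) (G.ps fr a)) := by
    intro a
    rw [map_sum]
    exact Finset.sum_congr rfl fun l _ => h2 a l
  have h6 : ∀ a c l, ∑ b, kap a b • G.fm (D.d l (fr.f i a) * fr.f j b * fr.f k c)
          (V.mul (G.x l) (G.ps fr c)) =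
      (2 : ℂ) • G.fm (D.d l (fr.f i a) * fr.f j a * fr.f k c) (V.mul (G.x l) (G.ps fr c)) :=
    fun a c l => h3 (fun a b => G.fm (D.d l (fr.f i a) * fr.f j b * fr.f k c)
          (V.mul (G.x l) (G.ps fr c))) a
  have h7 : ∀ a b l, ∑ c, kap a c • G.fm (D.d l (fr.f i a) * fr.f j b * fr.f k c)
          (V.mul (G.x l) (G.ps fr b)) =
      (2 : ℂ) • G.fm (D.d l (fr.f i a) * fr.f j b * fr.f k a) (V.mul (G.x l) (G.ps fr b)) :=
    fun a b l => h3 (fun a c => G.fm (D.d l (fr.f i a) * fr.f j b * fr.f k c)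
          (V.mul (G.x l) (G.ps fr b))) a
  have hrev : ∀ (F : Fin n → Fin n → Fin n → E),
      ∑ a, ∑ c, ∑ l, F a c l = ∑ l, ∑ c, ∑ a, F a c l := by
    intro F
    calc _ = ∑ a, ∑ l, ∑ c, F a c l := Finset.sum_congr rfl fun a _ => Finset.sum_comm
      _ = ∑ l, ∑ a, ∑ c, F a c l := Finset.sum_comm
      _ = _ := Finset.sum_congr rfl fun l _ => Finset.sum_comm
  rw [mul_sum_left, mul_sum_left]
  simp only [h4, h5, h6, h7, Finset.sum_add_distrib, Finset.sum_sub_distrib]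
  rw [add_assoc]
  congr 1
  rw [hrev (fun a c l => (2 : ℂ) • G.fm (D.d l (fr.f i a) * fr.f j a * fr.f k c)
      (V.mul (G.x l) (G.ps fr c))),
    hrev (fun a b l => (2 : ℂ) • G.fm (D.d l (fr.f i a) * fr.f j b * fr.f k a)
      (V.mul (G.x l) (G.ps fr b))), Finset.sum_comm (f := fun a l =>
      G.fm ((2 : ℂ) • ∑ b, D.d l (fr.f j b) * fr.f k b * fr.f i a) (V.mul (G.x l) (G.ps fr a))),
    ← Finset.sum_sub_distrib, ← Finset.sum_add_distrib]
  refine Finset.sum_congr rfl fun l _ => ?_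
  rw [← Finset.sum_sub_distrib, ← Finset.sum_add_distrib]
  refine Finset.sum_congr rfl fun c _ => ?_
  rw [K3, G.fm_smul, G.fm_smul, Finset.sum_add_distrib, Finset.sum_sub_distrib, G.fm_add,
    smul_add]
  congr 1
  have hsub : ∀ (f g : A) (v : E), G.fm (f - g) v = G.fm f v - G.fm g v := by
    intro f g v
    simp [CD.fm]
  rw [hsub, smul_sub, G.fm_sum, G.fm_sum, Finset.smul_sum, Finset.smul_sum]

/-- swapping two blocks of three sums -/
theorem swap33 {M : Type*} [AddCommMonoid M]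
    (F : Fin n → Fin n → Fin n → Fin n → Fin n → Fin n → M) :
    ∑ i, ∑ j, ∑ k, ∑ a, ∑ b, ∑ c, F i j k a b c =
      ∑ a, ∑ b, ∑ c, ∑ i, ∑ j, ∑ k, F i j k a b c := by
  calc _ = ∑ p : Fin n × Fin n × Fin n, ∑ q : Fin n × Fin n × Fin n,
        F p.1 p.2.1 p.2.2 q.1 q.2.1 q.2.2 := by simp only [Fintype.sum_prod_type]
    _ = ∑ q : Fin n × Fin n × Fin n, ∑ p : Fin n × Fin n × Fin n,
        F p.1 p.2.1 p.2.2 q.1 q.2.1 q.2.2 := Finset.sum_comm
    _ = _ := by simp only [Fintype.sum_prod_type]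

end C7

/-- Christoffel symbols `Γ^m_{l i}` of the metric of the frame -/
def Gam (D : DS n A) (fr : Frame n A) (m l i : Fin n) : A :=
  ∑ r, fr.gi m r * ((1/2 : ℂ) • (D.d l (fr.g r i) + D.d i (fr.g r l) - D.d r (fr.g l i)))

/-- components of the 3-form in coordinates -/
def phc (fr : Frame n A) (φ : Fin n → Fin n → Fin n → ℂ) (i j k : Fin n) : A :=
  ∑ a, ∑ b, ∑ c, φ a b c • (fr.e a i * fr.e b j * fr.e c k)

namespace C7

/-- contraction of the components of the 3-form -/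
theorem contr3 (φ : Fin n → Fin n → Fin n → ℂ) (α β γ : Fin n → A) :
    ∑ i, ∑ j, ∑ k, phc fr φ i j k * (α i * β j * γ k) =
      ∑ a, ∑ b, ∑ c, φ a b c • ((∑ i, fr.e a i * α i) * (∑ j, fr.e b j * β j) *
        (∑ k, fr.e c k * γ k)) := by
  have h1 : ∀ i j k, phc fr φ i j k * (α i * β j * γ k) =
      ∑ a, ∑ b, ∑ c, φ a b c • ((fr.e a i * α i) * (fr.e b j * β j) * (fr.e c k * γ k)) := by
    intro i j k
    rw [phc, Finset.sum_mul]
    refine Finset.sum_congr rfl fun a _ => ?_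
    rw [Finset.sum_mul]
    refine Finset.sum_congr rfl fun b _ => ?_
    rw [Finset.sum_mul]
    refine Finset.sum_congr rfl fun c _ => ?_
    rw [smul_mul_assoc]
    congr 1
    ring
  simp only [h1]
  rw [swap33]
  refine Finset.sum_congr rfl fun a _ => Finset.sum_congr rfl fun b _ =>
    Finset.sum_congr rfl fun c _ => ?_
  rw [Finset.sum_mul_sum, Finset.sum_mul, Finset.smul_sum]
  refine Finset.sum_congr rfl fun i _ => ?_
  rw [Finset.sum_mul, Finset.smul_sum]
  refine Finset.sum_congr rfl fun j _ => ?_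
  rw [Finset.mul_sum, Finset.smul_sum]

omit [Algebra ℂ A] in
/-- the entries of `e f = 1` -/
theorem e_f (a c : Fin n) : ∑ i, fr.e a i * fr.f i c = if a = c then 1 else 0 := by
  rw [← Matrix.mul_apply, fr.e_f, Matrix.one_apply]

omit [Algebra ℂ A] in
/-- the entries of `f e = 1` -/
theorem f_e (i j : Fin n) : ∑ a, fr.f i a * fr.e a j = if i = j then 1 else 0 := by
  rw [← Matrix.mul_apply, fr.f_e, Matrix.one_apply]

/-- contraction with two indices of the 3-form -/
def br (φ : Fin n → Fin n → Fin n → ℂ) (c : Fin n) (X : Fin n → Fin n → A) : A :=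
  ∑ a, ∑ b, φ a b c • X a b

theorem br_add (φ : Fin n → Fin n → Fin n → ℂ) (c : Fin n) (X Y : Fin n → Fin n → A) :
    br φ c (fun a b => X a b + Y a b) = br φ c X + br φ c Y := by
  simp only [br, smul_add, Finset.sum_add_distrib]

theorem br_sub (φ : Fin n → Fin n → Fin n → ℂ) (c : Fin n) (X Y : Fin n → Fin n → A) :
    br φ c (fun a b => X a b - Y a b) = br φ c X - br φ c Y := by
  simp only [br, smul_sub, Finset.sum_sub_distrib]

theorem br_neg (φ : Fin n → Fin n → Fin n → ℂ) (c : Fin n) (X : Fin n → Fin n → A) :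
    br φ c (fun a b => -X a b) = -br φ c X := by
  simp only [br, smul_neg, Finset.sum_neg_distrib]

theorem br_smul (φ : Fin n → Fin n → Fin n → ℂ) (c : Fin n) (z : ℂ) (X : Fin n → Fin n → A) :
    br φ c (fun a b => z • X a b) = z • br φ c X := by
  simp only [br, smul_comm _ z, Finset.smul_sum]

theorem br_mul (φ : Fin n → Fin n → Fin n → ℂ) (c : Fin n) (r : A) (X : Fin n → Fin n → A) :
    br φ c (fun a b => r * X a b) = r * br φ c X := by
  simp only [br, Finset.mul_sum, mul_smul_comm]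

theorem br_sum {ι : Type*} (s : Finset ι) (φ : Fin n → Fin n → Fin n → ℂ) (c : Fin n)
    (X : ι → Fin n → Fin n → A) :
    br φ c (fun a b => ∑ i ∈ s, X i a b) = ∑ i ∈ s, br φ c (X i) := by
  simp only [br, Finset.smul_sum]
  calc _ = ∑ a, ∑ i ∈ s, ∑ b, φ a b c • X i a b :=
        Finset.sum_congr rfl fun a _ => Finset.sum_comm
    _ = _ := Finset.sum_comm

theorem br_swap {φ : Fin n → Fin n → Fin n → ℂ} (hφ : Anti φ) (c : Fin n)
    (X : Fin n → Fin n → A) : br φ c (fun a b => X b a) = -br φ c X := by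
  simp only [br]
  rw [Finset.sum_comm, ← Finset.sum_neg_distrib]
  refine Finset.sum_congr rfl fun a _ => ?_
  rw [← Finset.sum_neg_distrib]
  refine Finset.sum_congr rfl fun b _ => ?_
  rw [(hφ b a c).1, neg_smul]

/-- `θ^l_{ab} = ∑_i e^a_i ∂_l f_{ib}` -/
def th (D : DS n A) (fr : Frame n A) (l a b : Fin n) : A := ∑ i, fr.e a i * D.d l (fr.f i b)

/-- `σ^l_{ab} = ∑_i ∂_l e^a_i f_{ib}` -/
def sg (D : DS n A) (fr : Frame n A) (l a b : Fin n) : A := ∑ i, D.d l (fr.e a i) * fr.f i b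

/-- `R^l_{ab} = ∑_{i,r} f_{ra} f_{ib} ∂_i g_{rl}` -/
def RR (D : DS n A) (fr : Frame n A) (l a b : Fin n) : A :=
  ∑ i, ∑ r, fr.f r a * fr.f i b * D.d i (fr.g r l)

theorem th_eq_neg (l a b : Fin n) : th D fr l a b = -sg D fr l a b := by
  have h := congrArg (D.d l) (e_f fr a b)
  have h0 : D.d l (if a = b then (1 : A) else 0) = 0 := by
    split_ifs
    · exact (D.d l).map_one_eq_zero
    · exact map_zero _
  rw [h0, map_sum] at h
  have h1 : ∑ i, D.d l (fr.e a i * fr.f i b) = th D fr l a b + sg D fr l a b := by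
    rw [th, sg, ← Finset.sum_add_distrib]
    refine Finset.sum_congr rfl fun i _ => ?_
    rw [Derivation.leibniz, smul_eq_mul, smul_eq_mul]
    ring
  rw [h1] at h
  exact eq_neg_of_add_eq_zero_left h

omit [Algebra ℂ A] in
theorem push (F : Fin n → A) (l : Fin n) : ∑ d, fr.e d l * ∑ j, fr.f j d * F j = F l := by
  calc _ = ∑ d, ∑ j, (fr.f j d * fr.e d l) * F j := by
        refine Finset.sum_congr rfl fun d _ => ?_
        rw [Finset.mul_sum]
        refine Finset.sum_congr rfl fun j _ => ?_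
        ring
    _ = ∑ j, (∑ d, fr.f j d * fr.e d l) * F j := by
        rw [Finset.sum_comm]
        exact Finset.sum_congr rfl fun j _ => (Finset.sum_mul _ _ _).symm
    _ = F l := by simp [f_e]

theorem s_eq (d a b : Fin n) : fr.s D d a b = ∑ j, fr.f j d * sg D fr j a b := by
  rw [Frame.s]
  refine Finset.sum_congr rfl fun j _ => ?_
  rw [sg, Finset.mul_sum]
  exact Finset.sum_congr rfl fun i _ => mul_assoc _ _ _

theorem sum_s (l a b : Fin n) : ∑ d, fr.e d l * fr.s D d a b = sg D fr l a b := by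
  simp only [s_eq]
  exact push fr (fun j => sg D fr j a b) l

omit [Algebra ℂ A] in
theorem g_eq (r l : Fin n) : fr.g r l = ∑ d, fr.e d r * fr.e d l := by
  rw [Frame.g, Matrix.mul_apply]
  rfl

theorem RR_eq (l a b : Fin n) : RR D fr l a b =
    ∑ d, fr.e d l * fr.s D b d a + ∑ d, fr.e d l * fr.s D b a d := by
  -- the second sum
  have h2 : ∑ d, fr.e d l * fr.s D b a d = ∑ i, fr.f i b * D.d i (fr.e a l) := by
    have h : ∀ d, fr.s D b a d = ∑ i, fr.f i d * ∑ j, fr.f j b * D.d j (fr.e a i) := by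
      intro d
      rw [Frame.s, Finset.sum_comm]
      refine Finset.sum_congr rfl fun i _ => ?_
      rw [Finset.mul_sum]
      refine Finset.sum_congr rfl fun j _ => ?_
      ring
    simp only [h]
    exact push fr (fun i => ∑ j, fr.f j b * D.d j (fr.e a i)) l
  have h1 : ∀ i, ∑ r, fr.f r a * D.d i (fr.g r l) =
      ∑ d, fr.e d l * sg D fr i d a + D.d i (fr.e a l) := by
    intro i
    have h3 : ∀ r, fr.f r a * D.d i (fr.g r l) = ∑ d, fr.e d l * (D.d i (fr.e d r) * fr.f r a)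
        + ∑ d, fr.e d r * fr.f r a * D.d i (fr.e d l) := by
      intro r
      rw [g_eq, map_sum, Finset.mul_sum, ← Finset.sum_add_distrib]
      refine Finset.sum_congr rfl fun d _ => ?_
      rw [Derivation.leibniz, smul_eq_mul, smul_eq_mul]
      ring
    simp only [h3]
    rw [Finset.sum_add_distrib]
    congr 1
    · rw [Finset.sum_comm]
      refine Finset.sum_congr rfl fun d _ => ?_
      rw [sg, Finset.mul_sum]
    · rw [Finset.sum_comm]
      calc _ = ∑ d, (∑ r, fr.e d r * fr.f r a) * D.d i (fr.e d l) :=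
            Finset.sum_congr rfl fun d _ => (Finset.sum_mul _ _ _).symm
        _ = _ := by simp [e_f]
  rw [h2, RR]
  have h4 : ∀ i, ∑ r, fr.f r a * fr.f i b * D.d i (fr.g r l) =
      fr.f i b * (∑ d, fr.e d l * sg D fr i d a) + fr.f i b * D.d i (fr.e a l) := by
    intro i
    rw [← mul_add, ← h1, Finset.mul_sum]
    refine Finset.sum_congr rfl fun r _ => ?_
    ring
  simp only [h4]
  rw [Finset.sum_add_distrib]
  congr 1
  simp only [s_eq, Finset.mul_sum]
  rw [Finset.sum_comm]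
  refine Finset.sum_congr rfl fun d _ => Finset.sum_congr rfl fun i _ => ?_
  ring

/-- the contraction of the connection form -/
theorem br_th_RR {φ : Fin n → Fin n → Fin n → ℂ} (hφ : Anti φ) (h2 : Contr D fr φ)
    (l c : Fin n) : br φ c (th D fr l) + br φ c (RR D fr l) = 0 := by
  have h0 : br φ c (fun a b => ∑ d, fr.e d l * fr.M D a d b) = 0 := by
    rw [br_sum]
    refine Finset.sum_eq_zero fun d _ => ?_
    rw [br_mul, show br φ c (fun a b => fr.M D a d b) = 0 from h2 d c, mul_zero]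
  have h1 : ∀ a b, ∑ d, fr.e d l * fr.M D a d b =
      -th D fr l a b + th D fr l b a + (RR D fr l b a - RR D fr l a b) := by
    intro a b
    rw [th_eq_neg, th_eq_neg, RR_eq, RR_eq, ← sum_s, ← sum_s, ← Finset.sum_add_distrib,
      ← Finset.sum_add_distrib, ← Finset.sum_neg_distrib, ← Finset.sum_neg_distrib,
      ← Finset.sum_neg_distrib, ← Finset.sum_sub_distrib, ← Finset.sum_add_distrib,
      ← Finset.sum_add_distrib]
    refine Finset.sum_congr rfl fun d _ => ?_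
    rw [Frame.M]
    ring
  simp only [h1] at h0
  rw [br_add, br_add, br_sub, br_neg, br_swap hφ c (th D fr l), br_swap hφ c (RR D fr l)] at h0
  have h3 : (-2 : ℂ) • (br φ c (th D fr l) + br φ c (RR D fr l)) = 0 := by
    rw [← h0]
    module
  have h4 := congrArg (fun t : A => (-1/2 : ℂ) • t) h3
  simp only [smul_smul, smul_zero] at h4
  rw [show (-1/2 : ℂ) * -2 = 1 by norm_num, one_smul] at h4
  exact h4

/-- triple sums of function-linear combinations -/
theorem sum3_fm (P : Fin n → Fin n → Fin n → A)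
    (Q : Fin n → Fin n → Fin n → Fin n → Fin n → Fin n → A) (T : Fin n → Fin n → Fin n → E)
    (hT : ∀ a b c, G.Fr (T a b c)) :
    ∑ i, ∑ j, ∑ k, G.fm (P i j k) (∑ a, ∑ b, ∑ c, G.fm (Q i j k a b c) (T a b c)) =
      ∑ a, ∑ b, ∑ c, G.fm (∑ i, ∑ j, ∑ k, P i j k * Q i j k a b c) (T a b c) := by
  have h := sum_fm_sum G (I := Fin n × Fin n × Fin n) (J := Fin n × Fin n × Fin n)
    (fun p => P p.1 p.2.1 p.2.2) (fun p q => Q p.1 p.2.1 p.2.2 q.1 q.2.1 q.2.2)
    (fun q => T q.1 q.2.1 q.2.2) (fun q => hT _ _ _)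
  simpa only [Fintype.sum_prod_type] using h

theorem sum3_fm2 (P : Fin n → Fin n → Fin n → A)
    (Q : Fin n → Fin n → Fin n → Fin n → Fin n → A) (T : Fin n → Fin n → E)
    (hT : ∀ a b, G.Fr (T a b)) :
    ∑ i, ∑ j, ∑ k, G.fm (P i j k) (∑ a, ∑ b, G.fm (Q i j k a b) (T a b)) =
      ∑ a, ∑ b, G.fm (∑ i, ∑ j, ∑ k, P i j k * Q i j k a b) (T a b) := by
  have h := sum_fm_sum G (I := Fin n × Fin n × Fin n) (J := Fin n × Fin n)
    (fun p => P p.1 p.2.1 p.2.2) (fun p q => Q p.1 p.2.1 p.2.2 q.1 q.2)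
    (fun q => T q.1 q.2) (fun q => hT _ _)
  simpa only [Fintype.sum_prod_type] using h

theorem contr_fff (φ : Fin n → Fin n → Fin n → ℂ) (a b c : Fin n) :
    ∑ i, ∑ j, ∑ k, phc fr φ i j k * (fr.f i a * fr.f j b * fr.f k c) =
      φ a b c • (1 : A) := by
  rw [contr3 fr φ (fun i => fr.f i a) (fun j => fr.f j b) (fun k => fr.f k c)]
  simp [e_f, Finset.sum_ite_eq']

omit [Algebra ℂ A] in
theorem sum31 (F : Fin n → Fin n → Fin n → Fin n → A) :
    ∑ i, ∑ j, ∑ k, ∑ a, F i j k a = ∑ a, ∑ i, ∑ j, ∑ k, F i j k a := by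
  calc _ = ∑ p : Fin n × Fin n × Fin n, ∑ a, F p.1 p.2.1 p.2.2 a := by
        simp only [Fintype.sum_prod_type]
    _ = ∑ a, ∑ p : Fin n × Fin n × Fin n, F p.1 p.2.1 p.2.2 a := Finset.sum_comm
    _ = _ := by simp only [Fintype.sum_prod_type]

theorem contr_K3 {φ : Fin n → Fin n → Fin n → ℂ} (hφ : Anti φ) (l c : Fin n) :
    ∑ i, ∑ j, ∑ k, phc fr φ i j k * K3 D fr i j k l c = (6 : ℂ) • br φ c (th D fr l) := by
  have h1 : ∀ i j k, phc fr φ i j k * K3 D fr i j k l c = ∑ a, ((2 : ℂ) •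
      (phc fr φ i j k * (D.d l (fr.f i a) * fr.f j a * fr.f k c)) - (2 : ℂ) •
      (phc fr φ i j k * (D.d l (fr.f i a) * fr.f j c * fr.f k a)) + (2 : ℂ) •
      (phc fr φ i j k * (fr.f i c * D.d l (fr.f j a) * fr.f k a))) := by
    intro i j k
    rw [K3, mul_smul_comm, Finset.mul_sum, Finset.smul_sum]
    refine Finset.sum_congr rfl fun a _ => ?_
    rw [← smul_sub, ← smul_add, ← mul_sub, ← mul_add]
    congr 2
    ring
  have e1 : ∀ a, ∑ i, ∑ j, ∑ k, phc fr φ i j k * (D.d l (fr.f i a) * fr.f j a * fr.f k c) =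
      ∑ b, φ b a c • th D fr l b a := by
    intro a
    rw [contr3 fr φ (fun i => D.d l (fr.f i a)) (fun j => fr.f j a) (fun k => fr.f k c)]
    simp [e_f, Finset.sum_ite_eq', th]
  have e2 : ∀ a, ∑ i, ∑ j, ∑ k, phc fr φ i j k * (D.d l (fr.f i a) * fr.f j c * fr.f k a) =
      -∑ b, φ b a c • th D fr l b a := by
    intro a
    rw [contr3 fr φ (fun i => D.d l (fr.f i a)) (fun j => fr.f j c) (fun k => fr.f k a),
      ← Finset.sum_neg_distrib]
    refine Finset.sum_congr rfl fun b _ => ?_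
    rw [← neg_smul, ← (hφ b c a).2]
    simp [e_f, Finset.sum_ite_eq', th]
  have e3 : ∀ a, ∑ i, ∑ j, ∑ k, phc fr φ i j k * (fr.f i c * D.d l (fr.f j a) * fr.f k a) =
      ∑ b, φ b a c • th D fr l b a := by
    intro a
    rw [contr3 fr φ (fun i => fr.f i c) (fun j => D.d l (fr.f j a)) (fun k => fr.f k a)]
    have : ∀ b, φ b a c = φ c b a := by
      intro b
      rw [(hφ c b a).1, (hφ b c a).2, neg_neg]
    simp [e_f, Finset.sum_ite_eq', th, this]
  simp only [h1]
  rw [sum31]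
  simp only [Finset.sum_add_distrib, Finset.sum_sub_distrib, ← Finset.smul_sum, e1, e2, e3]
  rw [Finset.sum_neg_distrib, br, Finset.sum_comm]
  module

/-- the connection form in the frame -/
def Ga (D : DS n A) (fr : Frame n A) (l a b : Fin n) : A :=
  ∑ i, (∑ m, fr.e a m * Gam D fr m l i) * fr.f i b

omit [Algebra ℂ A] in
theorem e_gi (a i : Fin n) : ∑ j, fr.e a j * fr.gi j i = fr.f i a := by
  have e : fr.e * fr.gi = fr.f.transpose := by
    rw [Frame.gi, ← Matrix.mul_assoc, fr.e_f, Matrix.one_mul]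
  rw [← Matrix.transpose_apply fr.f, ← congrFun (congrFun e a) i, Matrix.mul_apply]

omit [Algebra ℂ A] in
theorem gi_symm (i j : Fin n) : fr.gi i j = fr.gi j i := by
  have e : fr.gi.transpose = fr.gi := by
    rw [Frame.gi, Matrix.transpose_mul, Matrix.transpose_transpose]
  exact congrFun (congrFun e j) i

omit [Algebra ℂ A] in
theorem g_symm (i j : Fin n) : fr.g i j = fr.g j i := by
  have e : fr.g.transpose = fr.g := by
    rw [Frame.g, Matrix.transpose_mul, Matrix.transpose_transpose]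
  exact congrFun (congrFun e j) i

theorem contr_Gam (φ : Fin n → Fin n → Fin n → ℂ) (l c : Fin n) :
    ∑ k, (∑ i, ∑ j, ∑ m, fr.gi i j * Gam D fr m l i * phc fr φ m j k) * fr.f k c =
      br φ c (Ga D fr l) := by
  have h1 : ∑ k, (∑ i, ∑ j, ∑ m, fr.gi i j * Gam D fr m l i * phc fr φ m j k) * fr.f k c =
      ∑ i, ∑ m, ∑ j, ∑ k, phc fr φ m j k * (Gam D fr m l i * fr.gi i j * fr.f k c) := by
    calc _ = ∑ k, ∑ i, ∑ j, ∑ m, phc fr φ m j k * (Gam D fr m l i * fr.gi i j * fr.f k c) := by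
          refine Finset.sum_congr rfl fun k _ => ?_
          rw [Finset.sum_mul]
          refine Finset.sum_congr rfl fun i _ => ?_
          rw [Finset.sum_mul]
          refine Finset.sum_congr rfl fun j _ => ?_
          rw [Finset.sum_mul]
          refine Finset.sum_congr rfl fun m _ => ?_
          ring
      _ = ∑ i, ∑ k, ∑ j, ∑ m, phc fr φ m j k * (Gam D fr m l i * fr.gi i j * fr.f k c) :=
          Finset.sum_comm
      _ = _ := by
          refine Finset.sum_congr rfl fun i _ => ?_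
          calc _ = ∑ k, ∑ m, ∑ j, phc fr φ m j k * (Gam D fr m l i * fr.gi i j * fr.f k c) :=
                Finset.sum_congr rfl fun k _ => Finset.sum_comm
            _ = ∑ m, ∑ k, ∑ j, phc fr φ m j k * (Gam D fr m l i * fr.gi i j * fr.f k c) :=
                Finset.sum_comm
            _ = _ := Finset.sum_congr rfl fun m _ => Finset.sum_comm
  rw [h1]
  have h2 : ∀ i, ∑ m, ∑ j, ∑ k, phc fr φ m j k * (Gam D fr m l i * fr.gi i j * fr.f k c) =
      br φ c (fun a b => (∑ m, fr.e a m * Gam D fr m l i) * fr.f i b) := by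
    intro i
    rw [contr3 fr φ (fun m => Gam D fr m l i) (fun j => fr.gi i j) (fun k => fr.f k c), br]
    refine Finset.sum_congr rfl fun a _ => Finset.sum_congr rfl fun b _ => ?_
    have h3 : ∑ j, fr.e b j * fr.gi i j = fr.f i b := by
      rw [← e_gi fr b i]
      exact Finset.sum_congr rfl fun j _ => by rw [gi_symm]
    simp [e_f, Finset.sum_ite_eq', h3]
  simp only [h2]
  rw [← br_sum]
  rfl

theorem br_Ga {φ : Fin n → Fin n → Fin n → ℂ} (hφ : Anti φ) (l c : Fin n) :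
    br φ c (Ga D fr l) = br φ c (RR D fr l) := by
  let Sy : Fin n → Fin n → A := fun a b => ∑ i, ∑ r, fr.f r a * fr.f i b * D.d l (fr.g r i)
  have hSy : ∀ a b, Sy a b = Sy b a := by
    intro a b
    simp only [Sy]
    rw [Finset.sum_comm]
    refine Finset.sum_congr rfl fun r _ => Finset.sum_congr rfl fun i _ => ?_
    rw [g_symm fr r i]
    ring
  have h1 : ∀ a i, ∑ m, fr.e a m * Gam D fr m l i =
      ∑ r, fr.f r a * ((1/2 : ℂ) • (D.d l (fr.g r i) + D.d i (fr.g r l) - D.d r (fr.g l i))) := by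
    intro a i
    simp only [Gam, Finset.mul_sum]
    rw [Finset.sum_comm]
    refine Finset.sum_congr rfl fun r _ => ?_
    rw [← e_gi fr a r, Finset.sum_mul]
    exact Finset.sum_congr rfl fun m _ => (mul_assoc _ _ _).symm
  have h2 : ∀ a b, Ga D fr l a b = (1/2 : ℂ) • (Sy a b + (RR D fr l a b - RR D fr l b a)) := by
    intro a b
    have h3 : RR D fr l b a = ∑ i, ∑ r, fr.f r a * fr.f i b * D.d r (fr.g l i) := by
      rw [RR, Finset.sum_comm]
      refine Finset.sum_congr rfl fun r _ => Finset.sum_congr rfl fun i _ => ?_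
      rw [g_symm fr r l]
      ring
    rw [h3]
    simp only [Ga, h1, Sy, RR]
    rw [← Finset.sum_sub_distrib, ← Finset.sum_add_distrib, Finset.smul_sum]
    refine Finset.sum_congr rfl fun i _ => ?_
    rw [← Finset.sum_sub_distrib, ← Finset.sum_add_distrib, Finset.smul_sum, Finset.sum_mul]
    refine Finset.sum_congr rfl fun r _ => ?_
    rw [mul_smul_comm, smul_mul_assoc]
    congr 1
    ring
  have h4 : br φ c Sy = 0 := by
    have h5 := br_swap hφ c Sy
    have h6 : (fun a b => Sy b a) = Sy := by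
      funext a b
      exact (hSy a b).symm
    rw [h6] at h5
    have h7 : (2 : ℂ) • br φ c Sy = 0 := by
      rw [two_smul]
      nth_rewrite 1 [h5]
      exact neg_add_cancel _
    have h8 := congrArg (fun t : A => (1/2 : ℂ) • t) h7
    simp only [smul_smul, smul_zero] at h8
    rw [show (1/2 : ℂ) * 2 = 1 by norm_num, one_smul] at h8
    exact h8
  have h9 : Ga D fr l = fun a b => (1/2 : ℂ) • (Sy a b + (RR D fr l a b - RR D fr l b a)) := by
    funext a b
    exact h2 a b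
  rw [h9, br_smul, br_add, br_sub, h4, br_swap hφ c (RR D fr l)]
  module

end C7

open C7 in
theorem Phi_coord (φ : Fin n → Fin n → Fin n → ℂ) (hφ : Anti φ) (h2 : Contr D fr φ) :
    ∑ i, ∑ j, ∑ k, G.fm (phc fr φ i j k)
        (V.mul (G.bu fr i + G.c i) (V.mul (G.bu fr j + G.c j) (G.bu fr k + G.c k)))
      + (6 : ℂ) • ∑ l, ∑ k, G.fm (∑ i, ∑ j, ∑ m, fr.gi i j * Gam D fr m l i * phc fr φ m j k)
        (V.mul (G.x l) (G.bu fr k + G.c k))
    = G.Phi fr φ := by
  have hZ : ∀ l c, G.Fr (V.mul (G.x l) (G.ps fr c)) := fun l c =>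
    fr_mul_x G l (C1.fr_odd G (G.odd_ps fr c))
  have hT : ∀ a b c, G.Fr (V.mul (G.ps fr a) (V.mul (G.ps fr b) (G.ps fr c))) := fun a b c =>
    fr_mul_odd G (G.odd_ps fr a) (fr_mul_odd G (G.odd_ps fr b) (C1.fr_odd G (G.odd_ps fr c)))
  have hx : ∀ l k, V.mul (G.x l) (G.bu fr k + G.c k) =
      ∑ c, G.fm (fr.f k c) (V.mul (G.x l) (G.ps fr c)) := by
    intro l k
    rw [uu_eq, map_sum]
    exact Finset.sum_congr rfl fun c _ => C1.x_fn_comm G l (fr.f k c) (-1) (-1) (G.ps fr c)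
  simp only [mul_uuu, G.fm_add_right, Finset.sum_add_distrib, hx]
  rw [sum3_fm G (phc fr φ) _ _ hT, sum3_fm2 G (phc fr φ) _ _ hZ]
  have h3 : ∀ l, ∑ k, G.fm (∑ i, ∑ j, ∑ m, fr.gi i j * Gam D fr m l i * phc fr φ m j k)
      (∑ c, G.fm (fr.f k c) (V.mul (G.x l) (G.ps fr c))) =
      ∑ c, G.fm (br φ c (Ga D fr l)) (V.mul (G.x l) (G.ps fr c)) := by
    intro l
    have h5 := C7.sum_fm_sum G
      (fun k => ∑ i, ∑ j, ∑ m, fr.gi i j * Gam D fr m l i * phc fr φ m j k)
      (fun k c => fr.f k c) (fun c => V.mul (G.x l) (G.ps fr c)) (hZ l)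
    refine h5.trans (Finset.sum_congr rfl fun c _ => ?_)
    rw [contr_Gam]
  simp only [h3, contr_fff, contr_K3 fr hφ]
  rw [add_assoc, Finset.smul_sum, ← Finset.sum_add_distrib]
  have h4 : ∑ l, (∑ c, G.fm ((6 : ℂ) • br φ c (th D fr l)) (V.mul (G.x l) (G.ps fr c)) +
      (6 : ℂ) • ∑ c, G.fm (br φ c (Ga D fr l)) (V.mul (G.x l) (G.ps fr c))) = 0 := by
    refine Finset.sum_eq_zero fun l _ => ?_
    rw [Finset.smul_sum, ← Finset.sum_add_distrib]
    refine Finset.sum_eq_zero fun c _ => ?_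
    rw [G.fm_smul, ← smul_add, ← G.fm_add, br_Ga fr hφ, br_th_RR fr hφ h2, C1.fm_zero, smul_zero]
  rw [h4, add_zero, CD.Phi]
  refine Finset.sum_congr rfl fun a _ => Finset.sum_congr rfl fun b _ =>
    Finset.sum_congr rfl fun c _ => ?_
  rw [G.fm_smul, G.fm_one]

end CD
end Pool.Agent.AA3
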