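import Pool.Agent.Lib.MP_aa3aaf_al.CPhi

/-!
Task C6: the derivation `D_o` kills `Φ` and `K`.
-/

set_option autoImplicit false
open scoped BigOperators
noncomputable section
namespace Pool.Agent.AA3
namespace CD
variable {n : ℕ} {A : Type*} [CommRing A] [Algebra ℂ A] {D : DS n A}
  {E : Type*} [AddCommGroup E] [Module ℂ E] {V : VSA E} (G : CD n D V) (fr : Frame n A)

namespace C6

/-- an even derivation `Z` which is the anticommutator of `X` and `W` on `a` and `v` is so on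
all products `a_(m) v` -/
lemma anti_step {E : Type*} [AddCommGroup E] [Module ℂ E] {V : VSA E}
    {X W Z : E →ₗ[ℂ] E} (hX : ODer V X) (hW : ODer V W)
    (hZ : ∀ (a : E) (m : ℤ) (v : E), Z (V.Y a m v) = V.Y (Z a) m v + V.Y a m (Z v))
    {p : ℕ} {a v : E} (ha : V.Par p a) (h1 : X (W a) + W (X a) = Z a)
    (h2 : X (W v) + W (X v) = Z v) (m : ℤ) :
    X (W (V.Y a m v)) + W (X (V.Y a m v)) = Z (V.Y a m v) := by
  have hWa := hW.1 p a ha
  have hXa := hX.1 p a ha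
  have key : ((-1 : ℂ) ^ (p + 1)) = -(-1 : ℂ) ^ p := by rw [pow_succ]; ring
  have sq : ((-1 : ℂ) ^ p) * (-1 : ℂ) ^ p = 1 := by rw [← mul_pow]; simp
  rw [hW.2 p a m v ha, hX.2 p a m v ha, map_add, map_add, map_smul, map_smul,
    hX.2 (p + 1) (W a) m v hWa, hX.2 p a m (W v) ha, hW.2 (p + 1) (X a) m v hXa,
    hW.2 p a m (X v) ha, hZ, ← h1, ← h2, key]
  simp only [map_add, LinearMap.add_apply, Pi.add_apply, smul_add, smul_smul, sq, one_smul,
    neg_smul]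
  abel

/-- the anticommutator of two odd derivations on `Φ` is determined by its values on functions
and on two families of generators whose combinations give `ψ` -/
lemma anti_Phi {X W Z : E →ₗ[ℂ] E} (hX : ODer V X) (hW : ODer V W)
    (hZ : ∀ (a : E) (m : ℤ) (v : E), Z (V.Y a m v) = V.Y (Z a) m v + V.Y a m (Z v))
    (hps : ∀ a, X (W (G.ps fr a)) + W (X (G.ps fr a)) = Z (G.ps fr a))
    (φ : Fin n → Fin n → Fin n → ℂ) :
    X (W (G.Phi fr φ)) + W (X (G.Phi fr φ)) = Z (G.Phi fr φ) := by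
  have h3 : ∀ a b c, X (W (V.mul (G.ps fr a) (V.mul (G.ps fr b) (G.ps fr c))))
      + W (X (V.mul (G.ps fr a) (V.mul (G.ps fr b) (G.ps fr c))))
      = Z (V.mul (G.ps fr a) (V.mul (G.ps fr b) (G.ps fr c))) := by
    intro a b c
    exact anti_step hX hW hZ (G.odd_ps fr a).par (hps a)
      (anti_step hX hW hZ (G.odd_ps fr b).par (hps b) (hps c) (-1)) (-1)
  unfold Phi
  simp only [map_sum, map_smul, ← Finset.sum_add_distrib, ← smul_add, h3]

/-- the anticommutator on a combination `∑ f_i u_i` -/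
lemma anti_sum_fm {X W Z : E →ₗ[ℂ] E} (hX : ODer V X) (hW : ODer V W)
    (hZ : ∀ (a : E) (m : ℤ) (v : E), Z (V.Y a m v) = V.Y (Z a) m v + V.Y a m (Z v))
    (hfn : ∀ f, X (W (G.fn f)) + W (X (G.fn f)) = Z (G.fn f)) {u : Fin n → E}
    (hu : ∀ i, X (W (u i)) + W (X (u i)) = Z (u i)) (f : Fin n → A) :
    X (W (∑ i, G.fm (f i) (u i))) + W (X (∑ i, G.fm (f i) (u i)))
      = Z (∑ i, G.fm (f i) (u i)) := by
  simp only [map_sum, ← Finset.sum_add_distrib]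
  refine Finset.sum_congr rfl fun i _ => ?_
  exact anti_step hX hW hZ (G.par_fn (f i)) (hfn _) (hu i) (-1)

lemma anti_ps {X W Z : E →ₗ[ℂ] E} (hX : ODer V X) (hW : ODer V W)
    (hZ : ∀ (a : E) (m : ℤ) (v : E), Z (V.Y a m v) = V.Y (Z a) m v + V.Y a m (Z v))
    (hfn : ∀ f, X (W (G.fn f)) + W (X (G.fn f)) = Z (G.fn f))
    (hb : ∀ i, X (W (G.b i)) + W (X (G.b i)) = Z (G.b i))
    (hc : ∀ i, X (W (G.c i)) + W (X (G.c i)) = Z (G.c i)) (a : Fin n) :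
    X (W (G.ps fr a)) + W (X (G.ps fr a)) = Z (G.ps fr a) := by
  have h1 := anti_sum_fm G hX hW hZ hfn hc (fun i => fr.e a i)
  have h2 := anti_sum_fm G hX hW hZ hfn hb (fun i => fr.f i a)
  have : G.ps fr a = ∑ i, G.fm (fr.e a i) (G.c i) + ∑ i, G.fm (fr.f i a) (G.b i) := rfl
  rw [this, map_add W, map_add X, map_add X, map_add W, map_add Z, ← h1, ← h2]
  abel

lemma anti_ps' {X W Z : E →ₗ[ℂ] E} (hX : ODer V X) (hW : ODer V W)
    (hZ : ∀ (a : E) (m : ℤ) (v : E), Z (V.Y a m v) = V.Y (Z a) m v + V.Y a m (Z v))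
    (hfn : ∀ f, X (W (G.fn f)) + W (X (G.fn f)) = Z (G.fn f))
    (hb : ∀ i, X (W (G.bu fr i)) + W (X (G.bu fr i)) = Z (G.bu fr i))
    (hc : ∀ i, X (W (G.cd fr i)) + W (X (G.cd fr i)) = Z (G.cd fr i)) (a : Fin n) :
    X (W (G.ps fr a)) + W (X (G.ps fr a)) = Z (G.ps fr a) := by
  have h1 := anti_sum_fm G hX hW hZ hfn hc (fun i => fr.f i a)
  have h2 := anti_sum_fm G hX hW hZ hfn hb (fun i => fr.e a i)
  have : G.ps fr a = ∑ i, G.fm (fr.f i a) (G.cd fr i) + ∑ i, G.fm (fr.e a i) (G.bu fr i) := by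
    rw [← C_eq, ← B_eq]; rfl
  rw [this, map_add W, map_add X, map_add X, map_add W, map_add Z, ← h1, ← h2]
  abel

lemma T_der (a : E) (m : ℤ) (v : E) :
    V.T (V.Y a m v) = V.Y (V.T a) m v + V.Y a m (V.T v) := V.T_Y a m v

lemma zero_der (a : E) (m : ℤ) (v : E) :
    (0 : E →ₗ[ℂ] E) (V.Y a m v) = V.Y ((0 : E →ₗ[ℂ] E) a) m v + V.Y a m ((0 : E →ₗ[ℂ] E) v) := by
  simp

/-- functions acting on a fixed state: derivations -/
lemma ODer_fm {X : E →ₗ[ℂ] E} (hX : ODer V X) (f : A) (v : E) :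
    X (G.fm f v) = V.Y (X (G.fn f)) (-1) v + G.fm f (X v) := by
  have := hX.2 0 (G.fn f) (-1) v (G.par_fn f)
  rw [pow_zero, one_smul] at this
  exact this

lemma bu_bu (i j : Fin n) (k : ℕ) : V.Y (G.bu fr i) k (G.bu fr j) = 0 := by
  rw [G.bu_eq fr i, G.bu_eq fr j]
  simp only [map_sum, LinearMap.sum_apply, Finset.sum_apply]
  refine Finset.sum_eq_zero fun a _ => Finset.sum_eq_zero fun b _ => ?_
  have h0 : V.Y (G.B fr b) 0 (G.B fr a) = G.fn 0 := by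
    rw [map_zero]; exact G.B_B fr b a 0
  have h1 : ∀ k : ℕ, V.Y (G.B fr b) (k + 1 : ℕ) (G.B fr a) = 0 := fun k => G.B_B fr b a (k + 1)
  have := G.pole_fm (G.odd_B fr b) (G.odd_B fr a) 0 h0 h1 (fr.f i b) (fr.f j a)
  rcases k with _ | k
  · have h2 := this.1
    rw [mul_zero, map_zero] at h2
    exact h2
  · exact this.2 k

lemma bu_anti (i j : Fin n) :
    V.mul (G.bu fr i) (G.bu fr j) = - V.mul (G.bu fr j) (G.bu fr i) :=
  G.mul_anti (G.odd_bu fr i) (G.odd_bu fr j) 0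
    (by rw [zero_smul]; exact bu_bu G fr i j 0) (fun k => bu_bu G fr i j (k + 1))

lemma mul_fm_bu (f : A) (i j : Fin n) :
    V.mul (G.fm f (G.bu fr i)) (G.bu fr j) = G.fm f (V.mul (G.bu fr i) (G.bu fr j)) := by
  have h0 : V.Y (G.bu fr i) 0 (G.bu fr j) = G.fn 0 := by
    rw [map_zero]; exact bu_bu G fr i j 0
  rw [G.mul_fm_left (G.odd_bu fr i) (G.odd_bu fr j) 0 h0 (fun k => bu_bu G fr i j (k + 1)) f]
  simp [fm]

lemma eq_zero_of_eq_neg {v : E} (h : v = -v) : v = 0 := by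
  have h2 : (2 : ℂ) • v = 0 := by
    rw [two_smul]
    nth_rw 1 [h]
    exact neg_add_cancel v
  rcases smul_eq_zero.mp h2 with h | h
  · exact absurd h (by norm_num)
  · exact h

lemma nm_nm_fn (f : A) : G.nm fr (G.nm fr (G.fn f)) = 0 := by
  have hd : ∀ i j, D.d i (D.d j f) = D.d j (D.d i f) := fun i j => D.comm i j f
  have e1 : G.nm fr (G.nm fr (G.fn f)) =
      ∑ i, ∑ j, G.fm (D.d j (D.d i f)) (V.mul (G.bu fr j) (G.bu fr i)) := by
    rw [G.nm_fn fr f, map_sum]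
    refine Finset.sum_congr rfl fun i _ => ?_
    rw [ODer_fm G (G.ODer_nm fr), G.nm_bu, G.nm_fn fr]
    have : V.Y (∑ j, G.fm (D.d j (D.d i f)) (G.bu fr j)) (-1) (G.bu fr i)
        = ∑ j, V.mul (G.fm (D.d j (D.d i f)) (G.bu fr j)) (G.bu fr i) := by
      simp only [map_sum, LinearMap.sum_apply, Finset.sum_apply]; rfl
    rw [this]
    simp only [mul_fm_bu]
    simp [fm]
  have e2 : G.nm fr (G.nm fr (G.fn f)) = - G.nm fr (G.nm fr (G.fn f)) := by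
    conv_lhs => rw [e1, Finset.sum_comm]
    rw [e1, ← Finset.sum_neg_distrib]
    refine Finset.sum_congr rfl fun i _ => ?_
    rw [← Finset.sum_neg_distrib]
    refine Finset.sum_congr rfl fun j _ => ?_
    rw [bu_anti G fr i j, hd i j]
    simp [fm]
  exact eq_zero_of_eq_neg e2

lemma x_bh (i j : Fin n) (k : ℕ) :
    V.Y (G.x j) k (G.bh fr i) = if k = 1 ∧ i = j then V.vac else 0 := by
  have hN : ∀ l : ℕ, 2 ≤ l → V.Y (G.bh fr i) (k + l : ℕ) (G.x j) = 0 := by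
    intro l hl
    have := G.bh_x fr i j (k + l)
    rw [if_neg (by omega)] at this
    exact_mod_cast this
  rw [V.skew (G.par_x j) (G.par_bh fr i) k 2 hN, Finset.sum_range_succ, Finset.sum_range_one]
  have h0 : V.Y (G.bh fr i) (k + 0 : ℕ) (G.x j) = if k = 1 ∧ i = j then V.vac else 0 :=
    G.bh_x fr i j k
  have h1 : V.T (V.Y (G.bh fr i) (k + 1 : ℕ) (G.x j)) = 0 := by
    rw [G.bh_x fr i j (k + 1)]
    split_ifs
    · exact V.T_vac
    · exact map_zero _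
  rw [h0, pow_one (V.T), h1]
  by_cases hk : k = 1
  · subst hk; simp
  · simp [hk]

lemma cd_bh (i j : Fin n) (k : ℕ) : V.Y (G.cd fr j) k (G.bh fr i) = 0 := by
  rw [V.skew (G.odd_cd fr j).par (G.par_bh fr i) k 0
    (fun l _ => by exact_mod_cast G.bh_cd fr i j (k + l))]
  simp

lemma npl_bh (i : Fin n) : G.npl fr (G.bh fr i) = V.T (G.cd fr i) := by
  have h : ∀ j, V.zm (V.mul (G.cd fr j) (G.x j)) (G.bh fr i)
      = if i = j then V.T (G.cd fr j) else 0 := by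
    intro j
    have hN : ∀ l : ℕ, 2 ≤ l → V.Y (G.x j) (0 + l) (G.bh fr i) = 0 ∧
        V.Y (G.cd fr j) l (G.bh fr i) = 0 := by
      intro l hl
      refine ⟨?_, cd_bh G fr i j l⟩
      rw [zero_add, x_bh G fr i j l, if_neg (by omega)]
    show V.Y (V.mul (G.cd fr j) (G.x j)) 0 (G.bh fr i) = _
    rw [V.Y_mul (G.odd_cd fr j).par (G.par_x j) 0 (G.bh fr i) 2 hN, Finset.sum_range_succ,
      Finset.sum_range_one]
    have a0 : V.Y (G.cd fr j) ((0 : ℕ) : ℤ) (G.bh fr i) = 0 := cd_bh G fr i j 0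
    have a1 : V.Y (G.cd fr j) ((1 : ℕ) : ℤ) (G.bh fr i) = 0 := cd_bh G fr i j 1
    have b0 : V.Y (G.x j) (0 + ((0 : ℕ) : ℤ)) (G.bh fr i) = 0 := by
      rw [zero_add, x_bh G fr i j 0, if_neg (by omega)]
    have b1 : V.Y (G.x j) (0 + ((1 : ℕ) : ℤ)) (G.bh fr i) = if i = j then V.vac else 0 := by
      rw [zero_add, x_bh G fr i j 1]
      simp
    rw [a0, a1, b0, b1]
    split_ifs with hij
    · simp only [map_zero, smul_zero, add_zero, zero_add]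
      show V.Y (G.cd fr j) (-1 - ((1 : ℕ) : ℤ)) V.vac = V.Y (G.cd fr j) (-2) V.vac
      norm_num
    · simp
  unfold npl
  rw [LinearMap.sum_apply]
  simp only [h]
  simp

lemma sub_aux {E : Type*} [AddCommGroup E] {a b c : E} (h : a - b = c) : b = a - c := by
  rw [← h, sub_sub_cancel]

/-- the square of an odd zero mode -/
lemma zm_sq {q : E} (hq : V.Par 1 q) (h : V.zm q q = 0) (v : E) : V.zm q (V.zm q v) = 0 := by
  have h1 := V.zm_der hq hq 0 v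
  rw [h] at h1
  have h2 : V.zm q (V.zm q v) = - V.zm q (V.zm q v) := by
    have e : ∀ w, V.Y q 0 w = V.zm q w := fun _ => rfl
    have h3 : V.zm q (V.zm q v) = (-1 : ℂ) ^ (1 * 1) • V.zm q (V.zm q v) := by
      rw [e, e, map_zero] at h1
      rw [Pi.zero_apply, LinearMap.zero_apply, zero_add] at h1
      exact h1
    rw [mul_one, pow_one, neg_smul, one_smul] at h3
    exact h3
  exact eq_zero_of_eq_neg h2

end C6

open C6

theorem Q1_sq (v : E) : G.Q1 (G.Q1 v) = 0 := by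
  have hq : V.Par 1 (∑ i, V.mul (G.c i) (G.β i)) :=
    VSA.Par.sum _ fun i _ => (G.par_c i).Y (G.par_β i) (-1)
  have e : ∀ w, G.Q1 w = V.zm (∑ i, V.mul (G.c i) (G.β i)) w := by
    intro w
    simp only [Q1, VSA.zm, map_sum, LinearMap.sum_apply, Finset.sum_apply]
  have h : V.zm (∑ i, V.mul (G.c i) (G.β i)) (∑ i, V.mul (G.c i) (G.β i)) = 0 := by
    rw [← e, map_sum]
    refine Finset.sum_eq_zero fun i _ => ?_
    show G.Q1 (V.Y (G.c i) (-1) (G.β i)) = 0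
    rw [G.ODer_Q1.2 1 _ _ _ (G.par_c i), G.Q1_c, G.Q1_β]
    simp
  rw [e, e]
  exact zm_sq hq h v

theorem Q2_sq (v : E) : G.Q2 (G.Q2 v) = 0 := by
  have hq : V.Par 1 (∑ i, V.mul (G.b i) (G.x i)) :=
    VSA.Par.sum _ fun i _ => (G.par_b i).Y (G.par_x i) (-1)
  have e : ∀ w, G.Q2 w = V.zm (∑ i, V.mul (G.b i) (G.x i)) w := by
    intro w
    simp only [Q2, VSA.zm, map_sum, LinearMap.sum_apply, Finset.sum_apply]
  have h : V.zm (∑ i, V.mul (G.b i) (G.x i)) (∑ i, V.mul (G.b i) (G.x i)) = 0 := by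
    rw [← e, map_sum]
    refine Finset.sum_eq_zero fun i _ => ?_
    show G.Q2 (V.Y (G.b i) (-1) (G.x i)) = 0
    rw [G.ODer_Q2.2 1 _ _ _ (G.par_b i), G.Q2_b, G.Q2_x]
    simp
  rw [e, e]
  exact zm_sq hq h v

theorem Q1_Q2_Phi (φ : Fin n → Fin n → Fin n → ℂ) :
    G.Q1 (G.Q2 (G.Phi fr φ)) + G.Q2 (G.Q1 (G.Phi fr φ)) = V.T (G.Phi fr φ) := by
  refine anti_Phi G fr G.ODer_Q1 G.ODer_Q2 T_der
    (anti_ps G fr G.ODer_Q1 G.ODer_Q2 T_der ?_ ?_ ?_) φ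
  · intro f
    rw [G.Q2_fn, G.Q1_fn, map_zero, zero_add, map_sum, G.T_fn]
    refine Finset.sum_congr rfl fun i _ => ?_
    rw [ODer_fm G G.ODer_Q2, G.Q2_fn, G.Q2_c]
    simp [fm]
  · intro i
    rw [G.Q2_b, G.Q1_b, G.Q2_β, map_zero, zero_add]
  · intro i
    rw [G.Q2_c, G.Q1_c, G.Q1_x, map_zero, add_zero]

theorem nm_sq_Phi (φ : Fin n → Fin n → Fin n → ℂ) :
    G.nm fr (G.nm fr (G.Phi fr φ)) = 0 := by
  have h := anti_Phi G fr (G.ODer_nm fr) (G.ODer_nm fr) zero_der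
    (anti_ps' G fr (G.ODer_nm fr) (G.ODer_nm fr) zero_der ?_ ?_ ?_) φ
  · have h2 : (2 : ℂ) • G.nm fr (G.nm fr (G.Phi fr φ)) = 0 := by
      rw [two_smul]; exact h
    rcases smul_eq_zero.mp h2 with h | h
    · exact absurd h (by norm_num)
    · exact h
  · intro f
    rw [nm_nm_fn]; simp
  · intro i
    rw [G.nm_bu]; simp
  · intro i
    rw [G.nm_cd, G.nm_bh]; simp

theorem npl_sq_Phi (φ : Fin n → Fin n → Fin n → ℂ) :
    G.npl fr (G.npl fr (G.Phi fr φ)) = 0 := by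
  have h := anti_Phi G fr (G.ODer_npl fr) (G.ODer_npl fr) zero_der
    (anti_ps' G fr (G.ODer_npl fr) (G.ODer_npl fr) zero_der ?_ ?_ ?_) φ
  · have h2 : (2 : ℂ) • G.npl fr (G.npl fr (G.Phi fr φ)) = 0 := by
      rw [two_smul]; exact h
    rcases smul_eq_zero.mp h2 with h | h
    · exact absurd h (by norm_num)
    · exact h
  · intro f
    rw [G.npl_fn]; simp
  · intro i
    rw [G.npl_bu, G.npl_x]; simp
  · intro i
    rw [G.npl_cd]; simp

theorem nm_npl_Phi (φ : Fin n → Fin n → Fin n → ℂ) :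
    G.nm fr (G.npl fr (G.Phi fr φ)) + G.npl fr (G.nm fr (G.Phi fr φ)) = V.T (G.Phi fr φ) := by
  refine anti_Phi G fr (G.ODer_nm fr) (G.ODer_npl fr) T_der
    (anti_ps' G fr (G.ODer_nm fr) (G.ODer_npl fr) T_der ?_ ?_ ?_) φ
  · intro f
    rw [G.npl_fn, G.nm_fn, map_zero, zero_add, map_sum, G.T_fn]
    refine Finset.sum_congr rfl fun i _ => ?_
    rw [ODer_fm G (G.ODer_npl fr), G.npl_fn, G.npl_bu]
    simp [fm]
  · intro i
    rw [G.npl_bu, G.nm_bu, G.nm_x, map_zero, add_zero]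
  · intro i
    rw [G.npl_cd, G.nm_cd, npl_bh, map_zero, zero_add]

theorem Do_Phi (φ : Fin n → Fin n → Fin n → ℂ) (hφ : Anti φ) (h1 : Stab D fr φ)
    (h2 : Contr D fr φ) : G.Do fr (G.Phi fr φ) = 0 := by
  have e1 := G.X1_Phi fr φ hφ h1 h2
  have e2 := G.X2_Phi fr φ
  simp [Do, e1, e2]

theorem Do_KK (φ : Fin n → Fin n → Fin n → ℂ) (hφ : Anti φ) (h1 : Stab D fr φ)
    (h2 : Contr D fr φ) : G.Do fr (G.KK fr φ) = 0 := by
  have e1 := G.X1_Phi fr φ hφ h1 h2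
  have e2 := G.X2_Phi fr φ
  have a1 := G.Q1_sq (G.Phi fr φ)
  have a2 := G.Q2_sq (G.Phi fr φ)
  have a3 := G.Q1_Q2_Phi fr φ
  have b1 := G.nm_sq_Phi fr φ
  have b2 := G.npl_sq_Phi fr φ
  have b3 := G.nm_npl_Phi fr φ
  simp only [Do, KK, DD, LinearMap.smul_apply, LinearMap.add_apply, LinearMap.sub_apply, map_add]
  rw [show G.nm fr (G.Q1 (G.Phi fr φ)) = G.nm fr (G.nm fr (G.Phi fr φ)) by rw [e1],
    show G.nm fr (G.Q2 (G.Phi fr φ)) = G.nm fr (G.npl fr (G.Phi fr φ)) by rw [e2],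
    show G.npl fr (G.Q1 (G.Phi fr φ)) = G.npl fr (G.nm fr (G.Phi fr φ)) by rw [e1],
    show G.npl fr (G.Q2 (G.Phi fr φ)) = G.npl fr (G.npl fr (G.Phi fr φ)) by rw [e2],
    a1, a2, b1, b2, ← smul_add, eq_sub_of_add_eq a3, eq_sub_of_add_eq b3]
  module

theorem Do_F_Phi (φ : Fin n → Fin n → Fin n → ℂ) (hφ : Anti φ) (h1 : Stab D fr φ)
    (h2 : Contr D fr φ) :
    G.Q1 (G.Phi fr φ) - G.Q2 (G.Phi fr φ) = -G.Do fr (G.F (G.Phi fr φ)) := by
  have e1 := G.X1_Phi fr φ hφ h1 h2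
  have e2 := G.X2_Phi fr φ
  have f1 := G.F_Q1 (G.Phi fr φ)
  have f2 := G.F_Q2 (G.Phi fr φ)
  have f3 := G.F_nm fr (G.Phi fr φ)
  have f4 := G.F_npl fr (G.Phi fr φ)
  rw [← e1] at f3
  rw [← e2] at f4
  simp only [Do, LinearMap.smul_apply, LinearMap.add_apply, LinearMap.sub_apply]
  have g1 : G.Q1 (G.F (G.Phi fr φ)) = G.F (G.Q1 (G.Phi fr φ)) - G.Q1 (G.Phi fr φ) :=
    sub_aux f1
  have g2 : G.Q2 (G.F (G.Phi fr φ)) = G.F (G.Q2 (G.Phi fr φ)) - -G.Q2 (G.Phi fr φ) :=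
    sub_aux f2
  have g3 : G.nm fr (G.F (G.Phi fr φ)) = G.F (G.Q1 (G.Phi fr φ)) - -G.Q1 (G.Phi fr φ) :=
    sub_aux f3
  have g4 : G.npl fr (G.F (G.Phi fr φ)) = G.F (G.Q2 (G.Phi fr φ)) - G.Q2 (G.Phi fr φ) :=
    sub_aux f4
  rw [g1, g2, g3, g4]
  module

theorem par_Phi (φ : Fin n → Fin n → Fin n → ℂ) : V.Par 1 (G.Phi fr φ) := by
  refine VSA.Par.sum _ fun a _ => VSA.Par.sum _ fun b _ => VSA.Par.sum _ fun c _ => ?_
  refine VSA.Par.smul _ ?_
  exact ((G.odd_ps fr a).par.Y ((G.odd_ps fr b).par.Y (G.odd_ps fr c).par (-1)) (-1)).congr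
    (by norm_num)

theorem par_KK (φ : Fin n → Fin n → Fin n → ℂ) : V.Par 0 (G.KK fr φ) :=
  (G.ODer_DD.1 1 _ (G.par_Phi fr φ)).congr (by norm_num)

theorem Do_vac : G.Do fr V.vac = 0 := by
  simp [Do, G.Q1_vac, G.Q2_vac, G.nm_vac, G.npl_vac]

end CD
end Pool.Agent.AA3
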