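import Pool.Agent.Lib.MP_aa3aaf_al.CFrame

/-!
Task C2: the hatted fields `β̂_i`.
-/

set_option autoImplicit false
open scoped BigOperators
noncomputable section
namespace Pool.Agent.AA3
namespace CD
variable {n : ℕ} {A : Type*} [CommRing A] [Algebra ℂ A] {D : DS n A}
  {E : Type*} [AddCommGroup E] [Module ℂ E] {V : VSA E} (G : CD n D V) (fr : Frame n A)

namespace C2

lemma bin_zero (m : ℤ) : bin m 0 = 1 := by simp [bin]

lemma Yc {V : VSA E} {u v : E} {m : ℤ} {k : ℕ} (h : V.Y u (k : ℕ) v = 0) (e : m = (k : ℤ)) :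
    V.Y u m v = 0 := by
  rw [e]; exact h

theorem Y_fm_sum {p : ℕ} {u v : E} (hu : V.Par p u) (hv : G.Fr v) (f : A) (m : ℤ) (N : ℕ)
    (hN : ∀ j : ℕ, N ≤ j → V.Y u (m + j) v = 0) :
    V.Y (G.fm f u) m v = ∑ j ∈ Finset.range N, V.Y (G.fn f) (-1 - j) (V.Y u (m + j) v) := by
  have h := V.Y_mul (p := 0) (q := p) (G.par_fn f) hu m v N (fun j hj => ⟨hN j hj, hv j f⟩)
  rw [show G.fm f u = V.mul (G.fn f) u from rfl, h]
  refine Finset.sum_congr rfl fun j _ => ?_
  rw [hv j f]; simp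

theorem Y_fm_reg {p : ℕ} {u v : E} (hu : V.Par p u) (hv : G.Fr v) (f : A)
    (h : ∀ j : ℕ, V.Y u j v = 0) (k : ℕ) : V.Y (G.fm f u) k v = 0 := by
  rw [Y_fm_sum G hu hv f k 0 (fun j _ => by have := h (k + j); push_cast at this; exact this)]
  simp

theorem Y_fm_one {p : ℕ} {u v : E} (hu : V.Par p u) (hv : G.Fr v) (f : A)
    (h : ∀ j : ℕ, V.Y u (j + 1 : ℕ) v = 0) :
    V.Y (G.fm f u) 0 v = G.fm f (V.Y u 0 v) ∧
      ∀ k : ℕ, V.Y (G.fm f u) (k + 1 : ℕ) v = 0 := by
  constructor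
  · rw [Y_fm_sum G hu hv f 0 1 (fun j hj => by
      obtain ⟨i, rfl⟩ := Nat.exists_eq_add_of_le' hj
      exact Yc (h i) (by push_cast; ring))]
    simp [fm]
  · intro k
    rw [Y_fm_sum G hu hv f _ 0 (fun j _ => Yc (h (k + j)) (by push_cast; ring))]
    simp

theorem Y_fm_two {p : ℕ} {u v : E} (hu : V.Par p u) (hv : G.Fr v) (f : A)
    (h : ∀ j : ℕ, V.Y u (j + 2 : ℕ) v = 0) :
    V.Y (G.fm f u) 0 v = G.fm f (V.Y u 0 v) + V.Y (G.fn f) (-2) (V.Y u 1 v) ∧
    V.Y (G.fm f u) 1 v = G.fm f (V.Y u 1 v) ∧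
      ∀ k : ℕ, V.Y (G.fm f u) (k + 2 : ℕ) v = 0 := by
  refine ⟨?_, ?_, ?_⟩
  · rw [Y_fm_sum G hu hv f 0 2 (fun j hj => by
      obtain ⟨i, rfl⟩ := Nat.exists_eq_add_of_le' hj
      exact Yc (h i) (by push_cast; ring))]
    simp [fm, Finset.sum_range_succ]
  · rw [Y_fm_sum G hu hv f 1 1 (fun j hj => by
      obtain ⟨i, rfl⟩ := Nat.exists_eq_add_of_le' hj
      exact Yc (h i) (by push_cast; ring))]
    simp [fm]
  · intro k
    rw [Y_fm_sum G hu hv f _ 0 (fun j _ => Yc (h (k + j)) (by push_cast; ring))]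
    simp

theorem Y_right {p : ℕ} {u : E} (hu : V.Par p u) (f : A)
    (h : ∀ j : ℕ, V.Y u j (G.fn f) = 0) (m : ℤ) (v : E) :
    V.Y u m (G.fm f v) = G.fm f (V.Y u m v) := by
  have := V.comm_of_regular hu (G.par_fn f) h m (-1) v
  simpa [fm] using this

theorem Y_right' {u : E} (hu : V.Par 0 u) (f δ : A) (h0 : V.Y u 0 (G.fn f) = G.fn δ)
    (h : ∀ j : ℕ, V.Y u (j + 1 : ℕ) (G.fn f) = 0) (m : ℤ) (v : E) :
    V.Y u m (G.fm f v) = G.fm f (V.Y u m v) + V.Y (G.fn δ) (m - 1) v := by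
  have := V.comm 0 0 u (G.fn f) hu (G.par_fn f) 1 (fun j hj => by
      obtain ⟨i, rfl⟩ := Nat.exists_eq_add_of_le' hj
      exact h i) m (-1) v
  simp only [Finset.range_one, Finset.sum_singleton, bin_zero, one_smul, mul_zero, pow_zero,
    Nat.cast_zero, h0, sub_zero] at this
  rw [fm, fm, sub_eq_iff_eq_add'.mp this]
  rfl

/-- the bilinears `c^l b_k` -/
def w (l k : Fin n) : E := V.mul (G.c l) (G.b k)

theorem par_w (l k : Fin n) : V.Par 0 (w G l k) := by
  have := VSA.Par.Y (G.par_c l) (G.par_b k) (-1)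
  exact VSA.Par.congr this rfl

theorem Y_w (l k : Fin n) (m : ℤ) (v : E) (N : ℕ)
    (hN : ∀ j : ℕ, N ≤ j → V.Y (G.b k) (m + j) v = 0 ∧ V.Y (G.c l) j v = 0) :
    V.Y (w G l k) m v = ∑ j ∈ Finset.range N,
      (V.Y (G.c l) (-1 - j) (V.Y (G.b k) (m + j) v)
        - V.Y (G.b k) (m - 1 - j) (V.Y (G.c l) j v)) := by
  have := V.Y_mul (G.par_c l) (G.par_b k) m v N hN
  rw [w, this]
  refine Finset.sum_congr rfl fun j _ => ?_
  simp [sub_eq_add_neg]

theorem w_reg (l k : Fin n) (v : E) (hb : ∀ j : ℕ, V.Y (G.b k) j v = 0)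
    (hc : ∀ j : ℕ, V.Y (G.c l) j v = 0) (m : ℕ) : V.Y (w G l k) m v = 0 := by
  rw [Y_w G l k m v 0 (fun j _ => ⟨by have := hb (m + j); push_cast at this; exact this, hc j⟩)]
  simp

theorem w_b (l k m : Fin n) (j : ℕ) :
    V.Y (w G l k) j (G.b m) = if j = 0 ∧ l = m then - G.b k else 0 := by
  rw [Y_w G l k j (G.b m) 1 (fun i hi => ⟨by
      have := G.b_b (j + i) k m
      push_cast at this; exact this, by
      rw [G.c_b]; rw [if_neg]; omega⟩)]
  simp only [Finset.range_one, Finset.sum_singleton, Nat.cast_zero, add_zero, sub_zero]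
  have h1 : V.Y (G.b k) j (G.b m) = 0 := G.b_b j k m
  have h2 : V.Y (G.c l) 0 (G.b m) = if l = m then V.vac else 0 := by
    have := G.c_b 0 l m
    simpa using this
  rw [h1, h2]
  rcases j with _ | j
  · by_cases h : l = m
    · simp [h, V.create]
    · simp [h]
  · have : ((j + 1 : ℕ) : ℤ) - 1 = (j : ℤ) := by push_cast; ring
    rw [this]
    by_cases h : l = m
    · simp [h, V.create']
    · simp [h]

theorem w_c (l k m : Fin n) (j : ℕ) :
    V.Y (w G l k) j (G.c m) = if j = 0 ∧ k = m then G.c l else 0 := by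
  rw [Y_w G l k j (G.c m) 1 (fun i hi => ⟨by
      have := G.b_c (j + i) k m
      push_cast at this; rw [this, if_neg]; omega, by
      rw [G.c_c]⟩)]
  simp only [Finset.range_one, Finset.sum_singleton, Nat.cast_zero, add_zero, sub_zero]
  have h1 : V.Y (G.b k) j (G.c m) = if j = 0 ∧ k = m then V.vac else 0 := G.b_c j k m
  have h2 : V.Y (G.c l) 0 (G.c m) = 0 := by
    have := G.c_c 0 l m
    simpa using this
  rw [h1, h2]
  by_cases h : j = 0 ∧ k = m
  · simp [h, V.create]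
  · simp [h]

theorem w_w (l k p q : Fin n) :
    V.Y (w G l k) 0 (w G p q) =
      (if k = p then w G l q else 0) - (if l = q then w G p k else 0) ∧
    V.Y (w G l k) 1 (w G p q) = (if k = p ∧ l = q then V.vac else 0) ∧
    ∀ j : ℕ, V.Y (w G l k) (j + 2 : ℕ) (w G p q) = 0 := by
  have key : ∀ m : ℤ, V.Y (w G l k) m (w G p q) = V.Y (G.c p) (-1) (V.Y (w G l k) m (G.b q))
      + (if k = p then V.Y (G.c l) (m - 1) (G.b q) else 0) := by
    intro m
    have := V.comm 0 1 (w G l k) (G.c p) (par_w G l k) (G.par_c p) 1 (fun j hj => by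
      rw [w_c, if_neg]; omega) m (-1) (G.b q)
    simp only [Finset.range_one, Finset.sum_singleton, bin_zero, one_smul, zero_mul, pow_zero,
      Nat.cast_zero, sub_zero] at this
    have e : V.Y (w G l k) m (w G p q) = V.Y (w G l k) m (V.Y (G.c p) (-1) (G.b q)) := rfl
    have e2 : V.Y (w G l k) 0 (G.c p) = if k = p then G.c l else 0 := by
      have := w_c G l k p 0
      simpa using this
    rw [e, sub_eq_iff_eq_add'.mp this, e2]
    by_cases h : k = p
    · simp [h, sub_eq_add_neg]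
    · simp [h]
  refine ⟨?_, ?_, ?_⟩
  · rw [key 0]
    have e2 : V.Y (w G l k) 0 (G.b q) = if l = q then - G.b k else 0 := by
      have := w_b G l k q 0
      simpa using this
    rw [e2]
    by_cases h1 : k = p <;> by_cases h2 : l = q <;> simp [h1, h2, w, VSA.mul] <;> abel
  · rw [key 1]
    have e2 : V.Y (w G l k) 1 (G.b q) = 0 := by
      have := w_b G l k q 1
      simpa using this
    have e3 : V.Y (G.c l) 0 (G.b q) = if l = q then V.vac else 0 := by
      have := G.c_b 0 l q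
      simpa using this
    rw [e2]
    by_cases h1 : k = p <;> by_cases h2 : l = q <;> simp only [h1, h2, e3, if_true, if_false,
      and_true, and_false, map_zero, zero_add, sub_self] <;> simp_all
  · intro j
    rw [key]
    have e2 := w_b G l k q (j + 2)
    rw [if_neg (by omega)] at e2
    have e3 := G.c_b (j + 1) l q
    rw [if_neg (by omega)] at e3
    have e4 : ((j + 2 : ℕ) : ℤ) - 1 = ((j + 1 : ℕ) : ℤ) := by push_cast; ring
    rw [e2, e4, e3]
    simp

lemma Y_sum {ι : Type*} (s : Finset ι) (u : ι → E) (m : ℤ) (v : E) :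
    V.Y (∑ i ∈ s, u i) m v = ∑ i ∈ s, V.Y (u i) m v := by
  simp [map_sum, Finset.sum_apply, LinearMap.sum_apply]

theorem Fr_b (m : Fin n) : G.Fr (G.b m) := (G.odd_b m).fn_u
theorem Fr_c (m : Fin n) : G.Fr (G.c m) := (G.odd_c m).fn_u
theorem Fr_fn (g : A) : G.Fr (G.fn g) := fun k f => G.fn_fn k f g

theorem Fr_x (m : Fin n) : G.Fr (G.x m) := by
  intro k f
  have := V.skew (G.par_fn f) (G.par_x m) k 0 (fun j _ => G.x_fn (k + j) m f)
  simpa using this

theorem Fr_w (l k : Fin n) : G.Fr (w G l k) := by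
  intro j f
  have := V.comm_of_regular (G.par_fn f) (G.par_c l) (fun j => (G.odd_c l).fn_u j f) j (-1) (G.b k)
  rw [(G.odd_b k).fn_u j f] at this
  simpa [w, VSA.mul] using this

theorem Fr_fm {v : E} (hv : G.Fr v) (g : A) : G.Fr (G.fm g v) := by
  intro k f
  rw [Y_right G (G.par_fn f) g (fun j => G.fn_fn j f g), hv k f]
  simp [fm]

theorem par_fm {p : ℕ} {u : E} (hu : V.Par p u) (f : A) : V.Par p (G.fm f u) := by
  have := VSA.Par.Y (G.par_fn f) hu (-1)
  rwa [zero_add] at this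

/-- `J(M) = ∑ M^k_l c^l b_k` -/
def J (M : Matrix (Fin n) (Fin n) A) : E := ∑ k, ∑ l, G.fm (M k l) (w G l k)

/-- `∑ h_l x^l` -/
def X (h : Fin n → A) : E := ∑ l, G.fm (h l) (G.x l)

theorem bh_eq (j : Fin n) : G.bh fr j = G.β j - J G (G.am fr j) + X G (G.hh fr j) := rfl

theorem par_J (M : Matrix (Fin n) (Fin n) A) : V.Par 0 (J G M) :=
  VSA.Par.sum _ fun k _ => VSA.Par.sum _ fun l _ => par_fm G (par_w G l k) _

theorem par_X (h : Fin n → A) : V.Par 0 (X G h) :=
  VSA.Par.sum _ fun l _ => par_fm G (G.par_x l) _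

theorem J_reg (M : Matrix (Fin n) (Fin n) A) {v : E} (hv : G.Fr v)
    (hb : ∀ k, ∀ j : ℕ, V.Y (G.b k) j v = 0) (hc : ∀ l, ∀ j : ℕ, V.Y (G.c l) j v = 0) (m : ℕ) :
    V.Y (J G M) m v = 0 := by
  rw [J, Y_sum]
  refine Finset.sum_eq_zero fun k _ => ?_
  rw [Y_sum]
  refine Finset.sum_eq_zero fun l _ => ?_
  exact Y_fm_reg G (par_w G l k) hv _ (w_reg G l k v (hb k) (hc l)) m

theorem J_fn (M : Matrix (Fin n) (Fin n) A) (k : ℕ) (f : A) : V.Y (J G M) k (G.fn f) = 0 :=
  J_reg G M (Fr_fn G f) (fun k j => G.b_fn j k f) (fun l j => G.c_fn j l f) k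

theorem J_x (M : Matrix (Fin n) (Fin n) A) (k : ℕ) (i : Fin n) : V.Y (J G M) k (G.x i) = 0 :=
  J_reg G M (Fr_x G i) (fun k j => (G.odd_b k).u_x j i) (fun l j => (G.odd_c l).u_x j i) k

theorem J_b (M : Matrix (Fin n) (Fin n) A) (m : Fin n) :
    V.Y (J G M) 0 (G.b m) = -∑ k, G.fm (M k m) (G.b k) ∧
      ∀ j : ℕ, V.Y (J G M) (j + 1 : ℕ) (G.b m) = 0 := by
  have h1 : ∀ l k (j : ℕ), V.Y (w G l k) (j + 1 : ℕ) (G.b m) = 0 := fun l k j => by
    rw [w_b, if_neg]; omega
  have h2 : ∀ l k, V.Y (w G l k) 0 (G.b m) = if l = m then - G.b k else 0 := fun l k => by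
    have := w_b G l k m 0
    simpa using this
  constructor
  · rw [J, Y_sum, ← Finset.sum_neg_distrib]
    refine Finset.sum_congr rfl fun k _ => ?_
    rw [Y_sum, Finset.sum_eq_single m]
    · rw [(Y_fm_one G (par_w G m k) (Fr_b G m) (M k m) (h1 m k)).1, h2]
      simp [fm]
    · intro l _ hl
      rw [(Y_fm_one G (par_w G l k) (Fr_b G m) (M k l) (h1 l k)).1, h2]
      simp [fm, hl]
    · simp
  · intro j
    rw [J, Y_sum]
    refine Finset.sum_eq_zero fun k _ => ?_
    rw [Y_sum]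
    refine Finset.sum_eq_zero fun l _ => ?_
    exact (Y_fm_one G (par_w G l k) (Fr_b G m) (M k l) (h1 l k)).2 j

theorem J_c (M : Matrix (Fin n) (Fin n) A) (m : Fin n) :
    V.Y (J G M) 0 (G.c m) = ∑ l, G.fm (M m l) (G.c l) ∧
      ∀ j : ℕ, V.Y (J G M) (j + 1 : ℕ) (G.c m) = 0 := by
  have h1 : ∀ l k (j : ℕ), V.Y (w G l k) (j + 1 : ℕ) (G.c m) = 0 := fun l k j => by
    rw [w_c, if_neg]; omega
  have h2 : ∀ l k, V.Y (w G l k) 0 (G.c m) = if k = m then G.c l else 0 := fun l k => by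
    have := w_c G l k m 0
    simpa using this
  constructor
  · rw [J, Y_sum, Finset.sum_eq_single m]
    · rw [Y_sum]
      refine Finset.sum_congr rfl fun l _ => ?_
      rw [(Y_fm_one G (par_w G l m) (Fr_c G m) (M m l) (h1 l m)).1, h2]
      simp
    · intro k _ hk
      rw [Y_sum]
      refine Finset.sum_eq_zero fun l _ => ?_
      rw [(Y_fm_one G (par_w G l k) (Fr_c G m) (M k l) (h1 l k)).1, h2]
      simp [fm, hk]
    · simp
  · intro j
    rw [J, Y_sum]
    refine Finset.sum_eq_zero fun k _ => ?_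
    rw [Y_sum]
    refine Finset.sum_eq_zero fun l _ => ?_
    exact (Y_fm_one G (par_w G l k) (Fr_c G m) (M k l) (h1 l k)).2 j

theorem X_reg (h : Fin n → A) {v : E} (hv : G.Fr v)
    (hx : ∀ k, ∀ j : ℕ, V.Y (G.x k) j v = 0) (m : ℕ) :
    V.Y (X G h) m v = 0 := by
  rw [X, Y_sum]
  exact Finset.sum_eq_zero fun l _ => Y_fm_reg G (G.par_x l) hv _ (hx l) m

theorem X_fn (h : Fin n → A) (k : ℕ) (f : A) : V.Y (X G h) k (G.fn f) = 0 :=
  X_reg G h (Fr_fn G f) (fun k j => G.x_fn j k f) k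

theorem X_x (h : Fin n → A) (k : ℕ) (i : Fin n) : V.Y (X G h) k (G.x i) = 0 :=
  X_reg G h (Fr_x G i) (fun k j => G.x_x j k i) k

theorem X_b (h : Fin n → A) (k : ℕ) (i : Fin n) : V.Y (X G h) k (G.b i) = 0 :=
  X_reg G h (Fr_b G i) (fun k j => G.x_b j k i) k

theorem X_c (h : Fin n → A) (k : ℕ) (i : Fin n) : V.Y (X G h) k (G.c i) = 0 :=
  X_reg G h (Fr_c G i) (fun k j => G.x_c j k i) k

theorem X_w (h : Fin n → A) (k : ℕ) (p q : Fin n) : V.Y (X G h) k (w G p q) = 0 := by
  have := V.comm_of_regular (par_X G h) (G.par_c p) (fun j => X_c G h j p) k (-1) (G.b q)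
  rw [X_b] at this
  simpa [w, VSA.mul] using this

/-- a sum `∑ f_i u_i` is regular with `u` when all the `u_i` are -/
theorem reg_fm {p : ℕ} {u : E} (hu : V.Par p u) (hf : ∀ (f : A) (j : ℕ), V.Y u j (G.fn f) = 0)
    {v : E} (hv : ∀ j : ℕ, V.Y u j v = 0) (f : A) (k : ℕ) : V.Y u k (G.fm f v) = 0 := by
  rw [Y_right G hu f (hf f), hv k]
  simp [fm]

theorem J_X (M : Matrix (Fin n) (Fin n) A) (h : Fin n → A) (k : ℕ) :
    V.Y (J G M) k (X G h) = 0 := by
  rw [X, map_sum]
  exact Finset.sum_eq_zero fun l _ =>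
    reg_fm G (par_J G M) (fun f j => J_fn G M j f) (fun j => J_x G M j l) _ k

theorem X_J (M : Matrix (Fin n) (Fin n) A) (h : Fin n → A) (k : ℕ) :
    V.Y (X G h) k (J G M) = 0 := by
  rw [J, map_sum]
  refine Finset.sum_eq_zero fun p _ => ?_
  rw [map_sum]
  exact Finset.sum_eq_zero fun l _ =>
    reg_fm G (par_X G h) (fun f j => X_fn G h j f) (fun j => X_w G h j l p) _ k

theorem X_X (h h' : Fin n → A) (k : ℕ) :
    V.Y (X G h) k (X G h') = 0 := by
  rw [X.eq_1 G h', map_sum]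
  exact Finset.sum_eq_zero fun l _ =>
    reg_fm G (par_X G h) (fun f j => X_fn G h j f) (fun j => X_x G h j l) _ k

theorem β_w (i : Fin n) (k : ℕ) (p q : Fin n) : V.Y (G.β i) k (w G p q) = 0 := by
  have := V.comm_of_regular (G.par_β i) (G.par_c p) (fun j => G.β_c j i p) k (-1) (G.b q)
  rw [G.β_b] at this
  simpa [w, VSA.mul] using this

theorem β_fm (i : Fin n) (f : A) (m : ℤ) (v : E) :
    V.Y (G.β i) m (G.fm f v) = G.fm f (V.Y (G.β i) m v) + V.Y (G.fn (D.d i f)) (m - 1) v :=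
  Y_right' G (G.par_β i) f _ (by simpa using G.β_fn_zero i f)
    (fun j => G.β_fn_succ j i f) m v

theorem β_J (i : Fin n) (M : Matrix (Fin n) (Fin n) A) :
    V.Y (G.β i) 0 (J G M) = J G (M.map (D.d i)) ∧
      ∀ j : ℕ, V.Y (G.β i) (j + 1 : ℕ) (J G M) = 0 := by
  constructor
  · simp only [J, map_sum]
    refine Finset.sum_congr rfl fun k _ => Finset.sum_congr rfl fun l _ => ?_
    rw [β_fm, show V.Y (G.β i) 0 (w G l k) = 0 from β_w G i 0 l k]
    simp [fm]
  · intro j
    simp only [J, map_sum]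
    refine Finset.sum_eq_zero fun k _ => Finset.sum_eq_zero fun l _ => ?_
    have e : ((j + 1 : ℕ) : ℤ) - 1 = (j : ℤ) := by push_cast; ring
    rw [β_fm, β_w, e, Fr_w G l k j]
    simp [fm]

theorem β_X (i : Fin n) (h : Fin n → A) :
    V.Y (G.β i) 0 (X G h) = X G (fun l => D.d i (h l)) ∧
    V.Y (G.β i) 1 (X G h) = G.fn (h i) ∧
      ∀ j : ℕ, V.Y (G.β i) (j + 2 : ℕ) (X G h) = 0 := by
  refine ⟨?_, ?_, ?_⟩
  · simp only [X, map_sum]
    refine Finset.sum_congr rfl fun l _ => ?_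
    have : V.Y (G.β i) 0 (G.x l) = 0 := by
      have := G.β_x 0 i l
      simpa using this
    rw [β_fm, this]
    simp [fm]
  · simp only [X, map_sum]
    have h1 : ∀ l, V.Y (G.β i) 1 (G.x l) = if i = l then V.vac else 0 := fun l => by
      have := G.β_x 1 i l
      simpa using this
    have h2 : ∀ l, V.Y (G.fn (D.d i (h l))) (1 - 1) (G.x l) = 0 := fun l => Fr_x G l 0 _
    rw [Finset.sum_eq_single i]
    · rw [β_fm, h1, h2]
      simp only [if_true, add_zero, fm]
      exact V.create _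
    · intro l _ hl
      rw [β_fm, h1, h2, if_neg (Ne.symm hl)]
      simp [fm]
    · simp
  · intro j
    simp only [X, map_sum]
    refine Finset.sum_eq_zero fun l _ => ?_
    have e : ((j + 2 : ℕ) : ℤ) - 1 = ((j + 1 : ℕ) : ℤ) := by push_cast; ring
    rw [β_fm, G.β_x, if_neg (by omega), e, Fr_x G l (j + 1)]
    simp [fm]

theorem T_fn' (f : A) : V.T (G.fn f) = X G (fun i => D.d i f) := G.T_fn f

theorem J_β (M : Matrix (Fin n) (Fin n) A) (j : Fin n) :
    V.Y (J G M) 0 (G.β j) = - J G (M.map (D.d j)) ∧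
      ∀ k : ℕ, V.Y (J G M) (k + 1 : ℕ) (G.β j) = 0 := by
  constructor
  · have := V.skew (par_J G M) (G.par_β j) 0 1 (fun i hi => by
      obtain ⟨i, rfl⟩ := Nat.exists_eq_add_of_le' hi
      exact Yc ((β_J G j M).2 i) (by push_cast; ring))
    simp only [Finset.range_one, Finset.sum_singleton, Nat.cast_zero, add_zero,
      (β_J G j M).1] at this
    simpa using this
  · intro k
    have := V.skew (par_J G M) (G.par_β j) (k + 1) 0 (fun i _ =>
      Yc ((β_J G j M).2 (k + i)) (by push_cast; ring))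
    simpa using this

theorem X_β (h : Fin n → A) (j : Fin n) :
    V.Y (X G h) 0 (G.β j) = X G (fun l => D.d l (h j)) - X G (fun l => D.d j (h l)) ∧
    V.Y (X G h) 1 (G.β j) = G.fn (h j) ∧
      ∀ k : ℕ, V.Y (X G h) (k + 2 : ℕ) (G.β j) = 0 := by
  obtain ⟨h0, h1, h2⟩ := β_X G j h
  refine ⟨?_, ?_, ?_⟩
  · have := V.skew (par_X G h) (G.par_β j) 0 2 (fun i hi => by
      obtain ⟨i, rfl⟩ := Nat.exists_eq_add_of_le' hi
      exact Yc (h2 i) (by push_cast; ring))
    simp only [Finset.sum_range_succ, Finset.range_zero, Finset.sum_empty, Nat.cast_zero,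
      zero_add, Nat.cast_one, h0, h1] at this
    rw [← T_fn' G (h j)]
    simp at this
    rw [this]
    abel
  · have := V.skew (par_X G h) (G.par_β j) 1 1 (fun i hi => by
      obtain ⟨i, rfl⟩ := Nat.exists_eq_add_of_le' hi
      exact Yc (h2 i) (by push_cast; ring))
    simp only [Finset.range_one, Finset.sum_singleton, Nat.cast_one, add_zero, h1] at this
    simpa using this
  · intro k
    have := V.skew (par_X G h) (G.par_β j) (k + 2) 0 (fun i _ =>
      Yc (h2 (k + i)) (by push_cast; ring))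
    simpa using this

theorem J_w (M : Matrix (Fin n) (Fin n) A) (p q : Fin n) :
    V.Y (J G M) 0 (w G p q) = (∑ l, G.fm (M p l) (w G l q)) - (∑ k, G.fm (M k q) (w G p k))
      + V.T (G.fn (M p q)) ∧
    V.Y (J G M) 1 (w G p q) = G.fn (M p q) ∧
      ∀ j : ℕ, V.Y (J G M) (j + 2 : ℕ) (w G p q) = 0 := by
  have H := fun l k => Y_fm_two G (par_w G l k) (Fr_w G p q) (M k l) (w_w G l k p q).2.2
  refine ⟨?_, ?_, ?_⟩
  · have e : ∀ k l, V.Y (G.fm (M k l) (w G l k)) 0 (w G p q) =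
        (if k = p then G.fm (M p l) (w G l q) else 0) - (if l = q then G.fm (M k q) (w G p k) else 0)
        + (if k = p ∧ l = q then V.T (G.fn (M p q)) else 0) := by
      intro k l
      rw [(H l k).1, (w_w G l k p q).1, (w_w G l k p q).2.1]
      by_cases h1 : k = p <;> by_cases h2 : l = q <;> simp [h1, h2, fm, VSA.T]
    simp only [J, Y_sum, e, Finset.sum_add_distrib, Finset.sum_sub_distrib]
    congr 1
    · congr 1
      · rw [Finset.sum_comm]
        simp
      · simp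
    · simp [ite_and]
  · have e : ∀ k l, V.Y (G.fm (M k l) (w G l k)) 1 (w G p q) =
        (if k = p ∧ l = q then G.fn (M p q) else 0) := by
      intro k l
      rw [(H l k).2.1, (w_w G l k p q).2.1]
      by_cases h1 : k = p <;> by_cases h2 : l = q <;> simp [h1, h2, fm, V.create]
    simp only [J, Y_sum, e]
    simp [ite_and]
  · intro j
    simp only [J, Y_sum, (H _ _).2.2 j, Finset.sum_const_zero]

theorem J_J (M N : Matrix (Fin n) (Fin n) A) :
    V.Y (J G M) 0 (J G N) = J G (N * M) - J G (M * N) +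
      X G (fun i => (N * M.map (D.d i)).trace) ∧
    V.Y (J G M) 1 (J G N) = G.fn (M * N).trace ∧
      ∀ j : ℕ, V.Y (J G M) (j + 2 : ℕ) (J G N) = 0 := by
  have R : ∀ (m : ℤ) (f : A) (v : E), V.Y (J G M) m (G.fm f v) = G.fm f (V.Y (J G M) m v) :=
    fun m f v => Y_right G (par_J G M) f (fun j => J_fn G M j f) m v
  refine ⟨?_, ?_, ?_⟩
  · have e1 : V.Y (J G M) 0 (J G N) = ∑ q, ∑ p, (G.fm (N q p) (∑ l, G.fm (M p l) (w G l q))
        - G.fm (N q p) (∑ k, G.fm (M k q) (w G p k)) + G.fm (N q p) (V.T (G.fn (M p q)))) := by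
      rw [J.eq_1 G N]
      simp only [map_sum]
      refine Finset.sum_congr rfl fun q _ => Finset.sum_congr rfl fun p _ => ?_
      rw [R, (J_w G M p q).1]
      simp [fm]
    rw [e1]
    simp only [Finset.sum_add_distrib, Finset.sum_sub_distrib]
    congr 1
    · congr 1
      · rw [J]
        refine Finset.sum_congr rfl fun q _ => ?_
        simp only [G.fm_sum_right, G.fm_fm _ _ (Fr_w G _ _)]
        rw [Finset.sum_comm]
        refine Finset.sum_congr rfl fun l _ => ?_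
        rw [Matrix.mul_apply, G.fm_sum]
      · rw [J]
        simp only [G.fm_sum_right, G.fm_fm _ _ (Fr_w G _ _), Matrix.mul_apply, G.fm_sum]
        calc ∑ q, ∑ p, ∑ k, G.fm (N q p * M k q) (w G p k)
            = ∑ q, ∑ k, ∑ p, G.fm (N q p * M k q) (w G p k) :=
              Finset.sum_congr rfl fun q _ => Finset.sum_comm
          _ = ∑ k, ∑ q, ∑ p, G.fm (N q p * M k q) (w G p k) := Finset.sum_comm
          _ = ∑ k, ∑ p, ∑ q, G.fm (N q p * M k q) (w G p k) :=
              Finset.sum_congr rfl fun q _ => Finset.sum_comm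
          _ = _ := by
              refine Finset.sum_congr rfl fun k _ => Finset.sum_congr rfl fun p _ =>
                Finset.sum_congr rfl fun q _ => ?_
              rw [mul_comm]
    · simp only [T_fn' G, X, G.fm_sum_right, G.fm_fm _ _ (Fr_x G _), Matrix.trace,
        Matrix.diag, Matrix.mul_apply, Matrix.map_apply, G.fm_sum]
      calc ∑ q, ∑ p, ∑ l, G.fm (N q p * D.d l (M p q)) (G.x l)
            = ∑ q, ∑ l, ∑ p, G.fm (N q p * D.d l (M p q)) (G.x l) :=
              Finset.sum_congr rfl fun q _ => Finset.sum_comm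
          _ = ∑ l, ∑ q, ∑ p, G.fm (N q p * D.d l (M p q)) (G.x l) := Finset.sum_comm
  · rw [J.eq_1 G N]
    simp only [map_sum, R, (J_w G M _ _).2.1, Matrix.trace, Matrix.diag, Matrix.mul_apply]
    rw [Finset.sum_comm]
    refine Finset.sum_congr rfl fun p _ => Finset.sum_congr rfl fun q _ => ?_
    rw [fm, G.fn_mul, mul_comm]
  · intro j
    rw [J.eq_1 G N]
    simp only [map_sum, R, (J_w G M _ _).2.2 j]
    simp [fm]

/-! linearity of `J` and `X` -/

theorem fm_neg (f : A) (v : E) : G.fm (-f) v = - G.fm f v := by simp [fm]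
theorem fm_sub (f g : A) (v : E) : G.fm (f - g) v = G.fm f v - G.fm g v := by simp [fm]

theorem J_add (M N : Matrix (Fin n) (Fin n) A) : J G (M + N) = J G M + J G N := by
  simp only [J, Matrix.add_apply, G.fm_add, Finset.sum_add_distrib]
theorem J_sub (M N : Matrix (Fin n) (Fin n) A) : J G (M - N) = J G M - J G N := by
  simp only [J, Matrix.sub_apply, fm_sub, Finset.sum_sub_distrib]
theorem J_zero : J G (0 : Matrix (Fin n) (Fin n) A) = 0 := by
  simp [J, fm]
theorem X_add (h h' : Fin n → A) : X G (h + h') = X G h + X G h' := by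
  simp only [X, Pi.add_apply, G.fm_add, Finset.sum_add_distrib]
theorem X_sub (h h' : Fin n → A) : X G (h - h') = X G h - X G h' := by
  simp only [X, Pi.sub_apply, fm_sub, Finset.sum_sub_distrib]
theorem X_zero : X G (0 : Fin n → A) = 0 := by
  simp [X, fm]

/-! the matrices `a_j = g⁻¹ ∂_j g` -/

section Mat
variable (D)
/-- entrywise derivative -/
abbrev dm (i : Fin n) (M : Matrix (Fin n) (Fin n) A) : Matrix (Fin n) (Fin n) A := M.map (D.d i)

theorem dm_mul (i : Fin n) (M N : Matrix (Fin n) (Fin n) A) :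
    dm D i (M * N) = dm D i M * N + M * dm D i N := by
  ext a b
  simp only [dm, Matrix.map_apply, Matrix.mul_apply, Matrix.add_apply, map_sum,
    Derivation.leibniz, smul_eq_mul, Finset.sum_add_distrib]
  rw [add_comm]
  congr 1
  exact Finset.sum_congr rfl fun c _ => mul_comm _ _

theorem dm_comm (i j : Fin n) (M : Matrix (Fin n) (Fin n) A) :
    dm D i (dm D j M) = dm D j (dm D i M) := by
  ext a b
  simp only [dm, Matrix.map_apply]
  exact D.comm i j _

theorem dm_one (i : Fin n) : dm D i (1 : Matrix (Fin n) (Fin n) A) = 0 := by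
  ext a b
  by_cases h : a = b
  · simp [dm, h]
  · simp [dm, h]

theorem d_trace (i : Fin n) (M : Matrix (Fin n) (Fin n) A) :
    D.d i M.trace = (dm D i M).trace := by
  simp [dm, Matrix.trace, map_sum]

theorem gi_g : fr.gi * fr.g = 1 := by
  have h : fr.f.transpose * fr.e.transpose = 1 := by
    rw [← Matrix.transpose_mul, fr.e_f, Matrix.transpose_one]
  calc fr.gi * fr.g = fr.f * (fr.f.transpose * fr.e.transpose) * fr.e := by
        simp only [Frame.gi, Frame.g, Matrix.mul_assoc]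
    _ = 1 := by rw [h, Matrix.mul_one, fr.f_e]

theorem g_gi : fr.g * fr.gi = 1 := mul_eq_one_comm.mp (gi_g fr)

theorem g_symm : fr.g.transpose = fr.g := by
  simp [Frame.g, Matrix.transpose_mul]

theorem gi_symm : fr.gi.transpose = fr.gi := by
  simp [Frame.gi, Matrix.transpose_mul]

theorem dm_gi (i : Fin n) : dm D i fr.gi = - (fr.gi * dm D i fr.g * fr.gi) := by
  have h := dm_mul D i fr.gi fr.g
  rw [gi_g, dm_one] at h
  have h2 : dm D i fr.gi * fr.g * fr.gi + fr.gi * dm D i fr.g * fr.gi = 0 := by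
    rw [← Matrix.add_mul, ← h, Matrix.zero_mul]
  rw [Matrix.mul_assoc, g_gi, Matrix.mul_one] at h2
  exact eq_neg_of_add_eq_zero_left h2

end Mat

theorem am_eq (j : Fin n) : G.am fr j = fr.gi * dm D j fr.g := rfl

theorem dm_am (i j : Fin n) :
    dm D i (G.am fr j) = fr.gi * dm D i (dm D j fr.g) - G.am fr i * G.am fr j := by
  rw [am_eq, am_eq, dm_mul, dm_gi]
  noncomm_ring

theorem curl (i j : Fin n) :
    dm D i (G.am fr j) - dm D j (G.am fr i) = G.am fr j * G.am fr i - G.am fr i * G.am fr j := by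
  rw [dm_am, dm_am, dm_comm D j i]
  abel

/-- symmetry of the metric: the trace of a triple product is invariant under reversal -/
theorem trace3 (i j l : Fin n) :
    (G.am fr i * G.am fr j * G.am fr l).trace = (G.am fr j * G.am fr i * G.am fr l).trace := by
  have hs : ∀ i, (dm D i fr.g).transpose = dm D i fr.g := fun i => by
    rw [dm, ← Matrix.transpose_map, g_symm]
  rw [← Matrix.trace_transpose]
  simp only [am_eq, Matrix.transpose_mul, hs, gi_symm]
  have e : dm D l fr.g * fr.gi * (dm D j fr.g * fr.gi * (dm D i fr.g * fr.gi)) =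
      dm D l fr.g * (fr.gi * dm D j fr.g * (fr.gi * dm D i fr.g) * fr.gi) := by
    simp only [Matrix.mul_assoc]
  rw [e, Matrix.trace_mul_comm]
  simp only [Matrix.mul_assoc]

theorem hh_eq (j l : Fin n) :
    G.hh fr j l = (-(1/2) : ℂ) • (G.am fr j * G.am fr l).trace := rfl

theorem hh_symm (j l : Fin n) : G.hh fr j l = G.hh fr l j := by
  rw [hh_eq, hh_eq, Matrix.trace_mul_comm]

theorem d_hh (i j l : Fin n) : D.d i (G.hh fr j l) = (-(1/2) : ℂ) •
    ((dm D i (G.am fr j) * G.am fr l).trace + (G.am fr j * dm D i (G.am fr l)).trace) := by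
  rw [hh_eq, Derivation.map_smul, d_trace, dm_mul, Matrix.trace_add]

theorem h_identity (i j l : Fin n) :
    D.d i (G.hh fr j l) + (G.am fr j * dm D l (G.am fr i)).trace - D.d j (G.hh fr i l)
      + D.d l (G.hh fr j i) = 0 := by
  have c1 := congrArg (fun M => (M * G.am fr l).trace) (curl G fr i j)
  have c2 := congrArg (fun M => (G.am fr j * M).trace) (curl G fr i l)
  have c3 := congrArg (fun M => (G.am fr i * M).trace) (curl G fr l j)
  simp only [Matrix.sub_mul, Matrix.mul_sub, Matrix.trace_sub] at c1 c2 c3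
  rw [d_hh, d_hh, d_hh]
  have t1 : (dm D l (G.am fr j) * G.am fr i).trace = (G.am fr i * dm D l (G.am fr j)).trace :=
    Matrix.trace_mul_comm _ _
  rw [t1]
  have P1 : (G.am fr j * G.am fr i * G.am fr l).trace = (G.am fr i * G.am fr j * G.am fr l).trace :=
    (trace3 G fr i j l).symm
  have P2 : (G.am fr j * (G.am fr l * G.am fr i)).trace =
      (G.am fr i * G.am fr j * G.am fr l).trace := by
    rw [Matrix.trace_mul_comm, Matrix.mul_assoc, Matrix.trace_mul_comm]
  have P3 : (G.am fr j * (G.am fr i * G.am fr l)).trace =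
      (G.am fr i * G.am fr j * G.am fr l).trace := by
    rw [← Matrix.mul_assoc, P1]
  have P4 : (G.am fr i * (G.am fr j * G.am fr l)).trace =
      (G.am fr i * G.am fr j * G.am fr l).trace := by
    rw [← Matrix.mul_assoc]
  have P5 : (G.am fr i * (G.am fr l * G.am fr j)).trace =
      (G.am fr i * G.am fr j * G.am fr l).trace := by
    rw [Matrix.trace_mul_comm, Matrix.mul_assoc, Matrix.trace_mul_comm, P1]
  rw [P1, sub_self, sub_eq_zero] at c1
  rw [P2, P3, sub_self, sub_eq_zero] at c2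
  rw [P4, P5, sub_self, sub_eq_zero] at c3
  rw [c1, c2, c3]
  module

theorem bh_bh_zero (i j : Fin n) : V.Y (G.bh fr i) 0 (G.bh fr j) = 0 := by
  have ββ : V.Y (G.β i) 0 (G.β j) = 0 := G.β_β 0 i j
  have JX : V.Y (J G (G.am fr i)) 0 (X G (G.hh fr j)) = 0 := J_X G _ _ 0
  have XJ : V.Y (X G (G.hh fr i)) 0 (J G (G.am fr j)) = 0 := X_J G _ _ 0
  have XX : V.Y (X G (G.hh fr i)) 0 (X G (G.hh fr j)) = 0 := X_X G _ _ 0
  have e : V.Y (G.bh fr i) 0 (G.bh fr j) =
      - J G (dm D i (G.am fr j)) + X G (fun l => D.d i (G.hh fr j l))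
      + J G (dm D j (G.am fr i))
      + (J G (G.am fr j * G.am fr i) - J G (G.am fr i * G.am fr j)
        + X G (fun l => (G.am fr j * dm D l (G.am fr i)).trace))
      + (X G (fun l => D.d l (G.hh fr i j)) - X G (fun l => D.d j (G.hh fr i l))) := by
    rw [bh_eq, bh_eq]
    simp only [map_add, map_sub, Pi.add_apply, Pi.sub_apply, LinearMap.add_apply,
      LinearMap.sub_apply, ββ, JX, XJ, XX, (β_J G i _).1, (β_X G i _).1, (J_β G _ j).1,
      (X_β G _ j).1, (J_J G _ _).1]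
    abel
  rw [e]
  have c := congrArg (J G) (curl G fr i j)
  rw [J_sub, J_sub] at c
  have h : X G ((fun l => D.d i (G.hh fr j l)) + (fun l => (G.am fr j * dm D l (G.am fr i)).trace)
      - (fun l => D.d j (G.hh fr i l)) + (fun l => D.d l (G.hh fr i j))) = 0 := by
    rw [← X_zero G]
    congr 1
    funext l
    simp only [Pi.add_apply, Pi.sub_apply, Pi.zero_apply]
    rw [hh_symm G fr i j]
    exact h_identity G fr i j l
  rw [X_add, X_sub, X_add] at h
  have c' := sub_eq_zero.mpr c.symm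
  have s := congrArg₂ (· + ·) c' h
  simp only [add_zero] at s
  rw [← s]
  abel

theorem bh_bh_one (i j : Fin n) : V.Y (G.bh fr i) 1 (G.bh fr j) = 0 := by
  have ββ : V.Y (G.β i) 1 (G.β j) = 0 := G.β_β 1 i j
  have JX : V.Y (J G (G.am fr i)) 1 (X G (G.hh fr j)) = 0 := J_X G _ _ 1
  have XJ : V.Y (X G (G.hh fr i)) 1 (J G (G.am fr j)) = 0 := X_J G _ _ 1
  have XX : V.Y (X G (G.hh fr i)) 1 (X G (G.hh fr j)) = 0 := X_X G _ _ 1
  have βJ : V.Y (G.β i) 1 (J G (G.am fr j)) = 0 := (β_J G i _).2 0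
  have Jβ : V.Y (J G (G.am fr i)) 1 (G.β j) = 0 := (J_β G _ j).2 0
  rw [bh_eq, bh_eq]
  simp only [map_add, map_sub, Pi.add_apply, Pi.sub_apply, LinearMap.add_apply,
      LinearMap.sub_apply, ββ, JX, XJ, XX, βJ, Jβ, (β_X G i _).2.1,
      (X_β G _ j).2.1, (J_J G _ _).2.1]
  rw [hh_symm G fr i j, hh_eq, Matrix.trace_mul_comm (G.am fr j), map_smul]
  module

theorem bh_bh_two (i j : Fin n) (k : ℕ) : V.Y (G.bh fr i) (k + 2 : ℕ) (G.bh fr j) = 0 := by
  rw [bh_eq, bh_eq]
  simp only [map_add, map_sub, Pi.add_apply, Pi.sub_apply, LinearMap.add_apply,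
      LinearMap.sub_apply, G.β_β, J_X, X_J, X_X, (β_J G i _).2 (k + 1), (β_X G i _).2.2 k,
      (J_β G _ j).2 (k + 1), (X_β G _ j).2.2 k, (J_J G _ _).2.2 k]
  simp

end C2

open C2

theorem par_bh (i : Fin n) : V.Par 0 (G.bh fr i) := by
  have h1 := G.par_β i
  have h2 := par_J G (G.am fr i)
  have h3 := par_X G (G.hh fr i)
  rw [bh_eq]
  unfold VSA.Par at *
  rw [map_add, map_sub, h1, h2, h3]
  simp

theorem bh_fn (i : Fin n) (f : A) : V.Y (G.bh fr i) 0 (G.fn f) = G.fn (D.d i f) ∧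
    ∀ k : ℕ, V.Y (G.bh fr i) (k + 1 : ℕ) (G.fn f) = 0 := by
  constructor
  · have h1 : V.Y (G.β i) 0 (G.fn f) = G.fn (D.d i f) := G.β_fn_zero i f
    have h2 : V.Y (J G (G.am fr i)) 0 (G.fn f) = 0 := J_fn G _ 0 f
    have h3 : V.Y (X G (G.hh fr i)) 0 (G.fn f) = 0 := X_fn G _ 0 f
    rw [bh_eq]
    simp only [map_add, map_sub, Pi.add_apply, Pi.sub_apply, LinearMap.add_apply,
      LinearMap.sub_apply, h1, h2, h3, sub_zero, add_zero]
  · intro k
    rw [bh_eq]
    simp only [map_add, map_sub, Pi.add_apply, Pi.sub_apply, LinearMap.add_apply,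
      LinearMap.sub_apply, G.β_fn_succ, J_fn, X_fn, sub_zero, add_zero]

theorem bh_x (i j : Fin n) (k : ℕ) :
    V.Y (G.bh fr i) k (G.x j) = if k = 1 ∧ i = j then V.vac else 0 := by
  rw [bh_eq]
  simp only [map_add, map_sub, Pi.add_apply, Pi.sub_apply, LinearMap.add_apply,
      LinearMap.sub_apply, G.β_x, J_x, X_x, sub_zero, add_zero]

/-- the hatted field acts on `f u` by the Leibniz rule -/
theorem C2.bh_fm (i : Fin n) (f : A) (m : ℤ) (v : E) :
    V.Y (G.bh fr i) m (G.fm f v) = G.fm f (V.Y (G.bh fr i) m v) + V.Y (G.fn (D.d i f)) (m - 1) v :=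
  Y_right' G (par_bh G fr i) f _ (bh_fn G fr i f).1 (bh_fn G fr i f).2 m v

theorem C2.bh_b (i j : Fin n) :
    V.Y (G.bh fr i) 0 (G.b j) = ∑ k, G.fm (G.am fr i k j) (G.b k) ∧
      ∀ k : ℕ, V.Y (G.bh fr i) (k + 1 : ℕ) (G.b j) = 0 := by
  constructor
  · have h1 : V.Y (G.β i) 0 (G.b j) = 0 := G.β_b 0 i j
    have h3 : V.Y (X G (G.hh fr i)) 0 (G.b j) = 0 := X_b G _ 0 j
    rw [bh_eq]
    simp only [map_add, map_sub, Pi.add_apply, Pi.sub_apply, LinearMap.add_apply,
      LinearMap.sub_apply, h1, (J_b G _ j).1, h3]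
    simp
  · intro k
    rw [bh_eq]
    simp only [map_add, map_sub, Pi.add_apply, Pi.sub_apply, LinearMap.add_apply,
      LinearMap.sub_apply, G.β_b, (J_b G _ j).2, X_b, sub_zero, add_zero]

theorem C2.bh_c (i j : Fin n) :
    V.Y (G.bh fr i) 0 (G.c j) = -∑ l, G.fm (G.am fr i j l) (G.c l) ∧
      ∀ k : ℕ, V.Y (G.bh fr i) (k + 1 : ℕ) (G.c j) = 0 := by
  constructor
  · have h1 : V.Y (G.β i) 0 (G.c j) = 0 := G.β_c 0 i j
    have h3 : V.Y (X G (G.hh fr i)) 0 (G.c j) = 0 := X_c G _ 0 j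
    rw [bh_eq]
    simp only [map_add, map_sub, Pi.add_apply, Pi.sub_apply, LinearMap.add_apply,
      LinearMap.sub_apply, h1, (J_c G _ j).1, h3]
    simp
  · intro k
    rw [bh_eq]
    simp only [map_add, map_sub, Pi.add_apply, Pi.sub_apply, LinearMap.add_apply,
      LinearMap.sub_apply, G.β_c, (J_c G _ j).2, X_c, sub_zero, add_zero]

theorem bh_bu (i j : Fin n) (k : ℕ) : V.Y (G.bh fr i) k (G.bu fr j) = 0 := by
  rcases k with _ | k
  · simp only [bu, map_sum]
    have e : ∀ m, V.Y (G.bh fr i) (0 : ℕ) (G.fm (fr.gi j m) (G.b m)) =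
        ∑ k, G.fm (fr.gi j m * G.am fr i k m) (G.b k) + G.fm (D.d i (fr.gi j m)) (G.b m) := by
      intro m
      rw [bh_fm]
      simp only [Nat.cast_zero, (bh_b G fr i m).1, G.fm_sum_right, G.fm_fm _ _ (Fr_b G _)]
      rfl
    simp only [e, Finset.sum_add_distrib]
    rw [Finset.sum_comm, ← Finset.sum_add_distrib]
    refine Finset.sum_eq_zero fun k _ => ?_
    rw [← G.fm_sum, ← G.fm_add]
    have : ∑ m, fr.gi j m * G.am fr i k m + D.d i (fr.gi j k) = 0 := by
      have h := congrFun (congrFun (dm_gi D fr i) k) j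
      have gs : ∀ a b, fr.gi a b = fr.gi b a := fun a b => congrFun (congrFun (gi_symm fr) b) a
      rw [gs j k]
      have h3 : D.d i (fr.gi k j) = -(fr.gi * dm D i fr.g * fr.gi) k j := h
      rw [h3, Matrix.mul_apply]
      simp only [← am_eq (G := G)]
      rw [← sub_eq_add_neg, sub_eq_zero]
      refine Finset.sum_congr rfl fun m _ => ?_
      rw [mul_comm, gs j m]
    rw [this]
    simp [fm]
  · simp only [bu, map_sum]
    refine Finset.sum_eq_zero fun m _ => ?_
    have e : ((k + 1 : ℕ) : ℤ) - 1 = (k : ℤ) := by push_cast; ring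
    rw [bh_fm, (bh_b G fr i m).2, e, Fr_b G m k]
    simp [fm]

theorem bh_cd (i j : Fin n) (k : ℕ) : V.Y (G.bh fr i) k (G.cd fr j) = 0 := by
  rcases k with _ | k
  · simp only [cd, map_sum]
    have e : ∀ m, V.Y (G.bh fr i) (0 : ℕ) (G.fm (fr.g j m) (G.c m)) =
        -∑ k, G.fm (fr.g j m * G.am fr i m k) (G.c k) + G.fm (D.d i (fr.g j m)) (G.c m) := by
      intro m
      rw [bh_fm]
      simp only [Nat.cast_zero, (bh_c G fr i m).1]
      rw [show G.fm (fr.g j m) (-∑ l, G.fm (G.am fr i m l) (G.c l)) =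
        -G.fm (fr.g j m) (∑ l, G.fm (G.am fr i m l) (G.c l)) by simp [fm]]
      simp only [G.fm_sum_right, G.fm_fm _ _ (Fr_c G _)]
      rfl
    simp only [e, Finset.sum_add_distrib, Finset.sum_neg_distrib]
    rw [Finset.sum_comm, ← Finset.sum_neg_distrib, ← Finset.sum_add_distrib]
    refine Finset.sum_eq_zero fun k _ => ?_
    rw [← G.fm_sum, ← fm_neg, ← G.fm_add]
    have : -∑ m, fr.g j m * G.am fr i m k + D.d i (fr.g j k) = 0 := by
      have h : fr.g * G.am fr i = dm D i fr.g := by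
        rw [am_eq, ← Matrix.mul_assoc, g_gi, Matrix.one_mul]
      have h2 := congrFun (congrFun h j) k
      rw [Matrix.mul_apply] at h2
      rw [h2]
      simp [dm]
    rw [this]
    simp [fm]
  · simp only [cd, map_sum]
    refine Finset.sum_eq_zero fun m _ => ?_
    have e : ((k + 1 : ℕ) : ℤ) - 1 = (k : ℤ) := by push_cast; ring
    rw [bh_fm, (bh_c G fr i m).2, e, Fr_c G m k]
    simp [fm]

theorem bh_bh (i j : Fin n) (k : ℕ) : V.Y (G.bh fr i) k (G.bh fr j) = 0 := by
  rcases k with _ | _ | k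
  · exact bh_bh_zero G fr i j
  · exact bh_bh_one G fr i j
  · exact bh_bh_two G fr i j k


end CD
end Pool.Agent.AA3
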