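import Pool.Agent.Lib.MP_aa3aaf_al.CFrame
import Pool.Agent.Lib.MP_aa3aaf_al.CHat
import Pool.Agent.Lib.MP_aa3aaf_al.CZero

/-!
Task C4: the formula for `X₁ ψ^a` and `X₂ ψ^a = 0`.
-/

set_option autoImplicit false
open scoped BigOperators
noncomputable section
namespace Pool.Agent.AA3
namespace CD
variable {n : ℕ} {A : Type*} [CommRing A] [Algebra ℂ A] {D : DS n A}
  {E : Type*} [AddCommGroup E] [Module ℂ E] {V : VSA E} (G : CD n D V) (fr : Frame n A)

namespace C4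

/-- products of odd states are regular -/
lemma fr_mul {u v : E} (hu : G.Odd1 u) (hv : G.Odd1 v) : G.Fr (V.mul u v) := by
  intro k f
  show V.Y (G.fn f) k (V.Y u (-1) v) = 0
  rw [← C1.odd_fn_comm G hu f (-1) k v, hv.fn_u, map_zero]

/-- the product of two function-linear combinations -/
lemma mul_sum_fm (p q : Fin n → A) (u v : Fin n → E) (hu : ∀ b, G.Odd1 (u b))
    (hv : ∀ d, G.Odd1 (v d)) (r : Fin n → Fin n → A)
    (h0 : ∀ b d, V.Y (u b) 0 (v d) = G.fn (r b d))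
    (h1 : ∀ b d, ∀ k : ℕ, V.Y (u b) (k + 1 : ℕ) (v d) = 0) :
    V.mul (∑ b, G.fm (p b) (u b)) (∑ d, G.fm (q d) (v d))
      = (∑ b, ∑ d, G.fm (p b * q d) (V.mul (u b) (v d)))
        + ∑ l, G.fm (∑ b, ∑ d, q d * (D.d l (p b) * r b d)) (G.x l) := by
  have key : ∀ b d, V.mul (G.fm (p b) (u b)) (G.fm (q d) (v d)) =
      G.fm (p b * q d) (V.mul (u b) (v d))
        + ∑ l, G.fm (q d * (D.d l (p b) * r b d)) (G.x l) := by
    intro b d
    rw [G.mul_fm_right (Odd1.fm G _ (hu b)) (hv d),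
      G.mul_fm_left (hu b) (hv d) (r b d) (h0 b d) (h1 b d), G.fm_add_right,
      G.fm_fm _ _ (fr_mul G (hu b) (hv d)), mul_comm (q d) (p b), G.fm_sum_right]
    congr 1
    exact Finset.sum_congr rfl fun l _ => G.fm_fm _ _ (C1.fr_x G l)
  have e : V.mul (∑ b, G.fm (p b) (u b)) (∑ d, G.fm (q d) (v d))
      = ∑ b, ∑ d, V.mul (G.fm (p b) (u b)) (G.fm (q d) (v d)) := by
    rw [map_sum V.mul, LinearMap.sum_apply]
    exact Finset.sum_congr rfl fun b _ => map_sum _ _ _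
  rw [e]
  simp only [key, Finset.sum_add_distrib]
  congr 1
  calc ∑ b, ∑ d, ∑ l, G.fm (q d * (D.d l (p b) * r b d)) (G.x l)
      = ∑ b, ∑ l, ∑ d, G.fm (q d * (D.d l (p b) * r b d)) (G.x l) :=
        Finset.sum_congr rfl fun b _ => Finset.sum_comm
    _ = ∑ l, ∑ b, ∑ d, G.fm (q d * (D.d l (p b) * r b d)) (G.x l) := Finset.sum_comm
    _ = _ := by
      refine Finset.sum_congr rfl fun l _ => ?_
      simp only [G.fm_sum]

/-- an odd derivation on `f v` -/
lemma odd_fm {X : E →ₗ[ℂ] E} (hX : ODer V X) (f : A) (v : E) :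
    X (G.fm f v) = V.mul (X (G.fn f)) v + G.fm f (X v) := by
  have h := hX.2 0 (G.fn f) (-1) v (G.par_fn f)
  rw [pow_zero, one_smul] at h
  exact h

/-- the frame derivative -/
def Ed (fr : Frame n A) (D : DS n A) (b : Fin n) (f : A) : A := ∑ j, D.d j f * fr.f j b

lemma Q1_fn' (f : A) : G.Q1 (G.fn f) = ∑ b, G.fm (Ed fr D b f) (G.C fr b) := by
  have h := C1.sum_fm_sum G (fun i => D.d i f) fr.f (G.C fr)
    (fun b => C1.fr_odd G (G.odd_C fr b))
  rw [G.Q1_fn]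
  refine Eq.trans ?_ h
  exact Finset.sum_congr rfl fun i _ => by rw [G.c_eq fr i]

lemma nm_fn' (f : A) : G.nm fr (G.fn f) = ∑ b, G.fm (Ed fr D b f) (G.B fr b) := by
  have h := C1.sum_fm_sum G (fun i => D.d i f) fr.f (G.B fr)
    (fun b => C1.fr_odd G (G.odd_B fr b))
  rw [G.nm_fn]
  refine Eq.trans ?_ h
  exact Finset.sum_congr rfl fun i _ => by rw [G.bu_eq fr i]

/-- `Kronecker` residues -/
def dl (b d : Fin n) : A := if b = d then 1 else 0

lemma C_B0 (b d : Fin n) : V.Y (G.C fr b) 0 (G.B fr d) = G.fn (dl b d) := by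
  have h := G.C_B fr b d 0
  rw [Nat.cast_zero] at h
  rw [h, dl]
  by_cases hbd : b = d
  · simp [hbd, G.fn_one]
  · simp [hbd]

lemma B_C0 (b d : Fin n) : V.Y (G.B fr b) 0 (G.C fr d) = G.fn (dl b d) := by
  have h := G.B_C fr b d 0
  rw [Nat.cast_zero] at h
  rw [h, dl]
  by_cases hbd : b = d
  · simp [hbd, G.fn_one]
  · simp [hbd]

lemma C_B1 (b d : Fin n) (k : ℕ) : V.Y (G.C fr b) (k + 1 : ℕ) (G.B fr d) = 0 := by
  rw [G.C_B fr b d (k + 1)]; simp

lemma B_C1 (b d : Fin n) (k : ℕ) : V.Y (G.B fr b) (k + 1 : ℕ) (G.C fr d) = 0 := by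
  rw [G.B_C fr b d (k + 1)]; simp

lemma C_C0 (b d : Fin n) : V.Y (G.C fr b) 0 (G.C fr d) = G.fn 0 := by
  rw [map_zero]; exact G.C_C fr b d 0

lemma B_B0 (b d : Fin n) : V.Y (G.B fr b) 0 (G.B fr d) = G.fn 0 := by
  rw [map_zero]; exact G.B_B fr b d 0

/-- the product of two combinations of the `C` -/
lemma mulCC (p q : Fin n → A) :
    V.mul (∑ b, G.fm (p b) (G.C fr b)) (∑ d, G.fm (q d) (G.C fr d))
      = ∑ b, ∑ d, G.fm (p b * q d) (V.mul (G.C fr b) (G.C fr d)) := by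
  rw [mul_sum_fm G p q _ _ (G.odd_C fr) (G.odd_C fr) (fun _ _ => 0) (C_C0 G fr)
    (fun b d k => G.C_C fr b d (k + 1))]
  simp [C1.fm_zero]

lemma mulBB (p q : Fin n → A) :
    V.mul (∑ b, G.fm (p b) (G.B fr b)) (∑ d, G.fm (q d) (G.B fr d))
      = ∑ b, ∑ d, G.fm (p b * q d) (V.mul (G.B fr b) (G.B fr d)) := by
  rw [mul_sum_fm G p q _ _ (G.odd_B fr) (G.odd_B fr) (fun _ _ => 0) (B_B0 G fr)
    (fun b d k => G.B_B fr b d (k + 1))]
  simp [C1.fm_zero]

/-- the anomaly term -/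
def an (p q : Fin n → A) : E := ∑ l, G.fm (∑ b, q b * D.d l (p b)) (G.x l)

lemma an_aux (p q : Fin n → A) (l : Fin n) :
    ∑ b, ∑ d, q d * (D.d l (p b) * dl b d) = ∑ b, q b * D.d l (p b) := by
  refine Finset.sum_congr rfl fun b _ => ?_
  simp [dl]

lemma mulCB (p q : Fin n → A) :
    V.mul (∑ b, G.fm (p b) (G.C fr b)) (∑ d, G.fm (q d) (G.B fr d))
      = (∑ b, ∑ d, G.fm (p b * q d) (V.mul (G.C fr b) (G.B fr d))) + an G p q := by
  rw [mul_sum_fm G p q _ _ (G.odd_C fr) (G.odd_B fr) dl (C_B0 G fr) (C_B1 G fr), an]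
  simp only [an_aux]

lemma mulBC (p q : Fin n → A) :
    V.mul (∑ b, G.fm (p b) (G.B fr b)) (∑ d, G.fm (q d) (G.C fr d))
      = (∑ b, ∑ d, G.fm (p b * q d) (V.mul (G.B fr b) (G.C fr d))) + an G p q := by
  rw [mul_sum_fm G p q _ _ (G.odd_B fr) (G.odd_C fr) dl (B_C0 G fr) (B_C1 G fr), an]
  simp only [an_aux]

/-! the matrices `S_i = (∂_i e) e⁻¹` -/

/-- `S_i = (∂_i e) e⁻¹` -/
def Sm (fr : Frame n A) (D : DS n A) (i : Fin n) : Matrix (Fin n) (Fin n) A :=
  C2.dm D i fr.e * fr.f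

lemma s_eq (c a b : Fin n) : fr.s D c a b = ∑ i, fr.f i c * Sm fr D i a b := by
  rw [Frame.s]
  refine Finset.sum_congr rfl fun i _ => ?_
  rw [Sm, Matrix.mul_apply, Finset.mul_sum]
  refine Finset.sum_congr rfl fun j _ => ?_
  rw [C2.dm, Matrix.map_apply, mul_assoc]

lemma s_eq' (c a b : Fin n) : ∑ i, Ed fr D c (fr.e a i) * fr.f i b = fr.s D c a b := by
  rw [Frame.s]
  simp only [Ed, Finset.sum_mul]
  rw [Finset.sum_comm]
  refine Finset.sum_congr rfl fun i _ => Finset.sum_congr rfl fun j _ => ?_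
  ring

lemma Ed_mul (b : Fin n) (x y : A) : Ed fr D b (x * y) = Ed fr D b x * y + x * Ed fr D b y := by
  simp only [Ed, Finset.sum_mul, Finset.mul_sum, ← Finset.sum_add_distrib]
  refine Finset.sum_congr rfl fun j _ => ?_
  rw [Derivation.leibniz, smul_eq_mul, smul_eq_mul]
  ring

lemma Ed_sum (b : Fin n) (x : Fin n → A) : Ed fr D b (∑ i, x i) = ∑ i, Ed fr D b (x i) := by
  simp only [Ed, map_sum, Finset.sum_mul]
  exact Finset.sum_comm

lemma s_eq_neg (b d a : Fin n) : ∑ i, Ed fr D b (fr.f i a) * fr.e d i = -fr.s D b d a := by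
  have h1 : ∑ i, fr.e d i * fr.f i a = if d = a then 1 else 0 := by
    rw [← Matrix.one_apply, ← fr.e_f, Matrix.mul_apply]
  have h2 : Ed fr D b (∑ i, fr.e d i * fr.f i a) = 0 := by
    rw [h1]
    by_cases h : d = a <;> simp [h, Ed]
  rw [Ed_sum] at h2
  simp only [Ed_mul, Finset.sum_add_distrib, s_eq'] at h2
  have h3 : ∑ i, Ed fr D b (fr.f i a) * fr.e d i = ∑ i, fr.e d i * Ed fr D b (fr.f i a) :=
    Finset.sum_congr rfl fun i _ => mul_comm _ _
  exact h3.trans (eq_neg_of_add_eq_zero_right h2)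

lemma e_am_f (i : Fin n) : fr.e * G.am fr i * fr.f = Sm fr D i + (Sm fr D i).transpose := by
  have h1 : fr.e * fr.gi = fr.f.transpose := by
    rw [Frame.gi, ← Matrix.mul_assoc, fr.e_f, Matrix.one_mul]
  have h2 : fr.f.transpose * fr.e.transpose = 1 := by
    rw [← Matrix.transpose_mul, fr.e_f, Matrix.transpose_one]
  have h3 : C2.dm D i fr.e.transpose = (C2.dm D i fr.e).transpose := by
    rw [C2.dm, C2.dm, Matrix.transpose_map]
  rw [C2.am_eq, ← Matrix.mul_assoc, h1, Frame.g, C2.dm_mul, h3, Sm, Matrix.mul_add,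
    Matrix.add_mul, add_comm]
  congr 1
  · rw [← Matrix.mul_assoc, h2, Matrix.one_mul]
  · rw [Matrix.mul_assoc, Matrix.mul_assoc, fr.e_f, Matrix.mul_one, Matrix.transpose_mul]

lemma am_eq_S (i : Fin n) :
    G.am fr i = fr.f * (Sm fr D i + (Sm fr D i).transpose) * fr.e := by
  rw [← e_am_f G fr i]
  calc G.am fr i = (fr.f * fr.e) * G.am fr i * (fr.f * fr.e) := by
        rw [fr.f_e, Matrix.one_mul, Matrix.mul_one]
    _ = _ := by simp only [Matrix.mul_assoc]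

lemma dm_f (i : Fin n) : C2.dm D i fr.f * fr.e = -(fr.f * C2.dm D i fr.e) := by
  have h := C2.dm_mul D i fr.f fr.e
  rw [fr.f_e, C2.dm_one] at h
  exact eq_neg_of_add_eq_zero_left h.symm

lemma trace_eq (i m : Fin n) :
    (G.am fr i * (C2.dm D m fr.f * fr.e)).trace = G.hh fr i m := by
  have h1 : (G.am fr i * (fr.f * C2.dm D m fr.e)).trace
      = ((Sm fr D i + (Sm fr D i).transpose) * Sm fr D m).trace := by
    rw [am_eq_S G fr i]
    have e : fr.f * (Sm fr D i + (Sm fr D i).transpose) * fr.e * (fr.f * C2.dm D m fr.e)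
        = fr.f * ((Sm fr D i + (Sm fr D i).transpose) * (fr.e * fr.f) * C2.dm D m fr.e) := by
      simp only [Matrix.mul_assoc]
    rw [e, fr.e_f, Matrix.mul_one, Matrix.trace_mul_comm, Matrix.mul_assoc]
    rfl
  have h2 : (G.am fr i * G.am fr m).trace
      = ((Sm fr D i + (Sm fr D i).transpose) * (Sm fr D m + (Sm fr D m).transpose)).trace := by
    rw [am_eq_S G fr i, am_eq_S G fr m]
    have e : fr.f * (Sm fr D i + (Sm fr D i).transpose) * fr.e *
        (fr.f * (Sm fr D m + (Sm fr D m).transpose) * fr.e)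
        = fr.f * ((Sm fr D i + (Sm fr D i).transpose) * (fr.e * fr.f) *
          (Sm fr D m + (Sm fr D m).transpose) * fr.e) := by
      simp only [Matrix.mul_assoc]
    rw [e, fr.e_f, Matrix.mul_one, Matrix.trace_mul_comm, Matrix.mul_assoc, Matrix.mul_assoc,
      fr.e_f, Matrix.mul_one]
  have h3 : ((Sm fr D i + (Sm fr D i).transpose) * (Sm fr D m).transpose).trace
      = ((Sm fr D i + (Sm fr D i).transpose) * Sm fr D m).trace := by
    rw [← Matrix.trace_transpose, Matrix.transpose_mul, Matrix.transpose_add,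
      Matrix.transpose_transpose, Matrix.transpose_transpose, Matrix.trace_mul_comm, add_comm]
  rw [dm_f, Matrix.mul_neg, Matrix.trace_neg, h1, C2.hh_eq, h2, Matrix.mul_add,
    Matrix.trace_add, h3]
  module

/-! reordering of sums -/

lemma sum3 (F : Fin n → Fin n → Fin n → A) (R : Fin n → Fin n → E) :
    ∑ i, ∑ b, ∑ d, G.fm (F i b d) (R b d) = ∑ b, ∑ d, G.fm (∑ i, F i b d) (R b d) := by
  rw [Finset.sum_comm]
  refine Finset.sum_congr rfl fun b _ => ?_
  rw [Finset.sum_comm]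
  exact Finset.sum_congr rfl fun d _ => (G.fm_sum _ _ _).symm

omit [Module ℂ E] in
lemma sum4 (F : Fin n → Fin n → Fin n → Fin n → E) :
    ∑ k, ∑ l, ∑ b, ∑ d, F k l b d = ∑ b, ∑ d, ∑ k, ∑ l, F k l b d := by
  calc ∑ k, ∑ l, ∑ b, ∑ d, F k l b d = ∑ k, ∑ b, ∑ l, ∑ d, F k l b d :=
        Finset.sum_congr rfl fun k _ => Finset.sum_comm
    _ = ∑ b, ∑ k, ∑ l, ∑ d, F k l b d := Finset.sum_comm
    _ = ∑ b, ∑ k, ∑ d, ∑ l, F k l b d :=
        Finset.sum_congr rfl fun b _ => Finset.sum_congr rfl fun k _ => Finset.sum_comm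
    _ = ∑ b, ∑ d, ∑ k, ∑ l, F k l b d := Finset.sum_congr rfl fun b _ => Finset.sum_comm

/-- the difference of `β_i` and its hat in the frame -/
lemma β_sub_bh (i : Fin n) : G.β i - G.bh fr i
    = ∑ b, ∑ d, G.fm (Sm fr D i d b + Sm fr D i b d) (V.mul (G.C fr b) (G.B fr d)) := by
  have h1 : ∀ k l, G.fm (G.am fr i k l) (V.mul (G.c l) (G.b k))
      = (∑ b, ∑ d, G.fm (G.am fr i k l * (fr.f l b * fr.e d k))
          (V.mul (G.C fr b) (G.B fr d)))
        + ∑ m, G.fm (G.am fr i k l * ∑ b, fr.e b k * D.d m (fr.f l b)) (G.x m) := by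
    intro k l
    rw [G.c_eq fr l, G.b_eq fr k, mulCB G fr (fun b => fr.f l b) (fun d => fr.e d k),
      G.fm_add_right, an]
    simp only [G.fm_sum_right, G.fm_fm _ _ (fr_mul G (G.odd_C fr _) (G.odd_B fr _)),
      G.fm_fm _ _ (C1.fr_x G _)]
  have h2 : ∑ k, ∑ l, G.fm (G.am fr i k l) (V.mul (G.c l) (G.b k))
      = (∑ b, ∑ d, G.fm (Sm fr D i d b + Sm fr D i b d) (V.mul (G.C fr b) (G.B fr d)))
        + ∑ m, G.fm (G.hh fr i m) (G.x m) := by
    simp only [h1, Finset.sum_add_distrib]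
    congr 1
    · rw [sum4]
      refine Finset.sum_congr rfl fun b _ => Finset.sum_congr rfl fun d _ => ?_
      simp only [← G.fm_sum]
      congr 1
      have h := congrFun (congrFun (e_am_f G fr i) d) b
      rw [Matrix.add_apply, Matrix.transpose_apply] at h
      rw [← h, Matrix.mul_apply, Finset.sum_comm]
      refine Finset.sum_congr rfl fun l _ => ?_
      rw [Matrix.mul_apply, Finset.sum_mul]
      refine Finset.sum_congr rfl fun k _ => ?_
      ring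
    · calc ∑ k, ∑ l, ∑ m, G.fm (G.am fr i k l * ∑ b, fr.e b k * D.d m (fr.f l b)) (G.x m)
          = ∑ k, ∑ m, ∑ l, G.fm (G.am fr i k l * ∑ b, fr.e b k * D.d m (fr.f l b)) (G.x m) :=
            Finset.sum_congr rfl fun k _ => Finset.sum_comm
        _ = ∑ m, ∑ k, ∑ l, G.fm (G.am fr i k l * ∑ b, fr.e b k * D.d m (fr.f l b)) (G.x m) :=
            Finset.sum_comm
        _ = _ := by
          refine Finset.sum_congr rfl fun m _ => ?_
          simp only [← G.fm_sum]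
          congr 1
          rw [← trace_eq G fr i m, Matrix.trace]
          refine Finset.sum_congr rfl fun k _ => ?_
          rw [Matrix.diag_apply, Matrix.mul_apply]
          refine Finset.sum_congr rfl fun l _ => ?_
          rw [Matrix.mul_apply]
          congr 1
          refine Finset.sum_congr rfl fun b _ => ?_
          rw [C2.dm, Matrix.map_apply, mul_comm]
  rw [CD.bh, h2]
  abel

lemma sum_β_sub_bh (a : Fin n) : ∑ i, G.fm (fr.f i a) (G.β i - G.bh fr i)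
    = ∑ b, ∑ d, G.fm (fr.s D a b d + fr.s D a d b) (V.mul (G.C fr b) (G.B fr d)) := by
  have h1 : ∀ i, G.fm (fr.f i a) (G.β i - G.bh fr i) = ∑ b, ∑ d,
      G.fm (fr.f i a * (Sm fr D i d b + Sm fr D i b d)) (V.mul (G.C fr b) (G.B fr d)) := by
    intro i
    rw [β_sub_bh]
    simp only [G.fm_sum_right, G.fm_fm _ _ (fr_mul G (G.odd_C fr _) (G.odd_B fr _))]
  simp only [h1]
  rw [sum3 G (fun i b d => fr.f i a * (Sm fr D i d b + Sm fr D i b d))
    (fun b d => V.mul (G.C fr b) (G.B fr d))]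
  refine Finset.sum_congr rfl fun b _ => Finset.sum_congr rfl fun d _ => ?_
  congr 1
  rw [s_eq, s_eq, ← Finset.sum_add_distrib]
  refine Finset.sum_congr rfl fun i _ => ?_
  ring

lemma Q1_C (a : Fin n) : G.Q1 (G.C fr a)
    = ∑ b, ∑ d, G.fm (fr.s D b a d) (V.mul (G.C fr b) (G.C fr d)) := by
  have h1 : ∀ i, G.Q1 (G.fm (fr.e a i) (G.c i)) = ∑ b, ∑ d,
      G.fm (Ed fr D b (fr.e a i) * fr.f i d) (V.mul (G.C fr b) (G.C fr d)) := by
    intro i
    rw [odd_fm G G.ODer_Q1, G.Q1_c, C1.fm_zero_right, add_zero, Q1_fn' G fr, G.c_eq fr i, mulCC]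
  rw [CD.C, map_sum]
  simp only [h1]
  rw [sum3 G (fun i b d => Ed fr D b (fr.e a i) * fr.f i d)
    (fun b d => V.mul (G.C fr b) (G.C fr d))]
  simp only [s_eq']

lemma nm_B (a : Fin n) : G.nm fr (G.B fr a)
    = ∑ b, ∑ d, G.fm (fr.s D b a d) (V.mul (G.B fr b) (G.B fr d)) := by
  have h1 : ∀ i, G.nm fr (G.fm (fr.e a i) (G.bu fr i)) = ∑ b, ∑ d,
      G.fm (Ed fr D b (fr.e a i) * fr.f i d) (V.mul (G.B fr b) (G.B fr d)) := by
    intro i
    rw [odd_fm G (G.ODer_nm fr), G.nm_bu, C1.fm_zero_right, add_zero, nm_fn' G fr,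
      G.bu_eq fr i, mulBB]
  rw [G.B_eq fr a, map_sum]
  simp only [h1]
  rw [sum3 G (fun i b d => Ed fr D b (fr.e a i) * fr.f i d)
    (fun b d => V.mul (G.B fr b) (G.B fr d))]
  simp only [s_eq']

lemma Q1_B (a : Fin n) : G.Q1 (G.B fr a)
    = (∑ b, ∑ d, G.fm (-fr.s D b d a) (V.mul (G.C fr b) (G.B fr d)))
      + (∑ i, an G (fun b => Ed fr D b (fr.f i a)) (fun d => fr.e d i))
      + ∑ i, G.fm (fr.f i a) (G.β i) := by
  have h1 : ∀ i, G.Q1 (G.fm (fr.f i a) (G.b i)) = (∑ b, ∑ d,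
      G.fm (Ed fr D b (fr.f i a) * fr.e d i) (V.mul (G.C fr b) (G.B fr d)))
      + an G (fun b => Ed fr D b (fr.f i a)) (fun d => fr.e d i)
      + G.fm (fr.f i a) (G.β i) := by
    intro i
    rw [odd_fm G G.ODer_Q1, G.Q1_b, Q1_fn' G fr, G.b_eq fr i, mulCB]
  rw [CD.B, map_sum]
  simp only [h1, Finset.sum_add_distrib]
  rw [sum3 G (fun i b d => Ed fr D b (fr.f i a) * fr.e d i)
    (fun b d => V.mul (G.C fr b) (G.B fr d))]
  simp only [s_eq_neg]

lemma nm_C (a : Fin n) : G.nm fr (G.C fr a)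
    = (∑ b, ∑ d, G.fm (-fr.s D b d a) (V.mul (G.B fr b) (G.C fr d)))
      + (∑ i, an G (fun b => Ed fr D b (fr.f i a)) (fun d => fr.e d i))
      + ∑ i, G.fm (fr.f i a) (G.bh fr i) := by
  have h1 : ∀ i, G.nm fr (G.fm (fr.f i a) (G.cd fr i)) = (∑ b, ∑ d,
      G.fm (Ed fr D b (fr.f i a) * fr.e d i) (V.mul (G.B fr b) (G.C fr d)))
      + an G (fun b => Ed fr D b (fr.f i a)) (fun d => fr.e d i)
      + G.fm (fr.f i a) (G.bh fr i) := by
    intro i
    rw [odd_fm G (G.ODer_nm fr), G.nm_cd, nm_fn' G fr, G.cd_eq fr i, mulBC]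
  rw [G.C_eq fr a, map_sum]
  simp only [h1, Finset.sum_add_distrib]
  rw [sum3 G (fun i b d => Ed fr D b (fr.f i a) * fr.e d i)
    (fun b d => V.mul (G.B fr b) (G.C fr d))]
  simp only [s_eq_neg]

lemma mul_C_C (b d : Fin n) : V.mul (G.C fr b) (G.C fr d) = -V.mul (G.C fr d) (G.C fr b) :=
  G.mul_anti (G.odd_C fr b) (G.odd_C fr d) 0 (by rw [zero_smul]; exact G.C_C fr b d 0)
    (fun k => G.C_C fr b d (k + 1))

lemma mul_B_B (b d : Fin n) : V.mul (G.B fr b) (G.B fr d) = -V.mul (G.B fr d) (G.B fr b) :=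
  G.mul_anti (G.odd_B fr b) (G.odd_B fr d) 0 (by rw [zero_smul]; exact G.B_B fr b d 0)
    (fun k => G.B_B fr b d (k + 1))

lemma mul_B_C (b d : Fin n) : V.mul (G.B fr b) (G.C fr d) = -V.mul (G.C fr d) (G.B fr b) := by
  refine G.mul_anti (G.odd_B fr b) (G.odd_C fr d) (if b = d then 1 else 0) ?_ (B_C1 G fr b d)
  have h := G.B_C fr b d 0
  rw [Nat.cast_zero] at h
  rw [h]
  by_cases hbd : b = d <;> simp [hbd]

lemma sym_sum (F H : Fin n → Fin n → E) (h : ∀ b d, F b d + F d b = H b d + H d b) :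
    ∑ b, ∑ d, F b d = ∑ b, ∑ d, H b d := by
  have h1 : ∀ K : Fin n → Fin n → E, ∑ b, ∑ d, K b d
      = (1/2 : ℂ) • ∑ b, ∑ d, (K b d + K d b) := by
    intro K
    have h2 : ∑ b, ∑ d, K d b = ∑ b, ∑ d, K b d := Finset.sum_comm
    simp only [Finset.sum_add_distrib]
    rw [h2]
    module
  rw [h1 F, h1 H]
  simp only [h]

lemma fm_neg_right (f : A) (v : E) : G.fm f (-v) = -G.fm f v := by simp [fm]
lemma fm_sub_right (f : A) (v w : E) : G.fm f (v - w) = G.fm f v - G.fm f w := by simp [fm]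

lemma mul_ch_ps (b d : Fin n) : V.mul (G.ch fr b) (G.ps fr d)
    = V.mul (G.C fr b) (G.C fr d) - V.mul (G.B fr b) (G.B fr d)
      + V.mul (G.C fr b) (G.B fr d) + V.mul (G.C fr d) (G.B fr b) := by
  rw [CD.ch, CD.ps, map_sub, LinearMap.sub_apply, map_add, map_add, mul_B_C]
  abel

/-- the final reordering -/
lemma final (a : Fin n) :
    ∑ b, ∑ d, (G.fm (fr.s D b a d) (V.mul (G.C fr b) (G.C fr d))
        - G.fm (fr.s D b a d) (V.mul (G.B fr b) (G.B fr d))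
        + G.fm (-fr.s D b d a) (V.mul (G.C fr b) (G.B fr d))
        - G.fm (-fr.s D b d a) (V.mul (G.B fr b) (G.C fr d))
        + G.fm (fr.s D a b d + fr.s D a d b) (V.mul (G.C fr b) (G.B fr d)))
      = ∑ b, ∑ d, (1/2 : ℂ) • G.fm (fr.M D a b d) (V.mul (G.ch fr b) (G.ps fr d)) := by
  refine sym_sum _ _ fun b d => ?_
  rw [mul_ch_ps G fr b d, mul_ch_ps G fr d b, mul_B_C G fr b d, mul_B_C G fr d b,
    mul_C_C G fr d b, mul_B_B G fr d b, Frame.M, Frame.M]
  simp only [G.fm_add, C2.fm_sub, C2.fm_neg, G.fm_add_right, fm_sub_right, fm_neg_right]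
  module

end C4

open C4

theorem X1_ps (a : Fin n) : (G.Q1 - G.nm fr) (G.ps fr a) =
    (1/2 : ℂ) • ∑ b, ∑ d, G.fm (fr.M D a b d) (V.mul (G.ch fr b) (G.ps fr d)) := by
  have h := final G fr a
  simp only [Finset.sum_add_distrib, Finset.sum_sub_distrib, ← Finset.smul_sum] at h
  rw [← h, ← sum_β_sub_bh G fr a, LinearMap.sub_apply, CD.ps, map_add, map_add, Q1_C, Q1_B,
    nm_B, nm_C]
  simp only [fm_sub_right, Finset.sum_sub_distrib]
  abel

theorem X2_ps (a : Fin n) : (G.Q2 - G.npl fr) (G.ps fr a) = 0 := by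
  have hQ : ∀ f : A, ∀ v : E, G.Q2 (G.fm f v) = G.fm f (G.Q2 v) := fun f v => by
    rw [odd_fm G G.ODer_Q2, G.Q2_fn, map_zero, LinearMap.zero_apply, zero_add]
  have hn : ∀ f : A, ∀ v : E, G.npl fr (G.fm f v) = G.fm f (G.npl fr v) := fun f v => by
    rw [odd_fm G (G.ODer_npl fr), G.npl_fn, map_zero, LinearMap.zero_apply, zero_add]
  have h1 : G.Q2 (G.C fr a) = ∑ i, G.fm (fr.e a i) (G.x i) := by
    simp only [CD.C, map_sum, hQ, G.Q2_c]
  have h2 : G.Q2 (G.B fr a) = 0 := by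
    simp only [CD.B, map_sum, hQ, G.Q2_b, C1.fm_zero_right, Finset.sum_const_zero]
  have h3 : G.npl fr (G.B fr a) = ∑ i, G.fm (fr.e a i) (G.x i) := by
    rw [G.B_eq fr a]
    simp only [map_sum, hn, G.npl_bu]
  have h4 : G.npl fr (G.C fr a) = 0 := by
    rw [G.C_eq fr a]
    simp only [map_sum, hn, G.npl_cd, C1.fm_zero_right, Finset.sum_const_zero]
  rw [LinearMap.sub_apply, CD.ps, map_add, map_add, h1, h2, h3, h4]
  abel

end CD
end Pool.Agent.AA3
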