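import Pool.Agent.Lib.MP_aa3aaf_al.CFrame
import Pool.Agent.Lib.MP_aa3aaf_al.CZero
import Pool.Agent.Lib.MP_aa3aaf_al.CPsi
import Pool.Agent.Lib.MP_aa3aaf_al.VCalc

/-!
Task C5: `X₁ Φ = X₂ Φ = 0`, i.e. `Q₁ Φ = n₋ Φ` and `Q₂ Φ = n₊ Φ`.
-/

set_option autoImplicit false
open scoped BigOperators
noncomputable section
namespace Pool.Agent.AA3
namespace CD
variable {n : ℕ} {A : Type*} [CommRing A] [Algebra ℂ A] {D : DS n A}
  {E : Type*} [AddCommGroup E] [Module ℂ E] {V : VSA E} (G : CD n D V) (fr : Frame n A)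

/-- `φ` is totally antisymmetric -/
def Anti (φ : Fin n → Fin n → Fin n → ℂ) : Prop :=
  ∀ a b c, φ a b c = -φ b a c ∧ φ a b c = -φ a c b

/-- the Levi-Civita connection form takes values in the stabiliser of `φ` -/
def Stab (D : DS n A) (fr : Frame n A) (φ : Fin n → Fin n → Fin n → ℂ) : Prop :=
  ∀ e d b c, ∑ a, (φ a b c • fr.M D a e d + φ d a c • fr.M D a e b + φ d b a • fr.M D a e c) = 0

/-- contraction of `φ` with the connection form vanishes -/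
def Contr (D : DS n A) (fr : Frame n A) (φ : Fin n → Fin n → Fin n → ℂ) : Prop :=
  ∀ e c, ∑ a, ∑ b, φ a b c • fr.M D a e b = 0

namespace C5

/-- the normally ordered product `(f (χ ψ)) v` -/
lemma expand {f χ ψ v w : E} (hf : V.Par 0 f) (hχ : V.Par 1 χ) (hψ : V.Par 1 ψ)
    (hfv : ∀ k : ℕ, V.Y f k v = 0) (hχv : ∀ k : ℕ, V.Y χ k v = 0)
    (h0 : V.Y ψ 0 v = w) (h1 : ∀ k : ℕ, V.Y ψ (k + 1 : ℕ) v = 0) :
    V.mul (V.Y f (-1) (V.mul χ ψ)) v =
      V.Y f (-1) (V.Y χ (-1) (V.Y ψ (-1) v)) + (V.Y f (-1) (V.Y χ (-2) w)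
        + V.Y f (-2) (V.Y χ (-1) w)) := by
  have hu : V.Par 2 (V.mul χ ψ) := VSA.Par.Y hχ hψ (-1)
  have hψk : ∀ k : ℤ, 1 ≤ k → V.Y ψ k v = 0 := by
    intro k hk
    obtain ⟨m, hm⟩ := Int.eq_ofNat_of_zero_le (show (0 : ℤ) ≤ k - 1 by omega)
    have := h1 m
    rwa [show ((m + 1 : ℕ) : ℤ) = k by push_cast; omega] at this
  -- modes of `u = χ ψ` on `v`
  have um1 : V.Y (V.mul χ ψ) (-1) v = V.Y χ (-1) (V.Y ψ (-1) v) + V.Y χ (-2) w := by
    rw [V.Y_mul hχ hψ (-1) v 2 (fun j hj => ⟨hψk _ (by omega), hχv j⟩)]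
    have e0 := hχv 0
    have e1 := hχv 1
    simp only [Nat.cast_zero, Nat.cast_one] at e0 e1
    rw [Finset.sum_range_succ, Finset.sum_range_one]
    simp only [Nat.cast_zero, Nat.cast_one]
    rw [e0, e1]
    simp only [map_zero, smul_zero, add_zero, sub_zero]
    rw [show (-1 - 1 : ℤ) = -2 by norm_num, show (-1 + 1 : ℤ) = 0 by norm_num, h0]
  have u0 : V.Y (V.mul χ ψ) 0 v = V.Y χ (-1) w := by
    rw [V.Y_mul hχ hψ 0 v 1 (fun j hj => ⟨hψk _ (by omega), hχv j⟩)]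
    have e0 := hχv 0
    simp only [Nat.cast_zero] at e0
    rw [Finset.sum_range_one]
    simp only [Nat.cast_zero]
    rw [e0]
    simp only [map_zero, smul_zero, add_zero, sub_zero]
    rw [h0]
  have uk : ∀ k : ℤ, 1 ≤ k → V.Y (V.mul χ ψ) k v = 0 := by
    intro k hk
    rw [V.Y_mul hχ hψ k v 0 (fun j _ => ⟨hψk _ (by omega), hχv j⟩)]
    simp
  show V.Y (V.mul f (V.mul χ ψ)) (-1) v = _
  rw [V.Y_mul hf hu (-1) v 2 (fun j hj => ⟨uk _ (by omega), hfv j⟩)]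
  have e0 := hfv 0
  have e1 := hfv 1
  simp only [Nat.cast_zero, Nat.cast_one] at e0 e1
  rw [Finset.sum_range_succ, Finset.sum_range_one]
  simp only [Nat.cast_zero, Nat.cast_one]
  rw [e0, e1]
  simp only [map_zero, smul_zero, add_zero, sub_zero]
  rw [show (-1 - 1 : ℤ) = -2 by norm_num, show (-1 + 1 : ℤ) = 0 by norm_num, u0, um1, map_add,
    add_assoc]

/-- the classical term -/
def P (f : A) (e d b c : Fin n) : E :=
  V.Y (G.fn f) (-1) (V.Y (G.ch fr e) (-1) (V.Y (G.ps fr d) (-1)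
    (V.Y (G.ps fr b) (-1) (G.ps fr c))))

/-- the quantum correction -/
def S (f : A) (e : Fin n) (v : E) : E :=
  V.Y (G.fn f) (-1) (V.Y (G.ch fr e) (-2) v) + V.Y (G.fn f) (-2) (V.Y (G.ch fr e) (-1) v)

lemma S_sum {ι : Type*} (s : Finset ι) (f : ι → A) (e : Fin n) (v : E) :
    S G fr (∑ i ∈ s, f i) e v = ∑ i ∈ s, S G fr (f i) e v := by
  simp only [S, map_sum, Finset.sum_apply, LinearMap.sum_apply, Finset.sum_add_distrib]

lemma S_smul (z : ℂ) (f : A) (e : Fin n) (v : E) :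
    S G fr (z • f) e v = z • S G fr f e v := by
  simp only [S, map_smul, Pi.smul_apply, LinearMap.smul_apply, smul_add]

lemma S_zero (e : Fin n) (v : E) : S G fr 0 e v = 0 := by
  simp [S]

lemma S_smul_right (z : ℂ) (f : A) (e : Fin n) (v : E) :
    S G fr f e (z • v) = z • S G fr f e v := by
  simp only [S, map_smul, smul_add]

lemma S_sub_right (f : A) (e : Fin n) (v w : E) :
    S G fr f e (v - w) = S G fr f e v - S G fr f e w := by
  simp only [S, map_sub]; abel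

lemma P_sum {ι : Type*} (s : Finset ι) (f : ι → A) (e d b c : Fin n) :
    P G fr (∑ i ∈ s, f i) e d b c = ∑ i ∈ s, P G fr (f i) e d b c := by
  simp only [P, map_sum, Finset.sum_apply, LinearMap.sum_apply]

lemma P_add (f g : A) (e d b c : Fin n) :
    P G fr (f + g) e d b c = P G fr f e d b c + P G fr g e d b c := by
  simp only [P, map_add, Pi.add_apply, LinearMap.add_apply]

lemma P_smul (z : ℂ) (f : A) (e d b c : Fin n) :
    P G fr (z • f) e d b c = z • P G fr f e d b c := by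
  simp only [P, map_smul, Pi.smul_apply, LinearMap.smul_apply]

lemma P_zero (e d b c : Fin n) : P G fr 0 e d b c = 0 := by
  simp [P]

/-- Clifford relations of the `ψ^a` -/
lemma ps_comm (a b : Fin n) (m k : ℤ) (v : E) :
    V.Y (G.ps fr a) m (V.Y (G.ps fr b) k v) =
      -V.Y (G.ps fr b) k (V.Y (G.ps fr a) m v)
        + if m + k = -1 then (if a = b then (2 : ℂ) else 0) • v else 0 := by
  have h0 : V.Y (G.ps fr a) 0 (G.ps fr b) = (if a = b then (2 : ℂ) else 0) • V.vac := by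
    have := G.ps_ps fr a b 0
    rw [Nat.cast_zero] at this
    rw [this]
    by_cases h : a = b
    · simp [h]
    · simp [h]
  have h1 : ∀ j : ℕ, V.Y (G.ps fr a) (j + 1 : ℕ) (G.ps fr b) = 0 := by
    intro j
    rw [G.ps_ps fr a b (j + 1)]
    simp
  have h := V.comm_of_pole (G.odd_ps fr a).par (G.odd_ps fr b).par _ h0 h1 m k v
  rw [show (-1 : ℂ) ^ (1 * 1) = -1 by norm_num, neg_smul, one_smul, sub_neg_eq_add] at h
  rw [← h]
  abel

/-- `ψ` and `χ` anticommute -/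
lemma ps_ch_comm (a b : Fin n) (m k : ℤ) (v : E) :
    V.Y (G.ps fr a) m (V.Y (G.ch fr b) k v) = -V.Y (G.ch fr b) k (V.Y (G.ps fr a) m v) := by
  have h := V.comm_of_regular (G.odd_ps fr a).par (G.odd_ch fr b).par
    (fun j => G.ps_ch fr a b j) m k v
  rw [h, show (-1 : ℂ) ^ (1 * 1) = -1 by norm_num, neg_smul, one_smul]

/-- `χ` and `ψ` anticommute -/
lemma ch_ps_comm (a b : Fin n) (m k : ℤ) (v : E) :
    V.Y (G.ch fr a) m (V.Y (G.ps fr b) k v) = -V.Y (G.ps fr b) k (V.Y (G.ch fr a) m v) := by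
  rw [ps_ch_comm, neg_neg]

/-- `ψ` commutes with functions -/
lemma ps_fn_comm (a : Fin n) (f : A) (m k : ℤ) (v : E) :
    V.Y (G.ps fr a) m (V.Y (G.fn f) k v) = V.Y (G.fn f) k (V.Y (G.ps fr a) m v) := by
  have h := V.comm_of_regular (G.odd_ps fr a).par (G.par_fn f)
    (fun j => (G.odd_ps fr a).u_fn j f) m k v
  rw [h]; simp

/-- functions commute with `ψ` -/
lemma fn_ps_comm (a : Fin n) (f : A) (m k : ℤ) (v : E) :
    V.Y (G.fn f) m (V.Y (G.ps fr a) k v) = V.Y (G.ps fr a) k (V.Y (G.fn f) m v) :=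
  (ps_fn_comm G fr a f k m v).symm

lemma fn_ps2 (f : A) (b c : Fin n) (k : ℕ) :
    V.Y (G.fn f) k (V.Y (G.ps fr b) (-1) (G.ps fr c)) = 0 := by
  rw [fn_ps_comm, (G.odd_ps fr c).fn_u, map_zero]

lemma ch_ps2 (a b c : Fin n) (k : ℕ) :
    V.Y (G.ch fr a) k (V.Y (G.ps fr b) (-1) (G.ps fr c)) = 0 := by
  rw [ch_ps_comm, G.ch_ps, map_zero, neg_zero]

lemma ps_ps2_zero (d b c : Fin n) :
    V.Y (G.ps fr d) 0 (V.Y (G.ps fr b) (-1) (G.ps fr c)) =
      (if d = b then (2 : ℂ) else 0) • G.ps fr c - (if d = c then (2 : ℂ) else 0) • G.ps fr b := by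
  rw [ps_comm]
  have h0 := G.ps_ps fr d c 0
  rw [Nat.cast_zero] at h0
  rw [h0, if_pos (show (0 : ℤ) + -1 = -1 by norm_num)]
  by_cases h : d = c
  · rw [if_pos ⟨rfl, h⟩, if_pos h, map_smul, V.create]; abel
  · rw [if_neg (fun h' => h h'.2), if_neg h, map_zero, neg_zero, zero_smul]; abel

lemma ps_ps2_succ (d b c : Fin n) (k : ℕ) :
    V.Y (G.ps fr d) (k + 1 : ℕ) (V.Y (G.ps fr b) (-1) (G.ps fr c)) = 0 := by
  rw [ps_comm, G.ps_ps, if_neg (by simp), map_zero, neg_zero, zero_add,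
    if_neg (by push_cast; omega)]

/-- the first type of term -/
lemma term1 (f : A) (e d b c : Fin n) :
    V.mul (G.fm f (V.mul (G.ch fr e) (G.ps fr d))) (V.mul (G.ps fr b) (G.ps fr c)) =
      P G fr f e d b c + ((if d = b then (2 : ℂ) else 0) • S G fr f e (G.ps fr c)
        - (if d = c then (2 : ℂ) else 0) • S G fr f e (G.ps fr b)) := by
  have h := expand (V := V) (f := G.fn f) (χ := G.ch fr e) (ψ := G.ps fr d)
    (v := V.Y (G.ps fr b) (-1) (G.ps fr c)) (G.par_fn f) (G.odd_ch fr e).par (G.odd_ps fr d).par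
    (fn_ps2 G fr f b c) (ch_ps2 G fr e b c) (ps_ps2_zero G fr d b c) (ps_ps2_succ G fr d b c)
  have h2 : V.mul (G.fm f (V.mul (G.ch fr e) (G.ps fr d))) (V.mul (G.ps fr b) (G.ps fr c)) =
    V.mul (V.Y (G.fn f) (-1) (V.mul (G.ch fr e) (G.ps fr d)))
      (V.Y (G.ps fr b) (-1) (G.ps fr c)) := rfl
  rw [h2, h]
  show P G fr f e d b c + S G fr f e _ = _
  rw [S_sub_right, S_smul_right, S_smul_right]

/-- the second type of term -/
lemma term2 (f : A) (a e d c : Fin n) :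
    V.mul (G.ps fr a) (V.mul (G.fm f (V.mul (G.ch fr e) (G.ps fr d))) (G.ps fr c)) =
      -P G fr f e a d c +
        (if d = c then (2 : ℂ) else 0) • V.Y (G.ps fr a) (-1) (S G fr f e V.vac) := by
  have h0 : V.Y (G.ps fr d) 0 (G.ps fr c) = (if d = c then (2 : ℂ) else 0) • V.vac := by
    have := G.ps_ps fr d c 0
    rw [Nat.cast_zero] at this
    rw [this]
    by_cases h : d = c
    · simp [h]
    · simp [h]
  have h1 : ∀ j : ℕ, V.Y (G.ps fr d) (j + 1 : ℕ) (G.ps fr c) = 0 := by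
    intro j
    rw [G.ps_ps fr d c (j + 1)]
    simp
  have h := expand (V := V) (f := G.fn f) (χ := G.ch fr e) (ψ := G.ps fr d)
    (v := G.ps fr c) (G.par_fn f) (G.odd_ch fr e).par (G.odd_ps fr d).par
    (fun k => (G.odd_ps fr c).fn_u k f) (fun k => G.ch_ps fr e c k) h0 h1
  have h2 : V.mul (G.ps fr a) (V.mul (G.fm f (V.mul (G.ch fr e) (G.ps fr d))) (G.ps fr c)) =
    V.Y (G.ps fr a) (-1) (V.mul (V.Y (G.fn f) (-1) (V.mul (G.ch fr e) (G.ps fr d)))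
      (G.ps fr c)) := rfl
  rw [h2, h, map_add]
  congr 1
  · rw [ps_fn_comm, ps_ch_comm, map_neg]; rfl
  · show V.Y (G.ps fr a) (-1) (S G fr f e _) = _
    rw [S_smul_right, map_smul]

/-- the third type of term -/
lemma term3 (f : A) (a b e d : Fin n) :
    V.mul (G.ps fr a) (V.mul (G.ps fr b) (G.fm f (V.mul (G.ch fr e) (G.ps fr d)))) =
      P G fr f e a b d := by
  show V.Y (G.ps fr a) (-1) (V.Y (G.ps fr b) (-1) (V.Y (G.fn f) (-1)
    (V.Y (G.ch fr e) (-1) (G.ps fr d)))) = _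
  rw [ps_fn_comm, ps_ch_comm, map_neg, map_neg, ps_fn_comm, ps_ch_comm, map_neg, neg_neg]
  rfl

/-- `X₁ = Q₁ - n₋` is an odd derivation -/
lemma X1_mul {a : E} (ha : V.Par 1 a) (v : E) :
    (G.Q1 - G.nm fr) (V.mul a v) =
      V.mul ((G.Q1 - G.nm fr) a) v - V.mul a ((G.Q1 - G.nm fr) v) := by
  have h1 := (G.ODer_Q1).2 1 a (-1) v ha
  have h2 := (G.ODer_nm fr).2 1 a (-1) v ha
  show G.Q1 (V.Y a (-1) v) - G.nm fr (V.Y a (-1) v) =
    V.Y ((G.Q1 - G.nm fr) a) (-1) v - V.Y a (-1) ((G.Q1 - G.nm fr) v)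
  rw [h1, h2, LinearMap.sub_apply, LinearMap.sub_apply, map_sub, map_sub, Pi.sub_apply,
    LinearMap.sub_apply]
  simp only [pow_one, neg_smul, one_smul]
  abel

/-- `X₂ = Q₂ - n₊` is an odd derivation -/
lemma X2_mul {a : E} (ha : V.Par 1 a) (v : E) :
    (G.Q2 - G.npl fr) (V.mul a v) =
      V.mul ((G.Q2 - G.npl fr) a) v - V.mul a ((G.Q2 - G.npl fr) v) := by
  have h1 := (G.ODer_Q2).2 1 a (-1) v ha
  have h2 := (G.ODer_npl fr).2 1 a (-1) v ha
  show G.Q2 (V.Y a (-1) v) - G.npl fr (V.Y a (-1) v) =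
    V.Y ((G.Q2 - G.npl fr) a) (-1) v - V.Y a (-1) ((G.Q2 - G.npl fr) v)
  rw [h1, h2, LinearMap.sub_apply, LinearMap.sub_apply, map_sub, map_sub, Pi.sub_apply,
    LinearMap.sub_apply]
  simp only [pow_one, neg_smul, one_smul]
  abel

lemma T1 (a b c : Fin n) :
    V.mul ((G.Q1 - G.nm fr) (G.ps fr a)) (V.mul (G.ps fr b) (G.ps fr c)) =
      (1/2 : ℂ) • ∑ e, ∑ d, P G fr (fr.M D a e d) e d b c
      + (∑ e, S G fr (fr.M D a e b) e (G.ps fr c)
        - ∑ e, S G fr (fr.M D a e c) e (G.ps fr b)) := by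
  rw [X1_ps]
  simp only [map_smul, map_sum, LinearMap.smul_apply, LinearMap.sum_apply, term1,
    Finset.sum_add_distrib, Finset.sum_sub_distrib, ite_smul, zero_smul, Finset.sum_ite_eq',
    Finset.mem_univ, if_true, smul_add, smul_sub, ← Finset.smul_sum, smul_smul]
  norm_num

lemma T2 (a b c : Fin n) :
    V.mul (G.ps fr a) (V.mul ((G.Q1 - G.nm fr) (G.ps fr b)) (G.ps fr c)) =
      -((1/2 : ℂ) • ∑ e, ∑ d, P G fr (fr.M D b e d) e a d c)
      + V.Y (G.ps fr a) (-1) (∑ e, S G fr (fr.M D b e c) e V.vac) := by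
  rw [X1_ps]
  simp only [map_smul, map_sum, LinearMap.smul_apply, LinearMap.sum_apply, term2,
    Finset.sum_add_distrib, Finset.sum_neg_distrib, ite_smul, zero_smul, Finset.sum_ite_eq',
    Finset.mem_univ, if_true, smul_add, smul_neg, ← Finset.smul_sum, smul_smul]
  norm_num

lemma T3 (a b c : Fin n) :
    V.mul (G.ps fr a) (V.mul (G.ps fr b) ((G.Q1 - G.nm fr) (G.ps fr c))) =
      (1/2 : ℂ) • ∑ e, ∑ d, P G fr (fr.M D c e d) e a b d := by
  rw [X1_ps]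
  simp only [map_smul, map_sum, term3]

lemma X1_triple (a b c : Fin n) :
    (G.Q1 - G.nm fr) (V.mul (G.ps fr a) (V.mul (G.ps fr b) (G.ps fr c))) =
      (1/2 : ℂ) • ∑ e, ∑ d, (P G fr (fr.M D a e d) e d b c + P G fr (fr.M D b e d) e a d c
        + P G fr (fr.M D c e d) e a b d)
      + (∑ e, S G fr (fr.M D a e b) e (G.ps fr c)
        - ∑ e, S G fr (fr.M D a e c) e (G.ps fr b)
        - V.Y (G.ps fr a) (-1) (∑ e, S G fr (fr.M D b e c) e V.vac)) := by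
  rw [X1_mul G fr (G.odd_ps fr a).par, X1_mul G fr (G.odd_ps fr b).par, map_sub, T1, T2, T3]
  simp only [Finset.sum_add_distrib, smul_add]
  abel

section perm
variable {X : Type*} [AddCommMonoid X]

lemma perm1 (F : Fin n → Fin n → Fin n → Fin n → Fin n → X) :
    ∑ a, ∑ b, ∑ c, ∑ e, ∑ d, F a b c e d = ∑ e, ∑ d, ∑ b, ∑ c, ∑ a, F a b c e d := by
  have h1 : ∑ a, ∑ b, ∑ c, ∑ e, ∑ d, F a b c e d =
      ∑ x : Fin n × Fin n × Fin n × Fin n × Fin n, F x.1 x.2.1 x.2.2.1 x.2.2.2.1 x.2.2.2.2 := by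
    simp only [Fintype.sum_prod_type]
  have h2 : ∑ e, ∑ d, ∑ b, ∑ c, ∑ a, F a b c e d =
      ∑ y : Fin n × Fin n × Fin n × Fin n × Fin n, F y.2.2.2.2 y.2.2.1 y.2.2.2.1 y.1 y.2.1 := by
    simp only [Fintype.sum_prod_type]
  rw [h1, h2]
  exact Fintype.sum_equiv
    ⟨fun x => (x.2.2.2.1, x.2.2.2.2, x.2.1, x.2.2.1, x.1),
     fun y => (y.2.2.2.2, y.2.2.1, y.2.2.2.1, y.1, y.2.1), fun _ => rfl, fun _ => rfl⟩
    _ _ (fun _ => rfl)

lemma perm2 (F : Fin n → Fin n → Fin n → Fin n → Fin n → X) :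
    ∑ a, ∑ b, ∑ c, ∑ e, ∑ d, F a b c e d = ∑ e, ∑ d, ∑ b, ∑ c, ∑ a, F d a c e b := by
  have h1 : ∑ a, ∑ b, ∑ c, ∑ e, ∑ d, F a b c e d =
      ∑ x : Fin n × Fin n × Fin n × Fin n × Fin n, F x.1 x.2.1 x.2.2.1 x.2.2.2.1 x.2.2.2.2 := by
    simp only [Fintype.sum_prod_type]
  have h2 : ∑ e, ∑ d, ∑ b, ∑ c, ∑ a, F d a c e b =
      ∑ y : Fin n × Fin n × Fin n × Fin n × Fin n, F y.2.1 y.2.2.2.2 y.2.2.2.1 y.1 y.2.2.1 := by
    simp only [Fintype.sum_prod_type]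
  rw [h1, h2]
  exact Fintype.sum_equiv
    ⟨fun x => (x.2.2.2.1, x.1, x.2.2.2.2, x.2.2.1, x.2.1),
     fun y => (y.2.1, y.2.2.2.2, y.2.2.2.1, y.1, y.2.2.1), fun _ => rfl, fun _ => rfl⟩
    _ _ (fun _ => rfl)

lemma perm3 (F : Fin n → Fin n → Fin n → Fin n → Fin n → X) :
    ∑ a, ∑ b, ∑ c, ∑ e, ∑ d, F a b c e d = ∑ e, ∑ d, ∑ b, ∑ c, ∑ a, F d b a e c := by
  have h1 : ∑ a, ∑ b, ∑ c, ∑ e, ∑ d, F a b c e d =
      ∑ x : Fin n × Fin n × Fin n × Fin n × Fin n, F x.1 x.2.1 x.2.2.1 x.2.2.2.1 x.2.2.2.2 := by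
    simp only [Fintype.sum_prod_type]
  have h2 : ∑ e, ∑ d, ∑ b, ∑ c, ∑ a, F d b a e c =
      ∑ y : Fin n × Fin n × Fin n × Fin n × Fin n, F y.2.1 y.2.2.1 y.2.2.2.2 y.1 y.2.2.2.1 := by
    simp only [Fintype.sum_prod_type]
  rw [h1, h2]
  exact Fintype.sum_equiv
    ⟨fun x => (x.2.2.2.1, x.1, x.2.1, x.2.2.2.2, x.2.2.1),
     fun y => (y.2.1, y.2.2.1, y.2.2.2.2, y.1, y.2.2.2.1), fun _ => rfl, fun _ => rfl⟩
    _ _ (fun _ => rfl)

lemma permA (F : Fin n → Fin n → Fin n → Fin n → X) :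
    ∑ a, ∑ b, ∑ c, ∑ e, F a b c e = ∑ c, ∑ e, ∑ a, ∑ b, F a b c e := by
  have h1 : ∑ a, ∑ b, ∑ c, ∑ e, F a b c e =
      ∑ x : Fin n × Fin n × Fin n × Fin n, F x.1 x.2.1 x.2.2.1 x.2.2.2 := by
    simp only [Fintype.sum_prod_type]
  have h2 : ∑ c, ∑ e, ∑ a, ∑ b, F a b c e =
      ∑ y : Fin n × Fin n × Fin n × Fin n, F y.2.2.1 y.2.2.2 y.1 y.2.1 := by
    simp only [Fintype.sum_prod_type]
  rw [h1, h2]
  exact Fintype.sum_equiv
    ⟨fun x => (x.2.2.1, x.2.2.2, x.1, x.2.1),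
     fun y => (y.2.2.1, y.2.2.2, y.1, y.2.1), fun _ => rfl, fun _ => rfl⟩
    _ _ (fun _ => rfl)

lemma permB (F : Fin n → Fin n → Fin n → Fin n → X) :
    ∑ a, ∑ b, ∑ c, ∑ e, F a b c e = ∑ b, ∑ e, ∑ a, ∑ c, F a b c e := by
  have h1 : ∑ a, ∑ b, ∑ c, ∑ e, F a b c e =
      ∑ x : Fin n × Fin n × Fin n × Fin n, F x.1 x.2.1 x.2.2.1 x.2.2.2 := by
    simp only [Fintype.sum_prod_type]
  have h2 : ∑ b, ∑ e, ∑ a, ∑ c, F a b c e =
      ∑ y : Fin n × Fin n × Fin n × Fin n, F y.2.2.1 y.1 y.2.2.2 y.2.1 := by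
    simp only [Fintype.sum_prod_type]
  rw [h1, h2]
  exact Fintype.sum_equiv
    ⟨fun x => (x.2.1, x.2.2.2, x.1, x.2.2.1),
     fun y => (y.2.2.1, y.1, y.2.2.2, y.2.1), fun _ => rfl, fun _ => rfl⟩
    _ _ (fun _ => rfl)

lemma permC (F : Fin n → Fin n → Fin n → X) :
    ∑ b, ∑ c, ∑ e, F b c e = ∑ e, ∑ b, ∑ c, F b c e := by
  have h1 : ∑ b, ∑ c, ∑ e, F b c e =
      ∑ x : Fin n × Fin n × Fin n, F x.1 x.2.1 x.2.2 := by
    simp only [Fintype.sum_prod_type]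
  have h2 : ∑ e, ∑ b, ∑ c, F b c e =
      ∑ y : Fin n × Fin n × Fin n, F y.2.1 y.2.2 y.1 := by
    simp only [Fintype.sum_prod_type]
  rw [h1, h2]
  exact Fintype.sum_equiv
    ⟨fun x => (x.2.2, x.1, x.2.1),
     fun y => (y.2.1, y.2.2, y.1), fun _ => rfl, fun _ => rfl⟩
    _ _ (fun _ => rfl)

end perm

variable {φ : Fin n → Fin n → Fin n → ℂ}

lemma sumA (h2 : Contr D fr φ) :
    ∑ a, ∑ b, ∑ c, φ a b c • ∑ e, S G fr (fr.M D a e b) e (G.ps fr c) = 0 := by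
  simp only [Finset.smul_sum]
  rw [permA]
  refine Finset.sum_eq_zero fun c _ => Finset.sum_eq_zero fun e _ => ?_
  simp only [← S_smul, ← S_sum]
  rw [h2 e c, S_zero]

lemma sumB (hφ : Anti φ) (h2 : Contr D fr φ) :
    ∑ a, ∑ b, ∑ c, φ a b c • ∑ e, S G fr (fr.M D a e c) e (G.ps fr b) = 0 := by
  simp only [Finset.smul_sum]
  rw [permB]
  refine Finset.sum_eq_zero fun b _ => Finset.sum_eq_zero fun e _ => ?_
  simp only [← S_smul, ← S_sum]
  have : ∑ a, ∑ c, φ a b c • fr.M D a e c = -∑ a, ∑ c, φ a c b • fr.M D a e c := by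
    rw [← Finset.sum_neg_distrib]
    refine Finset.sum_congr rfl fun a _ => ?_
    rw [← Finset.sum_neg_distrib]
    refine Finset.sum_congr rfl fun c _ => ?_
    rw [(hφ a b c).2, neg_smul]
  rw [this, h2 e b, neg_zero, S_zero]

lemma sumC (hφ : Anti φ) (h2 : Contr D fr φ) :
    ∑ a, ∑ b, ∑ c, φ a b c •
      V.Y (G.ps fr a) (-1) (∑ e, S G fr (fr.M D b e c) e V.vac) = 0 := by
  refine Finset.sum_eq_zero fun a _ => ?_
  simp only [← map_smul, ← map_sum]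
  simp only [Finset.smul_sum]
  rw [permC]
  simp only [← S_smul, ← S_sum]
  have : ∀ e, ∑ b, ∑ c, φ a b c • fr.M D b e c = 0 := by
    intro e
    rw [← h2 e a]
    refine Finset.sum_congr rfl fun b _ => Finset.sum_congr rfl fun c _ => ?_
    rw [(hφ a b c).1, (hφ b a c).2, neg_neg]
  simp only [this, S_zero, Finset.sum_const_zero, map_zero]

lemma sumD (h1 : Stab D fr φ) :
    ∑ a, ∑ b, ∑ c, φ a b c • ((1/2 : ℂ) • ∑ e, ∑ d, (P G fr (fr.M D a e d) e d b c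
      + P G fr (fr.M D b e d) e a d c + P G fr (fr.M D c e d) e a b d)) = 0 := by
  have e0 : ∑ a, ∑ b, ∑ c, φ a b c • ((1/2 : ℂ) • ∑ e, ∑ d, (P G fr (fr.M D a e d) e d b c
      + P G fr (fr.M D b e d) e a d c + P G fr (fr.M D c e d) e a b d)) =
      (1/2 : ℂ) • (∑ a, ∑ b, ∑ c, ∑ e, ∑ d, φ a b c • P G fr (fr.M D a e d) e d b c
        + ∑ a, ∑ b, ∑ c, ∑ e, ∑ d, φ a b c • P G fr (fr.M D b e d) e a d c
        + ∑ a, ∑ b, ∑ c, ∑ e, ∑ d, φ a b c • P G fr (fr.M D c e d) e a b d) := by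
    simp only [← Finset.sum_add_distrib, Finset.smul_sum, smul_comm _ (1/2 : ℂ), smul_add]
  rw [e0, perm1 (fun a b c e d => φ a b c • P G fr (fr.M D a e d) e d b c),
    perm2 (fun a b c e d => φ a b c • P G fr (fr.M D b e d) e a d c),
    perm3 (fun a b c e d => φ a b c • P G fr (fr.M D c e d) e a b d)]
  simp only [← Finset.sum_add_distrib, ← P_smul, ← P_add, ← P_sum]
  have : ∀ e d b c, ∑ a, (φ a b c • fr.M D a e d + φ d a c • fr.M D a e b
      + φ d b a • fr.M D a e c) = 0 := h1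
  simp only [this, P_zero, Finset.sum_const_zero, smul_zero]

lemma X1_Phi_eq_zero (hφ : Anti φ) (h1 : Stab D fr φ) (h2 : Contr D fr φ) :
    (G.Q1 - G.nm fr) (G.Phi fr φ) = 0 := by
  rw [Phi]
  simp only [map_sum, map_smul, X1_triple, smul_add, smul_sub, Finset.sum_add_distrib,
    Finset.sum_sub_distrib]
  have hC := sumC G fr hφ h2
  simp only [map_sum] at hC
  rw [sumA G fr h2, sumB G fr hφ h2, hC]
  have := sumD G fr h1
  simp only [smul_add, Finset.sum_add_distrib] at this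
  rw [this]
  simp

end C5

theorem X1_Phi (φ : Fin n → Fin n → Fin n → ℂ) (hφ : Anti φ) (h1 : Stab D fr φ)
    (h2 : Contr D fr φ) : G.Q1 (G.Phi fr φ) = G.nm fr (G.Phi fr φ) := by
  have h := C5.X1_Phi_eq_zero G fr hφ h1 h2
  rwa [LinearMap.sub_apply, sub_eq_zero] at h

theorem X2_Phi (φ : Fin n → Fin n → Fin n → ℂ) :
    G.Q2 (G.Phi fr φ) = G.npl fr (G.Phi fr φ) := by
  have h : (G.Q2 - G.npl fr) (G.Phi fr φ) = 0 := by
    rw [Phi]
    simp only [map_sum, map_smul]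
    refine Finset.sum_eq_zero fun a _ => Finset.sum_eq_zero fun b _ =>
      Finset.sum_eq_zero fun c _ => ?_
    rw [C5.X2_mul G fr (G.odd_ps fr a).par, C5.X2_mul G fr (G.odd_ps fr b).par]
    simp only [X2_ps, map_zero, LinearMap.zero_apply, sub_zero, smul_zero]
  rwa [LinearMap.sub_apply, sub_eq_zero] at h

end CD
end Pool.Agent.AA3
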