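import Pool.Agent.Lib.MP_aa3aaf_al.CD

/-!
Jacobian data of a change of coordinates.
-/

set_option autoImplicit false
open scoped BigOperators
noncomputable section
namespace Pool.Agent.AA3

variable {n : ℕ} {A : Type*} [CommRing A] [Algebra ℂ A]

/-- Jacobian data: `J j i = ∂x'^j/∂x^i`, `F i j = ∂x^i/∂x'^j`. -/
structure Jac (D : DS n A) where
  J : Matrix (Fin n) (Fin n) A
  F : Matrix (Fin n) (Fin n) A
  J_F : J * F = 1
  F_J : F * J = 1
  closed : ∀ k j i, D.d k (J j i) = D.d i (J j k)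

/-- the frame in the new coordinates -/
def Jac.frame {D : DS n A} (jac : Jac D) (fr : Frame n A) : Frame n A where
  e := fr.e * jac.F
  f := jac.J * fr.f
  e_f := by rw [Matrix.mul_assoc, ← Matrix.mul_assoc jac.F, jac.F_J, Matrix.one_mul, fr.e_f]
  f_e := by rw [Matrix.mul_assoc, ← Matrix.mul_assoc fr.f, fr.f_e, Matrix.one_mul, jac.J_F]

end Pool.Agent.AA3
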