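import Pool.Agent.Lib.MP_aa3aaf_al.CZero
import Pool.Agent.Lib.MP_aa3aaf_al.JacDef

/-!
Change of coordinates inside a vertex algebra with chiral data (task GJ).
-/

set_option autoImplicit false
open scoped BigOperators
noncomputable section
namespace Pool.Agent.AA3

section GJ
variable {n : ℕ} {A : Type*} [CommRing A] [Algebra ℂ A]

namespace GJ

/-- derivative of the inverse Jacobian matrix -/
theorem dF {D : DS n A} (jac : Jac D) (k r l : Fin n) :
    D.d k (jac.F r l) = - ∑ a, ∑ b, jac.F r a * D.d k (jac.J a b) * jac.F b l := by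
  have h1 := CD.C2.dm_mul (D := D) k jac.F jac.J
  rw [jac.F_J, CD.C2.dm_one] at h1
  have h2 : CD.C2.dm D k jac.F = - (jac.F * CD.C2.dm D k jac.J * jac.F) := by
    have h3 : CD.C2.dm D k jac.F * jac.J = - (jac.F * CD.C2.dm D k jac.J) :=
      eq_neg_of_add_eq_zero_left h1.symm
    calc CD.C2.dm D k jac.F = CD.C2.dm D k jac.F * jac.J * jac.F := by
          rw [Matrix.mul_assoc, jac.J_F, Matrix.mul_one]
      _ = _ := by rw [h3, Matrix.neg_mul]
  have h4 := congrFun (congrFun h2 r) l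
  rw [show D.d k (jac.F r l) = CD.C2.dm D k jac.F r l from rfl, h4]
  simp only [Matrix.neg_apply, Matrix.mul_apply, CD.C2.dm, Matrix.map_apply, Finset.sum_mul]
  rw [Finset.sum_comm]

/-- symmetry of the derivatives in the new coordinates -/
theorem dF_symm {D : DS n A} (jac : Jac D) (i j l : Fin n) :
    ∑ k, jac.F k i * D.d k (jac.F l j) = ∑ k, jac.F k j * D.d k (jac.F l i) := by
  simp only [dF jac, mul_neg, Finset.sum_neg_distrib, neg_inj, Finset.mul_sum]
  have h1 : ∀ i j : Fin n, ∑ k, ∑ a, ∑ b, jac.F k i * (jac.F l a * D.d k (jac.J a b) * jac.F b j) =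
      ∑ a, ∑ k, ∑ b, jac.F k i * (jac.F l a * D.d k (jac.J a b) * jac.F b j) := fun i j =>
    Finset.sum_comm
  rw [h1, h1]
  refine Finset.sum_congr rfl fun a _ => ?_
  rw [Finset.sum_comm]
  refine Finset.sum_congr rfl fun b _ => Finset.sum_congr rfl fun k _ => ?_
  rw [jac.closed k a b]
  ring

end GJ

/-- the derivations `∂'_j = ∑ F^i_j ∂_i` -/
theorem exists_jacDS {D : DS n A} (jac : Jac D) :
    ∃ D' : DS n A, ∀ j f, D'.d j f = ∑ i, jac.F i j * D.d i f := by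
  have key : ∀ (j : Fin n) (f : A), (∑ i, jac.F i j • D.d i : Derivation ℂ A A) f =
      ∑ i, jac.F i j * D.d i f := by
    intro j f
    have : ∀ s : Finset (Fin n), (∑ i ∈ s, jac.F i j • D.d i : Derivation ℂ A A) f =
        ∑ i ∈ s, jac.F i j * D.d i f := by
      intro s
      classical
      induction s using Finset.induction_on with
      | empty => simp
      | insert a s ha ih =>
        rw [Finset.sum_insert ha, Finset.sum_insert ha, Derivation.add_apply, ih,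
          Derivation.smul_apply, smul_eq_mul]
    exact this _
  refine ⟨⟨fun j => ∑ i, jac.F i j • D.d i, ?_⟩, key⟩
  intro i j a
  rw [key, key, key]
  simp only [key, map_sum, Derivation.leibniz, smul_eq_mul, Finset.sum_add_distrib, mul_add]
  congr 1
  · simp only [Finset.mul_sum]
    rw [Finset.sum_comm]
    refine Finset.sum_congr rfl fun k _ => Finset.sum_congr rfl fun l _ => ?_
    rw [D.comm l k]
    ring
  · have h : ∀ i j : Fin n, ∑ x, jac.F x i * ∑ y, D.d y a * D.d x (jac.F y j) =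
        ∑ y, D.d y a * ∑ x, jac.F x i * D.d x (jac.F y j) := by
      intro i j
      simp only [Finset.mul_sum]
      rw [Finset.sum_comm]
      refine Finset.sum_congr rfl fun k _ => Finset.sum_congr rfl fun l _ => ?_
      ring
    rw [h, h]
    exact Finset.sum_congr rfl fun y _ => by rw [GJ.dF_symm jac i j y]

def Jac.ds {D : DS n A} (jac : Jac D) : DS n A := (exists_jacDS jac).choose
theorem Jac.ds_d {D : DS n A} (jac : Jac D) (j : Fin n) (f : A) :
    jac.ds.d j f = ∑ i, jac.F i j * D.d i f := (exists_jacDS jac).choose_spec j f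

namespace GJ

open CD CD.C2

variable {D : DS n A} (jac : Jac D) {E : Type*} [AddCommGroup E] [Module ℂ E]
    {V : VSA E} (G : CD n D V)

/-- the Jacobian matrix as a frame -/
def fr : Frame n A := ⟨jac.J, jac.F, jac.J_F, jac.F_J⟩

theorem ds_F_symm (j l r : Fin n) :
    jac.ds.d j (jac.F r l) = ∑ p, jac.F p l * D.d p (jac.F r j) := by
  rw [jac.ds_d, dF_symm jac j l r]

theorem J_ds (f : A) (i : Fin n) : ∑ j, jac.ds.d j f * jac.J j i = D.d i f := by
  simp only [jac.ds_d, Finset.sum_mul]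
  rw [Finset.sum_comm]
  have h : ∀ k, ∑ j, jac.F k j * D.d k f * jac.J j i = (jac.F * jac.J) k i * D.d k f := by
    intro k
    rw [Matrix.mul_apply, Finset.sum_mul]
    exact Finset.sum_congr rfl fun j _ => by ring
  simp only [h, jac.F_J, Matrix.one_apply]
  simp

/-- odd derivations and functions -/
theorem der_fm {X : E →ₗ[ℂ] E} (hX : ODer V X) (f : A) (v : E) :
    X (G.fm f v) = V.mul (X (G.fn f)) v + G.fm f (X v) := by
  have := hX.2 0 (G.fn f) (-1) v (G.par_fn f)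
  simpa [fm, VSA.mul] using this

theorem der_mul1 {X : E →ₗ[ℂ] E} (hX : ODer V X) {a : E} (ha : V.Par 1 a) (v : E) :
    X (V.mul a v) = V.mul (X a) v - V.mul a (X v) := by
  have := hX.2 1 a (-1) v ha
  simpa [VSA.mul, sub_eq_add_neg] using this

theorem der_Y1 {X : E →ₗ[ℂ] E} (hX : ODer V X) {a : E} (ha : V.Par 1 a) (m : ℤ) (v : E) :
    V.Y (X a) m v = X (V.Y a m v) + V.Y a m (X v) := by
  have := hX.2 1 a m v ha
  rw [this, pow_one, neg_smul, one_smul]
  abel

theorem der_Y0 {X : E →ₗ[ℂ] E} (hX : ODer V X) {a : E} (ha : V.Par 0 a) (m : ℤ) (v : E) :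
    V.Y a m (X v) = X (V.Y a m v) - V.Y (X a) m v := by
  have := hX.2 0 a m v ha
  rw [this, pow_zero, one_smul]
  abel

theorem Q1_vac : G.Q1 V.vac = 0 := by
  rw [← G.fn_one, G.Q1_fn]
  refine Finset.sum_eq_zero fun i _ => ?_
  simp [fm]

theorem mul_fm_c (f : A) (k i : Fin n) :
    V.mul (G.fm f (G.c k)) (G.c i) = G.fm f (V.mul (G.c k) (G.c i)) := by
  rw [G.mul_fm_left (G.odd_c k) (G.odd_c i) 0 (by rw [map_zero]; exact G.c_c 0 k i)
    (fun j => G.c_c (j + 1) k i)]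
  simp [fm]

theorem c_anti (k i : Fin n) : V.mul (G.c k) (G.c i) = - V.mul (G.c i) (G.c k) :=
  G.mul_anti (G.odd_c k) (G.odd_c i) 0 (by rw [zero_smul]; exact G.c_c 0 k i)
    (fun j => G.c_c (j + 1) k i)

/-- a symmetric matrix contracted with `c c` -/
theorem symm_cc (h : Fin n → Fin n → A) (hs : ∀ k i, h k i = h i k) :
    ∑ i, V.mul (∑ k, G.fm (h k i) (G.c k)) (G.c i) = 0 := by
  have h1 : ∑ i, V.mul (∑ k, G.fm (h k i) (G.c k)) (G.c i) =
      ∑ i, ∑ k, G.fm (h k i) (V.mul (G.c k) (G.c i)) := by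
    refine Finset.sum_congr rfl fun i _ => ?_
    rw [map_sum, LinearMap.sum_apply]
    exact Finset.sum_congr rfl fun k _ => mul_fm_c G _ k i
  rw [h1]
  obtain ⟨s, hs'⟩ : ∃ s, s = ∑ i, ∑ k, G.fm (h k i) (V.mul (G.c k) (G.c i)) := ⟨_, rfl⟩
  have h2 : s = - s := by
    conv_lhs => rw [hs', Finset.sum_comm]
    rw [hs', ← Finset.sum_neg_distrib]
    refine Finset.sum_congr rfl fun k _ => ?_
    rw [← Finset.sum_neg_distrib]
    refine Finset.sum_congr rfl fun i _ => ?_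
    rw [hs k i, c_anti G k i]
    simp [fm]
  have h3 : (2 : ℂ) • s = 0 := by
    rw [two_smul]
    nth_rewrite 2 [h2]
    exact add_neg_cancel s
  rw [← hs']
  exact (smul_eq_zero.mp h3).resolve_left (by norm_num)

theorem Q2_B (fr : Frame n A) (j : Fin n) : G.Q2 (G.B fr j) = 0 := by
  unfold CD.B
  rw [map_sum]
  refine Finset.sum_eq_zero fun i _ => ?_
  rw [der_fm G G.ODer_Q2, G.Q2_fn, G.Q2_b]
  simp [fm]

theorem Q2_C (fr : Frame n A) (j : Fin n) : G.Q2 (G.C fr j) = X G (fun i => fr.e j i) := by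
  unfold CD.C CD.C2.X
  rw [map_sum]
  refine Finset.sum_congr rfl fun i _ => ?_
  rw [der_fm G G.ODer_Q2, G.Q2_fn, G.Q2_c]
  simp

theorem Q1_C (l : Fin n) : G.Q1 (G.C (fr jac) l) = 0 := by
  unfold CD.C
  rw [map_sum]
  have h : ∀ i, G.Q1 (G.fm ((fr jac).e l i) (G.c i)) =
      V.mul (∑ k, G.fm (D.d k (jac.J l i)) (G.c k)) (G.c i) := by
    intro i
    rw [der_fm G G.ODer_Q1, G.Q1_fn, G.Q1_c]
    simp [fm, fr]
  rw [Finset.sum_congr rfl fun i _ => h i]
  exact symm_cc G (fun k i => D.d k (jac.J l i)) (fun k i => jac.closed k l i)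

theorem Q1_Q1_fn (f : A) : G.Q1 (G.Q1 (G.fn f)) = 0 := by
  rw [G.Q1_fn, map_sum]
  have h : ∀ i, G.Q1 (G.fm (D.d i f) (G.c i)) =
      V.mul (∑ k, G.fm (D.d k (D.d i f)) (G.c k)) (G.c i) := by
    intro i
    rw [der_fm G G.ODer_Q1, G.Q1_fn, G.Q1_c]
    simp [fm]
  rw [Finset.sum_congr rfl fun i _ => h i]
  exact symm_cc G (fun k i => D.d k (D.d i f)) (fun k i => D.comm k i f)

theorem Q1_Q1_B (fr : Frame n A) (j : Fin n) : G.Q1 (G.Q1 (G.B fr j)) = 0 := by
  unfold CD.B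
  rw [map_sum, map_sum]
  refine Finset.sum_eq_zero fun i _ => ?_
  have hp : V.Par 1 (G.Q1 (G.fn (fr.f i j))) := by
    have := G.ODer_Q1.1 0 _ (G.par_fn (fr.f i j))
    simpa using this
  rw [der_fm G G.ODer_Q1, map_add, der_mul1 G.ODer_Q1 hp, der_fm G G.ODer_Q1, Q1_Q1_fn, G.Q1_b,
    G.Q1_β]
  simp [fm]

theorem DD_B (fr : Frame n A) (j : Fin n) : G.DD (G.B fr j) = G.Q1 (G.B fr j) := by
  rw [CD.DD, LinearMap.add_apply, Q2_B, add_zero]

theorem Q2_Q1_B (hsq : ∀ v, G.DD (G.DD v) = V.T v) (fr : Frame n A) (j : Fin n) :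
    G.Q2 (G.Q1 (G.B fr j)) = V.T (G.B fr j) := by
  have h := hsq (G.B fr j)
  rw [DD_B] at h
  rw [CD.DD, LinearMap.add_apply, Q1_Q1_B, zero_add] at h
  exact h

theorem par_β' (fr : Frame n A) (j : Fin n) : V.Par 0 (G.Q1 (G.B fr j)) :=
  (G.ODer_Q1.1 1 _ (G.odd_B fr j).par).congr rfl

/-- `β' fn` -/
theorem β'_fn (fr : Frame n A) (j : Fin n) (f : A) (k : ℕ) :
    V.Y (G.Q1 (G.B fr j)) k (G.fn f) = if k = 0 then G.fn (∑ i, fr.f i j * D.d i f) else 0 := by
  rw [der_Y1 G.ODer_Q1 (G.odd_B fr j).par, (G.odd_B fr j).u_fn k f, map_zero, zero_add, G.Q1_fn]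
  have h := C1.Y_sum_fm G (fun i => fr.f i j) (fun i => D.d i f) G.b G.c G.odd_b G.odd_c
    (fun i j => if i = j then 1 else 0)
    (fun i j => by
      rw [show V.Y (G.b i) 0 (G.c j) = _ from G.b_c 0 i j]
      by_cases hij : i = j
      · simp [hij, G.fn_one]
      · simp [hij])
    (fun i j k => by rw [G.b_c (k + 1) i j]; simp) k
  rw [show G.B fr j = ∑ i, G.fm (fr.f i j) (G.b i) from rfl, h]
  simp

theorem B_b (fr : Frame n A) (j i : Fin n) (k : ℕ) : V.Y (G.B fr j) k (G.b i) = 0 := by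
  unfold CD.B
  rw [Y_sum]
  exact Finset.sum_eq_zero fun p _ =>
    Y_fm_reg G (G.par_b p) (Fr_b G i) _ (fun j => G.b_b j p i) k

theorem β_B (fr : Frame n A) (i j : Fin n) :
    V.Y (G.β i) 0 (G.B fr j) = ∑ p, G.fm (D.d i (fr.f p j)) (G.b p) ∧
      ∀ k : ℕ, V.Y (G.β i) (k + 1 : ℕ) (G.B fr j) = 0 := by
  unfold CD.B
  constructor
  · rw [map_sum]
    refine Finset.sum_congr rfl fun p _ => ?_
    rw [β_fm, show V.Y (G.β i) 0 (G.b p) = 0 from G.β_b 0 i p]
    simp [fm]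
  · intro k
    rw [map_sum]
    refine Finset.sum_eq_zero fun p _ => ?_
    have e : ((k + 1 : ℕ) : ℤ) - 1 = (k : ℤ) := by push_cast; ring
    rw [β_fm, G.β_b, e, Fr_b G p k]
    simp [fm]

theorem B_β (fr : Frame n A) (j i : Fin n) :
    V.Y (G.B fr j) 0 (G.β i) = - ∑ p, G.fm (D.d i (fr.f p j)) (G.b p) ∧
      ∀ k : ℕ, V.Y (G.B fr j) (k + 1 : ℕ) (G.β i) = 0 := by
  obtain ⟨h0, h1⟩ := β_B G fr i j
  constructor
  · have := V.skew (G.odd_B fr j).par (G.par_β i) 0 1 (fun m hm => by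
      obtain ⟨m, rfl⟩ := Nat.exists_eq_add_of_le' hm
      exact Yc (h1 m) (by push_cast; ring))
    simp only [Finset.range_one, Finset.sum_singleton, Nat.cast_zero, add_zero, h0] at this
    simpa using this
  · intro k
    have := V.skew (G.odd_B fr j).par (G.par_β i) (k + 1) 0 (fun m _ =>
      Yc (h1 (k + m)) (by push_cast; ring))
    simpa using this

theorem β'_b (fr : Frame n A) (j i : Fin n) :
    V.Y (G.Q1 (G.B fr j)) 0 (G.b i) = - ∑ p, G.fm (D.d i (fr.f p j)) (G.b p) ∧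
      ∀ k : ℕ, V.Y (G.Q1 (G.B fr j)) (k + 1 : ℕ) (G.b i) = 0 := by
  obtain ⟨h0, h1⟩ := B_β G fr j i
  constructor
  · rw [der_Y1 G.ODer_Q1 (G.odd_B fr j).par, show V.Y (G.B fr j) 0 (G.b i) = 0 from B_b G fr j i 0,
      map_zero, zero_add, G.Q1_b, h0]
  · intro k
    rw [der_Y1 G.ODer_Q1 (G.odd_B fr j).par, B_b, map_zero, zero_add, G.Q1_b, h1]

theorem β'_fm (fr : Frame n A) (j : Fin n) (f : A) (m : ℤ) (v : E) :
    V.Y (G.Q1 (G.B fr j)) m (G.fm f v) = G.fm f (V.Y (G.Q1 (G.B fr j)) m v) +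
      V.Y (G.fn (∑ i, fr.f i j * D.d i f)) (m - 1) v :=
  Y_right' G (par_β' G fr j) f _ (by simpa using β'_fn G fr j f 0)
    (fun k => by rw [β'_fn, if_neg (by omega)]) m v

theorem β'_B (j l : Fin n) (k : ℕ) :
    V.Y (G.Q1 (G.B (fr jac) j)) k (G.B (fr jac) l) = 0 := by
  rw [CD.B.eq_1 G (fr jac) l, map_sum]
  rcases Nat.eq_zero_or_pos k with rfl | hk
  · have h : ∀ p, V.Y (G.Q1 (G.B (fr jac) j)) ((0 : ℕ) : ℤ) (G.fm ((fr jac).f p l) (G.b p)) =
        - G.fm (jac.F p l) (∑ r, G.fm (D.d p (jac.F r j)) (G.b r)) +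
          G.fm (jac.ds.d j (jac.F p l)) (G.b p) := by
      intro p
      rw [β'_fm, Nat.cast_zero, (β'_b G (fr jac) j p).1, jac.ds_d]
      simp [fm, fr]
    rw [Finset.sum_congr rfl fun p _ => h p, Finset.sum_add_distrib, Finset.sum_neg_distrib,
      C1.sum_fm_sum G (fun p => jac.F p l) (fun p r => D.d p (jac.F r j)) G.b
        (fun i => C1.fr_odd G (G.odd_b i))]
    rw [neg_add_eq_zero]
    exact Finset.sum_congr rfl fun r _ => by rw [ds_F_symm]
  · obtain ⟨m, rfl⟩ := Nat.exists_eq_add_of_le' hk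
    refine Finset.sum_eq_zero fun p _ => ?_
    have e : ((m + 1 : ℕ) : ℤ) - 1 = (m : ℤ) := by push_cast; ring
    rw [β'_fm, (β'_b G (fr jac) j p).2, e, Fr_b G p m]
    simp [fm]

theorem β'_C (j l : Fin n) (k : ℕ) :
    V.Y (G.Q1 (G.B (fr jac) j)) k (G.C (fr jac) l) = 0 := by
  rw [der_Y1 G.ODer_Q1 (G.odd_B (fr jac) j).par, G.B_C, Q1_C, map_zero, add_zero]
  split_ifs
  · exact Q1_vac G
  · exact map_zero _

theorem β'_β' (j l : Fin n) (k : ℕ) :
    V.Y (G.Q1 (G.B (fr jac) j)) k (G.Q1 (G.B (fr jac) l)) = 0 := by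
  rw [der_Y0 G.ODer_Q1 (par_β' G (fr jac) j), β'_B, Q1_Q1_B]
  simp

theorem β'_X (hsq : ∀ v, G.DD (G.DD v) = V.T v) (j l : Fin n) (k : ℕ) :
    V.Y (G.Q1 (G.B (fr jac) j)) k (X G (fun i => jac.J l i)) =
      if k = 1 ∧ j = l then V.vac else 0 := by
  have h1 : X G (fun i => jac.J l i) = G.Q2 (G.C (fr jac) l) := (Q2_C G (fr jac) l).symm
  rw [h1, der_Y0 G.ODer_Q2 (par_β' G (fr jac) j), β'_C, Q2_Q1_B G hsq, map_zero, zero_sub, V.Y_T]
  rcases Nat.eq_zero_or_pos k with rfl | hk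
  · simp
  · obtain ⟨m, rfl⟩ := Nat.exists_eq_add_of_le' hk
    have e : ((m + 1 : ℕ) : ℤ) - 1 = (m : ℤ) := by push_cast; ring
    rw [e, G.B_C]
    by_cases hm : m = 0 <;> by_cases hjl : j = l <;> simp [hm, hjl]

theorem X_β' (hsq : ∀ v, G.DD (G.DD v) = V.T v) (l j : Fin n) (k : ℕ) :
    V.Y (X G (fun i => jac.J l i)) k (G.Q1 (G.B (fr jac) j)) =
      if k = 1 ∧ l = j then V.vac else 0 := by
  have h := β'_X jac G hsq j l
  have h0 : V.Y (G.Q1 (G.B (fr jac) j)) 0 (X G (fun i => jac.J l i)) = 0 := by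
    have := h 0
    simpa using this
  have h1 : V.Y (G.Q1 (G.B (fr jac) j)) 1 (X G (fun i => jac.J l i)) =
      if l = j then V.vac else 0 := by
    have := h 1
    simp only [true_and, Nat.cast_one] at this
    rw [this]
    simp only [eq_comm]
  have h2 : ∀ m : ℕ, V.Y (G.Q1 (G.B (fr jac) j)) (m + 2 : ℕ) (X G (fun i => jac.J l i)) = 0 := by
    intro m
    rw [h, if_neg (by omega)]
  rcases Nat.eq_zero_or_pos k with rfl | hk
  · have := V.skew (par_X G (fun i => jac.J l i)) (par_β' G (fr jac) j) 0 2 (fun i hi => by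
      obtain ⟨i, rfl⟩ := Nat.exists_eq_add_of_le' hi
      exact Yc (h2 i) (by push_cast; ring))
    simp only [Finset.sum_range_succ, Finset.range_zero, Finset.sum_empty, Nat.cast_zero,
      zero_add, Nat.cast_one, h0, h1] at this
    rw [Nat.cast_zero, this, if_neg (show ¬ (0 = 1 ∧ l = j) by omega)]
    split_ifs <;> simp [V.T_vac]
  · obtain ⟨m, rfl⟩ := Nat.exists_eq_add_of_le' hk
    rcases Nat.eq_zero_or_pos m with rfl | hm
    · have := V.skew (par_X G (fun i => jac.J l i)) (par_β' G (fr jac) j) 1 1 (fun i hi => by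
        obtain ⟨i, rfl⟩ := Nat.exists_eq_add_of_le' hi
        exact Yc (h2 i) (by push_cast; ring))
      simp only [Finset.range_one, Finset.sum_singleton, Nat.cast_one, add_zero, h1] at this
      rw [zero_add, Nat.cast_one, this]
      simp
    · obtain ⟨m, rfl⟩ := Nat.exists_eq_add_of_le' hm
      have := V.skew (par_X G (fun i => jac.J l i)) (par_β' G (fr jac) j) (m + 2) 0 (fun i _ =>
        Yc (h2 (m + i)) (by push_cast; ring))
      rw [if_neg (by omega)]
      show V.Y (X G (fun i => jac.J l i)) ((m + 2 : ℕ) : ℤ) (G.Q1 (G.B (fr jac) j)) = 0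
      simpa using this

theorem X_odd {u : E} (h : Fin n → A) (hu : G.Odd1 u) (k : ℕ) : V.Y (X G h) k u = 0 :=
  X_reg G h hu.fn_u (fun i j => hu.x_u j i) k

end GJ

theorem exists_jacCD {D : DS n A} (jac : Jac D) {E : Type*} [AddCommGroup E] [Module ℂ E]
    {V : VSA E} (G : CD n D V) (hsq : ∀ v, G.DD (G.DD v) = V.T v) : ∃ G' : CD n jac.ds V,
      (∀ f, G'.fn f = G.fn f) ∧ (∀ j, G'.x j = ∑ i, G.fm (jac.J j i) (G.x i)) ∧
      (∀ j, G'.c j = ∑ i, G.fm (jac.J j i) (G.c i)) ∧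
      (∀ j, G'.b j = ∑ i, G.fm (jac.F i j) (G.b i)) ∧
      ∀ j, G'.β j = G.DD (G'.b j) := by
  refine ⟨{
    fn := G.fn
    x := fun j => CD.C2.X G (fun i => jac.J j i)
    β := fun j => G.Q1 (G.B (GJ.fr jac) j)
    b := fun j => G.B (GJ.fr jac) j
    c := fun j => G.C (GJ.fr jac) j
    par_fn := G.par_fn
    par_x := fun j => CD.C2.par_X G _
    par_β := fun j => GJ.par_β' G _ j
    par_b := fun j => (G.odd_B _ j).par
    par_c := fun j => (G.odd_C _ j).par
    fn_one := G.fn_one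
    fn_mul := G.fn_mul
    T_fn := fun f => ?_
    fn_fn := G.fn_fn
    x_fn := fun k i f => CD.C2.X_fn G _ k f
    b_fn := fun k i f => (G.odd_B _ i).u_fn k f
    c_fn := fun k i f => (G.odd_C _ i).u_fn k f
    β_fn_zero := fun i f => ?_
    β_fn_succ := fun k i f => by rw [GJ.β'_fn, if_neg (by omega)]
    x_x := fun k i j => CD.C2.X_X G _ _ k
    β_β := fun k i j => GJ.β'_β' jac G i j k
    β_x := fun k i j => GJ.β'_X jac G hsq i j k
    x_β := fun k i j => GJ.X_β' jac G hsq i j k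
    b_b := fun k i j => G.B_B _ i j k
    c_c := fun k i j => G.C_C _ i j k
    b_c := fun k i j => G.B_C _ i j k
    c_b := fun k i j => G.C_B _ i j k
    x_b := fun k i j => GJ.X_odd G _ (G.odd_B _ j) k
    x_c := fun k i j => GJ.X_odd G _ (G.odd_C _ j) k
    β_b := fun k i j => GJ.β'_B jac G i j k
    β_c := fun k i j => GJ.β'_C jac G i j k }, fun f => rfl, fun j => rfl, fun j => rfl,
    fun j => rfl, fun j => (GJ.DD_B G _ j).symm⟩
  · have h : ∑ j, V.Y (G.fn (jac.ds.d j f)) (-1) (CD.C2.X G (fun i => jac.J j i)) =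
        ∑ i, G.fm (∑ j, jac.ds.d j f * jac.J j i) (G.x i) :=
      CD.C1.sum_fm_sum G (fun j => jac.ds.d j f) (fun j i => jac.J j i) G.x
        (fun i => CD.C1.fr_x G i)
    rw [h, G.T_fn]
    refine Finset.sum_congr rfl fun i _ => ?_
    rw [GJ.J_ds]
    rfl
  · have h := GJ.β'_fn G (GJ.fr jac) i f 0
    rw [if_pos rfl] at h
    rw [jac.ds_d]
    exact h

end GJ

end Pool.Agent.AA3
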