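import Pool.Agent.Lib.MP_aa3aaf_al.Stmt

/-!
Global sections of the smooth chiral de Rham complex: sections of the local vertex algebras over
the charts of the atlas which agree on overlaps after the standard change of coordinates.
-/

set_option autoImplicit false
open scoped BigOperators ContDiff Manifold
noncomputable section
namespace Pool.Agent.AA3

section Change
variable {n : ℕ} {A A' : Type*} [CommRing A] [Algebra ℂ A] [CommRing A'] [Algebra ℂ A']

/-- The coordinate change of the chiral de Rham complex. `(A, ∂)` are functions with the partial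
derivatives of the coordinates `x^i`, `(A', ∂')` those of the coordinates `x'^j`,
`h` transports functions (it is `f ↦ f(x'(x))`), and `X j` is the function `x'^j` in `A`.
With `J^j_i = ∂x'^j/∂x^i` and `F = J⁻¹`, the map `τ` takes
`f(γ')` to `h(f)(γ)`, `∂γ'^j` to `∑ J^j_i ∂γ^i`, `c'^j` to `∑ J^j_i c^i`,
`b'_j` to `∑ F^i_j b_i`, the vacuum to the vacuum, and it commutes with the supersymmetry
(so `β'_j`, the superpartner of `b'_j`, goes to the superpartner of `∑ F^i_j b_i`). -/
structure IsCoordChange (D : DS n A) (D' : DS n A') (h : A' → A) (X : Fin n → A)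
    (τ : EE n A' →ₗ[ℂ] EE n A) : Prop where
  vac : τ (vacE n A') = vacE n A
  fn : ∀ (f : A') (m : ℤ) v, τ ((fnF D' f).1 m v) = (fnF D (h f)).1 m (τ v)
  x : ∀ (j : Fin n) (m : ℤ) v, τ ((xF n A' j).1 m v) =
    (∑ i, nop (fnF D (D.d i (X j))) (xF n A i)).1 m (τ v)
  c : ∀ (j : Fin n) (m : ℤ) v, τ ((cF n A' j).1 m v) =
    (∑ i, nop (fnF D (D.d i (X j))) (cF n A i)).1 m (τ v)
  b : ∀ (j : Fin n) (m : ℤ) v, τ ((bF n A' j).1 m v) =
    (∑ i, nop (fnF D ((Matrix.of fun j i => D.d i (X j))⁻¹ i j)) (bF n A i)).1 m (τ v)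
  susy : ∀ v, τ (susyOp D' v) = susyOp D (τ v)

end Change

section
variable {M : Type*} [TopologicalSpace M] [ChartedSpace (Eu 7) M]

/-- the overlap of the charts `e` and `e'`, in the coordinates of `e` -/
def ovl (e e' : Ch M) : TopologicalSpace.Opens (Eu 7) :=
  ⟨e.1.target ∩ e.1.symm ⁻¹' e'.1.source, e.1.symm.isOpen_inter_preimage e'.1.open_source⟩

/-- A section over the coordinate domain of `e` and one over that of `e'` (both given by their
states) agree on the overlap: the restriction of the first is the image of the second under the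
change of coordinates. -/
def Agree (e e' : Ch M) (s : EE 7 (CR e)) (s' : EE 7 (CR e')) : Prop :=
  ∃ (r : CR e →ₐ[ℂ] smooth (ovl e e')) (h : CR e' →ₐ[ℂ] smooth (ovl e e'))
    (X : Fin 7 → smooth (ovl e e')) (τ : EE 7 (CR e') →ₗ[ℂ] EE 7 (smooth (ovl e e'))),
    (∀ f y, (r f).1 y = f.1 ⟨y.1, y.2.1⟩) ∧
    (∀ f y, (h f).1 y = f.1 ⟨e'.1 (e.1.symm y.1), e'.1.map_source y.2.2⟩) ∧
    (∀ j y, (X j).1 y = ((e'.1 (e.1.symm y.1) j : ℝ) : ℂ)) ∧
    IsCoordChange (DSmooth (ovl e e')) (DSmooth (tgt e'.1)) h X τ ∧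
    Finsupp.mapRange r (map_zero r) s = τ s'

/-- The vertex algebra of sections over the coordinate domain of the chart `e`, as fields on the
Fock space: it is generated by `f(γ)`, `∂γ^i`, `β_i`, `b_i`, `c^i`. -/
def localSec (e : Ch M) : Submodule ℂ (Fld (EE 7 (CR e))) :=
  sInf {W | idFld _ ∈ W ∧ (∀ f, fnF (DSmooth (tgt e.1)) f ∈ W) ∧
    (∀ i, xF 7 (CR e) i ∈ W ∧ βF (DSmooth (tgt e.1)) i ∈ W ∧ bF 7 (CR e) i ∈ W ∧
      cF 7 (CR e) i ∈ W) ∧
    ∀ m a b, a ∈ W → b ∈ W → nprod (sgC 7 (CR e)) m a b ∈ W}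

variable (M)

/-- Global sections of the chiral de Rham complex `Ω^ch_M`: families of sections over the
coordinate domains which agree on all overlaps. The state of a field `P` is `P₍₋₁₎ 1`. -/
def GlobalSec : Set (∀ e : Ch M, Fld (EE 7 (CR e))) :=
  {P | (∀ e, P e ∈ localSec e) ∧
    ∀ e e' : Ch M, Agree e e' ((P e).1 (-1) (vacE 7 _)) ((P e').1 (-1) (vacE 7 _))}

end

/-- The full statement: `V₊` and `V₋` consist of global sections of the chiral de Rham complex
and are simple. -/
def FullStatement : Prop :=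
  ∀ (M : Type) [TopologicalSpace M] [ChartedSpace (Eu 7) M] [IsManifold 𝓘(ℝ, Eu 7) ∞ M]
    [Nonempty M] (S : G2Structure M), S.TorsionFree →
    (((S.VPlus : Set (∀ e : Ch M, Fld (EE 7 (CR e)))) ⊆ GlobalSec M) ∧
      ((S.VMinus : Set (∀ e : Ch M, Fld (EE 7 (CR e)))) ⊆ GlobalSec M)) ∧
    (chartAlg M).IsSimple S.VPlus ∧ (chartAlg M).IsSimple S.VMinus

end Pool.Agent.AA3
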