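import Pool.Agent.Lib.MP_aa3aaf_al.FockVSA

/-!
Universal property of the Fock space (task GU): the Fock space is the universal vertex
superalgebra with chiral data over `(A, ∂)`.
-/

set_option autoImplicit false
open scoped BigOperators
noncomputable section
namespace Pool.Agent.AA3

namespace GU

/-! ### Products of operators -/
section Words
variable {E' : Type*} [AddCommGroup E'] [Module ℂ E'] {α : Type*}

/-- product of commuting operators along a multiset -/
def mprod (σ : α → Module.End ℂ E') (h : ∀ p q, σ p * σ q = σ q * σ p) (s : Multiset α) :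
    Module.End ℂ E' :=
  haveI : LeftCommutative (fun (p : α) (P : Module.End ℂ E') => σ p * P) :=
    ⟨fun p q P => by rw [← mul_assoc, ← mul_assoc, h]⟩
  Multiset.foldr (fun p P => σ p * P) 1 s

lemma mprod_zero (σ : α → Module.End ℂ E') (h : ∀ p q, σ p * σ q = σ q * σ p) :
    mprod σ h 0 = 1 := by
  simp [mprod]

lemma mprod_cons (σ : α → Module.End ℂ E') (h : ∀ p q, σ p * σ q = σ q * σ p) (p : α)
    (s : Multiset α) : mprod σ h (p ::ₘ s) = σ p * mprod σ h s := by
  simp [mprod]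

lemma mprod_comm (σ : α → Module.End ℂ E') (h : ∀ p q, σ p * σ q = σ q * σ p)
    (C : Module.End ℂ E') (hC : ∀ p, C * σ p = σ p * C) (s : Multiset α) :
    C * mprod σ h s = mprod σ h s * C := by
  induction s using Multiset.induction_on with
  | empty => rw [mprod_zero, mul_one, one_mul]
  | cons p s ih => rw [mprod_cons, ← mul_assoc, hC, mul_assoc, ih, mul_assoc]

variable [LinearOrder α]

/-- ordered product of anticommuting operators along a finite set -/
def fprod (σ : α → Module.End ℂ E') (S : Finset α) : Module.End ℂ E' :=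
  ((S.sort (· ≤ ·)).map σ).prod

lemma fprod_empty (σ : α → Module.End ℂ E') : fprod σ ∅ = 1 := by
  simp [fprod]

lemma fprod_min (σ : α → Module.End ℂ E') (a : α) (S : Finset α) (h : ∀ b ∈ S, a < b) :
    fprod σ (insert a S) = σ a * fprod σ S := by
  have h2 : a ∉ S := fun ha => lt_irrefl a (h a ha)
  rw [fprod, fprod, Finset.sort_insert (· ≤ ·) (fun b hb => (h b hb).le) h2, List.map_cons,
    List.prod_cons]

lemma fprod_insert (σ : α → Module.End ℂ E') (h : ∀ s t, σ s * σ t = -(σ t * σ s)) (t : α)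
    (S : Finset α) : t ∉ S →
    fprod σ (insert t S) = (-1 : ℂ) ^ (S.filter (· < t)).card • (σ t * fprod σ S) := by
  induction S using Finset.induction_on_min with
  | empty => intro _; rw [fprod_min _ _ _ (by simp)]; simp
  | insert a S ha ih =>
    intro ht
    rw [Finset.mem_insert, not_or] at ht
    obtain ⟨hta, htS⟩ := ht
    rcases lt_or_gt_of_ne hta with hlt | hlt
    · have e1 : (insert a S).filter (· < t) = ∅ := by
        rw [Finset.filter_eq_empty_iff]
        intro b hb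
        rw [Finset.mem_insert] at hb
        rcases hb with rfl | hb
        · exact not_lt.mpr hlt.le
        · exact not_lt.mpr (hlt.trans (ha b hb)).le
      rw [e1, Finset.card_empty, pow_zero, one_smul]
      refine fprod_min _ _ _ fun b hb => ?_
      rw [Finset.mem_insert] at hb
      rcases hb with rfl | hb
      · exact hlt
      · exact hlt.trans (ha b hb)
    · have haS : a ∉ S := fun h => lt_irrefl a (ha a h)
      have e1 : (insert a S).filter (· < t) = insert a (S.filter (· < t)) := by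
        rw [Finset.filter_insert, if_pos hlt]
      rw [e1, Finset.card_insert_of_notMem (by simp [haS]), Finset.insert_comm,
        fprod_min σ a (insert t S), ih htS, fprod_min σ a S ha, mul_smul_comm, ← mul_assoc,
        ← mul_assoc, h a t, pow_succ, mul_neg_one, neg_smul, neg_mul, smul_neg]
      intro b hb
      rw [Finset.mem_insert] at hb
      rcases hb with rfl | hb
      · exact hlt
      · exact ha b hb

lemma fprod_mem (σ : α → Module.End ℂ E') (h : ∀ s t, σ s * σ t = -(σ t * σ s))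
    (t : α) (S : Finset α) : t ∈ S → σ t * fprod σ S = 0 := by
  induction S using Finset.induction_on_min with
  | empty => intro ht; simp at ht
  | insert a S ha ih =>
    intro ht
    rw [fprod_min σ a S ha, ← mul_assoc]
    rw [Finset.mem_insert] at ht
    rcases ht with rfl | ht
    · have h2 : σ t * σ t = 0 := by
        have h3 : (2 : ℂ) • (σ t * σ t) = 0 := by
          rw [two_smul]
          nth_rewrite 1 [h t t]
          exact neg_add_cancel _
        exact (smul_eq_zero.mp h3).resolve_left two_ne_zero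
      rw [h2, zero_mul]
    · rw [h, neg_mul, mul_assoc, ih ht, mul_zero, neg_zero]

end Words

/-! ### Relations of the modes of the chiral data -/
section Modes
variable {n : ℕ} {A : Type*} [CommRing A] [Algebra ℂ A] {D : DS n A}
  {E' : Type*} [AddCommGroup E'] [Module ℂ E'] {V' : VSA E'} (G' : CD n D V')

/-- the odd generators -/
def gf (t : Bool) (i : Fin n) : E' := if t then G'.b i else G'.c i

lemma par_gf (t : Bool) (i : Fin n) : V'.Par 1 (gf G' t i) := by
  cases t
  · exact G'.par_c i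
  · exact G'.par_b i

lemma reg {q : ℕ} {a b : E'} (ha : V'.Par 0 a) (hb : V'.Par q b)
    (h : ∀ j : ℕ, V'.Y a j b = 0) (m k : ℤ) (v : E') :
    V'.Y a m (V'.Y b k v) = V'.Y b k (V'.Y a m v) := by
  have := V'.comm_of_regular ha hb h m k v
  rwa [zero_mul, pow_zero, one_smul] at this

lemma x_x (i j : Fin n) (m k : ℤ) (v : E') :
    V'.Y (G'.x i) m (V'.Y (G'.x j) k v) = V'.Y (G'.x j) k (V'.Y (G'.x i) m v) :=
  reg (G'.par_x i) (G'.par_x j) (fun l => G'.x_x l i j) m k v

lemma β_β (i j : Fin n) (m k : ℤ) (v : E') :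
    V'.Y (G'.β i) m (V'.Y (G'.β j) k v) = V'.Y (G'.β j) k (V'.Y (G'.β i) m v) :=
  reg (G'.par_β i) (G'.par_β j) (fun l => G'.β_β l i j) m k v

lemma x_f (t : Bool) (i j : Fin n) (m k : ℤ) (v : E') :
    V'.Y (G'.x i) m (V'.Y (gf G' t j) k v) = V'.Y (gf G' t j) k (V'.Y (G'.x i) m v) := by
  refine reg (G'.par_x i) (par_gf G' t j) (fun l => ?_) m k v
  cases t
  · exact G'.x_c l i j
  · exact G'.x_b l i j

lemma β_f (t : Bool) (i j : Fin n) (m k : ℤ) (v : E') :
    V'.Y (G'.β i) m (V'.Y (gf G' t j) k v) = V'.Y (gf G' t j) k (V'.Y (G'.β i) m v) := by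
  refine reg (G'.par_β i) (par_gf G' t j) (fun l => ?_) m k v
  cases t
  · exact G'.β_c l i j
  · exact G'.β_b l i j

lemma fn_fn (f g : A) (m k : ℤ) (v : E') :
    V'.Y (G'.fn f) m (V'.Y (G'.fn g) k v) = V'.Y (G'.fn g) k (V'.Y (G'.fn f) m v) :=
  reg (G'.par_fn f) (G'.par_fn g) (fun l => G'.fn_fn l f g) m k v

lemma x_fn (i : Fin n) (f : A) (m k : ℤ) (v : E') :
    V'.Y (G'.x i) m (V'.Y (G'.fn f) k v) = V'.Y (G'.fn f) k (V'.Y (G'.x i) m v) :=
  reg (G'.par_x i) (G'.par_fn f) (fun l => G'.x_fn l i f) m k v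

lemma f_fn (t : Bool) (i : Fin n) (f : A) (m k : ℤ) (v : E') :
    V'.Y (gf G' t i) m (V'.Y (G'.fn f) k v) = V'.Y (G'.fn f) k (V'.Y (gf G' t i) m v) := by
  have h : ∀ l : ℕ, V'.Y (gf G' t i) l (G'.fn f) = 0 := fun l => by
    cases t
    · exact G'.c_fn l i f
    · exact G'.b_fn l i f
  have := V'.comm_of_regular (par_gf G' t i) (G'.par_fn f) h m k v
  rwa [mul_zero, pow_zero, one_smul] at this

lemma β_fn (i : Fin n) (f : A) (m k : ℤ) (v : E') :
    V'.Y (G'.β i) m (V'.Y (G'.fn f) k v) - V'.Y (G'.fn f) k (V'.Y (G'.β i) m v)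
      = V'.Y (G'.fn (D.d i f)) (m + k) v := by
  have h1 := V'.comm 0 0 (G'.β i) (G'.fn f) (G'.par_β i) (G'.par_fn f) 1 (fun j hj => by
    obtain ⟨l, rfl⟩ := Nat.exists_eq_add_of_le' hj
    exact G'.β_fn_succ l i f) m k v
  rw [zero_mul, pow_zero, one_smul, Finset.sum_range_one, F2.bin_zero, one_smul, Nat.cast_zero,
    G'.β_fn_zero, sub_zero] at h1
  exact h1

lemma β_x (i j : Fin n) (m k : ℤ) (v : E') :
    V'.Y (G'.β i) m (V'.Y (G'.x j) k v) - V'.Y (G'.x j) k (V'.Y (G'.β i) m v)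
      = if m + k = 0 ∧ i = j then (m : ℂ) • v else 0 := by
  have h1 := V'.comm_of_pole2 (G'.par_β i) (G'.par_x j) (if i = j then 1 else 0)
    (by rw [show (0 : ℤ) = ((0 : ℕ) : ℤ) from rfl, G'.β_x, if_neg (by simp)])
    (by
      rw [show (1 : ℤ) = ((1 : ℕ) : ℤ) from rfl, G'.β_x]
      by_cases h : i = j
      · simp [h]
      · simp [h])
    (fun l => by rw [G'.β_x, if_neg (by omega)]) m k v
  rw [zero_mul, pow_zero, one_smul] at h1
  rw [h1]
  by_cases h : i = j
  · simp [h]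
  · simp [h]

lemma f_f (t t' : Bool) (i j : Fin n) (m k : ℤ) (v : E') :
    V'.Y (gf G' t i) m (V'.Y (gf G' t' j) k v) + V'.Y (gf G' t' j) k (V'.Y (gf G' t i) m v)
      = if t ≠ t' ∧ i = j ∧ m + k = -1 then v else 0 := by
  have hv : ∀ l : ℕ, V'.Y (gf G' t i) l (gf G' t' j)
      = if l = 0 ∧ t ≠ t' ∧ i = j then V'.vac else 0 := fun l => by
    cases t <;> cases t'
    · simpa [gf] using G'.c_c l i j
    · simpa [gf] using G'.c_b l i j
    · simpa [gf] using G'.b_c l i j
    · simpa [gf] using G'.b_b l i j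
  have h1 := V'.comm_of_pole (par_gf G' t i) (par_gf G' t' j) (if t ≠ t' ∧ i = j then 1 else 0)
    (by
      rw [show (0 : ℤ) = ((0 : ℕ) : ℤ) from rfl, hv]
      by_cases h : t ≠ t' ∧ i = j
      · rw [if_pos h, if_pos ⟨rfl, h⟩, one_smul]
      · rw [if_neg h, if_neg (fun h' => h h'.2), zero_smul])
    (fun l => by rw [hv, if_neg (by omega)]) m k v
  rw [mul_one, pow_one, neg_smul, one_smul, sub_neg_eq_add] at h1
  rw [h1]
  by_cases h : t ≠ t' ∧ i = j
  · rw [if_pos h, one_smul]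
    exact if_congr ⟨fun h' => ⟨h.1, h.2, h'⟩, fun h' => h'.2.2⟩ rfl rfl
  · have h2 : ¬ (t ≠ t' ∧ i = j ∧ m + k = -1) := fun h' => h ⟨h'.1, h'.2.1⟩
    rw [if_neg h, zero_smul, ite_self, if_neg h2]

/-! ### The map on monomials -/

/-- creation modes of `x` -/
def sx (p : Bl n) : Module.End ℂ E' := V'.Y (G'.x p.1) (-(p.2 : ℤ) - 1)
/-- creation modes of `β` -/
def sy (p : Bl n) : Module.End ℂ E' := V'.Y (G'.β p.1) (-(p.2 : ℤ) - 1)
/-- creation modes of `c` and `b` -/
def sf (t : Fl n) : Module.End ℂ E' :=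
  V'.Y (gf G' (ofLex t).1 (ofLex (ofLex t).2).1) (-((ofLex (ofLex t).2).2 : ℤ) - 1)

lemma sf_fl (t : Bool) (i : Fin n) (k : ℕ) :
    sf G' (fl t i k) = V'.Y (gf G' t i) (-(k : ℤ) - 1) := rfl

lemma sx_comm (p q : Bl n) : sx G' p * sx G' q = sx G' q * sx G' p :=
  LinearMap.ext fun v => x_x G' _ _ _ _ v

lemma sy_comm (p q : Bl n) : sy G' p * sy G' q = sy G' q * sy G' p :=
  LinearMap.ext fun v => β_β G' _ _ _ _ v

lemma sy_sx (p q : Bl n) : sy G' p * sx G' q = sx G' q * sy G' p :=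
  LinearMap.ext fun v => by
    have h := β_x G' p.1 q.1 (-(p.2 : ℤ) - 1) (-(q.2 : ℤ) - 1) v
    rw [if_neg (by omega), sub_eq_zero] at h
    exact h

lemma sf_sx (t : Fl n) (q : Bl n) : sf G' t * sx G' q = sx G' q * sf G' t :=
  LinearMap.ext fun v => (x_f G' _ _ _ _ _ v).symm

lemma sf_sy (t : Fl n) (q : Bl n) : sf G' t * sy G' q = sy G' q * sf G' t :=
  LinearMap.ext fun v => (β_f G' _ _ _ _ _ v).symm

lemma sf_sf (s t : Fl n) : sf G' s * sf G' t = -(sf G' t * sf G' s) :=
  LinearMap.ext fun v => by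
    have h := f_f G' (ofLex s).1 (ofLex t).1 (ofLex (ofLex s).2).1 (ofLex (ofLex t).2).1
      (-((ofLex (ofLex s).2).2 : ℤ) - 1) (-((ofLex (ofLex t).2).2 : ℤ) - 1) v
    rw [if_neg (by omega)] at h
    exact eq_neg_of_add_eq_zero_left h

/-- the map on the Fock space -/
def tau : EE n A →ₗ[ℂ] E' :=
  Finsupp.lsum ℂ fun w : Mon n =>
    (mprod (sx G') (sx_comm G') w.1 * (mprod (sy G') (sy_comm G') w.2.1 *
      fprod (sf G') w.2.2)) ∘ₗ G'.fn

lemma tau_single (w : Mon n) (r : A) : tau G' (Finsupp.single w r)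
    = mprod (sx G') (sx_comm G') w.1 (mprod (sy G') (sy_comm G') w.2.1
      (fprod (sf G') w.2.2 (G'.fn r))) := by
  rw [tau, Finsupp.lsum_single]
  rfl

lemma tau_base (r : A) : tau G' (Finsupp.single ((0, 0, ∅) : Mon n) r) = G'.fn r := by
  rw [tau_single, mprod_zero, mprod_zero, fprod_empty]
  rfl

lemma tau_vac : tau G' (vacE n A) = V'.vac := by
  rw [vacE, tau_base, G'.fn_one]

lemma tau_xcr (p : Bl n) (v : EE n A) : tau G' (xcr p v) = sx G' p (tau G' v) := by
  induction v using Finsupp.induction_linear with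
  | zero => simp
  | add u v hu hv => simp only [map_add, hu, hv]
  | single w r => rw [xcr_single, tau_single, tau_single, mprod_cons]; rfl

lemma tau_ycr (p : Bl n) (v : EE n A) : tau G' (ycr p v) = sy G' p (tau G' v) := by
  induction v using Finsupp.induction_linear with
  | zero => simp
  | add u v hu hv => simp only [map_add, hu, hv]
  | single w r =>
    rw [ycr_single, tau_single, tau_single, mprod_cons]
    exact (LinearMap.congr_fun (mprod_comm (sx G') (sx_comm G') (sy G' p)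
      (fun q => sy_sx G' p q) w.1) _).symm

lemma tau_fcr (t : Fl n) (v : EE n A) : tau G' (fcr t v) = sf G' t (tau G' v) := by
  induction v using Finsupp.induction_linear with
  | zero => simp
  | add u v hu hv => simp only [map_add, hu, hv]
  | single w r =>
    have h1 : ∀ u, sf G' t (mprod (sx G') (sx_comm G') w.1 u)
        = mprod (sx G') (sx_comm G') w.1 (sf G' t u) := fun u =>
      LinearMap.congr_fun (mprod_comm (sx G') (sx_comm G') (sf G' t)
        (fun q => sf_sx G' t q) w.1) u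
    have h2 : ∀ u, sf G' t (mprod (sy G') (sy_comm G') w.2.1 u)
        = mprod (sy G') (sy_comm G') w.2.1 (sf G' t u) := fun u =>
      LinearMap.congr_fun (mprod_comm (sy G') (sy_comm G') (sf G' t)
        (fun q => sf_sy G' t q) w.2.1) u
    rw [fcr_single, tau_single, h1, h2]
    by_cases ht : t ∈ w.2.2
    · have h3 : sf G' t (fprod (sf G') w.2.2 (G'.fn r)) = 0 :=
        LinearMap.congr_fun (fprod_mem (sf G') (sf_sf G') t w.2.2 ht) _
      rw [if_pos ht, h3, map_zero, map_zero, map_zero]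
    · have h3 : r * fsg A t w.2.2
          = (-1 : ℂ) ^ (w.2.2.filter (· < t)).card • r := by
        rw [fsg, Algebra.smul_def, map_pow, map_neg, map_one, mul_comm]
      have h4 : (-1 : ℂ) ^ (w.2.2.filter (· < t)).card
          * (-1 : ℂ) ^ (w.2.2.filter (· < t)).card = 1 := F2.sgn_sq _
      rw [if_neg ht, tau_single, h3]
      simp only [fprod_insert (sf G') (sf_sf G') t w.2.2 ht, map_smul, LinearMap.smul_apply,
        smul_smul, h4, one_smul]
      rfl

/-! ### Intertwining -/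

/-- creation modes intertwine -/
lemma tau_xMo_neg (i : Fin n) (m : ℤ) (hm : m < 0) (v : EE n A) :
    tau G' (xMo n A i m v) = V'.Y (G'.x i) m (tau G' v) := by
  rw [K1.xMo_neg i m hm, tau_xcr, sx]
  have : (-(((-m - 1).toNat : ℕ) : ℤ) - 1) = m := by omega
  simp only [this]

lemma tau_βMo_neg (i : Fin n) (m : ℤ) (hm : m < 0) (v : EE n A) :
    tau G' (βMo D i m v) = V'.Y (G'.β i) m (tau G' v) := by
  rw [K1.βMo_neg D i m hm, tau_ycr, sy]
  have : (-(((-m - 1).toNat : ℕ) : ℤ) - 1) = m := by omega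
  simp only [this]

lemma tau_fMo_neg (t : Bool) (i : Fin n) (m : ℤ) (hm : m < 0) (v : EE n A) :
    tau G' (fMo n A t i m v) = V'.Y (gf G' t i) m (tau G' v) := by
  rw [K1.fMo_neg t i m hm, tau_fcr, sf_fl]
  have : (-(((-m - 1).toNat : ℕ) : ℤ) - 1) = m := by omega
  simp only [this]

variable (D) in
/-- induction over the creation modes -/
theorem ind' {P : EE n A → Prop} (hz : P 0) (hadd : ∀ u v, P u → P v → P (u + v))
    (h0 : ∀ r, P (Finsupp.single ((0, 0, ∅) : Mon n) r))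
    (hx : ∀ i (k : ℤ) v, k < 0 → P v → P (xMo n A i k v))
    (hy : ∀ i (k : ℤ) v, k < 0 → P v → P (βMo D i k v))
    (hf : ∀ t i (k : ℤ) v, k < 0 → P v → P (fMo n A t i k v)) : ∀ v, P v := by
  refine K3.ind hz hadd h0 ?_ ?_ ?_
  · rintro ⟨i, k⟩ v hv
    have := hx i (-(k : ℤ) - 1) v (by omega) hv
    rw [K1.xMo_neg i _ (by omega)] at this
    have e1 : (-(-(k : ℤ) - 1) - 1).toNat = k := by omega
    rwa [e1] at this
  · rintro ⟨i, k⟩ v hv
    have := hy i (-(k : ℤ) - 1) v (by omega) hv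
    rw [K1.βMo_neg D i _ (by omega)] at this
    have e1 : (-(-(k : ℤ) - 1) - 1).toNat = k := by omega
    rwa [e1] at this
  · intro t v hv
    obtain ⟨s, i, k, rfl⟩ : ∃ (s : Bool) (i : Fin n) (k : ℕ), t = fl s i k :=
      ⟨(ofLex t).1, (ofLex (ofLex t).2).1, (ofLex (ofLex t).2).2, rfl⟩
    have := hf s i (-(k : ℤ) - 1) v (by omega) hv
    rw [K1.fMo_neg s i _ (by omega)] at this
    have e1 : (-(-(k : ℤ) - 1) - 1).toNat = k := by omega
    rwa [e1] at this

/-- one step of the induction: `O C = ε C O + K` on both sides -/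
lemma step (τ : EE n A →ₗ[ℂ] E') (O C K : EE n A → EE n A) (O' C' K' : E' → E') (ε : ℂ)
    (v : EE n A) (hC : ∀ v, τ (C v) = C' (τ v)) (hr : O (C v) = ε • C (O v) + K v)
    (hr' : O' (C' (τ v)) = ε • C' (O' (τ v)) + K' (τ v)) (hK : τ (K v) = K' (τ v))
    (hv : τ (O v) = O' (τ v)) : τ (O (C v)) = O' (τ (C v)) := by
  rw [hr, map_add, map_smul, hC, hC, hr', hv, hK]

lemma tau_xMo (i : Fin n) (m : ℤ) (v : EE n A) :
    tau G' (xMo n A i m v) = V'.Y (G'.x i) m (tau G' v) := by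
  rcases lt_or_ge m 0 with hm | hm
  · exact tau_xMo_neg G' i m hm v
  refine ind' D (P := fun v => tau G' (xMo n A i m v) = V'.Y (G'.x i) m (tau G' v))
    ?_ ?_ ?_ ?_ ?_ ?_ v
  · simp
  · intro u v hu hv; simp only [map_add, hu, hv]
  · intro r
    obtain ⟨k, rfl⟩ := Int.eq_ofNat_of_zero_le hm
    rw [← K4.fn_eq D, xMo_fnMo, xMo_vac, map_zero, map_zero, K4.fn_eq, tau_base, G'.x_fn]
  · intro j k v hk hv
    exact step (tau G') (xMo n A i m) (xMo n A j k) (fun _ => 0) (V'.Y (G'.x i) m)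
      (V'.Y (G'.x j) k) (fun _ => 0) 1 v (tau_xMo_neg G' j k hk)
      (by rw [one_smul, add_zero, xMo_xMo]) (by rw [one_smul, add_zero, x_x]) (map_zero _) hv
  · intro j k v hk hv
    refine step (tau G') (xMo n A i m) (βMo D j k)
      (fun v => -(if k + m = 0 ∧ j = i then (k : ℂ) • v else 0)) (V'.Y (G'.x i) m)
      (V'.Y (G'.β j) k) (fun v => -(if k + m = 0 ∧ j = i then (k : ℂ) • v else 0)) 1 v
      (tau_βMo_neg G' j k hk) ?_ ?_ ?_ hv
    · rw [one_smul, ← βMo_xMo D j i k m v]; abel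
    · rw [one_smul, ← β_x G' j i k m]; abel
    · simp only [map_neg]
      split_ifs
      · rw [map_smul]
      · rw [map_zero]
  · intro t j k v hk hv
    exact step (tau G') (xMo n A i m) (fMo n A t j k) (fun _ => 0) (V'.Y (G'.x i) m)
      (V'.Y (gf G' t j) k) (fun _ => 0) 1 v (tau_fMo_neg G' t j k hk)
      (by rw [one_smul, add_zero, xMo_fMo]) (by rw [one_smul, add_zero, x_f]) (map_zero _) hv

lemma tau_βMo (i : Fin n) (m : ℤ) (v : EE n A) :
    tau G' (βMo D i m v) = V'.Y (G'.β i) m (tau G' v) := by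
  rcases lt_or_ge m 0 with hm | hm
  · exact tau_βMo_neg G' i m hm v
  refine ind' D (P := fun v => tau G' (βMo D i m v) = V'.Y (G'.β i) m (tau G' v))
    ?_ ?_ ?_ ?_ ?_ ?_ v
  · simp
  · intro u v hu hv; simp only [map_add, hu, hv]
  · intro r
    obtain ⟨k, rfl⟩ := Int.eq_ofNat_of_zero_le hm
    have h1 := βMo_fnMo D i r (k : ℤ) (-1) (vacE n A)
    rw [βMo_vac, map_zero, sub_zero, K4.fn_eq] at h1
    rw [h1, tau_base]
    cases k with
    | zero =>
      rw [Nat.cast_zero, zero_add, K4.fn_eq, tau_base]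
      exact (G'.β_fn_zero i r).symm
    | succ k =>
      have e : ((k + 1 : ℕ) : ℤ) + -1 = (k : ℤ) := by push_cast; ring
      rw [e, fnMo_vac, map_zero, G'.β_fn_succ]
  · intro j k v hk hv
    refine step (tau G') (βMo D i m) (xMo n A j k)
      (fun v => (if m + k = 0 ∧ i = j then (m : ℂ) • v else 0)) (V'.Y (G'.β i) m)
      (V'.Y (G'.x j) k) (fun v => (if m + k = 0 ∧ i = j then (m : ℂ) • v else 0)) 1 v
      (tau_xMo_neg G' j k hk) ?_ ?_ ?_ hv
    · rw [one_smul, ← βMo_xMo D i j m k v]; abel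
    · rw [one_smul, ← β_x G' i j m k]; abel
    · split_ifs
      · rw [map_smul]
      · rw [map_zero]
  · intro j k v hk hv
    exact step (tau G') (βMo D i m) (βMo D j k) (fun _ => 0) (V'.Y (G'.β i) m)
      (V'.Y (G'.β j) k) (fun _ => 0) 1 v (tau_βMo_neg G' j k hk)
      (by rw [one_smul, add_zero, βMo_βMo]) (by rw [one_smul, add_zero, β_β]) (map_zero _) hv
  · intro t j k v hk hv
    exact step (tau G') (βMo D i m) (fMo n A t j k) (fun _ => 0) (V'.Y (G'.β i) m)
      (V'.Y (gf G' t j) k) (fun _ => 0) 1 v (tau_fMo_neg G' t j k hk)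
      (by rw [one_smul, add_zero, βMo_fMo]) (by rw [one_smul, add_zero, β_f]) (map_zero _) hv

lemma tau_fMo (t : Bool) (i : Fin n) (m : ℤ) (v : EE n A) :
    tau G' (fMo n A t i m v) = V'.Y (gf G' t i) m (tau G' v) := by
  rcases lt_or_ge m 0 with hm | hm
  · exact tau_fMo_neg G' t i m hm v
  refine ind' D (P := fun v => tau G' (fMo n A t i m v) = V'.Y (gf G' t i) m (tau G' v))
    ?_ ?_ ?_ ?_ ?_ ?_ v
  · simp
  · intro u v hu hv; simp only [map_add, hu, hv]
  · intro r
    obtain ⟨k, rfl⟩ := Int.eq_ofNat_of_zero_le hm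
    have h : ∀ l : ℕ, V'.Y (gf G' t i) l (G'.fn r) = 0 := fun l => by
      cases t
      · exact G'.c_fn l i r
      · exact G'.b_fn l i r
    rw [← K4.fn_eq D, fMo_fnMo, fMo_vac, map_zero, map_zero, K4.fn_eq, tau_base, h]
  · intro j k v hk hv
    exact step (tau G') (fMo n A t i m) (xMo n A j k) (fun _ => 0) (V'.Y (gf G' t i) m)
      (V'.Y (G'.x j) k) (fun _ => 0) 1 v (tau_xMo_neg G' j k hk)
      (by rw [one_smul, add_zero, xMo_fMo]) (by rw [one_smul, add_zero, x_f]) (map_zero _) hv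
  · intro j k v hk hv
    exact step (tau G') (fMo n A t i m) (βMo D j k) (fun _ => 0) (V'.Y (gf G' t i) m)
      (V'.Y (G'.β j) k) (fun _ => 0) 1 v (tau_βMo_neg G' j k hk)
      (by rw [one_smul, add_zero, βMo_fMo]) (by rw [one_smul, add_zero, β_f]) (map_zero _) hv
  · intro s j k v hk hv
    refine step (tau G') (fMo n A t i m) (fMo n A s j k)
      (fun v => (if t ≠ s ∧ i = j ∧ m + k = -1 then v else 0)) (V'.Y (gf G' t i) m)
      (V'.Y (gf G' s j) k) (fun v => (if t ≠ s ∧ i = j ∧ m + k = -1 then v else 0)) (-1) v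
      (tau_fMo_neg G' s j k hk) ?_ ?_ ?_ hv
    · rw [neg_one_smul, ← fMo_fMo t s i j m k v]; abel
    · rw [neg_one_smul, ← f_f G' t s i j m k]; abel
    · split_ifs
      · rfl
      · rw [map_zero]

/-- modes of functions on functions, both sides -/
lemma tau_base_fn (s : ℕ) : ∀ (g r : A),
    tau G' (fnMo D g (-(s : ℤ) - 1) (Finsupp.single ((0, 0, ∅) : Mon n) r))
      = V'.Y (G'.fn g) (-(s : ℤ) - 1) (G'.fn r) := by
  induction s using Nat.strong_induction_on with
  | _ s ih =>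
    intro g r
    cases s with
    | zero =>
      have e : (-((0 : ℕ) : ℤ) - 1) = -1 := by norm_num
      rw [e, fnMo_neg_one, tau_base, G'.fn_mul]
    | succ s =>
      have hE : fnMo D g (-((s + 1 : ℕ) : ℤ) - 1) (Finsupp.single ((0, 0, ∅) : Mon n) r)
          = (1 / ((s : ℂ) + 1)) • ∑ i : Fin n, ∑ k ∈ Finset.range (s + 1),
            xMo n A i (-(k : ℤ) - 1) (fnMo D (D.d i g) (-((s - k : ℕ) : ℤ) - 1)
              (Finsupp.single ((0, 0, ∅) : Mon n) r)) := by
        rw [K2.fnMo_eq, K2.fnA_no_y]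
        have e1 : (-(-((s + 1 : ℕ) : ℤ) - 1) - 1) = ((s + 1 : ℕ) : ℤ) := by ring
        rw [e1, K2.SopZ_nat, K2.Sop_succ, algebraMap_smul]
        congr 1
        refine Finset.sum_congr rfl fun i _ => ?_
        rw [Finset.sum_range]
        refine Finset.sum_congr rfl fun k _ => ?_
        rw [K1.xMo_neg i _ (by omega)]
        have e2 : (-(-((k : ℕ) : ℤ) - 1) - 1).toNat = (k : ℕ) := by omega
        rw [e2, K2.fnMo_eq, K2.fnA_no_y]
        have e3 : (-(-((s - (k : ℕ) : ℕ) : ℤ) - 1) - 1) = ((s - (k : ℕ) : ℕ) : ℤ) := by ring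
        rw [e3, K2.SopZ_nat]
      have hE' : V'.Y (G'.fn g) (-((s + 1 : ℕ) : ℤ) - 1) (G'.fn r)
          = (1 / ((s : ℂ) + 1)) • ∑ i : Fin n, ∑ k ∈ Finset.range (s + 1),
            V'.Y (G'.x i) (-(k : ℤ) - 1) (V'.Y (G'.fn (D.d i g)) (-((s - k : ℕ) : ℤ) - 1)
              (G'.fn r)) := by
        have hT := V'.Y_T (G'.fn g) (-(s : ℤ) - 1) (G'.fn r)
        have e1 : (-(s : ℤ) - 1 - 1) = (-((s + 1 : ℕ) : ℤ) - 1) := by push_cast; ring
        have e2 : (-((-(s : ℤ) - 1 : ℤ) : ℂ)) = (s : ℂ) + 1 := by push_cast; ring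
        rw [e1, e2] at hT
        have hs : ((s : ℂ) + 1) ≠ 0 := by exact_mod_cast Nat.succ_ne_zero s
        rw [← inv_smul_smul₀ hs (V'.Y (G'.fn g) (-((s + 1 : ℕ) : ℤ) - 1) (G'.fn r)), ← hT,
          one_div]
        congr 1
        rw [G'.T_fn, map_sum, Finset.sum_apply, LinearMap.sum_apply]
        refine Finset.sum_congr rfl fun i _ => ?_
        have hM := V'.Y_mul (G'.par_fn (D.d i g)) (G'.par_x i) (-(s : ℤ) - 1) (G'.fn r) (s + 1)
          (fun j hj => by
            obtain ⟨l, rfl⟩ := Nat.exists_eq_add_of_le hj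
            have e : (-(s : ℤ) - 1 + ((s + 1 + l : ℕ) : ℤ)) = ((l : ℕ) : ℤ) := by
              push_cast; ring
            rw [e, G'.x_fn, G'.fn_fn]
            exact ⟨rfl, rfl⟩)
        refine hM.trans ?_
        rw [← Finset.sum_range_reflect]
        refine Finset.sum_congr rfl fun k hk => ?_
        rw [Finset.mem_range] at hk
        rw [G'.fn_fn, map_zero, smul_zero, add_zero]
        have e3 : (-1 - ((s + 1 - 1 - k : ℕ) : ℤ)) = (-((s - k : ℕ) : ℤ) - 1) := by omega
        have e4 : (-(s : ℤ) - 1 + ((s + 1 - 1 - k : ℕ) : ℤ)) = -(k : ℤ) - 1 := by omega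
        rw [e3, e4, x_fn]
      rw [hE, hE', map_smul, map_sum]
      congr 1
      refine Finset.sum_congr rfl fun i _ => ?_
      rw [map_sum]
      refine Finset.sum_congr rfl fun k hk => ?_
      rw [Finset.mem_range] at hk
      rw [tau_xMo, ih (s - k) (by omega)]

lemma tau_fnMo (v : EE n A) : ∀ (f : A) (m : ℤ),
    tau G' (fnMo D f m v) = V'.Y (G'.fn f) m (tau G' v) := by
  refine ind' D (P := fun v => ∀ (f : A) (m : ℤ),
    tau G' (fnMo D f m v) = V'.Y (G'.fn f) m (tau G' v)) ?_ ?_ ?_ ?_ ?_ ?_ v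
  · simp
  · intro u v hu hv f m; simp only [map_add, hu, hv]
  · intro r f m
    rcases lt_or_ge m 0 with hm | hm
    · obtain ⟨s, rfl⟩ : ∃ s : ℕ, m = -(s : ℤ) - 1 := ⟨(-m - 1).toNat, by omega⟩
      rw [tau_base_fn, tau_base]
    · obtain ⟨k, rfl⟩ := Int.eq_ofNat_of_zero_le hm
      rw [K4.fn_add, map_zero, tau_base, G'.fn_fn]
  · intro j k v hk hv f m
    exact step (tau G') (fnMo D f m) (xMo n A j k) (fun _ => 0) (V'.Y (G'.fn f) m)
      (V'.Y (G'.x j) k) (fun _ => 0) 1 v (tau_xMo_neg G' j k hk)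
      (by rw [one_smul, add_zero, xMo_fnMo]) (by rw [one_smul, add_zero, x_fn]) (map_zero _)
      (hv f m)
  · intro j k v hk hv f m
    refine step (tau G') (fnMo D f m) (βMo D j k) (fun v => -fnMo D (D.d j f) (k + m) v)
      (V'.Y (G'.fn f) m) (V'.Y (G'.β j) k) (fun v => -V'.Y (G'.fn (D.d j f)) (k + m) v) 1 v
      (tau_βMo_neg G' j k hk) ?_ ?_ ?_ (hv f m)
    · rw [one_smul, ← βMo_fnMo D j f k m v]; abel
    · rw [one_smul, ← β_fn G' j f k m]; abel
    · rw [map_neg, hv]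
  · intro t j k v hk hv f m
    exact step (tau G') (fnMo D f m) (fMo n A t j k) (fun _ => 0) (V'.Y (G'.fn f) m)
      (V'.Y (gf G' t j) k) (fun _ => 0) 1 v (tau_fMo_neg G' t j k hk)
      (by rw [one_smul, add_zero, fMo_fnMo]) (by rw [one_smul, add_zero, f_fn]) (map_zero _)
      (hv f m)

lemma tau_sg (v : EE n A) : tau G' (sgE n A v) = V'.sg (tau G' v) := by
  have s0 : ∀ {a : E'}, V'.Par 0 a → V'.sg a = a := fun {a} h => by
    rw [VSA.Par, pow_zero, one_smul] at h; exact h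
  refine ind' D (P := fun v => tau G' (sgE n A v) = V'.sg (tau G' v)) ?_ ?_ ?_ ?_ ?_ ?_ v
  · simp
  · intro u v hu hv; simp only [map_add, hu, hv]
  · intro r
    rw [K1.sgE_single, Finset.card_empty, pow_zero, mul_one, tau_base, s0 (G'.par_fn r)]
  · intro i k v hk hv
    rw [sgE_xMo, tau_xMo, tau_xMo, hv, V'.sg_Y, s0 (G'.par_x i)]
  · intro i k v hk hv
    rw [sgE_βMo, tau_βMo, tau_βMo, hv, V'.sg_Y, s0 (G'.par_β i)]
  · intro t i k v hk hv
    have h := par_gf G' t i
    rw [VSA.Par, pow_one, neg_one_smul] at h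
    rw [sgE_fMo, map_neg, tau_fMo, tau_fMo, hv, V'.sg_Y, h, map_neg, Pi.neg_apply,
      LinearMap.neg_apply]

end Modes

end GU

section GU
variable {n : ℕ} {A : Type*} [CommRing A] [Algebra ℂ A]

open GU in
/-- The Fock space is the universal vertex algebra with chiral data over `(A, ∂)`. -/
theorem exists_univ (D : DS n A) {E' : Type*} [AddCommGroup E'] [Module ℂ E'] (V' : VSA E')
    (G' : CD n D V') : ∃ τ : EE n A →ₗ[ℂ] E', τ (vacE n A) = V'.vac ∧
      (∀ v, τ ((vsaE D).sg v) = V'.sg (τ v)) ∧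
      (∀ f, τ ((cdE D).fn f) = G'.fn f) ∧ (∀ i, τ ((cdE D).x i) = G'.x i) ∧
      (∀ i, τ ((cdE D).β i) = G'.β i) ∧ (∀ i, τ ((cdE D).c i) = G'.c i) ∧
      (∀ i, τ ((cdE D).b i) = G'.b i) ∧
      ∀ a m v, τ ((vsaE D).Y a m v) = V'.Y (τ a) m (τ v) := by
  have hvac : tau G' (vsaE D).vac = V'.vac := by rw [vsaE_vac, tau_vac]
  have hst : ∀ a : EE n A, tau G' a = tau G' ((vsaE D).Y a (-1) (vsaE D).vac) := fun a => by
    rw [(vsaE D).create]
  have hfn : ∀ f, tau G' ((cdE D).fn f) = G'.fn f := fun f => by rw [cdE_fn, tau_base]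
  have hx : ∀ i, tau G' ((cdE D).x i) = G'.x i := fun i => by
    rw [hst, Y_x, tau_xMo, hvac, V'.create]
  have hβ : ∀ i, tau G' ((cdE D).β i) = G'.β i := fun i => by
    rw [hst, Y_β, tau_βMo, hvac, V'.create]
  have hc : ∀ i, tau G' ((cdE D).c i) = G'.c i := fun i => by
    rw [hst, Y_c, tau_fMo, hvac, V'.create]; rfl
  have hb : ∀ i, tau G' ((cdE D).b i) = G'.b i := fun i => by
    rw [hst, Y_b, tau_fMo, hvac, V'.create]; rfl
  have hsg : ∀ v, tau G' ((vsaE D).sg v) = V'.sg (tau G' v) := fun v => by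
    rw [vsaE_sg, tau_sg]
  refine ⟨tau G', tau_vac G', hsg, hfn, hx, hβ, hc, hb, ?_⟩
  refine (vsaE D).hom_of_gen V' (tau G').toAddMonoidHom (genE D) ?_ (genE_span D) hvac hsg ?_
  · intro g hg
    simp only [genE, Set.mem_union, Set.mem_range] at hg
    rcases hg with (((⟨i, rfl⟩ | ⟨i, rfl⟩) | ⟨i, rfl⟩) | ⟨i, rfl⟩) | ⟨f, rfl⟩
    · exact ⟨0, (cdE D).par_x i, by
        change V'.Par 0 (tau G' _)
        rw [hx]; exact G'.par_x i⟩
    · exact ⟨0, (cdE D).par_β i, by
        change V'.Par 0 (tau G' _)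
        rw [hβ]; exact G'.par_β i⟩
    · exact ⟨1, (cdE D).par_c i, by
        change V'.Par 1 (tau G' _)
        rw [hc]; exact G'.par_c i⟩
    · exact ⟨1, (cdE D).par_b i, by
        change V'.Par 1 (tau G' _)
        rw [hb]; exact G'.par_b i⟩
    · exact ⟨0, (cdE D).par_fn f, by
        change V'.Par 0 (tau G' _)
        rw [hfn]; exact G'.par_fn f⟩
  · intro g hg m v
    change tau G' ((vsaE D).Y g m v) = V'.Y (tau G' g) m (tau G' v)
    simp only [genE, Set.mem_union, Set.mem_range] at hg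
    rcases hg with (((⟨i, rfl⟩ | ⟨i, rfl⟩) | ⟨i, rfl⟩) | ⟨i, rfl⟩) | ⟨f, rfl⟩
    · rw [Y_x, tau_xMo, hx]
    · rw [Y_β, tau_βMo, hβ]
    · rw [Y_c, tau_fMo, hc]; rfl
    · rw [Y_b, tau_fMo, hb]; rfl
    · rw [Y_fn, tau_fnMo, hfn]

/-- uniqueness: maps out of the Fock space compatible with the generating fields -/
theorem univ_unique (D : DS n A) {E' : Type*} [AddCommGroup E'] [Module ℂ E']
    (τ τ' : EE n A →ₗ[ℂ] E') (h0 : τ (vacE n A) = τ' (vacE n A))
    (hfn : ∀ f m v, τ v = τ' v → τ (fnMo D f m v) = τ' (fnMo D f m v))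
    (hx : ∀ i m v, τ v = τ' v → τ (xMo n A i m v) = τ' (xMo n A i m v))
    (hβ : ∀ i m v, τ v = τ' v → τ (βMo D i m v) = τ' (βMo D i m v))
    (hf : ∀ t i m v, τ v = τ' v → τ (fMo n A t i m v) = τ' (fMo n A t i m v)) : τ = τ' := by
  let S : AddSubgroup (EE n A) := (LinearMap.eqLocus τ τ').toAddSubgroup
  have hS : S = ⊤ := span_EE D S h0 (fun i m v hv => hx i m v hv) (fun i m v hv => hβ i m v hv)
    (fun t i m v hv => hf t i m v hv) (fun f m v hv => hfn f m v hv)
  refine LinearMap.ext fun v => ?_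
  have hv : v ∈ S := hS ▸ AddSubgroup.mem_top v
  exact hv

end GU

end Pool.Agent.AA3
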