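import Pool.Agent.Lib.MP_aa3aaf_al.Bridge3
import Pool.Agent.Lib.MP_aa3aaf_al.Sheaf
import Pool.Agent.Lib.MP_aa3aaf_al.JacCD
import Pool.Agent.Lib.MP_aa3aaf_al.Univ

/-!
The coordinate change of the chiral de Rham complex: existence, uniqueness, base change, and
invariance of the coordinate expressions of `Φ₊`, `Φ₋`.
-/

set_option autoImplicit false
open scoped BigOperators
noncomputable section
namespace Pool.Agent.AA3

namespace Chg

section Lin
variable {n : ℕ} {A A' : Type*} [CommRing A] [Algebra ℂ A] [CommRing A'] [Algebra ℂ A']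

/-- base change as a linear map -/
def twL (h : A' →ₐ[ℂ] A) : EE n A' →ₗ[ℂ] EE n A where
  toFun := tw h.toRingHom 1 1
  map_add' := map_add _
  map_smul' := B3.tw_smul h.toRingHom 1 1 (fun z => h.commutes z)

theorem twL_apply (h : A' →ₐ[ℂ] A) (v : EE n A') : twL h v = tw h.toRingHom 1 1 v := rfl

theorem twL_gens (D' : DS n A') (D : DS n A) (h : A' →ₐ[ℂ] A) :
    (∀ f, twL h ((cdE D').fn f) = (cdE D).fn (h f)) ∧
    (∀ i, twL h ((cdE D').x i) = (cdE D).x i) ∧
    (∀ i, twL h ((cdE D').β i) = (cdE D).β i) ∧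
    (∀ i, twL h ((cdE D').c i) = (cdE D).c i) ∧
    (∀ i, twL h ((cdE D').b i) = (cdE D).b i) ∧
    twL h (vacE n A') = vacE n A := by
  obtain ⟨h1, h2, h3, h4, h5, h6⟩ := tw_gens D' D h.toRingHom 1 1
  refine ⟨h1, fun i => ?_, fun i => ?_, fun i => ?_, fun i => ?_, h6⟩
  · rw [twL_apply, h2, Units.val_one, inv_one, one_smul]
  · rw [twL_apply, h3, Units.val_one, one_smul]
  · rw [twL_apply, h4, Units.val_one, one_smul]
  · rw [twL_apply, h5, Units.val_one, inv_one, one_smul]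

theorem twL_Y (D' : DS n A') (D : DS n A) (h : A' →ₐ[ℂ] A)
    (hl : ∀ i f, h (D'.d i f) = D.d i (h f)) (a : EE n A') (m : ℤ) (v : EE n A') :
    twL h ((vsaE D').Y a m v) = (vsaE D).Y (twL h a) m (twL h v) :=
  tw_Y D' D h.toRingHom 1 1 (fun i f => by rw [Units.val_one, one_smul]; exact hl i f) a m v

theorem twL_DD (D' : DS n A') (D : DS n A) (h : A' →ₐ[ℂ] A)
    (hl : ∀ i f, h (D'.d i f) = D.d i (h f)) (v : EE n A') :
    twL h ((cdE D').DD v) = (cdE D).DD (twL h v) := by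
  have hl' : ∀ i f, h.toRingHom (D'.d i f) = ((1 : ℂˣ) : ℂ) • D.d i (h.toRingHom f) :=
    fun i f => by rw [Units.val_one, one_smul]; exact hl i f
  rw [CD.DD, CD.DD, LinearMap.add_apply, LinearMap.add_apply, map_add, twL_apply, twL_apply,
    tw_Q1 D' D h.toRingHom 1 1 hl', tw_Q2 D' D h.toRingHom 1 1 hl']
  simp only [mul_one, inv_one, Units.val_one, one_smul]
  rfl

theorem twL_sg (D' : DS n A') (D : DS n A) (h : A' →ₐ[ℂ] A) (v : EE n A') :
    twL h ((vsaE D').sg v) = (vsaE D).sg (twL h v) := by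
  rw [vsaE_sg, vsaE_sg, twL_apply, twL_apply, TwistAux.tw_sgE]

/-- sum of normally ordered products of a function with a field -/
theorem sum_nop (D : DS n A) (f : Fin n → A) (u : Fin n → EE n A) (g : Fin n → Fld (EE n A))
    (hg : ∀ i, g i = (vsaE D).Yf (u i)) :
    ∑ i, nop (fnF D (f i)) (g i) = (vsaE D).Yf (∑ i, (cdE D).fm (f i) (u i)) := by
  rw [B2.Yf_sum']
  refine Finset.sum_congr rfl fun i _ => ?_
  rw [hg i, B2.fnF_eq, B2.nop_Yf D]
  rfl

end Lin

section Gen
variable {n : ℕ} {A : Type*} [CommRing A] [Algebra ℂ A] {D : DS n A}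
  {E : Type*} [AddCommGroup E] [Module ℂ E] {V : VSA E} (G : CD n D V)

/-- `D (∑ f_i c^i) = ∑ f_i x^i` for a closed 1-form `f`. -/
theorem DD_closed (f : Fin n → A) (hf : ∀ k i, D.d k (f i) = D.d i (f k)) :
    G.DD (∑ i, G.fm (f i) (G.c i)) = ∑ i, G.fm (f i) (G.x i) := by
  have hD := G.ODer_DD
  have h1 : ∀ i, G.DD (G.fm (f i) (G.c i)) =
      (∑ j, G.fm (D.d j (f i)) (V.mul (G.c j) (G.c i))) + G.fm (f i) (G.x i) := by
    intro i
    have h2 := hD.2 0 (G.fn (f i)) (-1) (G.c i) (G.par_fn _)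
    rw [pow_zero, one_smul, B2.DD_c, B2.DD_fn] at h2
    rw [CD.fm, h2]
    congr 1
    have h3 : V.Y (∑ j, G.fm (D.d j (f i)) (G.c j)) (-1) (G.c i)
        = ∑ j, V.mul (G.fm (D.d j (f i)) (G.c j)) (G.c i) := by
      change V.mul _ _ = _
      rw [map_sum, LinearMap.sum_apply]
    rw [h3]
    refine Finset.sum_congr rfl fun j _ => ?_
    rw [G.mul_fm_left (G.odd_c j) (G.odd_c i) 0 (by rw [map_zero]; exact_mod_cast G.c_c 0 j i)
      (fun k => G.c_c (k + 1) j i)]
    simp only [mul_zero, CD.fm, map_zero, Pi.zero_apply, LinearMap.zero_apply,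
      Finset.sum_const_zero, add_zero]
  rw [map_sum, Finset.sum_congr rfl (fun i _ => h1 i), Finset.sum_add_distrib]
  have h4 : ∑ i, ∑ j, G.fm (D.d j (f i)) (V.mul (G.c j) (G.c i)) = 0 := by
    have h5 : ∑ i, ∑ j, G.fm (D.d j (f i)) (V.mul (G.c j) (G.c i))
        = - ∑ i, ∑ j, G.fm (D.d j (f i)) (V.mul (G.c j) (G.c i)) := by
      conv_lhs => rw [Finset.sum_comm]
      rw [← Finset.sum_neg_distrib]
      refine Finset.sum_congr rfl fun i _ => ?_
      rw [← Finset.sum_neg_distrib]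
      refine Finset.sum_congr rfl fun j _ => ?_
      rw [hf, B2.c_c_anti G i j]
      simp only [CD.fm, map_neg]
    have h6 : (2 : ℂ) • ∑ i, ∑ j, G.fm (D.d j (f i)) (V.mul (G.c j) (G.c i)) = 0 := by
      rw [two_smul]
      nth_rewrite 1 [h5]
      exact neg_add_cancel _
    exact (smul_eq_zero.mp h6).resolve_left two_ne_zero
  rw [h4, zero_add]

/-- matrices of functions acting on a family of states on which functions act regularly -/
theorem sum_fm_fm (P : Fin n → A) (Q : Matrix (Fin n) (Fin n) A) (u : Fin n → E)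
    (hu : ∀ i, G.Fr (u i)) :
    ∑ j, G.fm (P j) (∑ i, G.fm (Q j i) (u i)) = ∑ i, G.fm (∑ j, P j * Q j i) (u i) := by
  have h1 : ∀ j, G.fm (P j) (∑ i, G.fm (Q j i) (u i)) = ∑ i, G.fm (P j * Q j i) (u i) := by
    intro j
    rw [G.fm_sum_right]
    exact Finset.sum_congr rfl fun i _ => G.fm_fm _ _ (hu i)
  rw [Finset.sum_congr rfl fun j _ => h1 j, Finset.sum_comm]
  refine Finset.sum_congr rfl fun i _ => ?_
  rw [G.fm_sum]

/-- `Φ₋` of a frame -/
def PhiM (fr : Frame n A) (φ : Fin n → Fin n → Fin n → ℂ) : E :=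
  ∑ a, ∑ b, ∑ c, φ a b c • V.mul (G.ch fr a) (V.mul (G.ch fr b) (G.ch fr c))

end Gen

section Hom
variable {n : ℕ} {A A' : Type*} [CommRing A] [Algebra ℂ A] [CommRing A'] [Algebra ℂ A']

/-- a homomorphism which commutes with the supersymmetry on the generators commutes with it -/
theorem susy_of_gens (D' : DS n A') {E : Type*} [AddCommGroup E] [Module ℂ E] (V : VSA E)
    (X : E →ₗ[ℂ] E) (hX : CD.ODer V X) (τ : EE n A' →ₗ[ℂ] E)
    (hvac : τ (vsaE D').vac = V.vac) (hsg : ∀ v, τ ((vsaE D').sg v) = V.sg (τ v))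
    (hY : ∀ a m v, τ ((vsaE D').Y a m v) = V.Y (τ a) m (τ v))
    (hg : ∀ g ∈ genE D', τ ((cdE D').DD g) = X (τ g)) (v : EE n A') :
    τ ((cdE D').DD v) = X (τ v) := by
  have hD := DD_ODer D'
  let S : AddSubgroup (EE n A') :=
    { carrier := {v | τ ((cdE D').DD v) = X (τ v)}
      zero_mem' := by simp
      add_mem' := by
        intro a b ha hb
        change τ ((cdE D').DD (a + b)) = X (τ (a + b))
        have ha' : τ ((cdE D').DD a) = X (τ a) := ha
        have hb' : τ ((cdE D').DD b) = X (τ b) := hb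
        rw [map_add, map_add, map_add, map_add, ha', hb']
      neg_mem' := by
        intro a ha
        change τ ((cdE D').DD (-a)) = X (τ (-a))
        have ha' : τ ((cdE D').DD a) = X (τ a) := ha
        rw [map_neg, map_neg, map_neg, map_neg, ha'] }
  have hS : S = ⊤ := by
    refine genE_span D' S ?_ ?_
    · change τ ((cdE D').DD (vsaE D').vac) = X (τ (vsaE D').vac)
      rw [B2.oder_vac (vsaE D') hD, hvac, B2.oder_vac V hX, map_zero]
    · intro g hg' m w hw
      have hw' : τ ((cdE D').DD w) = X (τ w) := hw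
      change τ ((cdE D').DD ((vsaE D').Y g m w)) = X (τ ((vsaE D').Y g m w))
      rw [B2.oder_Y (vsaE D') hD, map_add, hY, hY, hY, B2.oder_Y V hX, hg g hg', hw', hsg]
  have : v ∈ S := by rw [hS]; trivial
  exact this

/-- a map compatible with the generating fields is unique -/
theorem uniq (D : DS n A) (D' : DS n A') (h : A' → A) (X : Fin n → A)
    (τ τ' : EE n A' →ₗ[ℂ] EE n A) (h1 : IsCoordChange D D' h X τ)
    (h2 : IsCoordChange D D' h X τ') : τ = τ' := by
  have hD := DD_ODer D'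
  let S : AddSubgroup (EE n A') :=
    { carrier := {v | τ v = τ' v}
      zero_mem' := by simp
      add_mem' := by
        intro a b ha hb
        change τ (a + b) = τ' (a + b)
        have ha' : τ a = τ' a := ha
        have hb' : τ b = τ' b := hb
        rw [map_add, map_add, ha', hb']
      neg_mem' := by
        intro a ha
        change τ (-a) = τ' (-a)
        have ha' : τ a = τ' a := ha
        rw [map_neg, map_neg, ha'] }
  have hS : S = ⊤ := by
    refine genE_span D' S ?_ ?_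
    · change τ (vsaE D').vac = τ' (vsaE D').vac
      rw [vsaE_vac, h1.vac, h2.vac]
    · intro g hg m w hw
      have hw' : τ w = τ' w := hw
      change τ ((vsaE D').Y g m w) = τ' ((vsaE D').Y g m w)
      have eb : ∀ (i : Fin n) (v : EE n A'), (vsaE D').Y ((cdE D').b i) m v
          = (bF n A' i).1 m v := by
        intro i v; rw [B2.bF_eq D']; rfl
      rcases hg with (((⟨i, rfl⟩ | ⟨i, rfl⟩) | ⟨i, rfl⟩) | ⟨i, rfl⟩) | ⟨f, rfl⟩
      · have e : (vsaE D').Y ((cdE D').x i) m w = (xF n A' i).1 m w := by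
          rw [B2.xF_eq D']; rfl
        rw [e, h1.x, h2.x, hw']
      · have e : (vsaE D').Y ((cdE D').β i) m w =
            susyOp D' ((bF n A' i).1 m w) + (bF n A' i).1 m (susyOp D' w) := by
          rw [susyOp_eq, ← eb, ← eb, B2.oder_Y (vsaE D') hD, B2.DD_b, (cdE D').par_b i, pow_one,
            neg_smul, one_smul]
          have e2 : (vsaE D').Y (-(cdE D').b i) m ((cdE D').DD w) =
              -(vsaE D').Y ((cdE D').b i) m ((cdE D').DD w) := by
            rw [map_neg]; rfl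
          rw [e2, neg_add_cancel_right]
        rw [e, map_add, map_add, h1.susy, h2.susy, h1.b, h1.b, h2.b, h2.b, h1.susy, h2.susy, hw']
      · have e : (vsaE D').Y ((cdE D').c i) m w = (cF n A' i).1 m w := by
          rw [B2.cF_eq D']; rfl
        rw [e, h1.c, h2.c, hw']
      · rw [eb, h1.b, h2.b, hw']
      · have e : (vsaE D').Y ((cdE D').fn f) m w = (fnF D' f).1 m w := by
          rw [B2.fnF_eq D']; rfl
        rw [e, h1.fn, h2.fn, hw']
  refine LinearMap.ext fun v => ?_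
  have : v ∈ S := by rw [hS]; trivial
  exact this

variable (D : DS n A) (D' : DS n A') (h : A' →ₐ[ℂ] A) (X : Fin n → A)
    (jac : Jac D) (hJ : ∀ j i, jac.J j i = D.d i (X j))
    (hh : ∀ j f, h (D'.d j f) = ∑ i, jac.F i j * D.d i (h f))
include hJ hh

/-- the coordinate change, with all its data -/
theorem exists_data : ∃ (G' : CD n jac.ds (vsaE D)) (σ : EE n A →ₗ[ℂ] EE n A),
    ((∀ f, G'.fn f = (cdE D).fn f) ∧
      (∀ j, G'.c j = ∑ i, (cdE D).fm (jac.J j i) ((cdE D).c i)) ∧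
      (∀ j, G'.b j = ∑ i, (cdE D).fm (jac.F i j) ((cdE D).b i))) ∧
    ((∀ f, σ ((cdE jac.ds).fn f) = G'.fn f) ∧
      (∀ i, σ ((cdE jac.ds).c i) = G'.c i) ∧
      (∀ i, σ ((cdE jac.ds).b i) = G'.b i) ∧
      ∀ a m v, σ ((vsaE jac.ds).Y a m v) = (vsaE D).Y (σ a) m (σ v)) ∧
    (∀ i f, h (D'.d i f) = jac.ds.d i (h f)) ∧
    IsCoordChange D D' h X (σ ∘ₗ twL h) ∧
    ∀ a m v, (σ ∘ₗ twL h) ((vsaE D').Y a m v) =
      (vsaE D).Y ((σ ∘ₗ twL h) a) m ((σ ∘ₗ twL h) v) := by
  obtain ⟨G', gfn, gx, gc, gb, gβ⟩ := exists_jacCD jac (cdE D) (DD_sq D)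
  obtain ⟨σ, svac, ssg, sfn, sx, sβ, sc, sb, sY⟩ := exists_univ jac.ds (vsaE D) G'
  have hl : ∀ i f, h (D'.d i f) = jac.ds.d i (h f) := by
    intro i f
    rw [hh, jac.ds_d]
  obtain ⟨tfn, tx, tβ, tc, tb, tvac⟩ := twL_gens D' jac.ds h
  have tY := twL_Y D' jac.ds h hl
  set τ : EE n A' →ₗ[ℂ] EE n A := σ ∘ₗ twL h with hτ
  have τfn : ∀ f, τ ((cdE D').fn f) = (cdE D).fn (h f) := by
    intro f
    change σ (twL h _) = _
    rw [tfn, sfn, gfn]
  have τx : ∀ j, τ ((cdE D').x j) = ∑ i, (cdE D).fm (jac.J j i) ((cdE D).x i) := by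
    intro j
    change σ (twL h _) = _
    rw [tx, sx, gx]
  have τc : ∀ j, τ ((cdE D').c j) = ∑ i, (cdE D).fm (jac.J j i) ((cdE D).c i) := by
    intro j
    change σ (twL h _) = _
    rw [tc, sc, gc]
  have τb : ∀ j, τ ((cdE D').b j) = ∑ i, (cdE D).fm (jac.F i j) ((cdE D).b i) := by
    intro j
    change σ (twL h _) = _
    rw [tb, sb, gb]
  have τβ : ∀ j, τ ((cdE D').β j) = (cdE D).DD (τ ((cdE D').b j)) := by
    intro j
    rw [τb, ← gb]
    change σ (twL h _) = _
    rw [tβ, sβ, gβ]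
  have τvac : τ (vacE n A') = vacE n A := by
    change σ (twL h _) = _
    rw [tvac, svac, vsaE_vac]
  have τY : ∀ a m v, τ ((vsaE D').Y a m v) = (vsaE D).Y (τ a) m (τ v) := by
    intro a m v
    change σ (twL h _) = _
    rw [tY, sY]
    rfl
  have τsg : ∀ v, τ ((vsaE D').sg v) = (vsaE D).sg (τ v) := by
    intro v
    change σ (twL h _) = _
    rw [twL_sg D' jac.ds h, ssg]
    rfl
  have τfm : ∀ f v, τ ((cdE D').fm f v) = (cdE D).fm (h f) (τ v) := by
    intro f v
    rw [CD.fm, τY, τfn]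
    rfl
  have τT : ∀ a, τ ((vsaE D').T a) = (vsaE D).T (τ a) := by
    intro a
    change τ ((vsaE D').Y a (-2) (vsaE D').vac) = (vsaE D).Y (τ a) (-2) (vsaE D).vac
    rw [τY, vsaE_vac, vsaE_vac, τvac]
  have hDc : ∀ j, (cdE D).DD (τ ((cdE D').c j)) = τ ((cdE D').x j) := by
    intro j
    rw [τc, τx]
    exact DD_closed (cdE D) (jac.J j) fun k i => jac.closed k j i
  have hFrc : ∀ i, (cdE D).Fr ((cdE D).c i) := fun i k f => ((cdE D).odd_c i).fn_u k f
  have hsusy : ∀ v, τ ((cdE D').DD v) = (cdE D).DD (τ v) := by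
    apply susy_of_gens D' (vsaE D) (cdE D).DD (DD_ODer D) τ
    · rw [vsaE_vac, vsaE_vac, τvac]
    · exact τsg
    · exact τY
    · intro g hg
      rcases hg with (((⟨i, rfl⟩ | ⟨i, rfl⟩) | ⟨i, rfl⟩) | ⟨i, rfl⟩) | ⟨f, rfl⟩
      · rw [B2.DD_x, τT, ← hDc, DD_sq]
      · rw [B2.DD_β, τT, τβ, DD_sq]
      · rw [B2.DD_c, hDc]
      · rw [B2.DD_b, τβ]
      · rw [B2.DD_fn, map_sum, τfn, B2.DD_fn]
        have e1 : ∀ j, τ ((cdE D').fm (D'.d j f) ((cdE D').c j)) =
            (cdE D).fm (∑ i, jac.F i j * D.d i (h f))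
              (∑ i, (cdE D).fm (jac.J j i) ((cdE D).c i)) := by
          intro j
          rw [τfm, τc, hh]
        rw [Finset.sum_congr rfl fun j _ => e1 j,
          sum_fm_fm (cdE D) (fun j => ∑ i, jac.F i j * D.d i (h f)) jac.J _ hFrc]
        refine Finset.sum_congr rfl fun k _ => ?_
        congr 1
        have e2 : ∀ i, ∑ j, jac.F i j * jac.J j k = if i = k then 1 else 0 := by
          intro i
          have := congrFun (congrFun jac.F_J i) k
          rw [Matrix.mul_apply, Matrix.one_apply] at this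
          exact this
        calc ∑ j, (∑ i, jac.F i j * D.d i (h f)) * jac.J j k
            = ∑ j, ∑ i, jac.F i j * jac.J j k * D.d i (h f) := by
              refine Finset.sum_congr rfl fun j _ => ?_
              rw [Finset.sum_mul]
              exact Finset.sum_congr rfl fun i _ => by ring
          _ = ∑ i, (∑ j, jac.F i j * jac.J j k) * D.d i (h f) := by
              rw [Finset.sum_comm]
              exact Finset.sum_congr rfl fun i _ => by rw [Finset.sum_mul]
          _ = D.d k (h f) := by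
              simp only [e2, ite_mul, one_mul, zero_mul, Finset.sum_ite_eq', Finset.mem_univ,
                if_true]
  have hinv : (Matrix.of fun j i => D.d i (X j))⁻¹ = jac.F := by
    have e : (Matrix.of fun j i => D.d i (X j)) = jac.J := by
      ext j i
      exact (hJ j i).symm
    rw [e]
    exact Matrix.inv_eq_right_inv jac.J_F
  refine ⟨G', σ, ⟨gfn, gc, gb⟩, ⟨sfn, sc, sb, sY⟩, hl, ?_, τY⟩
  constructor
  · exact τvac
  · intro f m v
    rw [B2.fnF_eq D', B2.fnF_eq D]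
    change τ ((vsaE D').Y _ m v) = (vsaE D).Y _ m (τ v)
    rw [τY, τfn]
  · intro j m v
    rw [sum_nop D (fun i => D.d i (X j)) (cdE D).x _ (fun i => B2.xF_eq D i), B2.xF_eq D']
    change τ ((vsaE D').Y _ m v) = (vsaE D).Y _ m (τ v)
    rw [τY, τx]
    simp only [hJ]
  · intro j m v
    rw [sum_nop D (fun i => D.d i (X j)) (cdE D).c _ (fun i => B2.cF_eq D i), B2.cF_eq D']
    change τ ((vsaE D').Y _ m v) = (vsaE D).Y _ m (τ v)
    rw [τY, τc]
    simp only [hJ]
  · intro j m v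
    rw [sum_nop D (fun i => (Matrix.of fun j i => D.d i (X j))⁻¹ i j) (cdE D).b _
      (fun i => B2.bF_eq D i), B2.bF_eq D', hinv]
    change τ ((vsaE D').Y _ m v) = (vsaE D).Y _ m (τ v)
    rw [τY, τb]
  · intro v
    rw [susyOp_eq, susyOp_eq]
    exact hsusy v

end Hom

end Chg

section GC
variable {n : ℕ} {A A' : Type*} [CommRing A] [Algebra ℂ A] [CommRing A'] [Algebra ℂ A']

/-- the coordinate change exists; it is a homomorphism -/
theorem exists_change (D : DS n A) (D' : DS n A') (h : A' →ₐ[ℂ] A) (X : Fin n → A)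
    (jac : Jac D) (hJ : ∀ j i, jac.J j i = D.d i (X j))
    (hh : ∀ j f, h (D'.d j f) = ∑ i, jac.F i j * D.d i (h f)) :
    ∃ τ : EE n A' →ₗ[ℂ] EE n A, IsCoordChange D D' h X τ ∧
      ∀ a m v, τ ((vsaE D').Y a m v) = (vsaE D).Y (τ a) m (τ v) := by
  obtain ⟨G', σ, -, -, -, h1, h2⟩ := Chg.exists_data D D' h X jac hJ hh
  exact ⟨_, h1, h2⟩

/-- it is unique -/
theorem change_unique (D : DS n A) (D' : DS n A') (h : A' →ₐ[ℂ] A) (X : Fin n → A)
    (jac : Jac D) (hJ : ∀ j i, jac.J j i = D.d i (X j))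
    (hh : ∀ j f, h (D'.d j f) = ∑ i, jac.F i j * D.d i (h f))
    (τ τ' : EE n A' →ₗ[ℂ] EE n A) (h1 : IsCoordChange D D' h X τ)
    (h2 : IsCoordChange D D' h X τ') : τ = τ' :=
  Chg.uniq D D' h X τ τ' h1 h2

/-- base change of a coordinate change along `r : A → B`, `r' : A' → B'` -/
theorem change_nat {B : Type*} [CommRing B] [Algebra ℂ B]
    (D : DS n A) (D' : DS n A') (DB : DS n B) (h : A' →ₐ[ℂ] A) (X : Fin n → A)
    (jac : Jac D) (hJ : ∀ j i, jac.J j i = D.d i (X j))
    (hh : ∀ j f, h (D'.d j f) = ∑ i, jac.F i j * D.d i (h f))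
    (r : A →ₐ[ℂ] B) (hr : ∀ i f, r (D.d i f) = DB.d i (r f))
    (τ : EE n A' →ₗ[ℂ] EE n A) (h1 : IsCoordChange D D' h X τ)
    (τB : EE n A' →ₗ[ℂ] EE n B) (h2 : IsCoordChange DB D' (r.comp h) (fun j => r (X j)) τB)
    (v : EE n A') : tw r.toRingHom 1 1 (τ v) = τB v := by
  obtain ⟨tfn, tx, tβ, tc, tb, tvac⟩ := Chg.twL_gens (n := n) D DB r
  have tY := Chg.twL_Y D DB r hr
  have tfm : ∀ f v, Chg.twL r ((cdE D).fm f v) = (cdE DB).fm (r f) (Chg.twL r v) := by
    intro f v
    rw [CD.fm, tY, tfn]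
    rfl
  have hinv : (Matrix.of fun j i => D.d i (X j))⁻¹ = jac.F := by
    have e : (Matrix.of fun j i => D.d i (X j)) = jac.J := by
      ext j i
      exact (hJ j i).symm
    rw [e]
    exact Matrix.inv_eq_right_inv jac.J_F
  have hinvB : (Matrix.of fun j i => DB.d i (r (X j)))⁻¹ = jac.F.map r := by
    have e : (Matrix.of fun j i => DB.d i (r (X j))) = jac.J.map r := by
      ext j i
      rw [Matrix.map_apply, hJ, hr]
      rfl
    rw [e]
    apply Matrix.inv_eq_right_inv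
    rw [← Matrix.map_mul, jac.J_F, Matrix.map_one _ (map_zero r) (map_one r)]
  have h3 : IsCoordChange DB D' (r.comp h) (fun j => r (X j)) (Chg.twL r ∘ₗ τ) := by
    constructor
    · change Chg.twL r (τ _) = _
      rw [h1.vac, tvac]
    · intro f m v
      change Chg.twL r (τ _) = _
      rw [h1.fn, B2.fnF_eq D, B2.fnF_eq DB]
      change Chg.twL r ((vsaE D).Y _ m (τ v)) = (vsaE DB).Y _ m (Chg.twL r (τ v))
      rw [tY, tfn]
      rfl
    · intro j m v
      change Chg.twL r (τ _) = _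
      rw [h1.x, Chg.sum_nop D (fun i => D.d i (X j)) (cdE D).x _ (fun i => B2.xF_eq D i),
        Chg.sum_nop DB (fun i => DB.d i (r (X j))) (cdE DB).x _ (fun i => B2.xF_eq DB i)]
      change Chg.twL r ((vsaE D).Y _ m (τ v)) = (vsaE DB).Y _ m (Chg.twL r (τ v))
      rw [tY, map_sum]
      simp only [tfm, tx, hr]
    · intro j m v
      change Chg.twL r (τ _) = _
      rw [h1.c, Chg.sum_nop D (fun i => D.d i (X j)) (cdE D).c _ (fun i => B2.cF_eq D i),
        Chg.sum_nop DB (fun i => DB.d i (r (X j))) (cdE DB).c _ (fun i => B2.cF_eq DB i)]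
      change Chg.twL r ((vsaE D).Y _ m (τ v)) = (vsaE DB).Y _ m (Chg.twL r (τ v))
      rw [tY, map_sum]
      simp only [tfm, tc, hr]
    · intro j m v
      change Chg.twL r (τ _) = _
      rw [h1.b, Chg.sum_nop D (fun i => (Matrix.of fun j i => D.d i (X j))⁻¹ i j) (cdE D).b _
          (fun i => B2.bF_eq D i),
        Chg.sum_nop DB (fun i => (Matrix.of fun j i => DB.d i (r (X j)))⁻¹ i j) (cdE DB).b _
          (fun i => B2.bF_eq DB i), hinv, hinvB]
      change Chg.twL r ((vsaE D).Y _ m (τ v)) = (vsaE DB).Y _ m (Chg.twL r (τ v))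
      rw [tY, map_sum]
      simp only [tfm, tb, Matrix.map_apply]
    · intro v
      change Chg.twL r (τ _) = _
      rw [h1.susy, susyOp_eq, susyOp_eq]
      exact Chg.twL_DD D DB r hr (τ v)
  have h4 := Chg.uniq DB D' (r.comp h) (fun j => r (X j)) _ _ h3 h2
  exact LinearMap.congr_fun h4 v

namespace Chg

/-- the coordinate expression of `Φ₋` in a frame -/
theorem formSt_minus (D : DS n A) (fr : Frame n A) (φ : Fin n → Fin n → Fin n → ℂ)
    (hφ : CD.Anti φ) (hc : CD.Contr D fr φ) :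
    formSt D (-1) (-6) fr.gi (CD.Gam D fr) (CD.phc fr φ) = -PhiM (cdE D) fr φ := by
  have h1 := Xi_formSt D fr.gi (CD.Gam D fr) (CD.phc fr φ)
  have h2 : (fun m l i => (-Complex.I) • CD.Gam D fr m l i) =
      CD.Gam (D.scale (-Complex.I)) fr := by
    funext m l i
    rw [Gam_scale]
  rw [h2, formSt_frame _ fr φ hφ (contr_scale D fr φ _ hc)] at h1
  have hps : ∀ a, Xi ((cdE (D.scale (-Complex.I))).ps fr a) = Complex.I • (cdE D).ch fr a := by
    intro a
    have hid : fr.map (RingHom.id A) = fr := rfl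
    unfold Xi CD.ps CD.ch
    rw [map_add, TwCD.tw_C _ D (RingHom.id A) negI posI (B3.Xi_hl D),
      TwCD.tw_B _ D (RingHom.id A) negI posI (B3.Xi_hl D), hid]
    have e1 : ((posI : ℂˣ) : ℂ) = Complex.I := rfl
    rw [e1, Complex.inv_I, neg_smul, smul_sub, sub_eq_add_neg]
  have hPhi : Xi ((cdE (D.scale (-Complex.I))).Phi fr φ) =
      (Complex.I * (Complex.I * Complex.I)) • PhiM (cdE D) fr φ := by
    unfold CD.Phi PhiM
    simp only [map_sum, Finset.smul_sum]
    refine Finset.sum_congr rfl fun a _ => Finset.sum_congr rfl fun b _ =>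
      Finset.sum_congr rfl fun c _ => ?_
    have hm : ∀ u v, Xi ((vsaE (D.scale (-Complex.I))).mul u v) = (vsaE D).mul (Xi u) (Xi v) :=
      fun u v => Xi_Y D u (-1) v
    rw [Xi_smul, hm, hm, hps, hps, hps, B3.mul_smul_smul', B3.mul_smul_smul', smul_smul,
      smul_smul, mul_comm]
  rw [hPhi] at h1
  have h3 : (Complex.I : ℂ) ≠ 0 := Complex.I_ne_zero
  have h4 : Complex.I • formSt D (-1) (-6) fr.gi (CD.Gam D fr) (CD.phc fr φ) =
      Complex.I • (-PhiM (cdE D) fr φ) := by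
    rw [← h1, Complex.I_mul_I, mul_neg_one, neg_smul, smul_neg]
  have h5 := congrArg (fun w => (Complex.I⁻¹ : ℂ) • w) h4
  simp only [smul_smul, inv_mul_cancel₀ h3, one_smul] at h5
  exact h5

end Chg

/-- The coordinate expression of `Φ₊` is compatible with changes of coordinates: `fr` is a frame
of `(A, ∂)` for `φ`; the tensors over `A'` correspond to it. -/
theorem change_formSt (D : DS n A) (D' : DS n A') (h : A' →ₐ[ℂ] A) (X : Fin n → A)
    (jac : Jac D) (hJ : ∀ j i, jac.J j i = D.d i (X j))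
    (hh : ∀ j f, h (D'.d j f) = ∑ i, jac.F i j * D.d i (h f))
    (τ : EE n A' →ₗ[ℂ] EE n A) (h1 : IsCoordChange D D' h X τ)
    (fr : Frame n A) (φ : Fin n → Fin n → Fin n → ℂ) (hφ : CD.Anti φ) (hc : CD.Contr D fr φ)
    (hc' : CD.Contr jac.ds (jac.frame fr) φ)
    (gi' : Matrix (Fin n) (Fin n) A') (Γ' p' : Fin n → Fin n → Fin n → A')
    (e1 : gi'.map h = (jac.frame fr).gi)
    (e2 : ∀ m l i, h (Γ' m l i) = CD.Gam jac.ds (jac.frame fr) m l i)
    (e3 : ∀ i j k, h (p' i j k) = CD.phc (jac.frame fr) φ i j k) :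
    τ (formSt D' 1 6 gi' Γ' p') = formSt D 1 6 fr.gi (CD.Gam D fr) (CD.phc fr φ) ∧
    τ (formSt D' (-1) (-6) gi' Γ' p') = formSt D (-1) (-6) fr.gi (CD.Gam D fr) (CD.phc fr φ) := by
  obtain ⟨G', σ, ⟨gfn, gc, gb⟩, ⟨sfn, sc, sb, sY⟩, hl, h2, -⟩ :=
    Chg.exists_data D D' h X jac hJ hh
  have hτ := Chg.uniq D D' h X τ _ h1 h2
  have e2' : (fun a b c => h (Γ' a b c)) = CD.Gam jac.ds (jac.frame fr) := by
    funext m l i
    exact e2 m l i
  have e3' : (fun a b c => h (p' a b c)) = CD.phc (jac.frame fr) φ := by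
    funext i j k
    exact e3 i j k
  have htw : ∀ s q : ℂ, τ (formSt D' s q gi' Γ' p') =
      σ (formSt jac.ds s q (jac.frame fr).gi (CD.Gam jac.ds (jac.frame fr))
        (CD.phc (jac.frame fr) φ)) := by
    intro s q
    rw [hτ]
    change σ (tw h.toRingHom 1 1 _) = _
    rw [tw_formSt D' jac.ds h hl, e1, e2', e3']
  have hFrc : ∀ i, (cdE D).Fr ((cdE D).c i) := fun i k f => ((cdE D).odd_c i).fn_u k f
  have hFrb : ∀ i, (cdE D).Fr ((cdE D).b i) := fun i k f => ((cdE D).odd_b i).fn_u k f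
  have sfm : ∀ f v, σ ((cdE jac.ds).fm f v) = (cdE D).fm f (σ v) := by
    intro f v
    rw [CD.fm, sY, sfn, gfn]
    rfl
  have smul' : ∀ u v, σ ((vsaE jac.ds).mul u v) = (vsaE D).mul (σ u) (σ v) :=
    fun u v => sY u (-1) v
  have sC : ∀ a, σ ((cdE jac.ds).C (jac.frame fr) a) = (cdE D).C fr a := by
    intro a
    unfold CD.C
    rw [map_sum]
    have : ∀ j, σ ((cdE jac.ds).fm ((jac.frame fr).e a j) ((cdE jac.ds).c j)) =
        (cdE D).fm ((fr.e * jac.F) a j) (∑ i, (cdE D).fm (jac.J j i) ((cdE D).c i)) := by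
      intro j
      rw [sfm, sc, gc]
      rfl
    rw [Finset.sum_congr rfl fun j _ => this j,
      Chg.sum_fm_fm (cdE D) (fun j => (fr.e * jac.F) a j) jac.J _ hFrc]
    refine Finset.sum_congr rfl fun i _ => ?_
    congr 1
    have e : ((fr.e * jac.F) * jac.J) a i = fr.e a i := by
      rw [Matrix.mul_assoc, jac.F_J, Matrix.mul_one]
    rw [← e, Matrix.mul_apply]
  have sB : ∀ a, σ ((cdE jac.ds).B (jac.frame fr) a) = (cdE D).B fr a := by
    intro a
    unfold CD.B
    rw [map_sum]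
    have : ∀ j, σ ((cdE jac.ds).fm ((jac.frame fr).f j a) ((cdE jac.ds).b j)) =
        (cdE D).fm ((jac.J * fr.f) j a)
          (∑ i, (cdE D).fm (jac.F.transpose j i) ((cdE D).b i)) := by
      intro j
      rw [sfm, sb, gb]
      rfl
    rw [Finset.sum_congr rfl fun j _ => this j,
      Chg.sum_fm_fm (cdE D) (fun j => (jac.J * fr.f) j a) jac.F.transpose _ hFrb]
    refine Finset.sum_congr rfl fun i _ => ?_
    congr 1
    have e : (jac.F * (jac.J * fr.f)) i a = fr.f i a := by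
      rw [← Matrix.mul_assoc, jac.F_J, Matrix.one_mul]
    rw [← e, Matrix.mul_apply]
    exact Finset.sum_congr rfl fun j _ => by rw [Matrix.transpose_apply, mul_comm]
  have sps : ∀ a, σ ((cdE jac.ds).ps (jac.frame fr) a) = (cdE D).ps fr a := by
    intro a
    rw [CD.ps, map_add, sC, sB]
    rfl
  have sch : ∀ a, σ ((cdE jac.ds).ch (jac.frame fr) a) = (cdE D).ch fr a := by
    intro a
    rw [CD.ch, map_sub, sC, sB]
    rfl
  constructor
  · rw [htw, formSt_frame jac.ds (jac.frame fr) φ hφ hc', formSt_frame D fr φ hφ hc]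
    unfold CD.Phi
    simp only [map_sum, map_smul, smul', sps]
  · rw [htw, Chg.formSt_minus jac.ds (jac.frame fr) φ hφ hc', Chg.formSt_minus D fr φ hφ hc,
      map_neg]
    unfold Chg.PhiM
    simp only [map_sum, map_smul, smul', sch]

end GC

end Pool.Agent.AA3
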