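import Pool.Agent.Lib.MP_aa3aaf_al.Fock

/-!
The differential ring of smooth complex valued functions on an open subset of `ℝⁿ`.
-/

set_option autoImplicit false
open scoped BigOperators ContDiff
noncomputable section
namespace Pool.Agent.AA3

/-- `ℝⁿ` -/
abbrev Eu (n : ℕ) := EuclideanSpace ℝ (Fin n)

variable {n : ℕ}

/-- extension by zero of a function on a subset -/
def ext0 (U : Set (Eu n)) (f : U → ℂ) : Eu n → ℂ := fun y => by
  classical exact if h : y ∈ U then f ⟨y, h⟩ else 0

lemma ext0_apply (U : Set (Eu n)) (f : U → ℂ) (y : U) : ext0 U f y = f y := by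
  classical
  simp [ext0]

lemma ext0_of_notMem (U : Set (Eu n)) (f : U → ℂ) {y : Eu n} (h : y ∉ U) : ext0 U f y = 0 := by
  classical
  simp [ext0, h]

lemma ext0_add (U : Set (Eu n)) (f g : U → ℂ) : ext0 U (f + g) = ext0 U f + ext0 U g := by
  classical
  funext y
  by_cases h : y ∈ U <;> simp [ext0, h]

lemma ext0_mul (U : Set (Eu n)) (f g : U → ℂ) : ext0 U (f * g) = ext0 U f * ext0 U g := by
  classical
  funext y
  by_cases h : y ∈ U <;> simp [ext0, h]

lemma ext0_smul (U : Set (Eu n)) (c : ℂ) (f : U → ℂ) : ext0 U (c • f) = c • ext0 U f := by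
  classical
  funext y
  by_cases h : y ∈ U <;> simp [ext0, h]

lemma ext0_const (U : Set (Eu n)) (c : ℂ) {y : Eu n} (h : y ∈ U) :
    ext0 U (fun _ => c) y = c := by
  classical
  simp [ext0, h]

/-- The algebra `C^∞(U)` of smooth complex valued functions on the open set `U`. -/
def smooth (U : TopologicalSpace.Opens (Eu n)) : Subalgebra ℂ (U → ℂ) where
  carrier := {f | ContDiffOn ℝ ∞ (ext0 (U : Set (Eu n)) f) U}
  mul_mem' := by
    intro f g hf hg
    simp only [Set.mem_ofPred_eq] at *
    have := ext0_mul (U : Set (Eu n)) f g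
    rw [show ext0 (U : Set (Eu n)) (f * g) = _ from this]
    exact hf.mul hg
  add_mem' := by
    intro f g hf hg
    have := ext0_add (U : Set (Eu n)) f g
    simp only [Set.mem_ofPred_eq] at *
    rw [show ext0 (U : Set (Eu n)) (f + g) = _ from this]
    exact hf.add hg
  algebraMap_mem' := by
    intro c
    simp only [Set.mem_ofPred_eq]
    refine (contDiffOn_const (c := c)).congr fun y hy => ?_
    exact ext0_const (U : Set (Eu n)) c hy

/-- the `i`-th coordinate vector -/
def eb (i : Fin n) : Eu n := EuclideanSpace.single i 1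

/-- partial derivative of a function on an open set -/
def pder (U : TopologicalSpace.Opens (Eu n)) (i : Fin n) (f : U → ℂ) : U → ℂ :=
  fun y => fderiv ℝ (ext0 (U : Set (Eu n)) f) y (eb i)

lemma smooth_diffAt {U : TopologicalSpace.Opens (Eu n)} {f : U → ℂ} (hf : f ∈ smooth U)
    {y : Eu n} (hy : y ∈ U) : ContDiffAt ℝ ∞ (ext0 (U : Set (Eu n)) f) y :=
  ContDiffOn.contDiffAt hf (U.isOpen.mem_nhds hy)

lemma ext0_pder {U : TopologicalSpace.Opens (Eu n)} (i : Fin n) (f : U → ℂ) {y : Eu n}
    (hy : y ∈ U) : ext0 (U : Set (Eu n)) (pder U i f) y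
      = fderiv ℝ (ext0 (U : Set (Eu n)) f) y (eb i) :=
  ext0_apply (U : Set (Eu n)) (pder U i f) ⟨y, hy⟩

lemma pder_mem {U : TopologicalSpace.Opens (Eu n)} (i : Fin n) {f : U → ℂ} (hf : f ∈ smooth U) :
    pder U i f ∈ smooth U := by
  have h1 : ContDiffOn ℝ ∞ (fderiv ℝ (ext0 (U : Set (Eu n)) f)) U :=
    ContDiffOn.fderiv_of_isOpen (m := ∞) (n := ∞) hf U.isOpen (by simp)
  have h2 : ContDiffOn ℝ ∞ (fun y => fderiv ℝ (ext0 (U : Set (Eu n)) f) y (eb i)) U :=
    h1.clm_apply contDiffOn_const
  exact h2.congr fun y hy => ext0_pder i f hy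

/-- The partial derivatives of `C^∞(U)`. -/
def dSmooth (U : TopologicalSpace.Opens (Eu n)) (i : Fin n) : Derivation ℂ (smooth U) (smooth U) :=
  Derivation.mk'
    { toFun := fun f => ⟨pder U i f.1, pder_mem i f.2⟩
      map_add' := fun f g => by
        ext y
        have hf := (smooth_diffAt f.2 y.2).differentiableAt (by simp)
        have hg := (smooth_diffAt g.2 y.2).differentiableAt (by simp)
        show pder U i (f.1 + g.1) y = pder U i f.1 y + pder U i g.1 y
        simp only [pder]
        rw [show ext0 (U : Set (Eu n)) (f.1 + g.1) = _ from ext0_add _ _ _, fderiv_add hf hg]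
        rfl
      map_smul' := fun c f => by
        ext y
        have hf := (smooth_diffAt f.2 y.2).differentiableAt (by simp)
        show pder U i (c • f.1) y = c • pder U i f.1 y
        simp only [pder]
        rw [show ext0 (U : Set (Eu n)) (c • f.1) = _ from ext0_smul _ _ _,
          fderiv_const_smul hf]
        rfl }
    (fun f g => by
      ext y
      have hf := (smooth_diffAt f.2 y.2).differentiableAt (by simp)
      have hg := (smooth_diffAt g.2 y.2).differentiableAt (by simp)
      show pder U i (f.1 * g.1) y = f.1 y * pder U i g.1 y + g.1 y * pder U i f.1 y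
      simp only [pder]
      rw [show ext0 (U : Set (Eu n)) (f.1 * g.1) = _ from ext0_mul _ _ _, fderiv_mul hf hg]
      have e1 : ext0 (U : Set (Eu n)) f.1 (y : Eu n) = f.1 y := ext0_apply _ _ _
      have e2 : ext0 (U : Set (Eu n)) g.1 (y : Eu n) = g.1 y := ext0_apply _ _ _
      simp [e1, e2])

lemma dSmooth_apply (U : TopologicalSpace.Opens (Eu n)) (i : Fin n) (f : smooth U) (y : U) :
    (dSmooth U i f).1 y = fderiv ℝ (ext0 (U : Set (Eu n)) f.1) y (eb i) := rfl

/-- The differential ring `C^∞(U)` with its `n` partial derivatives. -/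
def DSmooth (U : TopologicalSpace.Opens (Eu n)) : DS n (smooth U) where
  d := dSmooth U
  comm i j f := by
    ext y
    have hf : ContDiffAt ℝ ∞ (ext0 (U : Set (Eu n)) f.1) y := smooth_diffAt f.2 y.2
    have key : ∀ a b : Fin n, (dSmooth U a (dSmooth U b f)).1 y
        = fderiv ℝ (fderiv ℝ (ext0 (U : Set (Eu n)) f.1)) y (eb a) (eb b) := by
      intro a b
      rw [dSmooth_apply]
      have h1 : ext0 (U : Set (Eu n)) (dSmooth U b f).1 =ᶠ[nhds (y : Eu n)]
          fun z => fderiv ℝ (ext0 (U : Set (Eu n)) f.1) z (eb b) := by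
        filter_upwards [U.isOpen.mem_nhds y.2] with z hz
        exact ext0_pder b f.1 hz
      rw [h1.fderiv_eq]
      have h2 : DifferentiableAt ℝ (fderiv ℝ (ext0 (U : Set (Eu n)) f.1)) y :=
        (hf.fderiv_right (m := 1) (by norm_cast)).differentiableAt (by norm_num)
      rw [fderiv_clm_apply h2 (differentiableAt_const _)]
      simp
    rw [key, key]
    have h2 : minSmoothness ℝ 2 ≤ (∞ : WithTop ℕ∞) := by
      rw [minSmoothness_of_isRCLikeNormedField]
      exact WithTop.coe_le_coe.2 (le_top : (2 : ℕ∞) ≤ ⊤)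
    exact (hf.isSymmSndFDerivAt h2).eq _ _

end Pool.Agent.AA3
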