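import Pool.Agent.Lib.MP_aa3aaf_al.Ops
import Pool.Agent.Lib.MP_aa3aaf_al.Smooth

/-!
Torsion-free `G₂`-structures on smooth 7-manifolds and the two subalgebras `V₊`, `V₋` of the
chiral de Rham complex generated by `Φ₊`, `Φ₋`.
-/

set_option autoImplicit false
open scoped BigOperators ContDiff Manifold
noncomputable section
namespace Pool.Agent.AA3

/-- the sign of `(i,j,k)` as a permutation of `(a,b,c)`, zero if it is not one -/
def sgn3 (a b c i j k : Fin 7) : ℤ :=
  if (i, j, k) = (a, b, c) ∨ (i, j, k) = (b, c, a) ∨ (i, j, k) = (c, a, b) then 1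
  else if (i, j, k) = (b, a, c) ∨ (i, j, k) = (a, c, b) ∨ (i, j, k) = (c, b, a) then -1
  else 0

/-- Components of the standard `G₂`-form
`e¹²³ + e¹⁴⁵ + e¹⁶⁷ + e²⁴⁶ - e²⁵⁷ - e³⁴⁷ - e³⁵⁶` on `ℝ⁷` (indices start at `0` here). -/
def phi0 (i j k : Fin 7) : ℤ :=
  sgn3 0 1 2 i j k + sgn3 0 3 4 i j k + sgn3 0 5 6 i j k + sgn3 1 3 5 i j k
    - sgn3 1 4 6 i j k - sgn3 2 3 6 i j k - sgn3 2 4 5 i j k

section
variable (M : Type*) [TopologicalSpace M] [ChartedSpace (Eu 7) M]

/-- A bilinear form on every tangent space and an alternating 3-form. -/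
structure MetricForm where
  g : ∀ x : M, TangentSpace 𝓘(ℝ, Eu 7) x →ₗ[ℝ] TangentSpace 𝓘(ℝ, Eu 7) x →ₗ[ℝ] ℝ
  φ : ∀ x : M, (TangentSpace 𝓘(ℝ, Eu 7) x) [⋀^Fin 3]→ₗ[ℝ] ℝ

variable {M}

/-- the coordinate domain of a chart, an open subset of `ℝ⁷` -/
def tgt (e : OpenPartialHomeomorph M (Eu 7)) : TopologicalSpace.Opens (Eu 7) :=
  ⟨e.target, e.open_target⟩

/-- the `i`-th coordinate vector field of the chart `e` at the point with coordinates `y` -/
def cvec (e : OpenPartialHomeomorph M (Eu 7)) (i : Fin 7) (y : Eu 7) :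
    TangentSpace 𝓘(ℝ, Eu 7) (e.symm y) :=
  mfderiv 𝓘(ℝ, Eu 7) 𝓘(ℝ, Eu 7) e.symm y (eb i)

/-- components `g_{ij}` in the chart `e` -/
def gco (S : MetricForm M) (e : OpenPartialHomeomorph M (Eu 7)) (i j : Fin 7) :
    tgt e → ℂ :=
  fun y => ((S.g (e.symm y) (cvec e i y) (cvec e j y) : ℝ) : ℂ)

/-- components `φ_{ijk}` in the chart `e` -/
def pco (S : MetricForm M) (e : OpenPartialHomeomorph M (Eu 7)) (i j k : Fin 7) :
    tgt e → ℂ :=
  fun y => ((S.φ (e.symm y) ![cvec e i y, cvec e j y, cvec e k y] : ℝ) : ℂ)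

variable (M)

/-- A smooth `G₂`-structure: in a suitable basis of each tangent space the metric `g` is the
standard Euclidean metric and `φ` is the standard `G₂`-form; `g` and `φ` are smooth. -/
structure G2Structure extends MetricForm M where
  adapted : ∀ x : M, ∃ b : Module.Basis (Fin 7) ℝ (TangentSpace 𝓘(ℝ, Eu 7) x),
    (∀ i j, g x (b i) (b j) = if i = j then 1 else 0) ∧
    ∀ i j k, φ x ![b i, b j, b k] = (phi0 i j k : ℝ)
  smooth_g : ∀ e ∈ atlas (Eu 7) M, ∀ i j, gco toMetricForm e i j ∈ smooth (tgt e)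
  smooth_φ : ∀ e ∈ atlas (Eu 7) M, ∀ i j k, pco toMetricForm e i j k ∈ smooth (tgt e)

variable {M}

/-- the atlas as an index type -/
abbrev Ch (M : Type*) [TopologicalSpace M] [ChartedSpace (Eu 7) M] :=
  {e : OpenPartialHomeomorph M (Eu 7) // e ∈ atlas (Eu 7) M}

/-- the ring `C^∞` of the coordinate domain of the chart `e` -/
abbrev CR (e : Ch M) := smooth (tgt e.1)

namespace G2Structure
variable (S : G2Structure M)

/-- the metric in the chart `e`, a matrix of smooth functions -/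
def gR (e : Ch M) : Matrix (Fin 7) (Fin 7) (CR e) :=
  fun i j => ⟨gco S.toMetricForm e.1 i j, S.smooth_g e.1 e.2 i j⟩

/-- the 3-form in the chart `e` -/
def pR (e : Ch M) (i j k : Fin 7) : CR e :=
  ⟨pco S.toMetricForm e.1 i j k, S.smooth_φ e.1 e.2 i j k⟩

/-- Christoffel symbols `Γ^m_{li}` in the chart `e` -/
def ΓR (e : Ch M) (m l i : Fin 7) : CR e :=
  christoffel (DSmooth (tgt e.1)) (S.gR e) (S.gR e)⁻¹ m l i

/-- The `G₂`-structure is torsion-free: the 3-form `φ` is parallel for the Levi-Civita connection,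
`∂_l φ_{ijk} = Γ^m_{li} φ_{mjk} + Γ^m_{lj} φ_{imk} + Γ^m_{lk} φ_{ijm}` in all charts. -/
def TorsionFree : Prop :=
  ∀ (e : Ch M) (l i j k : Fin 7), (DSmooth (tgt e.1)).d l (S.pR e i j k) =
    ∑ m, (S.ΓR e m l i * S.pR e m j k + S.ΓR e m l j * S.pR e i m k
      + S.ΓR e m l k * S.pR e i j m)

/-- The local expression of `Φ₊` in the chart `e`. -/
def PhiPlus (e : Ch M) : Fld (EE 7 (CR e)) :=
  formSection (DSmooth (tgt e.1)) (S.gR e)⁻¹ (S.ΓR e) (S.pR e)
    (ePlus (DSmooth (tgt e.1)) (S.gR e)⁻¹)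

/-- The local expression of `Φ₋` in the chart `e`. -/
def PhiMinus (e : Ch M) : Fld (EE 7 (CR e)) :=
  formSection (DSmooth (tgt e.1)) (S.gR e)⁻¹ (S.ΓR e) (S.pR e)
    (eMinus (DSmooth (tgt e.1)) (S.gR e)⁻¹)

end G2Structure

/-- Families of fields over all charts of the atlas, with the chartwise operations. Global sections
of the chiral de Rham complex are such families (compatible on overlaps). -/
def chartAlg (M : Type*) [TopologicalSpace M] [ChartedSpace (Eu 7) M] :
    VAlg (∀ e : Ch M, Fld (EE 7 (CR e))) :=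
  VAlg.pi fun e => omegaCh (DSmooth (tgt e.1))

namespace G2Structure
variable (S : G2Structure M)

/-- `V₊`: the supersymmetric vertex algebra generated by `Φ₊`. -/
def VPlus : Submodule ℂ (∀ e : Ch M, Fld (EE 7 (CR e))) := (chartAlg M).gen S.PhiPlus

/-- `V₋`: the supersymmetric vertex algebra generated by `Φ₋`. -/
def VMinus : Submodule ℂ (∀ e : Ch M, Fld (EE 7 (CR e))) := (chartAlg M).gen S.PhiMinus

end G2Structure

end

/-- The statement to be proved. -/
def MainStatement : Prop :=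
  ∀ (M : Type) [TopologicalSpace M] [ChartedSpace (Eu 7) M] [IsManifold 𝓘(ℝ, Eu 7) ∞ M]
    [Nonempty M] (S : G2Structure M), S.TorsionFree →
    (chartAlg M).IsSimple S.VPlus ∧ (chartAlg M).IsSimple S.VMinus

end Pool.Agent.AA3
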