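import Pool.Agent.Lib.MP_aa3aaf_al.CCoord
import Pool.Agent.Lib.MP_aa3aaf_al.Stmt

/-!
Task G1: algebra of frames.
-/

set_option autoImplicit false
set_option linter.unusedSectionVars false
open scoped BigOperators
noncomputable section
namespace Pool.Agent.AA3

namespace G1
variable {n : ℕ} {A : Type*} [CommRing A] [Algebra ℂ A] (D : DS n A)

/-- `v e = 0` implies `v = 0`. -/
lemma row_zero (fr : Frame n A) (v : Fin n → A) (h : ∀ i, ∑ a, v a * fr.e a i = 0) (a : Fin n) :
    v a = 0 := by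
  have h1 : Matrix.vecMul v fr.e = 0 := by
    funext i
    simpa [Matrix.vecMul, dotProduct] using h i
  have h2 : Matrix.vecMul (Matrix.vecMul v fr.e) fr.f = v := by
    rw [Matrix.vecMul_vecMul, fr.e_f, Matrix.vecMul_one]
  rw [h1, Matrix.zero_vecMul] at h2
  exact (congrFun h2 a).symm

/-- `T (e,e,e) = 0` implies `T = 0`. -/
lemma ten_zero (fr : Frame n A) (T : Fin n → Fin n → Fin n → A)
    (h : ∀ i j k, ∑ a, ∑ b, ∑ c, T a b c * (fr.e a i * fr.e b j * fr.e c k) = 0) (a b c : Fin n) :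
    T a b c = 0 := by
  have h1 : ∀ j k a, ∑ b, ∑ c, T a b c * (fr.e b j * fr.e c k) = 0 := by
    intro j k a
    refine row_zero fr (fun a => ∑ b, ∑ c, T a b c * (fr.e b j * fr.e c k)) (fun i => ?_) a
    rw [← h i j k]
    refine Finset.sum_congr rfl fun a _ => ?_
    rw [Finset.sum_mul]
    refine Finset.sum_congr rfl fun b _ => ?_
    rw [Finset.sum_mul]
    refine Finset.sum_congr rfl fun c _ => ?_
    ring
  have h2 : ∀ k a b, ∑ c, T a b c * fr.e c k = 0 := by
    intro k a b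
    refine row_zero fr (fun b => ∑ c, T a b c * fr.e c k) (fun j => ?_) b
    rw [← h1 j k a]
    refine Finset.sum_congr rfl fun b _ => ?_
    rw [Finset.sum_mul]
    refine Finset.sum_congr rfl fun c _ => ?_
    ring
  exact row_zero fr (fun c => T a b c) (fun k => h2 k a b) c

/-- the covariant derivative of the coframe, in the frame -/
def Th (fr : Frame n A) (l a b : Fin n) : A :=
  ∑ i, (D.d l (fr.e a i) - ∑ m, CD.Gam D fr m l i * fr.e a m) * fr.f i b

lemma d_e (fr : Frame n A) (l a i : Fin n) :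
    D.d l (fr.e a i) = ∑ m, CD.Gam D fr m l i * fr.e a m + ∑ b, Th D fr l a b * fr.e b i := by
  have hfe : ∀ i' i : Fin n, ∑ b, fr.f i' b * fr.e b i = if i' = i then 1 else 0 := by
    intro i' i
    have := congrFun (congrFun fr.f_e i') i
    rwa [Matrix.mul_apply, Matrix.one_apply] at this
  have : ∑ b, Th D fr l a b * fr.e b i
      = D.d l (fr.e a i) - ∑ m, CD.Gam D fr m l i * fr.e a m := by
    unfold Th
    simp_rw [Finset.sum_mul]
    rw [Finset.sum_comm]
    calc ∑ i', ∑ b, (D.d l (fr.e a i') - ∑ m, CD.Gam D fr m l i' * fr.e a m) * fr.f i' b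
            * fr.e b i
        = ∑ i', (D.d l (fr.e a i') - ∑ m, CD.Gam D fr m l i' * fr.e a m) *
            (if i' = i then 1 else 0) := by
          refine Finset.sum_congr rfl fun i' _ => ?_
          rw [← hfe i' i, Finset.mul_sum]
          refine Finset.sum_congr rfl fun b _ => ?_
          ring
      _ = _ := by
          simp
  rw [this]
  ring

/-- the trilinear form `φ_{abc} u_a v_b w_c` -/
def F3 (φ : Fin n → Fin n → Fin n → ℂ) (u v w : Fin n → A) : A :=
  ∑ a, ∑ b, ∑ c, φ a b c • (u a * v b * w c)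

variable (φ : Fin n → Fin n → Fin n → ℂ)

lemma F3_1 (g : Fin n → A) (u : Fin n → Fin n → A) (v w : Fin n → A) :
    F3 φ (fun a => ∑ m, g m * u m a) v w = ∑ m, g m * F3 φ (u m) v w := by
  unfold F3
  simp_rw [Finset.mul_sum]
  conv_rhs => rw [Finset.sum_comm]
  refine Finset.sum_congr rfl fun a _ => ?_
  conv_rhs => rw [Finset.sum_comm]
  refine Finset.sum_congr rfl fun b _ => ?_
  conv_rhs => rw [Finset.sum_comm]
  refine Finset.sum_congr rfl fun c _ => ?_
  rw [Finset.sum_mul, Finset.sum_mul, Finset.smul_sum]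
  refine Finset.sum_congr rfl fun m _ => ?_
  rw [Algebra.smul_def, Algebra.smul_def]
  ring

lemma F3_2 (g : Fin n → A) (u : Fin n → A) (v : Fin n → Fin n → A) (w : Fin n → A) :
    F3 φ u (fun b => ∑ m, g m * v m b) w = ∑ m, g m * F3 φ u (v m) w := by
  unfold F3
  simp_rw [Finset.mul_sum]
  conv_rhs => rw [Finset.sum_comm]
  refine Finset.sum_congr rfl fun a _ => ?_
  conv_rhs => rw [Finset.sum_comm]
  refine Finset.sum_congr rfl fun b _ => ?_
  conv_rhs => rw [Finset.sum_comm]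
  refine Finset.sum_congr rfl fun c _ => ?_
  rw [Finset.sum_mul, Finset.smul_sum]
  refine Finset.sum_congr rfl fun m _ => ?_
  rw [Algebra.smul_def, Algebra.smul_def]
  ring

lemma F3_3 (g : Fin n → A) (u v : Fin n → A) (w : Fin n → Fin n → A) :
    F3 φ u v (fun c => ∑ m, g m * w m c) = ∑ m, g m * F3 φ u v (w m) := by
  unfold F3
  simp_rw [Finset.mul_sum]
  conv_rhs => rw [Finset.sum_comm]
  refine Finset.sum_congr rfl fun a _ => ?_
  conv_rhs => rw [Finset.sum_comm]
  refine Finset.sum_congr rfl fun b _ => ?_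
  conv_rhs => rw [Finset.sum_comm]
  refine Finset.sum_congr rfl fun c _ => ?_
  rw [Finset.smul_sum]
  refine Finset.sum_congr rfl fun m _ => ?_
  rw [Algebra.smul_def, Algebra.smul_def]
  ring

lemma F3_add1 (u u' v w : Fin n → A) :
    F3 φ (fun a => u a + u' a) v w = F3 φ u v w + F3 φ u' v w := by
  unfold F3
  simp_rw [← Finset.sum_add_distrib]
  refine Finset.sum_congr rfl fun a _ => Finset.sum_congr rfl fun b _ =>
    Finset.sum_congr rfl fun c _ => ?_
  rw [← smul_add]
  congr 1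
  ring

lemma F3_add2 (u v v' w : Fin n → A) :
    F3 φ u (fun b => v b + v' b) w = F3 φ u v w + F3 φ u v' w := by
  unfold F3
  simp_rw [← Finset.sum_add_distrib]
  refine Finset.sum_congr rfl fun a _ => Finset.sum_congr rfl fun b _ =>
    Finset.sum_congr rfl fun c _ => ?_
  rw [← smul_add]
  congr 1
  ring

lemma F3_add3 (u v w w' : Fin n → A) :
    F3 φ u v (fun c => w c + w' c) = F3 φ u v w + F3 φ u v w' := by
  unfold F3
  simp_rw [← Finset.sum_add_distrib]
  refine Finset.sum_congr rfl fun a _ => Finset.sum_congr rfl fun b _ =>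
    Finset.sum_congr rfl fun c _ => ?_
  rw [← smul_add]
  congr 1
  ring

lemma d_F3 (δ : Derivation ℂ A A) (u v w : Fin n → A) :
    δ (F3 φ u v w) = F3 φ (fun a => δ (u a)) v w + F3 φ u (fun b => δ (v b)) w
      + F3 φ u v (fun c => δ (w c)) := by
  unfold F3
  simp_rw [map_sum, ← Finset.sum_add_distrib]
  refine Finset.sum_congr rfl fun a _ => Finset.sum_congr rfl fun b _ =>
    Finset.sum_congr rfl fun c _ => ?_
  rw [Derivation.map_smul, ← smul_add, ← smul_add]
  congr 1
  rw [Derivation.leibniz, Derivation.leibniz]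
  simp only [smul_eq_mul]
  ring

lemma phc_F3 (fr : Frame n A) (i j k : Fin n) :
    CD.phc fr φ i j k = F3 φ (fun a => fr.e a i) (fun b => fr.e b j) (fun c => fr.e c k) := rfl

/-- the tensor of the action of a matrix on `φ` -/
def act (w : Fin n → Fin n → A) (a b c : Fin n) : A :=
  ∑ d, (φ d b c • w d a + φ a d c • w d b + φ a b d • w d c)

lemma act_F3 (w : Fin n → Fin n → A) (u v t : Fin n → A) :
    ∑ a, ∑ b, ∑ c, act φ w a b c * (u a * v b * t c)
      = F3 φ (fun a => ∑ d, w a d * u d) v t + F3 φ u (fun b => ∑ d, w b d * v d) t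
        + F3 φ u v (fun c => ∑ d, w c d * t d) := by
  have e1 : F3 φ (fun a => ∑ d, w a d * u d) v t
      = ∑ a, ∑ b, ∑ c, ∑ d, (φ d b c • w d a) * (u a * v b * t c) := by
    unfold F3
    rw [Finset.sum_comm]
    conv_rhs => rw [Finset.sum_comm]
    refine Finset.sum_congr rfl fun b _ => ?_
    rw [Finset.sum_comm]
    conv_rhs => rw [Finset.sum_comm]
    refine Finset.sum_congr rfl fun c _ => ?_
    conv_rhs => rw [Finset.sum_comm]
    refine Finset.sum_congr rfl fun a _ => ?_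
    rw [Finset.sum_mul, Finset.sum_mul, Finset.smul_sum]
    refine Finset.sum_congr rfl fun d _ => ?_
    rw [Algebra.smul_def, Algebra.smul_def]
    ring
  have e2 : F3 φ u (fun b => ∑ d, w b d * v d) t
      = ∑ a, ∑ b, ∑ c, ∑ d, (φ a d c • w d b) * (u a * v b * t c) := by
    unfold F3
    refine Finset.sum_congr rfl fun a _ => ?_
    rw [Finset.sum_comm]
    conv_rhs => rw [Finset.sum_comm]
    refine Finset.sum_congr rfl fun c _ => ?_
    conv_rhs => rw [Finset.sum_comm]
    refine Finset.sum_congr rfl fun b _ => ?_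
    rw [Finset.mul_sum, Finset.sum_mul, Finset.smul_sum]
    refine Finset.sum_congr rfl fun d _ => ?_
    rw [Algebra.smul_def, Algebra.smul_def]
    ring
  have e3 : F3 φ u v (fun c => ∑ d, w c d * t d)
      = ∑ a, ∑ b, ∑ c, ∑ d, (φ a b d • w d c) * (u a * v b * t c) := by
    unfold F3
    refine Finset.sum_congr rfl fun a _ => ?_
    refine Finset.sum_congr rfl fun b _ => ?_
    conv_rhs => rw [Finset.sum_comm]
    refine Finset.sum_congr rfl fun c _ => ?_
    rw [Finset.mul_sum, Finset.smul_sum]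
    refine Finset.sum_congr rfl fun d _ => ?_
    rw [Algebra.smul_def, Algebra.smul_def]
    ring
  rw [e1, e2, e3]
  simp_rw [← Finset.sum_add_distrib]
  refine Finset.sum_congr rfl fun a _ => Finset.sum_congr rfl fun b _ =>
    Finset.sum_congr rfl fun c _ => ?_
  unfold act
  rw [Finset.sum_mul]
  refine Finset.sum_congr rfl fun d _ => ?_
  ring

lemma act_Th (fr : Frame n A)
    (hpar : ∀ l i j k, D.d l (CD.phc fr φ i j k) =
      ∑ m, (CD.Gam D fr m l i * CD.phc fr φ m j k + CD.Gam D fr m l j * CD.phc fr φ i m k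
        + CD.Gam D fr m l k * CD.phc fr φ i j m)) (l a b c : Fin n) :
    act φ (Th D fr l) a b c = 0 := by
  refine ten_zero fr (fun a b c => act φ (Th D fr l) a b c) (fun i j k => ?_) a b c
  rw [act_F3]
  have h := hpar l i j k
  rw [Finset.sum_add_distrib, Finset.sum_add_distrib] at h
  simp only [phc_F3] at h
  rw [d_F3, ← F3_1, ← F3_2, ← F3_3] at h
  have hd : ∀ i : Fin n, (fun a => D.d l (fr.e a i)) = fun a =>
      ∑ m, CD.Gam D fr m l i * fr.e a m + ∑ b, Th D fr l a b * fr.e b i := by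
    intro i
    funext a
    exact d_e D fr l a i
  rw [hd i, hd j, hd k, F3_add1, F3_add2, F3_add3] at h
  linear_combination h

/-- `S_l = (∂_l e) f` -/
def S (fr : Frame n A) (l a b : Fin n) : A := ∑ i, D.d l (fr.e a i) * fr.f i b

lemma s_S (fr : Frame n A) (d a b : Fin n) : fr.s D d a b = ∑ j, fr.f j d * S D fr j a b := by
  unfold Frame.s S
  refine Finset.sum_congr rfl fun j _ => ?_
  rw [Finset.mul_sum]
  refine Finset.sum_congr rfl fun i _ => ?_
  ring

lemma dg (fr : Frame n A) (l y z : Fin n) :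
    ∑ r, ∑ i, fr.f r y * D.d l (fr.g r i) * fr.f i z = S D fr l z y + S D fr l y z := by
  have hef : ∀ a b : Fin n, ∑ i, fr.e a i * fr.f i b = if a = b then 1 else 0 := by
    intro a b
    have := congrFun (congrFun fr.e_f a) b
    rwa [Matrix.mul_apply, Matrix.one_apply] at this
  have hg : ∀ r i, D.d l (fr.g r i)
      = ∑ c, (D.d l (fr.e c r) * fr.e c i + fr.e c r * D.d l (fr.e c i)) := by
    intro r i
    unfold Frame.g
    rw [Matrix.mul_apply, map_sum]
    refine Finset.sum_congr rfl fun c _ => ?_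
    rw [Matrix.transpose_apply, Derivation.leibniz]
    simp only [smul_eq_mul]
    ring
  have h1 : ∑ r, ∑ i, fr.f r y * D.d l (fr.g r i) * fr.f i z
      = ∑ c, ((∑ r, D.d l (fr.e c r) * fr.f r y) * (∑ i, fr.e c i * fr.f i z)
          + (∑ r, fr.e c r * fr.f r y) * (∑ i, D.d l (fr.e c i) * fr.f i z)) := by
    have : ∀ c : Fin n, ((∑ r, D.d l (fr.e c r) * fr.f r y) * (∑ i, fr.e c i * fr.f i z)
          + (∑ r, fr.e c r * fr.f r y) * (∑ i, D.d l (fr.e c i) * fr.f i z))
        = ∑ r, ∑ i, fr.f r y * (D.d l (fr.e c r) * fr.e c i + fr.e c r * D.d l (fr.e c i))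
            * fr.f i z := by
      intro c
      rw [Finset.sum_mul_sum, Finset.sum_mul_sum, ← Finset.sum_add_distrib]
      refine Finset.sum_congr rfl fun r _ => ?_
      rw [← Finset.sum_add_distrib]
      refine Finset.sum_congr rfl fun i _ => ?_
      ring
    rw [Finset.sum_congr rfl fun c _ => this c]
    conv_rhs => rw [Finset.sum_comm]
    refine Finset.sum_congr rfl fun r _ => ?_
    conv_rhs => rw [Finset.sum_comm]
    refine Finset.sum_congr rfl fun i _ => ?_
    rw [hg, Finset.mul_sum, Finset.sum_mul]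
  rw [h1]
  simp_rw [hef]
  simp [Finset.sum_add_distrib, S]

lemma e_gi (fr : Frame n A) (a r : Fin n) : ∑ m, fr.e a m * fr.gi m r = fr.f r a := by
  have : (fr.e * fr.gi) a r = fr.f r a := by
    unfold Frame.gi
    rw [← Matrix.mul_assoc, fr.e_f, Matrix.one_mul, Matrix.transpose_apply]
  rwa [Matrix.mul_apply] at this

lemma Th_eq (fr : Frame n A) (l a b : Fin n) :
    Th D fr l a b = S D fr l a b
      - ∑ i, ∑ r, fr.f r a * ((1/2 : ℂ) • (D.d l (fr.g r i) + D.d i (fr.g r l)
          - D.d r (fr.g l i))) * fr.f i b := by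
  unfold Th S
  rw [← Finset.sum_sub_distrib]
  refine Finset.sum_congr rfl fun i _ => ?_
  rw [sub_mul]
  congr 1
  rw [← Finset.sum_mul]
  congr 1
  unfold CD.Gam
  simp_rw [Finset.sum_mul]
  rw [Finset.sum_comm]
  refine Finset.sum_congr rfl fun r _ => ?_
  rw [← e_gi fr a r, Finset.sum_mul]
  refine Finset.sum_congr rfl fun m _ => ?_
  ring

lemma Th_M (fr : Frame n A) (e a d : Fin n) :
    ∑ l, fr.f l e * Th D fr l a d = (1/2 : ℂ) • fr.M D a e d := by
  have k1 : ∑ l, fr.f l e * ∑ i, ∑ r, fr.f r a * D.d l (fr.g r i) * fr.f i d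
      = fr.s D e d a + fr.s D e a d := by
    rw [s_S, s_S, ← Finset.sum_add_distrib]
    refine Finset.sum_congr rfl fun l _ => ?_
    rw [← mul_add, ← dg, Finset.sum_comm]
  have k2 : ∑ l, fr.f l e * ∑ i, ∑ r, fr.f r a * D.d i (fr.g r l) * fr.f i d
      = fr.s D d e a + fr.s D d a e := by
    rw [s_S, s_S, ← Finset.sum_add_distrib]
    simp_rw [← mul_add, ← dg]
    simp_rw [Finset.mul_sum]
    rw [Finset.sum_comm]
    refine Finset.sum_congr rfl fun i _ => ?_
    rw [Finset.sum_comm]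
    refine Finset.sum_congr rfl fun r _ => Finset.sum_congr rfl fun l _ => ?_
    ring
  have k3 : ∑ l, fr.f l e * ∑ i, ∑ r, fr.f r a * D.d r (fr.g l i) * fr.f i d
      = fr.s D a d e + fr.s D a e d := by
    rw [s_S, s_S, ← Finset.sum_add_distrib]
    simp_rw [← mul_add, ← dg]
    simp_rw [Finset.mul_sum]
    have : ∀ l : Fin n, ∑ i, ∑ r, fr.f l e * (fr.f r a * D.d r (fr.g l i) * fr.f i d)
        = ∑ r, ∑ i, fr.f l e * (fr.f r a * D.d r (fr.g l i) * fr.f i d) :=
      fun l => Finset.sum_comm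
    simp_rw [this]
    rw [Finset.sum_comm]
    refine Finset.sum_congr rfl fun r _ => Finset.sum_congr rfl fun l _ =>
      Finset.sum_congr rfl fun i _ => ?_
    ring
  have k0 : ∑ l, fr.f l e * Th D fr l a d = fr.s D e a d - (1/2 : ℂ) •
      (∑ l, fr.f l e * ∑ i, ∑ r, fr.f r a * D.d l (fr.g r i) * fr.f i d
      + ∑ l, fr.f l e * ∑ i, ∑ r, fr.f r a * D.d i (fr.g r l) * fr.f i d
      - ∑ l, fr.f l e * ∑ i, ∑ r, fr.f r a * D.d r (fr.g l i) * fr.f i d) := by
    rw [s_S, ← Finset.sum_add_distrib, ← Finset.sum_sub_distrib, Finset.smul_sum,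
      ← Finset.sum_sub_distrib]
    refine Finset.sum_congr rfl fun l _ => ?_
    rw [Th_eq, mul_sub]
    congr 1
    rw [← mul_add, ← mul_sub, ← mul_smul_comm]
    congr 1
    rw [← Finset.sum_add_distrib, ← Finset.sum_sub_distrib, Finset.smul_sum]
    refine Finset.sum_congr rfl fun i _ => ?_
    rw [← Finset.sum_add_distrib, ← Finset.sum_sub_distrib, Finset.smul_sum]
    refine Finset.sum_congr rfl fun r _ => ?_
    rw [Algebra.smul_def, Algebra.smul_def]
    ring
  rw [k0, k1, k2, k3]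
  unfold Frame.M
  have h2 : (algebraMap ℂ A) (1/2) + (algebraMap ℂ A) (1/2) = 1 := by
    rw [← map_add, show (1/2 : ℂ) + 1/2 = 1 by norm_num, map_one]
  rw [Algebra.smul_def, Algebra.smul_def]
  linear_combination (-(fr.s D e a d)) * h2

lemma phi0_anti : ∀ a b c : Fin 7, phi0 a b c = -phi0 b a c ∧ phi0 a b c = -phi0 a c b := by
  decide +kernel

lemma phi0_norm : ∀ a d : Fin 7,
    ∑ b, ∑ c, phi0 a b c * phi0 d b c = if a = d then 6 else 0 := by
  decide +kernel

lemma con0 (w : Fin 7 → Fin 7 → A) (hw : ∀ a b, w a b = - w b a)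
    (h : ∑ a, (phi0 a 3 6 • w a 1 + phi0 1 a 6 • w a 3 + phi0 1 3 a • w a 6) = 0) :
    ∑ a, ∑ b, phi0 a b 0 • w a b = 0 := by
  simp [Fin.sum_univ_seven, phi0, sgn3] at h ⊢
  linear_combination (2) * h + (1) * hw 1 2 + (1) * hw 3 4 + (-1) * hw 5 6

lemma con1 (w : Fin 7 → Fin 7 → A) (hw : ∀ a b, w a b = - w b a)
    (h : ∑ a, (phi0 a 3 6 • w a 0 + phi0 0 a 6 • w a 3 + phi0 0 3 a • w a 6) = 0) :
    ∑ a, ∑ b, phi0 a b 1 • w a b = 0 := by
  simp [Fin.sum_univ_seven, phi0, sgn3] at h ⊢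
  linear_combination (-2) * h + (-1) * hw 0 2 + (1) * hw 3 5 + (1) * hw 4 6

lemma con2 (w : Fin 7 → Fin 7 → A) (hw : ∀ a b, w a b = - w b a)
    (h : ∑ a, (phi0 a 3 5 • w a 0 + phi0 0 a 5 • w a 3 + phi0 0 3 a • w a 5) = 0) :
    ∑ a, ∑ b, phi0 a b 2 • w a b = 0 := by
  simp [Fin.sum_univ_seven, phi0, sgn3] at h ⊢
  linear_combination (-2) * h + (1) * hw 0 1 + (-1) * hw 3 6 + (1) * hw 4 5

lemma con3 (w : Fin 7 → Fin 7 → A) (hw : ∀ a b, w a b = - w b a)
    (h : ∑ a, (phi0 a 1 6 • w a 0 + phi0 0 a 6 • w a 1 + phi0 0 1 a • w a 6) = 0) :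
    ∑ a, ∑ b, phi0 a b 3 • w a b = 0 := by
  simp [Fin.sum_univ_seven, phi0, sgn3] at h ⊢
  linear_combination (2) * h + (-1) * hw 0 4 + (-1) * hw 1 5 + (-1) * hw 2 6

lemma con4 (w : Fin 7 → Fin 7 → A) (hw : ∀ a b, w a b = - w b a)
    (h : ∑ a, (phi0 a 1 5 • w a 0 + phi0 0 a 5 • w a 1 + phi0 0 1 a • w a 5) = 0) :
    ∑ a, ∑ b, phi0 a b 4 • w a b = 0 := by
  simp [Fin.sum_univ_seven, phi0, sgn3] at h ⊢
  linear_combination (2) * h + (1) * hw 0 3 + (1) * hw 1 6 + (-1) * hw 2 5

lemma con5 (w : Fin 7 → Fin 7 → A) (hw : ∀ a b, w a b = - w b a)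
    (h : ∑ a, (phi0 a 1 4 • w a 0 + phi0 0 a 4 • w a 1 + phi0 0 1 a • w a 4) = 0) :
    ∑ a, ∑ b, phi0 a b 5 • w a b = 0 := by
  simp [Fin.sum_univ_seven, phi0, sgn3] at h ⊢
  linear_combination (-2) * h + (-1) * hw 0 6 + (1) * hw 1 3 + (1) * hw 2 4

lemma con6 (w : Fin 7 → Fin 7 → A) (hw : ∀ a b, w a b = - w b a)
    (h : ∑ a, (phi0 a 1 3 • w a 0 + phi0 0 a 3 • w a 1 + phi0 0 1 a • w a 3) = 0) :
    ∑ a, ∑ b, phi0 a b 6 • w a b = 0 := by
  simp [Fin.sum_univ_seven, phi0, sgn3] at h ⊢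
  linear_combination (-2) * h + (1) * hw 0 5 + (-1) * hw 1 4 + (1) * hw 2 3

end G1

/-- `∇φ = 0` in coordinates implies that the connection form stabilises `φ` -/
theorem stab_of_parallel {n : ℕ} {A : Type*} [CommRing A] [Algebra ℂ A] (D : DS n A)
    (fr : Frame n A) (φ : Fin n → Fin n → Fin n → ℂ)
    (hpar : ∀ l i j k, D.d l (CD.phc fr φ i j k) =
      ∑ m, (CD.Gam D fr m l i * CD.phc fr φ m j k + CD.Gam D fr m l j * CD.phc fr φ i m k
        + CD.Gam D fr m l k * CD.phc fr φ i j m)) : CD.Stab D fr φ := by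
  intro e d b c
  have h := fun l => G1.act_Th D φ fr hpar l d b c
  have h1 : ∑ l, fr.f l e * G1.act φ (G1.Th D fr l) d b c = 0 :=
    Finset.sum_eq_zero fun l _ => by rw [h l, mul_zero]
  unfold G1.act at h1
  simp_rw [Finset.mul_sum] at h1
  rw [Finset.sum_comm] at h1
  have h2 : ∀ a : Fin n, ∑ l, fr.f l e * (φ a b c • G1.Th D fr l a d
      + φ d a c • G1.Th D fr l a b + φ d b a • G1.Th D fr l a c)
      = (1/2 : ℂ) • (φ a b c • fr.M D a e d + φ d a c • fr.M D a e b + φ d b a • fr.M D a e c) := by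
    intro a
    have e1 : ∀ (x : ℂ) (t : Fin n), (1/2 : ℂ) • (x • fr.M D a e t)
        = ∑ l, fr.f l e * (x • G1.Th D fr l a t) := by
      intro x t
      rw [smul_comm, ← G1.Th_M, Finset.smul_sum]
      refine Finset.sum_congr rfl fun l _ => ?_
      rw [mul_smul_comm]
    rw [smul_add, smul_add, e1, e1, e1, ← Finset.sum_add_distrib, ← Finset.sum_add_distrib]
    refine Finset.sum_congr rfl fun l _ => ?_
    ring
  simp_rw [h2] at h1
  rw [← Finset.smul_sum] at h1
  have h3 : (2 : ℂ) • ((1/2 : ℂ) • ∑ a, (φ a b c • fr.M D a e d + φ d a c • fr.M D a e b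
      + φ d b a • fr.M D a e c)) = 0 := by
    rw [h1, smul_zero]
  rwa [smul_smul, show (2 : ℂ) * (1/2) = 1 by norm_num, one_smul] at h3

/-- the complex components of the standard form -/
def phiC (i j k : Fin 7) : ℂ := ((phi0 i j k : ℤ) : ℂ)

theorem contr_of_stab {A : Type*} [CommRing A] [Algebra ℂ A] (D : DS 7 A) (fr : Frame 7 A)
    (h : CD.Stab D fr phiC) : CD.Contr D fr phiC := by
  intro e c
  have hw : ∀ a b : Fin 7, fr.M D a e b = -fr.M D b e a := by
    intro a b
    unfold Frame.M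
    ring
  have h1 : ∀ d b c : Fin 7, ∑ a, (phi0 a b c • fr.M D a e d + phi0 d a c • fr.M D a e b
      + phi0 d b a • fr.M D a e c) = 0 := by
    intro d b c
    have := h e d b c
    simpa only [phiC, Int.cast_smul_eq_zsmul] using this
  have h2 : ∑ a, ∑ b, phi0 a b c • fr.M D a e b = 0 := by
    fin_cases c
    · exact G1.con0 (fun a b => fr.M D a e b) hw (h1 1 3 6)
    · exact G1.con1 (fun a b => fr.M D a e b) hw (h1 0 3 6)
    · exact G1.con2 (fun a b => fr.M D a e b) hw (h1 0 3 5)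
    · exact G1.con3 (fun a b => fr.M D a e b) hw (h1 0 1 6)
    · exact G1.con4 (fun a b => fr.M D a e b) hw (h1 0 1 5)
    · exact G1.con5 (fun a b => fr.M D a e b) hw (h1 0 1 4)
    · exact G1.con6 (fun a b => fr.M D a e b) hw (h1 0 1 3)
  simpa only [phiC, Int.cast_smul_eq_zsmul] using h2

theorem phiC_anti : CD.Anti phiC := by
  intro a b c
  have h := G1.phi0_anti a b c
  unfold phiC
  exact ⟨by rw [h.1]; push_cast; rfl, by rw [h.2]; push_cast; rfl⟩

theorem phiC_real : ∀ a b c, star (phiC a b c) = phiC a b c := by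
  intro a b c
  unfold phiC
  simp

theorem phiC_norm : ∀ a d, ∑ b, ∑ c, phiC a b c * phiC d b c = if a = d then 6 else 0 := by
  intro a d
  have h := congrArg (fun z : ℤ => (z : ℂ)) (G1.phi0_norm a d)
  simp only [Int.cast_sum, Int.cast_mul] at h
  unfold phiC
  rw [h]
  split_ifs <;> simp

end Pool.Agent.AA3
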