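import Pool.Agent.Lib.MP_aa3aaf_al_h46.LFMain
import Pool.Agent.Lib.MP_aa3aaf_al.CCoord
import Pool.Agent.Lib.MP_aa3aaf_al.FrameAlg

/-!
Smooth local `G₂`-frames.
-/

set_option autoImplicit false
open scoped BigOperators ContDiff Manifold
noncomputable section
namespace Pool.Agent.AA3

section G2
variable {M : Type} [TopologicalSpace M] [ChartedSpace (Eu 7) M] [IsManifold 𝓘(ℝ, Eu 7) ∞ M]

theorem exists_local_frame (S : G2Structure M) (e : Ch M) (y : Eu 7) (hy : y ∈ tgt e.1) :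
    ∃ (V : TopologicalSpace.Opens (Eu 7)) (hV : V ≤ tgt e.1) (fr : Frame 7 (smooth V)),
      y ∈ V ∧ (∀ a i (z : V), star ((fr.e a i).1 z) = (fr.e a i).1 z) ∧
      (∀ i a (z : V), star ((fr.f i a).1 z) = (fr.f i a).1 z) ∧
      (∀ i j (z : V), (fr.g i j).1 z = (S.gR e i j).1 ⟨z.1, hV z.2⟩) ∧
      ∀ i j k (z : V), (CD.phc fr phiC i j k).1 z = (S.pR e i j k).1 ⟨z.1, hV z.2⟩ :=
  LF.exists_local_frame S e y hy

end G2
end Pool.Agent.AA3
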