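import Mathlib
/-! Definitions for the positivity argument (part P of the blueprint of MP_aa3aaf_al). -/
set_option autoImplicit false
open scoped BigOperators
noncomputable section
namespace Pool.Agent.AA3

/-- a commutative `ℂ`-algebra with conjugation and a cone of nonnegative elements -/
structure PosR (R : Type*) [CommRing R] [Algebra ℂ R] where
  conj : R →+* R
  nn : R → Prop
  conj_conj : ∀ a, conj (conj a) = a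
  conj_alg : ∀ z : ℂ, conj (algebraMap ℂ R z) = algebraMap ℂ R (star z)
  nn_add : ∀ a b, nn a → nn b → nn (a + b)
  nn_smul : ∀ (c : ℝ) a, 0 ≤ c → nn a → nn ((c : ℂ) • a)
  nn_conj : ∀ a, nn (conj a * a)
  nn_zero : ∀ a b, nn a → nn b → a + b = 0 → a = 0 ∧ b = 0
  conj_zero : ∀ a, conj a * a = 0 → a = 0

/-- Abstract data for the positivity argument. -/
structure PD (R : Type*) [CommRing R] [Algebra ℂ R] (C : PosR R) (ι : Type*) [Fintype ι]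
    (E : Type*) [AddCommGroup E] [Module ℂ E] [Module R E] [IsScalarTower ℂ R E] where
  A : ι → ℤ → E →ₗ[R] E
  ψ : ι → ℤ → E →ₗ[R] E
  g : E →ₗ[R] E
  H : E →ₗ[R] E
  σ : E →ₗ[R] E
  vc : E →ₗ[R] R
  vac : E
  θ : E →+ E
  P : E →ₗ[R] E →ₗ[R] R
  /-- the plus sector -/
  sec : Submodule R E
  A_trunc : ∀ i v, ∃ N : ℤ, ∀ m, N ≤ m → A i m v = 0
  ψ_trunc : ∀ i v, ∃ N : ℤ, ∀ m, N ≤ m → ψ i m v = 0
  A_zero : ∀ i v, A i 0 v = 0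
  g_A : ∀ i (m : ℤ) v, g (A i m v) - A i m (g v) = (-(m : ℂ)) • ψ i m v
  g_ψ : ∀ i (m : ℤ) v, g (ψ i m v) + ψ i m (g v) = A i (m + 1) v
  g_vac : g vac = 0
  vc_g : ∀ v, vc (g v) = 0
  g_nil : ∀ v, ∃ N : ℕ, (g ^ N) v = 0
  σ_σ : ∀ v, σ (σ v) = v
  σ_A : ∀ i (m : ℤ) v, σ (A i m v) = A i m (σ v)
  σ_ψ : ∀ i (m : ℤ) v, σ (ψ i m v) = -ψ i m (σ v)
  σ_g : ∀ v, σ (g v) = -g (σ v)
  /-- parity is the parity of twice the weight -/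
  σ_H : ∀ v (h : ℕ), H v = (h : ℂ) • v → σ v = (-1 : ℂ) ^ h • v
  H_A : ∀ i (m : ℤ) v, H (A i m v) - A i m (H v) = (-(2 * m : ℂ)) • A i m v
  H_ψ : ∀ i (m : ℤ) v, H (ψ i m v) - ψ i m (H v) = (-(2 * m + 1 : ℂ)) • ψ i m v
  H_neg : ∀ v (h : ℤ), h < 0 → H v = (h : ℂ) • v → v = 0
  H_zero : ∀ v, H v = 0 → v = vc v • vac
  P_vac : ∀ s, P vac s = vc s
  /-- recursion for the pairing; the sums may be cut at any sufficiently large `N` -/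
  P_A : ∀ i (k : ℕ) t s (N : ℕ), (∀ j : ℕ, N ≤ j → A i j s = 0) →
    P (A i (-(k : ℤ) - 1) t) s =
      (-1 : ℂ) ^ k • ∑ j ∈ Finset.range N, ((k + j).choose j : ℂ) • P t (A i j s)
  P_ψ : ∀ i (k : ℕ) t s (N : ℕ), (∀ j : ℕ, N ≤ j → ψ i j s = 0) →
    P (ψ i (-(k : ℤ) - 1) t) s =
      (-1 : ℂ) ^ k • ∑ j ∈ Finset.range N, ((k + j).choose j : ℂ) • P (σ t) (ψ i j s)
  θ_smul : ∀ (r : R) v, θ (r • v) = C.conj r • θ v
  θ_vac : θ vac = vac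
  θ_A : ∀ i (m : ℤ) v, θ (A i m v) = -A i m (θ v)
  θ_ψ : ∀ i (m : ℤ) v, θ (ψ i m v) = ψ i m (θ v)
  θ_g : ∀ v, θ (g v) = -g (θ v)
  θ_σ : ∀ v, θ (σ v) = σ (θ v)
  θ_H : ∀ v, θ (H v) = H (θ v)
  sec_A : ∀ i (k : ℕ) v, v ∈ sec → A i k v ∈ sec
  sec_ψ : ∀ i (k : ℕ) v, v ∈ sec → ψ i k v ∈ sec
  /-- twice the conformal weight on the plus sector -/
  H_eq : ∀ v ∈ sec, ∀ K : ℕ,
    (∀ i (k : ℕ), K ≤ k → A i (k + 1 : ℕ) v = 0 ∧ ψ i k v = 0) →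
    H v = ∑ i, ∑ k ∈ Finset.range K,
      (A i (-(k : ℤ) - 1) (A i (k + 1 : ℕ) v)
        + ((k : ℂ) + 1 / 2) • ψ i (-(k : ℤ) - 1) (ψ i k v))

end Pool.Agent.AA3
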