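import Pool.Agent.Lib.MP_aa3aaf_al.SmoothLem
import Pool.Agent.Lib.MP_aa3aaf_al.PosDefs

/-!
Products of rings of smooth functions, their conjugation and positive cone, and restriction.
-/

set_option autoImplicit false
open scoped BigOperators ContDiff
noncomputable section
namespace Pool.Agent.AA3

section Rr
variable {n : ℕ} {J : Type*} (U : J → TopologicalSpace.Opens (Eu n))

/-- derivations of a product of differential rings -/
theorem exists_piDS : ∃ D : DS n (∀ j, smooth (U j)),
    ∀ i f j, (D.d i f) j = (DSmooth (U j)).d i (f j) := by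
  refine ⟨{ d := fun i => Derivation.mk'
              { toFun := fun f j => (DSmooth (U j)).d i (f j)
                map_add' := fun f g => funext fun j => map_add _ _ _
                map_smul' := fun c f => funext fun j => ((DSmooth (U j)).d i).map_smul c (f j) }
              (fun f g => funext fun j => ?_)
            comm := fun i j f => funext fun k => (DSmooth (U k)).comm i j (f k) },
    fun i f j => rfl⟩
  exact ((DSmooth (U j)).d i).leibniz (f j) (g j)

/-- the product differential ring -/
def piDS : DS n (∀ j, smooth (U j)) := (exists_piDS U).choose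
theorem piDS_apply (i : Fin n) (f : ∀ j, smooth (U j)) (j : J) :
    ((piDS U).d i f) j = (DSmooth (U j)).d i (f j) := (exists_piDS U).choose_spec i f j

/-- the conjugation and the positive cone of the product ring -/
theorem exists_piPos : ∃ C : PosR (∀ j, smooth (U j)),
    (∀ f j y, ((C.conj f) j).1 y = star ((f j).1 y)) ∧
    ∀ i f, C.conj ((piDS U).d i f) = (piDS U).d i (C.conj f) := by
  have hsmul : ∀ (c : ℂ) (f : ∀ j, smooth (U j)) (j : J) (y : U j),
      ((c • f) j).1 y = c * (f j).1 y := fun c f j y => rfl
  have hadd : ∀ (f g : ∀ j, smooth (U j)) (j : J) (y : U j),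
      ((f + g) j).1 y = (f j).1 y + (g j).1 y := fun f g j y => rfl
  have hmul : ∀ (f g : ∀ j, smooth (U j)) (j : J) (y : U j),
      ((f * g) j).1 y = (f j).1 y * (g j).1 y := fun f g j y => rfl
  have hext : ∀ (f g : ∀ j, smooth (U j)), (∀ j (y : U j), (f j).1 y = (g j).1 y) → f = g :=
    fun f g h => funext fun j => SM.ext_apply (h j)
  refine ⟨{ conj := RingHom.pi fun j => (SM.conj (U j)).comp (Pi.evalRingHom _ j)
            nn := fun f => ∀ j (y : U j), ∃ r : ℝ, 0 ≤ r ∧ (f j).1 y = r
            conj_conj := fun f => hext _ _ fun j y => star_star ((f j).1 y)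
            conj_alg := fun z => hext _ _ fun j y => rfl
            nn_add := ?_
            nn_smul := ?_
            nn_conj := ?_
            nn_zero := ?_
            conj_zero := ?_ }, fun f j y => rfl, ?_⟩
  · intro f g hf hg j y
    obtain ⟨r, hr, h⟩ := hf j y
    obtain ⟨s, hs, h'⟩ := hg j y
    refine ⟨r + s, add_nonneg hr hs, ?_⟩
    rw [hadd, h, h', Complex.ofReal_add]
  · intro c f hc hf j y
    obtain ⟨r, hr, h⟩ := hf j y
    refine ⟨c * r, mul_nonneg hc hr, ?_⟩
    rw [hsmul, h, Complex.ofReal_mul]
  · intro f j y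
    refine ⟨Complex.normSq ((f j).1 y), Complex.normSq_nonneg _, ?_⟩
    rw [Complex.normSq_eq_conj_mul_self]
    rfl
  · intro f g hf hg h
    have key : ∀ j (y : U j), (f j).1 y = 0 ∧ (g j).1 y = 0 := by
      intro j y
      obtain ⟨r, hr, h1⟩ := hf j y
      obtain ⟨s, hs, h2⟩ := hg j y
      have h3 : ((f + g) j).1 y = 0 := by rw [h]; rfl
      rw [hadd, h1, h2, ← Complex.ofReal_add, Complex.ofReal_eq_zero] at h3
      have hr0 : r = 0 := by linarith
      have hs0 : s = 0 := by linarith
      rw [h1, h2, hr0, hs0]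
      simp
    exact ⟨hext _ _ fun j y => (key j y).1, hext _ _ fun j y => (key j y).2⟩
  · intro f h
    refine hext _ _ fun j y => ?_
    have h3 : star ((f j).1 y) * (f j).1 y = 0 := by
      have := congrArg (fun g : ∀ j, smooth (U j) => (g j).1 y) h
      exact this
    rcases mul_eq_zero.1 h3 with h4 | h4
    · exact star_eq_zero.1 h4
    · exact h4
  · intro i f
    refine funext fun j => ?_
    rw [piDS_apply]
    change SM.conj (U j) ((piDS U).d i f j) = (DSmooth (U j)).d i (SM.conj (U j) (f j))
    rw [piDS_apply, SM.conj_d]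

/-- restriction of smooth functions -/
theorem exists_res {V W : TopologicalSpace.Opens (Eu n)} (h : V ≤ W) :
    ∃ r : smooth W →ₐ[ℂ] smooth V,
      (∀ f (y : V), (r f).1 y = f.1 ⟨y.1, h y.2⟩) ∧
      ∀ i f, r ((DSmooth W).d i f) = (DSmooth V).d i (r f) :=
  ⟨SM.res h, SM.res_apply h, SM.res_d h⟩

/-- restriction of smooth functions -/
def res {V W : TopologicalSpace.Opens (Eu n)} (h : V ≤ W) : smooth W →ₐ[ℂ] smooth V :=
  (exists_res h).choose

theorem res_apply {V W : TopologicalSpace.Opens (Eu n)} (h : V ≤ W) (f : smooth W) (y : V) :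
    (res h f).1 y = f.1 ⟨y.1, h y.2⟩ := (exists_res h).choose_spec.1 f y

theorem res_d {V W : TopologicalSpace.Opens (Eu n)} (h : V ≤ W) (i : Fin n) (f : smooth W) :
    res h ((DSmooth W).d i f) = (DSmooth V).d i (res h f) := (exists_res h).choose_spec.2 i f

end Rr

end Pool.Agent.AA3
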