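import Pool.Agent.Lib.MP_aa3aaf_al.Main
import Pool.Agent.Lib.MP_aa3aaf_al.Bridge1
import Pool.Agent.Lib.MP_aa3aaf_al.Bridge2
import Pool.Agent.Lib.MP_aa3aaf_al.Bridge3
import Pool.Agent.Lib.MP_aa3aaf_al.PiRing
import Pool.Agent.Lib.MP_aa3aaf_al.FrameAlg
import Pool.Agent.Lib.MP_aa3aaf_al.LocalFrame
import Pool.Agent.Lib.MP_aa3aaf_al.Stmt

/-!
Assembly of the final theorem.
-/

set_option autoImplicit false
set_option linter.unusedSectionVars false
open scoped BigOperators ContDiff Manifold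
set_option maxHeartbeats 400000
set_option synthInstance.maxHeartbeats 100000
noncomputable section
namespace Pool.Agent.AA3

namespace Z

/-! ### generalities -/

theorem rho_single {E : Type*} [AddCommGroup E] [Module ℂ E] (V : VSA E) (Φ K : E)
    (w : FreeMonoid WL) (c : ℂ) : rho V Φ K (MonoidAlgebra.single w c) = c • rhoL V Φ K w := by
  simp [rho, MonoidAlgebra.lift_single]

theorem hom_rho {E E' : Type*} [AddCommGroup E] [Module ℂ E] [AddCommGroup E'] [Module ℂ E']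
    (V : VSA E) (V' : VSA E') (h : E →+ E') (hs : ∀ (c : ℂ) v, h (c • v) = c • h v)
    (hY : ∀ a m v, h (V.Y a m v) = V'.Y (h a) m (h v)) (Φ K : E) (u : WA) (v : E) :
    h (rho V Φ K u v) = rho V' (h Φ) (h K) u (h v) := by
  have hL : ∀ (w : FreeMonoid WL) (v : E),
      h (rhoL V Φ K w v) = rhoL V' (h Φ) (h K) w (h v) := by
    intro w
    induction w using FreeMonoid.inductionOn' with
    | one => intro v; simp
    | of_mul l w ih =>
      intro v
      rw [map_mul, map_mul, Module.End.mul_apply, Module.End.mul_apply, ← ih]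
      simp only [rhoL, FreeMonoid.lift_eval_of]
      split_ifs <;> exact hY _ _ _
  induction u using MonoidAlgebra.induction_linear with
  | zero => simp
  | add f g hf hg => rw [map_add, map_add, LinearMap.add_apply, LinearMap.add_apply, map_add, hf, hg]
  | single w c =>
    rw [rho_single, rho_single, LinearMap.smul_apply, LinearMap.smul_apply, hs, hL]

theorem tw_smul' {n : ℕ} {A A' : Type*} [CommRing A] [Algebra ℂ A] [CommRing A'] [Algebra ℂ A']
    (h : A →+* A') (l m : ℂˣ) (hc : ∀ z : ℂ, h (algebraMap ℂ A z) = algebraMap ℂ A' z)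
    (c : ℂ) (v : EE n A) : tw h l m (c • v) = c • tw h l m v := by
  induction v using Finsupp.induction_linear with
  | zero => simp
  | add f g hf hg => rw [smul_add, map_add, map_add, hf, hg, smul_add]
  | single w a =>
    simp only [tw, Finsupp.smul_single, Finsupp.liftAddHom_apply_single, AddMonoidHom.comp_apply,
      Finsupp.singleAddHom_apply, RingHom.toAddMonoidHom_eq_coe, AddMonoidHom.coe_coe,
      AddMonoidHom.coe_mulLeft]
    rw [Algebra.smul_def, map_mul, hc, Algebra.smul_def, mul_left_comm]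

theorem tw_one_apply {n : ℕ} {A A' : Type*} [CommRing A] [Algebra ℂ A] [CommRing A']
    [Algebra ℂ A'] (h : A →+* A') (v : EE n A) (w : Mon n) : tw h 1 1 v w = h (v w) := by
  induction v using Finsupp.induction_linear with
  | zero => simp
  | add f g hf hg => rw [map_add, Finsupp.add_apply, hf, hg, Finsupp.add_apply, map_add]
  | single w' a =>
    simp only [tw, Finsupp.liftAddHom_apply_single, AddMonoidHom.comp_apply,
      Finsupp.singleAddHom_apply, RingHom.toAddMonoidHom_eq_coe, AddMonoidHom.coe_coe,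
      AddMonoidHom.coe_mulLeft]
    by_cases hw : w' = w
    · subst hw; simp
    · rw [Finsupp.single_eq_of_ne' hw, Finsupp.single_eq_of_ne' hw, map_zero]

theorem gen_smul {𝒱 : Type*} [AddCommGroup 𝒱] [Module ℂ 𝒱] (X : VAlg 𝒱) (s : 𝒱) (c : ℂ)
    (hc : c ≠ 0) : X.gen (c • s) = X.gen s := by
  have key : ∀ W : Submodule ℂ 𝒱, c • s ∈ W ↔ s ∈ W := by
    intro W
    constructor
    · intro h
      have := W.smul_mem c⁻¹ h
      rwa [smul_smul, inv_mul_cancel₀ hc, one_smul] at this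
    · exact W.smul_mem c
  simp only [VAlg.gen, key]

theorem tw_DD {n : ℕ} {A A' : Type*} [CommRing A] [Algebra ℂ A] [CommRing A'] [Algebra ℂ A']
    (D : DS n A) (D' : DS n A') (h : A →+* A') (hl : ∀ i f, h (D.d i f) = D'.d i (h f))
    (v : EE n A) : tw h 1 1 ((cdE D).DD v) = (cdE D').DD (tw h 1 1 v) := by
  have hl' : ∀ i f, h (D.d i f) = ((1 : ℂˣ) : ℂ) • D'.d i (h f) := by
    intro i f; simp [hl]
  simp only [CD.DD, LinearMap.add_apply, map_add]
  rw [tw_Q1 D D' h 1 1 hl', tw_Q2 D D' h 1 1 hl']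
  simp

theorem isUnit_smooth {n : ℕ} {U : TopologicalSpace.Opens (Eu n)} (f : smooth U)
    (hf : ∀ y : U, f.1 y ≠ 0) : IsUnit f := by
  have hg : (fun y : U => (f.1 y)⁻¹) ∈ smooth U := by
    have h1 : ContDiffOn ℝ ∞ (fun y => (ext0 (U : Set (Eu n)) f.1 y)⁻¹) U := by
      refine ContDiffOn.inv f.2 fun y hy => ?_
      have : ext0 (U : Set (Eu n)) f.1 y = f.1 ⟨y, hy⟩ := ext0_apply _ _ ⟨y, hy⟩
      rw [this]
      exact hf _
    refine h1.congr fun y hy => ?_
    have e1 : ext0 (U : Set (Eu n)) (fun y : U => (f.1 y)⁻¹) y = (f.1 ⟨y, hy⟩)⁻¹ :=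
      ext0_apply (U : Set (Eu n)) (fun y : U => (f.1 y)⁻¹) ⟨y, hy⟩
    have e2 : ext0 (U : Set (Eu n)) f.1 y = f.1 ⟨y, hy⟩ := ext0_apply _ _ ⟨y, hy⟩
    rw [e1, e2]
  refine IsUnit.of_mul_eq_one ⟨_, hg⟩ ?_
  apply Subtype.ext
  funext y
  show f.1 y * (f.1 y)⁻¹ = 1
  exact mul_inv_cancel₀ (hf y)

end Z

section
variable {M : Type} [TopologicalSpace M] [ChartedSpace (Eu 7) M] [IsManifold 𝓘(ℝ, Eu 7) ∞ M]
  (S : G2Structure M)

namespace Z

/-! ### the ring of families of functions over all charts -/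

/-- families of smooth functions over all charts -/
abbrev R1 (M : Type) [TopologicalSpace M] [ChartedSpace (Eu 7) M] := ∀ e : Ch M, smooth (tgt e.1)
/-- its derivations -/
abbrev D1 (M : Type) [TopologicalSpace M] [ChartedSpace (Eu 7) M] : DS 7 (R1 M) :=
  piDS fun e : Ch M => tgt e.1

/-- inverse of the metric in the chart `e` -/
def giR (e : Ch M) : Matrix (Fin 7) (Fin 7) (CR e) := (S.gR e)⁻¹
theorem phiPlus_giR (e : Ch M) : S.PhiPlus e =
    formSection (DSmooth (tgt e.1)) (giR S e) (S.ΓR e) (S.pR e)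
      (ePlus (DSmooth (tgt e.1)) (giR S e)) := rfl
theorem phiMinus_giR (e : Ch M) : S.PhiMinus e =
    formSection (DSmooth (tgt e.1)) (giR S e) (S.ΓR e) (S.pR e)
      (eMinus (DSmooth (tgt e.1)) (giR S e)) := rfl
/-- determinant of the metric in the chart `e` -/
def detR (e : Ch M) : CR e := (S.gR e).det
theorem giR_mul (e : Ch M) (h : IsUnit (detR S e)) : giR S e * S.gR e = 1 :=
  Matrix.nonsing_inv_mul _ h
theorem ΓR_eq (e : Ch M) (m l i : Fin 7) : S.ΓR e m l i = ∑ r, giR S e m r *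
    ((1 / 2 : ℂ) • ((DSmooth (tgt e.1)).d l (S.gR e r i) + (DSmooth (tgt e.1)).d i (S.gR e r l)
      - (DSmooth (tgt e.1)).d r (S.gR e l i))) := rfl

/-- inverse metric -/
def gi1 : Matrix (Fin 7) (Fin 7) (R1 M) := fun i j e => giR S e i j
/-- metric -/
def g1 : Matrix (Fin 7) (Fin 7) (R1 M) := fun i j e => S.gR e i j
/-- Christoffel symbols -/
def Γ1 (m l i : Fin 7) : R1 M := fun e => S.ΓR e m l i
/-- 3-form -/
def p1 (i j k : Fin 7) : R1 M := fun e => S.pR e i j k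

/-- the evaluation at a chart -/
def evC (e : Ch M) : R1 M →ₐ[ℂ] smooth (tgt e.1) := Pi.evalAlgHom ℂ _ e

theorem evC_d (e : Ch M) (i : Fin 7) (f : R1 M) :
    evC e ((D1 M).d i f) = (DSmooth (tgt e.1)).d i (evC e f) := piDS_apply _ i f e

variable (M) in
/-- states to families of fields -/
def FF : EE 7 (R1 M) →ₗ[ℂ] (∀ e : Ch M, Fld (EE 7 (CR e))) where
  toFun a := fun e => (vsaE (DSmooth (tgt e.1))).Yf (tw (evC e).toRingHom 1 1 a)
  map_add' a b := by
    funext e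
    rw [map_add, Yf_add]
    rfl
  map_smul' c a := by
    funext e
    rw [tw_smul' _ _ _ (fun z => (evC e).commutes z), Yf_smul]
    rfl

theorem FF_apply (a : EE 7 (R1 M)) (e : Ch M) :
    FF M a e = (vsaE (DSmooth (tgt e.1))).Yf (tw (evC e).toRingHom 1 1 a) := rfl

theorem FF_inj : Function.Injective (FF M) := by
  rw [injective_iff_map_eq_zero]
  intro a ha
  ext1 w
  funext e
  have h1 : (vsaE (DSmooth (tgt e.1))).Yf (tw (evC e).toRingHom 1 1 a) = 0 := congrFun ha e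
  have h2 : tw (evC e).toRingHom 1 1 a = 0 := by
    apply Yf_inj (DSmooth (tgt e.1))
    rw [h1]
    have := Yf_smul (DSmooth (tgt e.1)) 0 0
    rw [zero_smul, zero_smul] at this
    exact this.symm
  have h3 := tw_one_apply (evC e).toRingHom a w
  rw [h2] at h3
  exact h3.symm

theorem FF_vac : FF M (vsaE (D1 M)).vac = (chartAlg M).one := by
  rw [vsaE_vac]
  funext e
  show (vsaE (DSmooth (tgt e.1))).Yf (tw (evC e).toRingHom 1 1 (vacE 7 (R1 M))) = idFld _
  rw [idFld_eq (DSmooth (tgt e.1)), (tw_gens (D1 M) (DSmooth (tgt e.1)) (evC e).toRingHom 1 1).2.2.2.2.2]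

theorem FF_prod (m : ℤ) (a b : EE 7 (R1 M)) :
    (chartAlg M).prod m (FF M a) (FF M b) = FF M ((vsaE (D1 M)).Y a m b) := by
  funext e
  show nprod (sgC 7 (CR e)) m ((vsaE (DSmooth (tgt e.1))).Yf _) ((vsaE (DSmooth (tgt e.1))).Yf _)
    = (vsaE (DSmooth (tgt e.1))).Yf (tw (evC e).toRingHom 1 1 ((vsaE (D1 M)).Y a m b))
  rw [nprod_Yf, tw_Y (D1 M) (DSmooth (tgt e.1)) (evC e).toRingHom 1 1]
  intro i f
  rw [Units.val_one, one_smul]
  exact evC_d e i f

theorem FF_S (a : EE 7 (R1 M)) : (chartAlg M).S (FF M a) = FF M ((cdE (D1 M)).DD a) := by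
  funext e
  show scomm (sgC 7 (CR e)) (susyOp (DSmooth (tgt e.1))) ((vsaE (DSmooth (tgt e.1))).Yf _)
    = (vsaE (DSmooth (tgt e.1))).Yf (tw (evC e).toRingHom 1 1 ((cdE (D1 M)).DD a))
  rw [scomm_Yf, tw_DD (D1 M) (DSmooth (tgt e.1)) (evC e).toRingHom (fun i f => evC_d e i f)]

theorem evC_apply (e : Ch M) (f : R1 M) : evC e f = f e := rfl
theorem gi1_apply (i j : Fin 7) (e : Ch M) : gi1 S i j e = (giR S e) i j := rfl
theorem g1_apply (i j : Fin 7) (e : Ch M) : g1 S i j e = S.gR e i j := rfl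
theorem Γ1_apply (m l i : Fin 7) (e : Ch M) : Γ1 S m l i e = S.ΓR e m l i := rfl
theorem p1_apply (i j k : Fin 7) (e : Ch M) : p1 S i j k e = S.pR e i j k := rfl

theorem gi1_map (e : Ch M) : (gi1 S).map (evC e) = (giR S e) :=
  Matrix.ext fun i j => by rw [Matrix.map_apply, evC_apply, gi1_apply]
theorem g1_map (e : Ch M) : (g1 S).map (evC e) = S.gR e :=
  Matrix.ext fun i j => by rw [Matrix.map_apply, evC_apply, g1_apply]
theorem Γ1_map (e : Ch M) : (fun a b c => evC e (Γ1 S a b c)) = S.ΓR e := by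
  funext a b c
  rw [evC_apply, Γ1_apply]
theorem p1_map (e : Ch M) : (fun a b c => evC e (p1 S a b c)) = S.pR e := by
  funext a b c
  rw [evC_apply, p1_apply]

theorem tw_evC (s q : ℂ) (e : Ch M) :
    tw (evC e).toRingHom 1 1 (formSt (D1 M) s q (gi1 S) (Γ1 S) (p1 S)) =
      formSt (DSmooth (tgt e.1)) s q (giR S e) (S.ΓR e) (S.pR e) := by
  have h := tw_formSt (D1 M) (DSmooth (tgt e.1)) (evC e) (evC_d e) s q (gi1 S) (Γ1 S) (p1 S)
  rw [gi1_map] at h
  rw [h]
  exact congrArg₂ (fun G P => formSt (DSmooth (tgt e.1)) s q (giR S e) G P) (Γ1_map S e)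
    (p1_map S e)

/-- a multiple of the field of a state -/
def smulYf {n : ℕ} {A : Type*} [CommRing A] [Algebra ℂ A] (D : DS n A) (c : ℂ) (a : EE n A) :
    Fld (EE n A) := c • (vsaE D).Yf a

theorem FF_form (c s q : ℂ) (e : Ch M) :
    FF M (c • formSt (D1 M) s q (gi1 S) (Γ1 S) (p1 S)) e =
      smulYf (DSmooth (tgt e.1)) c
        (formSt (DSmooth (tgt e.1)) s q (giR S e) (S.ΓR e) (S.pR e)) := by
  rw [FF_apply, tw_smul' _ _ _ (fun z => (evC e).commutes z), tw_evC]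
  exact Yf_smul _ _ _

/-- the coordinate state of `√2³ Φ₊` -/
def stP : EE 7 (R1 M) := formSt (D1 M) 1 6 (gi1 S) (Γ1 S) (p1 S)
/-- the coordinate state of a multiple of `Φ₋` -/
def stM : EE 7 (R1 M) := formSt (D1 M) (-1) (-6) (gi1 S) (Γ1 S) (p1 S)

theorem fsP {n : ℕ} {A : Type*} [CommRing A] [Algebra ℂ A] (D : DS n A)
    (gi : Matrix (Fin n) (Fin n) A) (Γ p : Fin n → Fin n → Fin n → A) :
    smulYf D ((1 / (Real.sqrt 2 : ℂ)) ^ 3) (formSt D 1 6 gi Γ p)
      = formSection D gi Γ p (ePlus D gi) := (formSection_plus D gi Γ p).symm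
theorem fsM {n : ℕ} {A : Type*} [CommRing A] [Algebra ℂ A] (D : DS n A)
    (gi : Matrix (Fin n) (Fin n) A) (Γ p : Fin n → Fin n → Fin n → A) :
    smulYf D ((1 / ((Real.sqrt 2 : ℂ) * Complex.I)) ^ 3) (formSt D (-1) (-6) gi Γ p)
      = formSection D gi Γ p (eMinus D gi) := (formSection_minus D gi Γ p).symm

theorem FF_plus : FF M ((1 / (Real.sqrt 2 : ℂ)) ^ 3 • stP S) = S.PhiPlus := by
  funext e
  rw [stP, FF_form S ((1 / (Real.sqrt 2 : ℂ)) ^ 3) 1 6 e, fsP, phiPlus_giR]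

theorem FF_minus : FF M ((1 / ((Real.sqrt 2 : ℂ) * Complex.I)) ^ 3 • stM S) = S.PhiMinus := by
  funext e
  rw [stM, FF_form S ((1 / ((Real.sqrt 2 : ℂ) * Complex.I)) ^ 3) (-1) (-6) e, fsM, phiMinus_giR]

/-! ### small open sets with frames -/

/-- points of the coordinate domains -/
abbrev J2 (M : Type) [TopologicalSpace M] [ChartedSpace (Eu 7) M] :=
  Σ e : Ch M, tgt e.1

/-- a small neighbourhood with a frame -/
structure LF (j : J2 M) where
  V : TopologicalSpace.Opens (Eu 7)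
  hV : V ≤ tgt j.1.1
  fr : Frame 7 (smooth V)
  mem : j.2.1 ∈ V
  re : ∀ a i (z : V), star ((fr.e a i).1 z) = (fr.e a i).1 z
  rf : ∀ i a (z : V), star ((fr.f i a).1 z) = (fr.f i a).1 z
  rg : ∀ i k, fr.g i k = res hV (S.gR j.1 i k)
  rp : ∀ i k l, CD.phc fr phiC i k l = res hV (S.pR j.1 i k l)

theorem res_apply {n : ℕ} {V W : TopologicalSpace.Opens (Eu n)} (h : V ≤ W) (f : smooth W)
    (y : V) : (res h f).1 y = f.1 ⟨y.1, h y.2⟩ := (exists_res h).choose_spec.1 f y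
theorem res_d {n : ℕ} {V W : TopologicalSpace.Opens (Eu n)} (h : V ≤ W) (i : Fin n)
    (f : smooth W) : res h ((DSmooth W).d i f) = (DSmooth V).d i (res h f) :=
  (exists_res h).choose_spec.2 i f

theorem nonempty_LF (j : J2 M) : Nonempty (LF S j) := by
  obtain ⟨V, hV, fr, h1, h2, h3, h4, h5⟩ := exists_local_frame S j.1 j.2.1 j.2.2
  refine ⟨⟨V, hV, fr, h1, h2, h3, fun i k => ?_, fun i k l => ?_⟩⟩
  · apply Subtype.ext
    funext z
    rw [h4, res_apply]
  · apply Subtype.ext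
    funext z
    rw [h5, res_apply]

/-- the chosen neighbourhood -/
def lf (j : J2 M) : LF S j := (nonempty_LF S j).some

/-- families of functions on the small neighbourhoods -/
abbrev R2 := ∀ j : J2 M, smooth (lf S j).V
/-- its derivations -/
abbrev D2 : DS 7 (R2 S) := piDS fun j : J2 M => (lf S j).V

/-- restriction -/
def rr : R1 M →ₐ[ℂ] R2 S :=
  AlgHom.pi fun j => (res (lf S j).hV).comp (evC j.1)

theorem rr_apply (f : R1 M) (j : J2 M) : rr S f j = res (lf S j).hV (f j.1) := rfl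

theorem rr_inj : Function.Injective (rr S) := by
  rw [injective_iff_map_eq_zero]
  intro f hf
  funext e
  apply Subtype.ext
  funext y
  have h1 := congrFun hf ⟨e, y⟩
  rw [rr_apply] at h1
  have h2 := res_apply (lf S ⟨e, y⟩).hV (f e) ⟨y.1, (lf S ⟨e, y⟩).mem⟩
  rw [h1] at h2
  exact h2.symm

theorem rr_d (i : Fin 7) (f : R1 M) : rr S ((D1 M).d i f) = (D2 S).d i (rr S f) := by
  funext j
  rw [rr_apply, piDS_apply, piDS_apply, res_d]
  rfl

/-- the coframe matrix -/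
def e2 : Matrix (Fin 7) (Fin 7) (R2 S) := fun a i j => (lf S j).fr.e a i
/-- the frame matrix -/
def f2 : Matrix (Fin 7) (Fin 7) (R2 S) := fun i a j => (lf S j).fr.f i a

theorem mat_ext (A B : Matrix (Fin 7) (Fin 7) (R2 S))
    (h : ∀ j, (A.map fun f : R2 S => f j) = B.map fun f : R2 S => f j) : A = B :=
  Matrix.ext fun a b => funext fun j => congrFun (congrFun (h j) a) b

theorem e2_map (j : J2 M) : ((e2 S).map fun f : R2 S => f j) = (lf S j).fr.e := rfl
theorem f2_map (j : J2 M) : ((f2 S).map fun f : R2 S => f j) = (lf S j).fr.f := rfl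

theorem map_mul_j (A B : Matrix (Fin 7) (Fin 7) (R2 S)) (j : J2 M) :
    ((A * B).map fun f : R2 S => f j) = (A.map fun f : R2 S => f j) * B.map fun f : R2 S => f j :=
  (Matrix.map_mul (f := Pi.evalRingHom (fun j : J2 M => smooth (lf S j).V) j))

theorem map_one_j (j : J2 M) :
    ((1 : Matrix (Fin 7) (Fin 7) (R2 S)).map fun f : R2 S => f j) = 1 :=
  Matrix.map_one _ rfl rfl

/-- the global frame -/
def fr2 : Frame 7 (R2 S) where
  e := e2 S
  f := f2 S
  e_f := mat_ext S _ _ fun j => by rw [map_mul_j, map_one_j, e2_map, f2_map, (lf S j).fr.e_f]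
  f_e := mat_ext S _ _ fun j => by rw [map_mul_j, map_one_j, e2_map, f2_map, (lf S j).fr.f_e]

theorem fr2_g_apply (i k : Fin 7) (j : J2 M) : (fr2 S).g i k j = (lf S j).fr.g i k := by
  simp only [Frame.g, Matrix.mul_apply, Matrix.transpose_apply, Finset.sum_apply, Pi.mul_apply]
  rfl

theorem rr_g (i k : Fin 7) : rr S (g1 S i k) = (fr2 S).g i k := by
  funext j
  rw [fr2_g_apply, rr_apply, (lf S j).rg i k]
  rfl

theorem phc_apply (i k l : Fin 7) (j : J2 M) :
    CD.phc (fr2 S) phiC i k l j = CD.phc (lf S j).fr phiC i k l := by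
  simp only [CD.phc, Finset.sum_apply, Pi.smul_apply, Pi.mul_apply]
  rfl

theorem rr_p (i k l : Fin 7) : rr S (p1 S i k l) = CD.phc (fr2 S) phiC i k l := by
  funext j
  rw [phc_apply, rr_apply, (lf S j).rp i k l]
  rfl

theorem ne_of_res {n : ℕ} {V W : TopologicalSpace.Opens (Eu n)} (h : V ≤ W) (f : smooth W)
    (y : W) (hy : y.1 ∈ V) (hu : IsUnit (res h f)) : f.1 y ≠ 0 := by
  obtain ⟨w, hw⟩ := hu.exists_right_inv
  intro h0
  have h5 : (res h f).1 ⟨y.1, hy⟩ * w.1 ⟨y.1, hy⟩ = 1 :=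
    congrArg (fun f : smooth V => f.1 ⟨y.1, hy⟩) hw
  rw [res_apply] at h5
  have h6 : f.1 ⟨y.1, h hy⟩ = 0 := h0
  rw [h6, zero_mul] at h5
  exact zero_ne_one h5

/-- the metric is invertible -/
theorem det_unit (e : Ch M) : IsUnit (detR S e) := by
  apply isUnit_smooth
  intro y
  have h1 : (lf S ⟨e, y⟩).fr.g = (S.gR e).map (res (lf S ⟨e, y⟩).hV) := by
    refine Matrix.ext fun i k => ?_
    rw [(lf S ⟨e, y⟩).rg i k, Matrix.map_apply]
  have h2 : IsUnit ((lf S ⟨e, y⟩).fr.g.det) := by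
    have : (lf S ⟨e, y⟩).fr.g.det = (lf S ⟨e, y⟩).fr.e.det * (lf S ⟨e, y⟩).fr.e.det := by
      rw [Frame.g, Matrix.det_mul, Matrix.det_transpose]
    rw [this]
    have h3 : IsUnit (lf S ⟨e, y⟩).fr.e.det := by
      refine IsUnit.of_mul_eq_one (lf S ⟨e, y⟩).fr.f.det ?_
      rw [← Matrix.det_mul, (lf S ⟨e, y⟩).fr.e_f, Matrix.det_one]
    exact h3.mul h3
  have h4 : (lf S ⟨e, y⟩).fr.g.det = res (lf S ⟨e, y⟩).hV (detR S e) := by
    rw [h1]
    exact ((res (lf S ⟨e, y⟩).hV).map_det (S.gR e)).symm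
  rw [h4] at h2
  exact ne_of_res (lf S ⟨e, y⟩).hV (detR S e) y (lf S ⟨e, y⟩).mem h2

theorem gi1_g1 : gi1 S * g1 S = 1 := by
  have key : ∀ e : Ch M, (gi1 S * g1 S).map (evC e) = (1 : Matrix (Fin 7) (Fin 7) (CR e)) := by
    intro e
    have h2 : (gi1 S * g1 S).map (evC e) = (gi1 S).map (evC e) * (g1 S).map (evC e) :=
      Matrix.map_mul
    rw [h2, gi1_map, g1_map, giR_mul S e (det_unit S e)]
  refine Matrix.ext fun i k => funext fun e => ?_
  have h3 := congrFun (congrFun (key e) i) k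
  rw [Matrix.map_apply] at h3
  have h4 : evC e ((1 : Matrix (Fin 7) (Fin 7) (R1 M)) i k)
      = (1 : Matrix (Fin 7) (Fin 7) (CR e)) i k := by
    rw [Matrix.one_apply, Matrix.one_apply]
    split_ifs
    · exact map_one (evC e)
    · exact map_zero (evC e)
  rw [← h4] at h3
  exact h3

theorem fr_g_gi {A : Type*} [CommRing A] [Algebra ℂ A] (fr : Frame 7 A) : fr.g * fr.gi = 1 := by
  rw [Frame.g, Frame.gi, Matrix.mul_assoc, ← Matrix.mul_assoc fr.e, fr.e_f, Matrix.one_mul,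
    ← Matrix.transpose_mul, fr.f_e, Matrix.transpose_one]

theorem rr_gi : (gi1 S).map (rr S) = (fr2 S).gi := by
  have h1 : (gi1 S).map (rr S) * (fr2 S).g = 1 := by
    have : (fr2 S).g = (g1 S).map (rr S) := by
      ext1 i k
      exact (rr_g S i k).symm
    rw [this]
    have h2 : ((gi1 S) * (g1 S)).map (rr S) = (gi1 S).map (rr S) * (g1 S).map (rr S) :=
      Matrix.map_mul
    rw [← h2, gi1_g1, Matrix.map_one _ (map_zero (rr S)) (map_one (rr S))]
  calc (gi1 S).map (rr S) = (gi1 S).map (rr S) * ((fr2 S).g * (fr2 S).gi) := by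
        rw [fr_g_gi, Matrix.mul_one]
    _ = (fr2 S).gi := by rw [← Matrix.mul_assoc, h1, Matrix.one_mul]

theorem Γ1_eq (m l i : Fin 7) : Γ1 S m l i = ∑ r, gi1 S m r *
    ((1 / 2 : ℂ) • ((D1 M).d l (g1 S r i) + (D1 M).d i (g1 S r l) - (D1 M).d r (g1 S l i))) := by
  funext e
  rw [Γ1_apply, ΓR_eq, Finset.sum_apply]
  refine Finset.sum_congr rfl fun r _ => ?_
  rw [Pi.mul_apply, Pi.smul_apply, Pi.sub_apply, Pi.add_apply, piDS_apply, piDS_apply,
    piDS_apply, gi1_apply, g1_apply, g1_apply, g1_apply]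

theorem rr_Γ (m l i : Fin 7) : rr S (Γ1 S m l i) = CD.Gam (D2 S) (fr2 S) m l i := by
  rw [Γ1_eq, map_sum, CD.Gam]
  refine Finset.sum_congr rfl fun r _ => ?_
  rw [map_mul, map_smul, map_sub, map_add, rr_d, rr_d, rr_d, rr_g, rr_g, rr_g, ← rr_gi]
  rfl

theorem parallel1 (hS : S.TorsionFree) (l i j k : Fin 7) : (D1 M).d l (p1 S i j k) =
    ∑ m, (Γ1 S m l i * p1 S m j k + Γ1 S m l j * p1 S i m k + Γ1 S m l k * p1 S i j m) := by
  funext e
  rw [piDS_apply, Finset.sum_apply]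
  exact hS e l i j k

theorem parallel2 (hS : S.TorsionFree) (l i j k : Fin 7) :
    (D2 S).d l (CD.phc (fr2 S) phiC i j k) =
      ∑ m, (CD.Gam (D2 S) (fr2 S) m l i * CD.phc (fr2 S) phiC m j k
        + CD.Gam (D2 S) (fr2 S) m l j * CD.phc (fr2 S) phiC i m k
        + CD.Gam (D2 S) (fr2 S) m l k * CD.phc (fr2 S) phiC i j m) := by
  rw [← rr_p, ← rr_d, parallel1 S hS, map_sum]
  refine Finset.sum_congr rfl fun m _ => ?_
  simp only [map_add, map_mul, rr_Γ, rr_p]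

theorem stab2 (hS : S.TorsionFree) : CD.Stab (D2 S) (fr2 S) phiC :=
  stab_of_parallel (D2 S) (fr2 S) phiC (parallel2 S hS)

theorem contr2 (hS : S.TorsionFree) : CD.Contr (D2 S) (fr2 S) phiC :=
  contr_of_stab (D2 S) (fr2 S) (stab2 S hS)

/-- the positive cone -/
def C2 : PosR (R2 S) := (exists_piPos fun j : J2 M => (lf S j).V).choose
theorem C2_conj (f : R2 S) (j : J2 M) (y : (lf S j).V) :
    (((C2 S).conj f) j).1 y = star ((f j).1 y) :=
  (exists_piPos fun j : J2 M => (lf S j).V).choose_spec.1 f j y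
theorem C2_d (i : Fin 7) (f : R2 S) : (C2 S).conj ((D2 S).d i f) = (D2 S).d i ((C2 S).conj f) :=
  (exists_piPos fun j : J2 M => (lf S j).V).choose_spec.2 i f

theorem hyp2 (hS : S.TorsionFree) : MainHyp (C2 S) (D2 S) (fr2 S) phiC where
  conj_d := C2_d S
  conj_e a i := by
    funext j
    apply Subtype.ext
    funext y
    rw [C2_conj]
    exact (lf S j).re a i y
  conj_f i a := by
    funext j
    apply Subtype.ext
    funext y
    rw [C2_conj]
    exact (lf S j).rf i a y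
  anti := phiC_anti
  real := phiC_real
  stab := stab2 S hS
  contr := contr2 S hS
  norm := ⟨6, by norm_num, phiC_norm⟩

theorem tw_rr_formSt (s q : ℂ) :
    tw (rr S).toRingHom 1 1 (formSt (D1 M) s q (gi1 S) (Γ1 S) (p1 S))
      = formSt (D2 S) s q (fr2 S).gi (CD.Gam (D2 S) (fr2 S)) (CD.phc (fr2 S) phiC) := by
  rw [tw_formSt (D1 M) (D2 S) (rr S) (rr_d S), rr_gi]
  congr 1
  · funext a b c; exact rr_Γ S a b c
  · funext a b c; exact rr_p S a b c

theorem tw_rr_plus (hS : S.TorsionFree) :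
    tw (rr S).toRingHom 1 1 (stP S) = (cdE (D2 S)).Phi (fr2 S) phiC := by
  rw [stP, tw_rr_formSt, formSt_frame _ _ _ phiC_anti (contr2 S hS)]

theorem Phi_minus (hS : S.TorsionFree) :
    Xi ((cdE ((D2 S).scale (-Complex.I))).Phi (fr2 S) phiC) = Complex.I •
      formSt (D2 S) (-1) (-6) (fr2 S).gi (CD.Gam (D2 S) (fr2 S)) (CD.phc (fr2 S) phiC) := by
  rw [← Xi_formSt, ← formSt_frame _ _ _ phiC_anti (contr_scale _ _ _ (-Complex.I) (contr2 S hS))]
  have h1 : CD.Gam ((D2 S).scale (-Complex.I)) (fr2 S)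
      = fun m l i => (-Complex.I) • CD.Gam (D2 S) (fr2 S) m l i := by
    funext m l i
    exact Gam_scale _ _ _ _ _ _
  rw [h1]

theorem tw_rr_minus (hS : S.TorsionFree) :
    tw (rr S).toRingHom 1 1 (Complex.I • stM S)
      = Xi ((cdE ((D2 S).scale (-Complex.I))).Phi (fr2 S) phiC) := by
  rw [tw_smul' _ _ _ (fun z => (rr S).commutes z), stM, tw_rr_formSt, Phi_minus S hS]

theorem tw_rr_Y (a : EE 7 (R1 M)) (m : ℤ) (v : EE 7 (R1 M)) :
    tw (rr S).toRingHom 1 1 ((vsaE (D1 M)).Y a m v)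
      = (vsaE (D2 S)).Y (tw (rr S).toRingHom 1 1 a) m (tw (rr S).toRingHom 1 1 v) := by
  refine tw_Y (D1 M) (D2 S) (rr S).toRingHom 1 1 (fun i f => ?_) a m v
  rw [Units.val_one, one_smul]
  exact rr_d S i f

theorem tw_rr_inj : Function.Injective (tw (n := 7) (rr S).toRingHom 1 1) :=
  tw_inj _ _ _ (rr_inj S)

theorem tw_rr_vac : tw (rr S).toRingHom 1 1 (vacE 7 (R1 M)) = vacE 7 (R2 S) :=
  (tw_gens (D1 M) (D2 S) (rr S).toRingHom 1 1).2.2.2.2.2

/-- the word property for `V₊` -/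
theorem words_plus (hS : S.TorsionFree) (u : WA)
    (hu : rho (vsaE (D1 M)) (stP S)
      ((cdE (D1 M)).DD (stP S)) u (vsaE (D1 M)).vac ≠ 0) :
    ∃ u' : WA, rho (vsaE (D1 M)) (stP S)
      ((cdE (D1 M)).DD (stP S)) (u' * u) (vsaE (D1 M)).vac
        = (vsaE (D1 M)).vac := by
  have key : ∀ u : WA, tw (rr S).toRingHom 1 1
      (rho (vsaE (D1 M)) (stP S)
      ((cdE (D1 M)).DD (stP S)) u (vsaE (D1 M)).vac)
      = wst ((D2 S).scale 1) (fr2 S) phiC u := by
    intro u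
    rw [hom_rho (vsaE (D1 M)) (vsaE (D2 S)) _ (tw_smul' _ _ _ (fun z => (rr S).commutes z))
      (tw_rr_Y S), tw_DD (D1 M) (D2 S) _ (rr_d S), tw_rr_plus S hS, vsaE_vac, tw_rr_vac, scale_one]
    rfl
  have h1 : wst ((D2 S).scale 1) (fr2 S) phiC u ≠ 0 := by
    rw [← key]
    intro h
    exact hu (tw_rr_inj S (by rw [h, map_zero]))
  obtain ⟨u', hu'⟩ := main_thm (hyp2 S hS) u 1 h1
  refine ⟨u', tw_rr_inj S ?_⟩
  rw [key, hu' 1, vsaE_vac, tw_rr_vac]

/-- the word property for `V₋` -/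
theorem words_minus (hS : S.TorsionFree) (u : WA)
    (hu : rho (vsaE (D1 M)) (Complex.I • stM S)
      ((cdE (D1 M)).DD (Complex.I • stM S)) u
        (vsaE (D1 M)).vac ≠ 0) :
    ∃ u' : WA, rho (vsaE (D1 M)) (Complex.I • stM S)
      ((cdE (D1 M)).DD (Complex.I • stM S)) (u' * u)
        (vsaE (D1 M)).vac = (vsaE (D1 M)).vac := by
  have key : ∀ u : WA, tw (rr S).toRingHom 1 1
      (rho (vsaE (D1 M)) (Complex.I • stM S)
      ((cdE (D1 M)).DD (Complex.I • stM S)) u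
        (vsaE (D1 M)).vac)
      = Xi (wst ((D2 S).scale (-Complex.I)) (fr2 S) phiC u) := by
    intro u
    have hX : Xi (vacE 7 (R2 S)) = vacE 7 (R2 S) :=
      (tw_gens (D2 S) (D2 S) (RingHom.id (R2 S)) negI posI).2.2.2.2.2
    rw [hom_rho (vsaE (D1 M)) (vsaE (D2 S)) _ (tw_smul' _ _ _ (fun z => (rr S).commutes z))
      (tw_rr_Y S), tw_DD (D1 M) (D2 S) _ (rr_d S), tw_rr_minus S hS, vsaE_vac, tw_rr_vac, ← Xi_DD]
    rw [wst, hom_rho (vsaE ((D2 S).scale (-Complex.I))) (vsaE (D2 S)) Xi (Xi_smul)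
      (Xi_Y (D2 S)), hX]
    rfl
  have h1 : wst ((D2 S).scale (-Complex.I)) (fr2 S) phiC u ≠ 0 := by
    intro h
    apply hu
    apply tw_rr_inj S
    rw [key, h, map_zero, map_zero]
  obtain ⟨u', hu'⟩ := main_thm (hyp2 S hS) u (-Complex.I) h1
  refine ⟨u', tw_rr_inj S ?_⟩
  rw [key, hu' (-Complex.I), vsaE_vac, tw_rr_vac]
  exact (tw_gens (D2 S) (D2 S) (RingHom.id (R2 S)) negI posI).2.2.2.2.2

theorem vac_ne [Nonempty M] : (vsaE (D1 M)).vac ≠ 0 := by
  rw [vsaE_vac]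
  intro h
  obtain ⟨x⟩ := (inferInstance : Nonempty M)
  have h1 : (vacE 7 (R1 M)) (0, 0, ∅) = 0 := by rw [h]; rfl
  rw [vacE, Finsupp.single_eq_same] at h1
  have h2 := congrFun h1 ⟨chartAt (Eu 7) x, chart_mem_atlas (Eu 7) x⟩
  have h3 := congrArg (fun f : smooth (tgt (chartAt (Eu 7) x)) =>
    f.1 ⟨chartAt (Eu 7) x x, mem_chart_target (Eu 7) x⟩) h2
  exact one_ne_zero h3

theorem final_aux [Nonempty M] (st : EE 7 (R1 M)) (hst : (vsaE (D1 M)).Par 1 st) (c : ℂ)
    (hc : c ≠ 0) (P : ∀ e : Ch M, Fld (EE 7 (CR e))) (hP : FF M (c • st) = P)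
    (hw : ∀ u : WA, rho (vsaE (D1 M)) st ((cdE (D1 M)).DD st) u (vsaE (D1 M)).vac ≠ 0 →
      ∃ u' : WA, rho (vsaE (D1 M)) st ((cdE (D1 M)).DD st) (u' * u) (vsaE (D1 M)).vac
        = (vsaE (D1 M)).vac) :
    (chartAlg M).IsSimple ((chartAlg M).gen P) := by
  rw [← hP, map_smul, gen_smul _ _ _ hc]
  exact simple_of_words (vsaE (D1 M)) (cdE (D1 M)).DD (DD_ODer _) (DD_sq _) st hst
    (chartAlg M) (FF M) FF_inj FF_vac FF_prod FF_S vac_ne hw

theorem par_st (s q : ℂ) :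
    (vsaE (D1 M)).Par 1 (formSt (D1 M) s q (gi1 S) (Γ1 S) (p1 S)) := by
  have hE : ∀ i, (vsaE (D1 M)).Par 1 (Est (D1 M) s (gi1 S) i) := fun i =>
    VSA.Par.add (VSA.Par.sum _ fun j _ =>
      (((cdE (D1 M)).par_fn _).Y ((cdE (D1 M)).par_b j) (-1)).congr rfl)
      (((cdE (D1 M)).par_c i).smul s)
  refine VSA.Par.add (VSA.Par.sum _ fun i _ => VSA.Par.sum _ fun j _ => VSA.Par.sum _ fun k _ => ?_)
    ((VSA.Par.sum _ fun l _ => VSA.Par.sum _ fun k _ => ?_).smul q)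
  · exact (((cdE (D1 M)).par_fn _).Y ((hE i).Y ((hE j).Y (hE k) (-1)) (-1)) (-1)).congr rfl
  · exact (((cdE (D1 M)).par_fn _).Y (((cdE (D1 M)).par_x l).Y (hE k) (-1)) (-1)).congr rfl

end Z
end

theorem main_statement : MainStatement := by
  intro M _ _ _ _ S hS
  have h2 : (Real.sqrt 2 : ℂ) ≠ 0 := by
    rw [Ne, Complex.ofReal_eq_zero]
    positivity
  refine ⟨Z.final_aux (Z.stP S) (Z.par_st S 1 6) _ ?_ _ (Z.FF_plus S) (Z.words_plus S hS),
    Z.final_aux (Complex.I • Z.stM S) ((Z.par_st S (-1) (-6)).smul _)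
      ((1 / ((Real.sqrt 2 : ℂ) * Complex.I)) ^ 3 * Complex.I⁻¹) ?_ _ ?_ (Z.words_minus S hS)⟩
  · exact pow_ne_zero _ (one_div_ne_zero h2)
  · exact mul_ne_zero (pow_ne_zero _ (one_div_ne_zero (mul_ne_zero h2 Complex.I_ne_zero)))
      (inv_ne_zero Complex.I_ne_zero)
  · rw [smul_smul, mul_assoc, inv_mul_cancel₀ Complex.I_ne_zero, mul_one]
    exact Z.FF_minus S

end Pool.Agent.AA3
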