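import Pool.Agent.Lib.MP_aa3aaf_al.VCalc
import Pool.Agent.Lib.MP_aa3aaf_al.CFrame
import Pool.Agent.Lib.MP_aa3aaf_al.CZero
import Pool.Agent.Lib.MP_aa3aaf_al.FockFn
import Pool.Agent.Lib.MP_aa3aaf_al.FockVSA
import Pool.Agent.Lib.MP_aa3aaf_al.Diag

/-!
The flat model: all derivations are zero. Then the vertex superalgebra `E(R, 0)` is linear over
the ring `R` of coefficients, and the frame fields generate Clifford and Heisenberg algebras.
-/

set_option autoImplicit false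
open scoped BigOperators
noncomputable section
namespace Pool.Agent.AA3

/-- zero derivations -/
def DS.zero (n : ℕ) (R : Type*) [CommRing R] [Algebra ℂ R] : DS n R := ⟨fun _ => 0, fun _ _ _ => rfl⟩

namespace Flat
variable {n : ℕ} {R : Type*} [CommRing R] [Algebra ℂ R] (fr : Frame n R)

/-- the flat vertex superalgebra -/
abbrev V0 (n : ℕ) (R : Type*) [CommRing R] [Algebra ℂ R] : VSA (EE n R) := vsaE (DS.zero n R)
/-- its chiral data -/
abbrev G0 (n : ℕ) (R : Type*) [CommRing R] [Algebra ℂ R] : CD n (DS.zero n R) (V0 n R) :=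
  cdE (DS.zero n R)
/-- modes of `ψ^a` -/
def ψm (a : Fin n) (m : ℤ) : EE n R →ₗ[ℂ] EE n R := (V0 n R).Y ((G0 n R).ps fr a) m
/-- modes of `χ^a` -/
def χm (a : Fin n) (m : ℤ) : EE n R →ₗ[ℂ] EE n R := (V0 n R).Y ((G0 n R).ch fr a) m
/-- the state `A^a = D ψ^a` -/
def Ap (a : Fin n) : EE n R := (G0 n R).DD ((G0 n R).ps fr a)
/-- the state `D χ^a` -/
def Am (a : Fin n) : EE n R := (G0 n R).DD ((G0 n R).ch fr a)
/-- modes of `A^a` -/
def Apm (a : Fin n) (m : ℤ) : EE n R →ₗ[ℂ] EE n R := (V0 n R).Y (Ap fr a) m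
/-- modes of `D χ^a` -/
def Amm (a : Fin n) (m : ℤ) : EE n R →ₗ[ℂ] EE n R := (V0 n R).Y (Am fr a) m

/-! ### Task L1: relations -/
theorem Y_smul (r : R) (a v : EE n R) (m : ℤ) :
    (V0 n R).Y (r • a) m v = r • (V0 n R).Y a m v ∧ (V0 n R).Y a m (r • v) = r • (V0 n R).Y a m v :=
  Y_const_smul (DS.zero n R) r (fun _ => rfl) a v m

namespace FA

lemma fm_eq (f : R) (v : EE n R) : (G0 n R).fm f v = f • v := by
  have h := congrFun (Y_fn (DS.zero n R) f) (-1)
  have h2 := fnMo_const (DS.zero n R) f (fun _ => rfl) (-1) v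
  rw [if_pos rfl] at h2
  unfold CD.fm
  rw [h, h2]

lemma T_smulR (r : R) (v : EE n R) : (V0 n R).T (r • v) = r • (V0 n R).T v :=
  (Y_smul r v _ (-2)).1

lemma Q1_smulR (r : R) (v : EE n R) : (G0 n R).Q1 (r • v) = r • (G0 n R).Q1 v := by
  simp only [CD.Q1, LinearMap.sum_apply, VSA.zm, Finset.smul_sum]
  exact Finset.sum_congr rfl fun i _ => (Y_smul r _ v 0).2

lemma Q2_smulR (r : R) (v : EE n R) : (G0 n R).Q2 (r • v) = r • (G0 n R).Q2 v := by
  simp only [CD.Q2, LinearMap.sum_apply, VSA.zm, Finset.smul_sum]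
  exact Finset.sum_congr rfl fun i _ => (Y_smul r _ v 0).2

lemma nm_smulR (r : R) (v : EE n R) : (G0 n R).nm fr (r • v) = r • (G0 n R).nm fr v := by
  simp only [CD.nm, LinearMap.sum_apply, VSA.zm, Finset.smul_sum]
  exact Finset.sum_congr rfl fun i _ => (Y_smul r _ v 0).2

lemma npl_smulR (r : R) (v : EE n R) : (G0 n R).npl fr (r • v) = r • (G0 n R).npl fr v := by
  simp only [CD.npl, LinearMap.sum_apply, VSA.zm, Finset.smul_sum]
  exact Finset.sum_congr rfl fun i _ => (Y_smul r _ v 0).2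

/-- the state `∑ e^a_i x^i` -/
def Xs (a : Fin n) : EE n R := ∑ i, fr.e a i • (G0 n R).x i
/-- the state `∑ E_a^i β_i` -/
def Bs (a : Fin n) : EE n R := ∑ i, fr.f i a • (G0 n R).β i

lemma C_def (a : Fin n) : (G0 n R).C fr a = ∑ i, fr.e a i • (G0 n R).c i := by
  simp only [CD.C, fm_eq]

lemma B_def (a : Fin n) : (G0 n R).B fr a = ∑ i, fr.f i a • (G0 n R).b i := by
  simp only [CD.B, fm_eq]

lemma Q1_C (a : Fin n) : (G0 n R).Q1 ((G0 n R).C fr a) = 0 := by
  rw [C_def, map_sum]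
  exact Finset.sum_eq_zero fun i _ => by rw [Q1_smulR, CD.Q1_c, smul_zero]

lemma Q1_B (a : Fin n) : (G0 n R).Q1 ((G0 n R).B fr a) = Bs fr a := by
  rw [B_def, map_sum]
  exact Finset.sum_congr rfl fun i _ => by rw [Q1_smulR, CD.Q1_b]

lemma Q2_C (a : Fin n) : (G0 n R).Q2 ((G0 n R).C fr a) = Xs fr a := by
  rw [C_def, map_sum]
  exact Finset.sum_congr rfl fun i _ => by rw [Q2_smulR, CD.Q2_c]

lemma Q2_B (a : Fin n) : (G0 n R).Q2 ((G0 n R).B fr a) = 0 := by
  rw [B_def, map_sum]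
  exact Finset.sum_eq_zero fun i _ => by rw [Q2_smulR, CD.Q2_b, smul_zero]

lemma Q1_X (a : Fin n) : (G0 n R).Q1 (Xs fr a) = (V0 n R).T ((G0 n R).C fr a) := by
  rw [C_def, Xs, map_sum, map_sum]
  exact Finset.sum_congr rfl fun i _ => by rw [Q1_smulR, CD.Q1_x, T_smulR]

lemma Q1_Bs (a : Fin n) : (G0 n R).Q1 (Bs fr a) = 0 := by
  rw [Bs, map_sum]
  exact Finset.sum_eq_zero fun i _ => by rw [Q1_smulR, CD.Q1_β, smul_zero]

lemma Q2_X (a : Fin n) : (G0 n R).Q2 (Xs fr a) = 0 := by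
  rw [Xs, map_sum]
  exact Finset.sum_eq_zero fun i _ => by rw [Q2_smulR, CD.Q2_x, smul_zero]

lemma Q2_Bs (a : Fin n) : (G0 n R).Q2 (Bs fr a) = (V0 n R).T ((G0 n R).B fr a) := by
  rw [B_def, Bs, map_sum, map_sum]
  exact Finset.sum_congr rfl fun i _ => by rw [Q2_smulR, CD.Q2_β, T_smulR]

lemma Ap_eq (a : Fin n) : Ap fr a = Xs fr a + Bs fr a := by
  simp only [Ap, CD.DD, CD.ps, LinearMap.add_apply, map_add, Q1_C, Q1_B, Q2_C, Q2_B]
  abel

lemma Am_eq (a : Fin n) : Am fr a = Xs fr a - Bs fr a := by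
  simp only [Am, CD.DD, CD.ch, LinearMap.add_apply, map_sub, Q1_C, Q1_B, Q2_C, Q2_B]
  abel

/-- bilinearity of the products over `R` -/
lemma Y_sum_sum (α γ : Fin n → R) (u w : Fin n → EE n R) (k : ℤ) :
    (V0 n R).Y (∑ i, α i • u i) k (∑ j, γ j • w j)
      = ∑ i, ∑ j, (α i * γ j) • (V0 n R).Y (u i) k (w j) := by
  rw [map_sum (V0 n R).Y, Finset.sum_apply, LinearMap.sum_apply]
  refine Finset.sum_congr rfl fun i _ => ?_
  rw [map_sum]
  refine Finset.sum_congr rfl fun j _ => ?_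
  rw [(Y_smul (γ j) _ _ k).2, (Y_smul (α i) _ _ k).1, smul_smul, mul_comm]

lemma Y_sum (α : Fin n → R) (u : Fin n → EE n R) (k : ℤ) (v : EE n R) :
    (V0 n R).Y (∑ i, α i • u i) k v = ∑ i, α i • (V0 n R).Y (u i) k v := by
  rw [map_sum, Finset.sum_apply, LinearMap.sum_apply]
  exact Finset.sum_congr rfl fun i _ => (Y_smul (α i) _ _ k).1

omit [Algebra ℂ R] in
lemma sum_ef (a b : Fin n) : ∑ i, fr.e a i * fr.f i b = if a = b then 1 else 0 := by
  have h := congrFun (congrFun fr.e_f a) b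
  rw [Matrix.mul_apply, Matrix.one_apply] at h
  exact h

omit [Algebra ℂ R] in
lemma sum_fe (i j : Fin n) : ∑ a, fr.f i a * fr.e a j = if i = j then 1 else 0 := by
  have h := congrFun (congrFun fr.f_e i) j
  rw [Matrix.mul_apply, Matrix.one_apply] at h
  exact h

lemma vacR (z : ℂ) : (z • (V0 n R).vac : EE n R) = (algebraMap ℂ R z) • (V0 n R).vac := by
  rw [algebraMap_smul]

/-! operator products of the bosonic frame states -/

lemma X_X (a b : Fin n) (k : ℕ) : (V0 n R).Y (Xs fr a) k (Xs fr b) = 0 := by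
  rw [Xs, Xs, Y_sum_sum]
  exact Finset.sum_eq_zero fun i _ => Finset.sum_eq_zero fun j _ => by
    rw [(G0 n R).x_x, smul_zero]

lemma Bs_Bs (a b : Fin n) (k : ℕ) : (V0 n R).Y (Bs fr a) k (Bs fr b) = 0 := by
  rw [Bs, Bs, Y_sum_sum]
  exact Finset.sum_eq_zero fun i _ => Finset.sum_eq_zero fun j _ => by
    rw [(G0 n R).β_β, smul_zero]

lemma X_Bs (a b : Fin n) (k : ℕ) :
    (V0 n R).Y (Xs fr a) k (Bs fr b) = if k = 1 ∧ a = b then (V0 n R).vac else 0 := by
  rw [Xs, Bs, Y_sum_sum]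
  by_cases hk : k = 1
  · have h1 : ∀ i j : Fin n, (fr.e a i * fr.f j b) • (V0 n R).Y ((G0 n R).x i) k ((G0 n R).β j)
        = if i = j then (fr.e a i * fr.f j b) • (V0 n R).vac else 0 := by
      intro i j
      rw [(G0 n R).x_β]
      by_cases hij : i = j
      · rw [if_pos ⟨hk, hij⟩, if_pos hij]
      · rw [if_neg (fun h => hij h.2), if_neg hij, smul_zero]
    simp only [h1, Finset.sum_ite_eq, Finset.mem_univ, if_true]
    rw [← Finset.sum_smul, sum_ef]
    by_cases hab : a = b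
    · rw [if_pos hab, if_pos ⟨hk, hab⟩, one_smul]
    · rw [if_neg hab, if_neg (fun h => hab h.2), zero_smul]
  · rw [if_neg (fun h => hk h.1)]
    exact Finset.sum_eq_zero fun i _ => Finset.sum_eq_zero fun j _ => by
      rw [(G0 n R).x_β, if_neg (fun h => hk h.1), smul_zero]

lemma Bs_X (a b : Fin n) (k : ℕ) :
    (V0 n R).Y (Bs fr a) k (Xs fr b) = if k = 1 ∧ a = b then (V0 n R).vac else 0 := by
  rw [Xs, Bs, Y_sum_sum]
  by_cases hk : k = 1
  · have h1 : ∀ i j : Fin n, (fr.f i a * fr.e b j) • (V0 n R).Y ((G0 n R).β i) k ((G0 n R).x j)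
        = if i = j then (fr.e b j * fr.f i a) • (V0 n R).vac else 0 := by
      intro i j
      rw [(G0 n R).β_x]
      by_cases hij : i = j
      · rw [if_pos ⟨hk, hij⟩, if_pos hij, mul_comm]
      · rw [if_neg (fun h => hij h.2), if_neg hij, smul_zero]
    simp only [h1, Finset.sum_ite_eq, Finset.mem_univ, if_true]
    rw [← Finset.sum_smul, sum_ef]
    by_cases hab : b = a
    · rw [if_pos hab, if_pos ⟨hk, hab.symm⟩, one_smul]
    · rw [if_neg hab, if_neg (fun h => hab h.2.symm), zero_smul]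
  · rw [if_neg (fun h => hk h.1)]
    exact Finset.sum_eq_zero fun i _ => Finset.sum_eq_zero fun j _ => by
      rw [(G0 n R).β_x, if_neg (fun h => hk h.1), smul_zero]

lemma X_C (a b : Fin n) (k : ℕ) : (V0 n R).Y (Xs fr a) k ((G0 n R).C fr b) = 0 := by
  rw [Xs, C_def, Y_sum_sum]
  exact Finset.sum_eq_zero fun i _ => Finset.sum_eq_zero fun j _ => by
    rw [(G0 n R).x_c, smul_zero]

lemma X_B (a b : Fin n) (k : ℕ) : (V0 n R).Y (Xs fr a) k ((G0 n R).B fr b) = 0 := by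
  rw [Xs, B_def, Y_sum_sum]
  exact Finset.sum_eq_zero fun i _ => Finset.sum_eq_zero fun j _ => by
    rw [(G0 n R).x_b, smul_zero]

lemma Bs_C (a b : Fin n) (k : ℕ) : (V0 n R).Y (Bs fr a) k ((G0 n R).C fr b) = 0 := by
  rw [Bs, C_def, Y_sum_sum]
  exact Finset.sum_eq_zero fun i _ => Finset.sum_eq_zero fun j _ => by
    rw [(G0 n R).β_c, smul_zero]

lemma Bs_B (a b : Fin n) (k : ℕ) : (V0 n R).Y (Bs fr a) k ((G0 n R).B fr b) = 0 := by
  rw [Bs, B_def, Y_sum_sum]
  exact Finset.sum_eq_zero fun i _ => Finset.sum_eq_zero fun j _ => by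
    rw [(G0 n R).β_b, smul_zero]

lemma sg_smulR (r : R) (v : EE n R) : (V0 n R).sg (r • v) = r • (V0 n R).sg v := by
  rw [vsaE_sg, vsaE_sg, map_smul]

lemma par_X (a : Fin n) : (V0 n R).Par 0 (Xs fr a) := by
  unfold VSA.Par Xs
  rw [map_sum, Finset.smul_sum]
  refine Finset.sum_congr rfl fun i _ => ?_
  have h := (G0 n R).par_x i
  unfold VSA.Par at h
  rw [sg_smulR, h, pow_zero, one_smul, one_smul]

lemma par_Bs (a : Fin n) : (V0 n R).Par 0 (Bs fr a) := by
  unfold VSA.Par Bs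
  rw [map_sum, Finset.smul_sum]
  refine Finset.sum_congr rfl fun i _ => ?_
  have h := (G0 n R).par_β i
  unfold VSA.Par at h
  rw [sg_smulR, h, pow_zero, one_smul, one_smul]

lemma Y_add_left (a b v : EE n R) (k : ℤ) :
    (V0 n R).Y (a + b) k v = (V0 n R).Y a k v + (V0 n R).Y b k v := by
  rw [map_add]; rfl

lemma Y_sub_left (a b v : EE n R) (k : ℤ) :
    (V0 n R).Y (a - b) k v = (V0 n R).Y a k v - (V0 n R).Y b k v := by
  rw [map_sub]; rfl

lemma Ap_Ap (a b : Fin n) (k : ℕ) :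
    (V0 n R).Y (Ap fr a) k (Ap fr b) = if k = 1 ∧ a = b then (2 : ℂ) • (V0 n R).vac else 0 := by
  rw [Ap_eq, Ap_eq, Y_add_left, map_add, map_add, X_X, X_Bs, Bs_X, Bs_Bs]
  split_ifs
  · rw [zero_add, add_zero, two_smul]
  · simp

lemma Am_Am (a b : Fin n) (k : ℕ) :
    (V0 n R).Y (Am fr a) k (Am fr b) = if k = 1 ∧ a = b then (-2 : ℂ) • (V0 n R).vac else 0 := by
  rw [Am_eq, Am_eq, Y_sub_left, map_sub, map_sub, X_X, X_Bs, Bs_X, Bs_Bs]
  split_ifs
  · rw [neg_smul, two_smul]; abel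
  · simp

lemma Ap_Am (a b : Fin n) (k : ℕ) : (V0 n R).Y (Ap fr a) k (Am fr b) = 0 := by
  rw [Ap_eq, Am_eq, Y_add_left, map_sub, map_sub, X_X, X_Bs, Bs_X, Bs_Bs]
  abel

lemma Ap_ps (a b : Fin n) (k : ℕ) : (V0 n R).Y (Ap fr a) k ((G0 n R).ps fr b) = 0 := by
  rw [Ap_eq, CD.ps, Y_add_left, map_add, map_add, X_C, X_B, Bs_C, Bs_B]
  simp

lemma Ap_ch (a b : Fin n) (k : ℕ) : (V0 n R).Y (Ap fr a) k ((G0 n R).ch fr b) = 0 := by
  rw [Ap_eq, CD.ch, Y_add_left, map_sub, map_sub, X_C, X_B, Bs_C, Bs_B]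
  simp

lemma Am_ps (a b : Fin n) (k : ℕ) : (V0 n R).Y (Am fr a) k ((G0 n R).ps fr b) = 0 := by
  rw [Am_eq, CD.ps, Y_sub_left, map_add, map_add, X_C, X_B, Bs_C, Bs_B]
  simp

lemma Am_ch (a b : Fin n) (k : ℕ) : (V0 n R).Y (Am fr a) k ((G0 n R).ch fr b) = 0 := by
  rw [Am_eq, CD.ch, Y_sub_left, map_sub, map_sub, X_C, X_B, Bs_C, Bs_B]
  simp

end FA

open FA

theorem ψψ (a b : Fin n) (m k : ℤ) (v : EE n R) :
    ψm fr a m (ψm fr b k v) + ψm fr b k (ψm fr a m v)
      = if a = b ∧ m + k = -1 then (2 : ℂ) • v else 0 := by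
  have h := VSA.comm_of_pole (V0 n R) ((G0 n R).odd_ps fr a).par ((G0 n R).odd_ps fr b).par
    (if a = b then 2 else 0) (by
      have := (G0 n R).ps_ps fr a b 0
      rw [Nat.cast_zero] at this
      rw [this]
      by_cases hab : a = b
      · rw [if_pos ⟨rfl, hab⟩, if_pos hab]
      · rw [if_neg (fun h => hab h.2), if_neg hab, zero_smul])
    (fun j => by rw [(G0 n R).ps_ps fr a b (j + 1), if_neg (fun h => Nat.succ_ne_zero j h.1)])
    m k v
  have h1 : ψm fr a m (ψm fr b k v) + ψm fr b k (ψm fr a m v)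
      = (V0 n R).Y ((G0 n R).ps fr a) m ((V0 n R).Y ((G0 n R).ps fr b) k v)
        - (-1 : ℂ) ^ (1 * 1) • (V0 n R).Y ((G0 n R).ps fr b) k
            ((V0 n R).Y ((G0 n R).ps fr a) m v) := by
    simp [ψm]
  rw [h1, h]
  by_cases hab : a = b
  · by_cases hmk : m + k = -1
    · rw [if_pos hmk, if_pos hab, if_pos ⟨hab, hmk⟩]
    · rw [if_neg hmk, if_neg (fun h => hmk h.2)]
  · rw [if_neg hab, zero_smul, ite_self, if_neg (fun h => hab h.1)]

theorem χχ (a b : Fin n) (m k : ℤ) (v : EE n R) :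
    χm fr a m (χm fr b k v) + χm fr b k (χm fr a m v)
      = if a = b ∧ m + k = -1 then (-2 : ℂ) • v else 0 := by
  have h := VSA.comm_of_pole (V0 n R) ((G0 n R).odd_ch fr a).par ((G0 n R).odd_ch fr b).par
    (if a = b then -2 else 0) (by
      have := (G0 n R).ch_ch fr a b 0
      rw [Nat.cast_zero] at this
      rw [this]
      by_cases hab : a = b
      · rw [if_pos ⟨rfl, hab⟩, if_pos hab]
      · rw [if_neg (fun h => hab h.2), if_neg hab, zero_smul])
    (fun j => by rw [(G0 n R).ch_ch fr a b (j + 1), if_neg (fun h => Nat.succ_ne_zero j h.1)])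
    m k v
  have h1 : χm fr a m (χm fr b k v) + χm fr b k (χm fr a m v)
      = (V0 n R).Y ((G0 n R).ch fr a) m ((V0 n R).Y ((G0 n R).ch fr b) k v)
        - (-1 : ℂ) ^ (1 * 1) • (V0 n R).Y ((G0 n R).ch fr b) k
            ((V0 n R).Y ((G0 n R).ch fr a) m v) := by
    simp [χm]
  rw [h1, h]
  by_cases hab : a = b
  · by_cases hmk : m + k = -1
    · rw [if_pos hmk, if_pos hab, if_pos ⟨hab, hmk⟩]
    · rw [if_neg hmk, if_neg (fun h => hmk h.2)]
  · rw [if_neg hab, zero_smul, ite_self, if_neg (fun h => hab h.1)]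

theorem ψχ (a b : Fin n) (m k : ℤ) (v : EE n R) :
    ψm fr a m (χm fr b k v) + χm fr b k (ψm fr a m v) = 0 := by
  have h := VSA.comm_of_regular (V0 n R) ((G0 n R).odd_ps fr a).par ((G0 n R).odd_ch fr b).par
    (fun j => (G0 n R).ps_ch fr a b j) m k v
  unfold ψm χm
  rw [h]
  simp

theorem par_Ap (a : Fin n) : (V0 n R).Par 0 (Ap fr a) := by
  rw [Ap_eq]; exact VSA.Par.add (par_X fr a) (par_Bs fr a)

theorem par_Am (a : Fin n) : (V0 n R).Par 0 (Am fr a) := by
  rw [Am_eq, sub_eq_add_neg, ← neg_one_smul ℂ]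
  exact VSA.Par.add (par_X fr a) (VSA.Par.smul _ (par_Bs fr a))

theorem AA (a b : Fin n) (m k : ℤ) (v : EE n R) :
    Apm fr a m (Apm fr b k v) - Apm fr b k (Apm fr a m v)
      = if a = b ∧ m + k = 0 then (2 * m : ℂ) • v else 0 := by
  have h := VSA.comm_of_pole2 (V0 n R) (par_Ap fr a) (par_Ap fr b)
    (if a = b then 2 else 0) (by
      have := Ap_Ap fr a b 0
      rw [Nat.cast_zero] at this
      rw [this, if_neg (fun h => zero_ne_one h.1)]) (by
      have := Ap_Ap fr a b 1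
      rw [Nat.cast_one] at this
      rw [this]
      by_cases hab : a = b
      · rw [if_pos ⟨rfl, hab⟩, if_pos hab]
      · rw [if_neg (fun h => hab h.2), if_neg hab, zero_smul])
    (fun j => by rw [Ap_Ap fr a b (j + 2), if_neg (fun h => by have := h.1; omega)])
    m k v
  have h1 : Apm fr a m (Apm fr b k v) - Apm fr b k (Apm fr a m v)
      = (V0 n R).Y (Ap fr a) m ((V0 n R).Y (Ap fr b) k v)
        - (-1 : ℂ) ^ (0 * 0) • (V0 n R).Y (Ap fr b) k ((V0 n R).Y (Ap fr a) m v) := by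
    simp [Apm]
  rw [h1, h]
  by_cases hab : a = b
  · by_cases hmk : m + k = 0
    · rw [if_pos hmk, if_pos hab, if_pos ⟨hab, hmk⟩, mul_comm]
    · rw [if_neg hmk, if_neg (fun h => hmk h.2)]
  · rw [if_neg hab, mul_zero, zero_smul, ite_self, if_neg (fun h => hab h.1)]

theorem MM (a b : Fin n) (m k : ℤ) (v : EE n R) :
    Amm fr a m (Amm fr b k v) - Amm fr b k (Amm fr a m v)
      = if a = b ∧ m + k = 0 then (-(2 * m) : ℂ) • v else 0 := by
  have h := VSA.comm_of_pole2 (V0 n R) (par_Am fr a) (par_Am fr b)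
    (if a = b then -2 else 0) (by
      have := Am_Am fr a b 0
      rw [Nat.cast_zero] at this
      rw [this, if_neg (fun h => zero_ne_one h.1)]) (by
      have := Am_Am fr a b 1
      rw [Nat.cast_one] at this
      rw [this]
      by_cases hab : a = b
      · rw [if_pos ⟨rfl, hab⟩, if_pos hab]
      · rw [if_neg (fun h => hab h.2), if_neg hab, zero_smul])
    (fun j => by rw [Am_Am fr a b (j + 2), if_neg (fun h => by have := h.1; omega)])
    m k v
  have h1 : Amm fr a m (Amm fr b k v) - Amm fr b k (Amm fr a m v)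
      = (V0 n R).Y (Am fr a) m ((V0 n R).Y (Am fr b) k v)
        - (-1 : ℂ) ^ (0 * 0) • (V0 n R).Y (Am fr b) k ((V0 n R).Y (Am fr a) m v) := by
    simp [Amm]
  rw [h1, h]
  by_cases hab : a = b
  · by_cases hmk : m + k = 0
    · rw [if_pos hmk, if_pos hab, if_pos ⟨hab, hmk⟩]
      congr 1
      ring
    · rw [if_neg hmk, if_neg (fun h => hmk h.2)]
  · rw [if_neg hab, mul_zero, zero_smul, ite_self, if_neg (fun h => hab h.1)]

theorem AM (a b : Fin n) (m k : ℤ) (v : EE n R) :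
    Apm fr a m (Amm fr b k v) = Amm fr b k (Apm fr a m v) := by
  have h := VSA.comm_of_regular (V0 n R) (par_Ap fr a) (par_Am fr b)
    (fun j => Ap_Am fr a b j) m k v
  unfold Apm Amm
  rw [h, mul_zero, pow_zero, one_smul]

theorem Aψ (a b : Fin n) (m k : ℤ) (v : EE n R) :
    Apm fr a m (ψm fr b k v) = ψm fr b k (Apm fr a m v) := by
  have h := VSA.comm_of_regular (V0 n R) (par_Ap fr a) ((G0 n R).odd_ps fr b).par
    (fun j => Ap_ps fr a b j) m k v
  unfold Apm ψm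
  rw [h, zero_mul, pow_zero, one_smul]

theorem Aχ (a b : Fin n) (m k : ℤ) (v : EE n R) :
    Apm fr a m (χm fr b k v) = χm fr b k (Apm fr a m v) := by
  have h := VSA.comm_of_regular (V0 n R) (par_Ap fr a) ((G0 n R).odd_ch fr b).par
    (fun j => Ap_ch fr a b j) m k v
  unfold Apm χm
  rw [h, zero_mul, pow_zero, one_smul]

theorem Mψ (a b : Fin n) (m k : ℤ) (v : EE n R) :
    Amm fr a m (ψm fr b k v) = ψm fr b k (Amm fr a m v) := by
  have h := VSA.comm_of_regular (V0 n R) (par_Am fr a) ((G0 n R).odd_ps fr b).par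
    (fun j => Am_ps fr a b j) m k v
  unfold Amm ψm
  rw [h, zero_mul, pow_zero, one_smul]

theorem Mχ (a b : Fin n) (m k : ℤ) (v : EE n R) :
    Amm fr a m (χm fr b k v) = χm fr b k (Amm fr a m v) := by
  have h := VSA.comm_of_regular (V0 n R) (par_Am fr a) ((G0 n R).odd_ch fr b).par
    (fun j => Am_ch fr a b j) m k v
  unfold Amm χm
  rw [h, zero_mul, pow_zero, one_smul]

namespace FA

/-- modes of `X^a` -/
def Xm (a : Fin n) (m : ℤ) (v : EE n R) : EE n R := ∑ i, fr.e a i • xMo n R i m v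
/-- modes of `B_a` (bosonic) -/
def Bm (a : Fin n) (m : ℤ) (v : EE n R) : EE n R := ∑ i, fr.f i a • βMo (DS.zero n R) i m v
/-- modes of `C^a` -/
def Cm (a : Fin n) (m : ℤ) (v : EE n R) : EE n R := ∑ i, fr.e a i • fMo n R false i m v
/-- modes of `B_a` (fermionic) -/
def Dm (a : Fin n) (m : ℤ) (v : EE n R) : EE n R := ∑ i, fr.f i a • fMo n R true i m v

lemma Y_Xs (a : Fin n) (m : ℤ) (v : EE n R) : (V0 n R).Y (Xs fr a) m v = Xm fr a m v := by
  rw [Xs, Y_sum]
  exact Finset.sum_congr rfl fun i _ => by rw [Y_x]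

lemma Y_Bs (a : Fin n) (m : ℤ) (v : EE n R) : (V0 n R).Y (Bs fr a) m v = Bm fr a m v := by
  rw [Bs, Y_sum]
  exact Finset.sum_congr rfl fun i _ => by rw [Y_β]

lemma Y_C (a : Fin n) (m : ℤ) (v : EE n R) :
    (V0 n R).Y ((G0 n R).C fr a) m v = Cm fr a m v := by
  rw [C_def, Y_sum]
  exact Finset.sum_congr rfl fun i _ => by rw [Y_c]

lemma Y_B (a : Fin n) (m : ℤ) (v : EE n R) :
    (V0 n R).Y ((G0 n R).B fr a) m v = Dm fr a m v := by
  rw [B_def, Y_sum]
  exact Finset.sum_congr rfl fun i _ => by rw [Y_b]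

lemma Apm_eq (a : Fin n) (m : ℤ) (v : EE n R) : Apm fr a m v = Xm fr a m v + Bm fr a m v := by
  rw [Apm, Ap_eq, Y_add_left, Y_Xs, Y_Bs]

lemma Amm_eq (a : Fin n) (m : ℤ) (v : EE n R) : Amm fr a m v = Xm fr a m v - Bm fr a m v := by
  rw [Amm, Am_eq, Y_sub_left, Y_Xs, Y_Bs]

lemma ψm_eq (a : Fin n) (m : ℤ) (v : EE n R) : ψm fr a m v = Cm fr a m v + Dm fr a m v := by
  rw [ψm, CD.ps, Y_add_left, Y_C, Y_B]

lemma χm_eq (a : Fin n) (m : ℤ) (v : EE n R) : χm fr a m v = Cm fr a m v - Dm fr a m v := by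
  rw [χm, CD.ch, Y_sub_left, Y_C, Y_B]

lemma Xm_zero (a : Fin n) (v : EE n R) : Xm fr a 0 v = 0 :=
  Finset.sum_eq_zero fun i _ => by simp [xMo]

lemma Bm_zero (a : Fin n) (v : EE n R) : Bm fr a 0 v = 0 :=
  Finset.sum_eq_zero fun i _ => by
    have : dA (DS.zero n R) i v = 0 := by
      unfold dA
      ext w
      simp [DS.zero]
    simp [βMo, this]

lemma vc_X (a : Fin n) (k : ℕ) (v : EE n R) : vc n R (Xm fr a (-(k : ℤ) - 1) v) = 0 := by
  rw [Xm, map_sum]
  exact Finset.sum_eq_zero fun i _ => by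
    rw [map_smul, (vc_creation (DS.zero n R) i k v).1, smul_zero]

lemma vc_Bm (a : Fin n) (k : ℕ) (v : EE n R) : vc n R (Bm fr a (-(k : ℤ) - 1) v) = 0 := by
  rw [Bm, map_sum]
  exact Finset.sum_eq_zero fun i _ => by
    rw [map_smul, (vc_creation (DS.zero n R) i k v).2.1, smul_zero]

lemma vc_Cm (a : Fin n) (k : ℕ) (v : EE n R) : vc n R (Cm fr a (-(k : ℤ) - 1) v) = 0 := by
  rw [Cm, map_sum]
  exact Finset.sum_eq_zero fun i _ => by
    rw [map_smul, (vc_creation (DS.zero n R) i k v).2.2 false, smul_zero]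

lemma vc_Dm (a : Fin n) (k : ℕ) (v : EE n R) : vc n R (Dm fr a (-(k : ℤ) - 1) v) = 0 := by
  rw [Dm, map_sum]
  exact Finset.sum_eq_zero fun i _ => by
    rw [map_smul, (vc_creation (DS.zero n R) i k v).2.2 true, smul_zero]

end FA

theorem Apm_zero (a : Fin n) (v : EE n R) : Apm fr a 0 v = 0 := by
  rw [Apm_eq, Xm_zero, Bm_zero, add_zero]

theorem Amm_zero (a : Fin n) (v : EE n R) : Amm fr a 0 v = 0 := by
  rw [Amm_eq, Xm_zero, Bm_zero, sub_zero]

theorem DD_Ap (a : Fin n) : (G0 n R).DD (Ap fr a) = (V0 n R).T ((G0 n R).ps fr a) := by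
  rw [Ap_eq, CD.DD, CD.ps, LinearMap.add_apply, map_add, map_add, map_add, Q1_X, Q1_Bs, Q2_X,
    Q2_Bs]
  abel

theorem vc_neg (a : Fin n) (k : ℕ) (v : EE n R) :
    vc n R (ψm fr a (-(k : ℤ) - 1) v) = 0 ∧ vc n R (χm fr a (-(k : ℤ) - 1) v) = 0 ∧
    vc n R (Apm fr a (-(k : ℤ) - 1) v) = 0 ∧ vc n R (Amm fr a (-(k : ℤ) - 1) v) = 0 := by
  rw [ψm_eq, χm_eq, Apm_eq, Amm_eq, map_add, map_sub, map_add, map_sub, vc_Cm, vc_Dm, vc_X, vc_Bm]
  simp

namespace FA

lemma am_zero (j : Fin n) : (G0 n R).am fr j = 0 := by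
  unfold CD.am
  have : fr.g.map ((DS.zero n R).d j) = 0 := by
    ext i k
    simp [DS.zero]
  rw [this, mul_zero]

lemma hh_zero (j l : Fin n) : (G0 n R).hh fr j l = 0 := by
  unfold CD.hh
  rw [am_zero, zero_mul, Matrix.trace_zero, smul_zero]

lemma bh_eq (j : Fin n) : (G0 n R).bh fr j = (G0 n R).β j := by
  unfold CD.bh
  simp only [fm_eq, am_zero, hh_zero, Matrix.zero_apply, zero_smul, Finset.sum_const_zero,
    sub_zero, add_zero]

lemma nm_C (a : Fin n) : (G0 n R).nm fr ((G0 n R).C fr a) = Bs fr a := by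
  rw [CD.C_eq, map_sum]
  refine Finset.sum_congr rfl fun i _ => ?_
  rw [fm_eq, nm_smulR, CD.nm_cd, bh_eq]

lemma nm_B (a : Fin n) : (G0 n R).nm fr ((G0 n R).B fr a) = 0 := by
  rw [CD.B_eq, map_sum]
  refine Finset.sum_eq_zero fun i _ => ?_
  rw [fm_eq, nm_smulR, CD.nm_bu, smul_zero]

lemma npl_C (a : Fin n) : (G0 n R).npl fr ((G0 n R).C fr a) = 0 := by
  rw [CD.C_eq, map_sum]
  refine Finset.sum_eq_zero fun i _ => ?_
  rw [fm_eq, npl_smulR, CD.npl_cd, smul_zero]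

lemma npl_B (a : Fin n) : (G0 n R).npl fr ((G0 n R).B fr a) = Xs fr a := by
  rw [CD.B_eq, map_sum]
  refine Finset.sum_congr rfl fun i _ => ?_
  rw [fm_eq, npl_smulR, CD.npl_bu]

lemma nm_X (a : Fin n) : (G0 n R).nm fr (Xs fr a) = (V0 n R).T ((G0 n R).B fr a) := by
  rw [CD.B_eq, Xs, map_sum, map_sum]
  refine Finset.sum_congr rfl fun i _ => ?_
  rw [fm_eq, nm_smulR, CD.nm_x, T_smulR]

lemma nm_Bs (a : Fin n) : (G0 n R).nm fr (Bs fr a) = 0 := by
  rw [Bs, map_sum]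
  refine Finset.sum_eq_zero fun i _ => ?_
  rw [nm_smulR, ← bh_eq fr i, CD.nm_bh, smul_zero]

lemma npl_X (a : Fin n) : (G0 n R).npl fr (Xs fr a) = 0 := by
  rw [Xs, map_sum]
  refine Finset.sum_eq_zero fun i _ => ?_
  rw [npl_smulR, CD.npl_x, smul_zero]

lemma cd_β (i j : Fin n) (k : ℕ) : (V0 n R).Y ((G0 n R).cd fr i) k ((G0 n R).β j) = 0 := by
  have h : ∀ l : Fin n, (V0 n R).Y ((G0 n R).c l) k ((G0 n R).β j) = 0 := by
    intro l
    have h1 := VSA.comm_of_regular (V0 n R) ((G0 n R).par_β j) ((G0 n R).par_c l)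
      (fun m => (G0 n R).β_c m j l) (-1) k (V0 n R).vac
    rw [(V0 n R).create, zero_mul, pow_zero, one_smul, (V0 n R).create', map_zero] at h1
    exact h1.symm
  unfold CD.cd
  simp only [fm_eq]
  rw [Y_sum]
  exact Finset.sum_eq_zero fun l _ => by rw [h, smul_zero]

lemma npl_β (j : Fin n) :
    (G0 n R).npl fr ((G0 n R).β j) = (V0 n R).T ((G0 n R).cd fr j) := by
  unfold CD.npl
  rw [LinearMap.sum_apply]
  have h : ∀ i : Fin n, (V0 n R).zm ((V0 n R).mul ((G0 n R).cd fr i) ((G0 n R).x i)) ((G0 n R).β j)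
      = if i = j then (V0 n R).T ((G0 n R).cd fr j) else 0 := by
    intro i
    unfold VSA.zm
    rw [VSA.Y_mul (V0 n R) ((G0 n R).odd_cd fr i).par ((G0 n R).par_x i) 0 ((G0 n R).β j) 2
      (fun l hl => ⟨by
        rw [zero_add, (G0 n R).x_β, if_neg (fun h => by have := h.1; omega)], cd_β fr i j l⟩)]
    rw [Finset.sum_range_succ, Finset.sum_range_one]
    simp only [cd_β, map_zero, smul_zero, add_zero, zero_add]
    rw [(G0 n R).x_β, (G0 n R).x_β, if_neg (fun h => zero_ne_one h.1), map_zero, zero_add]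
    by_cases hij : i = j
    · rw [if_pos ⟨rfl, hij⟩, if_pos hij, hij]
      rfl
    · rw [if_neg (fun h => hij h.2), if_neg hij, map_zero]
  simp only [h, Finset.sum_ite_eq', Finset.mem_univ, if_true]

lemma npl_Bs (a : Fin n) : (G0 n R).npl fr (Bs fr a) = (V0 n R).T ((G0 n R).C fr a) := by
  rw [CD.C_eq, Bs, map_sum, map_sum]
  refine Finset.sum_congr rfl fun i _ => ?_
  rw [fm_eq, npl_smulR, npl_β, T_smulR]

lemma half_smul (v : EE n R) : (1 / 2 : ℂ) • (v + v) = v := by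
  rw [← two_smul ℂ v, smul_smul]
  norm_num

end FA

theorem Do_ch (a : Fin n) : (G0 n R).Do fr ((G0 n R).ch fr a) = Am fr a := by
  rw [CD.Do, CD.ch, Am_eq, LinearMap.smul_apply, LinearMap.add_apply, LinearMap.sub_apply,
    LinearMap.sub_apply, map_sub, map_sub, map_sub, map_sub, Q1_C, Q1_B, Q2_C, Q2_B, nm_C, nm_B,
    npl_C, npl_B]
  rw [show (0 - Bs fr a - (Bs fr a - 0) + (Xs fr a - 0 - (0 - Xs fr a)) : EE n R)
    = (Xs fr a - Bs fr a) + (Xs fr a - Bs fr a) by abel, half_smul]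

theorem Do_Am (a : Fin n) : (G0 n R).Do fr (Am fr a) = (V0 n R).T ((G0 n R).ch fr a) := by
  rw [CD.Do, CD.ch, Am_eq, LinearMap.smul_apply, LinearMap.add_apply, LinearMap.sub_apply,
    LinearMap.sub_apply, map_sub, map_sub, map_sub, map_sub, map_sub, Q1_X, Q1_Bs, Q2_X, Q2_Bs,
    nm_X, nm_Bs, npl_X, npl_Bs]
  rw [show ((V0 n R).T ((G0 n R).C fr a) - 0 - ((V0 n R).T ((G0 n R).B fr a) - 0)
      + (0 - (V0 n R).T ((G0 n R).B fr a) - (0 - (V0 n R).T ((G0 n R).C fr a))) : EE n R)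
    = ((V0 n R).T ((G0 n R).C fr a) - (V0 n R).T ((G0 n R).B fr a))
      + ((V0 n R).T ((G0 n R).C fr a) - (V0 n R).T ((G0 n R).B fr a)) by abel, half_smul]

namespace FA

lemma HE_smulR (r : R) (v : EE n R) : HE n R (r • v) = r • HE n R v := by
  unfold HE dg
  induction v using Finsupp.induction_linear with
  | zero => simp
  | add f g hf hg => rw [smul_add, map_add, hf, hg, map_add, smul_add]
  | single w c =>
    rw [Finsupp.smul_single, Finsupp.lsum_single, Finsupp.lsum_single, LinearMap.comp_apply,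
      LinearMap.comp_apply, Finsupp.lsingle_apply, Finsupp.lsingle_apply, Finsupp.smul_single,
      LinearMap.add_apply, LinearMap.add_apply, LinearMap.zero_apply, LinearMap.zero_apply,
      zero_add, zero_add, LinearMap.smul_apply, LinearMap.smul_apply, LinearMap.id_apply,
      LinearMap.id_apply, smul_comm]

lemma HE_gens : (∀ i, HE n R ((G0 n R).x i) = (2 : ℂ) • (G0 n R).x i) ∧
    (∀ i, HE n R ((G0 n R).β i) = (2 : ℂ) • (G0 n R).β i) ∧
    (∀ i, HE n R ((G0 n R).c i) = (G0 n R).c i) ∧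
    (∀ i, HE n R ((G0 n R).b i) = (G0 n R).b i) := by
  have h := dg_gens (DS.zero n R) (0 : Derivation ℂ R R) 2 1 2
  rw [Derivation.coe_zero_linearMap] at h
  refine ⟨h.2.1, fun i => ?_, fun i => ?_, fun i => ?_⟩
  · have := h.2.2.1 i
    rw [show (2 * 2 - 2 : ℂ) = 2 by norm_num] at this
    exact this
  · have := h.2.2.2.1 i
    rw [one_smul] at this
    exact this
  · have := h.2.2.2.2.1 i
    rw [show (2 - 1 : ℂ) = 1 by norm_num, one_smul] at this
    exact this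

lemma HE_Y0 (a : EE n R) (k : ℤ) (v : EE n R) :
    HE n R ((V0 n R).Y a k v) = (V0 n R).Y (HE n R a) k v + (V0 n R).Y a k (HE n R v)
      - (2 * ((k : ℂ) + 1)) • (V0 n R).Y a k v := by
  have h := dg_Y (DS.zero n R) (0 : Derivation ℂ R R) 2 1 2 (fun i f => by simp) a k v
  rw [Derivation.coe_zero_linearMap] at h
  exact h

lemma HE_Xs (a : Fin n) : HE n R (Xs fr a) = (2 : ℂ) • Xs fr a := by
  rw [Xs, map_sum, Finset.smul_sum]
  refine Finset.sum_congr rfl fun i _ => ?_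
  rw [HE_smulR, HE_gens.1, smul_comm]

lemma HE_Bs (a : Fin n) : HE n R (Bs fr a) = (2 : ℂ) • Bs fr a := by
  rw [Bs, map_sum, Finset.smul_sum]
  refine Finset.sum_congr rfl fun i _ => ?_
  rw [HE_smulR, HE_gens.2.1, smul_comm]

lemma HE_C (a : Fin n) : HE n R ((G0 n R).C fr a) = (G0 n R).C fr a := by
  rw [C_def, map_sum]
  refine Finset.sum_congr rfl fun i _ => ?_
  rw [HE_smulR, HE_gens.2.2.1]

lemma HE_B (a : Fin n) : HE n R ((G0 n R).B fr a) = (G0 n R).B fr a := by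
  rw [B_def, map_sum]
  refine Finset.sum_congr rfl fun i _ => ?_
  rw [HE_smulR, HE_gens.2.2.2]

lemma HE_mode_of (u : EE n R) (z : ℂ) (hu : HE n R u = z • u) (m : ℤ) (v : EE n R) :
    HE n R ((V0 n R).Y u m v) - (V0 n R).Y u m (HE n R v)
      = (z - 2 * ((m : ℂ) + 1)) • (V0 n R).Y u m v := by
  rw [HE_Y0, hu, map_smul, Pi.smul_apply, LinearMap.smul_apply, sub_smul]
  abel

end FA

/-- weights of the modes -/
theorem HE_modes (a : Fin n) (m : ℤ) (v : EE n R) :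
    HE n R (ψm fr a m v) - ψm fr a m (HE n R v) = (-(2 * m + 1 : ℂ)) • ψm fr a m v ∧
    HE n R (χm fr a m v) - χm fr a m (HE n R v) = (-(2 * m + 1 : ℂ)) • χm fr a m v ∧
    HE n R (Apm fr a m v) - Apm fr a m (HE n R v) = (-(2 * m : ℂ)) • Apm fr a m v ∧
    HE n R (Amm fr a m v) - Amm fr a m (HE n R v) = (-(2 * m : ℂ)) • Amm fr a m v := by
  have h1 : HE n R ((G0 n R).ps fr a) = (1 : ℂ) • (G0 n R).ps fr a := by
    rw [CD.ps, map_add, HE_C, HE_B, one_smul]
  have h2 : HE n R ((G0 n R).ch fr a) = (1 : ℂ) • (G0 n R).ch fr a := by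
    rw [CD.ch, map_sub, HE_C, HE_B, one_smul]
  have h3 : HE n R (Ap fr a) = (2 : ℂ) • Ap fr a := by
    rw [Ap_eq, map_add, HE_Xs, HE_Bs, smul_add]
  have h4 : HE n R (Am fr a) = (2 : ℂ) • Am fr a := by
    rw [Am_eq, map_sub, HE_Xs, HE_Bs, smul_sub]
  unfold ψm χm Apm Amm
  refine ⟨?_, ?_, ?_, ?_⟩
  · rw [HE_mode_of _ 1 h1]; congr 1; ring
  · rw [HE_mode_of _ 1 h2]; congr 1; ring
  · rw [HE_mode_of _ 2 h3]; congr 1; ring
  · rw [HE_mode_of _ 2 h4]; congr 1; ring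

namespace FA

lemma Xm_add (a : Fin n) (m : ℤ) (v w : EE n R) :
    Xm fr a m (v + w) = Xm fr a m v + Xm fr a m w := by
  simp only [Xm, map_add, smul_add, Finset.sum_add_distrib]
lemma Bm_add (a : Fin n) (m : ℤ) (v w : EE n R) :
    Bm fr a m (v + w) = Bm fr a m v + Bm fr a m w := by
  simp only [Bm, map_add, smul_add, Finset.sum_add_distrib]
lemma Cm_add (a : Fin n) (m : ℤ) (v w : EE n R) :
    Cm fr a m (v + w) = Cm fr a m v + Cm fr a m w := by
  simp only [Cm, map_add, smul_add, Finset.sum_add_distrib]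
lemma Dm_add (a : Fin n) (m : ℤ) (v w : EE n R) :
    Dm fr a m (v + w) = Dm fr a m v + Dm fr a m w := by
  simp only [Dm, map_add, smul_add, Finset.sum_add_distrib]
lemma Xm_sub (a : Fin n) (m : ℤ) (v w : EE n R) :
    Xm fr a m (v - w) = Xm fr a m v - Xm fr a m w := by
  simp only [Xm, map_sub, smul_sub, Finset.sum_sub_distrib]
lemma Bm_sub (a : Fin n) (m : ℤ) (v w : EE n R) :
    Bm fr a m (v - w) = Bm fr a m v - Bm fr a m w := by
  simp only [Bm, map_sub, smul_sub, Finset.sum_sub_distrib]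
lemma Cm_sub (a : Fin n) (m : ℤ) (v w : EE n R) :
    Cm fr a m (v - w) = Cm fr a m v - Cm fr a m w := by
  simp only [Cm, map_sub, smul_sub, Finset.sum_sub_distrib]
lemma Dm_sub (a : Fin n) (m : ℤ) (v w : EE n R) :
    Dm fr a m (v - w) = Dm fr a m v - Dm fr a m w := by
  simp only [Dm, map_sub, smul_sub, Finset.sum_sub_distrib]

lemma xMo_smulR (i : Fin n) (m : ℤ) (r : R) (v : EE n R) :
    xMo n R i m (r • v) = r • xMo n R i m v := by
  rw [← Y_x (DS.zero n R)]; exact (Y_smul r _ v m).2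
lemma βMo_smulR (i : Fin n) (m : ℤ) (r : R) (v : EE n R) :
    βMo (DS.zero n R) i m (r • v) = r • βMo (DS.zero n R) i m v := by
  rw [← Y_β (DS.zero n R)]; exact (Y_smul r _ v m).2
lemma cMo_smulR (i : Fin n) (m : ℤ) (r : R) (v : EE n R) :
    fMo n R false i m (r • v) = r • fMo n R false i m v := by
  rw [← Y_c (DS.zero n R)]; exact (Y_smul r _ v m).2
lemma bMo_smulR (i : Fin n) (m : ℤ) (r : R) (v : EE n R) :
    fMo n R true i m (r • v) = r • fMo n R true i m v := by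
  rw [← Y_b (DS.zero n R)]; exact (Y_smul r _ v m).2

omit [Algebra ℂ R] in
/-- contraction over the frame index -/
lemma sum_frame (P Q : Fin n → EE n R → EE n R) (hP : ∀ i (r : R) v, P i (r • v) = r • P i v)
    (hPs : ∀ i (s : Finset (Fin n)) (w : Fin n → EE n R), P i (∑ j ∈ s, w j) = ∑ j ∈ s, P i (w j))
    (v : EE n R) :
    ∑ a, ∑ i, fr.e a i • P i (∑ j, fr.f j a • Q j v) = ∑ i, P i (Q i v) := by
  have h1 : ∀ a i, fr.e a i • P i (∑ j, fr.f j a • Q j v)
      = ∑ j, (fr.f j a * fr.e a i) • P i (Q j v) := by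
    intro a i
    rw [hPs, Finset.smul_sum]
    refine Finset.sum_congr rfl fun j _ => ?_
    rw [hP, smul_smul, mul_comm]
  simp only [h1]
  rw [Finset.sum_comm]
  refine Finset.sum_congr rfl fun i _ => ?_
  rw [Finset.sum_comm]
  have h2 : ∀ j, ∑ a, (fr.f j a * fr.e a i) • P i (Q j v) = if j = i then P i (Q i v) else 0 := by
    intro j
    rw [← Finset.sum_smul, sum_fe]
    by_cases hij : j = i
    · rw [if_pos hij, if_pos hij, one_smul, hij]
    · rw [if_neg hij, if_neg hij, zero_smul]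
  simp only [h2, Finset.sum_ite_eq', Finset.mem_univ, if_true]

omit [Algebra ℂ R] in
lemma sum_frame' (P Q : Fin n → EE n R → EE n R) (hP : ∀ i (r : R) v, P i (r • v) = r • P i v)
    (hPs : ∀ i (s : Finset (Fin n)) (w : Fin n → EE n R), P i (∑ j ∈ s, w j) = ∑ j ∈ s, P i (w j))
    (v : EE n R) :
    ∑ a, ∑ i, fr.f i a • P i (∑ j, fr.e a j • Q j v) = ∑ i, P i (Q i v) := by
  have h1 : ∀ a i, fr.f i a • P i (∑ j, fr.e a j • Q j v)
      = ∑ j, (fr.f i a * fr.e a j) • P i (Q j v) := by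
    intro a i
    rw [hPs, Finset.smul_sum]
    refine Finset.sum_congr rfl fun j _ => ?_
    rw [hP, smul_smul]
  simp only [h1]
  rw [Finset.sum_comm]
  refine Finset.sum_congr rfl fun i _ => ?_
  rw [Finset.sum_comm]
  have h2 : ∀ j, ∑ a, (fr.f i a * fr.e a j) • P i (Q j v) = if i = j then P i (Q i v) else 0 := by
    intro j
    rw [← Finset.sum_smul, sum_fe]
    by_cases hij : i = j
    · rw [if_pos hij, if_pos hij, one_smul, hij]
    · rw [if_neg hij, if_neg hij, zero_smul]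
  simp only [h2, Finset.sum_ite_eq, Finset.mem_univ, if_true]

lemma sum_XB (m k : ℤ) (v : EE n R) :
    ∑ a, Xm fr a m (Bm fr a k v) = ∑ i, xMo n R i m (βMo (DS.zero n R) i k v) :=
  sum_frame fr (fun i w => xMo n R i m w) (fun j w => βMo (DS.zero n R) j k w)
    (fun i r v => xMo_smulR i m r v) (fun _ _ _ => map_sum _ _ _) v
lemma sum_BX (m k : ℤ) (v : EE n R) :
    ∑ a, Bm fr a m (Xm fr a k v) = ∑ i, βMo (DS.zero n R) i m (xMo n R i k v) :=
  sum_frame' fr (fun i w => βMo (DS.zero n R) i m w) (fun j w => xMo n R j k w)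
    (fun i r v => βMo_smulR i m r v) (fun _ _ _ => map_sum _ _ _) v
lemma sum_CD (m k : ℤ) (v : EE n R) :
    ∑ a, Cm fr a m (Dm fr a k v) = ∑ i, fMo n R false i m (fMo n R true i k v) :=
  sum_frame fr (fun i w => fMo n R false i m w) (fun j w => fMo n R true j k w)
    (fun i r v => cMo_smulR i m r v) (fun _ _ _ => map_sum _ _ _) v
lemma sum_DC (m k : ℤ) (v : EE n R) :
    ∑ a, Dm fr a m (Cm fr a k v) = ∑ i, fMo n R true i m (fMo n R false i k v) :=
  sum_frame' fr (fun i w => fMo n R true i m w) (fun j w => fMo n R false j k w)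
    (fun i r v => bMo_smulR i m r v) (fun _ _ _ => map_sum _ _ _) v

/-- back to coordinates -/
lemma x_of_X (m : ℤ) (v : EE n R) (h : ∀ a, Xm fr a m v = 0) (i : Fin n) :
    xMo n R i m v = 0 := by
  have h1 : ∑ a, fr.f i a • Xm fr a m v = xMo n R i m v := by
    simp only [Xm, Finset.smul_sum, smul_smul]
    rw [Finset.sum_comm]
    have h2 : ∀ j, ∑ a, (fr.f i a * fr.e a j) • xMo n R j m v
        = if i = j then xMo n R i m v else 0 := by
      intro j
      rw [← Finset.sum_smul, sum_fe]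
      by_cases hij : i = j
      · rw [if_pos hij, if_pos hij, one_smul, hij]
      · rw [if_neg hij, if_neg hij, zero_smul]
    simp only [h2, Finset.sum_ite_eq, Finset.mem_univ, if_true]
  rw [← h1]
  exact Finset.sum_eq_zero fun a _ => by rw [h, smul_zero]

lemma c_of_C (m : ℤ) (v : EE n R) (h : ∀ a, Cm fr a m v = 0) (i : Fin n) :
    fMo n R false i m v = 0 := by
  have h1 : ∑ a, fr.f i a • Cm fr a m v = fMo n R false i m v := by
    simp only [Cm, Finset.smul_sum, smul_smul]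
    rw [Finset.sum_comm]
    have h2 : ∀ j, ∑ a, (fr.f i a * fr.e a j) • fMo n R false j m v
        = if i = j then fMo n R false i m v else 0 := by
      intro j
      rw [← Finset.sum_smul, sum_fe]
      by_cases hij : i = j
      · rw [if_pos hij, if_pos hij, one_smul, hij]
      · rw [if_neg hij, if_neg hij, zero_smul]
    simp only [h2, Finset.sum_ite_eq, Finset.mem_univ, if_true]
  rw [← h1]
  exact Finset.sum_eq_zero fun a _ => by rw [h, smul_zero]

lemma β_of_B (m : ℤ) (v : EE n R) (h : ∀ a, Bm fr a m v = 0) (i : Fin n) :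
    βMo (DS.zero n R) i m v = 0 := by
  have h1 : ∑ a, fr.e a i • Bm fr a m v = βMo (DS.zero n R) i m v := by
    simp only [Bm, Finset.smul_sum, smul_smul]
    rw [Finset.sum_comm]
    have h2 : ∀ j, ∑ a, (fr.e a i * fr.f j a) • βMo (DS.zero n R) j m v
        = if j = i then βMo (DS.zero n R) i m v else 0 := by
      intro j
      rw [← Finset.sum_smul]
      simp only [mul_comm (fr.e _ i)]
      rw [sum_fe]
      by_cases hij : j = i
      · rw [if_pos hij, if_pos hij, one_smul, hij]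
      · rw [if_neg hij, if_neg hij, zero_smul]
    simp only [h2, Finset.sum_ite_eq', Finset.mem_univ, if_true]
  rw [← h1]
  exact Finset.sum_eq_zero fun a _ => by rw [h, smul_zero]

lemma b_of_D (m : ℤ) (v : EE n R) (h : ∀ a, Dm fr a m v = 0) (i : Fin n) :
    fMo n R true i m v = 0 := by
  have h1 : ∑ a, fr.e a i • Dm fr a m v = fMo n R true i m v := by
    simp only [Dm, Finset.smul_sum, smul_smul]
    rw [Finset.sum_comm]
    have h2 : ∀ j, ∑ a, (fr.e a i * fr.f j a) • fMo n R true j m v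
        = if j = i then fMo n R true i m v else 0 := by
      intro j
      rw [← Finset.sum_smul]
      simp only [mul_comm (fr.e _ i)]
      rw [sum_fe]
      by_cases hij : j = i
      · rw [if_pos hij, if_pos hij, one_smul, hij]
      · rw [if_neg hij, if_neg hij, zero_smul]
    simp only [h2, Finset.sum_ite_eq', Finset.mem_univ, if_true]
  rw [← h1]
  exact Finset.sum_eq_zero fun a _ => by rw [h, smul_zero]

lemma zero_of_add_sub {u w : EE n R} (h1 : u + w = 0) (h2 : u - w = 0) : u = 0 ∧ w = 0 := by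
  have h3 : u = w := sub_eq_zero.mp h2
  subst h3
  have h4 : (2 : ℂ) • u = 0 := by rw [two_smul]; exact h1
  have h5 : u = 0 := by
    have := congrArg (fun x => (1 / 2 : ℂ) • x) h4
    simp only [smul_smul, smul_zero] at this
    norm_num at this
    exact this
  exact ⟨h5, h5⟩

end FA

theorem HE_flat (v : EE n R) (K : ℕ)
    (hK : ∀ a (k : ℕ), K ≤ k → Apm fr a (k + 1 : ℕ) v = 0 ∧ Amm fr a (k + 1 : ℕ) v = 0 ∧
      ψm fr a k v = 0 ∧ χm fr a k v = 0) :
    HE n R v = ∑ a, ∑ k ∈ Finset.range K,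
      ((Apm fr a (-(k : ℤ) - 1) (Apm fr a (k + 1 : ℕ) v)
          - Amm fr a (-(k : ℤ) - 1) (Amm fr a (k + 1 : ℕ) v))
        + ((k : ℂ) + 1 / 2) • (ψm fr a (-(k : ℤ) - 1) (ψm fr a k v)
          - χm fr a (-(k : ℤ) - 1) (χm fr a k v))) := by
  have hXB : ∀ a (k : ℕ), K ≤ k → Xm fr a (k + 1 : ℕ) v = 0 ∧ Bm fr a (k + 1 : ℕ) v = 0 :=
    fun a k hk => zero_of_add_sub (by rw [← Apm_eq]; exact (hK a k hk).1)
      (by rw [← Amm_eq]; exact (hK a k hk).2.1)
  have hCD : ∀ a (k : ℕ), K ≤ k → Cm fr a k v = 0 ∧ Dm fr a k v = 0 :=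
    fun a k hk => zero_of_add_sub (by rw [← ψm_eq]; exact (hK a k hk).2.2.1)
      (by rw [← χm_eq]; exact (hK a k hk).2.2.2)
  rw [HE_eq (DS.zero n R) v K (fun i k hk => ⟨x_of_X fr _ v (fun a => (hXB a k hk).1) i,
    β_of_B fr _ v (fun a => (hXB a k hk).2) i, c_of_C fr _ v (fun a => (hCD a k hk).1) i,
    b_of_D fr _ v (fun a => (hCD a k hk).2) i⟩)]
  rw [Finset.sum_comm, Finset.sum_comm (s := (Finset.univ : Finset (Fin n)))
    (t := Finset.range K) (f := fun a k => ((Apm fr a (-(k : ℤ) - 1) (Apm fr a (k + 1 : ℕ) v)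
          - Amm fr a (-(k : ℤ) - 1) (Amm fr a (k + 1 : ℕ) v))
        + ((k : ℂ) + 1 / 2) • (ψm fr a (-(k : ℤ) - 1) (ψm fr a k v)
          - χm fr a (-(k : ℤ) - 1) (χm fr a k v))))]
  refine Finset.sum_congr rfl fun k _ => ?_
  have e1 : ∀ a, Apm fr a (-(k : ℤ) - 1) (Apm fr a (k + 1 : ℕ) v)
      - Amm fr a (-(k : ℤ) - 1) (Amm fr a (k + 1 : ℕ) v)
      = (2 : ℂ) • (Xm fr a (-(k : ℤ) - 1) (Bm fr a (k + 1 : ℕ) v)
        + Bm fr a (-(k : ℤ) - 1) (Xm fr a (k + 1 : ℕ) v)) := by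
    intro a
    simp only [Apm_eq, Amm_eq, Xm_add, Bm_add, Xm_sub, Bm_sub, two_smul]
    abel
  have e2 : ∀ a, ((k : ℂ) + 1 / 2) • (ψm fr a (-(k : ℤ) - 1) (ψm fr a k v)
      - χm fr a (-(k : ℤ) - 1) (χm fr a k v))
      = (2 * k + 1 : ℂ) • (Cm fr a (-(k : ℤ) - 1) (Dm fr a k v)
        + Dm fr a (-(k : ℤ) - 1) (Cm fr a k v)) := by
    intro a
    rw [show (2 * k + 1 : ℂ) = ((k : ℂ) + 1 / 2) * 2 by ring, mul_smul]
    congr 1
    simp only [ψm_eq, χm_eq, Cm_add, Dm_add, Cm_sub, Dm_sub, two_smul]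
    abel
  simp only [e1, e2]
  rw [Finset.sum_add_distrib, Finset.sum_add_distrib, ← Finset.smul_sum, ← Finset.smul_sum,
    ← Finset.smul_sum, ← Finset.smul_sum, Finset.sum_add_distrib, Finset.sum_add_distrib,
    Finset.sum_add_distrib, Finset.sum_add_distrib, sum_XB, sum_BX, sum_CD, sum_DC]

end Flat
end Pool.Agent.AA3
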