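import Pool.Agent.Lib.MP_aa3aaf_al.VSA
import Pool.Agent.Lib.MP_aa3aaf_al.ODer

/-!
Words in the modes of two states, and their action.
-/

set_option autoImplicit false
open scoped BigOperators
noncomputable section
namespace Pool.Agent.AA3

/-- letters of words: `(false, m)` is the mode `Φ₍ₘ₎`, `(true, m)` is `K₍ₘ₎` -/
abbrev WL := Bool × ℤ
/-- the algebra of words -/
abbrev WA := MonoidAlgebra ℂ (FreeMonoid WL)

/-- (twice the) degree of a letter -/
def degL (l : WL) : ℤ := if l.1 then 2 - 2 * l.2 else 1 - 2 * l.2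
/-- (twice the) degree of a word -/
def degW (w : FreeMonoid WL) : ℤ := (w.toList.map degL).sum

section
variable {E : Type*} [AddCommGroup E] [Module ℂ E] (V : VSA E) (Φ K : E)

/-- action of words on `E` -/
def rhoL : FreeMonoid WL →* Module.End ℂ E :=
  FreeMonoid.lift fun l : WL => if l.1 then V.Y K l.2 else V.Y Φ l.2

/-- action of the algebra of words on `E` -/
def rho : WA →ₐ[ℂ] Module.End ℂ E :=
  MonoidAlgebra.lift ℂ (Module.End ℂ E) (FreeMonoid WL) (rhoL V Φ K)

namespace W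

/-- the state of a letter -/
def st (b : Bool) : E := if b then K else Φ

lemma rhoL_of (l : WL) : rhoL V Φ K (FreeMonoid.of l) = V.Y (st Φ K l.1) l.2 := by
  unfold rhoL st
  rw [FreeMonoid.lift_eval_of]
  split_ifs <;> rfl

lemma rhoL_cons (l : WL) (w : FreeMonoid WL) (v : E) :
    rhoL V Φ K (FreeMonoid.of l * w) v = V.Y (st Φ K l.1) l.2 (rhoL V Φ K w v) := by
  rw [map_mul, rhoL_of]
  rfl

lemma rho_of (w : FreeMonoid WL) : rho V Φ K (MonoidAlgebra.of ℂ _ w) = rhoL V Φ K w := by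
  unfold rho
  rw [MonoidAlgebra.lift_of]

lemma degW_one : degW 1 = 0 := rfl

lemma degW_cons (l : WL) (w : FreeMonoid WL) : degW (FreeMonoid.of l * w) = degL l + degW w := by
  unfold degW
  rw [FreeMonoid.toList_mul, FreeMonoid.toList_of, List.map_append, List.sum_append]
  simp

variable {V Φ K}

lemma par_st (hΦ : V.Par 1 Φ) (hK : V.Par 0 K) (b : Bool) :
    V.Par (if b then 0 else 1) (st Φ K b) := by
  unfold st
  cases b
  · simpa using hΦ
  · simpa using hK

lemma par_Y {p q : ℕ} {a b : E} (ha : V.Par p a) (hb : V.Par q b) (m : ℤ) :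
    V.Par (p + q) (V.Y a m b) := by
  unfold VSA.Par at *
  rw [V.sg_Y, ha, hb, map_smul, map_smul V.Y, Pi.smul_apply, LinearMap.smul_apply, smul_smul, pow_add,
    mul_comm]

lemma par_word (hΦ : V.Par 1 Φ) (hK : V.Par 0 K) (w : FreeMonoid WL) :
    ∃ p : ℕ, V.Par p (rhoL V Φ K w V.vac) := by
  induction w using FreeMonoid.recOn with
  | one =>
    refine ⟨0, ?_⟩
    unfold VSA.Par
    rw [map_one]
    simpa using V.sg_vac
  | of_mul l w ih =>
    obtain ⟨p, hp⟩ := ih
    rw [rhoL_cons]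
    exact ⟨_, par_Y (par_st hΦ hK l.1) hp l.2⟩

lemma bound_j (V : VSA E) (a b c : E) (n : ℤ) :
    ∃ N : ℕ, ∀ j : ℕ, N ≤ j → V.Y b (n + j) c = 0 ∧ V.Y a j c = 0 := by
  obtain ⟨N, hN⟩ := V.trunc a c
  obtain ⟨M, hM⟩ := V.trunc b c
  refine ⟨(max N (M - n)).toNat, fun j hj => ?_⟩
  have h0 : max N (M - n) ≤ (j : ℤ) := le_trans (Int.self_le_toNat _) (by exact_mod_cast hj)
  have h1 : N ≤ (j : ℤ) := le_trans (le_max_left _ _) h0
  have h2 : M - n ≤ (j : ℤ) := le_trans (le_max_right _ _) h0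
  exact ⟨hM _ (by omega), hN _ h1⟩

/-- the vectors `ρ(u') v` -/
lemma mem_smul' {v x : E} (c : ℂ) (h : ∃ u' : WA, x = rho V Φ K u' v) :
    ∃ u' : WA, c • x = rho V Φ K u' v := by
  obtain ⟨u', rfl⟩ := h
  exact ⟨c • u', by rw [map_smul]; rfl⟩

lemma mem_add' {v x y : E} (h : ∃ u' : WA, x = rho V Φ K u' v) (h' : ∃ u' : WA, y = rho V Φ K u' v) :
    ∃ u' : WA, x + y = rho V Φ K u' v := by
  obtain ⟨u', rfl⟩ := h
  obtain ⟨u'', rfl⟩ := h'
  exact ⟨u' + u'', by rw [map_add]; rfl⟩

lemma mem_sub' {v x y : E} (h : ∃ u' : WA, x = rho V Φ K u' v) (h' : ∃ u' : WA, y = rho V Φ K u' v) :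
    ∃ u' : WA, x - y = rho V Φ K u' v := by
  obtain ⟨u', rfl⟩ := h
  obtain ⟨u'', rfl⟩ := h'
  exact ⟨u' - u'', by rw [map_sub]; rfl⟩

lemma mem_zero' (v : E) : ∃ u' : WA, (0 : E) = rho V Φ K u' v :=
  ⟨0, by rw [map_zero]; rfl⟩

lemma mem_sum' {v : E} (s : Finset ℕ) (x : ℕ → E) (h : ∀ j ∈ s, ∃ u' : WA, x j = rho V Φ K u' v) :
    ∃ u' : WA, ∑ j ∈ s, x j = rho V Φ K u' v := by
  classical
  induction s using Finset.induction_on with
  | empty => simpa using mem_zero' v
  | insert a s ha ih =>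
    rw [Finset.sum_insert ha]
    exact mem_add' (h a (Finset.mem_insert_self _ _))
      (ih fun j hj => h j (Finset.mem_insert_of_mem hj))

lemma mem_st {v x : E} (b : Bool) (m : ℤ) (h : ∃ u' : WA, x = rho V Φ K u' v) :
    ∃ u' : WA, V.Y (st Φ K b) m x = rho V Φ K u' v := by
  obtain ⟨u', rfl⟩ := h
  refine ⟨MonoidAlgebra.of ℂ _ (FreeMonoid.of (b, m)) * u', ?_⟩
  rw [map_mul, rho_of, rhoL_of]
  rfl

lemma exists_wordL (hΦ : V.Par 1 Φ) (hK : V.Par 0 K) (w : FreeMonoid WL) :
    ∀ (m : ℤ) (v : E), ∃ u' : WA, V.Y (rhoL V Φ K w V.vac) m v = rho V Φ K u' v := by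
  induction w using FreeMonoid.recOn with
  | one =>
    intro m v
    rw [map_one]
    show ∃ u' : WA, V.Y V.vac m v = _
    rw [V.Y_vac]
    split_ifs
    · exact ⟨1, by rw [map_one]; rfl⟩
    · exact mem_zero' v
  | of_mul l w ih =>
    intro m v
    obtain ⟨p, hp⟩ := par_word hΦ hK w
    rw [rhoL_cons]
    set b := rhoL V Φ K w V.vac with hb
    obtain ⟨N, hN⟩ := bound_j V (st Φ K l.1) b v m
    rw [V.assoc _ p (st Φ K l.1) b (par_st hΦ hK l.1) hp l.2 m v N hN]
    refine mem_sum' _ _ fun j _ => mem_smul' _ (mem_sub' ?_ (mem_smul' _ ?_))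
    · exact mem_st _ _ (ih _ _)
    · obtain ⟨u1, hu1⟩ := ih (l.2 + m - j) (V.Y (st Φ K l.1) j v)
      rw [hu1]
      refine ⟨u1 * MonoidAlgebra.of ℂ _ (FreeMonoid.of (l.1, (j : ℤ))), ?_⟩
      rw [map_mul, rho_of, rhoL_of]
      rfl

end W

open W

/-- every mode of a word state acts on a given vector like an element of the algebra of words -/
theorem exists_word (hΦ : V.Par 1 Φ) (hK : V.Par 0 K) (u : WA) (m : ℤ) (v : E) :
    ∃ u' : WA, V.Y (rho V Φ K u V.vac) m v = rho V Φ K u' v := by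
  induction u using MonoidAlgebra.induction_on with
  | of w => rw [rho_of]; exact exists_wordL hΦ hK w m v
  | add x y hx hy =>
    rw [map_add, LinearMap.add_apply, map_add, Pi.add_apply, LinearMap.add_apply]
    exact mem_add' hx hy
  | smul r x hx =>
    rw [map_smul, LinearMap.smul_apply, map_smul, Pi.smul_apply, LinearMap.smul_apply]
    exact mem_smul' r hx

namespace W

variable {V Φ K}

lemma der_wordL (hΦ : V.Par 1 Φ) (hK : V.Par 0 K) {X : E →ₗ[ℂ] E} (hX : CD.ODer V X)
    (h0 : X V.vac = 0) (h1 : X Φ = 0) (h2 : X K = 0) (w : FreeMonoid WL) :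
    X (rhoL V Φ K w V.vac) = 0 := by
  induction w using FreeMonoid.recOn with
  | one => rw [map_one]; exact h0
  | of_mul l w ih =>
    rw [rhoL_cons, hX.2 _ _ _ _ (par_st hΦ hK l.1), ih, map_zero, smul_zero, add_zero]
    have : X (st Φ K l.1) = 0 := by
      unfold st
      split_ifs
      · exact h2
      · exact h1
    rw [this, map_zero]
    rfl

end W

/-- an odd derivation killing `Φ`, `K` and the vacuum kills all word states -/
theorem der_word (hΦ : V.Par 1 Φ) (hK : V.Par 0 K) (X : E →ₗ[ℂ] E) (hX : CD.ODer V X)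
    (h0 : X V.vac = 0) (h1 : X Φ = 0) (h2 : X K = 0) (u : WA) :
    X (rho V Φ K u V.vac) = 0 := by
  induction u using MonoidAlgebra.induction_on with
  | of w => rw [rho_of]; exact der_wordL hΦ hK hX h0 h1 h2 w
  | add x y hx hy => rw [map_add, LinearMap.add_apply, map_add, hx, hy, add_zero]
  | smul r x hx => rw [map_smul, LinearMap.smul_apply, map_smul, hx, smul_zero]

/-- weights of word states -/
theorem H_word (H : E →ₗ[ℂ] E)
    (hH : ∀ a (m : ℤ) v, H (V.Y a m v) = V.Y (H a) m v + V.Y a m (H v)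
      - (2 * ((m : ℂ) + 1)) • V.Y a m v)
    (hH1 : H Φ = (3 : ℂ) • Φ) (hH2 : H K = (4 : ℂ) • K)
    (w : FreeMonoid WL) (v : E) (h : ℤ) (hv : H v = (h : ℂ) • v) :
    H (rhoL V Φ K w v) = ((degW w + h : ℤ) : ℂ) • rhoL V Φ K w v := by
  induction w using FreeMonoid.recOn with
  | one =>
    rw [map_one, degW_one, zero_add]
    exact hv
  | of_mul l w ih =>
    obtain ⟨b, m⟩ := l
    rw [rhoL_cons, hH, ih, degW_cons, map_smul]
    set x := rhoL V Φ K w v with hx
    cases b
    · have e : st Φ K false = Φ := rfl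
      simp only [e, hH1, map_smul, Pi.smul_apply, LinearMap.smul_apply, degL]
      rw [← add_smul, ← sub_smul]
      congr 1
      push_cast
      ring
    · have e : st Φ K true = K := rfl
      simp only [e, hH2, map_smul, Pi.smul_apply, LinearMap.smul_apply, degL]
      rw [← add_smul, ← sub_smul]
      congr 1
      push_cast
      ring

/-- abstract Lemma A: `N` is an even derivation killing `Φ`, with `N K = -X (F Φ)`, `X` as above -/
theorem N_word (hΦ : V.Par 1 Φ) (hK : V.Par 0 K) (X : E →ₗ[ℂ] E) (hX : CD.ODer V X)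
    (h0 : X V.vac = 0) (h1 : X Φ = 0) (h2 : X K = 0) (N H : E →ₗ[ℂ] E) (Ψ : E)
    (hΨ : V.Par 1 Ψ)
    (hN : ∀ a (m : ℤ) v, N (V.Y a m v) = V.Y (N a) m v + V.Y a m (N v))
    (hN0 : N V.vac = 0) (hN1 : N Φ = 0) (hN2 : N K = -X Ψ)
    (hH : ∀ a (m : ℤ) v, H (V.Y a m v) = V.Y (H a) m v + V.Y a m (H v)
      - (2 * ((m : ℂ) + 1)) • V.Y a m v)
    (hH0 : H V.vac = 0) (hH1 : H Φ = (3 : ℂ) • Φ) (hH2 : H K = (4 : ℂ) • K)
    (hH3 : H Ψ = (3 : ℂ) • Ψ) (w : FreeMonoid WL) :
    ∃ y : E, N (rhoL V Φ K w V.vac) = X y ∧ H y = ((degW w - 1 : ℤ) : ℂ) • y := by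
  induction w using FreeMonoid.recOn with
  | one =>
    refine ⟨0, ?_, ?_⟩
    · rw [map_one, map_zero]
      exact hN0
    · rw [map_zero, smul_zero]
  | of_mul l w ih =>
    obtain ⟨y, hy1, hy2⟩ := ih
    obtain ⟨b, m⟩ := l
    have hw := H_word V Φ K H hH hH1 hH2 w V.vac 0 (by rw [hH0]; simp)
    rw [add_zero] at hw
    have hXw := der_wordL hΦ hK hX h0 h1 h2 w
    rw [rhoL_cons, hN, hy1, degW_cons]
    set x := rhoL V Φ K w V.vac with hx
    cases b
    · have e : st Φ K false = Φ := rfl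
      refine ⟨-V.Y Φ m y, ?_, ?_⟩
      · simp only [e]
        rw [hN1, map_neg, hX.2 1 Φ m y hΦ, h1, map_zero]
        simp
      · rw [map_neg, hH, hH1, hy2]
        simp only [map_smul, Pi.smul_apply, LinearMap.smul_apply, degL]
        rw [← add_smul, ← sub_smul, smul_neg]
        congr 2
        push_cast
        ring
    · have e : st Φ K true = K := rfl
      refine ⟨-V.Y Ψ m x + V.Y K m y, ?_, ?_⟩
      · simp only [e]
        rw [hN2, X.map_add, X.map_neg, hX.2 1 Ψ m x hΨ, hX.2 0 K m y hK, h2, hXw]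
        simp
      · rw [map_add, map_neg, hH, hH, hH2, hH3, hy2, hw]
        simp only [map_smul, Pi.smul_apply, LinearMap.smul_apply, degL]
        rw [← add_smul, ← sub_smul, ← add_smul, ← sub_smul, smul_add, smul_neg]
        congr 3
        · push_cast
          ring
        · push_cast
          ring

end

/-- homogeneous component of degree `h` of an element of the algebra of words -/
def wcomp (h : ℤ) (u : WA) : WA := MonoidAlgebra.ofCoeff (u.coeff.filter fun w => degW w = h)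

namespace W

lemma wcomp_add (h : ℤ) (u v : WA) : wcomp h (u + v) = wcomp h u + wcomp h v := by
  unfold wcomp
  rw [MonoidAlgebra.coeff_add, Finsupp.filter_add]
  rfl

lemma wcomp_smul (h : ℤ) (c : ℂ) (u : WA) : wcomp h (c • u) = c • wcomp h u := by
  unfold wcomp
  rw [MonoidAlgebra.coeff_smul, Finsupp.filter_smul]
  rfl

lemma wcomp_of (h : ℤ) (w : FreeMonoid WL) :
    wcomp h (MonoidAlgebra.of ℂ _ w) = if degW w = h then MonoidAlgebra.of ℂ _ w else 0 := by
  unfold wcomp
  rw [MonoidAlgebra.of_apply, MonoidAlgebra.coeff_single]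
  split_ifs with hw
  · rw [Finsupp.filter_single_of_pos (fun w => degW w = h) hw]
    rfl
  · rw [Finsupp.filter_single_of_neg (fun w => degW w = h) hw]
    rfl

/-- twist of the words -/
def twL : FreeMonoid WL →* WA :=
  FreeMonoid.lift fun l : WL => if l.1 then -MonoidAlgebra.of ℂ _ (FreeMonoid.of l)
    else MonoidAlgebra.of ℂ _ (FreeMonoid.of l)

/-- the sign of a word -/
def sgL : FreeMonoid WL →* ℂ := FreeMonoid.lift fun l : WL => if l.1 then -1 else 1

lemma twL_eq (w : FreeMonoid WL) : twL w = sgL w • MonoidAlgebra.of ℂ _ w := by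
  induction w using FreeMonoid.recOn with
  | one => rw [map_one, map_one, map_one, one_smul]
  | of_mul l w ih =>
    rw [map_mul, map_mul, map_mul, ih]
    have e : twL (FreeMonoid.of l) = sgL (FreeMonoid.of l) • MonoidAlgebra.of ℂ _ (FreeMonoid.of l) := by
      unfold twL sgL
      rw [FreeMonoid.lift_eval_of, FreeMonoid.lift_eval_of]
      split_ifs
      · rw [neg_smul, one_smul]
      · rw [one_smul]
    rw [e, smul_mul_smul_comm]

/-- conjugation of the coefficients followed by the twist -/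
def thR : WA →+* WA :=
  ((MonoidAlgebra.lift ℂ WA (FreeMonoid WL) twL : WA →ₐ[ℂ] WA) : WA →+* WA).comp
    (MonoidAlgebra.mapRingHom (FreeMonoid WL) (starRingEnd ℂ))

lemma thR_of (w : FreeMonoid WL) : thR (MonoidAlgebra.of ℂ _ w) = sgL w • MonoidAlgebra.of ℂ _ w := by
  unfold thR
  rw [RingHom.comp_apply, MonoidAlgebra.of_apply, MonoidAlgebra.mapRingHom_single, map_one,
    ← MonoidAlgebra.of_apply]
  show MonoidAlgebra.lift ℂ WA (FreeMonoid WL) twL (MonoidAlgebra.of ℂ _ w) = _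
  rw [MonoidAlgebra.lift_of, twL_eq]

lemma thR_smul (c : ℂ) (u : WA) : thR (c • u) = star c • thR u := by
  have e1 : thR (c • (1 : WA)) = star c • 1 := by
    have e2 : c • (1 : WA) = MonoidAlgebra.single 1 c := by
      rw [MonoidAlgebra.one_def, MonoidAlgebra.smul_single', mul_one]
    rw [e2]
    unfold thR
    rw [RingHom.comp_apply, MonoidAlgebra.mapRingHom_single]
    show MonoidAlgebra.lift ℂ WA (FreeMonoid WL) twL (MonoidAlgebra.single 1 (star c)) = _
    rw [MonoidAlgebra.lift_single, map_one]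
  rw [← smul_one_mul c u, map_mul, e1, smul_one_mul]

end W

/-- conjugation of the algebra of words: conjugate the coefficients and `K ↦ -K` -/
theorem exists_thW : ∃ th : WA → WA, (∀ u v, th (u + v) = th u + th v) ∧
    (∀ u v, th (u * v) = th u * th v) ∧ th 1 = 1 ∧ (∀ (c : ℂ) u, th (c • u) = star c • th u) ∧
    (∀ m : ℤ, th (MonoidAlgebra.of ℂ _ (FreeMonoid.of ((false, m) : WL)))
      = MonoidAlgebra.of ℂ _ (FreeMonoid.of ((false, m) : WL))) ∧
    (∀ m : ℤ, th (MonoidAlgebra.of ℂ _ (FreeMonoid.of ((true, m) : WL)))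
      = -MonoidAlgebra.of ℂ _ (FreeMonoid.of ((true, m) : WL))) ∧
    (∀ h u, wcomp h (th u) = th (wcomp h u)) := by
  refine ⟨W.thR, map_add _, map_mul _, map_one _, W.thR_smul, ?_, ?_, ?_⟩
  · intro m
    rw [W.thR_of]
    unfold W.sgL
    rw [FreeMonoid.lift_eval_of]
    simp
  · intro m
    rw [W.thR_of]
    unfold W.sgL
    rw [FreeMonoid.lift_eval_of]
    simp
  · intro h u
    induction u using MonoidAlgebra.induction_on with
    | of w =>
      rw [W.thR_of, W.wcomp_smul, W.wcomp_of]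
      split_ifs
      · rw [W.thR_of]
      · rw [smul_zero, map_zero]
    | add x y hx hy => rw [map_add, W.wcomp_add, W.wcomp_add, map_add, hx, hy]
    | smul r x hx => rw [W.thR_smul, W.wcomp_smul, W.wcomp_smul, W.thR_smul, hx]

end Pool.Agent.AA3
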