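import Pool.Agent.Lib.MP_aa3aaf_al.Flat1
import Pool.Agent.Lib.MP_aa3aaf_al.CDo
import Pool.Agent.Lib.MP_aa3aaf_al.Words

/-!
The flat model: kernel of `D_o`, the product `K₍₁₎ Φ`, and the constants.
-/

set_option autoImplicit false
open scoped BigOperators
noncomputable section
namespace Pool.Agent.AA3
namespace Flat
variable {n : ℕ} {R : Type*} [CommRing R] [Algebra ℂ R] (fr : Frame n R)

/-! ### Kernel of `D_o` -/

lemma par_ps (a : Fin n) : (V0 n R).Par 1 ((G0 n R).ps fr a) := ((G0 n R).odd_ps fr a).par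
lemma par_ch (a : Fin n) : (V0 n R).Par 1 ((G0 n R).ch fr a) := ((G0 n R).odd_ch fr a).par

lemma Do_χm (a : Fin n) (m : ℤ) (v : EE n R) :
    (G0 n R).Do fr (χm fr a m v) = Amm fr a m v - χm fr a m ((G0 n R).Do fr v) := by
  have h := (CD.ODer_Do (G0 n R) fr).2 1 _ m v (par_ch fr a)
  rw [χm, h, Do_ch, pow_one, neg_smul, one_smul, ← sub_eq_add_neg]
  rfl

lemma Do_Amm (a : Fin n) (m : ℤ) (v : EE n R) :
    (G0 n R).Do fr (Amm fr a m v)
      = (-(m : ℂ)) • χm fr a (m - 1) v + Amm fr a m ((G0 n R).Do fr v) := by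
  have h := (CD.ODer_Do (G0 n R) fr).2 0 _ m v (par_Am fr a)
  rw [Amm, h, Do_Am, pow_zero, one_smul, VSA.Y_T]
  rfl

theorem Do_ker (v : EE n R) (hv : (G0 n R).Do fr v = 0) (a : Fin n) (k : ℕ) :
    χm fr a k v = 0 ∧ Amm fr a k v = 0 := by
  obtain ⟨N, hN⟩ := (V0 n R).trunc ((G0 n R).ch fr a) v
  have key : ∀ j : ℕ, χm fr a (((N.toNat - j : ℕ) : ℤ)) v = 0 := by
    intro j
    induction j with
    | zero =>
      refine hN _ ?_
      rw [Nat.sub_zero]
      exact Int.self_le_toNat N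
    | succ j ih =>
      by_cases hj : N.toNat - j = 0
      · have : N.toNat - (j + 1) = N.toNat - j := by omega
        rw [this]
        exact ih
      · have h1 : Amm fr a (((N.toNat - j : ℕ) : ℤ)) v = 0 := by
          have h := Do_χm fr a (((N.toNat - j : ℕ) : ℤ)) v
          rw [ih, hv, map_zero, map_zero, sub_zero] at h
          exact h.symm
        have h2 := Do_Amm fr a (((N.toNat - j : ℕ) : ℤ)) v
        rw [h1, hv, map_zero, map_zero, add_zero] at h2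
        have h3 : ((-(((N.toNat - j : ℕ) : ℤ) : ℂ)) : ℂ) ≠ 0 := by
          rw [neg_ne_zero]
          exact_mod_cast hj
        have h4 := (smul_eq_zero.mp h2.symm).resolve_left h3
        have h5 : (((N.toNat - (j + 1) : ℕ) : ℤ)) = ((N.toNat - j : ℕ) : ℤ) - 1 := by omega
        rw [h5]
        exact h4
  have hχ : χm fr a k v = 0 := by
    by_cases hk : (N : ℤ) ≤ k
    · exact hN _ hk
    · have : N.toNat - (N.toNat - k) = k := by omega
      have h := key (N.toNat - k)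
      rw [this] at h
      exact h
  refine ⟨hχ, ?_⟩
  have h := Do_χm fr a (k : ℤ) v
  rw [hχ, hv, map_zero, map_zero, sub_zero] at h
  exact h.symm


/-! ### The product `K₍₁₎ Φ` -/

lemma ψ_vac (a : Fin n) (k : ℕ) : ψm fr a k (vacE n R) = 0 := by
  rw [ψm, ← vsaE_vac (DS.zero n R)]
  exact (V0 n R).create' _ k
lemma A_vac (a : Fin n) (k : ℕ) : Apm fr a k (vacE n R) = 0 := by
  rw [Apm, ← vsaE_vac (DS.zero n R)]
  exact (V0 n R).create' _ k
lemma ps_eq (a : Fin n) : (G0 n R).ps fr a = ψm fr a (-1) (vacE n R) := by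
  rw [ψm, ← vsaE_vac (DS.zero n R)]
  exact ((V0 n R).create _).symm
lemma Ap_eq (a : Fin n) : Ap fr a = Apm fr a (-1) (vacE n R) := by
  rw [Apm, ← vsaE_vac (DS.zero n R)]
  exact ((V0 n R).create _).symm

/-- `ψ^a ψ^b` -/
def P2 (a b : Fin n) : EE n R := ψm fr a (-1) (ψm fr b (-1) (vacE n R))
/-- `ψ^a ψ^b ψ^c` -/
def P3 (a b c : Fin n) : EE n R := ψm fr a (-1) (P2 fr b c)

lemma mul_ps (a : Fin n) (v : EE n R) :
    (V0 n R).mul ((G0 n R).ps fr a) v = ψm fr a (-1) v := rfl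
lemma mul_Ap (a : Fin n) (v : EE n R) :
    (V0 n R).mul (Ap fr a) v = Apm fr a (-1) v := rfl

lemma mul_ps_ps (a b : Fin n) :
    (V0 n R).mul ((G0 n R).ps fr a) ((G0 n R).ps fr b) = P2 fr a b := by
  rw [mul_ps, ps_eq]
  rfl

lemma Phi_eq (φ : Fin n → Fin n → Fin n → ℂ) :
    (G0 n R).Phi fr φ = ∑ a, ∑ b, ∑ c, φ a b c • P3 fr a b c := by
  unfold CD.Phi
  refine Finset.sum_congr rfl fun a _ => Finset.sum_congr rfl fun b _ =>
    Finset.sum_congr rfl fun c _ => ?_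
  rw [mul_ps_ps, mul_ps, P3]

lemma DD_vac : (G0 n R).DD (vacE n R) = 0 := by
  have h1 := CD.Q1_vac (G0 n R)
  have h2 := CD.Q2_vac (G0 n R)
  rw [vsaE_vac] at h1 h2
  rw [CD.DD, LinearMap.add_apply, h1, h2, add_zero]

lemma DD_ψm (a : Fin n) (m : ℤ) (v : EE n R) :
    (G0 n R).DD (ψm fr a m v) = Apm fr a m v - ψm fr a m ((G0 n R).DD v) := by
  have h := (CD.ODer_DD (G0 n R)).2 1 _ m v (par_ps fr a)
  rw [ψm, h, pow_one, neg_smul, one_smul, ← sub_eq_add_neg]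
  rfl

lemma DD_P3 (a b c : Fin n) : (G0 n R).DD (P3 fr a b c) =
    Apm fr a (-1) (P2 fr b c) - Apm fr b (-1) (P2 fr a c) + Apm fr c (-1) (P2 fr a b) := by
  rw [P3, DD_ψm, P2, DD_ψm, DD_ψm, DD_vac, map_zero, sub_zero, map_sub, ← Aψ fr b a,
    ← Aψ fr c b, ← Aψ fr c a, P2, P2]
  abel

lemma KK_eq (φ : Fin n → Fin n → Fin n → ℂ) (hφ : CD.Anti φ) :
    (G0 n R).KK fr φ = (3 : ℂ) • ∑ a, ∑ b, ∑ c, φ a b c • Apm fr a (-1) (P2 fr b c) := by
  have h2 : ∑ a, ∑ b, ∑ c, φ a b c • Apm fr b (-1) (P2 fr a c)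
      = -∑ a, ∑ b, ∑ c, φ a b c • Apm fr a (-1) (P2 fr b c) := by
    rw [Finset.sum_comm, ← Finset.sum_neg_distrib]
    refine Finset.sum_congr rfl fun b _ => ?_
    rw [← Finset.sum_neg_distrib]
    refine Finset.sum_congr rfl fun a _ => ?_
    rw [← Finset.sum_neg_distrib]
    refine Finset.sum_congr rfl fun c _ => ?_
    rw [(hφ a b c).1, neg_smul]
  have h3 : ∑ a, ∑ b, ∑ c, φ a b c • Apm fr c (-1) (P2 fr a b)
      = ∑ a, ∑ b, ∑ c, φ a b c • Apm fr a (-1) (P2 fr b c) := by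
    have e1 : ∑ a, ∑ b, ∑ c, φ a b c • Apm fr c (-1) (P2 fr a b)
        = ∑ a, ∑ c, ∑ b, φ a b c • Apm fr c (-1) (P2 fr a b) :=
      Finset.sum_congr rfl fun a _ => Finset.sum_comm
    rw [e1, Finset.sum_comm]
    refine Finset.sum_congr rfl fun c _ => ?_
    refine Finset.sum_congr rfl fun a _ => ?_
    refine Finset.sum_congr rfl fun b _ => ?_
    rw [(hφ a b c).2, (hφ a c b).1, neg_neg]
  rw [CD.KK, Phi_eq]
  simp only [map_sum, map_smul, DD_P3, smul_add, smul_sub, Finset.sum_add_distrib,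
    Finset.sum_sub_distrib]
  rw [h2, h3]
  module

lemma ψ_pos (c d : Fin n) (k : ℤ) (hk : 1 ≤ k) (v : EE n R) :
    ψm fr c k (ψm fr d (-1) v) = -ψm fr d (-1) (ψm fr c k v) := by
  have h := ψψ fr c d k (-1) v
  rw [if_neg (by omega)] at h
  exact eq_neg_of_add_eq_zero_left h

lemma ψ_zero (c d : Fin n) (v : EE n R) :
    ψm fr c 0 (ψm fr d (-1) v)
      = (if c = d then (2 : ℂ) • v else 0) - ψm fr d (-1) (ψm fr c 0 v) := by
  have h := ψψ fr c d 0 (-1) v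
  have e : (c = d ∧ (0 : ℤ) + -1 = -1) ↔ c = d := by simp
  rw [if_congr e rfl rfl] at h
  rw [← h]
  abel

lemma ψ_pos_P3 (c d e f : Fin n) (k : ℤ) (hk : 1 ≤ k) : ψm fr c k (P3 fr d e f) = 0 := by
  obtain ⟨k', rfl⟩ := Int.eq_ofNat_of_zero_le (by omega : 0 ≤ k)
  rw [P3, P2, ψ_pos fr _ _ _ hk, ψ_pos fr _ _ _ hk, ψ_pos fr _ _ _ hk, ψ_vac]
  simp only [map_zero, neg_zero]

lemma A_P3 (a d e f : Fin n) (k : ℕ) : Apm fr a k (P3 fr d e f) = 0 := by
  rw [P3, P2, Aψ, Aψ, Aψ, A_vac]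
  simp only [map_zero]

lemma par_P2 (b c : Fin n) : (V0 n R).Par (1 + 1) (P2 fr b c) := by
  rw [← mul_ps_ps]
  exact VSA.Par.Y (par_ps fr b) (par_ps fr c) (-1)

lemma Y_P2 (b c d e f : Fin n) (k : ℤ) (hk : 1 ≤ k) :
    (V0 n R).Y (P2 fr b c) k (P3 fr d e f) = -ψm fr c (k - 1) (ψm fr b 0 (P3 fr d e f)) := by
  have h := VSA.Y_mul (V0 n R) (par_ps fr b) (par_ps fr c) k (P3 fr d e f) 1 (by
    intro j hj
    exact ⟨ψ_pos_P3 fr c d e f _ (by omega), ψ_pos_P3 fr b d e f _ (by exact_mod_cast hj)⟩)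
  rw [mul_ps_ps] at h
  rw [h, Finset.sum_range_one, Nat.cast_zero, sub_zero, sub_zero, add_zero]
  have h0 : (V0 n R).Y ((G0 n R).ps fr c) k (P3 fr d e f) = 0 := ψ_pos_P3 fr c d e f k hk
  rw [h0, map_zero, zero_add, one_mul, pow_one, neg_smul, one_smul]
  rfl

lemma Y_P2_two (b c d e f : Fin n) (k : ℤ) (hk : 2 ≤ k) :
    (V0 n R).Y (P2 fr b c) k (P3 fr d e f) = 0 := by
  rw [Y_P2 fr b c d e f k (by omega)]
  have h := ψψ fr c b (k - 1) 0 (P3 fr d e f)
  rw [if_neg (by omega), ψ_pos_P3 fr c d e f (k - 1) (by omega), map_zero, add_zero] at h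
  rw [h, neg_zero]

lemma Y_AP2 (a b c d e f : Fin n) :
    (V0 n R).Y (Apm fr a (-1) (P2 fr b c)) 1 (P3 fr d e f)
      = -Apm fr a (-1) (ψm fr c 0 (ψm fr b 0 (P3 fr d e f))) := by
  have h := VSA.Y_mul (V0 n R) (par_Ap fr a) (par_P2 fr b c) 1 (P3 fr d e f) 1 (by
    intro j hj
    exact ⟨Y_P2_two fr b c d e f _ (by omega), A_P3 fr a d e f j⟩)
  rw [mul_Ap] at h
  rw [h, Finset.sum_range_one, Nat.cast_zero, sub_zero, sub_zero, add_zero,
    Y_P2 fr b c d e f 1 le_rfl]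
  have h0 : (V0 n R).Y (Ap fr a) 0 (P3 fr d e f) = 0 := Apm_zero fr a _
  rw [h0, map_zero, smul_zero, add_zero, sub_self, map_neg]
  rfl

lemma ψ0_P3 (b d e f : Fin n) : ψm fr b 0 (P3 fr d e f)
    = (if b = d then (2 : ℂ) • P2 fr e f else 0) - (if b = e then (2 : ℂ) • P2 fr d f else 0)
      + (if b = f then (2 : ℂ) • P2 fr d e else 0) := by
  have h0 : ψm fr b 0 (vacE n R) = 0 := by exact_mod_cast ψ_vac fr b 0
  rw [P3, ψ_zero, P2, ψ_zero, ψ_zero, h0, map_zero, sub_zero]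
  simp only [map_sub, apply_ite (ψm fr d (-1)), apply_ite (ψm fr e (-1)), map_smul, map_zero]
  rw [P2, P2]
  abel

lemma ψ0_P2 (c e f : Fin n) : ψm fr c 0 (P2 fr e f)
    = (if c = e then (2 : ℂ) • ψm fr f (-1) (vacE n R) else 0)
      - (if c = f then (2 : ℂ) • ψm fr e (-1) (vacE n R) else 0) := by
  have h0 : ψm fr c 0 (vacE n R) = 0 := by exact_mod_cast ψ_vac fr c 0
  rw [P2, ψ_zero, ψ_zero, h0, map_zero, sub_zero]
  simp only [apply_ite (ψm fr e (-1)), map_smul, map_zero]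

lemma ψ0_Phi (φ : Fin n → Fin n → Fin n → ℂ) (hφ : CD.Anti φ) (b : Fin n) :
    ψm fr b 0 ((G0 n R).Phi fr φ) = (6 : ℂ) • ∑ e, ∑ f, φ b e f • P2 fr e f := by
  have h2 : ∀ d f, φ d b f = -φ b d f := fun d f => (hφ d b f).1
  have h3 : ∀ d e, φ d e b = φ b d e := fun d e => by
    rw [(hφ d e b).2, (hφ d b e).1, neg_neg]
  rw [Phi_eq]
  simp only [map_sum, map_smul, ψ0_P3, smul_add, smul_sub, Finset.sum_add_distrib,
    Finset.sum_sub_distrib, smul_ite, smul_zero, Finset.sum_ite_irrel, Finset.sum_const_zero,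
    Finset.sum_ite_eq, Finset.mem_univ, if_true, h2, h3, neg_smul, Finset.sum_neg_distrib]
  simp only [smul_comm _ (2 : ℂ), ← Finset.smul_sum]
  module

lemma ψ00_Phi (φ : Fin n → Fin n → Fin n → ℂ) (hφ : CD.Anti φ) (b c : Fin n) :
    ψm fr c 0 (ψm fr b 0 ((G0 n R).Phi fr φ))
      = (24 : ℂ) • ∑ f, φ b c f • ψm fr f (-1) (vacE n R) := by
  have h2 : ∀ e, φ b e c = -φ b c e := fun e => (hφ b e c).2
  rw [ψ0_Phi fr φ hφ b]
  simp only [map_sum, map_smul, ψ0_P2, smul_sub,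
    Finset.sum_sub_distrib, smul_ite, smul_zero, Finset.sum_ite_irrel, Finset.sum_const_zero,
    Finset.sum_ite_eq, Finset.mem_univ, if_true, h2, neg_smul, Finset.sum_neg_distrib]
  simp only [smul_comm _ (2 : ℂ), ← Finset.smul_sum]
  module

/-- the state `∑ A^a ψ^a` -/
def Gst : EE n R := ∑ a, (V0 n R).mul (Ap fr a) ((G0 n R).ps fr a)

theorem K1_Phi (φ : Fin n → Fin n → Fin n → ℂ) (hφ : CD.Anti φ) (κ : ℂ)
    (h3 : ∀ a d, ∑ b, ∑ c, φ a b c * φ d b c = if a = d then κ else 0) :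
    (V0 n R).Y ((G0 n R).KK fr φ) 1 ((G0 n R).Phi fr φ) = (-72 * κ) • Gst fr := by
  have hY : ∀ a b c, (V0 n R).Y (Apm fr a (-1) (P2 fr b c)) 1 ((G0 n R).Phi fr φ)
      = -Apm fr a (-1) (ψm fr c 0 (ψm fr b 0 ((G0 n R).Phi fr φ))) := by
    intro a b c
    rw [Phi_eq]
    simp only [map_sum, map_smul, Y_AP2, smul_neg, Finset.sum_neg_distrib]
  have hcyc : ∀ b c f, φ b c f = φ f b c := fun b c f => by
    rw [(hφ b c f).2, (hφ b f c).1, neg_neg]
  have h4 : (V0 n R).Y ((G0 n R).KK fr φ) 1 ((G0 n R).Phi fr φ)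
      = (3 : ℂ) • ∑ a, ∑ b, ∑ c, φ a b c • (V0 n R).Y (Apm fr a (-1) (P2 fr b c)) 1
          ((G0 n R).Phi fr φ) := by
    rw [KK_eq fr φ hφ]
    simp only [map_sum, map_smul, Finset.sum_apply, Pi.smul_apply, LinearMap.sum_apply,
      LinearMap.smul_apply]
  rw [h4]
  have h5 : ∀ a, ∑ b, ∑ c, φ a b c • (V0 n R).Y (Apm fr a (-1) (P2 fr b c)) 1
          ((G0 n R).Phi fr φ) = (-24 * κ) • Apm fr a (-1) (ψm fr a (-1) (vacE n R)) := by
    intro a
    have e1 : ∀ b c, φ a b c • (V0 n R).Y (Apm fr a (-1) (P2 fr b c)) 1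
          ((G0 n R).Phi fr φ)
        = ∑ f, (-24 * (φ a b c * φ f b c)) • Apm fr a (-1) (ψm fr f (-1) (vacE n R)) := by
      intro b c
      rw [hY, ψ00_Phi fr φ hφ, map_smul, map_sum, Finset.smul_sum, ← Finset.sum_neg_distrib,
        Finset.smul_sum]
      refine Finset.sum_congr rfl fun f _ => ?_
      rw [map_smul, hcyc b c f]
      module
    calc ∑ b, ∑ c, φ a b c • (V0 n R).Y (Apm fr a (-1) (P2 fr b c)) 1 ((G0 n R).Phi fr φ)
        = ∑ b, ∑ c, ∑ f, (-24 * (φ a b c * φ f b c)) •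
            Apm fr a (-1) (ψm fr f (-1) (vacE n R)) := by
          simp only [e1]
      _ = ∑ f, ∑ b, ∑ c, (-24 * (φ a b c * φ f b c)) •
            Apm fr a (-1) (ψm fr f (-1) (vacE n R)) := by
          rw [Finset.sum_comm]
          have : ∀ c, ∑ b, ∑ f, (-24 * (φ a b c * φ f b c)) •
              Apm fr a (-1) (ψm fr f (-1) (vacE n R))
              = ∑ f, ∑ b, (-24 * (φ a b c * φ f b c)) •
              Apm fr a (-1) (ψm fr f (-1) (vacE n R)) := fun c => Finset.sum_comm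
          simp only [this]
          rw [Finset.sum_comm]
          exact Finset.sum_congr rfl fun f _ => Finset.sum_comm
      _ = ∑ f, (-24 * ∑ b, ∑ c, φ a b c * φ f b c) •
            Apm fr a (-1) (ψm fr f (-1) (vacE n R)) := by
          refine Finset.sum_congr rfl fun f _ => ?_
          simp only [Finset.mul_sum, Finset.sum_smul]
      _ = (-24 * κ) • Apm fr a (-1) (ψm fr a (-1) (vacE n R)) := by
          simp only [h3, mul_ite, mul_zero, ite_smul, zero_smul, Finset.sum_ite_eq,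
            Finset.mem_univ, if_true]
  simp only [h5, Gst, mul_Ap]
  rw [← Finset.smul_sum, smul_smul]
  have : ∀ a, Apm fr a (-1) ((G0 n R).ps fr a) = Apm fr a (-1) (ψm fr a (-1) (vacE n R)) :=
    fun a => by rw [ps_eq]
  simp only [this]
  congr 1
  ring

/-! ### Constants -/

/-- the `ℂ`-span of the creation monomials in the modes of `ψ^a`, `A^a` -/
def Scr : Submodule ℂ (EE n R) := sInf {S | vacE n R ∈ S ∧ ∀ (a : Fin n) (k : ℕ), ∀ v ∈ S,
  ψm fr a (-(k : ℤ) - 1) v ∈ S ∧ Apm fr a (-(k : ℤ) - 1) v ∈ S}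

lemma Scr_le (S : Submodule ℂ (EE n R)) (h0 : vacE n R ∈ S)
    (h : ∀ (a : Fin n) (k : ℕ), ∀ v ∈ S,
      ψm fr a (-(k : ℤ) - 1) v ∈ S ∧ Apm fr a (-(k : ℤ) - 1) v ∈ S) : Scr fr ≤ S :=
  sInf_le ⟨h0, h⟩

lemma vac_mem : vacE n R ∈ Scr fr := by
  rw [Scr, Submodule.mem_sInf]
  exact fun S hS => hS.1

lemma cr_mem (a : Fin n) (k : ℕ) {v : EE n R} (hv : v ∈ Scr fr) :
    ψm fr a (-(k : ℤ) - 1) v ∈ Scr fr ∧ Apm fr a (-(k : ℤ) - 1) v ∈ Scr fr := by
  constructor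
  all_goals
    rw [Scr, Submodule.mem_sInf] at hv ⊢
    intro S hS
    first
      | exact (hS.2 a k v (hv S hS)).1
      | exact (hS.2 a k v (hv S hS)).2

lemma modes_mem {v : EE n R} (hv : v ∈ Scr fr) :
    ∀ (a : Fin n) (m : ℤ), ψm fr a m v ∈ Scr fr ∧ Apm fr a m v ∈ Scr fr := by
  have hle : Scr fr ≤ Scr fr ⊓ ⨅ a : Fin n, ⨅ m : ℤ,
      ((Scr fr).comap (ψm fr a m) ⊓ (Scr fr).comap (Apm fr a m)) := by
    refine Scr_le fr _ ?_ ?_
    · simp only [Submodule.mem_inf, Submodule.mem_iInf, Submodule.mem_comap]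
      refine ⟨vac_mem fr, fun a m => ?_⟩
      rcases le_or_gt 0 m with hm | hm
      · obtain ⟨k, rfl⟩ := Int.eq_ofNat_of_zero_le hm
        rw [ψ_vac, A_vac]
        exact ⟨Submodule.zero_mem _, Submodule.zero_mem _⟩
      · obtain ⟨k, hk⟩ := Int.eq_ofNat_of_zero_le (by omega : 0 ≤ -m - 1)
        have : m = -(k : ℤ) - 1 := by omega
        rw [this]
        exact cr_mem fr a k (vac_mem fr)
    · intro b k w hw
      simp only [Submodule.mem_inf, Submodule.mem_iInf, Submodule.mem_comap] at hw ⊢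
      refine ⟨⟨(cr_mem fr b k hw.1).1, fun a m => ⟨?_, ?_⟩⟩,
        ⟨(cr_mem fr b k hw.1).2, fun a m => ⟨?_, ?_⟩⟩⟩
      · have h := ψψ fr a b m (-(k : ℤ) - 1) w
        rw [eq_sub_of_add_eq h]
        refine Submodule.sub_mem _ ?_ (cr_mem fr b k (hw.2 a m).1).1
        split_ifs
        · exact Submodule.smul_mem _ _ hw.1
        · exact Submodule.zero_mem _
      · rw [Aψ fr a b m (-(k : ℤ) - 1) w]
        exact (cr_mem fr b k (hw.2 a m).2).1
      · rw [← Aψ fr b a (-(k : ℤ) - 1) m w]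
        exact (cr_mem fr b k (hw.2 a m).1).2
      · have h := AA fr a b m (-(k : ℤ) - 1) w
        rw [eq_add_of_sub_eq h]
        refine Submodule.add_mem _ ?_ (cr_mem fr b k (hw.2 a m).2).2
        split_ifs
        · exact Submodule.smul_mem _ _ hw.1
        · exact Submodule.zero_mem _
  have h := hle hv
  simp only [Submodule.mem_inf, Submodule.mem_iInf, Submodule.mem_comap] at h
  exact fun a m => h.2 a m

/-- the modes of `a` preserve `Scr` -/
def Cl (a : EE n R) : Prop := ∀ (m : ℤ) (v : EE n R), v ∈ Scr fr → (V0 n R).Y a m v ∈ Scr fr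

lemma Cl_ps (a : Fin n) : Cl fr ((G0 n R).ps fr a) := fun m _ hv => (modes_mem fr hv a m).1
lemma Cl_Ap (a : Fin n) : Cl fr (Ap fr a) := fun m _ hv => (modes_mem fr hv a m).2

lemma Cl_mul {p q : ℕ} {a b : EE n R} (ha : (V0 n R).Par p a) (hb : (V0 n R).Par q b)
    (h1 : Cl fr a) (h2 : Cl fr b) : Cl fr ((V0 n R).mul a b) := by
  intro m v hv
  obtain ⟨N, hN⟩ := exists_bound ⟨(V0 n R).Y a, (V0 n R).trunc a⟩
    ⟨(V0 n R).Y b, (V0 n R).trunc b⟩ m v
  rw [VSA.Y_mul (V0 n R) ha hb m v N hN]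
  refine Submodule.sum_mem _ fun j _ => Submodule.add_mem _ (h1 _ _ (h2 _ _ hv))
    (Submodule.smul_mem _ _ (h2 _ _ (h1 _ _ hv)))

lemma Cl_add {a b : EE n R} (h1 : Cl fr a) (h2 : Cl fr b) : Cl fr (a + b) := by
  intro m v hv
  rw [map_add, Pi.add_apply, LinearMap.add_apply]
  exact Submodule.add_mem _ (h1 m v hv) (h2 m v hv)

lemma Cl_smul {a : EE n R} (z : ℂ) (h1 : Cl fr a) : Cl fr (z • a) := by
  intro m v hv
  rw [map_smul, Pi.smul_apply, LinearMap.smul_apply]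
  exact Submodule.smul_mem _ _ (h1 m v hv)

lemma Cl_zero : Cl fr (0 : EE n R) := by
  intro m v hv
  rw [map_zero]
  exact Submodule.zero_mem _

lemma Cl_sum {ι : Type*} (s : Finset ι) {a : ι → EE n R} (h : ∀ i ∈ s, Cl fr (a i)) :
    Cl fr (∑ i ∈ s, a i) := by
  classical
  induction s using Finset.induction_on with
  | empty => simpa using Cl_zero fr
  | insert i s hi ih =>
    rw [Finset.sum_insert hi]
    exact Cl_add fr (h i (Finset.mem_insert_self i s))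
      (ih fun j hj => h j (Finset.mem_insert_of_mem hj))

lemma Cl_P2 (a b : Fin n) : Cl fr (P2 fr a b) := by
  rw [← mul_ps_ps]
  exact Cl_mul fr (par_ps fr a) (par_ps fr b) (Cl_ps fr a) (Cl_ps fr b)

lemma Cl_Phi (φ : Fin n → Fin n → Fin n → ℂ) : Cl fr ((G0 n R).Phi fr φ) := by
  rw [Phi_eq]
  refine Cl_sum fr _ fun a _ => Cl_sum fr _ fun b _ => Cl_sum fr _ fun c _ => Cl_smul fr _ ?_
  exact Cl_mul fr (par_ps fr a) (par_P2 fr b c) (Cl_ps fr a) (Cl_P2 fr b c)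

lemma Cl_AP2 (a b c : Fin n) : Cl fr (Apm fr a (-1) (P2 fr b c)) :=
  Cl_mul fr (par_Ap fr a) (par_P2 fr b c) (Cl_Ap fr a) (Cl_P2 fr b c)

lemma Cl_KK (φ : Fin n → Fin n → Fin n → ℂ) : Cl fr ((G0 n R).KK fr φ) := by
  rw [CD.KK, Phi_eq]
  simp only [map_sum, map_smul, DD_P3]
  refine Cl_sum fr _ fun a _ => Cl_sum fr _ fun b _ => Cl_sum fr _ fun c _ => Cl_smul fr _ ?_
  rw [sub_eq_add_neg, ← neg_one_smul ℂ (Apm fr b (-1) (P2 fr a c))]
  exact Cl_add fr (Cl_add fr (Cl_AP2 fr a b c) (Cl_smul fr _ (Cl_AP2 fr b a c)))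
    (Cl_AP2 fr c a b)

lemma rhoL_mem (φ : Fin n → Fin n → Fin n → ℂ) (w : FreeMonoid WL) :
    ∀ v ∈ Scr fr, rhoL (V0 n R) ((G0 n R).Phi fr φ) ((G0 n R).KK fr φ) w v ∈ Scr fr := by
  induction w using FreeMonoid.recOn with
  | one =>
    intro v hv
    rw [map_one]
    exact hv
  | of_mul l w hw =>
    intro v hv
    rw [map_mul]
    have h1 := hw v hv
    have h2 : rhoL (V0 n R) ((G0 n R).Phi fr φ) ((G0 n R).KK fr φ) (FreeMonoid.of l)
        = if l.1 then (V0 n R).Y ((G0 n R).KK fr φ) l.2 else (V0 n R).Y ((G0 n R).Phi fr φ) l.2 := by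
      rw [rhoL, FreeMonoid.lift_eval_of]
    rw [Module.End.mul_apply, h2]
    split_ifs
    · exact Cl_KK fr φ _ _ h1
    · exact Cl_Phi fr φ _ _ h1

lemma rho_mem (φ : Fin n → Fin n → Fin n → ℂ) (u : WA) :
    ∀ v ∈ Scr fr, rho (V0 n R) ((G0 n R).Phi fr φ) ((G0 n R).KK fr φ) u v ∈ Scr fr := by
  intro v hv
  induction u using MonoidAlgebra.induction_linear with
  | zero =>
    rw [map_zero]
    exact Submodule.zero_mem _
  | add f g hf hg =>
    rw [map_add, LinearMap.add_apply]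
    exact Submodule.add_mem _ hf hg
  | single w r =>
    rw [rho, MonoidAlgebra.lift_single, LinearMap.smul_apply]
    exact Submodule.smul_mem _ _ (rhoL_mem fr φ w v hv)

lemma vc_Scr {v : EE n R} (hv : v ∈ Scr fr) : ∃ z : ℂ, vc n R v = algebraMap ℂ R z := by
  have hle : Scr fr ≤ (LinearMap.range (Algebra.linearMap ℂ R)).comap
      ((vc n R).restrictScalars ℂ) := by
    refine Scr_le fr _ ?_ ?_
    · rw [Submodule.mem_comap]
      refine ⟨1, ?_⟩
      simp only [Algebra.linearMap_apply, map_one, LinearMap.restrictScalars_apply, vc, vacE,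
        Finsupp.lapply_apply, Finsupp.single_eq_same]
    · intro a k v _
      constructor
      · rw [Submodule.mem_comap, LinearMap.restrictScalars_apply, (vc_neg fr a k v).1]
        exact Submodule.zero_mem _
      · rw [Submodule.mem_comap, LinearMap.restrictScalars_apply, (vc_neg fr a k v).2.2.1]
        exact Submodule.zero_mem _
  obtain ⟨z, hz⟩ := hle hv
  exact ⟨z, hz.symm⟩

theorem flat_const (φ : Fin n → Fin n → Fin n → ℂ) (u : WA) :
    ∃ z : ℂ, vc n R (rho (V0 n R) ((G0 n R).Phi fr φ) ((G0 n R).KK fr φ) u (vacE n R))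
      = algebraMap ℂ R z :=
  vc_Scr fr (rho_mem fr φ u _ (vac_mem fr))

end Flat
end Pool.Agent.AA3
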