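import Mathlib
import Pool.Agent.Lib.MP_aa3aaf_al.PosDefs

/-!
The form `B(t,s) = P(e^L t, e^{-L} s)`, `L = g²` (task P1).
-/

set_option autoImplicit false
open scoped BigOperators
set_option linter.unusedSectionVars false
noncomputable section
namespace Pool.Agent.AA3

namespace PD
variable {R : Type*} [CommRing R] [Algebra ℂ R] {C : PosR R} {ι : Type*} [Fintype ι]
    {E : Type*} [AddCommGroup E] [Module ℂ E] [Module R E] [IsScalarTower ℂ R E]

namespace P1

/-! ### binomial identities -/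

lemma alt_choose (k : ℕ) : ∀ a b : ℕ,
    ∑ i ∈ Finset.range (k + 1), (-1 : ℂ) ^ i * (k.choose i) * ((i + a).choose b)
      = if k ≤ b then (-1 : ℂ) ^ k * (a.choose (b - k)) else 0 := by
  induction k with
  | zero => intro a b; simp
  | succ k ih =>
    intro a b
    have e1 : ∑ i ∈ Finset.range (k + 1 + 1), (-1 : ℂ) ^ i * ((k + 1).choose i) * ((i + a).choose b)
        = (∑ i ∈ Finset.range (k + 1), (-1 : ℂ) ^ i * (k.choose i) * ((i + a).choose b))
          - ∑ i ∈ Finset.range (k + 1), (-1 : ℂ) ^ i * (k.choose i) * ((i + (a + 1)).choose b) := by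
      rw [Finset.sum_range_succ' (n := k + 1)]
      have e2 : ∑ i ∈ Finset.range (k + 1), (-1 : ℂ) ^ (i + 1) * ((k + 1).choose (i + 1))
          * ((i + 1 + a).choose b)
          = (∑ i ∈ Finset.range (k + 1), (-1 : ℂ) ^ (i + 1) * (k.choose (i + 1))
            * ((i + 1 + a).choose b))
            - ∑ i ∈ Finset.range (k + 1), (-1 : ℂ) ^ i * (k.choose i) * ((i + (a + 1)).choose b) := by
        rw [← Finset.sum_sub_distrib]
        refine Finset.sum_congr rfl fun i _ => ?_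
        rw [Nat.choose_succ_succ, show i + 1 + a = i + (a + 1) by ring]
        push_cast
        ring
      rw [e2]
      have e3 : ∑ i ∈ Finset.range (k + 1), (-1 : ℂ) ^ i * (k.choose i) * ((i + a).choose b)
          = (∑ i ∈ Finset.range (k + 1), (-1 : ℂ) ^ (i + 1) * (k.choose (i + 1))
            * ((i + 1 + a).choose b)) + (-1 : ℂ) ^ 0 * (k.choose 0) * ((0 + a).choose b) := by
        rw [Finset.sum_range_succ' (n := k), Finset.sum_range_succ (n := k)]
        rw [Nat.choose_succ_self]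
        simp
      rw [e3]
      simp
      ring
    rw [e1, ih, ih]
    rcases Nat.lt_trichotomy b k with h | h | h
    · rw [if_neg (by omega), if_neg (by omega), if_neg (by omega)]
      ring
    · subst h
      rw [if_pos le_rfl, if_pos le_rfl, if_neg (by omega)]
      simp
    · rw [if_pos (by omega), if_pos (by omega), if_pos (by omega)]
      obtain ⟨c, rfl⟩ : ∃ c, b = k + 1 + c := ⟨b - (k + 1), by omega⟩
      have e4 : k + 1 + c - k = c + 1 := by omega
      have e5 : k + 1 + c - (k + 1) = c := by omega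
      rw [e4, e5, Nat.choose_succ_succ a c]
      push_cast
      ring

lemma altU (k l : ℕ) :
    ∑ i ∈ Finset.range (k + 1), (-1 : ℂ) ^ i * (k.choose i) * ((i + l).choose l)
      = (-1 : ℂ) ^ k * (l.choose k) := by
  rw [alt_choose]
  split_ifs with h
  · rw [Nat.choose_symm h]
  · rw [Nat.choose_eq_zero_of_lt (by omega)]
    simp

lemma altS (k l : ℕ) :
    ∑ i ∈ Finset.range (k + 1), (-1 : ℂ) ^ i * ((k + 1).choose (i + 1)) * ((i + (l + 1)).choose (l + 1))
      = (-1 : ℂ) ^ k * (l.choose k) := by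
  induction k with
  | zero => simp
  | succ k ih =>
    have e1 : ∑ i ∈ Finset.range (k + 1 + 1), (-1 : ℂ) ^ i * ((k + 1 + 1).choose (i + 1))
        * ((i + (l + 1)).choose (l + 1))
        = (∑ i ∈ Finset.range (k + 1 + 1), (-1 : ℂ) ^ i * ((k + 1).choose i)
          * ((i + (l + 1)).choose (l + 1)))
        + ∑ i ∈ Finset.range (k + 1), (-1 : ℂ) ^ i * ((k + 1).choose (i + 1))
          * ((i + (l + 1)).choose (l + 1)) := by
      have e2 : ∑ i ∈ Finset.range (k + 1), (-1 : ℂ) ^ i * ((k + 1).choose (i + 1))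
          * ((i + (l + 1)).choose (l + 1))
          = ∑ i ∈ Finset.range (k + 1 + 1), (-1 : ℂ) ^ i * ((k + 1).choose (i + 1))
          * ((i + (l + 1)).choose (l + 1)) := by
        rw [Finset.sum_range_succ (n := k + 1), Nat.choose_succ_self]
        simp
      rw [e2, ← Finset.sum_add_distrib]
      refine Finset.sum_congr rfl fun i _ => ?_
      rw [Nat.choose_succ_succ (k + 1) i]
      push_cast
      ring
    rw [e1, altU, ih, Nat.choose_succ_succ l k]
    push_cast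
    ring

/-! ### divided powers -/

lemma lin_csmul {E' : Type*} [AddCommGroup E'] [Module ℂ E'] [Module R E'] [IsScalarTower ℂ R E']
    (f : E →ₗ[R] E') (z : ℂ) (v : E) : f (z • v) = z • f v := by
  rw [← algebraMap_smul R z v, map_smul, algebraMap_smul]

/-- divided powers -/
def dp (L : E →ₗ[R] E) (n : ℕ) (v : E) : E := ((n.factorial : ℂ)⁻¹) • (L ^ n) v

lemma dp_zero (L : E →ₗ[R] E) (v : E) : dp L 0 v = v := by simp [dp]

lemma dp_succ (L : E →ₗ[R] E) (n : ℕ) (v : E) : ((n : ℂ) + 1) • dp L (n + 1) v = L (dp L n v) := by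
  unfold dp
  rw [lin_csmul, smul_smul, pow_succ', Nat.factorial_succ]
  congr 1
  have h1 : ((n : ℂ) + 1) ≠ 0 := by exact_mod_cast Nat.succ_ne_zero n
  have h2 : ((n.factorial : ℕ) : ℂ) ≠ 0 := by exact_mod_cast Nat.factorial_ne_zero n
  push_cast
  field_simp

lemma pow_zero_of_le {L : E →ₗ[R] E} {v : E} {N n : ℕ} (h : (L ^ N) v = 0) (hn : N ≤ n) :
    (L ^ n) v = 0 := by
  obtain ⟨c, rfl⟩ := Nat.exists_eq_add_of_le' hn
  rw [pow_add, Module.End.mul_apply, h, map_zero]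

lemma dp_zero_of_le {L : E →ₗ[R] E} {v : E} {N n : ℕ} (h : (L ^ N) v = 0) (hn : N ≤ n) :
    dp L n v = 0 := by
  unfold dp
  rw [pow_zero_of_le h hn, smul_zero]

lemma smul_cancel {z : ℂ} (hz : z ≠ 0) {v w : E} (h : z • v = z • w) : v = w := by
  have h1 : z • (v - w) = 0 := by rw [smul_sub, h, sub_self]
  exact sub_eq_zero.mp ((smul_eq_zero.mp h1).resolve_left hz)

/-- Leibniz rule for divided powers -/
lemma dp_comm (L : E →ₗ[R] E) (X : ℕ → E →ₗ[R] E) (c b : ℕ → ℂ)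
    (hX : ∀ i v, L (X i v) = X i (L v) + c i • X (i + 1) v) (hb0 : b 0 = 1)
    (hb : ∀ i, b i * c i = ((i : ℂ) + 1) * b (i + 1)) (v : E) (n : ℕ) :
    dp L n (X 0 v) = ∑ i ∈ Finset.range (n + 1), b i • X i (dp L (n - i) v) := by
  induction n with
  | zero => simp [dp_zero, hb0]
  | succ n ih =>
    have hn1 : ((n : ℂ) + 1) ≠ 0 := by exact_mod_cast Nat.succ_ne_zero n
    refine smul_cancel hn1 ?_
    rw [dp_succ, ih, map_sum, Finset.smul_sum]
    have e1 : ∀ i ∈ Finset.range (n + 1), L (b i • X i (dp L (n - i) v))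
        = b i • (((n : ℂ) + 1 - i) • X i (dp L (n + 1 - i) v))
          + (((i + 1 : ℕ) : ℂ)) • (b (i + 1) • X (i + 1) (dp L (n + 1 - (i + 1)) v)) := by
      intro i hi
      rw [Finset.mem_range] at hi
      rw [lin_csmul, hX, smul_add, smul_smul, hb]
      have e2 : L (dp L (n - i) v) = ((n : ℂ) + 1 - i) • dp L (n + 1 - i) v := by
        rw [← dp_succ, show n + 1 - i = n - i + 1 by omega]
        congr 1
        rw [Nat.cast_sub (by omega)]
        ring
      rw [e2, lin_csmul, show n + 1 - (i + 1) = n - i by omega, smul_smul (((i + 1 : ℕ) : ℂ))]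
      congr 2
      push_cast
      ring
    rw [Finset.sum_congr rfl e1, Finset.sum_add_distrib]
    have e3 : ∑ i ∈ Finset.range (n + 1),
        (((i + 1 : ℕ) : ℂ)) • (b (i + 1) • X (i + 1) (dp L (n + 1 - (i + 1)) v))
        = ∑ i ∈ Finset.range (n + 1 + 1), (i : ℂ) • (b i • X i (dp L (n + 1 - i) v)) := by
      rw [Finset.sum_range_succ' (n := n + 1)]
      simp
    have e4 : ∑ i ∈ Finset.range (n + 1), b i • (((n : ℂ) + 1 - i) • X i (dp L (n + 1 - i) v))
        = ∑ i ∈ Finset.range (n + 1 + 1), b i • (((n : ℂ) + 1 - i) • X i (dp L (n + 1 - i) v)) := by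
      rw [Finset.sum_range_succ (n := n + 1)]
      simp
    rw [e3, e4, ← Finset.sum_add_distrib]
    refine Finset.sum_congr rfl fun i _ => ?_
    rw [smul_smul, smul_smul, smul_smul, ← add_smul]
    congr 1
    ring

/-! ### exponentials of locally nilpotent maps -/

/-- locally nilpotent -/
def LN (L : E →ₗ[R] E) : Prop := ∀ v, ∃ N : ℕ, (L ^ N) v = 0

lemma sum_dp_eq {L : E →ₗ[R] E} {v : E} {N M : ℕ} (hN : (L ^ N) v = 0) (hM : (L ^ M) v = 0) :
    ∑ n ∈ Finset.range N, dp L n v = ∑ n ∈ Finset.range M, dp L n v := by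
  wlog h : N ≤ M generalizing N M
  · exact (this hM hN (by omega)).symm
  · obtain ⟨c, rfl⟩ := Nat.exists_eq_add_of_le h
    rw [Finset.sum_range_add]
    have : ∑ x ∈ Finset.range c, dp L (N + x) v = 0 :=
      Finset.sum_eq_zero fun x _ => dp_zero_of_le hN (by omega)
    rw [this, add_zero]

open Classical in
/-- the exponential -/
def ex (L : E →ₗ[R] E) (hL : LN L) : E →ₗ[R] E where
  toFun v := ∑ n ∈ Finset.range (Classical.choose (hL v)), dp L n v
  map_add' v w := by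
    set a := Classical.choose (hL v) with ha
    set b := Classical.choose (hL w) with hb
    set c := Classical.choose (hL (v + w)) with hc
    have ha0 : (L ^ a) v = 0 := Classical.choose_spec (hL v)
    have hb0 : (L ^ b) w = 0 := Classical.choose_spec (hL w)
    have hc0 : (L ^ c) (v + w) = 0 := Classical.choose_spec (hL (v + w))
    have ha1 : (L ^ (max a b)) v = 0 := pow_zero_of_le ha0 (le_max_left _ _)
    have hb1 : (L ^ (max a b)) w = 0 := pow_zero_of_le hb0 (le_max_right _ _)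
    have hc1 : (L ^ (max a b)) (v + w) = 0 := by rw [map_add, ha1, hb1, add_zero]
    rw [sum_dp_eq hc0 hc1, sum_dp_eq ha0 ha1, sum_dp_eq hb0 hb1, ← Finset.sum_add_distrib]
    refine Finset.sum_congr rfl fun n _ => ?_
    unfold dp
    rw [map_add, smul_add]
  map_smul' r v := by
    set a := Classical.choose (hL v) with ha
    set c := Classical.choose (hL (r • v)) with hc
    have ha0 : (L ^ a) v = 0 := Classical.choose_spec (hL v)
    have hc0 : (L ^ c) (r • v) = 0 := Classical.choose_spec (hL (r • v))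
    have hc1 : (L ^ a) (r • v) = 0 := by rw [map_smul, ha0, smul_zero]
    rw [sum_dp_eq hc0 hc1, RingHom.id_apply, Finset.smul_sum]
    refine Finset.sum_congr rfl fun n _ => ?_
    unfold dp
    rw [map_smul, smul_comm]

lemma ex_apply {L : E →ₗ[R] E} (hL : LN L) {v : E} {N : ℕ} (hN : (L ^ N) v = 0) :
    ex L hL v = ∑ n ∈ Finset.range N, dp L n v :=
  sum_dp_eq (Classical.choose_spec (hL v)) hN

lemma ex_of_ker {L : E →ₗ[R] E} (hL : LN L) {v : E} (hv : L v = 0) : ex L hL v = v := by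
  rw [ex_apply hL (N := 1) (by rwa [pow_one]), Finset.sum_range_one, dp_zero]

/-- the exponential and a sequence of maps -/
lemma ex_comm {L : E →ₗ[R] E} (hL : LN L) (X : ℕ → E →ₗ[R] E) (c b : ℕ → ℂ)
    (hX : ∀ i v, L (X i v) = X i (L v) + c i • X (i + 1) v) (hb0 : b 0 = 1)
    (hb : ∀ i, b i * c i = ((i : ℂ) + 1) * b (i + 1)) (v : E)
    (hM : ∃ M : ℕ, ∀ j i, M ≤ i → b i • X i (dp L j v) = 0) :
    ∃ M : ℕ, (∀ i, M ≤ i → b i • X i (ex L hL v) = 0) ∧ ∀ M', M ≤ M' →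
      ex L hL (X 0 v) = ∑ i ∈ Finset.range M', b i • X i (ex L hL v) := by
  obtain ⟨M, hM⟩ := hM
  obtain ⟨N, hN⟩ := hL v
  have hex := ex_apply hL hN
  have hvan : ∀ i, M ≤ i → b i • X i (ex L hL v) = 0 := by
    intro i hi
    rw [hex, map_sum, Finset.smul_sum]
    exact Finset.sum_eq_zero fun j _ => hM j i hi
  refine ⟨M, hvan, fun M' hM' => ?_⟩
  have hdp0 : ∀ n, N + M ≤ n → dp L n (X 0 v) = 0 := by
    intro n hn
    rw [dp_comm L X c b hX hb0 hb v n]
    refine Finset.sum_eq_zero fun i hi => ?_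
    rcases Nat.lt_or_ge i M with h | h
    · rw [dp_zero_of_le hN (by omega), map_zero, smul_zero]
    · exact hM (n - i) i h
  have hpow : (L ^ (N + M)) (X 0 v) = 0 := by
    have h1 := hdp0 (N + M) le_rfl
    unfold dp at h1
    refine (smul_eq_zero.mp h1).resolve_left (inv_ne_zero ?_)
    exact_mod_cast Nat.factorial_ne_zero _
  rw [ex_apply hL hpow]
  have e1 : ∑ n ∈ Finset.range (N + M), dp L n (X 0 v)
      = ∑ n ∈ Finset.range (N + M), ∑ i ∈ Finset.range (n + 1), b i • X i (dp L (n - i) v) :=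
    Finset.sum_congr rfl fun n _ => dp_comm L X c b hX hb0 hb v n
  rw [e1, Finset.sum_range_diag_flip (N + M) (fun i j => b i • X i (dp L j v))]
  have e2 : ∀ i ∈ Finset.range (N + M), ∑ j ∈ Finset.range (N + M - i), b i • X i (dp L j v)
      = b i • X i (ex L hL v) := by
    intro i _
    rcases Nat.lt_or_ge i M with h | h
    · have h2 : (L ^ (N + M - i)) v = 0 := pow_zero_of_le hN (by omega)
      rw [ex_apply hL h2, map_sum, Finset.smul_sum]
    · rw [hvan i h]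
      exact Finset.sum_eq_zero fun j _ => hM j i h
  rw [Finset.sum_congr rfl e2]
  have e3 : ∀ K, M ≤ K → ∑ i ∈ Finset.range K, b i • X i (ex L hL v)
      = ∑ i ∈ Finset.range M, b i • X i (ex L hL v) := by
    intro K hK
    obtain ⟨d, rfl⟩ := Nat.exists_eq_add_of_le hK
    rw [Finset.sum_range_add]
    have : ∑ x ∈ Finset.range d, b (M + x) • X (M + x) (ex L hL v) = 0 :=
      Finset.sum_eq_zero fun x _ => hvan _ (by omega)
    rw [this, add_zero]
  rw [e3 _ (by omega), e3 _ hM']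

variable (X : PD R C ι E)

/-- `L = g²` -/
def LL : E →ₗ[R] E := X.g * X.g

lemma LL_apply (v : E) : LL X v = X.g (X.g v) := rfl

lemma LN_LL : LN (LL X) := by
  intro v
  obtain ⟨N, hN⟩ := X.g_nil v
  refine ⟨N, ?_⟩
  unfold LL
  rw [← pow_two, ← pow_mul, two_mul, pow_add, Module.End.mul_apply, hN, map_zero]

lemma LN_neg {L : E →ₗ[R] E} (hL : LN L) : LN (-L) := by
  intro v
  obtain ⟨N, hN⟩ := hL v
  refine ⟨N, ?_⟩
  rcases Nat.even_or_odd N with h | h
  · rw [h.neg_pow, hN]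
  · rw [h.neg_pow, LinearMap.neg_apply, hN, neg_zero]

lemma LL_A (i : ι) (m : ℤ) (v : E) :
    LL X (X.A i m v) = X.A i m (LL X v) + (-(m : ℂ)) • X.A i (m + 1) v := by
  have h1 : X.g (X.A i m v) = X.A i m (X.g v) + (-(m : ℂ)) • X.ψ i m v :=
    sub_eq_iff_eq_add'.mp (X.g_A i m v)
  have h2 : X.g (X.A i m (X.g v)) = X.A i m (X.g (X.g v)) + (-(m : ℂ)) • X.ψ i m (X.g v) :=
    sub_eq_iff_eq_add'.mp (X.g_A i m (X.g v))
  rw [LL_apply, LL_apply, h1, map_add, lin_csmul, h2, ← X.g_ψ i m v, smul_add]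
  abel

lemma LL_ψ (i : ι) (m : ℤ) (v : E) :
    LL X (X.ψ i m v) = X.ψ i m (LL X v) + (-((m : ℂ) + 1)) • X.ψ i (m + 1) v := by
  have h1 : X.g (X.ψ i m v) = X.A i (m + 1) v - X.ψ i m (X.g v) :=
    eq_sub_of_add_eq (X.g_ψ i m v)
  have h2 : X.g (X.ψ i m (X.g v)) = X.A i (m + 1) (X.g v) - X.ψ i m (X.g (X.g v)) :=
    eq_sub_of_add_eq (X.g_ψ i m (X.g v))
  have h3 : X.g (X.A i (m + 1) v) = X.A i (m + 1) (X.g v) + (-(((m + 1 : ℤ)) : ℂ)) • X.ψ i (m + 1) v :=
    sub_eq_iff_eq_add'.mp (X.g_A i (m + 1) v)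
  rw [LL_apply, LL_apply, h1, map_sub, h2, h3]
  push_cast
  abel

/-- truncation for finitely many vectors -/
lemma trunc_A (i : ι) (L : E →ₗ[R] E) (hL : LN L) (v : E) (m0 : ℤ) (b : ℕ → ℂ) :
    ∃ M : ℕ, ∀ j l, M ≤ l → b l • X.A i (m0 + l) (dp L j v) = 0 := by
  obtain ⟨N, hN⟩ := hL v
  have key : ∀ n : ℕ, ∃ M : ℕ, ∀ j, j < n → ∀ l : ℕ, M ≤ l → X.A i (m0 + l) (dp L j v) = 0 := by
    intro n
    induction n with
    | zero => exact ⟨0, fun j hj => absurd hj (Nat.not_lt_zero j)⟩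
    | succ n ih =>
      obtain ⟨M, hM⟩ := ih
      obtain ⟨Z, hZ⟩ := X.A_trunc i (dp L n v)
      refine ⟨max M (Z - m0).toNat, fun j hj l hl => ?_⟩
      rcases Nat.lt_succ_iff_lt_or_eq.mp hj with h | rfl
      · exact hM j h l ((le_max_left _ _).trans hl)
      · refine hZ _ ?_
        have h1 : (Z - m0).toNat ≤ l := (le_max_right _ _).trans hl
        have h2 := Int.self_le_toNat (Z - m0)
        have h3 : ((Z - m0).toNat : ℤ) ≤ l := by exact_mod_cast h1
        linarith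
  obtain ⟨M, hM⟩ := key N
  refine ⟨M, fun j l hl => ?_⟩
  rcases Nat.lt_or_ge j N with h | h
  · rw [hM j h l hl, smul_zero]
  · rw [dp_zero_of_le hN h, map_zero, smul_zero]

lemma trunc_ψ (i : ι) (L : E →ₗ[R] E) (hL : LN L) (v : E) (m0 : ℤ) (b : ℕ → ℂ) :
    ∃ M : ℕ, ∀ j l, M ≤ l → b l • X.ψ i (m0 + l) (dp L j v) = 0 := by
  obtain ⟨N, hN⟩ := hL v
  have key : ∀ n : ℕ, ∃ M : ℕ, ∀ j, j < n → ∀ l : ℕ, M ≤ l → X.ψ i (m0 + l) (dp L j v) = 0 := by
    intro n
    induction n with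
    | zero => exact ⟨0, fun j hj => absurd hj (Nat.not_lt_zero j)⟩
    | succ n ih =>
      obtain ⟨M, hM⟩ := ih
      obtain ⟨Z, hZ⟩ := X.ψ_trunc i (dp L n v)
      refine ⟨max M (Z - m0).toNat, fun j hj l hl => ?_⟩
      rcases Nat.lt_succ_iff_lt_or_eq.mp hj with h | rfl
      · exact hM j h l ((le_max_left _ _).trans hl)
      · refine hZ _ ?_
        have h1 : (Z - m0).toNat ≤ l := (le_max_right _ _).trans hl
        have h2 := Int.self_le_toNat (Z - m0)
        have h3 : ((Z - m0).toNat : ℤ) ≤ l := by exact_mod_cast h1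
        linarith
  obtain ⟨M, hM⟩ := key N
  refine ⟨M, fun j l hl => ?_⟩
  rcases Nat.lt_or_ge j N with h | h
  · rw [hM j h l hl, smul_zero]
  · rw [dp_zero_of_le hN h, map_zero, smul_zero]

/-- `exp(L)` on a creation operator of the even family -/
lemma ex_A_neg (i : ι) (k : ℕ) (t : E) :
    ex (LL X) (LN_LL X) (X.A i (-(k : ℤ) - 1) t)
      = ∑ l ∈ Finset.range (k + 1), ((k + 1).choose l : ℂ)
        • X.A i (-((k - l : ℕ) : ℤ) - 1) (ex (LL X) (LN_LL X) t) := by
  obtain ⟨M, hM1, hM2⟩ := ex_comm (LN_LL X) (fun l => X.A i ((-(k : ℤ) - 1) + l))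
    (fun l => -(((-(k : ℤ) - 1) + l : ℤ) : ℂ)) (fun l => ((k + 1).choose l : ℂ))
    (fun l v => by
      rw [LL_A]
      have e : (-(k : ℤ) - 1) + (l : ℤ) + 1 = (-(k : ℤ) - 1) + ((l + 1 : ℕ) : ℤ) := by
        push_cast; ring
      rw [e])
    (by simp)
    (fun l => by
      rcases Nat.lt_or_ge (k + 1) l with h | h
      · rw [Nat.choose_eq_zero_of_lt h, Nat.choose_eq_zero_of_lt (by omega)]
        simp
      · have h1 := Nat.choose_succ_right_eq (k + 1) l
        have h2 : (((k + 1).choose (l + 1) : ℕ) : ℂ) * ((l : ℂ) + 1)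
            = ((k + 1).choose l : ℂ) * ((k : ℂ) + 1 - l) := by
          have h3 : (((k + 1 - l : ℕ)) : ℂ) = (k : ℂ) + 1 - l := by
            rw [Nat.cast_sub h]; push_cast; ring
          rw [← h3]
          exact_mod_cast h1
        push_cast
        rw [mul_comm ((l : ℂ) + 1), h2]
        ring) t
    (trunc_A X i (LL X) (LN_LL X) t (-(k : ℤ) - 1) _)
  have h4 := hM2 (M + (k + 2)) (by omega)
  have h5 : ((-(k : ℤ) - 1) + ((0 : ℕ) : ℤ)) = -(k : ℤ) - 1 := by simp
  rw [h5] at h4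
  rw [h4]
  have h6 : ∑ l ∈ Finset.range (M + (k + 2)), ((k + 1).choose l : ℂ)
      • X.A i ((-(k : ℤ) - 1) + l) (ex (LL X) (LN_LL X) t)
      = ∑ l ∈ Finset.range (k + 1), ((k + 1).choose l : ℂ)
      • X.A i ((-(k : ℤ) - 1) + l) (ex (LL X) (LN_LL X) t) := by
    rw [show M + (k + 2) = (k + 1) + (M + 1) by ring, Finset.sum_range_add]
    have h7 : ∑ x ∈ Finset.range (M + 1), ((k + 1).choose (k + 1 + x) : ℂ)
        • X.A i ((-(k : ℤ) - 1) + ((k + 1 + x : ℕ) : ℤ)) (ex (LL X) (LN_LL X) t) = 0 := by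
      refine Finset.sum_eq_zero fun x _ => ?_
      rcases Nat.eq_zero_or_pos x with rfl | hx
      · have h8 : ((-(k : ℤ) - 1) + ((k + 1 + 0 : ℕ) : ℤ)) = 0 := by push_cast; ring
        rw [h8, X.A_zero, smul_zero]
      · rw [Nat.choose_eq_zero_of_lt (by omega)]
        simp
    rw [h7, add_zero]
  rw [h6]
  refine Finset.sum_congr rfl fun l hl => ?_
  rw [Finset.mem_range] at hl
  congr 3
  push_cast [Nat.cast_sub (show l ≤ k by omega)]
  ring

/-- `exp(L)` on a creation operator of the odd family -/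
lemma ex_ψ_neg (i : ι) (k : ℕ) (t : E) :
    ex (LL X) (LN_LL X) (X.ψ i (-(k : ℤ) - 1) t)
      = ∑ l ∈ Finset.range (k + 1), (k.choose l : ℂ)
        • X.ψ i (-((k - l : ℕ) : ℤ) - 1) (ex (LL X) (LN_LL X) t) := by
  obtain ⟨M, hM1, hM2⟩ := ex_comm (LN_LL X) (fun l => X.ψ i ((-(k : ℤ) - 1) + l))
    (fun l => -((((-(k : ℤ) - 1) + l : ℤ) : ℂ) + 1)) (fun l => (k.choose l : ℂ))
    (fun l v => by
      rw [LL_ψ]
      have e : (-(k : ℤ) - 1) + (l : ℤ) + 1 = (-(k : ℤ) - 1) + ((l + 1 : ℕ) : ℤ) := by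
        push_cast; ring
      rw [e])
    (by simp)
    (fun l => by
      rcases Nat.lt_or_ge k l with h | h
      · rw [Nat.choose_eq_zero_of_lt h, Nat.choose_eq_zero_of_lt (by omega)]
        simp
      · have h1 := Nat.choose_succ_right_eq k l
        have h2 : ((k.choose (l + 1) : ℕ) : ℂ) * ((l : ℂ) + 1)
            = (k.choose l : ℂ) * ((k : ℂ) - l) := by
          have h3 : (((k - l : ℕ)) : ℂ) = (k : ℂ) - l := by
            rw [Nat.cast_sub h]
          rw [← h3]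
          exact_mod_cast h1
        push_cast
        rw [mul_comm ((l : ℂ) + 1), h2]
        ring) t
    (trunc_ψ X i (LL X) (LN_LL X) t (-(k : ℤ) - 1) _)
  have h4 := hM2 (M + (k + 1)) (by omega)
  have h5 : ((-(k : ℤ) - 1) + ((0 : ℕ) : ℤ)) = -(k : ℤ) - 1 := by simp
  rw [h5] at h4
  rw [h4]
  have h6 : ∑ l ∈ Finset.range (M + (k + 1)), (k.choose l : ℂ)
      • X.ψ i ((-(k : ℤ) - 1) + l) (ex (LL X) (LN_LL X) t)
      = ∑ l ∈ Finset.range (k + 1), (k.choose l : ℂ)
      • X.ψ i ((-(k : ℤ) - 1) + l) (ex (LL X) (LN_LL X) t) := by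
    rw [show M + (k + 1) = (k + 1) + M by ring, Finset.sum_range_add]
    have h7 : ∑ x ∈ Finset.range M, (k.choose (k + 1 + x) : ℂ)
        • X.ψ i ((-(k : ℤ) - 1) + ((k + 1 + x : ℕ) : ℤ)) (ex (LL X) (LN_LL X) t) = 0 := by
      refine Finset.sum_eq_zero fun x _ => ?_
      rw [Nat.choose_eq_zero_of_lt (by omega)]
      simp
    rw [h7, add_zero]
  rw [h6]
  refine Finset.sum_congr rfl fun l hl => ?_
  rw [Finset.mem_range] at hl
  congr 3
  push_cast [Nat.cast_sub (show l ≤ k by omega)]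
  ring

/-- `exp(-L)` on an annihilation operator of the even family -/
lemma ex_A_pos (i : ι) (k : ℕ) (s : E) :
    ∃ M : ℕ, (∀ l, M ≤ l → X.A i ((k : ℤ) + 1 + (l : ℤ)) (ex (-LL X) (LN_neg (LN_LL X)) s) = 0) ∧
      ∀ M', M ≤ M' → ex (-LL X) (LN_neg (LN_LL X)) (X.A i ((k + 1 : ℕ) : ℤ) s)
      = ∑ l ∈ Finset.range M', ((k + l).choose l : ℂ)
        • X.A i ((k : ℤ) + 1 + l) (ex (-LL X) (LN_neg (LN_LL X)) s) := by
  obtain ⟨M, hM1, hM2⟩ := ex_comm (LN_neg (LN_LL X)) (fun l => X.A i (((k : ℤ) + 1) + l))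
    (fun l => ((((k : ℤ) + 1) + l : ℤ) : ℂ)) (fun l => ((k + l).choose l : ℂ))
    (fun l v => by
      rw [LinearMap.neg_apply, LL_A]
      have e : ((k : ℤ) + 1) + (l : ℤ) + 1 = ((k : ℤ) + 1) + ((l + 1 : ℕ) : ℤ) := by
        push_cast; ring
      rw [e, LinearMap.neg_apply, map_neg, neg_smul]
      abel)
    (by simp)
    (fun l => by
      have h1 := Nat.add_one_mul_choose_eq (k + l) l
      have h2 : ((k : ℂ) + l + 1) * ((k + l).choose l : ℂ)
          = ((k + l + 1).choose (l + 1) : ℂ) * ((l : ℂ) + 1) := by exact_mod_cast h1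
      have h3 : k + (l + 1) = k + l + 1 := by ring
      rw [h3]
      push_cast
      linear_combination h2) s
    (trunc_A X i (-LL X) (LN_neg (LN_LL X)) s ((k : ℤ) + 1) _)
  refine ⟨M, fun l hl => ?_, fun M' hM' => ?_⟩
  · have h1 := hM1 l hl
    refine (smul_eq_zero.mp h1).resolve_left ?_
    have : (k + l).choose l ≠ 0 := (Nat.choose_pos (by omega)).ne'
    exact_mod_cast this
  · have h4 := hM2 M' hM'
    have h5 : (((k : ℤ) + 1) + ((0 : ℕ) : ℤ)) = ((k + 1 : ℕ) : ℤ) := by push_cast; ring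
    rw [h5] at h4
    exact h4

/-- `exp(-L)` on an annihilation operator of the odd family -/
lemma ex_ψ_pos (i : ι) (k : ℕ) (s : E) :
    ∃ M : ℕ, (∀ l, M ≤ l → X.ψ i ((k : ℤ) + (l : ℤ)) (ex (-LL X) (LN_neg (LN_LL X)) s) = 0) ∧
      ∀ M', M ≤ M' → ex (-LL X) (LN_neg (LN_LL X)) (X.ψ i (k : ℤ) s)
      = ∑ l ∈ Finset.range M', ((k + l).choose l : ℂ)
        • X.ψ i ((k : ℤ) + l) (ex (-LL X) (LN_neg (LN_LL X)) s) := by
  obtain ⟨M, hM1, hM2⟩ := ex_comm (LN_neg (LN_LL X)) (fun l => X.ψ i ((k : ℤ) + l))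
    (fun l => ((((k : ℤ) + l : ℤ) : ℂ) + 1)) (fun l => ((k + l).choose l : ℂ))
    (fun l v => by
      rw [LinearMap.neg_apply, LL_ψ]
      have e : (k : ℤ) + (l : ℤ) + 1 = (k : ℤ) + ((l + 1 : ℕ) : ℤ) := by
        push_cast; ring
      rw [e, LinearMap.neg_apply, map_neg, neg_smul]
      abel)
    (by simp)
    (fun l => by
      have h1 := Nat.add_one_mul_choose_eq (k + l) l
      have h2 : ((k : ℂ) + l + 1) * ((k + l).choose l : ℂ)
          = ((k + l + 1).choose (l + 1) : ℂ) * ((l : ℂ) + 1) := by exact_mod_cast h1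
      have h3 : k + (l + 1) = k + l + 1 := by ring
      rw [h3]
      push_cast
      linear_combination h2) s
    (trunc_ψ X i (-LL X) (LN_neg (LN_LL X)) s (k : ℤ) _)
  refine ⟨M, fun l hl => ?_, fun M' hM' => ?_⟩
  · have h1 := hM1 l hl
    refine (smul_eq_zero.mp h1).resolve_left ?_
    have : (k + l).choose l ≠ 0 := (Nat.choose_pos (by omega)).ne'
    exact_mod_cast this
  · have h4 := hM2 M' hM'
    have h5 : ((k : ℤ) + ((0 : ℕ) : ℤ)) = (k : ℤ) := by simp
    rw [h5] at h4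
    exact h4

/-- the form -/
def Bf : E →ₗ[R] E →ₗ[R] R :=
  X.P.compl₁₂ (ex (LL X) (LN_LL X)) (ex (-LL X) (LN_neg (LN_LL X)))

lemma Bf_apply (t s : E) : Bf X t s
    = X.P (ex (LL X) (LN_LL X) t) (ex (-LL X) (LN_neg (LN_LL X)) s) := rfl

lemma csmul_left (F : E →ₗ[R] E →ₗ[R] R) (z : ℂ) (u v : E) : F (z • u) v = z • F u v := by
  rw [← algebraMap_smul R z u, map_smul, LinearMap.smul_apply, algebraMap_smul]

lemma vc_LL (v : E) (n : ℕ) : X.vc (((-LL X) ^ (n + 1)) v) = 0 := by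
  rw [pow_succ', Module.End.mul_apply, LinearMap.neg_apply, map_neg, LL_apply, X.vc_g, neg_zero]

lemma Bf_vac (s : E) : Bf X X.vac s = X.vc s := by
  rw [Bf_apply, ex_of_ker (LN_LL X) (by rw [LL_apply, X.g_vac, map_zero]), X.P_vac]
  obtain ⟨N, hN⟩ := LN_neg (LN_LL X) s
  have hN1 : ((-LL X) ^ (N + 1)) s = 0 := pow_zero_of_le hN (Nat.le_succ N)
  rw [ex_apply _ hN1, map_sum, Finset.sum_range_succ', dp_zero]
  have h : ∑ k ∈ Finset.range N, X.vc (dp (-LL X) (k + 1) s) = 0 := by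
    refine Finset.sum_eq_zero fun k _ => ?_
    unfold dp
    rw [lin_csmul, vc_LL, smul_zero]
  rw [h, zero_add]

lemma Bf_ker (t s : E) (ht : X.g t = 0) (hs : X.g s = 0) : Bf X t s = X.P t s := by
  rw [Bf_apply, ex_of_ker (LN_LL X) (by rw [LL_apply, ht, map_zero]),
    ex_of_ker (LN_neg (LN_LL X)) (by rw [LinearMap.neg_apply, LL_apply, hs, map_zero, neg_zero])]

/-- the double sum of the recursion -/
lemma double_sum (k N : ℕ) (w : ℕ → ℂ) (f : ℕ → R) :
    ∑ l ∈ Finset.range (k + 1), w l • ((-1 : ℂ) ^ (k - l)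
      • ∑ j ∈ Finset.range N, ((k - l + j).choose j : ℂ) • f j)
      = ∑ j ∈ Finset.range N, (∑ i ∈ Finset.range (k + 1), (-1 : ℂ) ^ i * w (k - i)
        * ((i + j).choose j : ℂ)) • f j := by
  simp only [Finset.smul_sum, Finset.sum_smul]
  rw [Finset.sum_comm]
  refine Finset.sum_congr rfl fun j _ => ?_
  rw [← Finset.sum_range_reflect]
  refine Finset.sum_congr rfl fun i hi => ?_
  rw [Finset.mem_range] at hi
  have h1 : k + 1 - 1 - i = k - i := by omega
  have h2 : k - (k - i) = i := by omega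
  rw [h1, h2, smul_smul, smul_smul]
  congr 1
  ring

lemma Bf_A (i : ι) (k : ℕ) (t s : E) :
    Bf X (X.A i (-(k : ℤ) - 1) t) s = (-1 : ℂ) ^ k • Bf X t (X.A i (k + 1 : ℕ) s) := by
  rw [Bf_apply, Bf_apply, ex_A_neg]
  obtain ⟨M, hM1, hM2⟩ := ex_A_pos X i k s
  rw [hM2 M le_rfl]
  set t' := ex (LL X) (LN_LL X) t with ht'
  set s' := ex (-LL X) (LN_neg (LN_LL X)) s with hs'
  have htr : ∀ j : ℕ, k + 1 + M ≤ j → X.A i j s' = 0 := by
    intro j hj
    obtain ⟨c, rfl⟩ := Nat.exists_eq_add_of_le hj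
    have h := hM1 (M + c) (by omega)
    have e : ((k + 1 + M + c : ℕ) : ℤ) = (k : ℤ) + 1 + ((M + c : ℕ) : ℤ) := by push_cast; ring
    rw [e]
    exact h
  have e1 : X.P (∑ l ∈ Finset.range (k + 1), ((k + 1).choose l : ℂ)
        • X.A i (-((k - l : ℕ) : ℤ) - 1) t') s'
      = ∑ l ∈ Finset.range (k + 1), ((k + 1).choose l : ℂ) • ((-1 : ℂ) ^ (k - l)
      • ∑ j ∈ Finset.range (k + 1 + M), ((k - l + j).choose j : ℂ) • X.P t' (X.A i j s')) := by
    rw [map_sum, LinearMap.sum_apply]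
    refine Finset.sum_congr rfl fun l _ => ?_
    rw [csmul_left, X.P_A i (k - l) t' s' (k + 1 + M) htr]
  rw [e1, double_sum k (k + 1 + M) (fun l => ((k + 1).choose l : ℂ)) (fun j => X.P t' (X.A i j s'))]
  rw [Finset.sum_range_add, map_sum, Finset.smul_sum]
  have e2 : ∑ j ∈ Finset.range (k + 1), (∑ i ∈ Finset.range (k + 1), (-1 : ℂ) ^ i
      * ((k + 1).choose (k - i) : ℂ) * ((i + j).choose j : ℂ)) • X.P t' (X.A i j s') = 0 := by
    refine Finset.sum_eq_zero fun j hj => ?_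
    rw [Finset.mem_range] at hj
    rcases Nat.eq_zero_or_pos j with rfl | hj0
    · have : X.A i ((0 : ℕ) : ℤ) s' = 0 := X.A_zero i s'
      rw [this, map_zero, smul_zero]
    · obtain ⟨l, rfl⟩ := Nat.exists_eq_add_of_le' hj0
      have h := altS k l
      have h2 : ∑ i ∈ Finset.range (k + 1), (-1 : ℂ) ^ i * ((k + 1).choose (k - i) : ℂ)
          * ((i + (l + 1)).choose (l + 1) : ℂ) = 0 := by
        rw [Nat.choose_eq_zero_of_lt (by omega : l < k)] at h
        rw [Nat.cast_zero, mul_zero] at h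
        rw [← h]
        refine Finset.sum_congr rfl fun i hi => ?_
        rw [Finset.mem_range] at hi
        rw [Nat.choose_symm_of_eq_add (by omega : k + 1 = (k - i) + (i + 1))]
      rw [h2, zero_smul]
  rw [e2, zero_add]
  refine Finset.sum_congr rfl fun x _ => ?_
  have h := altS k (k + x)
  have h3 : ∑ i ∈ Finset.range (k + 1), (-1 : ℂ) ^ i * ((k + 1).choose (k - i) : ℂ)
      * ((i + (k + 1 + x)).choose (k + 1 + x) : ℂ) = (-1 : ℂ) ^ k * ((k + x).choose x : ℂ) := by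
    rw [show (k + x).choose x = (k + x).choose k by rw [Nat.choose_symm_add], ← h]
    refine Finset.sum_congr rfl fun i hi => ?_
    rw [Finset.mem_range] at hi
    rw [Nat.choose_symm_of_eq_add (by omega : k + 1 = (k - i) + (i + 1)),
      show k + 1 + x = k + x + 1 by ring]
  rw [h3, lin_csmul, smul_smul]
  congr 4

lemma σ_ex (t : E) : ex (LL X) (LN_LL X) (X.σ t) = X.σ (ex (LL X) (LN_LL X) t) := by
  obtain ⟨N, hN⟩ := LN_LL X t
  have hcomm : ∀ n v, ((LL X) ^ n) (X.σ v) = X.σ (((LL X) ^ n) v) := by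
    intro n
    induction n with
    | zero => intro v; simp
    | succ n ih =>
      intro v
      have h1 : LL X (X.σ v) = X.σ (LL X v) := by
        have h2 : ∀ u, X.g (X.σ u) = -X.σ (X.g u) := fun u => by rw [X.σ_g, neg_neg]
        rw [LL_apply, LL_apply, h2, map_neg, h2, neg_neg]
      rw [pow_succ, Module.End.mul_apply, Module.End.mul_apply, h1, ih]
  have hN' : ((LL X) ^ N) (X.σ t) = 0 := by rw [hcomm, hN, map_zero]
  rw [ex_apply _ hN', ex_apply _ hN, map_sum]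
  refine Finset.sum_congr rfl fun n _ => ?_
  unfold dp
  rw [lin_csmul, hcomm]

lemma Bf_ψ (i : ι) (k : ℕ) (t s : E) :
    Bf X (X.ψ i (-(k : ℤ) - 1) t) s = (-1 : ℂ) ^ k • Bf X (X.σ t) (X.ψ i k s) := by
  rw [Bf_apply, Bf_apply, ex_ψ_neg, σ_ex]
  obtain ⟨M, hM1, hM2⟩ := ex_ψ_pos X i k s
  rw [hM2 M le_rfl]
  set t' := ex (LL X) (LN_LL X) t with ht'
  set s' := ex (-LL X) (LN_neg (LN_LL X)) s with hs'
  have htr : ∀ j : ℕ, k + M ≤ j → X.ψ i j s' = 0 := by
    intro j hj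
    obtain ⟨c, rfl⟩ := Nat.exists_eq_add_of_le hj
    have h := hM1 (M + c) (by omega)
    have e : ((k + M + c : ℕ) : ℤ) = (k : ℤ) + ((M + c : ℕ) : ℤ) := by push_cast; ring
    rw [e]
    exact h
  have e1 : X.P (∑ l ∈ Finset.range (k + 1), (k.choose l : ℂ)
        • X.ψ i (-((k - l : ℕ) : ℤ) - 1) t') s'
      = ∑ l ∈ Finset.range (k + 1), (k.choose l : ℂ) • ((-1 : ℂ) ^ (k - l)
      • ∑ j ∈ Finset.range (k + M), ((k - l + j).choose j : ℂ) • X.P (X.σ t') (X.ψ i j s')) := by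
    rw [map_sum, LinearMap.sum_apply]
    refine Finset.sum_congr rfl fun l _ => ?_
    rw [csmul_left, X.P_ψ i (k - l) t' s' (k + M) htr]
  rw [e1, double_sum k (k + M) (fun l => (k.choose l : ℂ)) (fun j => X.P (X.σ t') (X.ψ i j s'))]
  have hU : ∀ j, ∑ i ∈ Finset.range (k + 1), (-1 : ℂ) ^ i * (k.choose (k - i) : ℂ)
      * ((i + j).choose j : ℂ) = (-1 : ℂ) ^ k * (j.choose k : ℂ) := by
    intro j
    rw [← altU k j]
    refine Finset.sum_congr rfl fun i hi => ?_
    rw [Finset.mem_range] at hi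
    rw [Nat.choose_symm (by omega : i ≤ k)]
  rw [Finset.sum_range_add, map_sum, Finset.smul_sum]
  have e2 : ∑ j ∈ Finset.range k, (∑ i ∈ Finset.range (k + 1), (-1 : ℂ) ^ i
      * (k.choose (k - i) : ℂ) * ((i + j).choose j : ℂ)) • X.P (X.σ t') (X.ψ i j s') = 0 := by
    refine Finset.sum_eq_zero fun j hj => ?_
    rw [Finset.mem_range] at hj
    rw [hU, Nat.choose_eq_zero_of_lt hj]
    simp
  rw [e2, zero_add]
  refine Finset.sum_congr rfl fun x _ => ?_
  rw [hU, lin_csmul, smul_smul, Nat.choose_symm_add]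
  congr 4

end P1

variable (X : PD R C ι E)

theorem exists_B : ∃ B : E →ₗ[R] E →ₗ[R] R,
    (∀ s, B X.vac s = X.vc s) ∧
    (∀ i (k : ℕ) t s, B (X.A i (-(k : ℤ) - 1) t) s = (-1 : ℂ) ^ k • B t (X.A i (k + 1 : ℕ) s)) ∧
    (∀ i (k : ℕ) t s, B (X.ψ i (-(k : ℤ) - 1) t) s = (-1 : ℂ) ^ k • B (X.σ t) (X.ψ i k s)) ∧
    (∀ t s, X.g t = 0 → X.g s = 0 → B t s = X.P t s) :=
  ⟨P1.Bf X, P1.Bf_vac X, P1.Bf_A X, P1.Bf_ψ X, P1.Bf_ker X⟩

end PD
end Pool.Agent.AA3
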