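import Mathlib
import Pool.Agent.Lib.MP_aa3aaf_al.PosForm

/-!
Positivity argument: the hermitian form `(-1)^(h/2) B(θ s, s)` is nonnegative and definite on the
plus sector (task P2).
-/

set_option autoImplicit false
open scoped BigOperators
noncomputable section
namespace Pool.Agent.AA3

namespace PosR
variable {R : Type*} [CommRing R] [Algebra ℂ R] (C : PosR R)

lemma p2_nn0 : C.nn 0 := by
  have h := C.nn_conj 0
  rwa [mul_zero] at h

lemma p2_nn_sum {κ : Type*} (t : Finset κ) (f : κ → R) (hf : ∀ k ∈ t, C.nn (f k)) :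
    C.nn (∑ k ∈ t, f k) := by
  classical
  induction t using Finset.induction_on with
  | empty => simpa using C.p2_nn0
  | insert a t ha ih =>
    rw [Finset.sum_insert ha]
    exact C.nn_add _ _ (hf a (Finset.mem_insert_self _ _))
      (ih fun k hk => hf k (Finset.mem_insert_of_mem hk))

lemma p2_sum_zero {κ : Type*} (t : Finset κ) (f : κ → R) (hf : ∀ k ∈ t, C.nn (f k))
    (h0 : ∑ k ∈ t, f k = 0) : ∀ k ∈ t, f k = 0 := by
  classical
  induction t using Finset.induction_on with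
  | empty => intro k hk; exact absurd hk (Finset.notMem_empty _)
  | insert a t ha ih =>
    rw [Finset.sum_insert ha] at h0
    have hf' : ∀ k ∈ t, C.nn (f k) := fun k hk => hf k (Finset.mem_insert_of_mem hk)
    obtain ⟨h1, h2⟩ := C.nn_zero _ _ (hf a (Finset.mem_insert_self _ _)) (C.p2_nn_sum t f hf') h0
    intro k hk
    rcases Finset.mem_insert.mp hk with rfl | hk
    · exact h1
    · exact ih hf' h2 k hk

end PosR

namespace PD
variable {R : Type*} [CommRing R] [Algebra ℂ R] {C : PosR R} {ι : Type*} [Fintype ι]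
    {E : Type*} [AddCommGroup E] [Module ℂ E] [Module R E] [IsScalarTower ℂ R E]
    (X : PD R C ι E)

namespace P2

/-- the sign `(-1)^(h/2)` -/
def sg (h : ℕ) : ℂ := (-1) ^ (h / 2)

lemma form_smul_left (B : E →ₗ[R] E →ₗ[R] R) (z : ℂ) (u v : E) : B (z • u) v = z • B u v := by
  rw [← algebraMap_smul R z u, map_smul, LinearMap.smul_apply, algebraMap_smul]

lemma θ_csmul (z : ℂ) (v : E) : X.θ (z • v) = star z • X.θ v := by
  rw [← algebraMap_smul R z v, X.θ_smul, C.conj_alg, algebraMap_smul]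

lemma neg_one_pow_of_even {a b : ℕ} (h : Even (a + b)) : (-1 : ℂ) ^ a = (-1) ^ b := by
  rcases Nat.even_or_odd a with ha | ha
  · rw [ha.neg_one_pow, ((Nat.even_add.mp h).mp ha).neg_one_pow]
  · have hb : Odd b := by
      rw [← Nat.not_even_iff_odd] at ha ⊢
      intro hb
      exact ha ((Nat.even_add.mp h).mpr hb)
    rw [ha.neg_one_pow, hb.neg_one_pow]

lemma sg_A {h k : ℕ} (hk : 2 * (k + 1) ≤ h) : (-1 : ℂ) ^ (k + 1) * sg h = sg (h - 2 * (k + 1)) := by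
  unfold sg
  rw [← pow_add]
  apply neg_one_pow_of_even
  have : (h - 2 * (k + 1)) / 2 = h / 2 - (k + 1) := by omega
  rw [this]
  have h2 : k + 1 ≤ h / 2 := by omega
  have e : k + 1 + h / 2 + (h / 2 - (k + 1)) = 2 * (h / 2) := by omega
  rw [e]
  exact even_two_mul _

lemma sg_ψ {h k : ℕ} (hk : 2 * k + 1 ≤ h) :
    (-1 : ℂ) ^ (k + (h - (2 * k + 1))) * sg h = sg (h - (2 * k + 1)) := by
  unfold sg
  rw [← pow_add]
  apply neg_one_pow_of_even
  rcases Nat.even_or_odd' h with ⟨a, rfl | rfl⟩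
  · refine ⟨2 * a - (k + 1), ?_⟩
    omega
  · refine ⟨2 * a - k, ?_⟩
    omega

lemma map_csmul (f : E →ₗ[R] E) (z : ℂ) (v : E) : f (z • v) = z • f v := by
  rw [← algebraMap_smul R z v, map_smul, algebraMap_smul]

variable {X}

lemma deg_A {s : E} {h : ℕ} (hH : X.H s = (h : ℂ) • s) (i : ι) (k : ℕ) :
    X.H (X.A i (k + 1 : ℕ) s) = (((h : ℤ) - 2 * (k + 1) : ℤ) : ℂ) • X.A i (k + 1 : ℕ) s := by
  have h1 := X.H_A i ((k + 1 : ℕ) : ℤ) s
  rw [hH, map_csmul, sub_eq_iff_eq_add] at h1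
  rw [h1, ← add_smul]
  congr 1
  push_cast
  ring

lemma deg_ψ {s : E} {h : ℕ} (hH : X.H s = (h : ℂ) • s) (i : ι) (k : ℕ) :
    X.H (X.ψ i k s) = (((h : ℤ) - (2 * k + 1) : ℤ) : ℂ) • X.ψ i k s := by
  have h1 := X.H_ψ i (k : ℤ) s
  rw [hH, map_csmul, sub_eq_iff_eq_add] at h1
  rw [h1, ← add_smul]
  congr 1
  push_cast
  ring

lemma deg_A_nat {s : E} {h : ℕ} (hH : X.H s = (h : ℂ) • s) (i : ι) {k : ℕ} (hk : 2 * (k + 1) ≤ h) :
    X.H (X.A i (k + 1 : ℕ) s) = ((h - 2 * (k + 1) : ℕ) : ℂ) • X.A i (k + 1 : ℕ) s := by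
  rw [deg_A hH]
  congr 1
  have : ((h : ℤ) - 2 * (k + 1) : ℤ) = ((h - 2 * (k + 1) : ℕ) : ℤ) := by omega
  rw [this]
  exact Int.cast_natCast _

lemma deg_ψ_nat {s : E} {h : ℕ} (hH : X.H s = (h : ℂ) • s) (i : ι) {k : ℕ} (hk : 2 * k + 1 ≤ h) :
    X.H (X.ψ i k s) = ((h - (2 * k + 1) : ℕ) : ℂ) • X.ψ i k s := by
  rw [deg_ψ hH]
  congr 1
  have : ((h : ℤ) - (2 * k + 1) : ℤ) = ((h - (2 * k + 1) : ℕ) : ℤ) := by omega
  rw [this]
  exact Int.cast_natCast _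

lemma zero_A {s : E} {h : ℕ} (hH : X.H s = (h : ℂ) • s) (i : ι) {k : ℕ} (hk : h < 2 * (k + 1)) :
    X.A i (k + 1 : ℕ) s = 0 :=
  X.H_neg _ ((h : ℤ) - 2 * (k + 1)) (by omega) (deg_A hH i k)

lemma zero_ψ {s : E} {h : ℕ} (hH : X.H s = (h : ℂ) • s) (i : ι) {k : ℕ} (hk : h < 2 * k + 1) :
    X.ψ i k s = 0 :=
  X.H_neg _ ((h : ℤ) - (2 * k + 1)) (by omega) (deg_ψ hH i k)

/-- the recursion for the form, twice the weight times the value -/
lemma form_rec {s : E} {h : ℕ} (hs : s ∈ X.sec) (hH : X.H s = (h : ℂ) • s)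
    {B : E →ₗ[R] E →ₗ[R] R}
    (hA : ∀ i (k : ℕ) t s, B (X.A i (-(k : ℤ) - 1) t) s = (-1 : ℂ) ^ k • B t (X.A i (k + 1 : ℕ) s))
    (hψ : ∀ i (k : ℕ) t s, B (X.ψ i (-(k : ℤ) - 1) t) s = (-1 : ℂ) ^ k • B (X.σ t) (X.ψ i k s)) :
    (h : ℂ) • B (X.θ s) s = ∑ i, ∑ k ∈ Finset.range h,
      ((-1 : ℂ) ^ (k + 1) • B (X.θ (X.A i (k + 1 : ℕ) s)) (X.A i (k + 1 : ℕ) s)
        + ((k : ℂ) + 1 / 2) • ((-1 : ℂ) ^ k • B (X.θ (X.σ (X.ψ i k s))) (X.ψ i k s))) := by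
  have h1 := X.H_eq s hs h fun i k hk => ⟨zero_A hH i (by omega), zero_ψ hH i (by omega)⟩
  rw [hH] at h1
  have h2 : (h : ℂ) • X.θ s = X.θ ((h : ℂ) • s) := by
    rw [θ_csmul]
    congr 1
    simp
  rw [← form_smul_left, h2, h1]
  simp only [map_sum, map_add, LinearMap.sum_apply, LinearMap.add_apply]
  refine Finset.sum_congr rfl fun i _ => Finset.sum_congr rfl fun k _ => ?_
  congr 1
  · rw [X.θ_A, map_neg, LinearMap.neg_apply, hA, pow_succ, mul_neg_one, neg_smul]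
  · rw [θ_csmul, X.θ_ψ, form_smul_left, hψ, X.θ_σ]
    congr 1
    simp

theorem main {B : E →ₗ[R] E →ₗ[R] R}
    (hvac : ∀ s, B X.vac s = X.vc s)
    (hA : ∀ i (k : ℕ) t s, B (X.A i (-(k : ℤ) - 1) t) s = (-1 : ℂ) ^ k • B t (X.A i (k + 1 : ℕ) s))
    (hψ : ∀ i (k : ℕ) t s, B (X.ψ i (-(k : ℤ) - 1) t) s = (-1 : ℂ) ^ k • B (X.σ t) (X.ψ i k s)) :
    ∀ (h : ℕ) (s : E), s ∈ X.sec → X.H s = (h : ℂ) • s →
      C.nn (sg h • B (X.θ s) s) ∧ (sg h • B (X.θ s) s = 0 → s = 0) := by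
  intro h
  induction h using Nat.strong_induction_on with
  | _ h ih =>
  intro s hs hH
  rcases Nat.eq_zero_or_pos h with rfl | hpos
  · have h0 : X.H s = 0 := by rw [hH]; simp
    have h1 := X.H_zero s h0
    have h2 : sg 0 • B (X.θ s) s = C.conj (X.vc s) * X.vc s := by
      have h3 : X.θ s = C.conj (X.vc s) • X.vac := by
        conv_lhs => rw [h1]
        rw [X.θ_smul, X.θ_vac]
      rw [h3, map_smul, LinearMap.smul_apply, hvac]
      simp [sg]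
    rw [h2]
    refine ⟨C.nn_conj _, fun h4 => ?_⟩
    rw [h1, C.conj_zero _ h4, zero_smul]
  · -- the two kinds of terms
    have tA : ∀ i (k : ℕ), C.nn (sg h • ((-1 : ℂ) ^ (k + 1)
        • B (X.θ (X.A i (k + 1 : ℕ) s)) (X.A i (k + 1 : ℕ) s))) ∧
        (sg h • ((-1 : ℂ) ^ (k + 1)
        • B (X.θ (X.A i (k + 1 : ℕ) s)) (X.A i (k + 1 : ℕ) s)) = 0 → X.A i (k + 1 : ℕ) s = 0) := by
      intro i k
      rcases Nat.lt_or_ge h (2 * (k + 1)) with hk | hk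
      · rw [zero_A hH i hk]
        simp [C.p2_nn0]
      · rw [smul_smul, mul_comm, sg_A hk]
        have hsec : X.A i (k + 1 : ℕ) s ∈ X.sec := X.sec_A i (k + 1) s hs
        exact ih (h - 2 * (k + 1)) (by omega) _ hsec (deg_A_nat hH i hk)
    have tψ : ∀ i (k : ℕ), C.nn (sg h • (((k : ℂ) + 1 / 2) • ((-1 : ℂ) ^ k
        • B (X.θ (X.σ (X.ψ i k s))) (X.ψ i k s)))) ∧
        (sg h • (((k : ℂ) + 1 / 2) • ((-1 : ℂ) ^ k
        • B (X.θ (X.σ (X.ψ i k s))) (X.ψ i k s))) = 0 → X.ψ i k s = 0) := by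
      intro i k
      rcases Nat.lt_or_ge h (2 * k + 1) with hk | hk
      · rw [zero_ψ hH i hk]
        simp [C.p2_nn0]
      · have hdeg := deg_ψ_nat hH i hk
        have hσ := X.σ_H _ _ hdeg
        have e1 : sg h • (((k : ℂ) + 1 / 2) • ((-1 : ℂ) ^ k
            • B (X.θ (X.σ (X.ψ i k s))) (X.ψ i k s)))
            = ((k : ℂ) + 1 / 2) • (sg (h - (2 * k + 1)) • B (X.θ (X.ψ i k s)) (X.ψ i k s)) := by
          rw [hσ, θ_csmul, form_smul_left, ← sg_ψ hk, pow_add]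
          have e2 : star ((-1 : ℂ) ^ (h - (2 * k + 1))) = (-1 : ℂ) ^ (h - (2 * k + 1)) := by
            simp
          rw [e2]
          simp only [smul_smul]
          congr 1
          ring
        rw [e1]
        have e3 : ((k : ℂ) + 1 / 2) = (((k : ℝ) + 1 / 2 : ℝ) : ℂ) := by push_cast; ring
        have hsec : X.ψ i k s ∈ X.sec := X.sec_ψ i k s hs
        obtain ⟨g1, g2⟩ := ih (h - (2 * k + 1)) (by omega) _ hsec hdeg
        rw [e3]
        refine ⟨C.nn_smul _ _ (by positivity) g1, fun h0 => g2 ?_⟩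
        have hne : (((k : ℝ) + 1 / 2 : ℝ) : ℂ) ≠ 0 := by
          have : ((k : ℝ) + 1 / 2 : ℝ) ≠ 0 := by positivity
          exact_mod_cast this
        exact (smul_eq_zero.mp h0).resolve_left hne
    have hrec := form_rec hs hH hA hψ
    have hsum : (h : ℂ) • (sg h • B (X.θ s) s) = ∑ i, ∑ k ∈ Finset.range h,
        (sg h • ((-1 : ℂ) ^ (k + 1) • B (X.θ (X.A i (k + 1 : ℕ) s)) (X.A i (k + 1 : ℕ) s))
        + sg h • (((k : ℂ) + 1 / 2) • ((-1 : ℂ) ^ k • B (X.θ (X.σ (X.ψ i k s))) (X.ψ i k s)))) := by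
      rw [smul_comm, hrec]
      simp only [Finset.smul_sum, smul_add]
    have hh0 : ((h : ℝ) : ℂ) ≠ 0 := by
      have : (h : ℝ) ≠ 0 := by positivity
      exact_mod_cast this
    have hcast : (h : ℂ) = ((h : ℝ) : ℂ) := by push_cast; rfl
    have hnnk : ∀ i, ∀ k ∈ Finset.range h, C.nn
        (sg h • ((-1 : ℂ) ^ (k + 1) • B (X.θ (X.A i (k + 1 : ℕ) s)) (X.A i (k + 1 : ℕ) s))
        + sg h • (((k : ℂ) + 1 / 2) • ((-1 : ℂ) ^ k • B (X.θ (X.σ (X.ψ i k s))) (X.ψ i k s)))) :=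
      fun i k _ => C.nn_add _ _ (tA i k).1 (tψ i k).1
    have hnni : ∀ i ∈ (Finset.univ : Finset ι), C.nn (∑ k ∈ Finset.range h,
        (sg h • ((-1 : ℂ) ^ (k + 1) • B (X.θ (X.A i (k + 1 : ℕ) s)) (X.A i (k + 1 : ℕ) s))
        + sg h • (((k : ℂ) + 1 / 2) • ((-1 : ℂ) ^ k • B (X.θ (X.σ (X.ψ i k s))) (X.ψ i k s))))) :=
      fun i _ => C.p2_nn_sum _ _ (hnnk i)
    refine ⟨?_, fun h0 => ?_⟩
    · have h6 : sg h • B (X.θ s) s = (((h : ℝ)⁻¹ : ℝ) : ℂ) • ((h : ℂ) • (sg h • B (X.θ s) s)) := by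
        rw [hcast, smul_smul]
        push_cast
        have : ((h : ℝ) : ℂ) = (h : ℂ) := by push_cast; rfl
        rw [inv_mul_cancel₀ (by rw [← this]; exact hh0), one_smul]
      rw [h6]
      refine C.nn_smul _ _ (by positivity) ?_
      rw [hsum]
      exact C.p2_nn_sum _ _ hnni
    · rw [h0, smul_zero] at hsum
      have h7 := C.p2_sum_zero _ _ hnni hsum.symm
      have h8 : ∀ i, ∀ k ∈ Finset.range h, X.A i (k + 1 : ℕ) s = 0 ∧ X.ψ i k s = 0 := by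
        intro i k hk
        have h9 := C.p2_sum_zero _ _ (hnnk i) (h7 i (Finset.mem_univ _)) k hk
        obtain ⟨h10, h11⟩ := C.nn_zero _ _ (tA i k).1 (tψ i k).1 h9
        exact ⟨(tA i k).2 h10, (tψ i k).2 h11⟩
      have h12 := X.H_eq s hs h fun i k hk => ⟨zero_A hH i (by omega), zero_ψ hH i (by omega)⟩
      rw [hH] at h12
      have h13 : ∑ i, ∑ k ∈ Finset.range h,
          (X.A i (-(k : ℤ) - 1) (X.A i (k + 1 : ℕ) s)
          + ((k : ℂ) + 1 / 2) • X.ψ i (-(k : ℤ) - 1) (X.ψ i k s)) = 0 := by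
        refine Finset.sum_eq_zero fun i _ => Finset.sum_eq_zero fun k hk => ?_
        obtain ⟨h14, h15⟩ := h8 i k hk
        rw [h14, h15, map_zero, map_zero, smul_zero, add_zero]
      rw [h13, hcast] at h12
      exact (smul_eq_zero.mp h12).resolve_left hh0

end P2

open P2 in
/-- positivity, from the existence of the form `B` (task P1, `exists_B`) -/
theorem positivity_of (hB : ∃ B : E →ₗ[R] E →ₗ[R] R,
    (∀ s, B X.vac s = X.vc s) ∧
    (∀ i (k : ℕ) t s, B (X.A i (-(k : ℤ) - 1) t) s = (-1 : ℂ) ^ k • B t (X.A i (k + 1 : ℕ) s)) ∧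
    (∀ i (k : ℕ) t s, B (X.ψ i (-(k : ℤ) - 1) t) s = (-1 : ℂ) ^ k • B (X.σ t) (X.ψ i k s)) ∧
    (∀ t s, X.g t = 0 → X.g s = 0 → B t s = X.P t s))
    (s : E) (h : ℕ) (hs : s ∈ X.sec) (hH : X.H s = (h : ℂ) • s) (hg : X.g s = 0)
    (hP : X.P (X.θ s) s = 0) : s = 0 := by
  obtain ⟨B, hvac, hA, hψ, hBP⟩ := hB
  have h1 : X.g (X.θ s) = 0 := by
    have h2 := X.θ_g s
    rw [hg, map_zero] at h2
    exact neg_eq_zero.mp h2.symm
  have h3 : B (X.θ s) s = 0 := by rw [hBP _ _ h1 hg, hP]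
  refine (main hvac hA hψ h s hs hH).2 ?_
  rw [h3, smul_zero]

theorem positivity (s : E) (h : ℕ) (hs : s ∈ X.sec) (hH : X.H s = (h : ℂ) • s) (hg : X.g s = 0)
    (hP : X.P (X.θ s) s = 0) : s = 0 :=
  X.positivity_of X.exists_B s h hs hH hg hP

end PD
end Pool.Agent.AA3
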