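import Pool.Agent.Lib.MP_aa3aaf_al.Flat1
import Pool.Agent.Lib.MP_aa3aaf_al.Flat2
import Pool.Agent.Lib.MP_aa3aaf_al.TwCD
import Pool.Agent.Lib.MP_aa3aaf_al.PosMain

/-!
Positivity in the flat model: construction of the abstract data `PD` from the flat model.
-/

set_option autoImplicit false
open scoped BigOperators
noncomputable section
namespace Pool.Agent.AA3
namespace Flat

section Wt
variable {n : ℕ} {R : Type*} [CommRing R] [Algebra ℂ R]

/-- twice the conformal weight of a monomial -/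
def wtN (w : Mon n) : ℕ :=
  (w.1.map fun p => 2 + 2 * p.2).sum + (w.2.1.map fun p => 2 + 2 * p.2).sum
    + ∑ t ∈ w.2.2, (1 + 2 * (ofLex (ofLex t).2).2)

lemma msum_cast (s : Multiset (Bl n)) :
    (s.map fun p => (2 : ℂ) + 2 * (p.2 : ℂ)).sum
      = (((s.map fun p => 2 + 2 * p.2).sum : ℕ) : ℂ) := by
  induction s using Multiset.induction_on with
  | empty => simp
  | cons a s ih => simp [Multiset.map_cons, Multiset.sum_cons, ih]

lemma wgt_eq (w : Mon n) : wgt 2 1 2 w = ((wtN w : ℕ) : ℂ) := by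
  have h1 : (w.2.1.map fun p => (2 * 2 - 2 : ℂ) + 2 * (p.2 : ℂ)).sum
      = (((w.2.1.map fun p => 2 + 2 * p.2).sum : ℕ) : ℂ) := by
    rw [← msum_cast]
    congr 1
    apply Multiset.map_congr rfl
    intro p _
    ring
  have h2 : (∑ t ∈ w.2.2, (if (ofLex t).1 = false then (1 : ℂ) else 2 - 1))
      + ∑ t ∈ w.2.2, (2 : ℂ) * ((ofLex (ofLex t).2).2 : ℂ)
      = ((∑ t ∈ w.2.2, (1 + 2 * (ofLex (ofLex t).2).2) : ℕ) : ℂ) := by
    rw [← Finset.sum_add_distrib]
    push_cast
    apply Finset.sum_congr rfl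
    intro t _
    split_ifs
    · ring
    · ring
  rw [wgt, h1, msum_cast, add_assoc, h2, wtN]
  push_cast
  ring

lemma wtN_par (w : Mon n) : (-1 : ℂ) ^ (wtN w) = (-1 : ℂ) ^ w.2.2.card := by
  have h : ∀ s : Multiset (Bl n), (-1 : ℂ) ^ ((s.map fun p => 2 + 2 * p.2).sum) = 1 := by
    intro s
    induction s using Multiset.induction_on with
    | empty => simp
    | cons a s ih =>
      rw [Multiset.map_cons, Multiset.sum_cons, pow_add, ih, mul_one, ← mul_one_add, pow_mul]
      simp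
  have h3 : (-1 : ℂ) ^ (∑ t ∈ w.2.2, (1 + 2 * (ofLex (ofLex t).2).2)) = (-1 : ℂ) ^ w.2.2.card := by
    rw [Finset.sum_add_distrib, pow_add, ← Finset.mul_sum, pow_mul]
    simp
  rw [wtN, pow_add, pow_add, h, h, h3]
  ring

lemma HE_single (w : Mon n) (r : R) :
    HE n R (Finsupp.single w r) = ((wtN w : ℕ) : ℂ) • Finsupp.single w r := by
  simp only [HE, dg, Finsupp.lsum_apply, wgt_eq, zero_add]
  rw [Finsupp.sum_single_index (by simp)]
  simp

lemma HE_smulR (r : R) (v : EE n R) : HE n R (r • v) = r • HE n R v := by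
  induction v using Finsupp.induction_linear with
  | zero => simp
  | add f g hf hg => rw [smul_add, map_add, map_add, hf, hg, smul_add]
  | single w a =>
    rw [Finsupp.smul_single, HE_single, HE_single, smul_comm r, Finsupp.smul_single r]

lemma HE_apply (v : EE n R) (w : Mon n) : HE n R v w = ((wtN w : ℕ) : ℂ) • v w := by
  classical
  induction v using Finsupp.induction_linear with
  | zero => simp
  | add f g hf hg => rw [map_add, Finsupp.add_apply, hf, hg, Finsupp.add_apply, smul_add]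
  | single w' a =>
    rw [HE_single, Finsupp.smul_apply, Finsupp.single_apply]
    split_ifs with h
    · rw [h]
    · simp

lemma sgE_single (w : Mon n) (r : R) :
    sgE n R (Finsupp.single w r) = (-1 : ℂ) ^ w.2.2.card • Finsupp.single w r := by
  simp only [sgE, Finsupp.linearCombination_single, Finsupp.smul_single, smul_eq_mul]
  congr 1
  rw [Algebra.smul_def, map_pow, map_neg, map_one, mul_comm]

lemma sgE_apply (v : EE n R) (w : Mon n) : sgE n R v w = (-1 : ℂ) ^ w.2.2.card • v w := by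
  classical
  induction v using Finsupp.induction_linear with
  | zero => simp
  | add f g hf hg => rw [map_add, Finsupp.add_apply, hf, hg, Finsupp.add_apply, smul_add]
  | single w' a =>
    rw [sgE_single, Finsupp.smul_apply, Finsupp.single_apply]
    split_ifs with h
    · rw [h]
    · simp

end Wt

section Pairing
variable {n : ℕ} {R : Type*} [CommRing R] [Algebra ℂ R]

/-- a map commuting with scalars, as an `R`-linear map -/
def toR (f : EE n R →ₗ[ℂ] EE n R) (h : ∀ (r : R) (v : EE n R), f (r • v) = r • f v) :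
    EE n R →ₗ[R] EE n R where
  toFun := f
  map_add' := f.map_add
  map_smul' := h

@[simp] lemma toR_apply (f : EE n R →ₗ[ℂ] EE n R)
    (h : ∀ (r : R) (v : EE n R), f (r • v) = r • f v) (v : EE n R) : toR f h v = f v := rfl

lemma HE_Y0 (a v : EE n R) (h k : ℤ) (ha : HE n R a = (h : ℂ) • a) (hv : HE n R v = (k : ℂ) • v)
    (m : ℤ) : HE n R ((V0 n R).Y a m v) = ((h + k - 2 * (m + 1) : ℤ) : ℂ) • (V0 n R).Y a m v := by
  rw [HE_Y, ha, hv]
  simp only [map_smul, LinearMap.smul_apply, Pi.smul_apply]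
  rw [← add_smul, ← sub_smul]
  push_cast
  rfl

lemma vc_Y0 (a v : EE n R) (h k : ℤ) (ha : HE n R a = (h : ℂ) • a) (hv : HE n R v = (k : ℂ) • v)
    (m : ℤ) (hm : h + k - 2 * (m + 1) ≠ 0) : vc n R ((V0 n R).Y a m v) = 0 :=
  HE_vc _ _ hm (HE_Y0 a v h k ha hv m)

lemma supp_fin (a v : EE n R) :
    (Function.support fun m : ℤ => vc n R ((V0 n R).Y a m v)).Finite := by
  induction a using Finsupp.induction_linear with
  | zero => simp
  | add f g hf hg =>
    refine (hf.union hg).subset fun m hm => ?_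
    by_contra hc
    simp only [Set.mem_union, Function.mem_support, not_or, not_not] at hc
    apply hm
    simp only [map_add, Pi.add_apply, LinearMap.add_apply, hc.1, hc.2, add_zero]
  | single w r =>
    induction v using Finsupp.induction_linear with
    | zero => simp
    | add f g hf hg =>
      refine (hf.union hg).subset fun m hm => ?_
      by_contra hc
      simp only [Set.mem_union, Function.mem_support, not_or, not_not] at hc
      apply hm
      simp only [map_add, hc.1, hc.2, add_zero]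
    | single w' r' =>
      have h1 : HE n R (Finsupp.single w r) = (((wtN w : ℕ) : ℤ) : ℂ) • Finsupp.single w r := by
        rw [HE_single]; push_cast; rfl
      have h2 : HE n R (Finsupp.single w' r') = (((wtN w' : ℕ) : ℤ) : ℂ) • Finsupp.single w' r' := by
        rw [HE_single]; push_cast; rfl
      refine (Set.finite_le_nat 0 |>.image fun _ => ((wtN w : ℤ) + wtN w' - 2) / 2).subset ?_
      intro m hm
      refine ⟨0, by simp, ?_⟩
      by_contra hc
      apply hm
      apply vc_Y0 _ _ _ _ h1 h2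
      intro h0
      apply hc
      simp only
      omega

/-- the pairing `P(a, v) = ∑ₘ vc (aₘ v)` -/
def PP (n : ℕ) (R : Type*) [CommRing R] [Algebra ℂ R] : EE n R →ₗ[R] EE n R →ₗ[R] R :=
  LinearMap.mk₂ R (fun a v => ∑ᶠ m : ℤ, vc n R ((V0 n R).Y a m v))
    (fun a b v => by
      rw [← finsum_add_distrib (supp_fin a v) (supp_fin b v)]
      apply finsum_congr
      intro m
      simp only [map_add, Pi.add_apply, LinearMap.add_apply])
    (fun r a v => by
      rw [smul_finsum' r (supp_fin a v)]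
      apply finsum_congr
      intro m
      rw [(Y_smul r a v m).1, map_smul])
    (fun a v w => by
      rw [← finsum_add_distrib (supp_fin a v) (supp_fin a w)]
      apply finsum_congr
      intro m
      simp only [map_add])
    (fun r a v => by
      rw [smul_finsum' r (supp_fin a v)]
      apply finsum_congr
      intro m
      rw [(Y_smul r a v m).2, map_smul])

lemma PP_apply (a v : EE n R) : PP n R a v = ∑ᶠ m : ℤ, vc n R ((V0 n R).Y a m v) := rfl

lemma PP_vac (v : EE n R) : PP n R (vacE n R) v = vc n R v := by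
  rw [PP_apply, finsum_eq_single _ (-1)]
  · rw [← vsaE_vac (DS.zero n R), (V0 n R).Y_vac, if_pos rfl]
    rfl
  · intro m hm
    rw [← vsaE_vac (DS.zero n R), (V0 n R).Y_vac, if_neg hm]
    simp

lemma bin_neg (k j : ℕ) : (-1 : ℂ) ^ j * bin (-(k : ℤ) - 1) j = ((k + j).choose j : ℂ) := by
  have h : Ring.choose (-(k : ℤ) - 1) j = Int.negOnePow j • ((k + j).choose j : ℤ) := by
    rw [show -(k : ℤ) - 1 = -((k : ℤ) + 1) by ring, Ring.choose_neg]
    congr 1
    rw [show (k : ℤ) + 1 + j - 1 = ((k + j : ℕ) : ℤ) by push_cast; ring, Ring.choose_natCast]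
  rw [bin, h]
  rw [Units.smul_def]
  simp only [Int.negOnePow_def, zpow_natCast, smul_eq_mul]
  push_cast
  rw [← mul_assoc, ← mul_pow]
  simp

/-- the recursion for the pairing -/
lemma PP_rec {p q : ℕ} {a t : EE n R} (hp : (V0 n R).Par p a) (hq : (V0 n R).Par q t)
    (hvc : ∀ (k : ℕ) (v : EE n R), vc n R ((V0 n R).Y a (-(k : ℤ) - 1) v) = 0)
    (k : ℕ) (s : EE n R) (N : ℕ) (hN : ∀ j : ℕ, N ≤ j → (V0 n R).Y a j s = 0) :
    PP n R ((V0 n R).Y a (-(k : ℤ) - 1) t) s =
      ((-1 : ℂ) ^ k * (-1 : ℂ) ^ (p * q)) • ∑ j ∈ Finset.range N,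
        ((k + j).choose j : ℂ) • PP n R t ((V0 n R).Y a j s) := by
  have key : ∀ m : ℤ, vc n R ((V0 n R).Y ((V0 n R).Y a (-(k : ℤ) - 1) t) m s) =
      ∑ j ∈ Finset.range N, (((-1 : ℂ) ^ k * (-1 : ℂ) ^ (p * q)) * ((k + j).choose j : ℂ)) •
        vc n R ((V0 n R).Y t (m - ((k : ℤ) + 1 + j)) ((V0 n R).Y a j s)) := by
    intro m
    obtain ⟨M, hM⟩ := (V0 n R).trunc t s
    have hb : ∀ j : ℕ, max N (M - m).toNat ≤ j →
        (V0 n R).Y t (m + j) s = 0 ∧ (V0 n R).Y a j s = 0 := by
      intro j hj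
      refine ⟨hM _ ?_, hN _ (le_trans (le_max_left _ _) hj)⟩
      have h1 := le_trans (le_max_right _ _) hj
      omega
    rw [(V0 n R).assoc p q a t hp hq (-(k : ℤ) - 1) m s _ hb, map_sum]
    have hsub : Finset.range N ⊆ Finset.range (max N (M - m).toNat) := by
      intro j hj
      rw [Finset.mem_range] at hj ⊢
      exact lt_of_lt_of_le hj (le_max_left _ _)
    symm
    have hsum : ∀ j : ℕ, vc n R (((-1 : ℂ) ^ j * bin (-(k : ℤ) - 1) j) •
          ((V0 n R).Y a (-(k : ℤ) - 1 - j) ((V0 n R).Y t (m + j) s)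
            - ((-1 : ℂ) ^ (-(k : ℤ) - 1) * (-1 : ℂ) ^ (p * q)) •
              (V0 n R).Y t (-(k : ℤ) - 1 + m - j) ((V0 n R).Y a j s)))
        = (((-1 : ℂ) ^ k * (-1 : ℂ) ^ (p * q)) * ((k + j).choose j : ℂ)) •
        vc n R ((V0 n R).Y t (m - ((k : ℤ) + 1 + j)) ((V0 n R).Y a j s)) := by
      intro j
      have e1 : (-(k : ℤ) - 1 - j) = -((k + j : ℕ) : ℤ) - 1 := by push_cast; ring
      have e2 : (-(k : ℤ) - 1 + m - j) = m - ((k : ℤ) + 1 + j) := by ring
      have e3 : (-1 : ℂ) ^ (-(k : ℤ) - 1) = -(-1 : ℂ) ^ k := by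
        rw [zpow_sub₀ (by norm_num), zpow_neg, zpow_natCast, zpow_one, ← inv_pow, div_neg,
          div_one, inv_neg, inv_one]
      rw [bin_neg, e1, e2, e3, LinearMap.map_smul_of_tower, map_sub, hvc, zero_sub,
        LinearMap.map_smul_of_tower, ← neg_smul, smul_smul]
      congr 1
      ring
    simp only [hsum]
    apply Finset.sum_subset hsub
    intro j _ hj
    rw [Finset.mem_range, not_lt] at hj
    rw [hN j hj]
    simp
  rw [PP_apply, finsum_congr key, finsum_sum_comm]
  · rw [Finset.smul_sum]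
    apply Finset.sum_congr rfl
    intro j _
    rw [PP_apply, smul_smul]
    have h1 := finsum_comp_equiv (Equiv.subRight ((k : ℤ) + 1 + j))
      (f := fun m : ℤ => vc n R ((V0 n R).Y t m ((V0 n R).Y a j s)))
    simp only [Equiv.subRight_apply] at h1
    rw [← h1, smul_finsum']
    refine ((supp_fin t ((V0 n R).Y a j s)).preimage
      (f := fun m : ℤ => m - ((k : ℤ) + 1 + j)) ?_).subset ?_
    · intro x _ y _ hxy
      simpa using hxy
    · intro m hm
      exact hm
  · intro j _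
    refine ((supp_fin t ((V0 n R).Y a j s)).preimage
      (f := fun m : ℤ => m - ((k : ℤ) + 1 + j)) ?_).subset ?_
    · intro x _ y _ hxy
      simpa using hxy
    · intro m hm hz
      apply hm
      simp only at hz
      simp only [hz, smul_zero]

end Pairing

section Ops
variable {n : ℕ} {R : Type*} [CommRing R] [Algebra ℂ R] (fr : Frame n R)

lemma Gst_smul (r : R) (v : EE n R) : ((1/2 : ℂ) • (V0 n R).Y (Gst fr) 1) (r • v)
    = r • ((1/2 : ℂ) • (V0 n R).Y (Gst fr) 1) v := by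
  rw [LinearMap.smul_apply, LinearMap.smul_apply, (Y_smul r (Gst fr) v 1).2, smul_comm]

/-- `g = ½ ∑ (A^a ψ^a)₍₁₎` -/
def gg : EE n R →ₗ[R] EE n R := toR ((1/2 : ℂ) • (V0 n R).Y (Gst fr) 1) (Gst_smul fr)

lemma gg_apply (v : EE n R) : gg fr v = (1/2 : ℂ) • (V0 n R).Y (Gst fr) 1 v := rfl


lemma exists_cut (v : EE n R) : ∃ N : ℕ, ∀ a (j : ℕ), N ≤ j →
    ψm fr a j v = 0 ∧ Apm fr a j v = 0 := by
  have h1 : ∀ a, ∃ N : ℕ, ∀ j : ℕ, N ≤ j → ψm fr a j v = 0 ∧ Apm fr a j v = 0 := by
    intro a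
    obtain ⟨N, hN⟩ := (V0 n R).trunc ((G0 n R).ps fr a) v
    obtain ⟨M, hM⟩ := (V0 n R).trunc (Ap fr a) v
    refine ⟨max N.toNat M.toNat, fun j hj => ⟨hN _ ?_, hM _ ?_⟩⟩
    · have := le_trans (le_max_left _ _) hj
      omega
    · have := le_trans (le_max_right _ _) hj
      omega
  choose N hN using h1
  refine ⟨Finset.univ.sup N, fun a j hj => hN a j (le_trans ?_ hj)⟩
  exact Finset.le_sup (f := N) (Finset.mem_univ a)

lemma gg_eq (v : EE n R) (N : ℕ) (hN : ∀ a (j : ℕ), N ≤ j → ψm fr a j v = 0 ∧ Apm fr a j v = 0) :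
    gg fr v = (1/2 : ℂ) • ∑ a, ∑ j ∈ Finset.range N,
      (Apm fr a (-(j : ℤ) - 1) (ψm fr a ((j : ℤ) + 1) v)
        + ψm fr a (-(j : ℤ) - 1) (Apm fr a ((j : ℤ) + 1) v)) := by
  rw [gg_apply]
  congr 1
  rw [Gst, map_sum, Finset.sum_apply, LinearMap.sum_apply]
  apply Finset.sum_congr rfl
  intro a _
  have hb : ∀ j : ℕ, N ≤ j → (V0 n R).Y ((G0 n R).ps fr a) (1 + j) v = 0 ∧
      (V0 n R).Y (Ap fr a) j v = 0 := by
    intro j hj
    refine ⟨?_, (hN a j hj).2⟩
    have := (hN a (j + 1) (le_trans hj (Nat.le_succ j))).1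
    rw [show (1 : ℤ) + j = ((j + 1 : ℕ) : ℤ) by push_cast; ring]
    exact this
  rw [(V0 n R).Y_mul (par_Ap fr a) (par_ps fr a) 1 v N hb]
  rw [Finset.sum_add_distrib, Finset.sum_add_distrib]
  congr 1
  · apply Finset.sum_congr rfl
    intro j _
    rw [show (-1 : ℤ) - j = -(j : ℤ) - 1 by ring, show (1 : ℤ) + j = (j : ℤ) + 1 by ring]
    rfl
  · set f : ℕ → EE n R := fun j => ψm fr a (-(j : ℤ)) (Apm fr a j v) with hf
    have h0 : f 0 = 0 := by
      simp only [hf]
      rw [show ((0 : ℕ) : ℤ) = 0 from rfl, Apm_zero, map_zero]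
    have hNN : f N = 0 := by
      simp only [hf]
      rw [(hN a N le_rfl).2, map_zero]
    have h1 : ∑ j ∈ Finset.range N, f (j + 1) = ∑ j ∈ Finset.range N, f j := by
      have e1 := Finset.sum_range_succ f N
      have e2 := Finset.sum_range_succ' f N
      rw [h0, add_zero] at e2
      rw [hNN, add_zero] at e1
      rw [← e2, e1]
    have h2 : ∀ j : ℕ, (-1 : ℂ) ^ (0 * 1) • (V0 n R).Y ((G0 n R).ps fr a) (1 - 1 - (j : ℤ))
        ((V0 n R).Y (Ap fr a) j v) = f j := by
      intro j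
      rw [show (1 : ℤ) - 1 - (j : ℤ) = -(j : ℤ) by ring]
      simp only [zero_mul, pow_zero, one_smul]
      rfl
    simp only [h2]
    rw [← h1]
    apply Finset.sum_congr rfl
    intro j _
    simp only [hf]
    rw [show -((j + 1 : ℕ) : ℤ) = -(j : ℤ) - 1 by push_cast; ring,
      show ((j + 1 : ℕ) : ℤ) = (j : ℤ) + 1 by push_cast; ring]

lemma gg_A (b : Fin n) (m : ℤ) (v : EE n R) :
    gg fr (Apm fr b m v) - Apm fr b m (gg fr v) = (-(m : ℂ)) • ψm fr b m v := by
  obtain ⟨N1, hN1⟩ := exists_cut fr v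
  obtain ⟨N2, hN2⟩ := exists_cut fr (Apm fr b m v)
  set N := max (max N1 N2) (m.natAbs + 1) with hNdef
  rw [gg_eq fr v N (fun a j hj => hN1 a j (by omega)),
    gg_eq fr (Apm fr b m v) N (fun a j hj => hN2 a j (by omega)), map_smul, ← smul_sub]
  simp only [map_sum]
  rw [← Finset.sum_sub_distrib]
  have h1 : ∀ a, (∑ j ∈ Finset.range N,
      (Apm fr a (-(j : ℤ) - 1) (ψm fr a ((j : ℤ) + 1) (Apm fr b m v))
        + ψm fr a (-(j : ℤ) - 1) (Apm fr a ((j : ℤ) + 1) (Apm fr b m v))))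
      - (∑ j ∈ Finset.range N, Apm fr b m
      (Apm fr a (-(j : ℤ) - 1) (ψm fr a ((j : ℤ) + 1) v)
        + ψm fr a (-(j : ℤ) - 1) (Apm fr a ((j : ℤ) + 1) v)))
      = if a = b then (-(2 * m : ℂ)) • ψm fr b m v else 0 := by
    intro a
    rw [← Finset.sum_sub_distrib]
    have h2 : ∀ j : ℕ, (Apm fr a (-(j : ℤ) - 1) (ψm fr a ((j : ℤ) + 1) (Apm fr b m v))
        + ψm fr a (-(j : ℤ) - 1) (Apm fr a ((j : ℤ) + 1) (Apm fr b m v)))
        - Apm fr b m (Apm fr a (-(j : ℤ) - 1) (ψm fr a ((j : ℤ) + 1) v)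
        + ψm fr a (-(j : ℤ) - 1) (Apm fr a ((j : ℤ) + 1) v))
        = if a = b ∧ ((j : ℤ) + 1 = m ∨ (j : ℤ) + 1 = -m) then (-(2 * m : ℂ)) • ψm fr b m v
          else 0 := by
      intro j
      have r1 := AA fr a b (-(j : ℤ) - 1) m (ψm fr a ((j : ℤ) + 1) v)
      have r2 := AA fr a b ((j : ℤ) + 1) m v
      rw [← Aψ fr b a m ((j : ℤ) + 1) v, map_add, Aψ fr b a m (-(j : ℤ) - 1) (Apm fr a ((j : ℤ) + 1) v)]
      have r3 : ψm fr a (-(j : ℤ) - 1) (Apm fr a ((j : ℤ) + 1) (Apm fr b m v))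
          - ψm fr a (-(j : ℤ) - 1) (Apm fr b m (Apm fr a ((j : ℤ) + 1) v))
          = ψm fr a (-(j : ℤ) - 1) (if a = b ∧ (j : ℤ) + 1 + m = 0 then
            (2 * ((j : ℤ) + 1 : ℤ) : ℂ) • v else 0) := by
        rw [← map_sub, r2]
      rw [add_sub_add_comm, r1, r3]
      by_cases hab : a = b
      · subst hab
        simp only [true_and]
        by_cases h3 : (j : ℤ) + 1 = m
        · rw [if_pos (by omega), if_neg (by omega), if_pos (Or.inl h3), map_zero, add_zero, h3]
          congr 1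
          rw [← h3]
          push_cast
          ring
        · by_cases h4 : (j : ℤ) + 1 = -m
          · rw [if_neg (by omega), if_pos (by omega), if_pos (Or.inr h4), map_smul, zero_add,
              show -(j : ℤ) - 1 = m by omega, h4]
            congr 1
            push_cast
            ring
          · rw [if_neg (by omega), if_neg (by omega), if_neg (by tauto), map_zero, add_zero]
      · simp [hab]
    rw [Finset.sum_congr rfl (fun j _ => h2 j)]
    by_cases hab : a = b
    · simp only [hab, true_and, if_true]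
      rcases lt_trichotomy m 0 with hm | hm | hm
      · rw [Finset.sum_eq_single (-m - 1).toNat]
        · rw [if_pos (by omega)]
        · intro j _ hj
          rw [if_neg (by omega)]
        · intro h
          exfalso
          apply h
          rw [Finset.mem_range]
          omega
      · subst hm
        simp
      · rw [Finset.sum_eq_single (m - 1).toNat]
        · rw [if_pos (by omega)]
        · intro j _ hj
          rw [if_neg (by omega)]
        · intro h
          exfalso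
          apply h
          rw [Finset.mem_range]
          omega
    · simp [hab]
  rw [Finset.sum_congr rfl (fun a _ => h1 a)]
  rw [Finset.sum_ite_eq' Finset.univ b, if_pos (Finset.mem_univ _), smul_smul]
  congr 1
  ring

lemma gg_ψ (b : Fin n) (m : ℤ) (v : EE n R) :
    gg fr (ψm fr b m v) + ψm fr b m (gg fr v) = Apm fr b (m + 1) v := by
  obtain ⟨N1, hN1⟩ := exists_cut fr v
  obtain ⟨N2, hN2⟩ := exists_cut fr (ψm fr b m v)
  set N := max (max N1 N2) (m.natAbs + 1) with hNdef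
  rw [gg_eq fr v N (fun a j hj => hN1 a j (by omega)),
    gg_eq fr (ψm fr b m v) N (fun a j hj => hN2 a j (by omega)), map_smul, ← smul_add]
  simp only [map_sum]
  rw [← Finset.sum_add_distrib]
  have h1 : ∀ a, (∑ j ∈ Finset.range N,
      (Apm fr a (-(j : ℤ) - 1) (ψm fr a ((j : ℤ) + 1) (ψm fr b m v))
        + ψm fr a (-(j : ℤ) - 1) (Apm fr a ((j : ℤ) + 1) (ψm fr b m v))))
      + (∑ j ∈ Finset.range N, ψm fr b m
      (Apm fr a (-(j : ℤ) - 1) (ψm fr a ((j : ℤ) + 1) v)
        + ψm fr a (-(j : ℤ) - 1) (Apm fr a ((j : ℤ) + 1) v)))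
      = if a = b then (2 : ℂ) • Apm fr b (m + 1) v else 0 := by
    intro a
    rw [← Finset.sum_add_distrib]
    have h2 : ∀ j : ℕ, (Apm fr a (-(j : ℤ) - 1) (ψm fr a ((j : ℤ) + 1) (ψm fr b m v))
        + ψm fr a (-(j : ℤ) - 1) (Apm fr a ((j : ℤ) + 1) (ψm fr b m v)))
        + ψm fr b m (Apm fr a (-(j : ℤ) - 1) (ψm fr a ((j : ℤ) + 1) v)
        + ψm fr a (-(j : ℤ) - 1) (Apm fr a ((j : ℤ) + 1) v))
        = if a = b ∧ ((j : ℤ) + 1 = m + 1 ∨ (j : ℤ) + 1 = -(m + 1)) then
            (2 : ℂ) • Apm fr b (m + 1) v else 0 := by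
      intro j
      have r1 := ψψ fr a b (-(j : ℤ) - 1) m (Apm fr a ((j : ℤ) + 1) v)
      have r2 := ψψ fr a b ((j : ℤ) + 1) m v
      rw [Aψ fr a b ((j : ℤ) + 1) m v, map_add, ← Aψ fr a b (-(j : ℤ) - 1) m
        (ψm fr a ((j : ℤ) + 1) v)]
      have r3 : Apm fr a (-(j : ℤ) - 1) (ψm fr a ((j : ℤ) + 1) (ψm fr b m v))
          + Apm fr a (-(j : ℤ) - 1) (ψm fr b m (ψm fr a ((j : ℤ) + 1) v))
          = Apm fr a (-(j : ℤ) - 1) (if a = b ∧ (j : ℤ) + 1 + m = -1 then
            (2 : ℂ) • v else 0) := by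
        rw [← map_add, r2]
      rw [add_add_add_comm, r1, r3]
      by_cases hab : a = b
      · subst hab
        simp only [true_and]
        by_cases h3 : (j : ℤ) + 1 = m + 1
        · rw [if_neg (by omega), if_pos (by omega), if_pos (Or.inl h3), map_zero, zero_add, h3]
        · by_cases h4 : (j : ℤ) + 1 = -(m + 1)
          · rw [if_pos (by omega), if_neg (by omega), if_pos (Or.inr h4), map_smul, add_zero,
              show -(j : ℤ) - 1 = m + 1 by omega]
          · rw [if_neg (by omega), if_neg (by omega), if_neg (by tauto), map_zero, add_zero]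
      · simp [hab]
    rw [Finset.sum_congr rfl (fun j _ => h2 j)]
    by_cases hab : a = b
    · simp only [hab, true_and, if_true]
      rcases lt_trichotomy (m + 1) 0 with hm | hm | hm
      · rw [Finset.sum_eq_single (-m - 2).toNat]
        · rw [if_pos (by omega)]
        · intro j _ hj
          rw [if_neg (by omega)]
        · intro h
          exfalso
          apply h
          rw [Finset.mem_range]
          omega
      · rw [hm, Apm_zero]
        simp
      · rw [Finset.sum_eq_single m.toNat]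
        · rw [if_pos (by omega)]
        · intro j _ hj
          rw [if_neg (by omega)]
        · intro h
          exfalso
          apply h
          rw [Finset.mem_range]
          omega
    · simp [hab]
  rw [Finset.sum_congr rfl (fun a _ => h1 a)]
  rw [Finset.sum_ite_eq' Finset.univ b, if_pos (Finset.mem_univ _), smul_smul]
  norm_num

lemma ps_of_mode (a : Fin n) : ψm fr a (-1) (vacE n R) = (G0 n R).ps fr a := by
  rw [← vsaE_vac (DS.zero n R)]
  exact (V0 n R).create _

lemma Ap_of_mode (a : Fin n) : Apm fr a (-1) (vacE n R) = Ap fr a := by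
  rw [← vsaE_vac (DS.zero n R)]
  exact (V0 n R).create _

lemma HE_vac : HE n R (vacE n R) = 0 := by
  rw [vacE, HE_single]
  simp [wtN]

lemma HE_ps (a : Fin n) : HE n R ((G0 n R).ps fr a) = ((1 : ℤ) : ℂ) • (G0 n R).ps fr a := by
  have h := (HE_modes fr a (-1) (vacE n R)).1
  rw [HE_vac, map_zero, sub_zero, ps_of_mode] at h
  rw [h]
  congr 1
  push_cast
  ring

lemma HE_Ap (a : Fin n) : HE n R (Ap fr a) = ((2 : ℤ) : ℂ) • Ap fr a := by
  have h := (HE_modes fr a (-1) (vacE n R)).2.2.1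
  rw [HE_vac, map_zero, sub_zero, Ap_of_mode] at h
  rw [h]
  congr 1
  push_cast
  ring

lemma HE_Gst : HE n R (Gst fr) = ((3 : ℤ) : ℂ) • Gst fr := by
  rw [Gst, map_sum, Finset.smul_sum]
  apply Finset.sum_congr rfl
  intro a _
  exact HE_Y0 _ _ _ _ (HE_Ap fr a) (HE_ps fr a) (-1)

lemma par_Gst : (V0 n R).Par 1 (Gst fr) := by
  rw [Gst]
  apply VSA.Par.sum
  intro a _
  exact ((par_Ap fr a).Y (par_ps fr a) (-1)).congr rfl

lemma HE_gg (v : EE n R) (h : ℤ) (hv : HE n R v = (h : ℂ) • v) :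
    HE n R (gg fr v) = ((h - 1 : ℤ) : ℂ) • gg fr v := by
  rw [gg_apply, map_smul, HE_Y0 _ _ _ _ (HE_Gst fr) hv 1, smul_comm]
  congr 2
  norm_num
  ring_nf

lemma gg_nil (v : EE n R) : ∃ N : ℕ, ((gg fr) ^ N) v = 0 := by
  induction v using Finsupp.induction_linear with
  | zero => exact ⟨0, by simp⟩
  | add f g hf hg =>
    obtain ⟨N, hN⟩ := hf
    obtain ⟨M, hM⟩ := hg
    refine ⟨N + M, ?_⟩
    rw [map_add, pow_add, Module.End.mul_apply, Module.End.mul_apply, hM, map_zero, add_zero,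
      ← Module.End.mul_apply, ← pow_add, add_comm N M, pow_add, Module.End.mul_apply, hN, map_zero]
  | single w r =>
    have h1 : ∀ k : ℕ, HE n R (((gg fr) ^ k) (Finsupp.single w r)) =
        (((wtN w : ℤ) - k : ℤ) : ℂ) • ((gg fr) ^ k) (Finsupp.single w r) := by
      intro k
      induction k with
      | zero =>
        rw [pow_zero, Module.End.one_apply, HE_single]
        push_cast
        rw [sub_zero]
      | succ k ih =>
        rw [pow_succ', Module.End.mul_apply, HE_gg fr _ _ ih]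
        congr 2
        push_cast
        ring
    exact ⟨wtN w + 1, HE_neg _ _ (by push_cast; omega) (h1 (wtN w + 1))⟩

lemma vc_gg (v : EE n R) : vc n R (gg fr v) = 0 := by
  obtain ⟨N, hN⟩ := exists_cut fr v
  rw [gg_eq fr v N hN, LinearMap.map_smul_of_tower, map_sum]
  rw [Finset.sum_eq_zero, smul_zero]
  intro a _
  rw [map_sum]
  apply Finset.sum_eq_zero
  intro j _
  rw [map_add, (vc_neg fr a j _).2.2.1, (vc_neg fr a j _).1, add_zero]

lemma gg_vac : gg fr (vacE n R) = 0 := by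
  rw [gg_apply, ← vsaE_vac (DS.zero n R)]
  have := (V0 n R).create' (Gst fr) 1
  rw [show ((1 : ℕ) : ℤ) = 1 from rfl] at this
  rw [this, smul_zero]

lemma sg_Y0 {p : ℕ} {a : EE n R} (ha : (V0 n R).Par p a) (m : ℤ) (v : EE n R) :
    sgE n R ((V0 n R).Y a m v) = (-1 : ℂ) ^ p • (V0 n R).Y a m (sgE n R v) := by
  rw [← vsaE_sg (DS.zero n R), ← vsaE_sg (DS.zero n R) v, (V0 n R).sg_Y, ha]
  simp only [map_smul, LinearMap.smul_apply, Pi.smul_apply]

lemma sgE_smulC (c : ℂ) (v : EE n R) : sgE n R (c • v) = c • sgE n R v :=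
  LinearMap.map_smul_of_tower _ _ _

lemma sgE_sgE0 (v : EE n R) : sgE n R (sgE n R v) = v := by
  rw [← vsaE_sg (DS.zero n R), ← vsaE_sg (DS.zero n R) v]
  exact (V0 n R).sg_sg v

lemma σ_H0 (v : EE n R) (h : ℕ) (hv : HE n R v = (h : ℂ) • v) :
    sgE n R v = (-1 : ℂ) ^ h • v := by
  ext w
  rw [sgE_apply, Finsupp.smul_apply]
  have h1 := HE_apply v w
  rw [hv, Finsupp.smul_apply] at h1
  by_cases hw : h = wtN w
  · rw [hw, wtN_par]
  · have h2 : ((h : ℂ) - wtN w) • v w = 0 := by rw [sub_smul, h1, sub_self]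
    have h3 : (h : ℂ) - wtN w ≠ 0 := by
      rw [sub_ne_zero]
      exact_mod_cast hw
    have h4 : v w = 0 := by
      have := congrArg (fun z => ((h : ℂ) - wtN w)⁻¹ • z) h2
      simpa [smul_smul, inv_mul_cancel₀ h3] using this
    rw [h4, smul_zero, smul_zero]

/-- the plus sector -/
def secS : Submodule R (EE n R) where
  carrier := {v | ∀ a (k : ℕ), χm fr a k v = 0 ∧ Amm fr a k v = 0}
  add_mem' := by
    intro v w hv hw a k
    rw [map_add, map_add, (hv a k).1, (hw a k).1, (hv a k).2, (hw a k).2, add_zero]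
    exact ⟨rfl, rfl⟩
  zero_mem' := by
    intro a k
    exact ⟨map_zero _, map_zero _⟩
  smul_mem' := by
    intro r v hv a k
    constructor
    · rw [χm, (Y_smul r _ v _).2]
      have := (hv a k).1
      rw [χm] at this
      rw [this, smul_zero]
    · rw [Amm, (Y_smul r _ v _).2]
      have := (hv a k).2
      rw [Amm] at this
      rw [this, smul_zero]

lemma mem_secS (v : EE n R) : v ∈ secS fr ↔ ∀ a (k : ℕ), χm fr a k v = 0 ∧ Amm fr a k v = 0 :=
  Iff.rfl

lemma secS_A (a : Fin n) (m : ℤ) (v : EE n R) (hv : v ∈ secS fr) : Apm fr a m v ∈ secS fr := by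
  intro b k
  rw [← Aχ, ← AM, (hv b k).1, (hv b k).2, map_zero]
  exact ⟨rfl, rfl⟩

lemma secS_ψ (a : Fin n) (m : ℤ) (v : EE n R) (hv : v ∈ secS fr) : ψm fr a m v ∈ secS fr := by
  intro b k
  rw [Mψ, (hv b k).2, map_zero]
  refine ⟨?_, rfl⟩
  have h := ψχ fr a b m k v
  rw [(hv b k).1, map_zero, zero_add] at h
  exact h

lemma H_eq0 (v : EE n R) (hv : v ∈ secS fr) (K : ℕ)
    (hK : ∀ a (k : ℕ), K ≤ k → Apm fr a (k + 1 : ℕ) v = 0 ∧ ψm fr a k v = 0) :
    HE n R v = ∑ a, ∑ k ∈ Finset.range K,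
      (Apm fr a (-(k : ℤ) - 1) (Apm fr a (k + 1 : ℕ) v)
        + ((k : ℂ) + 1 / 2) • ψm fr a (-(k : ℤ) - 1) (ψm fr a k v)) := by
  rw [HE_flat fr v K (fun a k hk => ⟨(hK a k hk).1, (hv a (k + 1)).2, (hK a k hk).2, (hv a k).1⟩)]
  apply Finset.sum_congr rfl
  intro a _
  apply Finset.sum_congr rfl
  intro k _
  rw [(hv a (k + 1)).2, (hv a k).1, map_zero, map_zero, sub_zero, sub_zero]

end Ops

section Theta
variable {n : ℕ} {R : Type*} [CommRing R] [Algebra ℂ R] (fr : Frame n R) (C : PosR R)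

lemma tw_smul {A A' : Type*} [CommRing A] [Algebra ℂ A] [CommRing A'] [Algebra ℂ A']
    (h : A →+* A') (l m : ℂˣ) (r : A) (v : EE n A) :
    tw h l m (r • v) = h r • tw h l m v := by
  induction v using Finsupp.induction_linear with
  | zero => simp
  | add f g hf hg => rw [smul_add, map_add, map_add, hf, hg, smul_add]
  | single w a =>
    rw [Finsupp.smul_single]
    simp only [tw, Finsupp.liftAddHom_apply_single, AddMonoidHom.comp_apply,
      AddMonoidHom.coe_mulLeft, RingHom.toAddMonoidHom_eq_coe, AddMonoidHom.coe_coe,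
      Finsupp.singleAddHom_apply, smul_eq_mul, map_mul, Finsupp.smul_single]
    congr 1
    ring

lemma tw_single {A A' : Type*} [CommRing A] [Algebra ℂ A] [CommRing A'] [Algebra ℂ A']
    (h : A →+* A') (l m : ℂˣ) (w : Mon n) :
    ∃ c : ℂ, ∀ r : A, tw h l m (Finsupp.single w r) = c • Finsupp.single w (h r) := by
  refine ⟨((l⁻¹ ^ (Multiset.card w.1) * l ^ (Multiset.card w.2.1) *
          m ^ cnt false w.2.2 * m⁻¹ ^ cnt true w.2.2 : ℂˣ) : ℂ), fun r => ?_⟩
  simp only [tw, Finsupp.liftAddHom_apply_single, AddMonoidHom.comp_apply,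
    AddMonoidHom.coe_mulLeft, RingHom.toAddMonoidHom_eq_coe, AddMonoidHom.coe_coe,
    Finsupp.singleAddHom_apply, Finsupp.smul_single, Algebra.smul_def]

/-- the antilinear involution -/
abbrev th (n : ℕ) (C : PosR R) : EE n R →+ EE n R := tw C.conj (-1) 1

lemma th_smul (r : R) (v : EE n R) : th n C (r • v) = C.conj r • th n C v := tw_smul _ _ _ _ _

lemma th_smulC (c : ℂ) (v : EE n R) : th n C (c • v) = (star c) • th n C v := by
  rw [← algebraMap_smul R c v, th_smul, C.conj_alg, algebraMap_smul]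

lemma th_vac : th n C (vacE n R) = vacE n R :=
  (tw_gens (DS.zero n R) (DS.zero n R) C.conj (-1) 1).2.2.2.2.2

lemma zero_hl : ∀ i f, C.conj ((DS.zero n R).d i f) = ((-1 : ℂˣ) : ℂ) • (DS.zero n R).d i (C.conj f) := by
  intro i f
  simp [DS.zero]

lemma th_Y (a : EE n R) (m : ℤ) (v : EE n R) :
    th n C ((V0 n R).Y a m v) = (V0 n R).Y (th n C a) m (th n C v) :=
  tw_Y (DS.zero n R) (DS.zero n R) C.conj (-1) 1 (zero_hl C) a m v

lemma fr_map (hfr : ∀ a i, C.conj (fr.e a i) = fr.e a i) : fr.map C.conj = fr := by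
  have he : fr.e.map C.conj = fr.e := by
    ext a i
    exact hfr a i
  have h1 : fr.f.map C.conj * fr.e = 1 := by
    have h2 := (fr.map C.conj).f_e
    have h3 : (fr.map C.conj).f * (fr.map C.conj).e = fr.f.map C.conj * fr.e.map C.conj := rfl
    rw [h3, he] at h2
    exact h2
  have hf : fr.f.map C.conj = fr.f := by
    calc fr.f.map C.conj = fr.f.map C.conj * (fr.e * fr.f) := by rw [fr.e_f, mul_one]
      _ = fr.f := by rw [← mul_assoc, h1, one_mul]
  obtain ⟨e, f, ef, fe⟩ := fr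
  simp only [Frame.map, Frame.mk.injEq]
  exact ⟨he, hf⟩

lemma th_ps (hfr : ∀ a i, C.conj (fr.e a i) = fr.e a i) (a : Fin n) :
    th n C ((G0 n R).ps fr a) = (G0 n R).ps fr a := by
  have h := tw_ps (DS.zero n R) (DS.zero n R) C.conj (-1) (zero_hl C) fr a
  rw [fr_map fr C hfr] at h
  exact h

lemma th_Ap (hfr : ∀ a i, C.conj (fr.e a i) = fr.e a i) (a : Fin n) :
    th n C (Ap fr a) = -Ap fr a := by
  have h1 := tw_Q1 (DS.zero n R) (DS.zero n R) C.conj (-1) 1 (zero_hl C) ((G0 n R).ps fr a)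
  have h2 := tw_Q2 (DS.zero n R) (DS.zero n R) C.conj (-1) 1 (zero_hl C) ((G0 n R).ps fr a)
  have h3 := th_ps fr C hfr a
  rw [th] at h3
  rw [h3] at h1 h2
  rw [Ap, CD.DD, LinearMap.add_apply, map_add, h1, h2]
  simp only [inv_neg, inv_one, one_mul, Units.val_neg, Units.val_one, neg_smul, one_smul]
  abel

lemma th_A (hfr : ∀ a i, C.conj (fr.e a i) = fr.e a i) (a : Fin n) (m : ℤ) (v : EE n R) :
    th n C (Apm fr a m v) = -Apm fr a m (th n C v) := by
  rw [Apm, th_Y, th_Ap fr C hfr, map_neg]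
  rfl

lemma th_ψ (hfr : ∀ a i, C.conj (fr.e a i) = fr.e a i) (a : Fin n) (m : ℤ) (v : EE n R) :
    th n C (ψm fr a m v) = ψm fr a m (th n C v) := by
  rw [ψm, th_Y, th_ps fr C hfr]

lemma th_Gst (hfr : ∀ a i, C.conj (fr.e a i) = fr.e a i) :
    th n C (Gst fr) = -Gst fr := by
  rw [Gst, map_sum, ← Finset.sum_neg_distrib]
  apply Finset.sum_congr rfl
  intro a _
  have h := th_Y C (Ap fr a) (-1) ((G0 n R).ps fr a)
  rw [th_Ap fr C hfr, th_ps fr C hfr, map_neg] at h
  exact h

lemma th_gg (hfr : ∀ a i, C.conj (fr.e a i) = fr.e a i) (v : EE n R) :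
    th n C (gg fr v) = -gg fr (th n C v) := by
  rw [gg_apply, gg_apply, th_smulC, th_Y, th_Gst fr C hfr, map_neg]
  simp

lemma th_σ (v : EE n R) : th n C (sgE n R v) = sgE n R (th n C v) := by
  induction v using Finsupp.induction_linear with
  | zero => simp
  | add f g hf hg => rw [map_add, map_add, hf, hg, map_add, map_add]
  | single w r =>
    obtain ⟨c, hc⟩ := tw_single (n := n) C.conj (-1) 1 w
    rw [sgE_single, th_smulC, th, hc, sgE_smulC, sgE_single, smul_comm]
    congr 1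
    rw [star_pow, star_neg, star_one]

lemma th_H (v : EE n R) : th n C (HE n R v) = HE n R (th n C v) := by
  induction v using Finsupp.induction_linear with
  | zero => simp
  | add f g hf hg => rw [map_add, map_add, hf, hg, map_add, map_add]
  | single w r =>
    obtain ⟨c, hc⟩ := tw_single (n := n) C.conj (-1) 1 w
    rw [HE_single, th_smulC, th, hc, map_smul, HE_single, smul_comm, star_natCast]

end Theta

section Final
variable {n : ℕ} {R : Type*} [CommRing R] [Algebra ℂ R] (fr : Frame n R)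

lemma par_half0 (t : EE n R) : (V0 n R).Par 0 ((1/2 : ℂ) • (t + sgE n R t)) := by
  rw [VSA.Par, vsaE_sg, sgE_smulC, map_add, sgE_sgE0, pow_zero, one_smul, add_comm]

lemma par_half1 (t : EE n R) : (V0 n R).Par 1 ((1/2 : ℂ) • (t - sgE n R t)) := by
  rw [VSA.Par, vsaE_sg, sgE_smulC, map_sub, sgE_sgE0, pow_one, neg_one_smul, ← smul_neg, neg_sub]

lemma half_add (t : EE n R) :
    (1/2 : ℂ) • (t + sgE n R t) + (1/2 : ℂ) • (t - sgE n R t) = t := by
  rw [← smul_add, add_add_sub_cancel, ← two_smul ℂ t, smul_smul]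
  norm_num

lemma PP_A (a : Fin n) (k : ℕ) (t s : EE n R) (N : ℕ)
    (hN : ∀ j : ℕ, N ≤ j → Apm fr a j s = 0) :
    PP n R (Apm fr a (-(k : ℤ) - 1) t) s =
      (-1 : ℂ) ^ k • ∑ j ∈ Finset.range N, ((k + j).choose j : ℂ) • PP n R t (Apm fr a j s) := by
  have hst : ∀ (q : ℕ) (t : EE n R), (V0 n R).Par q t →
      PP n R (Apm fr a (-(k : ℤ) - 1) t) s =
    (-1 : ℂ) ^ k • ∑ j ∈ Finset.range N,
      ((k + j).choose j : ℂ) • PP n R t (Apm fr a j s) := by
    intro q t ht
    have h := PP_rec (par_Ap fr a) ht (fun k v => (vc_neg fr a k v).2.2.1) k s N hN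
    rw [zero_mul, pow_zero, mul_one] at h
    exact h
  have e2 := congrArg₂ (· + ·) (hst 0 _ (par_half0 t)) (hst 1 _ (par_half1 t))
  rw [← LinearMap.add_apply, ← map_add, ← map_add, half_add, ← smul_add,
    ← Finset.sum_add_distrib] at e2
  rw [e2]
  congr 1
  apply Finset.sum_congr rfl
  intro j _
  rw [← smul_add, ← LinearMap.add_apply, ← map_add, half_add]

lemma PP_ψ (a : Fin n) (k : ℕ) (t s : EE n R) (N : ℕ)
    (hN : ∀ j : ℕ, N ≤ j → ψm fr a j s = 0) :
    PP n R (ψm fr a (-(k : ℤ) - 1) t) s =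
      (-1 : ℂ) ^ k • ∑ j ∈ Finset.range N,
        ((k + j).choose j : ℂ) • PP n R (sgE n R t) (ψm fr a j s) := by
  have hst : ∀ (q : ℕ) (t : EE n R), (V0 n R).Par q t →
      PP n R (ψm fr a (-(k : ℤ) - 1) t) s =
    (-1 : ℂ) ^ k • ∑ j ∈ Finset.range N,
      ((k + j).choose j : ℂ) • PP n R (sgE n R t) (ψm fr a j s) := by
    intro q t ht
    have h := PP_rec (par_ps fr a) ht (fun k v => (vc_neg fr a k v).1) k s N hN
    rw [one_mul] at h
    refine h.trans ?_
    rw [mul_smul]
    congr 1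
    rw [Finset.smul_sum]
    apply Finset.sum_congr rfl
    intro j _
    have hq : sgE n R t = (-1 : ℂ) ^ q • t := by
      rw [← vsaE_sg (DS.zero n R)]
      exact ht
    rw [hq, LinearMap.map_smul_of_tower, LinearMap.smul_apply, smul_comm]
    rfl
  have e2 := congrArg₂ (· + ·) (hst 0 _ (par_half0 t)) (hst 1 _ (par_half1 t))
  rw [← LinearMap.add_apply, ← map_add, ← map_add, half_add, ← smul_add,
    ← Finset.sum_add_distrib] at e2
  rw [e2]
  congr 1
  apply Finset.sum_congr rfl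
  intro j _
  rw [← smul_add, ← LinearMap.add_apply, ← map_add, ← map_add, half_add]

/-- the abstract positivity data of the flat model -/
def flatPD (C : PosR R) (hfr : ∀ a i, C.conj (fr.e a i) = fr.e a i) :
    PD R C (Fin n) (EE n R) where
  A a m := toR (Apm fr a m) (fun r v => (Y_smul r _ v m).2)
  ψ a m := toR (ψm fr a m) (fun r v => (Y_smul r _ v m).2)
  g := gg fr
  H := toR (HE n R) HE_smulR
  σ := sgE n R
  vc := vc n R
  vac := vacE n R
  θ := th n C
  P := PP n R
  sec := secS fr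
  A_trunc a v := (V0 n R).trunc _ v
  ψ_trunc a v := (V0 n R).trunc _ v
  A_zero a v := Apm_zero fr a v
  g_A a m v := gg_A fr a m v
  g_ψ a m v := gg_ψ fr a m v
  g_vac := gg_vac fr
  vc_g v := vc_gg fr v
  g_nil v := gg_nil fr v
  σ_σ v := sgE_sgE0 v
  σ_A a m v := by
    have h := sg_Y0 (par_Ap fr a) m v
    rw [pow_zero, one_smul] at h
    exact h
  σ_ψ a m v := by
    have h := sg_Y0 (par_ps fr a) m v
    rw [pow_one, neg_one_smul] at h
    exact h
  σ_g v := by
    have h := sg_Y0 (par_Gst fr) 1 v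
    rw [pow_one, neg_one_smul] at h
    rw [gg_apply, gg_apply, sgE_smulC, h, smul_neg]
  σ_H v h hv := σ_H0 v h hv
  H_A a m v := (HE_modes fr a m v).2.2.1
  H_ψ a m v := (HE_modes fr a m v).1
  H_neg v h hh hv := HE_neg v h hh hv
  H_zero v hv := by
    have h := HE_zero v hv
    rw [vacE, Finsupp.smul_single, smul_eq_mul, mul_one]
    exact h
  P_vac s := PP_vac s
  P_A a k t s N hN := PP_A fr a k t s N hN
  P_ψ a k t s N hN := PP_ψ fr a k t s N hN
  θ_smul r v := th_smul C r v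
  θ_vac := th_vac C
  θ_A a m v := th_A fr C hfr a m v
  θ_ψ a m v := th_ψ fr C hfr a m v
  θ_g v := th_gg fr C hfr v
  θ_σ v := th_σ C v
  θ_H v := th_H C v
  sec_A a k v hv := secS_A fr a k v hv
  sec_ψ a k v hv := secS_ψ fr a k v hv
  H_eq v hv K hK := H_eq0 fr v hv K hK

theorem flat_positivity (C : PosR R) (hfr : ∀ a i, C.conj (fr.e a i) = fr.e a i) (s : EE n R)
    (h : ℕ) (hH : HE n R s = (h : ℂ) • s)
    (h1 : ∀ a (k : ℕ), χm fr a k s = 0 ∧ Amm fr a k s = 0)
    (h2 : (V0 n R).Y (Gst fr) 1 s = 0)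
    (h3 : vc n R ((V0 n R).Y (tw C.conj (-1) 1 s) ((h : ℤ) - 1) s) = 0) : s = 0 := by
  apply PD.positivity (flatPD fr C hfr) s h h1 hH
  · change gg fr s = 0
    rw [gg_apply, h2, smul_zero]
  · change PP n R (th n C s) s = 0
    rw [PP_apply]
    have hs : HE n R s = ((h : ℤ) : ℂ) • s := by rw [hH]; push_cast; rfl
    have ht : HE n R (th n C s) = ((h : ℤ) : ℂ) • th n C s := by
      rw [← th_H, hH, th_smulC, star_natCast]
      push_cast
      rfl
    rw [finsum_eq_single _ ((h : ℤ) - 1)]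
    · exact h3
    · intro m hm
      apply vc_Y0 _ _ _ _ ht hs
      intro h0
      apply hm
      omega

end Final

end Flat
end Pool.Agent.AA3
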