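import Mathlib

/-!
Fields on a complex vector space and sign-parametrised `n`-products.
-/

set_option autoImplicit false
open scoped BigOperators
noncomputable section
namespace Pool.Agent.AA3

/-- The binomial coefficient `n choose j` for an integer `n`, as a complex number. -/
def bin (n : ℤ) (j : ℕ) : ℂ := ((Ring.choose n j : ℤ) : ℂ)

section Fields
variable (E : Type*) [AddCommGroup E] [Module ℂ E]

/-- The space of fields `a(z) = ∑ₙ aₙ z^{-n-1}` on `E`: sequences of endomorphisms such that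
for every `v` one has `aₙ v = 0` for all large `n`. -/
def fldSub : Submodule ℂ (ℤ → Module.End ℂ E) where
  carrier := {a | ∀ v, ∃ N : ℤ, ∀ n, N ≤ n → a n v = 0}
  add_mem' := by
    intro a b ha hb v
    obtain ⟨N, hN⟩ := ha v
    obtain ⟨M, hM⟩ := hb v
    refine ⟨max N M, fun n hn => ?_⟩
    simp [hN n (le_trans (le_max_left _ _) hn), hM n (le_trans (le_max_right _ _) hn)]
  zero_mem' := fun v => ⟨0, fun n _ => by simp⟩
  smul_mem' := by
    intro c a ha v
    obtain ⟨N, hN⟩ := ha v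
    exact ⟨N, fun n hn => by simp [hN n hn]⟩

/-- Fields on `E`. -/
abbrev Fld := ↥(fldSub E)

instance Fld.instAddCommGroup : AddCommGroup (Fld E) := Submodule.addCommGroup _
instance Fld.instModule : Module ℂ (Fld E) := Submodule.module _

/-- The identity field: `1₋₁ = id`, all other modes are zero. -/
def idFld : Fld E :=
  ⟨fun n => if n = -1 then LinearMap.id else 0, fun v => ⟨0, fun n hn => by
    have : n ≠ -1 := by omega
    simp [this]⟩⟩

variable {E}

/-- The summand of the `n`-product. -/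
def npTerm (q : ℂ) (n : ℤ) (a b : ℤ → Module.End ℂ E) (k : ℤ) (v : E) (j : ℕ) : E :=
  ((-1) ^ j * bin n j) •
    (a (n - j) (b (k + j) v) - ((-1) ^ n * q) • b (n + k - j) (a j v))

lemma npTerm_add (q : ℂ) (n : ℤ) (a b : ℤ → Module.End ℂ E) (k : ℤ) (v w : E) (j : ℕ) :
    npTerm q n a b k (v + w) j = npTerm q n a b k v j + npTerm q n a b k w j := by
  simp only [npTerm, map_add, smul_add, smul_sub]
  abel

lemma npTerm_smul (q : ℂ) (n : ℤ) (a b : ℤ → Module.End ℂ E) (k : ℤ) (c : ℂ) (v : E) (j : ℕ) :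
    npTerm q n a b k (c • v) j = c • npTerm q n a b k v j := by
  simp only [npTerm, map_smul, smul_sub, smul_smul]
  congr 1 <;> congr 1 <;> ring

lemma npTerm_eq_zero {q : ℂ} {n : ℤ} {a b : ℤ → Module.End ℂ E} {k : ℤ} {v : E} {j : ℕ}
    (h1 : b (k + j) v = 0) (h2 : a j v = 0) : npTerm q n a b k v j = 0 := by
  simp [npTerm, h1, h2]

lemma exists_bound (a b : Fld E) (k : ℤ) (v : E) :
    ∃ N : ℕ, ∀ j : ℕ, N ≤ j → b.1 (k + j) v = 0 ∧ a.1 j v = 0 := by
  obtain ⟨N, hN⟩ := a.2 v
  obtain ⟨M, hM⟩ := b.2 v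
  refine ⟨(max N (M - k)).toNat, fun j hj => ?_⟩
  have h0 : max N (M - k) ≤ (j : ℤ) := le_trans (Int.self_le_toNat _) (by exact_mod_cast hj)
  have h1 : N ≤ (j : ℤ) := le_trans (le_max_left _ _) h0
  have h2 : M - k ≤ (j : ℤ) := le_trans (le_max_right _ _) h0
  exact ⟨hM _ (by omega), hN _ h1⟩

lemma npTerm_support_finite (q : ℂ) (n : ℤ) (a b : Fld E) (k : ℤ) (v : E) :
    (Function.support (npTerm q n a.1 b.1 k v)).Finite := by
  obtain ⟨N, hN⟩ := exists_bound a b k v
  refine (Set.finite_lt_nat N).subset fun j hj => ?_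
  by_contra hlt
  have hlt' : N ≤ j := not_lt.mp hlt
  exact hj (npTerm_eq_zero (hN j hlt').1 (hN j hlt').2)

/-- `∑ᶠ` of the terms of the `n`-product as an ordinary sum. -/
lemma finsum_npTerm (q : ℂ) (n : ℤ) (a b : ℤ → Module.End ℂ E) (k : ℤ) (v : E) (N : ℕ)
    (hN : ∀ j : ℕ, N ≤ j → b (k + j) v = 0 ∧ a j v = 0) :
    ∑ᶠ j, npTerm q n a b k v j = ∑ j ∈ Finset.range N, npTerm q n a b k v j := by
  apply finsum_eq_sum_of_support_subset
  intro j hj
  by_contra hlt
  simp only [Finset.coe_range, Set.mem_Iio, not_lt] at hlt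
  exact hj (npTerm_eq_zero (hN j hlt).1 (hN j hlt).2)

/-- The `n`-product of two fields with the sign `q`:
`(a₍ₙ₎b)_k = ∑_{j ≥ 0} (-1)^j (n choose j) (a_{n-j} b_{k+j} - (-1)^n q b_{n+k-j} a_j)`.
For parity homogeneous fields `a`, `b` one takes `q = (-1)^{|a||b|}`. -/
def np (q : ℂ) (n : ℤ) (a b : Fld E) : Fld E :=
  ⟨fun k =>
    { toFun := fun v => ∑ᶠ j : ℕ, npTerm q n a.1 b.1 k v j
      map_add' := fun v w => by
        rw [← finsum_add_distrib (npTerm_support_finite q n a b k v)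
          (npTerm_support_finite q n a b k w)]
        simp only [npTerm_add]
      map_smul' := fun c v => by
        simp only [npTerm_smul, RingHom.id_apply]
        exact (smul_finsum c _).symm },
   fun v => by
    obtain ⟨N, hN⟩ := a.2 v
    obtain ⟨M, hM⟩ := b.2 v
    have h2 : ∀ K : ℕ, ∃ L : ℤ, ∀ j : ℕ, j < K → ∀ m : ℤ, L ≤ m → b.1 m (a.1 j v) = 0 := by
      intro K
      induction K with
      | zero => exact ⟨0, fun j hj => absurd hj (Nat.not_lt_zero j)⟩
      | succ K ih =>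
        obtain ⟨L, hL⟩ := ih
        obtain ⟨L', hL'⟩ := b.2 (a.1 (K : ℕ) v)
        refine ⟨max L L', fun j hj m hm => ?_⟩
        rcases Nat.lt_succ_iff_lt_or_eq.mp hj with h | h
        · exact hL j h m (le_trans (le_max_left _ _) hm)
        · subst h
          exact hL' m (le_trans (le_max_right _ _) hm)
    obtain ⟨L, hL⟩ := h2 N.toNat
    refine ⟨max M (L + N.toNat - n), fun k hk => ?_⟩
    have hk1 : M ≤ k := le_trans (le_max_left _ _) hk
    have hk2 : L + N.toNat - n ≤ k := le_trans (le_max_right _ _) hk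
    have : ∀ j : ℕ, npTerm q n a.1 b.1 k v j = 0 := by
      intro j
      have e1 : b.1 (k + j) v = 0 := hM _ (by omega)
      have e2 : b.1 (n + k - j) (a.1 j v) = 0 := by
        by_cases hj : j < N.toNat
        · exact hL j hj _ (by omega)
        · rw [hN j (by omega)]; simp
      simp [npTerm, e1, e2]
    simp [this]⟩

lemma np_apply (q : ℂ) (n : ℤ) (a b : Fld E) (k : ℤ) (v : E) :
    (np q n a b).1 k v = ∑ᶠ j : ℕ, npTerm q n a.1 b.1 k v j := rfl

lemma np_apply_of_bound (q : ℂ) (n : ℤ) (a b : Fld E) (k : ℤ) (v : E) (N : ℕ)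
    (hN : ∀ j : ℕ, N ≤ j → b.1 (k + j) v = 0 ∧ a.1 j v = 0) :
    (np q n a b).1 k v = ∑ j ∈ Finset.range N, npTerm q n a.1 b.1 k v j :=
  finsum_npTerm q n a.1 b.1 k v N hN

end Fields

end Pool.Agent.AA3
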