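import Pool.Agent.Lib.MP_aa3aaf_al.Fock

/-!
The generating fields on the Fock space as elements of `Fld`.
-/

set_option autoImplicit false
open scoped BigOperators
noncomputable section
namespace Pool.Agent.AA3

section SingleLemmas
variable {n : ℕ} {A : Type*} [CommRing A]

lemma xcr_single (p : Bl n) (w : Mon n) (r : A) :
    xcr p (Finsupp.single w r) = Finsupp.single (p ::ₘ w.1, w.2.1, w.2.2) r := by
  simp only [xcr, Finsupp.linearCombination_single, Finsupp.smul_single, smul_eq_mul, mul_one]

lemma ycr_single (p : Bl n) (w : Mon n) (r : A) :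
    ycr p (Finsupp.single w r) = Finsupp.single (w.1, p ::ₘ w.2.1, w.2.2) r := by
  simp only [ycr, Finsupp.linearCombination_single, Finsupp.smul_single, smul_eq_mul, mul_one]

lemma xan_single (p : Bl n) (w : Mon n) (r : A) :
    xan p (Finsupp.single w r) =
      Finsupp.single (w.1.erase p, w.2.1, w.2.2) (r * ((w.1.count p : ℕ) : A)) := by
  simp only [xan, Finsupp.linearCombination_single, Finsupp.smul_single, smul_eq_mul]

lemma yan_single (p : Bl n) (w : Mon n) (r : A) :
    yan p (Finsupp.single w r) =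
      Finsupp.single (w.1, w.2.1.erase p, w.2.2) (r * ((w.2.1.count p : ℕ) : A)) := by
  simp only [yan, Finsupp.linearCombination_single, Finsupp.smul_single, smul_eq_mul]

lemma fcr_single (t : Fl n) (w : Mon n) (r : A) :
    fcr t (Finsupp.single w r) =
      if t ∈ w.2.2 then 0
      else Finsupp.single (w.1, w.2.1, insert t w.2.2) (r * fsg A t w.2.2) := by
  simp only [fcr, Finsupp.linearCombination_single]
  split_ifs
  · simp
  · simp only [Finsupp.smul_single, smul_eq_mul]

lemma fan_single (t : Fl n) (w : Mon n) (r : A) :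
    fan t (Finsupp.single w r) =
      if t ∈ w.2.2 then Finsupp.single (w.1, w.2.1, w.2.2.erase t) (r * fsg A t w.2.2)
      else 0 := by
  simp only [fan, Finsupp.linearCombination_single]
  split_ifs
  · simp only [Finsupp.smul_single, smul_eq_mul]
  · simp

end SingleLemmas

section Trunc
variable {n : ℕ} {A : Type*} [CommRing A] [Algebra ℂ A] (D : DS n A)

/-- truncation may be checked on monomials -/
lemma trunc_of_single (a : ℤ → Module.End ℂ (EE n A))
    (h : ∀ w : Mon n, ∃ N : ℤ, ∀ m, N ≤ m → ∀ r : A, a m (Finsupp.single w r) = 0) :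
    a ∈ fldSub (EE n A) := by
  intro v
  induction v using Finsupp.induction_linear with
  | zero => exact ⟨0, fun m _ => map_zero _⟩
  | add f g hf hg =>
    obtain ⟨N, hN⟩ := hf
    obtain ⟨M, hM⟩ := hg
    refine ⟨max N M, fun m hm => ?_⟩
    rw [map_add, hN m (le_trans (le_max_left _ _) hm), hM m (le_trans (le_max_right _ _) hm),
      add_zero]
  | single w r =>
    obtain ⟨N, hN⟩ := h w
    exact ⟨N, fun m hm => hN m hm r⟩

lemma exists_bound_multiset (s : Multiset (Bl n)) : ∃ K : ℕ, ∀ p ∈ s, p.2 < K := by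
  induction s using Multiset.induction_on with
  | empty => exact ⟨0, by simp⟩
  | cons a s ih =>
    obtain ⟨K, hK⟩ := ih
    refine ⟨max K (a.2 + 1), fun p hp => ?_⟩
    rcases Multiset.mem_cons.mp hp with h | h
    · subst h; exact lt_of_lt_of_le (Nat.lt_succ_self _) (le_max_right _ _)
    · exact lt_of_lt_of_le (hK p h) (le_max_left _ _)

lemma exists_bound_finset (S : Finset (Fl n)) :
    ∃ K : ℕ, ∀ (t : Bool) (i : Fin n) (k : ℕ), fl t i k ∈ S → k < K := by
  classical
  induction S using Finset.induction_on with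
  | empty => exact ⟨0, by simp⟩
  | insert a s ha ih =>
    obtain ⟨K, hK⟩ := ih
    refine ⟨max K ((ofLex (ofLex a).2).2 + 1), fun t i k h => ?_⟩
    rcases Finset.mem_insert.mp h with h | h
    · have : (ofLex (ofLex a).2).2 = k := by rw [← h]; rfl
      rw [this]
      exact lt_of_lt_of_le (Nat.lt_succ_self _) (le_max_right _ _)
    · exact lt_of_lt_of_le (hK t i k h) (le_max_left _ _)

lemma xMo_mem (i : Fin n) : xMo n A i ∈ fldSub (EE n A) := by
  refine trunc_of_single _ fun w => ?_
  obtain ⟨K, hK⟩ := exists_bound_multiset w.2.1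
  refine ⟨(K : ℤ) + 1, fun m hm r => ?_⟩
  have h1 : ¬ m < 0 := by omega
  have h2 : m ≠ 0 := by omega
  have h3 : (i, (m - 1).toNat) ∉ w.2.1 := fun h => by
    have := hK _ h
    simp only at this
    omega
  have h4 : yan (i, (m - 1).toNat) (Finsupp.single w r) = 0 := by
    rw [yan_single, Multiset.count_eq_zero_of_notMem h3]
    simp only [Nat.cast_zero, mul_zero, Finsupp.single_zero]
  simp only [xMo, h1, h2, if_false, LinearMap.smul_apply, LinearMap.restrictScalars_apply, h4,
    smul_zero]

lemma βMo_mem (i : Fin n) : βMo D i ∈ fldSub (EE n A) := by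
  refine trunc_of_single _ fun w => ?_
  obtain ⟨K, hK⟩ := exists_bound_multiset w.1
  refine ⟨(K : ℤ) + 1, fun m hm r => ?_⟩
  have h1 : ¬ m < 0 := by omega
  have h2 : m ≠ 0 := by omega
  have h3 : (i, (m - 1).toNat) ∉ w.1 := fun h => by
    have := hK _ h
    simp only at this
    omega
  have h4 : xan (i, (m - 1).toNat) (Finsupp.single w r) = 0 := by
    rw [xan_single, Multiset.count_eq_zero_of_notMem h3]
    simp only [Nat.cast_zero, mul_zero, Finsupp.single_zero]
  simp only [βMo, h1, h2, if_false, LinearMap.smul_apply, LinearMap.restrictScalars_apply, h4,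
    smul_zero]

lemma fMo_mem (t : Bool) (i : Fin n) : fMo n A t i ∈ fldSub (EE n A) := by
  refine trunc_of_single _ fun w => ?_
  obtain ⟨K, hK⟩ := exists_bound_finset w.2.2
  refine ⟨(K : ℤ), fun m hm r => ?_⟩
  have h1 : ¬ m < 0 := by omega
  have h3 : fl (!t) i m.toNat ∉ w.2.2 := fun h => by
    have := hK _ _ _ h
    omega
  simp only [fMo, h1, if_false, LinearMap.restrictScalars_apply, fan_single, h3]

lemma mwt_le_of_mem_antidiagonal (s : Multiset (Bl n)) (p : Multiset (Bl n) × Multiset (Bl n))
    (hp : p ∈ s.antidiagonal) : mwt p.1 ≤ mwt s := by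
  rw [Multiset.mem_antidiagonal] at hp
  rw [← hp]
  simp [mwt, Multiset.map_add, Multiset.sum_add]

lemma fnMo_mem (f : A) : fnMo D f ∈ fldSub (EE n A) := by
  refine trunc_of_single _ fun w => ?_
  refine ⟨(mwt w.2.1 : ℤ), fun m hm r => ?_⟩
  have : fnA D f m (Finsupp.single w r) = 0 := by
    rw [fnA, Finsupp.linearCombination_single]
    have : (w.2.1.antidiagonal.map fun p =>
      ((-1 : A) ^ (Multiset.card p.1)) •
        SopZ D ((mwt p.1 : ℤ) - m - 1) (dd D p.1 f) (Finsupp.single (w.1, p.2, w.2.2) 1)).sum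
        = 0 := by
      apply Multiset.sum_eq_zero
      intro y hy
      obtain ⟨p, hp, rfl⟩ := Multiset.mem_map.mp hy
      have := mwt_le_of_mem_antidiagonal _ _ hp
      have h0 : ((mwt p.1 : ℤ) - m - 1) < 0 := by omega
      simp [SopZ, h0]
    rw [this, smul_zero]
  simpa [fnMo] using this

end Trunc

section Flds
variable (n : ℕ) (A : Type*) [CommRing A] [Algebra ℂ A]

/-- the field `∂γ^i` -/
def xF (i : Fin n) : Fld (EE n A) := ⟨xMo n A i, xMo_mem i⟩
/-- the field `c^i` -/
def cF (i : Fin n) : Fld (EE n A) := ⟨fMo n A false i, fMo_mem false i⟩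
/-- the field `b_i` -/
def bF (i : Fin n) : Fld (EE n A) := ⟨fMo n A true i, fMo_mem true i⟩

variable {n A}
/-- the field `β_i` -/
def βF (D : DS n A) (i : Fin n) : Fld (EE n A) := ⟨βMo D i, βMo_mem D i⟩
/-- the field `f(γ)` -/
def fnF (D : DS n A) (f : A) : Fld (EE n A) := ⟨fnMo D f, fnMo_mem D f⟩

end Flds

end Pool.Agent.AA3
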