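import Pool.Agent.Lib.MP_aa3aaf_al.PosForm
import Pool.Agent.Lib.MP_aa3aaf_al.Words
import Pool.Agent.Lib.MP_aa3aaf_al.CDo
import Pool.Agent.Lib.MP_aa3aaf_al.Twist
import Pool.Agent.Lib.MP_aa3aaf_al.Diag
import Pool.Agent.Lib.MP_aa3aaf_al.Eps
import Pool.Agent.Lib.MP_aa3aaf_al.TwCD
import Pool.Agent.Lib.MP_aa3aaf_al.Flat2

/-!
Word states over `R[ε]`: evaluation, Lemma A (weight zero word states are constants), `D_o` kills
word states.
-/

set_option autoImplicit false
open scoped BigOperators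
noncomputable section
namespace Pool.Agent.AA3

section Main
variable {n : ℕ} {R : Type*} [CommRing R] [Algebra ℂ R]

/-- the word state `u 1` over `(R, t ∂)` -/
def wst (D : DS n R) (fr : Frame n R) (φ : Fin n → Fin n → Fin n → ℂ) (u : WA) : EE n R :=
  rho (vsaE D) ((cdE D).Phi fr φ) ((cdE D).KK fr φ) u (vacE n R)

/-- word states over `R[ε]` -/
abbrev wstE (D : DS n R) (fr : Frame n R) (φ : Fin n → Fin n → Fin n → ℂ) (u : WA) :
    EE n (Polynomial R) := wst D.eps (fr.map Polynomial.C) φ u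

/-- hypotheses of the main theorem -/
structure MainHyp (C : PosR R) (D : DS n R) (fr : Frame n R) (φ : Fin n → Fin n → Fin n → ℂ) :
    Prop where
  conj_d : ∀ i f, C.conj (D.d i f) = D.d i (C.conj f)
  conj_e : ∀ a i, C.conj (fr.e a i) = fr.e a i
  conj_f : ∀ i a, C.conj (fr.f i a) = fr.f i a
  anti : CD.Anti φ
  real : ∀ a b c, star (φ a b c) = φ a b c
  stab : CD.Stab D fr φ
  contr : CD.Contr D fr φ
  norm : ∃ κ : ℂ, κ ≠ 0 ∧ ∀ a d, ∑ b, ∑ c, φ a b c * φ d b c = if a = d then κ else 0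

namespace M1

/-- base change is `ℂ`-linear if the ring homomorphism is -/
theorem tw_smul {A A' : Type*} [CommRing A] [Algebra ℂ A] [CommRing A'] [Algebra ℂ A']
    (h : A →+* A') (l m : ℂˣ) (hτ : ∀ z : ℂ, h (algebraMap ℂ A z) = algebraMap ℂ A' z)
    (z : ℂ) (v : EE n A) : tw h l m (z • v) = z • tw h l m v := by
  induction v using Finsupp.induction_linear with
  | zero => simp
  | add f g hf hg => rw [smul_add, map_add, map_add, smul_add, hf, hg]
  | single u a =>
    have h1 : h (z • a) = z • h a := by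
      rw [Algebra.smul_def, map_mul, hτ, ← Algebra.smul_def]
    rw [Finsupp.smul_single]
    simp only [tw, Finsupp.liftAddHom_apply_single, AddMonoidHom.comp_apply,
      Finsupp.singleAddHom_apply, AddMonoidHom.coe_mulLeft, RingHom.toAddMonoidHom_eq_coe,
      AddMonoidHom.coe_coe, h1, mul_smul_comm, Finsupp.smul_single]

theorem rhoL_one {E : Type*} [AddCommGroup E] [Module ℂ E] (V : VSA E) (Φ K v : E) :
    rhoL V Φ K 1 v = v := by
  rw [map_one, Module.End.one_apply]

theorem rhoL_of_mul {E : Type*} [AddCommGroup E] [Module ℂ E] (V : VSA E) (Φ K v : E) (l : WL)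
    (w : FreeMonoid WL) :
    rhoL V Φ K (FreeMonoid.of l * w) v
      = (if l.1 then V.Y K l.2 else V.Y Φ l.2) (rhoL V Φ K w v) := by
  rw [map_mul, Module.End.mul_apply, rhoL, FreeMonoid.lift_eval_of]

theorem rho_of {E : Type*} [AddCommGroup E] [Module ℂ E] (V : VSA E) (Φ K : E)
    (w : FreeMonoid WL) :
    rho V Φ K (MonoidAlgebra.of ℂ _ w) = rhoL V Φ K w := by
  rw [rho, MonoidAlgebra.lift_of]

/-- base change of word states -/
theorem tw_rhoL {A A' : Type*} [CommRing A] [Algebra ℂ A] [CommRing A'] [Algebra ℂ A']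
    (D : DS n A) (D' : DS n A') (h : A →+* A') (l m : ℂˣ)
    (hl : ∀ i f, h (D.d i f) = (l : ℂ) • D'.d i (h f)) (Φ K : EE n A) (Φ' K' : EE n A')
    (hΦ : tw h l m Φ = Φ') (hK : tw h l m K = K') (w : FreeMonoid WL) (v : EE n A) :
    tw h l m (rhoL (vsaE D) Φ K w v) = rhoL (vsaE D') Φ' K' w (tw h l m v) := by
  induction w using FreeMonoid.inductionOn' with
  | one => rw [rhoL_one, rhoL_one]
  | of_mul x xs ih =>
    rw [rhoL_of_mul, rhoL_of_mul, ← ih]
    split_ifs with hx
    · rw [tw_Y D D' h l m hl, hK]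
    · rw [tw_Y D D' h l m hl, hΦ]

theorem tw_rho {A A' : Type*} [CommRing A] [Algebra ℂ A] [CommRing A'] [Algebra ℂ A']
    (D : DS n A) (D' : DS n A') (h : A →+* A') (l m : ℂˣ)
    (hl : ∀ i f, h (D.d i f) = (l : ℂ) • D'.d i (h f))
    (hτ : ∀ z : ℂ, h (algebraMap ℂ A z) = algebraMap ℂ A' z)
    (Φ K : EE n A) (Φ' K' : EE n A')
    (hΦ : tw h l m Φ = Φ') (hK : tw h l m K = K') (u : WA) (v : EE n A) :
    tw h l m (rho (vsaE D) Φ K u v) = rho (vsaE D') Φ' K' u (tw h l m v) := by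
  induction u using MonoidAlgebra.induction_on with
  | of w => rw [rho_of, rho_of, tw_rhoL D D' h l m hl Φ K Φ' K' hΦ hK]
  | add u u' hu hu' =>
    rw [map_add, map_add, LinearMap.add_apply, LinearMap.add_apply, map_add, hu, hu']
  | smul z u hu =>
    rw [map_smul, map_smul, LinearMap.smul_apply, LinearMap.smul_apply, tw_smul h l m hτ, hu]

theorem eval_alg (t z : ℂ) :
    Polynomial.evalRingHom (algebraMap ℂ R t) (algebraMap ℂ (Polynomial R) z)
      = algebraMap ℂ R z := by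
  rw [Polynomial.coe_evalRingHom, IsScalarTower.algebraMap_apply ℂ R (Polynomial R),
    Polynomial.algebraMap_eq, Polynomial.eval_C]

theorem eps_coeff_succ (D : DS n R) (i : Fin n) (p : Polynomial R) (k : ℕ) :
    (D.eps.d i p).coeff (k + 1) = D.d i (p.coeff k) :=
  ((exists_eps D).choose_spec i p k).1

theorem eps_coeff_zero (D : DS n R) (i : Fin n) (p : Polynomial R) :
    (D.eps.d i p).coeff 0 = 0 :=
  ((exists_eps D).choose_spec i p 0).2

theorem eps_C (D : DS n R) (i : Fin n) (a : R) :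
    D.eps.d i (Polynomial.C a) = Polynomial.X * Polynomial.C (D.d i a) := by
  ext k
  rcases k with _ | k
  · rw [eps_coeff_zero, Polynomial.coeff_X_mul_zero]
  · rw [eps_coeff_succ, Polynomial.coeff_X_mul, Polynomial.coeff_C, Polynomial.coeff_C]
    split_ifs with hk
    · rfl
    · exact map_zero _

theorem s_eps (D : DS n R) (fr : Frame n R) (d a b : Fin n) :
    (fr.map Polynomial.C).s D.eps d a b = Polynomial.X * Polynomial.C (fr.s D d a b) := by
  simp only [Frame.s, Frame.map, Matrix.map_apply, eps_C, map_sum, map_mul, Finset.mul_sum]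
  refine Finset.sum_congr rfl fun j _ => Finset.sum_congr rfl fun i _ => ?_
  ring

theorem M_eps (D : DS n R) (fr : Frame n R) (a b d : Fin n) :
    (fr.map Polynomial.C).M D.eps a b d = Polynomial.X * Polynomial.C (fr.M D a b d) := by
  simp only [Frame.M, s_eps, map_add, map_sub]
  ring

theorem smul_C (z : ℂ) (a : R) :
    z • (Polynomial.X * Polynomial.C a) = Polynomial.X * Polynomial.C (z • a) := by
  rw [← Polynomial.smul_C, mul_smul_comm]

theorem Stab_eps {D : DS n R} {fr : Frame n R} {φ : Fin n → Fin n → Fin n → ℂ}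
    (h : CD.Stab D fr φ) : CD.Stab D.eps (fr.map Polynomial.C) φ := by
  intro e d b c
  have := h e d b c
  simp only [M_eps, smul_C, ← mul_add, ← map_add, ← Finset.mul_sum, ← map_sum, this, map_zero,
    mul_zero]

theorem Contr_eps {D : DS n R} {fr : Frame n R} {φ : Fin n → Fin n → Fin n → ℂ}
    (h : CD.Contr D fr φ) : CD.Contr D.eps (fr.map Polynomial.C) φ := by
  intro e c
  have := h e c
  simp only [M_eps, smul_C, ← Finset.mul_sum, ← map_sum, this, map_zero, mul_zero]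

theorem frame_map_map (fr : Frame n R) (t : ℂ) :
    (fr.map Polynomial.C).map (Polynomial.evalRingHom (algebraMap ℂ R t)) = fr := by
  obtain ⟨e, f, h1, h2⟩ := fr
  simp only [Frame.map, Frame.mk.injEq]
  constructor
  · ext i j; simp
  · ext i j; simp

theorem hl_eval (D : DS n R) (t : ℂ) (i : Fin n) (f : Polynomial R) :
    Polynomial.evalRingHom (algebraMap ℂ R t) (D.eps.d i f)
      = ((1 : ℂˣ) : ℂ) • (D.scale t).d i (Polynomial.evalRingHom (algebraMap ℂ R t) f) := by
  rw [Units.val_one, one_smul, Polynomial.coe_evalRingHom, DS.eps_eval]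

theorem ev_Phi (D : DS n R) (fr : Frame n R) (φ : Fin n → Fin n → Fin n → ℂ) (t : ℂ) :
    tw (Polynomial.evalRingHom (algebraMap ℂ R t)) 1 1
      ((cdE D.eps).Phi (fr.map Polynomial.C) φ) = (cdE (D.scale t)).Phi fr φ := by
  rw [tw_Phi D.eps (D.scale t) _ 1 (hl_eval D t) _ id (fun z => eval_alg t z), frame_map_map]
  rfl

theorem ev_KK (D : DS n R) (fr : Frame n R) (φ : Fin n → Fin n → Fin n → ℂ) (t : ℂ) :
    tw (Polynomial.evalRingHom (algebraMap ℂ R t)) 1 1
      ((cdE D.eps).KK (fr.map Polynomial.C) φ) = (cdE (D.scale t)).KK fr φ := by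
  simp only [CD.KK, CD.DD, LinearMap.add_apply, map_add]
  rw [tw_Q1 D.eps (D.scale t) _ 1 1 (hl_eval D t), tw_Q2 D.eps (D.scale t) _ 1 1 (hl_eval D t),
    ev_Phi]
  simp

theorem tw_vac {A A' : Type*} [CommRing A] [Algebra ℂ A] [CommRing A'] [Algebra ℂ A']
    (D : DS n A) (D' : DS n A') (h : A →+* A') (l m : ℂˣ) :
    tw h l m (vacE n A) = vacE n A' := (tw_gens D D' h l m).2.2.2.2.2

/-- the Euler derivation `ε d/dε` -/
def dl (R : Type*) [CommRing R] [Algebra ℂ R] : Derivation ℂ (Polynomial R) (Polynomial R) :=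
  (exists_epsdeps (R := R)).choose

theorem dl_coeff (p : Polynomial R) (k : ℕ) : (dl R p).coeff k = (k : ℂ) • p.coeff k :=
  (exists_epsdeps (R := R)).choose_spec p k

theorem dl_C (a : R) : dl R (Polynomial.C a) = 0 := by
  ext k
  rw [dl_coeff, Polynomial.coeff_C, Polynomial.coeff_zero]
  split_ifs with hk
  · simp [hk]
  · simp

theorem dl_eps (D : DS n R) (i : Fin n) (f : Polynomial R) :
    dl R (D.eps.d i f) - D.eps.d i (dl R f) = D.eps.d i f := by
  ext k
  rw [Polynomial.coeff_sub, dl_coeff]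
  rcases k with _ | k
  · rw [eps_coeff_zero, eps_coeff_zero]; simp
  · rw [eps_coeff_succ, eps_coeff_succ, dl_coeff, Derivation.map_smul, ← sub_smul]
    push_cast
    rw [add_sub_cancel_left, one_smul]

theorem eq_C_of_dl (p : Polynomial R) (h : dl R p = 0) : p = Polynomial.C (p.coeff 0) := by
  ext k
  rcases k with _ | k
  · rw [Polynomial.coeff_C_zero]
  · have h1 := congrArg (fun q => Polynomial.coeff q (k + 1)) h
    simp only [dl_coeff, Polynomial.coeff_zero] at h1
    rw [Polynomial.coeff_C_succ]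
    have h2 : ((k + 1 : ℕ) : ℂ) ≠ 0 := by exact_mod_cast Nat.succ_ne_zero k
    have h3 := congrArg (fun a => ((k + 1 : ℕ) : ℂ)⁻¹ • a) h1
    simpa only [smul_smul, inv_mul_cancel₀ h2, one_smul, smul_zero] using h3

theorem wcomp_of (h : ℤ) (w : FreeMonoid WL) :
    wcomp h (MonoidAlgebra.of ℂ _ w) = if degW w = h then MonoidAlgebra.of ℂ _ w else 0 := by
  unfold wcomp
  rw [MonoidAlgebra.of_apply, MonoidAlgebra.coeff_single]
  split_ifs with hw
  · rw [Finsupp.filter_single_of_pos (fun w => degW w = h) hw, MonoidAlgebra.ofCoeff_single]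
  · rw [Finsupp.filter_single_of_neg (fun w => degW w = h) hw, MonoidAlgebra.ofCoeff_zero]

theorem wcomp_add (h : ℤ) (u u' : WA) : wcomp h (u + u') = wcomp h u + wcomp h u' := by
  unfold wcomp
  rw [MonoidAlgebra.coeff_add, Finsupp.filter_add, MonoidAlgebra.ofCoeff_add]

theorem wcomp_smul (h : ℤ) (z : ℂ) (u : WA) : wcomp h (z • u) = z • wcomp h u := by
  unfold wcomp
  rw [MonoidAlgebra.coeff_smul, Finsupp.filter_smul, MonoidAlgebra.ofCoeff_smul]

end M1

variable {C : PosR R} {D : DS n R} {fr : Frame n R} {φ : Fin n → Fin n → Fin n → ℂ}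

/-! ### Task M1: file `LemA.lean` -/
/-- evaluation of word states -/
theorem ev_wst (t : ℂ) (u : WA) : evE t (wstE D fr φ u) = wst (D.scale t) fr φ u := by
  unfold evE wstE wst
  rw [M1.tw_rho D.eps (D.scale t) _ 1 1 (M1.hl_eval D t) (M1.eval_alg t) _ _ _ _
    (M1.ev_Phi D fr φ t) (M1.ev_KK D fr φ t), M1.tw_vac D.eps (D.scale t)]

theorem scale_zero : D.scale 0 = DS.zero n R := by
  unfold DS.scale DS.zero
  congr 1
  funext i
  rw [zero_smul]

theorem Do_wst (hyp : MainHyp C D fr φ) (u : WA) :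
    (cdE D.eps).Do (fr.map Polynomial.C) (wstE D fr φ u) = 0 := by
  unfold wstE wst
  rw [← vsaE_vac D.eps]
  exact der_word (vsaE D.eps) _ _ ((cdE D.eps).par_Phi _ φ) ((cdE D.eps).par_KK _ φ) _
    ((cdE D.eps).ODer_Do _) ((cdE D.eps).Do_vac _)
    ((cdE D.eps).Do_Phi _ φ hyp.anti (M1.Stab_eps hyp.stab) (M1.Contr_eps hyp.contr))
    ((cdE D.eps).Do_KK _ φ hyp.anti (M1.Stab_eps hyp.stab) (M1.Contr_eps hyp.contr)) u

theorem M1.lemA_word (hyp : MainHyp C D fr φ) (w : FreeMonoid WL) :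
    ∃ z : ℂ, vc n (Polynomial R) (wstE D fr φ (MonoidAlgebra.of ℂ _ w))
      = algebraMap ℂ (Polynomial R) z := by
  set V := vsaE D.eps with hV
  set G := cdE D.eps with hG
  set fr' := fr.map (Polynomial.C : R →+* Polynomial R) with hfr'
  have hwst : wstE D fr φ (MonoidAlgebra.of ℂ _ w)
      = rhoL V (G.Phi fr' φ) (G.KK fr' φ) w V.vac := by
    unfold wstE wst
    rw [M1.rho_of, vsaE_vac]
  have hHvac : HE n (Polynomial R) V.vac = 0 := by
    rw [vsaE_vac]
    have := (dg_gens D.eps (0 : Derivation ℂ (Polynomial R) (Polynomial R)) 2 1 2).2.2.2.2.2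
    exact this
  have hHvac' : HE n (Polynomial R) V.vac = ((0 : ℤ) : ℂ) • V.vac := by
    rw [hHvac, Int.cast_zero, zero_smul]
  -- weight of the state
  have hwt := H_word V (G.Phi fr' φ) (G.KK fr' φ) (HE n (Polynomial R)) (HE_Y D.eps)
    (HE_Phi D.eps fr' φ) (HE_KK D.eps fr' φ) w V.vac 0 hHvac'
  rw [add_zero] at hwt
  by_cases hd : degW w = 0
  swap
  · refine ⟨0, ?_⟩
    rw [map_zero, hwst]
    exact HE_vc _ (degW w) hd hwt
  -- weight zero
  rw [hd, Int.cast_zero, zero_smul] at hwt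
  have hsing := HE_zero _ hwt
  set N := dg (n := n) (M1.dl R : Polynomial R →ₗ[ℂ] Polynomial R) (-1) 0 0 with hN
  have hcomm : ∀ i f, M1.dl R (D.eps.d i f) - D.eps.d i (M1.dl R f)
      = ((0 : ℂ) - (-1)) • D.eps.d i f := by
    intro i f
    rw [M1.dl_eps, sub_neg_eq_add, zero_add, one_smul]
  have hcomm' : ∀ i f, M1.dl R (D.eps.d i f) - D.eps.d i (M1.dl R f) = D.eps.d i f := M1.dl_eps D
  have hNY : ∀ a (m : ℤ) v, N (V.Y a m v) = V.Y (N a) m v + V.Y a m (N v) := by
    intro a m v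
    have := dg_Y D.eps (M1.dl R) (-1) 0 0 hcomm a m v
    rw [zero_mul, zero_smul, sub_zero] at this
    exact this
  have hN0 : N V.vac = 0 := by
    rw [vsaE_vac]
    exact (dg_gens D.eps (M1.dl R) (-1) 0 0).2.2.2.2.2
  have he : ∀ a i, M1.dl R (fr'.e a i) = 0 := by
    intro a i
    exact M1.dl_C _
  have hf : ∀ a i, M1.dl R (fr'.f a i) = 0 := by
    intro a i
    exact M1.dl_C _
  have hstab := M1.Stab_eps hyp.stab
  have hcontr := M1.Contr_eps hyp.contr
  have hN1 : N (G.Phi fr' φ) = 0 := N_Phi D.eps fr' (M1.dl R) hcomm' he hf φ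
  have hN2 : N (G.KK fr' φ) = -G.Do fr' (G.F (G.Phi fr' φ)) := by
    rw [← G.Do_F_Phi fr' φ hyp.anti hstab hcontr]
    exact N_KK D.eps fr' (M1.dl R) hcomm' he hf φ
  obtain ⟨y, hy1, hy2⟩ := N_word V (G.Phi fr' φ) (G.KK fr' φ) (G.par_Phi fr' φ) (G.par_KK fr' φ)
    (G.Do fr') (G.ODer_Do fr') (G.Do_vac fr') (G.Do_Phi fr' φ hyp.anti hstab hcontr)
    (G.Do_KK fr' φ hyp.anti hstab hcontr) N (HE n (Polynomial R)) (G.F (G.Phi fr' φ))
    (G.F_par 1 _ (G.par_Phi fr' φ)) hNY hN0 hN1 hN2 (HE_Y D.eps) hHvac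
    (HE_Phi D.eps fr' φ) (HE_KK D.eps fr' φ) (HE_F_Phi D.eps fr' φ) w
  have hy0 : y = 0 := by
    rw [hd] at hy2
    exact HE_neg y (0 - 1) (by norm_num) hy2
  rw [hy0, map_zero, hsing] at hy1
  set p := vc n (Polynomial R) (rhoL V (G.Phi fr' φ) (G.KK fr' φ) w V.vac) with hp
  have hNp : N (Finsupp.single ((0, 0, ∅) : Mon n) p)
      = Finsupp.single ((0, 0, ∅) : Mon n) (M1.dl R p) := by
    have := (dg_gens D.eps (M1.dl R) (-1) 0 0).1 p
    rw [cdE_fn, cdE_fn] at this
    exact this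
  rw [hNp] at hy1
  have hdp : M1.dl R p = 0 := by
    have := DFunLike.congr_fun hy1 ((0, 0, ∅) : Mon n)
    simpa using this
  have hpC := M1.eq_C_of_dl p hdp
  -- the value at `ε = 0`
  obtain ⟨z, hz⟩ := Flat.flat_const fr φ (MonoidAlgebra.of ℂ _ w)
  refine ⟨z, ?_⟩
  rw [hwst, ← hp, hpC, IsScalarTower.algebraMap_apply ℂ R (Polynomial R),
    Polynomial.algebraMap_eq]
  congr 1
  rw [← hz, Polynomial.coeff_zero_eq_eval_zero]
  have h1 : evE 0 (wstE D fr φ (MonoidAlgebra.of ℂ _ w))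
      = wst (D.scale 0) fr φ (MonoidAlgebra.of ℂ _ w) := ev_wst 0 _
  have h2 : vc n R (evE 0 (wstE D fr φ (MonoidAlgebra.of ℂ _ w))) = Polynomial.eval 0 p := by
    rw [evE, tw_coeff, Polynomial.coe_evalRingHom, map_zero, hwst]
  rw [← h2, h1, scale_zero]
  rfl

theorem lemA (hyp : MainHyp C D fr φ) (u : WA) :
    ∃ z : ℂ, vc n (Polynomial R) (wstE D fr φ u) = algebraMap ℂ (Polynomial R) z := by
  induction u using MonoidAlgebra.induction_on with
  | of w => exact M1.lemA_word hyp w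
  | add u u' hu hu' =>
    obtain ⟨z, hz⟩ := hu
    obtain ⟨z', hz'⟩ := hu'
    refine ⟨z + z', ?_⟩
    rw [map_add, ← hz, ← hz']
    unfold wstE wst
    rw [map_add, LinearMap.add_apply, map_add]
  | smul c u hu =>
    obtain ⟨z, hz⟩ := hu
    refine ⟨c * z, ?_⟩
    rw [map_mul, ← hz]
    unfold wstE wst
    rw [map_smul, LinearMap.smul_apply, ← Algebra.smul_def, ← algebraMap_smul (Polynomial R) c,
      map_smul, algebraMap_smul]

/-- homogeneous components -/
theorem HE_wst (D : DS n R) (fr : Frame n R) (φ : Fin n → Fin n → Fin n → ℂ) (h : ℤ) (u : WA) :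
    HE n R (wst D fr φ (wcomp h u)) = (h : ℂ) • wst D fr φ (wcomp h u) := by
  have hHvac : HE n R (vsaE D).vac = ((0 : ℤ) : ℂ) • (vsaE D).vac := by
    rw [Int.cast_zero, zero_smul, vsaE_vac]
    exact (dg_gens D (0 : Derivation ℂ R R) 2 1 2).2.2.2.2.2
  induction u using MonoidAlgebra.induction_on with
  | of w =>
    rw [M1.wcomp_of]
    split_ifs with hw
    · unfold wst
      rw [M1.rho_of, ← vsaE_vac D]
      have := H_word (vsaE D) ((cdE D).Phi fr φ) ((cdE D).KK fr φ) (HE n R) (HE_Y D)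
        (HE_Phi D fr φ) (HE_KK D fr φ) w (vsaE D).vac 0 hHvac
      rw [add_zero, hw] at this
      exact this
    · unfold wst
      rw [map_zero, LinearMap.zero_apply, map_zero, smul_zero]
  | add u u' hu hu' =>
    rw [M1.wcomp_add]
    unfold wst at hu hu' ⊢
    rw [map_add, LinearMap.add_apply, map_add, smul_add, hu, hu']
  | smul c u hu =>
    rw [M1.wcomp_smul]
    unfold wst at hu ⊢
    rw [map_smul, LinearMap.smul_apply, map_smul, hu, smul_comm]

end Main

end Pool.Agent.AA3
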