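import Pool.Agent.Lib.MP_aa3aaf_al.LemA
import Pool.Agent.Lib.MP_aa3aaf_al.Flat3

/-!
Task M2: the conjugation `θ` on `E(R[ε])` and Lemma B.
-/

set_option autoImplicit false
set_option linter.unusedSectionVars false
open scoped BigOperators
noncomputable section
namespace Pool.Agent.AA3

namespace LemB

section Tw
variable {n : ℕ} {A A' A'' : Type*} [CommRing A] [Algebra ℂ A] [CommRing A'] [Algebra ℂ A']
  [CommRing A''] [Algebra ℂ A'']

/-- the scalar factor of `tw` -/
def twf (l m : ℂˣ) (w : Mon n) : ℂ :=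
  ((l⁻¹ ^ (Multiset.card w.1) * l ^ (Multiset.card w.2.1) *
          m ^ cnt false w.2.2 * m⁻¹ ^ cnt true w.2.2 : ℂˣ) : ℂ)

theorem tw_single (h : A →+* A') (l m : ℂˣ) (w : Mon n) (a : A) :
    tw h l m (Finsupp.single w a) = Finsupp.single w (algebraMap ℂ A' (twf l m w) * h a) := by
  simp only [tw, twf, Finsupp.liftAddHom_apply_single, AddMonoidHom.comp_apply,
    AddMonoidHom.coe_mulLeft, Finsupp.singleAddHom_apply]
  rfl

theorem tw_smul (h : A →+* A') (l m : ℂˣ) (r : A) (v : EE n A) :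
    tw h l m (r • v) = h r • tw h l m v := by
  induction v using Finsupp.induction_linear with
  | zero => simp
  | add f g hf hg => rw [smul_add, map_add, map_add, smul_add, hf, hg]
  | single w a =>
    rw [Finsupp.smul_single, tw_single, tw_single, Finsupp.smul_single, smul_eq_mul, smul_eq_mul,
      map_mul]
    congr 1
    ring

theorem tw_smulC (h : A →+* A') (l m : ℂˣ) (τ : ℂ → ℂ)
    (hτ : ∀ z, h (algebraMap ℂ A z) = algebraMap ℂ A' (τ z)) (z : ℂ) (v : EE n A) :
    tw h l m (z • v) = τ z • tw h l m v := by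
  rw [← algebraMap_smul A z v, tw_smul, hτ, algebraMap_smul]

theorem HE_single (w : Mon n) (a : A) :
    HE n A (Finsupp.single w a) = Finsupp.single w (wgt 2 1 2 w • a) := by
  simp only [HE, dg, Finsupp.lsum_single, LinearMap.comp_apply,
    zero_add, LinearMap.smul_apply, LinearMap.id_apply,
    Finsupp.lsingle_apply]

theorem HE_smul (r : A) (v : EE n A) : HE n A (r • v) = r • HE n A v := by
  induction v using Finsupp.induction_linear with
  | zero => simp
  | add f g hf hg => rw [smul_add, map_add, map_add, smul_add, hf, hg]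
  | single w a =>
    rw [Finsupp.smul_single, HE_single, HE_single, Finsupp.smul_single, smul_eq_mul, smul_eq_mul,
      mul_smul_comm]

/-- `HE` commutes with base change along a `ℂ`-linear map -/
theorem HE_tw (h : A →+* A') (hτ : ∀ z : ℂ, h (algebraMap ℂ A z) = algebraMap ℂ A' z)
    (l m : ℂˣ) (v : EE n A) : tw h l m (HE n A v) = HE n A' (tw h l m v) := by
  induction v using Finsupp.induction_linear with
  | zero => simp
  | add f g hf hg => rw [map_add, map_add, map_add, map_add, hf, hg]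
  | single w a =>
    rw [HE_single, tw_single, tw_single, HE_single, Algebra.smul_def, map_mul, hτ,
      Algebra.smul_def]
    congr 1
    ring

end Tw

section Theta
variable {n : ℕ} {R : Type*} [CommRing R] [Algebra ℂ R]

/-- conjugation of the coefficients and `ε ↦ -ε` -/
def cj (C : PosR R) : Polynomial R →+* Polynomial R :=
  (Polynomial.eval₂RingHom (Polynomial.C.comp C.conj) (-Polynomial.X))

theorem cj_C (C : PosR R) (r : R) : cj C (Polynomial.C r) = Polynomial.C (C.conj r) := by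
  simp [cj]

theorem cj_X (C : PosR R) : cj C Polynomial.X = -Polynomial.X := by
  simp [cj]

theorem cj_coeff (C : PosR R) (p : Polynomial R) (k : ℕ) :
    (cj C p).coeff k = (-1) ^ k * C.conj (p.coeff k) := by
  induction p using Polynomial.induction_on' with
  | add p q hp hq => rw [map_add, Polynomial.coeff_add, hp, hq, Polynomial.coeff_add, map_add,
      mul_add]
  | monomial m a =>
    have : cj C (Polynomial.monomial m a) = Polynomial.monomial m ((-1) ^ m * C.conj a) := by
      simp only [cj, Polynomial.coe_eval₂RingHom, Polynomial.eval₂_monomial, RingHom.comp_apply]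
      rw [neg_pow, ← Polynomial.C_mul_X_pow_eq_monomial, Polynomial.C_mul, Polynomial.C_pow,
        Polynomial.C_neg, Polynomial.C_1]
      ring
    rw [this, Polynomial.coeff_monomial, Polynomial.coeff_monomial]
    split_ifs with h
    · rw [h]
    · simp

theorem cj_alg (C : PosR R) (z : ℂ) :
    cj C (algebraMap ℂ (Polynomial R) z) = algebraMap ℂ (Polynomial R) (star z) := by
  rw [Polynomial.algebraMap_apply, cj_C, C.conj_alg, Polynomial.algebraMap_apply]

theorem eps_coeff_succ (D : DS n R) (i : Fin n) (p : Polynomial R) (k : ℕ) :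
    ((D.eps).d i p).coeff (k + 1) = D.d i (p.coeff k) := ((exists_eps D).choose_spec i p k).1

theorem eps_coeff_zero (D : DS n R) (i : Fin n) (p : Polynomial R) :
    ((D.eps).d i p).coeff 0 = 0 := ((exists_eps D).choose_spec i p 0).2

theorem cj_eps {C : PosR R} {D : DS n R} (hd : ∀ i f, C.conj (D.d i f) = D.d i (C.conj f))
    (i : Fin n) (p : Polynomial R) :
    cj C ((D.eps).d i p) = (((-1 : ℂˣ)) : ℂ) • (D.eps).d i (cj C p) := by
  ext k
  rw [Polynomial.coeff_smul, cj_coeff]
  rcases k with _ | k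
  · rw [eps_coeff_zero, eps_coeff_zero]; simp
  · rw [eps_coeff_succ, eps_coeff_succ, cj_coeff, hd, pow_succ]
    have : ((-1 : R)) ^ k * C.conj (p.coeff k) = ((-1 : ℂ) ^ k) • C.conj (p.coeff k) := by
      rw [Algebra.smul_def]; simp
    rw [this, Derivation.map_smul, Algebra.smul_def]
    simp [Algebra.smul_def]

theorem eps_X (D : DS n R) (i : Fin n) : (D.eps).d i Polynomial.X = 0 := by
  ext k
  rcases k with _ | k
  · rw [eps_coeff_zero]; simp
  · rw [eps_coeff_succ, Polynomial.coeff_X]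
    split_ifs <;> simp

theorem eps_Xpow (D : DS n R) (m : ℕ) (i : Fin n) : (D.eps).d i (Polynomial.X ^ m) = 0 := by
  rw [Derivation.leibniz_pow, eps_X]; simp

/-- the conjugation on states -/
def Th (n : ℕ) (C : PosR R) : EE n (Polynomial R) →+ EE n (Polynomial R) := tw (cj C) (-1) 1

theorem Th_smulC (C : PosR R) (z : ℂ) (v : EE n (Polynomial R)) :
    Th n C (z • v) = star z • Th n C v :=
  tw_smulC (cj C) (-1) 1 star (cj_alg C) z v

theorem Th_X (C : PosR R) (v : EE n (Polynomial R)) :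
    Th n C ((Polynomial.X : Polynomial R) • v) = -((Polynomial.X : Polynomial R) • Th n C v) := by
  rw [Th, tw_smul, cj_X, neg_smul]

theorem ev_Th (C : PosR R) (v : EE n (Polynomial R)) :
    evE 0 (Th n C v) = tw C.conj (-1) 1 (evE 0 v) := by
  induction v using Finsupp.induction_linear with
  | zero => simp
  | add f g hf hg => rw [map_add, map_add, map_add, map_add, hf, hg]
  | single w a =>
    rw [Th, tw_single, evE, tw_single, tw_single, tw_single]
    have h1 : twf 1 1 w = 1 := by simp [twf]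
    have h2 : ∀ p : Polynomial R, Polynomial.evalRingHom (algebraMap ℂ R 0) p = p.coeff 0 := by
      intro p; simp [Polynomial.coeff_zero_eq_eval_zero]
    rw [h1, map_one, one_mul, one_mul, h2, h2, Polynomial.algebraMap_apply,
      Polynomial.coeff_C_mul, cj_coeff, pow_zero, one_mul]

variable {C : PosR R} {D : DS n R} {fr : Frame n R} {φ : Fin n → Fin n → Fin n → ℂ}

theorem frame_cj (hyp : MainHyp C D fr φ) :
    (fr.map Polynomial.C).map (cj C) = fr.map Polynomial.C := by
  have h1 : (fr.e.map Polynomial.C).map (cj C) = fr.e.map Polynomial.C := by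
    ext a i : 2
    rw [Matrix.map_apply, Matrix.map_apply, cj_C, hyp.conj_e]
  have h2 : (fr.f.map Polynomial.C).map (cj C) = fr.f.map Polynomial.C := by
    ext a i : 2
    rw [Matrix.map_apply, Matrix.map_apply, cj_C, hyp.conj_f]
  simp only [Frame.map]
  congr 1

theorem Th_Phi (hyp : MainHyp C D fr φ) :
    Th n C ((cdE D.eps).Phi (fr.map Polynomial.C) φ) =
      (cdE D.eps).Phi (fr.map Polynomial.C) φ := by
  rw [Th, tw_Phi D.eps D.eps (cj C) (-1) (cj_eps hyp.conj_d) _ star (cj_alg C), frame_cj hyp]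
  congr 1
  funext a b c
  exact hyp.real a b c

theorem Th_KK (hyp : MainHyp C D fr φ) :
    Th n C ((cdE D.eps).KK (fr.map Polynomial.C) φ) =
      -(cdE D.eps).KK (fr.map Polynomial.C) φ := by
  have h1 : (((1 : ℂˣ) * (-1 : ℂˣ) : ℂˣ) : ℂ) = -1 := by simp
  have h2 : ((((1 : ℂˣ))⁻¹ * ((-1 : ℂˣ))⁻¹ : ℂˣ) : ℂ) = -1 := by simp
  have e1 := tw_Q1 D.eps D.eps (cj C) (-1) 1 (cj_eps hyp.conj_d)
    ((cdE D.eps).Phi (fr.map Polynomial.C) φ)
  have e2 := tw_Q2 D.eps D.eps (cj C) (-1) 1 (cj_eps hyp.conj_d)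
    ((cdE D.eps).Phi (fr.map Polynomial.C) φ)
  have e3 := Th_Phi hyp
  rw [Th] at e3
  rw [h1, e3] at e1
  rw [h2, e3] at e2
  simp only [CD.KK, CD.DD, LinearMap.add_apply, map_add]
  rw [Th, e1, e2]
  simp only [neg_smul, one_smul, neg_add]

theorem Th_Y (hyp : MainHyp C D fr φ) (a : EE n (Polynomial R)) (k : ℤ)
    (v : EE n (Polynomial R)) :
    Th n C ((vsaE D.eps).Y a k v) = (vsaE D.eps).Y (Th n C a) k (Th n C v) :=
  tw_Y D.eps D.eps (cj C) (-1) 1 (cj_eps hyp.conj_d) a k v

theorem Th_vac : Th n C (vacE n (Polynomial R)) = vacE n (Polynomial R) := by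
  have := tw_single (n := n) (cj C) (-1) 1 (0, 0, ∅) 1
  rw [Th, vacE, this]
  congr 1
  simp [twf, cnt]

theorem exists_rho (hyp : MainHyp C D fr φ) (th : WA → WA)
    (hadd : ∀ u v, th (u + v) = th u + th v) (hmul : ∀ u v, th (u * v) = th u * th v)
    (hone : th 1 = 1) (hsm : ∀ (c : ℂ) u, th (c • u) = star c • th u)
    (hf : ∀ m : ℤ, th (MonoidAlgebra.of ℂ _ (FreeMonoid.of ((false, m) : WL)))
      = MonoidAlgebra.of ℂ _ (FreeMonoid.of ((false, m) : WL)))
    (ht : ∀ m : ℤ, th (MonoidAlgebra.of ℂ _ (FreeMonoid.of ((true, m) : WL)))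
      = -MonoidAlgebra.of ℂ _ (FreeMonoid.of ((true, m) : WL))) (u : WA) :
    ∀ v, Th n C (rho (vsaE D.eps) ((cdE D.eps).Phi (fr.map Polynomial.C) φ)
        ((cdE D.eps).KK (fr.map Polynomial.C) φ) u v)
      = rho (vsaE D.eps) ((cdE D.eps).Phi (fr.map Polynomial.C) φ)
        ((cdE D.eps).KK (fr.map Polynomial.C) φ) (th u) (Th n C v) := by
  induction u using MonoidAlgebra.induction_on with
  | of w =>
    induction w using FreeMonoid.inductionOn' with
    | one => intro v; rw [map_one, hone, map_one]; rfl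
    | of_mul x w ih =>
      intro v
      rw [map_mul, hmul, map_mul, map_mul, Module.End.mul_apply, Module.End.mul_apply, ← ih]
      obtain ⟨t, m⟩ := x
      cases t
      · rw [hf, rho, MonoidAlgebra.lift_of]
        simp only [rhoL, FreeMonoid.lift_eval_of]
        simp only [Bool.false_eq_true, if_false]
        rw [Th_Y hyp, Th_Phi hyp]
      · rw [ht, map_neg, LinearMap.neg_apply, rho, MonoidAlgebra.lift_of]
        simp only [rhoL, FreeMonoid.lift_eval_of]
        simp only [if_true]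
        rw [Th_Y hyp, Th_KK hyp, map_neg]
        rfl
  | add f g hf hg =>
    intro v
    rw [hadd, map_add, map_add, LinearMap.add_apply, LinearMap.add_apply, map_add, hf, hg]
  | smul r f hf =>
    intro v
    rw [hsm, map_smul, map_smul, LinearMap.smul_apply, LinearMap.smul_apply, Th_smulC, hf]

end Theta

end LemB

section Main
variable {n : ℕ} {R : Type*} [CommRing R] [Algebra ℂ R]
variable {C : PosR R} {D : DS n R} {fr : Frame n R} {φ : Fin n → Fin n → Fin n → ℂ}

/-- the conjugation `θ` on `E(R[ε])` -/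
theorem exists_theta (hyp : MainHyp C D fr φ) : ∃ th : WA → WA,
    (∀ h u, wcomp h (th u) = th (wcomp h u)) ∧
    ∃ Θ : EE n (Polynomial R) →+ EE n (Polynomial R),
      (∀ u, Θ (wstE D fr φ u) = wstE D fr φ (th u)) ∧
      (∀ v, Θ ((Polynomial.X : Polynomial R) • v) = -((Polynomial.X : Polynomial R) • Θ v)) ∧
      (∀ v, evE 0 (Θ v) = tw C.conj (-1) 1 (evE 0 v)) := by
  obtain ⟨th, hadd, hmul, hone, hsm, hf, ht, hc⟩ := exists_thW
  refine ⟨th, hc, LemB.Th n C, fun u => ?_, LemB.Th_X C, LemB.ev_Th C⟩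
  simp only [wstE, wst]
  rw [LemB.exists_rho hyp th hadd hmul hone hsm hf ht, LemB.Th_vac]

end Main

namespace LemB
section B
variable {n : ℕ} {R : Type*} [CommRing R] [Algebra ℂ R]
variable {C : PosR R} {D : DS n R} {fr : Frame n R} {φ : Fin n → Fin n → Fin n → ℂ}

/-- modes are linear over `ε` -/
theorem Y_X_left (D : DS n R) (m : ℕ) (a v : EE n (Polynomial R)) (k : ℤ) :
    (vsaE D.eps).Y ((Polynomial.X : Polynomial R) ^ m • a) k v
      = (Polynomial.X : Polynomial R) ^ m • (vsaE D.eps).Y a k v :=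
  (Y_const_smul D.eps _ (eps_Xpow D m) a v k).1

theorem Y_X (D : DS n R) (m : ℕ) (a v : EE n (Polynomial R)) (k : ℤ) :
    (vsaE D.eps).Y a k ((Polynomial.X : Polynomial R) ^ m • v)
      = (Polynomial.X : Polynomial R) ^ m • (vsaE D.eps).Y a k v :=
  (Y_const_smul D.eps _ (eps_Xpow D m) a v k).2

theorem Xpow_inj (m : ℕ) (v : EE n (Polynomial R))
    (h : (Polynomial.X : Polynomial R) ^ m • v = 0) : v = 0 := by
  induction m with
  | zero => simpa using h
  | succ m ih => rw [pow_succ', mul_smul] at h; exact ih (X_smul_inj _ h)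

theorem Do_X (D : DS n R) (F : Frame n (Polynomial R)) (m : ℕ) (v : EE n (Polynomial R)) :
    (cdE D.eps).Do F ((Polynomial.X : Polynomial R) ^ m • v)
      = (Polynomial.X : Polynomial R) ^ m • (cdE D.eps).Do F v := by
  simp only [CD.Do, LinearMap.smul_apply, LinearMap.add_apply, LinearMap.sub_apply, CD.Q1, CD.Q2,
    CD.nm, CD.npl, LinearMap.sum_apply, VSA.zm, Y_X]
  rw [← Finset.smul_sum, ← Finset.smul_sum, ← Finset.smul_sum, ← Finset.smul_sum, ← smul_sub,
    ← smul_sub, ← smul_add, smul_comm]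

/-- evaluation at `ε = 0` of the coefficients -/
abbrev ev0 (R : Type*) [CommRing R] [Algebra ℂ R] : Polynomial R →+* R :=
  Polynomial.evalRingHom (algebraMap ℂ R 0)

theorem ev0_eq (p : Polynomial R) : ev0 R p = p.coeff 0 := by
  simp [Polynomial.coeff_zero_eq_eval_zero]

theorem ev0_C (r : R) : ev0 R (Polynomial.C r) = r := by simp

theorem ev0_alg (z : ℂ) : ev0 R (algebraMap ℂ (Polynomial R) z) = algebraMap ℂ R z := by
  rw [Polynomial.algebraMap_apply, ev0_C]

theorem ev0_d (D : DS n R) (i : Fin n) (p : Polynomial R) :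
    ev0 R ((D.eps).d i p) = ((1 : ℂˣ) : ℂ) • (DS.zero n R).d i (ev0 R p) := by
  rw [ev0_eq, eps_coeff_zero]
  simp [DS.zero]

theorem ev0_frame (fr : Frame n R) : (fr.map Polynomial.C).map (ev0 R) = fr := by
  obtain ⟨e, f, h1, h2⟩ := fr
  simp only [Frame.map]
  congr 1
  · ext a i : 2
    rw [Matrix.map_apply, Matrix.map_apply, ev0_C]
  · ext a i : 2
    rw [Matrix.map_apply, Matrix.map_apply, ev0_C]

theorem ev_Y (D : DS n R) (a : EE n (Polynomial R)) (k : ℤ) (v : EE n (Polynomial R)) :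
    evE 0 ((vsaE D.eps).Y a k v) = (Flat.V0 n R).Y (evE 0 a) k (evE 0 v) :=
  tw_Y D.eps (DS.zero n R) (ev0 R) 1 1 (ev0_d D) a k v

theorem ev_Phi (D : DS n R) (fr : Frame n R) (φ : Fin n → Fin n → Fin n → ℂ) :
    evE 0 ((cdE D.eps).Phi (fr.map Polynomial.C) φ) = (Flat.G0 n R).Phi fr φ := by
  rw [evE, tw_Phi D.eps (DS.zero n R) (ev0 R) 1 (ev0_d D) _ id ev0_alg, ev0_frame]
  rfl

theorem ev_KK (D : DS n R) (fr : Frame n R) (φ : Fin n → Fin n → Fin n → ℂ) :
    evE 0 ((cdE D.eps).KK (fr.map Polynomial.C) φ) = (Flat.G0 n R).KK fr φ := by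
  have h1 : (((1 : ℂˣ) * (1 : ℂˣ) : ℂˣ) : ℂ) = 1 := by simp
  have h2 : ((((1 : ℂˣ))⁻¹ * ((1 : ℂˣ))⁻¹ : ℂˣ) : ℂ) = 1 := by simp
  have e1 := tw_Q1 D.eps (DS.zero n R) (ev0 R) 1 1 (ev0_d D)
    ((cdE D.eps).Phi (fr.map Polynomial.C) φ)
  have e2 := tw_Q2 D.eps (DS.zero n R) (ev0 R) 1 1 (ev0_d D)
    ((cdE D.eps).Phi (fr.map Polynomial.C) φ)
  have e3 := ev_Phi D fr φ
  rw [evE] at e3
  rw [h1, e3, one_smul] at e1
  rw [h2, e3, one_smul] at e2
  simp only [CD.KK, CD.DD, LinearMap.add_apply, map_add]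
  rw [evE, e1, e2]

theorem ev_Do (D : DS n R) (fr : Frame n R) (v : EE n (Polynomial R)) :
    evE 0 ((cdE D.eps).Do (fr.map Polynomial.C) v) = (Flat.G0 n R).Do fr (evE 0 v) := by
  have := tw_Do D.eps (DS.zero n R) (ev0 R) (fun i f => by rw [ev0_d]; simp) ev0_alg
    (fr.map Polynomial.C) v
  rw [ev0_frame] at this
  exact this

theorem ev_HE (v : EE n (Polynomial R)) :
    evE 0 (HE n (Polynomial R) v) = HE n R (evE 0 v) := HE_tw (ev0 R) ev0_alg 1 1 v

theorem ev_smul (r : Polynomial R) (v : EE n (Polynomial R)) :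
    evE 0 (r • v) = ev0 R r • evE 0 v := tw_smul (ev0 R) 1 1 r v

theorem ev_smulC (z : ℂ) (v : EE n (Polynomial R)) : evE 0 (z • v) = z • evE 0 v :=
  tw_smulC (ev0 R) 1 1 id ev0_alg z v

theorem ev_vc (v : EE n (Polynomial R)) : vc n R (evE 0 v) = ev0 R (vc n (Polynomial R) v) :=
  tw_coeff (ev0 R) 1 1 v

theorem lemB_aux (hyp : MainHyp C D fr φ) (h : ℕ) : ∀ u : WA,
    HE n (Polynomial R) (wstE D fr φ u) = (h : ℂ) • wstE D fr φ u →
    (∀ u', vc n (Polynomial R) (wstE D fr φ (u' * u)) = 0) → wstE D fr φ u = 0 := by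
  induction h with
  | zero =>
    intro u hH h0
    have h1 : HE n (Polynomial R) (wstE D fr φ u) = 0 := by rw [hH]; simp
    have h2 := h0 1
    rw [one_mul] at h2
    rw [HE_zero _ h1, h2, Finsupp.single_zero]
  | succ h ih =>
    intro u hH h0
    by_contra hne
    obtain ⟨m, w1, hw, hs⟩ := exists_leading _ hne
    set w := wstE D fr φ u with hwdef
    set Ph := (cdE D.eps).Phi (fr.map Polynomial.C) φ with hPh
    set Kk := (cdE D.eps).KK (fr.map Polynomial.C) φ with hKk
    -- (a) the weight of `w1`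
    have hH1 : HE n (Polynomial R) w1 = ((h + 1 : ℕ) : ℂ) • w1 := by
      rw [hw, HE_smul, smul_comm, ← sub_eq_zero, ← smul_sub] at hH
      exact sub_eq_zero.mp (Xpow_inj m _ hH)
    have hHs : HE n R (evE 0 w1) = ((h + 1 : ℕ) : ℂ) • evE 0 w1 := by
      rw [← ev_HE, hH1, ev_smulC]
    -- (b) kernel of `D_o`
    have hDo : (Flat.G0 n R).Do fr (evE 0 w1) = 0 := by
      have h1 := Do_wst hyp u
      rw [← hwdef, hw, Do_X] at h1
      rw [← ev_Do D, Xpow_inj m _ h1, map_zero]
    have hminus := Flat.Do_ker fr (evE 0 w1) hDo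
    -- parities
    have pP : (vsaE D.eps).Par 1 Ph := CD.par_Phi (cdE D.eps) (fr.map Polynomial.C) φ
    have pK : (vsaE D.eps).Par 0 Kk := CD.par_KK (cdE D.eps) (fr.map Polynomial.C) φ
    -- (c) the operator `Γ`
    have hG : (vsaE D.eps).Y ((vsaE D.eps).Y Kk 1 Ph) 1 w = 0 := by
      have e1 : rho (vsaE D.eps) Ph Kk (MonoidAlgebra.of ℂ _ (FreeMonoid.of ((true, 1) : WL)) *
          MonoidAlgebra.of ℂ _ (FreeMonoid.of ((false, -1) : WL))) (vsaE D.eps).vac
          = (vsaE D.eps).Y Kk 1 Ph := by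
        rw [map_mul, Module.End.mul_apply, rho, MonoidAlgebra.lift_of, MonoidAlgebra.lift_of]
        simp only [rhoL, FreeMonoid.lift_eval_of, Bool.false_eq_true, if_false, if_true]
        rw [(vsaE D.eps).create]
      obtain ⟨u', hu'⟩ := exists_word (vsaE D.eps) Ph Kk pP pK
        (MonoidAlgebra.of ℂ _ (FreeMonoid.of ((true, 1) : WL)) *
          MonoidAlgebra.of ℂ _ (FreeMonoid.of ((false, -1) : WL))) 1 w
      rw [e1] at hu'
      have e2 : (vsaE D.eps).Y ((vsaE D.eps).Y Kk 1 Ph) 1 w = wstE D fr φ (u' * u) := by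
        rw [hu', hwdef]
        simp only [wstE, wst]
        rw [map_mul, Module.End.mul_apply]
      have e3 : HE n (Polynomial R) ((vsaE D.eps).Y Kk 1 Ph)
          = (3 : ℂ) • (vsaE D.eps).Y Kk 1 Ph := by
        rw [HE_Y, hKk, HE_KK, ← hKk, hPh, HE_Phi, ← hPh, map_smul, map_smul, Pi.smul_apply,
          LinearMap.smul_apply]
        push_cast
        module
      have e4 : HE n (Polynomial R) ((vsaE D.eps).Y ((vsaE D.eps).Y Kk 1 Ph) 1 w)
          = (h : ℂ) • (vsaE D.eps).Y ((vsaE D.eps).Y Kk 1 Ph) 1 w := by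
        rw [HE_Y, e3, hH, map_smul, map_smul, Pi.smul_apply, LinearMap.smul_apply]
        push_cast
        module
      rw [e2] at e4 ⊢
      refine ih _ e4 fun u'' => ?_
      rw [← mul_assoc]
      exact h0 _
    have hGs : (Flat.V0 n R).Y (Flat.Gst fr) 1 (evE 0 w1) = 0 := by
      rw [hw, Y_X] at hG
      have h1 := congrArg (evE 0) (Xpow_inj m _ hG)
      rw [map_zero, ev_Y, ev_Y, ev_KK, ev_Phi] at h1
      obtain ⟨κ, hκ, h3⟩ := hyp.norm
      rw [Flat.K1_Phi fr φ hyp.anti κ h3, map_smul, Pi.smul_apply, LinearMap.smul_apply] at h1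
      exact (smul_eq_zero.mp h1).resolve_left (mul_ne_zero (by norm_num) hκ)
    -- (d) the pairing
    obtain ⟨th, -, Θ, hΘ1, hΘ2, hΘ3⟩ := exists_theta hyp
    have hΘX : ∀ (k : ℕ) v, Θ ((Polynomial.X : Polynomial R) ^ k • v)
        = (-1 : ℂ) ^ k • ((Polynomial.X : Polynomial R) ^ k • Θ v) := by
      intro k
      induction k with
      | zero => intro v; simp
      | succ k ihk =>
        intro v
        rw [pow_succ, mul_smul, ihk, hΘ2, pow_succ, mul_smul, mul_smul]
        simp only [smul_neg, neg_smul, one_smul]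
    obtain ⟨u3, hu3⟩ := exists_word (vsaE D.eps) Ph Kk pP pK (th u) (((h + 1 : ℕ) : ℤ) - 1) w
    have e5 : vc n (Polynomial R) ((vsaE D.eps).Y (Θ w) (((h + 1 : ℕ) : ℤ) - 1) w) = 0 := by
      have e6 : Θ w = rho (vsaE D.eps) Ph Kk (th u) (vsaE D.eps).vac := by
        rw [hwdef, hΘ1, vsaE_vac]
        rfl
      rw [e6, hu3]
      have := h0 u3
      simp only [wstE, wst, map_mul, Module.End.mul_apply] at this
      exact this
    have e7 : vc n R ((Flat.V0 n R).Y (tw C.conj (-1) 1 (evE 0 w1)) (((h + 1 : ℕ) : ℤ) - 1)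
        (evE 0 w1)) = 0 := by
      have e8 : (vsaE D.eps).Y (Θ w) (((h + 1 : ℕ) : ℤ) - 1) w
          = (-1 : ℂ) ^ m • ((Polynomial.X : Polynomial R) ^ m • ((Polynomial.X : Polynomial R) ^ m •
            (vsaE D.eps).Y (Θ w1) (((h + 1 : ℕ) : ℤ) - 1) w1)) := by
        rw [hw, hΘX, Y_X, (vsaE D.eps).Y.map_smul, Pi.smul_apply, LinearMap.smul_apply, Y_X_left,
          smul_comm]
      rw [e8, LinearMap.map_smul_of_tower, map_smul, map_smul] at e5
      have e9 := (smul_eq_zero.mp e5).resolve_left (pow_ne_zero _ (by norm_num))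
      rw [smul_eq_mul, smul_eq_mul] at e9
      rw [← hΘ3, ← ev_Y, ev_vc,
        (Polynomial.monic_X_pow m).mul_right_eq_zero_iff.mp
          ((Polynomial.monic_X_pow m).mul_right_eq_zero_iff.mp e9), map_zero]
    exact hs (Flat.flat_positivity fr C hyp.conj_e (evE 0 w1) (h + 1) hHs hminus hGs e7)

end B
end LemB

section Main
variable {n : ℕ} {R : Type*} [CommRing R] [Algebra ℂ R]
variable {C : PosR R} {D : DS n R} {fr : Frame n R} {φ : Fin n → Fin n → Fin n → ℂ}

theorem lemB (hyp : MainHyp C D fr φ) (h : ℤ) (u : WA) (hu : wcomp h u = u)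
    (h0 : ∀ u', vc n (Polynomial R) (wstE D fr φ (u' * u)) = 0) : wstE D fr φ u = 0 := by
  have h1 : HE n (Polynomial R) (wstE D fr φ u) = (h : ℂ) • wstE D fr φ u := by
    have := HE_wst D.eps (fr.map Polynomial.C) φ h u
    rw [hu] at this
    exact this
  by_cases hh : h < 0
  · exact HE_neg _ h hh h1
  · obtain ⟨k, rfl⟩ := Int.eq_ofNat_of_zero_le (not_lt.mp hh)
    exact LemB.lemB_aux hyp k u (by rw [h1]; simp) h0

end Main

end Pool.Agent.AA3
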