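import Pool.Agent.Lib.MP_aa3aaf_al.LemA
import Pool.Agent.Lib.MP_aa3aaf_al.LemB

/-!
The main theorem: every nonzero word state is mapped to the vacuum by a word.
-/

set_option autoImplicit false
open scoped BigOperators
noncomputable section
namespace Pool.Agent.AA3

namespace M3

/-- induction for the algebra of words -/
theorem wa_induction {p : WA → Prop} (h0 : p 0) (hadd : ∀ u v, p u → p v → p (u + v))
    (hs : ∀ w (c : ℂ), p (MonoidAlgebra.single w c)) (u : WA) : p u := by
  induction u using MonoidAlgebra.induction_linear with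
  | zero => exact h0
  | add f g hf hg => exact hadd f g hf hg
  | single w c => exact hs w c

theorem wcomp_coeff (h : ℤ) (u : WA) (w : FreeMonoid WL) :
    (wcomp h u).coeff w = if degW w = h then u.coeff w else 0 := by
  classical
  simp only [wcomp, MonoidAlgebra.coeff_ofCoeff, Finsupp.filter_apply]

theorem wcomp_zero (h : ℤ) : wcomp h 0 = 0 := by
  ext w
  rw [wcomp_coeff]; simp

theorem wcomp_add (h : ℤ) (u v : WA) : wcomp h (u + v) = wcomp h u + wcomp h v := by
  ext w
  simp only [MonoidAlgebra.coeff_add, wcomp_coeff, Finsupp.add_apply]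
  split_ifs <;> simp

theorem wcomp_smul (h : ℤ) (c : ℂ) (u : WA) : wcomp h (c • u) = c • wcomp h u := by
  ext w
  simp only [MonoidAlgebra.coeff_smul, wcomp_coeff, Finsupp.smul_apply]
  split_ifs <;> simp

theorem wcomp_wcomp (h : ℤ) (u : WA) : wcomp h (wcomp h u) = wcomp h u := by
  ext w
  simp only [wcomp_coeff]
  split_ifs <;> simp

theorem wcomp_single (h : ℤ) (w : FreeMonoid WL) (c : ℂ) :
    wcomp h (MonoidAlgebra.single w c) = if degW w = h then MonoidAlgebra.single w c else 0 := by
  classical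
  ext w'
  rw [wcomp_coeff]
  by_cases hw : w = w'
  · subst hw
    split_ifs <;> simp
  · split_ifs <;> simp [MonoidAlgebra.coeff_single, Finsupp.single_apply, hw]

theorem degW_mul (w w' : FreeMonoid WL) : degW (w * w') = degW w + degW w' := by
  simp [degW, FreeMonoid.toList_mul]

theorem wcomp_mul (a b : ℤ) (u v : WA) :
    wcomp (a + b) (wcomp a u * wcomp b v) = wcomp a u * wcomp b v := by
  induction u using wa_induction with
  | h0 => simp [wcomp_zero]
  | hadd u u' hu hu' => rw [wcomp_add, add_mul, wcomp_add, hu, hu']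
  | hs w c =>
    induction v using wa_induction with
    | h0 => simp [wcomp_zero]
    | hadd v v' hv hv' => rw [wcomp_add b, mul_add, wcomp_add, hv, hv']
    | hs w' c' =>
      rw [wcomp_single, wcomp_single]
      split_ifs with h1 h2
      · rw [MonoidAlgebra.single_mul_single, wcomp_single, degW_mul, if_pos (by rw [h1, h2])]
      all_goals simp [wcomp_zero]

/-- an element of the algebra of words is the sum of its components -/
theorem sum_wcomp (u : WA) : ∃ S : Finset ℤ, (∀ h, h ∉ S → wcomp h u = 0) ∧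
    ∑ h ∈ S, wcomp h u = u := by
  classical
  refine ⟨u.coeff.support.image degW, fun h hh => ?_, ?_⟩
  · ext w
    rw [wcomp_coeff]
    split_ifs with h1
    · by_contra hne
      apply hh
      rw [← h1]
      exact Finset.mem_image_of_mem _ (Finsupp.mem_support_iff.mpr (by simpa using hne))
    · simp
  · ext w
    rw [MonoidAlgebra.coeff_sum, Finsupp.finset_sum_apply]
    simp only [wcomp_coeff]
    by_cases hw : u.coeff w = 0
    · rw [hw]
      exact Finset.sum_eq_zero fun h _ => by split_ifs <;> rfl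
    · rw [Finset.sum_eq_single (degW w)]
      · simp
      · intro b _ hb
        rw [if_neg (fun h => hb h.symm)]
      · intro hn
        exact absurd (Finset.mem_image_of_mem _ (Finsupp.mem_support_iff.mpr hw)) hn

end M3

section Main
variable {n : ℕ} {R : Type*} [CommRing R] [Algebra ℂ R]
variable {C : PosR R} {D : DS n R} {fr : Frame n R} {φ : Fin n → Fin n → Fin n → ℂ}

namespace M3

theorem wst_add (D : DS n R) (u v : WA) :
    wst D fr φ (u + v) = wst D fr φ u + wst D fr φ v := by
  simp [wst]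

theorem wst_smul (D : DS n R) (c : ℂ) (u : WA) :
    wst D fr φ (c • u) = c • wst D fr φ u := by
  simp [wst]

theorem wst_zero (D : DS n R) : wst D fr φ 0 = 0 := by
  simp [wst]

theorem wst_sum (D : DS n R) {ι : Type*} (S : Finset ι) (u : ι → WA) :
    wst D fr φ (∑ i ∈ S, u i) = ∑ i ∈ S, wst D fr φ (u i) := by
  simp [wst, map_sum, LinearMap.sum_apply]

theorem wst_mul (D : DS n R) (u v : WA) :
    wst D fr φ (u * v) = rho (vsaE D) ((cdE D).Phi fr φ) ((cdE D).KK fr φ) u (wst D fr φ v) := by
  simp [wst, map_mul]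

end M3

theorem main_thm (hyp : MainHyp C D fr φ) (u : WA) (t : ℂ)
    (hu : wst (D.scale t) fr φ u ≠ 0) :
    ∃ u' : WA, ∀ t' : ℂ, wst (D.scale t') fr φ (u' * u) = vacE n R := by
  classical
  -- the state over `R[ε]` is not zero
  have hE : wstE D fr φ u ≠ 0 := by
    intro h
    apply hu
    rw [← ev_wst, h, map_zero]
  obtain ⟨S, hS, hsum⟩ := M3.sum_wcomp u
  -- highest component
  set S' := S.filter (fun h => wstE D fr φ (wcomp h u) ≠ 0) with hS'
  have hne : S'.Nonempty := by
    by_contra hemp
    apply hE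
    rw [← hsum]
    show wst _ _ _ _ = 0
    rw [M3.wst_sum]
    refine Finset.sum_eq_zero fun h hh => ?_
    by_contra hz
    exact hemp ⟨h, Finset.mem_filter.mpr ⟨hh, hz⟩⟩
  set h0 := S'.max' hne with hh0
  have hmem : h0 ∈ S' := Finset.max'_mem _ _
  have hnz : wstE D fr φ (wcomp h0 u) ≠ 0 := (Finset.mem_filter.mp hmem).2
  have hbig : ∀ h, h0 < h → wstE D fr φ (wcomp h u) = 0 := by
    intro h hh
    by_contra hz
    by_cases hhS : h ∈ S
    · exact absurd (Finset.le_max' S' h (Finset.mem_filter.mpr ⟨hhS, hz⟩)) (not_le.mpr hh)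
    · apply hz
      rw [hS h hhS]
      exact M3.wst_zero _
  -- Lemma B
  obtain ⟨u1, hu1⟩ : ∃ u1, vc n (Polynomial R) (wstE D fr φ (u1 * wcomp h0 u)) ≠ 0 := by
    by_contra hall
    push_neg at hall
    exact hnz (lemB hyp h0 (wcomp h0 u) (M3.wcomp_wcomp _ _) hall)
  obtain ⟨z, hz⟩ := lemA hyp (u1 * wcomp h0 u)
  -- only the component of degree `-h0` of `u1` contributes
  have hcomp : vc n (Polynomial R) (wstE D fr φ (wcomp (-h0) u1 * wcomp h0 u))
      = algebraMap ℂ (Polynomial R) z := by
    rw [← hz]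
    obtain ⟨T, hT, hTsum⟩ := M3.sum_wcomp u1
    have hexp : wstE D fr φ (u1 * wcomp h0 u)
        = ∑ k ∈ T, wstE D fr φ (wcomp k u1 * wcomp h0 u) := by
      conv_lhs => rw [← hTsum]
      rw [Finset.sum_mul]
      exact M3.wst_sum _ _ _
    have hk : ∀ k, k ≠ -h0 →
        vc n (Polynomial R) (wstE D fr φ (wcomp k u1 * wcomp h0 u)) = 0 := by
      intro k hk
      refine HE_vc _ (k + h0) (by omega) ?_
      have := HE_wst D.eps (fr.map Polynomial.C) φ (k + h0) (wcomp k u1 * wcomp h0 u)
      rwa [M3.wcomp_mul] at this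
    rw [hexp, map_sum]
    by_cases hmemT : -h0 ∈ T
    · rw [Finset.sum_eq_single (-h0) (fun k _ hk' => hk k hk') (fun h => absurd hmemT h)]
    · rw [hT _ hmemT, zero_mul, Finset.sum_eq_zero (fun k hkT => hk k (fun h => hmemT (h ▸ hkT)))]
      show vc n (Polynomial R) (wst _ _ _ 0) = 0
      rw [M3.wst_zero, map_zero]
  have hz0 : z ≠ 0 := by
    rintro rfl
    rw [hz, map_zero] at hu1
    exact hu1 rfl
  set u2 : WA := z⁻¹ • wcomp (-h0) u1 with hu2
  have hvac : wstE D fr φ (u2 * u) = vacE n (Polynomial R) := by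
    have hexp : wstE D fr φ (u2 * u) = ∑ h ∈ S, wstE D fr φ (u2 * wcomp h u) := by
      conv_lhs => rw [← hsum]
      rw [Finset.mul_sum]
      exact M3.wst_sum _ _ _
    have hterm : ∀ h, h ≠ h0 → wstE D fr φ (u2 * wcomp h u) = 0 := by
      intro h hh
      rcases lt_or_gt_of_ne hh with hlt | hgt
      · refine HE_neg _ (-h0 + h) (by omega) ?_
        have := HE_wst D.eps (fr.map Polynomial.C) φ (-h0 + h) (wcomp (-h0) u1 * wcomp h u)
        rw [M3.wcomp_mul] at this
        rw [hu2, smul_mul_assoc]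
        show HE n (Polynomial R) (wst _ _ _ _) = _ • wst _ _ _ _
        rw [M3.wst_smul, map_smul, this, smul_comm]
      · show wst _ _ _ _ = 0
        rw [M3.wst_mul]
        have := hbig h hgt
        change wst _ _ _ _ = 0 at this
        rw [this, map_zero]
    have hmain : wstE D fr φ (u2 * wcomp h0 u) = vacE n (Polynomial R) := by
      have h1 : HE n (Polynomial R) (wstE D fr φ (u2 * wcomp h0 u)) = 0 := by
        have := HE_wst D.eps (fr.map Polynomial.C) φ (-h0 + h0) (wcomp (-h0) u1 * wcomp h0 u)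
        rw [M3.wcomp_mul] at this
        rw [hu2, smul_mul_assoc]
        show HE n (Polynomial R) (wst _ _ _ _) = _
        rw [M3.wst_smul, map_smul, this]
        simp
      rw [HE_zero _ h1]
      have h2 : vc n (Polynomial R) (wstE D fr φ (u2 * wcomp h0 u)) = 1 := by
        rw [hu2, smul_mul_assoc]
        show vc n (Polynomial R) (wst _ _ _ _) = _
        rw [M3.wst_smul]
        have h3 : vc n (Polynomial R) (z⁻¹ • wstE D fr φ (wcomp (-h0) u1 * wcomp h0 u))
            = z⁻¹ • vc n (Polynomial R) (wstE D fr φ (wcomp (-h0) u1 * wcomp h0 u)) := rfl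
        change vc n (Polynomial R) (z⁻¹ • wstE D fr φ (wcomp (-h0) u1 * wcomp h0 u)) = 1
        rw [h3, hcomp, Algebra.smul_def, ← map_mul, inv_mul_cancel₀ hz0, map_one]
      rw [h2]
      rfl
    rw [hexp]
    have hh0S : h0 ∈ S := (Finset.mem_filter.mp hmem).1
    rw [Finset.sum_eq_single h0 (fun h _ hh => hterm h hh) (fun h => absurd hh0S h)]
    exact hmain
  refine ⟨u2, fun t' => ?_⟩
  rw [← ev_wst, hvac]
  exact (tw_gens D.eps (D.scale t') (Polynomial.evalRingHom (algebraMap ℂ R t')) 1 1).2.2.2.2.2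

end Main

end Pool.Agent.AA3
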