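import Pool.Agent.Lib.MP_aa3aaf_al.Smooth

/-!
Lemmas on the rings `C^∞(U)`: inverses, square roots, conjugation, restriction and the smooth
Cholesky decomposition.
-/

set_option autoImplicit false
open scoped BigOperators ContDiff Topology
noncomputable section
namespace Pool.Agent.AA3
namespace SM
variable {n : ℕ} {U : TopologicalSpace.Opens (Eu n)}

/-- the extension by zero of a smooth function -/
def ex (f : smooth U) : Eu n → ℂ := ext0 (U : Set (Eu n)) f.1

theorem ex_coe (f : smooth U) (x : U) : ex f (x : Eu n) = f.1 x := ext0_apply _ _ _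

theorem ex_mem (f : smooth U) {x : Eu n} (h : x ∈ U) : ex f x = f.1 ⟨x, h⟩ := ex_coe f ⟨x, h⟩

theorem contDiffOn (f : smooth U) : ContDiffOn ℝ ∞ (ex f) U := f.2

theorem contDiffAt (f : smooth U) {x : Eu n} (hx : x ∈ U) : ContDiffAt ℝ ∞ (ex f) x :=
  (contDiffOn f).contDiffAt (U.isOpen.mem_nhds hx)

theorem differentiableAt (f : smooth U) {x : Eu n} (hx : x ∈ U) :
    DifferentiableAt ℝ (ex f) x :=
  (contDiffAt f hx).differentiableAt (by simp)

theorem ext_apply {f g : smooth U} (h : ∀ x : U, f.1 x = g.1 x) : f = g :=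
  Subtype.ext (funext h)

/-- A function smooth on `U`, as an element of `smooth U`. -/
def mk' (F : Eu n → ℂ) (hF : ContDiffOn ℝ ∞ F U) : smooth U :=
  ⟨fun x => F x, by
    change ContDiffOn ℝ ∞ (ext0 (U : Set (Eu n)) fun x : U => F x) U
    refine hF.congr ?_
    intro x hx
    exact ext0_apply (U : Set (Eu n)) (fun x : U => F x) ⟨x, hx⟩⟩

@[simp] theorem mk'_apply (F : Eu n → ℂ) (hF : ContDiffOn ℝ ∞ F U) (x : U) :
    (mk' F hF : smooth U).1 x = F x := rfl

theorem ex_mk' (F : Eu n → ℂ) (hF : ContDiffOn ℝ ∞ F U) {x : Eu n} (hx : x ∈ U) :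
    ex (mk' F hF : smooth U) x = F x := by
  rw [ex_mem _ hx]
  rfl

theorem ex_mk'_eventuallyEq (F : Eu n → ℂ) (hF : ContDiffOn ℝ ∞ F U) {x : Eu n} (hx : x ∈ U) :
    ex (mk' F hF : smooth U) =ᶠ[𝓝 x] F :=
  Filter.eventuallyEq_of_mem (U.isOpen.mem_nhds hx) fun _ hy => ex_mk' F hF hy

theorem d_apply (i : Fin n) (f : smooth U) (x : U) :
    ((DSmooth U).d i f).1 x = fderiv ℝ (ex f) x (eb i) := rfl

/-- Complex conjugation. -/
def conj (U : TopologicalSpace.Opens (Eu n)) : smooth U →+* smooth U where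
  toFun f := ⟨fun x => star (f.1 x), by
    change ContDiffOn ℝ ∞ (ext0 (U : Set (Eu n)) fun x : U => star (f.1 x)) U
    have h1 : ContDiffOn ℝ ∞ (fun x => (Complex.conjCLE : ℂ →L[ℝ] ℂ) (ex f x)) U :=
      (Complex.conjCLE : ℂ →L[ℝ] ℂ).contDiff.comp_contDiffOn (contDiffOn f)
    refine h1.congr ?_
    intro x hx
    rw [ex_mem _ hx]
    exact ext0_apply (U : Set (Eu n)) (fun x : U => star (f.1 x)) ⟨x, hx⟩⟩
  map_one' := ext_apply fun x => by
    change star (1 : ℂ) = 1
    exact star_one ℂ
  map_mul' f g := ext_apply fun x => by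
    change star (f.1 x * g.1 x) = star (f.1 x) * star (g.1 x)
    exact star_mul' _ _
  map_zero' := ext_apply fun x => by
    change star (0 : ℂ) = 0
    exact star_zero ℂ
  map_add' f g := ext_apply fun x => by
    change star (f.1 x + g.1 x) = star (f.1 x) + star (g.1 x)
    exact star_add _ _

@[simp] theorem conj_apply (f : smooth U) (x : U) : (conj U f).1 x = star (f.1 x) := rfl

theorem ex_conj (f : smooth U) : ex (conj U f) = fun x => (Complex.conjCLE : ℂ →L[ℝ] ℂ)
    (ex f x) := by
  funext x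
  by_cases h : x ∈ U
  · rw [ex_mem _ h, ex_mem _ h]
    rfl
  · have h' : x ∉ (U : Set (Eu n)) := h
    unfold ex
    rw [ext0_of_notMem _ _ h', ext0_of_notMem _ _ h']
    simp

theorem conj_d (i : Fin n) (f : smooth U) :
    conj U ((DSmooth U).d i f) = (DSmooth U).d i (conj U f) := by
  refine ext_apply fun x => ?_
  rw [conj_apply, d_apply, d_apply, ex_conj]
  have h := ((Complex.conjCLE : ℂ →L[ℝ] ℂ).hasFDerivAt.comp (x : Eu n)
    (differentiableAt f x.2).hasFDerivAt).fderiv
  have e : (⇑(Complex.conjCLE : ℂ →L[ℝ] ℂ) ∘ ex f)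
      = fun x => (Complex.conjCLE : ℂ →L[ℝ] ℂ) (ex f x) := rfl
  rw [e] at h
  rw [h]
  rfl

/-- Restriction to a smaller open set. -/
def res {U V : TopologicalSpace.Opens (Eu n)} (h : V ≤ U) : smooth U →ₐ[ℂ] smooth V where
  toFun f := mk' (ex f) ((contDiffOn f).mono h)
  map_one' := ext_apply fun x => by
    change ex (1 : smooth U) x = 1
    rw [ex_mem _ (h x.2)]
    rfl
  map_mul' f g := ext_apply fun x => by
    change ex (f * g) x = ex f x * ex g x
    rw [ex_mem _ (h x.2), ex_mem _ (h x.2), ex_mem _ (h x.2)]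
    rfl
  map_zero' := ext_apply fun x => by
    change ex (0 : smooth U) x = 0
    rw [ex_mem _ (h x.2)]
    rfl
  map_add' f g := ext_apply fun x => by
    change ex (f + g) x = ex f x + ex g x
    rw [ex_mem _ (h x.2), ex_mem _ (h x.2), ex_mem _ (h x.2)]
    rfl
  commutes' r := ext_apply fun x => by
    change ex (algebraMap ℂ (smooth U) r) x = r
    rw [ex_mem _ (h x.2)]
    rfl

theorem res_apply {U V : TopologicalSpace.Opens (Eu n)} (h : V ≤ U) (f : smooth U) (x : V) :
    (res h f).1 x = f.1 ⟨x, h x.2⟩ := by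
  change ex f x = _
  rw [ex_mem _ (h x.2)]

theorem res_d {U V : TopologicalSpace.Opens (Eu n)} (h : V ≤ U) (i : Fin n) (f : smooth U) :
    res h ((DSmooth U).d i f) = (DSmooth V).d i (res h f) := by
  refine ext_apply fun x => ?_
  rw [res_apply, d_apply, d_apply]
  change fderiv ℝ (ex f) x (eb i) = fderiv ℝ (ex (res h f)) x (eb i)
  have : ex (res h f) =ᶠ[𝓝 (x : Eu n)] ex f :=
    ex_mk'_eventuallyEq (ex f) ((contDiffOn f).mono h) x.2
  rw [this.fderiv_eq]

theorem res_conj {U V : TopologicalSpace.Opens (Eu n)} (h : V ≤ U) (f : smooth U) :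
    res h (conj U f) = conj V (res h f) := by
  refine ext_apply fun x => ?_
  rw [res_apply, conj_apply, conj_apply, res_apply]

/-- Functions without zeros are invertible. -/
theorem exists_inv (f : smooth U) (hf : ∀ x : U, f.1 x ≠ 0) :
    ∃ g : smooth U, f * g = 1 ∧ ∀ x : U, g.1 x = (f.1 x)⁻¹ := by
  have h1 : ContDiffOn ℝ ∞ (fun x => (ex f x)⁻¹) U :=
    (contDiffOn f).inv fun x hx => by
      rw [ex_mem _ hx]
      exact hf _
  refine ⟨mk' _ h1, ext_apply fun x => ?_, fun x => ?_⟩
  · change f.1 x * (ex f x)⁻¹ = 1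
    rw [ex_coe, mul_inv_cancel₀ (hf x)]
  · change (ex f x)⁻¹ = _
    rw [ex_coe]

theorem isUnit_iff (f : smooth U) : IsUnit f ↔ ∀ x : U, f.1 x ≠ 0 := by
  constructor
  · rintro ⟨u, rfl⟩ x h0
    have h1 := congrArg (fun g : smooth U => g.1 x) u.mul_inv
    change (u : smooth U).1 x * ((u⁻¹ : (smooth U)ˣ) : smooth U).1 x = 1 at h1
    rw [h0, zero_mul] at h1
    exact zero_ne_one h1
  · intro h
    obtain ⟨g, hg, -⟩ := exists_inv f h
    exact IsUnit.of_mul_eq_one g hg

/-- Positive real functions have smooth positive square roots. -/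
theorem exists_sqrt (f : smooth U) (hf : ∀ x : U, ∃ r : ℝ, 0 < r ∧ f.1 x = r) :
    ∃ g : smooth U, g * g = f ∧ ∀ x : U, ∃ r : ℝ, 0 < r ∧ g.1 x = r := by
  have h0 : ContDiffOn ℝ ∞ (fun x => (ex f x).re) U :=
    Complex.reCLM.contDiff.comp_contDiffOn (contDiffOn f)
  have hpos : ∀ x ∈ U, 0 < (ex f x).re := by
    intro x hx
    obtain ⟨r, hr, h⟩ := hf ⟨x, hx⟩
    rw [ex_mem _ hx, h]
    simpa using hr
  have h1 : ContDiffOn ℝ ∞ (fun x => Real.sqrt (ex f x).re) U :=
    h0.sqrt fun x hx => (hpos x hx).ne'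
  have h2 : ContDiffOn ℝ ∞ (fun x => ((Real.sqrt (ex f x).re : ℝ) : ℂ)) U :=
    Complex.ofRealCLM.contDiff.comp_contDiffOn h1
  refine ⟨mk' _ h2, ext_apply fun x => ?_, fun x => ?_⟩
  · change ((Real.sqrt (ex f x).re : ℝ) : ℂ) * ((Real.sqrt (ex f x).re : ℝ) : ℂ)
      = f.1 x
    rw [← Complex.ofReal_mul, Real.mul_self_sqrt (hpos x x.2).le, ex_coe]
    obtain ⟨r, hr, h⟩ := hf x
    rw [h]
    simp
  · exact ⟨_, Real.sqrt_pos.mpr (hpos x x.2), rfl⟩

/-- Real valued functions. -/
def IsRe (f : smooth U) : Prop := conj U f = f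

theorem isRe_iff (f : smooth U) : IsRe f ↔ ∀ x : U, (f.1 x).im = 0 := by
  constructor
  · intro h x
    have h1 := congrArg (fun g : smooth U => g.1 x) h
    change star (f.1 x) = f.1 x at h1
    exact Complex.conj_eq_iff_im.mp h1
  · intro h
    refine ext_apply fun x => ?_
    exact Complex.conj_eq_iff_im.mpr (h x)

theorem isRe_iff_star (f : smooth U) : IsRe f ↔ ∀ x : U, star (f.1 x) = f.1 x := by
  constructor
  · intro h x
    exact congrArg (fun g : smooth U => g.1 x) h
  · intro h
    exact ext_apply fun x => h x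

theorem IsRe.add {f g : smooth U} (hf : IsRe f) (hg : IsRe g) : IsRe (f + g) := by
  unfold IsRe at *
  rw [map_add, hf, hg]

theorem IsRe.sub {f g : smooth U} (hf : IsRe f) (hg : IsRe g) : IsRe (f - g) := by
  unfold IsRe at *
  rw [map_sub, hf, hg]

theorem IsRe.neg {f : smooth U} (hf : IsRe f) : IsRe (-f) := by
  unfold IsRe at *
  rw [map_neg, hf]

theorem IsRe.mul {f g : smooth U} (hf : IsRe f) (hg : IsRe g) : IsRe (f * g) := by
  unfold IsRe at *
  rw [map_mul, hf, hg]

theorem IsRe.zero : IsRe (0 : smooth U) := map_zero _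

theorem IsRe.one : IsRe (1 : smooth U) := map_one _

theorem IsRe.sum {ι : Type*} (s : Finset ι) {f : ι → smooth U} (hf : ∀ i ∈ s, IsRe (f i)) :
    IsRe (∑ i ∈ s, f i) := by
  unfold IsRe at *
  rw [map_sum]
  exact Finset.sum_congr rfl hf

theorem IsRe.res {U V : TopologicalSpace.Opens (Eu n)} (h : V ≤ U) {f : smooth U}
    (hf : IsRe f) : IsRe (res h f) := by
  unfold IsRe at *
  rw [← res_conj, hf]

theorem IsRe.of_mul {f g : smooth U} (hf : IsRe f) (h : f * g = 1) : IsRe g := by
  unfold IsRe at *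
  have h1 := congrArg (conj U) h
  rw [map_mul, hf, map_one] at h1
  calc conj U g = (f * g) * conj U g := by rw [h, one_mul]
    _ = (f * conj U g) * g := by ring
    _ = g := by rw [h1, one_mul]

/-- the real value at a point -/
def rv (f : smooth U) (x : U) : ℝ := (f.1 x).re

theorem rv_eq {f : smooth U} (hf : IsRe f) (x : U) : f.1 x = (rv f x : ℂ) := by
  refine Complex.ext rfl ?_
  rw [Complex.ofReal_im]
  exact (isRe_iff f).1 hf x

theorem rv_add (f g : smooth U) (x : U) : rv (f + g) x = rv f x + rv g x := Complex.add_re _ _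

theorem rv_sub (f g : smooth U) (x : U) : rv (f - g) x = rv f x - rv g x := Complex.sub_re _ _

theorem rv_mul {f g : smooth U} (hf : IsRe f) (_hg : IsRe g) (x : U) :
    rv (f * g) x = rv f x * rv g x := by
  have h1 := (isRe_iff f).1 hf x
  unfold rv
  change (f.1 x * g.1 x).re = _
  rw [Complex.mul_re, h1, zero_mul, sub_zero]

/-- Cholesky decomposition of a smooth positive definite matrix. -/
theorem exists_chol : ∀ (m : ℕ) (g : Matrix (Fin m) (Fin m) (smooth U)),
    (∀ i j, g i j = g j i) → (∀ i j, IsRe (g i j)) →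
    (∀ x : U, ∀ v : Fin m → ℝ, v ≠ 0 → 0 < ∑ i, ∑ j, v i * v j * rv (g i j) x) →
    ∃ e : Matrix (Fin m) (Fin m) (smooth U), e.transpose * e = g ∧ (∀ i j, IsRe (e i j)) := by
  intro m
  induction m with
  | zero =>
    intro g _ _ _
    exact ⟨0, by ext i; exact i.elim0, fun i => i.elim0⟩
  | succ m ih =>
    intro g hs hr hp
    have ha : ∀ x : U, 0 < rv (g 0 0) x := by
      intro x
      have h1 := hp x (Pi.single 0 1) (by
        intro h
        have := congrFun h 0
        simp at this)
      rw [Finset.sum_eq_single 0, Finset.sum_eq_single 0] at h1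
      · simpa using h1
      · intro j _ hj; simp [hj]
      · simp
      · intro i _ hi; simp [hi]
      · simp
    obtain ⟨α, hα, hαp⟩ := exists_sqrt (g 0 0) fun x => ⟨rv (g 0 0) x, ha x, rv_eq (hr 0 0) x⟩
    have hαr : IsRe α := (isRe_iff α).2 fun x => by
      obtain ⟨r, _, h⟩ := hαp x
      rw [h]; exact Complex.ofReal_im r
    obtain ⟨αi, hαi, -⟩ := exists_inv α fun x => by
      obtain ⟨r, h0, h⟩ := hαp x
      rw [h]; exact_mod_cast h0.ne'
    have hαir : IsRe αi := hαr.of_mul hαi
    obtain ⟨ai, hai, -⟩ := exists_inv (g 0 0) fun x => by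
      rw [rv_eq (hr 0 0) x]; exact_mod_cast (ha x).ne'
    have hair : IsRe ai := (hr 0 0).of_mul hai
    have haiv : ∀ x, rv ai x = (rv (g 0 0) x)⁻¹ := by
      intro x
      have h1 : rv (g 0 0 * ai) x = 1 := by rw [hai]; rfl
      rw [rv_mul (hr 0 0) hair] at h1
      exact eq_inv_of_mul_eq_one_right h1
    have haiα : αi * αi = ai := by
      calc αi * αi = (g 0 0 * ai) * (αi * αi) := by rw [hai, one_mul]
        _ = (α * αi) * (α * αi) * ai := by rw [← hα]; ring
        _ = ai := by rw [hαi]; ring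
    let g' : Matrix (Fin m) (Fin m) (smooth U) := fun i j =>
      g i.succ j.succ - g 0 i.succ * g 0 j.succ * ai
    obtain ⟨e', he', her'⟩ := ih g' (by
        intro i j
        simp only [g']
        rw [hs i.succ j.succ]; ring) (by
        intro i j
        exact (hr _ _).sub (((hr _ _).mul (hr _ _)).mul hair)) (by
        intro x v hv
        -- complete the square
        let t : ℝ := -(∑ j, v j * rv (g 0 j.succ) x) * (rv (g 0 0) x)⁻¹
        have h1 := hp x (Fin.cons t v) (by
          intro h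
          apply hv
          funext j
          have := congrFun h j.succ
          simpa using this)
        rw [Fin.sum_univ_succ, Fin.sum_univ_succ] at h1
        simp only [Fin.sum_univ_succ (n := m), Fin.cons_zero, Fin.cons_succ] at h1
        have e1 : ∑ i, ∑ j, v i * v j * rv (g' i j) x
            = ∑ i, ∑ j, v i * v j * rv (g i.succ j.succ) x
              - (∑ j, v j * rv (g 0 j.succ) x) ^ 2 * (rv (g 0 0) x)⁻¹ := by
          rw [sq, Finset.sum_mul_sum, Finset.sum_mul, ← Finset.sum_sub_distrib]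
          refine Finset.sum_congr rfl fun i _ => ?_
          rw [Finset.sum_mul, ← Finset.sum_sub_distrib]
          refine Finset.sum_congr rfl fun j _ => ?_
          simp only [g']
          rw [rv_sub, rv_mul ((hr _ _).mul (hr _ _)) hair, rv_mul (hr _ _) (hr _ _), haiv]
          ring
        have e2 : ∑ i : Fin m, v i * t * rv (g i.succ 0) x
            = t * ∑ j, v j * rv (g 0 j.succ) x := by
          rw [Finset.mul_sum]
          refine Finset.sum_congr rfl fun i _ => ?_
          rw [hs i.succ 0]; ring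
        have e3 : ∑ j : Fin m, t * v j * rv (g 0 j.succ) x
            = t * ∑ j, v j * rv (g 0 j.succ) x := by
          rw [Finset.mul_sum]
          refine Finset.sum_congr rfl fun i _ => ?_
          ring
        rw [Finset.sum_add_distrib, e2, e3] at h1
        rw [e1]
        set q := ∑ j, v j * rv (g 0 j.succ) x with hq
        have ha0 := (ha x).ne'
        have e4 : t * t * rv (g 0 0) x + t * q + (t * q) = - (q ^ 2 * (rv (g 0 0) x)⁻¹) := by
          simp only [t]
          field_simp
          ring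
        linarith)
    let e : Matrix (Fin (m + 1)) (Fin (m + 1)) (smooth U) := Matrix.of
      (Fin.cons (Fin.cons α fun j => g 0 j.succ * αi) fun i => Fin.cons 0 (e' i))
    have e00 : e 0 0 = α := rfl
    have e0s : ∀ j : Fin m, e 0 j.succ = g 0 j.succ * αi := fun j => rfl
    have es0 : ∀ i : Fin m, e i.succ 0 = 0 := fun i => rfl
    have ess : ∀ i j : Fin m, e i.succ j.succ = e' i j := fun i j => rfl
    refine ⟨e, ?_, ?_⟩
    · refine Matrix.ext fun i j => ?_
      rw [Matrix.mul_apply, Fin.sum_univ_succ]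
      simp only [Matrix.transpose_apply]
      refine Fin.cases ?_ (fun i => ?_) i <;> refine Fin.cases ?_ (fun j => ?_) j
      · simp only [es0, e00, mul_zero, Finset.sum_const_zero, add_zero, hα]
      · simp only [es0, e00, e0s, zero_mul, Finset.sum_const_zero, add_zero]
        calc α * (g 0 j.succ * αi) = (α * αi) * g 0 j.succ := by ring
          _ = g 0 j.succ := by rw [hαi, one_mul]
      · simp only [es0, e00, e0s, mul_zero, Finset.sum_const_zero, add_zero]
        calc g 0 i.succ * αi * α = (α * αi) * g 0 i.succ := by ring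
          _ = g i.succ 0 := by rw [hαi, one_mul, hs]
      · simp only [e0s, ess]
        have h1 := congrFun (congrFun he' i) j
        rw [Matrix.mul_apply] at h1
        simp only [Matrix.transpose_apply] at h1
        rw [h1]
        simp only [g']
        rw [← haiα]
        ring
    · intro i j
      refine Fin.cases ?_ (fun i => ?_) i <;> refine Fin.cases ?_ (fun j => ?_) j
      · exact hαr
      · exact (hr _ _).mul hαir
      · exact IsRe.zero
      · exact her' i j

end SM

end Pool.Agent.AA3
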