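import Pool.Agent.Lib.MP_aa3aaf_al.Sheaf
import Pool.Agent.Lib.MP_aa3aaf_al.JacDef
import Pool.Agent.Lib.MP_aa3aaf_al.SmoothLem
import Pool.Agent.Lib.MP_aa3aaf_al_h46.Geom

/-!
Overlaps of charts: transition maps, Jacobians, and the transformation law of tensors.
-/

set_option autoImplicit false
open scoped BigOperators ContDiff Manifold Topology
noncomputable section
namespace Pool.Agent.AA3
namespace OV

section general
variable {n : ℕ}

/-- A diffeomorphism between open subsets of `ℝⁿ`. -/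
structure Tr (U V : TopologicalSpace.Opens (Eu n)) where
  ψ : Eu n → Eu n
  φ : Eu n → Eu n
  sψ : ContDiffOn ℝ ∞ ψ U
  sφ : ContDiffOn ℝ ∞ φ V
  mψ : ∀ y ∈ U, ψ y ∈ V
  mφ : ∀ z ∈ V, φ z ∈ U
  inv₁ : ∀ y ∈ U, φ (ψ y) = y
  inv₂ : ∀ z ∈ V, ψ (φ z) = z

variable {U V : TopologicalSpace.Opens (Eu n)}

/-- the inverse -/
def Tr.symm (t : Tr U V) : Tr V U := ⟨t.φ, t.ψ, t.sφ, t.sψ, t.mφ, t.mψ, t.inv₂, t.inv₁⟩

/-- composition with the diffeomorphism -/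
def Tr.pull (t : Tr U V) : smooth V →ₐ[ℂ] smooth U where
  toFun f := SM.mk' (fun y => SM.ex f (t.ψ y)) ((SM.contDiffOn f).comp t.sψ t.mψ)
  map_one' := SM.ext_apply fun x => by
    change SM.ex (1 : smooth V) (t.ψ x) = 1
    rw [SM.ex_mem _ (t.mψ x x.2)]
    rfl
  map_mul' f g := SM.ext_apply fun x => by
    change SM.ex (f * g) (t.ψ x) = SM.ex f (t.ψ x) * SM.ex g (t.ψ x)
    rw [SM.ex_mem _ (t.mψ x x.2), SM.ex_mem _ (t.mψ x x.2), SM.ex_mem _ (t.mψ x x.2)]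
    rfl
  map_zero' := SM.ext_apply fun x => by
    change SM.ex (0 : smooth V) (t.ψ x) = 0
    rw [SM.ex_mem _ (t.mψ x x.2)]
    rfl
  map_add' f g := SM.ext_apply fun x => by
    change SM.ex (f + g) (t.ψ x) = SM.ex f (t.ψ x) + SM.ex g (t.ψ x)
    rw [SM.ex_mem _ (t.mψ x x.2), SM.ex_mem _ (t.mψ x x.2), SM.ex_mem _ (t.mψ x x.2)]
    rfl
  commutes' r := SM.ext_apply fun x => by
    change SM.ex (algebraMap ℂ (smooth V) r) (t.ψ x) = r
    rw [SM.ex_mem _ (t.mψ x x.2)]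
    rfl

theorem Tr.pull_apply (t : Tr U V) (f : smooth V) (y : U) :
    (t.pull f).1 y = f.1 ⟨t.ψ y, t.mψ y y.2⟩ := by
  change SM.ex f (t.ψ y) = _
  rw [SM.ex_mem _ (t.mψ y y.2)]

/-- complex coordinate functions -/
def cof (j : Fin n) : Eu n →L[ℝ] ℂ :=
  Complex.ofRealCLM.comp (EuclideanSpace.proj (𝕜 := ℝ) j)

theorem cof_apply (j : Fin n) (y : Eu n) : cof j y = ((y j : ℝ) : ℂ) := rfl

/-- the new coordinates as functions of the old ones -/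
def Tr.X (t : Tr U V) (j : Fin n) : smooth U :=
  SM.mk' (fun y => cof j (t.ψ y)) ((cof j).contDiff.comp_contDiffOn t.sψ)

theorem Tr.X_apply (t : Tr U V) (j : Fin n) (y : U) : (t.X j).1 y = ((t.ψ y j : ℝ) : ℂ) := rfl

/-- the derivative at a point -/
def Tr.A (t : Tr U V) (y : Eu n) : Eu n →L[ℝ] Eu n := fderiv ℝ t.ψ y

theorem Tr.hasFD (t : Tr U V) {y : Eu n} (hy : y ∈ U) : HasFDerivAt t.ψ (t.A y) y :=
  ((t.sψ.contDiffAt (U.isOpen.mem_nhds hy)).differentiableAt (by simp)).hasFDerivAt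

theorem Tr.A_comp (t : Tr U V) {y : Eu n} (hy : y ∈ U) :
    (t.A y).comp (t.symm.A (t.ψ y)) = ContinuousLinearMap.id ℝ (Eu n) := by
  have h1 : HasFDerivAt t.φ (t.symm.A (t.ψ y)) (t.ψ y) := t.symm.hasFD (t.mψ y hy)
  have h2 : HasFDerivAt t.ψ (t.A y) (t.φ (t.ψ y)) := by
    rw [t.inv₁ y hy]
    exact t.hasFD hy
  have h3 := h2.comp _ h1
  have h4 : (t.ψ ∘ t.φ) =ᶠ[𝓝 (t.ψ y)] id := by
    filter_upwards [V.isOpen.mem_nhds (t.mψ y hy)] with z hz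
    exact t.inv₂ z hz
  exact (h3.congr_of_eventuallyEq h4.symm).unique (hasFDerivAt_id _)

theorem Tr.A_A (t : Tr U V) {y : Eu n} (hy : y ∈ U) (v : Eu n) :
    t.A y (t.symm.A (t.ψ y) v) = v := by
  have h := congrArg (fun L : Eu n →L[ℝ] Eu n => L v) (t.A_comp hy)
  exact h

theorem eb_sum (v : Eu n) : ∑ i, v i • eb i = v := by
  ext k
  simp [eb, Finset.sum_apply, Pi.single_apply]

theorem Tr.d_X (t : Tr U V) (i j : Fin n) (y : U) :
    ((DSmooth U).d i (t.X j)).1 y = ((t.A y (eb i) j : ℝ) : ℂ) := by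
  rw [SM.d_apply]
  have h1 : SM.ex (t.X j) =ᶠ[𝓝 (y : Eu n)] fun y => cof j (t.ψ y) :=
    SM.ex_mk'_eventuallyEq _ _ y.2
  rw [h1.fderiv_eq]
  have h2 : HasFDerivAt (fun y => cof j (t.ψ y)) ((cof j).comp (t.A y)) (y : Eu n) :=
    (cof j).hasFDerivAt.comp (y : Eu n) (t.hasFD y.2)
  rw [h2.fderiv]
  rfl

theorem Tr.d_pull (t : Tr U V) (i : Fin n) (f : smooth V) (y : U) :
    ((DSmooth U).d i (t.pull f)).1 y = fderiv ℝ (SM.ex f) (t.ψ y) (t.A y (eb i)) := by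
  rw [SM.d_apply]
  have h1 : SM.ex (t.pull f) =ᶠ[𝓝 (y : Eu n)] fun y => SM.ex f (t.ψ y) :=
    SM.ex_mk'_eventuallyEq _ _ y.2
  rw [h1.fderiv_eq]
  have h2 : HasFDerivAt (fun y => SM.ex f (t.ψ y))
      ((fderiv ℝ (SM.ex f) (t.ψ y)).comp (t.A y)) (y : Eu n) :=
    (SM.differentiableAt f (t.mψ y y.2)).hasFDerivAt.comp (y : Eu n) (t.hasFD y.2)
  rw [h2.fderiv]
  rfl

theorem sum_apply' {ι : Type*} (s : Finset ι) (f : ι → smooth U) (y : U) :
    (∑ i ∈ s, f i).1 y = ∑ i ∈ s, (f i).1 y := by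
  classical
  induction s using Finset.induction_on with
  | empty => simp
  | insert a s ha ih =>
    rw [Finset.sum_insert ha, Finset.sum_insert ha, ← ih]
    rfl

theorem mul_apply' (f g : smooth U) (y : U) : (f * g).1 y = f.1 y * g.1 y := rfl

/-- Jacobian data of a diffeomorphism -/
def Tr.jac (t : Tr U V) : Jac (DSmooth U) :=
  have h : (Matrix.of fun j i => (DSmooth U).d i (t.X j)) *
      (Matrix.of fun i j => t.pull ((DSmooth V).d j (t.symm.X i))) = 1 := by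
    refine Matrix.ext fun j k => ?_
    refine SM.ext_apply fun y => ?_
    rw [Matrix.mul_apply, sum_apply']
    simp only [Matrix.of_apply, mul_apply', t.d_X, t.pull_apply]
    have h1 : ∀ i, ((DSmooth V).d k (t.symm.X i)).1 ⟨t.ψ y, t.mψ y y.2⟩
        = ((t.symm.A (t.ψ y) (eb k) i : ℝ) : ℂ) := fun i =>
      t.symm.d_X k i ⟨t.ψ y, t.mψ y y.2⟩
    simp only [h1]
    have h2 : ∑ i, (t.symm.A (t.ψ y) (eb k) i) * (t.A y (eb i) j) = (eb k : Eu n) j := by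
      have h3 := congrArg (fun v : Eu n => v j) (t.A_A y.2 (eb k))
      rw [← h3]
      change _ = (t.A y (t.symm.A (t.ψ y) (eb k))) j
      conv_rhs => rw [← eb_sum (t.symm.A (t.ψ y) (eb k))]
      rw [map_sum]
      simp
    have h4 : (∑ i, ((t.A y (eb i) j : ℝ) : ℂ) * ((t.symm.A (t.ψ y) (eb k) i : ℝ) : ℂ))
        = (((eb k : Eu n) j : ℝ) : ℂ) := by
      rw [← h2]
      push_cast
      exact Finset.sum_congr rfl fun i _ => mul_comm _ _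
    rw [h4]
    by_cases hjk : j = k
    · subst hjk
      rw [Matrix.one_apply_eq]
      simp [eb]
    · rw [Matrix.one_apply_ne hjk]
      simp [eb, hjk]
  { J := Matrix.of fun j i => (DSmooth U).d i (t.X j)
    F := Matrix.of fun i j => t.pull ((DSmooth V).d j (t.symm.X i))
    J_F := h
    F_J := mul_eq_one_comm.1 h
    closed := fun k j i => (DSmooth U).comm k i (t.X j) }

theorem Tr.jac_J (t : Tr U V) (j i : Fin n) : t.jac.J j i = (DSmooth U).d i (t.X j) := rfl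

theorem Tr.jac_F (t : Tr U V) (i j : Fin n) :
    t.jac.F i j = t.pull ((DSmooth V).d j (t.symm.X i)) := rfl

/-- the chain rule -/
theorem Tr.pull_d (t : Tr U V) (j : Fin n) (f : smooth V) :
    t.pull ((DSmooth V).d j f) = ∑ i, t.jac.F i j * (DSmooth U).d i (t.pull f) := by
  refine SM.ext_apply fun y => ?_
  rw [sum_apply', t.pull_apply, SM.d_apply]
  have h0 : ∀ i, (t.jac.F i j).1 y = ((t.symm.A (t.ψ y) (eb j) i : ℝ) : ℂ) := by
    intro i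
    rw [t.jac_F, t.pull_apply]
    exact t.symm.d_X j i ⟨t.ψ y, t.mψ y y.2⟩
  simp only [mul_apply', t.d_pull, h0]
  have h3 := t.A_A y.2 (eb j)
  conv_lhs => rw [← h3, ← eb_sum (t.symm.A (t.ψ y) (eb j))]
  rw [map_sum, map_sum]
  refine Finset.sum_congr rfl fun i _ => ?_
  rw [map_smul, map_smul, Complex.real_smul]

end general

section charts
variable {M : Type} [TopologicalSpace M] [ChartedSpace (Eu 7) M] [IsManifold 𝓘(ℝ, Eu 7) ∞ M]

theorem trn_smooth (e e' : Ch M) :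
    ContDiffOn ℝ ∞ (fun y => e'.1 (e.1.symm y)) (ovl e e' : Set (Eu 7)) := by
  have h : e.1.symm ≫ₕ e'.1 ∈ contDiffGroupoid ∞ 𝓘(ℝ, Eu 7) :=
    HasGroupoid.compatible e.2 e'.2
  have h1 := (mem_groupoid_of_pregroupoid.1 h).1
  have h2 : ContDiffOn ℝ ∞ (e.1.symm ≫ₕ e'.1) (e.1.symm ≫ₕ e'.1).source := by
    simpa [contDiffPregroupoid] using h1
  exact h2

/-- the transition map between two charts -/
def tr (e e' : Ch M) : Tr (ovl e e') (ovl e' e) where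
  ψ y := e'.1 (e.1.symm y)
  φ y := e.1 (e'.1.symm y)
  sψ := trn_smooth e e'
  sφ := trn_smooth e' e
  mψ y hy := by
    refine ⟨e'.1.map_source hy.2, ?_⟩
    change e'.1.symm (e'.1 (e.1.symm y)) ∈ e.1.source
    rw [e'.1.left_inv hy.2]
    exact e.1.map_target hy.1
  mφ y hy := by
    refine ⟨e.1.map_source hy.2, ?_⟩
    change e.1.symm (e.1 (e'.1.symm y)) ∈ e'.1.source
    rw [e.1.left_inv hy.2]
    exact e'.1.map_target hy.1
  inv₁ y hy := by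
    rw [e'.1.left_inv hy.2, e.1.right_inv hy.1]
  inv₂ y hy := by
    rw [e.1.left_inv hy.2, e'.1.right_inv hy.1]

omit [IsManifold 𝓘(ℝ, Eu 7) ∞ M] in
theorem ovl_le (e e' : Ch M) : ovl e e' ≤ tgt e.1 := fun _ hy => hy.1

theorem cvec_trn (e e' : Ch M) {y : Eu 7} (hy : y ∈ ovl e e') (v : Eu 7) :
    (mfderiv 𝓘(ℝ, Eu 7) 𝓘(ℝ, Eu 7) e.1.symm y : Eu 7 → Eu 7) v
      = (mfderiv 𝓘(ℝ, Eu 7) 𝓘(ℝ, Eu 7) e'.1.symm ((tr e e').ψ y) : Eu 7 → Eu 7)
        ((tr e e').A y v) := by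
  have : IsManifold 𝓘(ℝ, Eu 7) 1 M := IsManifold.of_le (n := ∞) (by norm_cast)
  have h1 : (e.1.symm : Eu 7 → M) =ᶠ[𝓝 y] (e'.1.symm : Eu 7 → M) ∘ (tr e e').ψ := by
    filter_upwards [(ovl e e').isOpen.mem_nhds hy] with z hz
    exact (e'.1.left_inv hz.2).symm
  rw [h1.mfderiv_eq]
  have h2 : MDifferentiableAt 𝓘(ℝ, Eu 7) 𝓘(ℝ, Eu 7) e'.1.symm ((tr e e').ψ y) :=
    (mdifferentiable_of_mem_atlas (I := 𝓘(ℝ, Eu 7)) e'.2).mdifferentiableAt_symm
      ((tr e e').mψ y hy).1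
  have h3 : HasMFDerivAt 𝓘(ℝ, Eu 7) 𝓘(ℝ, Eu 7) (tr e e').ψ y ((tr e e').A y) :=
    ((tr e e').hasFD hy).hasMFDerivAt
  rw [(h2.hasMFDerivAt.comp y h3).mfderiv]
  rfl

theorem cvec_eq (e e' : Ch M) {y : Eu 7} (hy : y ∈ ovl e e') (i : Fin 7) :
    (cvec e.1 i y : Eu 7)
      = ∑ a, (tr e e').A y (eb i) a • (cvec e'.1 a ((tr e e').ψ y) : Eu 7) := by
  let L : Eu 7 →L[ℝ] Eu 7 := mfderiv 𝓘(ℝ, Eu 7) 𝓘(ℝ, Eu 7) e'.1.symm ((tr e e').ψ y)
  have h1 : (cvec e.1 i y : Eu 7) = L ((tr e e').A y (eb i)) := cvec_trn e e' hy (eb i)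
  rw [h1]
  conv_lhs => rw [← eb_sum ((tr e e').A y (eb i))]
  rw [map_sum]
  refine Finset.sum_congr rfl fun a _ => ?_
  rw [map_smul]
  rfl

omit [TopologicalSpace M] [ChartedSpace (Eu 7) M] [IsManifold 𝓘(ℝ, Eu 7) ∞ M] in
theorem bil_law (B : Eu 7 →ₗ[ℝ] Eu 7 →ₗ[ℝ] ℝ) (q r : Fin 7 → ℝ) (w : Fin 7 → Eu 7) :
    B (∑ a, q a • w a) (∑ a, r a • w a) = ∑ a, ∑ b, B (w a) (w b) * (q a * r b) := by
  rw [map_sum B, LinearMap.sum_apply]
  refine Finset.sum_congr rfl fun a _ => ?_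
  rw [map_smul, LinearMap.smul_apply, map_sum, Finset.smul_sum]
  refine Finset.sum_congr rfl fun b _ => ?_
  rw [map_smul, smul_eq_mul, smul_eq_mul]
  ring

omit [TopologicalSpace M] [ChartedSpace (Eu 7) M] [IsManifold 𝓘(ℝ, Eu 7) ∞ M] in
theorem alt_law (B : (Eu 7) [⋀^Fin 3]→ₗ[ℝ] ℝ) (q r s : Fin 7 → ℝ) (w : Fin 7 → Eu 7) :
    B ![∑ a, q a • w a, ∑ a, r a • w a, ∑ a, s a • w a]
      = ∑ a, ∑ b, ∑ c, B ![w a, w b, w c] * (q a * (r b * s c)) := by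
  rw [LF.alt3_sum]
  refine Finset.sum_congr rfl fun a _ => Finset.sum_congr rfl fun b _ =>
    Finset.sum_congr rfl fun c _ => ?_
  ring

omit [IsManifold 𝓘(ℝ, Eu 7) ∞ M] in
theorem g_point (S : G2Structure M) {p q : M} (h : p = q) (u v : Eu 7) :
    (S.g p : Eu 7 →ₗ[ℝ] Eu 7 →ₗ[ℝ] ℝ) u v = (S.g q : Eu 7 →ₗ[ℝ] Eu 7 →ₗ[ℝ] ℝ) u v := by
  subst h
  rfl

omit [IsManifold 𝓘(ℝ, Eu 7) ∞ M] in
theorem φ_point (S : G2Structure M) {p q : M} (h : p = q) (u : Fin 3 → Eu 7) :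
    (S.φ p : (Eu 7) [⋀^Fin 3]→ₗ[ℝ] ℝ) u = (S.φ q : (Eu 7) [⋀^Fin 3]→ₗ[ℝ] ℝ) u := by
  subst h
  rfl

theorem g_law (S : G2Structure M) (e e' : Ch M) {y : Eu 7} (hy : y ∈ ovl e e') (i k : Fin 7) :
    S.g (e.1.symm y) (cvec e.1 i y) (cvec e.1 k y) =
      ∑ a, ∑ b, S.g (e'.1.symm ((tr e e').ψ y)) (cvec e'.1 a ((tr e e').ψ y))
        (cvec e'.1 b ((tr e e').ψ y)) *
        ((tr e e').A y (eb i) a * (tr e e').A y (eb k) b) := by
  have hp : e.1.symm y = e'.1.symm ((tr e e').ψ y) := (e'.1.left_inv hy.2).symm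
  have h1 := g_point S hp (cvec e.1 i y) (cvec e.1 k y)
  have h2 := bil_law (S.g (e'.1.symm ((tr e e').ψ y)) : Eu 7 →ₗ[ℝ] Eu 7 →ₗ[ℝ] ℝ)
    (fun a => (tr e e').A y (eb i) a) (fun a => (tr e e').A y (eb k) a)
    (fun a => (cvec e'.1 a ((tr e e').ψ y) : Eu 7))
  have h3 := congrArg₂ (fun u v : Eu 7 =>
    (S.g (e'.1.symm ((tr e e').ψ y)) : Eu 7 →ₗ[ℝ] Eu 7 →ₗ[ℝ] ℝ) u v)
    (cvec_eq e e' hy i) (cvec_eq e e' hy k)
  exact h1.trans (h3.trans h2)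

theorem φ_law (S : G2Structure M) (e e' : Ch M) {y : Eu 7} (hy : y ∈ ovl e e')
    (i k l : Fin 7) :
    S.φ (e.1.symm y) ![cvec e.1 i y, cvec e.1 k y, cvec e.1 l y] =
      ∑ a, ∑ b, ∑ c, S.φ (e'.1.symm ((tr e e').ψ y)) ![cvec e'.1 a ((tr e e').ψ y),
        cvec e'.1 b ((tr e e').ψ y), cvec e'.1 c ((tr e e').ψ y)] *
        ((tr e e').A y (eb i) a * ((tr e e').A y (eb k) b * (tr e e').A y (eb l) c)) := by
  have hp : e.1.symm y = e'.1.symm ((tr e e').ψ y) := (e'.1.left_inv hy.2).symm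
  have h1 := φ_point S hp ![cvec e.1 i y, cvec e.1 k y, cvec e.1 l y]
  have h2 := alt_law (S.φ (e'.1.symm ((tr e e').ψ y)) : (Eu 7) [⋀^Fin 3]→ₗ[ℝ] ℝ)
    (fun a => (tr e e').A y (eb i) a) (fun a => (tr e e').A y (eb k) a)
    (fun a => (tr e e').A y (eb l) a)
    (fun a => (cvec e'.1 a ((tr e e').ψ y) : Eu 7))
  have h3 : (S.φ (e'.1.symm ((tr e e').ψ y)) : (Eu 7) [⋀^Fin 3]→ₗ[ℝ] ℝ)
      ![(cvec e.1 i y : Eu 7), (cvec e.1 k y : Eu 7), (cvec e.1 l y : Eu 7)] =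
      (S.φ (e'.1.symm ((tr e e').ψ y)) : (Eu 7) [⋀^Fin 3]→ₗ[ℝ] ℝ)
      ![∑ a, (tr e e').A y (eb i) a • (cvec e'.1 a ((tr e e').ψ y) : Eu 7),
        ∑ a, (tr e e').A y (eb k) a • (cvec e'.1 a ((tr e e').ψ y) : Eu 7),
        ∑ a, (tr e e').A y (eb l) a • (cvec e'.1 a ((tr e e').ψ y) : Eu 7)] := by
    rw [← cvec_eq e e' hy i, ← cvec_eq e e' hy k, ← cvec_eq e e' hy l]
  exact h1.trans (h3.trans h2)

end charts

end OV

section
variable {M : Type} [TopologicalSpace M] [ChartedSpace (Eu 7) M] [IsManifold 𝓘(ℝ, Eu 7) ∞ M]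

open OV in
/-- The overlap of two charts: restriction, transport of functions, Jacobian data, chain rule and
the transformation law of the metric and the 3-form. -/
theorem exists_overlap (e e' : Ch M) :
    ∃ (r : CR e →ₐ[ℂ] smooth (ovl e e')) (h : CR e' →ₐ[ℂ] smooth (ovl e e'))
      (X : Fin 7 → smooth (ovl e e')) (jac : Jac (DSmooth (ovl e e'))),
      (∀ f y, (r f).1 y = f.1 ⟨y.1, y.2.1⟩) ∧
      (∀ f y, (h f).1 y = f.1 ⟨e'.1 (e.1.symm y.1), e'.1.map_source y.2.2⟩) ∧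
      (∀ j y, (X j).1 y = ((e'.1 (e.1.symm y.1) j : ℝ) : ℂ)) ∧
      (∀ j i, jac.J j i = (DSmooth (ovl e e')).d i (X j)) ∧
      (∀ i f, r ((DSmooth (tgt e.1)).d i f) = (DSmooth (ovl e e')).d i (r f)) ∧
      (∀ j f, h ((DSmooth (tgt e'.1)).d j f)
        = ∑ i, jac.F i j * (DSmooth (ovl e e')).d i (h f)) ∧
      (∀ (S : G2Structure M) i k, r (S.gR e i k)
        = ∑ a, ∑ b, h (S.gR e' a b) * (jac.J a i * jac.J b k)) ∧
      ∀ (S : G2Structure M) i k l, r (S.pR e i k l)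
        = ∑ a, ∑ b, ∑ c, h (S.pR e' a b c) * (jac.J a i * (jac.J b k * jac.J c l)) := by
  have hr : ∀ f y, (SM.res (ovl_le e e') f).1 y = f.1 ⟨y.1, y.2.1⟩ := fun f y =>
    SM.res_apply (ovl_le e e') f y
  have hh : ∀ (f : CR e') (y : ovl e e'), (((tr e e').pull.comp (SM.res (ovl_le e' e))) f).1 y
      = f.1 ⟨e'.1 (e.1.symm y.1), e'.1.map_source y.2.2⟩ := by
    intro f y
    change ((tr e e').pull (SM.res (ovl_le e' e) f)).1 y = _
    rw [Tr.pull_apply, SM.res_apply]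
    rfl
  have hJ : ∀ (a i : Fin 7) (y : ovl e e'), ((tr e e').jac.J a i).1 y
      = (((tr e e').A y (eb i) a : ℝ) : ℂ) := fun a i y => (tr e e').d_X i a y
  refine ⟨SM.res (ovl_le e e'), (tr e e').pull.comp (SM.res (ovl_le e' e)), (tr e e').X,
    (tr e e').jac, hr, hh, fun j y => rfl, fun j i => rfl, fun i f => SM.res_d _ i f, ?_, ?_, ?_⟩
  · intro j f
    change (tr e e').pull (SM.res (ovl_le e' e) ((DSmooth (tgt e'.1)).d j f)) = _
    rw [SM.res_d, Tr.pull_d]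
    rfl
  · intro S i k
    refine SM.ext_apply fun y => ?_
    rw [hr, sum_apply']
    change ((S.g (e.1.symm y.1) (cvec e.1 i y.1) (cvec e.1 k y.1) : ℝ) : ℂ) = _
    rw [g_law S e e' y.2 i k, Complex.ofReal_sum]
    refine Finset.sum_congr rfl fun a _ => ?_
    rw [sum_apply', Complex.ofReal_sum]
    refine Finset.sum_congr rfl fun b _ => ?_
    rw [mul_apply', mul_apply', hh, hJ, hJ, Complex.ofReal_mul, Complex.ofReal_mul]
    rfl
  · intro S i k l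
    refine SM.ext_apply fun y => ?_
    rw [hr, sum_apply']
    change ((S.φ (e.1.symm y.1) ![cvec e.1 i y.1, cvec e.1 k y.1, cvec e.1 l y.1] : ℝ) : ℂ) = _
    rw [φ_law S e e' y.2 i k l, Complex.ofReal_sum]
    refine Finset.sum_congr rfl fun a _ => ?_
    rw [sum_apply', Complex.ofReal_sum]
    refine Finset.sum_congr rfl fun b _ => ?_
    rw [sum_apply', Complex.ofReal_sum]
    refine Finset.sum_congr rfl fun c _ => ?_
    rw [mul_apply', mul_apply', mul_apply', hh, hJ, hJ, hJ, Complex.ofReal_mul,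
      Complex.ofReal_mul, Complex.ofReal_mul]
    rfl

end

end Pool.Agent.AA3
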