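import Pool.Agent.Lib.MP_aa3aaf_al.FockFld

/-!
Twisted base change of the Fock space: coefficients by a ring homomorphism `h`, `x ↦ l⁻¹ x`,
`β ↦ l β`, `c ↦ m c`, `b ↦ m⁻¹ b`. Definitions and the compatibility with the modes of the
generating fields.
-/

set_option autoImplicit false
open scoped BigOperators
noncomputable section
namespace Pool.Agent.AA3

section K5
variable {n : ℕ} {A A' : Type*} [CommRing A] [Algebra ℂ A] [CommRing A'] [Algebra ℂ A']

/-- number of letters `c` minus number of letters `b` -/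
def cnt (t : Bool) (S : Finset (Fl n)) : ℕ := (S.filter fun s => (ofLex s).1 = t).card

/-- twisted base change: coefficients by `h`, `x ↦ l⁻¹ x`, `β ↦ l β`, `c ↦ m c`, `b ↦ m⁻¹ b` -/
def tw (h : A →+* A') (l m : ℂˣ) : EE n A →+ EE n A' :=
  Finsupp.liftAddHom fun w : Mon n =>
    (Finsupp.singleAddHom w).comp
      ((AddMonoidHom.mulLeft (algebraMap ℂ A'
        (((l⁻¹ ^ (Multiset.card w.1) * l ^ (Multiset.card w.2.1) *
          m ^ cnt false w.2.2 * m⁻¹ ^ cnt true w.2.2 : ℂˣ) : ℂ)))).comp h.toAddMonoidHom)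

end K5

namespace TwistAux

set_option linter.unusedSectionVars false

variable {n : ℕ} {A A' : Type*} [CommRing A] [Algebra ℂ A] [CommRing A'] [Algebra ℂ A']

/-- the scalar attached to a monomial -/
def sc (l m : ℂˣ) (w : Mon n) : ℂˣ :=
  l⁻¹ ^ (Multiset.card w.1) * l ^ (Multiset.card w.2.1) *
          m ^ cnt false w.2.2 * m⁻¹ ^ cnt true w.2.2

lemma tw_single (h : A →+* A') (l m : ℂˣ) (w : Mon n) (r : A) :
    tw h l m (Finsupp.single w r) =
      Finsupp.single w (algebraMap ℂ A' ((sc l m w : ℂˣ) : ℂ) * h r) := by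
  simp only [tw, Finsupp.liftAddHom_apply_single, AddMonoidHom.coe_comp, Function.comp_apply,
    Finsupp.singleAddHom_apply, AddMonoidHom.coe_mulLeft, RingHom.toAddMonoidHom_eq_coe,
    AddMonoidHom.coe_coe, sc]

lemma tw_apply (h : A →+* A') (l m : ℂˣ) (v : EE n A) (w : Mon n) :
    (tw h l m v) w = algebraMap ℂ A' ((sc l m w : ℂˣ) : ℂ) * h (v w) := by
  induction v using Finsupp.induction_linear with
  | zero => simp
  | add f g hf hg => simp only [map_add, Finsupp.add_apply, hf, hg, mul_add]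
  | single w' r =>
    rw [tw_single]
    by_cases hw : w' = w
    · subst hw; simp
    · simp [Finsupp.single_eq_of_ne' hw]

lemma tw_smul (h : A →+* A') (l m : ℂˣ) (r : A) (v : EE n A) :
    tw h l m (r • v) = h r • tw h l m v := by
  ext w
  simp only [tw_apply, Finsupp.smul_apply, smul_eq_mul, map_mul]
  ring

lemma sc_zero (l m : ℂˣ) : sc l m ((0, 0, ∅) : Mon n) = 1 := by
  simp [sc, cnt]

lemma sc_xcons (l m : ℂˣ) (p : Bl n) (w : Mon n) :
    sc l m ((p ::ₘ w.1, w.2.1, w.2.2) : Mon n) = l⁻¹ * sc l m w := by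
  simp only [sc, Multiset.card_cons, pow_succ]
  ac_rfl

lemma sc_ycons (l m : ℂˣ) (p : Bl n) (w : Mon n) :
    sc l m ((w.1, p ::ₘ w.2.1, w.2.2) : Mon n) = l * sc l m w := by
  simp only [sc, Multiset.card_cons, pow_succ]
  ac_rfl

lemma cnt_insert (t : Bool) (s : Fl n) (S : Finset (Fl n)) (hs : s ∉ S) :
    cnt t (insert s S) = cnt t S + if (ofLex s).1 = t then 1 else 0 := by
  unfold cnt
  rw [Finset.filter_insert]
  split_ifs with h
  · rw [Finset.card_insert_of_notMem (fun h' => hs (Finset.mem_filter.mp h').1)]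
  · rfl

/-- the factor of a fermionic letter -/
def uf (m : ℂˣ) (t : Bool) : ℂˣ := if t then m⁻¹ else m

lemma sc_finsert (l m : ℂˣ) (s : Fl n) (w : Mon n) (hs : s ∉ w.2.2) :
    sc l m ((w.1, w.2.1, insert s w.2.2) : Mon n) = uf m (ofLex s).1 * sc l m w := by
  simp only [sc, cnt_insert _ _ _ hs, uf]
  cases (ofLex s).1
  · simp only [if_true, Bool.false_eq_true, if_false, pow_succ, add_zero]
    ac_rfl
  · simp only [if_true, Bool.true_eq_false, if_false, pow_succ, add_zero]
    ac_rfl

lemma sc_ferase (l m : ℂˣ) (s : Fl n) (w : Mon n) (hs : s ∈ w.2.2) :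
    sc l m w = uf m (ofLex s).1 * sc l m ((w.1, w.2.1, w.2.2.erase s) : Mon n) := by
  have h := sc_finsert l m s ((w.1, w.2.1, w.2.2.erase s) : Mon n) (Finset.notMem_erase _ _)
  rw [← h]
  simp only [Finset.insert_erase hs]

lemma sc_xerase (l m : ℂˣ) (p : Bl n) (w : Mon n) (hp : p ∈ w.1) :
    sc l m w = l⁻¹ * sc l m ((w.1.erase p, w.2.1, w.2.2) : Mon n) := by
  have h := sc_xcons l m p ((w.1.erase p, w.2.1, w.2.2) : Mon n)
  rw [← h]
  simp only [Multiset.cons_erase hp]

lemma sc_yerase (l m : ℂˣ) (p : Bl n) (w : Mon n) (hp : p ∈ w.2.1) :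
    sc l m w = l * sc l m ((w.1, w.2.1.erase p, w.2.2) : Mon n) := by
  have h := sc_ycons l m p ((w.1, w.2.1.erase p, w.2.2) : Mon n)
  rw [← h]
  simp only [Multiset.cons_erase hp]

/-- to compare additive maps on the Fock space it is enough to look at monomials -/
lemma ext_single {B : Type*} [AddCommGroup B] (f g : EE n A →+ B)
    (h : ∀ (w : Mon n) (r : A), f (Finsupp.single w r) = g (Finsupp.single w r)) (v : EE n A) :
    f v = g v := by
  have : f = g := by
    ext w r
    exact h w r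
  rw [this]

lemma csmul_single (c : ℂ) (w : Mon n) (r : A') :
    c • (Finsupp.single w r : EE n A') = Finsupp.single w (algebraMap ℂ A' c * r) := by
  rw [Finsupp.smul_single, Algebra.smul_def]

lemma tw_xcr (h : A →+* A') (l m : ℂˣ) (p : Bl n) (v : EE n A) :
    tw h l m (xcr p v) = ((l⁻¹ : ℂˣ) : ℂ) • xcr p (tw h l m v) := by
  refine ext_single ((tw h l m).comp (xcr p).toAddMonoidHom)
    ((DistribSMul.toAddMonoidHom _ ((l⁻¹ : ℂˣ) : ℂ)).comp
      ((xcr p).toAddMonoidHom.comp (tw h l m))) (fun w r => ?_) v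
  simp only [AddMonoidHom.coe_comp, Function.comp_apply, LinearMap.toAddMonoidHom_coe,
    DistribSMul.toAddMonoidHom_apply, xcr_single, tw_single, sc_xcons, csmul_single,
    Units.val_mul, map_mul, mul_assoc]

lemma tw_ycr (h : A →+* A') (l m : ℂˣ) (p : Bl n) (v : EE n A) :
    tw h l m (ycr p v) = (l : ℂ) • ycr p (tw h l m v) := by
  refine ext_single ((tw h l m).comp (ycr p).toAddMonoidHom)
    ((DistribSMul.toAddMonoidHom _ (l : ℂ)).comp
      ((ycr p).toAddMonoidHom.comp (tw h l m))) (fun w r => ?_) v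
  simp only [AddMonoidHom.coe_comp, Function.comp_apply, LinearMap.toAddMonoidHom_coe,
    DistribSMul.toAddMonoidHom_apply, ycr_single, tw_single, sc_ycons, csmul_single,
    Units.val_mul, map_mul, mul_assoc]

lemma cancel_aux (l : ℂˣ) (x y : A') (hx : x = algebraMap ℂ A' ((l⁻¹ : ℂˣ) : ℂ) * y) :
    algebraMap ℂ A' (l : ℂ) * x = y := by
  rw [hx, ← mul_assoc, ← map_mul, ← Units.val_mul, mul_inv_cancel, Units.val_one, map_one, one_mul]

lemma tw_xan (h : A →+* A') (l m : ℂˣ) (p : Bl n) (v : EE n A) :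
    tw h l m (xan p v) = (l : ℂ) • xan p (tw h l m v) := by
  refine ext_single ((tw h l m).comp (xan p).toAddMonoidHom)
    ((DistribSMul.toAddMonoidHom _ (l : ℂ)).comp
      ((xan p).toAddMonoidHom.comp (tw h l m))) (fun w r => ?_) v
  simp only [AddMonoidHom.coe_comp, Function.comp_apply, LinearMap.toAddMonoidHom_coe,
    DistribSMul.toAddMonoidHom_apply, xan_single, tw_single, csmul_single]
  by_cases hp : p ∈ w.1
  · congr 1
    rw [sc_xerase l m p w hp, map_mul, map_natCast]
    symm
    apply cancel_aux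
    rw [Units.val_mul, map_mul]
    ring
  · rw [Multiset.count_eq_zero_of_notMem hp]
    simp

lemma tw_yan (h : A →+* A') (l m : ℂˣ) (p : Bl n) (v : EE n A) :
    tw h l m (yan p v) = ((l⁻¹ : ℂˣ) : ℂ) • yan p (tw h l m v) := by
  refine ext_single ((tw h l m).comp (yan p).toAddMonoidHom)
    ((DistribSMul.toAddMonoidHom _ ((l⁻¹ : ℂˣ) : ℂ)).comp
      ((yan p).toAddMonoidHom.comp (tw h l m))) (fun w r => ?_) v
  simp only [AddMonoidHom.coe_comp, Function.comp_apply, LinearMap.toAddMonoidHom_coe,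
    DistribSMul.toAddMonoidHom_apply, yan_single, tw_single, csmul_single]
  by_cases hp : p ∈ w.2.1
  · congr 1
    rw [sc_yerase l m p w hp, map_mul, map_natCast]
    symm
    apply cancel_aux
    rw [inv_inv, Units.val_mul, map_mul]
    ring
  · rw [Multiset.count_eq_zero_of_notMem hp]
    simp

lemma map_fsg (h : A →+* A') (t : Fl n) (S : Finset (Fl n)) : h (fsg A t S) = fsg A' t S := by
  simp only [fsg, map_pow, map_neg, map_one]

lemma tw_fcr (h : A →+* A') (l m : ℂˣ) (t : Fl n) (v : EE n A) :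
    tw h l m (fcr t v) = ((uf m (ofLex t).1 : ℂˣ) : ℂ) • fcr t (tw h l m v) := by
  refine ext_single ((tw h l m).comp (fcr t).toAddMonoidHom)
    ((DistribSMul.toAddMonoidHom _ ((uf m (ofLex t).1 : ℂˣ) : ℂ)).comp
      ((fcr t).toAddMonoidHom.comp (tw h l m))) (fun w r => ?_) v
  simp only [AddMonoidHom.coe_comp, Function.comp_apply, LinearMap.toAddMonoidHom_coe,
    DistribSMul.toAddMonoidHom_apply, fcr_single, tw_single]
  by_cases ht : t ∈ w.2.2
  · simp only [ht, if_true, map_zero, smul_zero]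
  · simp only [ht, if_false, tw_single, csmul_single, sc_finsert l m t w ht, Units.val_mul,
      map_mul, map_fsg, mul_assoc]

lemma tw_fan (h : A →+* A') (l m : ℂˣ) (t : Fl n) (v : EE n A) :
    tw h l m (fan t v) = (((uf m (ofLex t).1)⁻¹ : ℂˣ) : ℂ) • fan t (tw h l m v) := by
  refine ext_single ((tw h l m).comp (fan t).toAddMonoidHom)
    ((DistribSMul.toAddMonoidHom _ (((uf m (ofLex t).1)⁻¹ : ℂˣ) : ℂ)).comp
      ((fan t).toAddMonoidHom.comp (tw h l m))) (fun w r => ?_) v
  simp only [AddMonoidHom.coe_comp, Function.comp_apply, LinearMap.toAddMonoidHom_coe,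
    DistribSMul.toAddMonoidHom_apply, fan_single, tw_single]
  by_cases ht : t ∈ w.2.2
  · simp only [ht, if_true, tw_single, csmul_single]
    congr 1
    rw [sc_ferase l m t w ht, map_mul, map_fsg]
    symm
    apply cancel_aux
    rw [inv_inv, Units.val_mul, map_mul]
    ring
  · simp only [ht, if_false, map_zero, smul_zero]

lemma tw_intCast_smul (h : A →+* A') (l m : ℂˣ) (k : ℤ) (v : EE n A) :
    tw h l m ((k : ℂ) • v) = (k : ℂ) • tw h l m v := by
  rw [Int.cast_smul_eq_zsmul, Int.cast_smul_eq_zsmul, map_zsmul]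

/-- factor `l⁻¹` for `x` -/
lemma tw_xMo (h : A →+* A') (l m : ℂˣ) (i : Fin n) (k : ℤ) (v : EE n A) :
    tw h l m (xMo n A i k v) = ((l⁻¹ : ℂˣ) : ℂ) • xMo n A' i k (tw h l m v) := by
  unfold xMo
  by_cases h1 : k < 0
  · simp only [h1, if_true, LinearMap.restrictScalars_apply, tw_xcr]
  · by_cases h2 : k = 0
    · subst h2
      simp
    · simp only [h1, h2, if_false, LinearMap.smul_apply, LinearMap.restrictScalars_apply,
        tw_intCast_smul, tw_yan]
      rw [smul_comm]

lemma tw_dA (D : DS n A) (D' : DS n A') (h : A →+* A') (l m : ℂˣ)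
    (hl : ∀ i f, h (D.d i f) = (l : ℂ) • D'.d i (h f)) (i : Fin n) (v : EE n A) :
    tw h l m (dA D i v) = (l : ℂ) • dA D' i (tw h l m v) := by
  ext w
  have e1 : ∀ (v : EE n A), (dA D i v) w = D.d i (v w) := fun v => by
    simp [dA]
  have e2 : ∀ (v : EE n A'), (dA D' i v) w = D'.d i (v w) := fun v => by
    simp [dA]
  rw [tw_apply, e1, hl, Finsupp.smul_apply, e2, tw_apply, Derivation.leibniz,
    Derivation.map_algebraMap, smul_zero, add_zero, smul_eq_mul, mul_smul_comm]

/-- factor `l` for `β` -/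
lemma tw_βMo (D : DS n A) (D' : DS n A') (h : A →+* A') (l m : ℂˣ)
    (hl : ∀ i f, h (D.d i f) = (l : ℂ) • D'.d i (h f)) (i : Fin n) (k : ℤ) (v : EE n A) :
    tw h l m (βMo D i k v) = (l : ℂ) • βMo D' i k (tw h l m v) := by
  unfold βMo
  by_cases h1 : k < 0
  · simp only [h1, if_true, LinearMap.restrictScalars_apply, tw_ycr]
  · by_cases h2 : k = 0
    · subst h2
      simp only [lt_self_iff_false, if_false, if_true]
      exact tw_dA D D' h l m hl i v
    · simp only [h1, h2, if_false, LinearMap.smul_apply, LinearMap.restrictScalars_apply,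
        tw_intCast_smul, tw_xan]
      rw [smul_comm]

lemma fl_fst (t : Bool) (i : Fin n) (k : ℕ) : (ofLex (fl t i k)).1 = t := rfl

/-- factor `uf m t` for the fermions -/
lemma tw_fMo (h : A →+* A') (l m : ℂˣ) (t : Bool) (i : Fin n) (k : ℤ) (v : EE n A) :
    tw h l m (fMo n A t i k v) = ((uf m t : ℂˣ) : ℂ) • fMo n A' t i k (tw h l m v) := by
  unfold fMo
  by_cases h1 : k < 0
  · simp only [h1, if_true, LinearMap.restrictScalars_apply, tw_fcr, fl_fst]
  · simp only [h1, if_false, LinearMap.restrictScalars_apply, tw_fan, fl_fst]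
    have : (uf m (!t))⁻¹ = uf m t := by cases t <;> simp [uf]
    rw [this]

lemma dd_cons (D : DS n A) (p : Bl n) (t : Multiset (Bl n)) (f : A) :
    dd D (p ::ₘ t) f = D.d p.1 (dd D t f) := by
  simp only [dd, Multiset.foldr_cons]

lemma map_dd (D : DS n A) (D' : DS n A') (h : A →+* A') (l : ℂˣ)
    (hl : ∀ i f, h (D.d i f) = (l : ℂ) • D'.d i (h f)) (t : Multiset (Bl n)) (f : A) :
    h (dd D t f) = (((l ^ (Multiset.card t) : ℂˣ) : ℂ)) • dd D' t (h f) := by
  induction t using Multiset.induction_on with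
  | empty => simp [dd]
  | cons p t ih =>
    rw [dd_cons, hl, ih, dd_cons, Derivation.map_smul, smul_smul, Multiset.card_cons, pow_succ,
      Units.val_mul, mul_comm]

lemma Sop_csmul (D : DS n A) (c : ℂ) (r : ℕ) (g : A) (v : EE n A) :
    Sop D r (c • g) v = c • Sop D r g v := by
  induction r using Nat.strong_induction_on generalizing g v with
  | _ r ih =>
    rcases r with _ | r
    · simp only [Sop, LinearMap.lsmul_apply, smul_assoc]
    · simp only [Sop, LinearMap.smul_apply, LinearMap.sum_apply, LinearMap.comp_apply,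
        Derivation.map_smul]
      rw [smul_comm c]
      congr 1
      rw [Finset.smul_sum]
      refine Finset.sum_congr rfl fun i _ => ?_
      rw [Finset.smul_sum]
      refine Finset.sum_congr rfl fun k _ => ?_
      rw [ih (r - k) (by omega)]
      exact (xcr (A := A) (i, (k : ℕ))).map_smul_of_tower c _

lemma tw_Sop (D : DS n A) (D' : DS n A') (h : A →+* A') (l m : ℂˣ)
    (hl : ∀ i f, h (D.d i f) = (l : ℂ) • D'.d i (h f)) (r : ℕ) (g : A) (v : EE n A) :
    tw h l m (Sop D r g v) = Sop D' r (h g) (tw h l m v) := by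
  induction r using Nat.strong_induction_on generalizing g v with
  | _ r ih =>
    rcases r with _ | r
    · simp only [Sop, LinearMap.lsmul_apply, tw_smul]
    · have hc : h (algebraMap ℂ A (1 / ((r : ℂ) + 1))) = algebraMap ℂ A' (1 / ((r : ℂ) + 1)) := by
        have h0 : ((r : ℂ) + 1) ≠ 0 := by exact_mod_cast Nat.succ_ne_zero r
        have e1 : h (algebraMap ℂ A (1 / ((r : ℂ) + 1))) * ((r : A') + 1) = 1 := by
          have : h (algebraMap ℂ A (1 / ((r : ℂ) + 1)) * algebraMap ℂ A ((r : ℂ) + 1)) = 1 := by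
            rw [← map_mul, one_div_mul_cancel h0, map_one, map_one]
          rw [map_mul, map_add, map_add, map_natCast, map_natCast, map_one, map_one] at this
          exact this
        have e2 : algebraMap ℂ A' (1 / ((r : ℂ) + 1)) * ((r : A') + 1) = 1 := by
          have : algebraMap ℂ A' (1 / ((r : ℂ) + 1)) * algebraMap ℂ A' ((r : ℂ) + 1) = 1 := by
            rw [← map_mul, one_div_mul_cancel h0, map_one]
          rw [map_add, map_natCast, map_one] at this
          exact this
        calc h (algebraMap ℂ A (1 / ((r : ℂ) + 1)))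
            = h (algebraMap ℂ A (1 / ((r : ℂ) + 1))) *
                (algebraMap ℂ A' (1 / ((r : ℂ) + 1)) * ((r : A') + 1)) := by rw [e2, mul_one]
          _ = (h (algebraMap ℂ A (1 / ((r : ℂ) + 1))) * ((r : A') + 1)) *
                algebraMap ℂ A' (1 / ((r : ℂ) + 1)) := by ring
          _ = _ := by rw [e1, one_mul]
      simp only [Sop, LinearMap.smul_apply, LinearMap.sum_apply, LinearMap.comp_apply, tw_smul,
        map_sum, hc, tw_xcr]
      congr 1
      refine Finset.sum_congr rfl fun i _ => Finset.sum_congr rfl fun k _ => ?_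
      rw [ih (r - k) (by omega), hl, Sop_csmul]
      have := (xcr (A := A') (i, (k : ℕ))).map_smul_of_tower (l : ℂ)
        (Sop D' (r - k) (D'.d i (h g)) (tw h l m v))
      rw [this, smul_smul, ← Units.val_mul, inv_mul_cancel, Units.val_one, one_smul]

lemma tw_SopZ (D : DS n A) (D' : DS n A') (h : A →+* A') (l m : ℂˣ)
    (hl : ∀ i f, h (D.d i f) = (l : ℂ) • D'.d i (h f)) (r : ℤ) (g : A) (v : EE n A) :
    tw h l m (SopZ D r g v) = SopZ D' r (h g) (tw h l m v) := by
  unfold SopZ
  split_ifs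
  · simp
  · exact tw_Sop D D' h l m hl _ _ _

lemma SopZ_csmul (D : DS n A) (c : ℂ) (r : ℤ) (g : A) (v : EE n A) :
    SopZ D r (c • g) v = c • SopZ D r g v := by
  unfold SopZ
  split_ifs
  · simp
  · exact Sop_csmul D c _ _ _

/-- no factor for the function fields -/
lemma tw_fnMo (D : DS n A) (D' : DS n A') (h : A →+* A') (l m : ℂˣ)
    (hl : ∀ i f, h (D.d i f) = (l : ℂ) • D'.d i (h f)) (f : A) (k : ℤ) (v : EE n A) :
    tw h l m (fnMo D f k v) = fnMo D' (h f) k (tw h l m v) := by
  refine ext_single ((tw h l m).comp (fnMo D f k).toAddMonoidHom)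
    ((fnMo D' (h f) k).toAddMonoidHom.comp (tw h l m)) (fun w r => ?_) v
  simp only [AddMonoidHom.coe_comp, Function.comp_apply, LinearMap.toAddMonoidHom_coe, fnMo,
    LinearMap.restrictScalars_apply, tw_single, fnA, Finsupp.linearCombination_single, tw_smul,
    map_multiset_sum, Multiset.map_map]
  rw [mul_comm, mul_smul]
  congr 1
  rw [Multiset.smul_sum, Multiset.map_map]
  congr 1
  refine Multiset.map_congr rfl fun p hp => ?_
  have hcard : Multiset.card w.2.1 = Multiset.card p.1 + Multiset.card p.2 := by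
    rw [Multiset.mem_antidiagonal] at hp
    rw [← hp, Multiset.card_add]
  have hsc : sc l m w = l ^ (Multiset.card p.1) * sc l m ((w.1, p.2, w.2.2) : Mon n) := by
    simp only [sc, hcard, pow_add]
    ac_rfl
  have hs1 : (Finsupp.single ((w.1, p.2, w.2.2) : Mon n)
      (algebraMap ℂ A' ((sc l m ((w.1, p.2, w.2.2) : Mon n) : ℂˣ) : ℂ) * h 1) : EE n A')
      = algebraMap ℂ A' ((sc l m ((w.1, p.2, w.2.2) : Mon n) : ℂˣ) : ℂ) •
        Finsupp.single ((w.1, p.2, w.2.2) : Mon n) 1 := by
    rw [map_one, Finsupp.smul_single, smul_eq_mul]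
  simp only [Function.comp_apply]
  rw [tw_SopZ D D' h l m hl, map_dd D D' h l hl, SopZ_csmul, tw_single, hs1, map_smul, hsc,
    Units.val_mul, map_mul, map_pow, map_neg, map_one]
  generalize (SopZ D' ((mwt p.1 : ℤ) - k - 1) (dd D' p.1 (h f)))
    (Finsupp.single ((w.1, p.2, w.2.2) : Mon n) (1 : A')) = X
  rw [← algebraMap_smul A' (((l ^ (Multiset.card p.1) : ℂˣ) : ℂ)), smul_smul, smul_smul,
    smul_smul]
  congr 1
  ring

lemma tw_sgE (h : A →+* A') (l m : ℂˣ) (v : EE n A) :
    tw h l m (sgE n A v) = sgE n A' (tw h l m v) := by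
  refine ext_single ((tw h l m).comp (sgE n A).toAddMonoidHom)
    ((sgE n A').toAddMonoidHom.comp (tw h l m)) (fun w r => ?_) v
  simp only [AddMonoidHom.coe_comp, Function.comp_apply, LinearMap.toAddMonoidHom_coe,
    sgE, tw_single, Finsupp.linearCombination_single, Finsupp.smul_single, smul_eq_mul, map_mul,
    map_pow, map_neg, map_one, mul_assoc]

lemma tw_vac (h : A →+* A') (l m : ℂˣ) : tw h l m (vacE n A) = vacE n A' := by
  rw [vacE, vacE, tw_single, sc_zero, map_one, Units.val_one, map_one, one_mul]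

end TwistAux

section K5
variable {n : ℕ} {A A' : Type*} [CommRing A] [Algebra ℂ A] [CommRing A'] [Algebra ℂ A']

open TwistAux

theorem tw_inj (h : A →+* A') (l m : ℂˣ) (hinj : Function.Injective h) :
    Function.Injective (tw (n := n) h l m) := by
  rw [injective_iff_map_eq_zero]
  intro v hv
  ext w
  have h1 : (tw h l m v) w = 0 := by rw [hv]; rfl
  rw [tw_apply] at h1
  have h2 : h (v w) = 0 := by
    have : algebraMap ℂ A' (((sc l m w)⁻¹ : ℂˣ) : ℂ) *
        (algebraMap ℂ A' ((sc l m w : ℂˣ) : ℂ) * h (v w)) = 0 := by rw [h1, mul_zero]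
    rwa [← mul_assoc, ← map_mul, ← Units.val_mul, inv_mul_cancel, Units.val_one, map_one,
      one_mul] at this
  rw [Finsupp.zero_apply]
  exact (map_eq_zero_iff h hinj).mp h2

theorem tw_coeff (h : A →+* A') (l m : ℂˣ) (v : EE n A) :
    vc n A' (tw h l m v) = h (vc n A v) := by
  simp only [vc, Finsupp.lapply_apply]
  rw [tw_apply, sc_zero, Units.val_one, map_one, one_mul]

end K5

end Pool.Agent.AA3
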