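import Pool.Agent.Lib.MP_aa3aaf_al.Fld

/-!
The structure `VSA` of a vertex superalgebra (used internally for the calculus).
-/

set_option autoImplicit false
open scoped BigOperators
noncomputable section
namespace Pool.Agent.AA3

/-! ### Vertex superalgebras -/

/-- A vertex superalgebra, in the form used in the proofs. `Y a n b` is the `n`-th product,
`sg` the parity involution. -/
structure VSA (E : Type*) [AddCommGroup E] [Module ℂ E] where
  /-- state-field correspondence -/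
  Y : E →ₗ[ℂ] (ℤ → Module.End ℂ E)
  /-- vacuum -/
  vac : E
  /-- parity involution -/
  sg : E →ₗ[ℂ] E
  trunc : ∀ a b, ∃ N : ℤ, ∀ n, N ≤ n → Y a n b = 0
  Y_vac : ∀ n, Y vac n = if n = -1 then LinearMap.id else 0
  create : ∀ a, Y a (-1) vac = a
  create' : ∀ a (n : ℕ), Y a n vac = 0
  sg_sg : ∀ a, sg (sg a) = a
  sg_vac : sg vac = vac
  sg_Y : ∀ a n b, sg (Y a n b) = Y (sg a) n (sg b)
  /-- commutator formula -/
  comm : ∀ (p q : ℕ) (a b : E), sg a = (-1 : ℂ) ^ p • a → sg b = (-1 : ℂ) ^ q • b →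
    ∀ N : ℕ, (∀ j : ℕ, N ≤ j → Y a j b = 0) → ∀ (m n : ℤ) (c : E),
      Y a m (Y b n c) - (-1 : ℂ) ^ (p * q) • Y b n (Y a m c)
        = ∑ j ∈ Finset.range N, bin m j • Y (Y a j b) (m + n - j) c
  /-- associativity formula -/
  assoc : ∀ (p q : ℕ) (a b : E), sg a = (-1 : ℂ) ^ p • a → sg b = (-1 : ℂ) ^ q • b →
    ∀ (m n : ℤ) (c : E) (N : ℕ),
      (∀ j : ℕ, N ≤ j → Y b (n + j) c = 0 ∧ Y a j c = 0) →
      Y (Y a m b) n c = ∑ j ∈ Finset.range N,
        ((-1 : ℂ) ^ j * bin m j) •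
          (Y a (m - j) (Y b (n + j) c)
            - ((-1 : ℂ) ^ m * (-1 : ℂ) ^ (p * q)) • Y b (m + n - j) (Y a j c))

namespace VSA
variable {E : Type*} [AddCommGroup E] [Module ℂ E] (V : VSA E)

/-- Parity: `a` is homogeneous of parity `p`. -/
def Par (p : ℕ) (a : E) : Prop := V.sg a = (-1 : ℂ) ^ p • a

/-- The translation operator `T a = a₍₋₂₎ 1`. -/
def T : E →ₗ[ℂ] E where
  toFun a := V.Y a (-2) V.vac
  map_add' a b := by simp
  map_smul' c a := by simp

/-- Normally ordered product `a₍₋₁₎ b`, bilinear. -/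
def mul : E →ₗ[ℂ] E →ₗ[ℂ] E where
  toFun a := V.Y a (-1)
  map_add' a b := by simp
  map_smul' c a := by simp

/-- The zero mode. -/
def zm (a : E) : E →ₗ[ℂ] E := V.Y a 0

end VSA

end Pool.Agent.AA3
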